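import Pool.Agent.Lib.MP_17a322_nt.MV.Fam

/-!
The norms of the families.
-/

namespace Pool.Agent.Lib.MP_17a322_nt.MV

open Pool.Agent.Lib.MP_17a322_nt.FQ

variable {W Γ : Type*} [Field W] [LinearOrderedCommGroupWithZero Γ] (v : Valuation W Γ) {ι : Type} [Fintype ι]
  {α β : Type} [Fintype α] [Fintype β]

/-- PROOF: `vn_tensor` (FQ/N0). -/
theorem vn_tt (a : α → W) (b : β → W) : vn v (tt a b) = vn v a * vn v b := by
  exact vn_tensor v a b

/-- PROOF: induction on `r` or directly: `le_antisymm`, `vn_attained'`; `Finset.prod_le_prod'`. If `x = 0` and `r > 0`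
both sides are zero; for `r = 0` both are one. -/
theorem vn_tpw (r : ℕ) (x : α → W) : vn v (tpw r x) = vn v x ^ r := by
  apply le_antisymm
  · apply vn_le
    intro a
    unfold tpw
    rw [map_prod]
    refine (Finset.prod_le_prod' fun j _ => le_vn v x (a j)).trans (le_of_eq ?_)
    rw [Finset.prod_const, Finset.card_univ, Fintype.card_fin]
  · by_cases hx : x = 0
    · rcases Nat.eq_zero_or_pos r with hr | hr
      · subst hr
        rw [pow_zero]
        have h := le_vn v (tpw 0 x) Fin.elim0
        unfold tpw at h ⊢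
        rw [Finset.univ_eq_empty, Finset.prod_empty, map_one] at h
        exact h
      · rw [(vn_eq_zero v).2 hx, zero_pow hr.ne']
        exact zero_le
    · obtain ⟨a, -, ha⟩ := vn_attained' v hx
      have h := le_vn v (tpw r x) (fun _ => a)
      unfold tpw at h ⊢
      rw [Finset.prod_const, Finset.card_univ, Fintype.card_fin, map_pow, ha] at h
      exact h

variable {k k' r : ℕ} (o : ι) (s : Fin k → ι) (x : ι → W) (e : Fin (k' + 1) ⊕ Fin r → ι → W) (z : W)
  (y : Option (Fin k) → W)

theorem vn_famP : vn v (famP o s x e z y) =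
    max (vn v (plk e) * (vn v (plk fun j b => e (Sum.inl j) (os o s b)) * (v z ^ r * vn v y ^ (2 * r))))
      (vn v (plk fun j b => e j (os o s b)) * (vn v (plk fun j => e (Sum.inl j)) * vn v x ^ r)) := by
  have hu : vn v (fun _ : Unit => z ^ r) = v z ^ r := by
    apply le_antisymm
    · apply vn_le
      intro _
      rw [map_pow]
    · have h := le_vn v (fun _ : Unit => z ^ r) ()
      rwa [map_pow] at h
  have hA : vn v (famA o s e z y) =
      vn v (plk e) * (vn v (plk fun j b => e (Sum.inl j) (os o s b)) * (v z ^ r * vn v y ^ (2 * r))) := by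
    unfold famA
    rw [vn_tt, vn_tt, vn_tt, vn_tpw, hu]
  have hB : vn v (famB o s x e) =
      vn v (plk fun j b => e j (os o s b)) * (vn v (plk fun j => e (Sum.inl j)) * vn v x ^ r) := by
    unfold famB
    rw [vn_tt, vn_tt, vn_tpw]
  rw [← hA, ← hB]
  unfold famP
  apply le_antisymm
  · apply vn_le
    rintro (a | b)
    · exact le_max_of_le_left (le_vn v (famA o s e z y) a)
    · exact le_max_of_le_right (le_vn v (famB o s x e) b)
  · apply max_le
    · exact vn_le v fun a => le_vn v (Sum.elim (famA o s e z y) (famB o s x e)) (Sum.inl a)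
    · exact vn_le v fun b => le_vn v (Sum.elim (famA o s e z y) (famB o s x e)) (Sum.inr b)

theorem vn_famQ : vn v (famQ o s x e z y) = vn v (plk fun j => e (Sum.inl j)) *
    (vn v x ^ r * (vn v (plk fun j b => e (Sum.inl j) (os o s b)) * (v z ^ r * vn v y ^ (2 * r)))) := by
  have hu : vn v (fun _ : Unit => z ^ r) = v z ^ r := by
    apply le_antisymm
    · apply vn_le
      intro _
      rw [map_pow]
    · have h := le_vn v (fun _ : Unit => z ^ r) ()
      rwa [map_pow] at h
  unfold famQ
  rw [vn_tt, vn_tt, vn_tt, vn_tt, vn_tpw, vn_tpw, hu]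

end Pool.Agent.Lib.MP_17a322_nt.MV
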