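import Pool.Agent.Lib.MP_17a322_nt.FQ.X14
import Pool.Agent.Lib.MP_17a322_nt.FQ.H4

/-!
All quotients of the space of the derivations have degrees which are not negative, for every model.
-/

namespace Pool.Agent.Lib.MP_17a322_nt.MV

open Pool.Agent.Lib.MP_17a322_nt.FQ

/-- PROOF: for `η > 0` the statement `hQ B X E hE m hm η` gives a finer model `m'` with `dg m' L ≤ dg m' ⊤ + η`; by
`dg_le_add` (FQ/H4) `dg m L ≤ dg m' L + (dg m ⊤ - dg m' ⊤) ≤ dg m ⊤ + η`. Then `le_of_forall_pos_le_add`. -/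
theorem thmS (hQ : SemiQ) {B : Type} [Field B] [Algebra ℚ B] (X : Evl ℚ B ℕ) (E : Type) [Field E] [Algebra ℚ E]
    [Algebra E B] [IsScalarTower ℚ E B] [FiniteDimensional E (Derivation ℚ E E)]
    (hE : (⊤ : IntermediateField ℚ E).FG) {κ : Type} [Fintype κ] (m : κ → E) (hm : IsMd ℚ m)
    (L : Submodule E (Derivation ℚ E E)) : dg (X.ht E) m L ≤ dg (X.ht E) m ⊤ := by
  refine le_of_forall_pos_le_add fun η hη => ?_
  obtain ⟨κ', hκ', m', hm', hfi, h⟩ := hQ B X E hE m hm η hη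
  have h1 := dg_le_add (X.ht E) m m' hm hm' hfi L
  have h2 := h L
  linarith

end Pool.Agent.Lib.MP_17a322_nt.MV
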