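import Mathlib

/-!
Laplace expansion, for valuations.
-/

namespace Pool.Agent.Lib.MP_17a322_nt.MV

private theorem A2b_sign_single {C : Type} [Fintype C] [DecidableEq C] (r : C → ℕ) (c : C)
    (x : Equiv.Perm (Fin (r c))) :
    Equiv.Perm.sign (Equiv.Perm.sigmaCongrRight
      (Pi.mulSingle c x : ∀ c, Equiv.Perm (Fin (r c)))) = Equiv.Perm.sign x := by
  have key : ((Equiv.Perm.sign (α := Σ c, Fin (r c))).comp
      ((Equiv.Perm.sigmaCongrRightHom (fun c => Fin (r c))).comp
        (MonoidHom.mulSingle (fun c => Equiv.Perm (Fin (r c))) c))) =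
      Equiv.Perm.sign (α := Fin (r c)) := by
    refine MonoidHom.ext fun x => ?_
    induction x using Equiv.Perm.swap_induction_on with
    | one => simp
    | swap_mul f i j hij hf =>
      rw [map_mul, map_mul, hf]
      congr 1
      have h1 : (Equiv.Perm.sigmaCongrRight
          (Pi.mulSingle c (Equiv.swap i j) : ∀ c, Equiv.Perm (Fin (r c)))) =
          Equiv.swap (⟨c, i⟩ : Σ c, Fin (r c)) ⟨c, j⟩ := by
        ext1 ⟨d, k⟩
        by_cases hd : d = c
        · subst hd
          by_cases h1 : k = i
          · subst h1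
            simp [Equiv.Perm.sigmaCongrRight]
          · by_cases h2 : k = j
            · subst h2
              simp [Equiv.Perm.sigmaCongrRight]
            · rw [Equiv.swap_apply_of_ne_of_ne]
              · simp [Equiv.Perm.sigmaCongrRight, Equiv.swap_apply_of_ne_of_ne h1 h2]
              · intro h
                exact h1 (by simpa using h)
              · intro h
                exact h2 (by simpa using h)
        · rw [Equiv.swap_apply_of_ne_of_ne]
          · simp [Equiv.Perm.sigmaCongrRight, Pi.mulSingle_eq_of_ne hd]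
          · intro h
            exact hd (congrArg Sigma.fst h)
          · intro h
            exact hd (congrArg Sigma.fst h)
      change Equiv.Perm.sign (Equiv.Perm.sigmaCongrRight
          (Pi.mulSingle c (Equiv.swap i j) : ∀ c, Equiv.Perm (Fin (r c)))) = _
      rw [h1, Equiv.Perm.sign_swap, Equiv.Perm.sign_swap hij]
      intro h
      exact hij (by simpa using h)
  exact DFunLike.congr_fun key x

private theorem A2b_sign {C : Type} [Fintype C] [DecidableEq C] (r : C → ℕ)
    (h : ∀ c, Equiv.Perm (Fin (r c))) :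
    Equiv.Perm.sign (Equiv.Perm.sigmaCongrRight h) = ∏ c, Equiv.Perm.sign (h c) := by
  have e : ∀ (s : Finset C), Equiv.Perm.sign (Equiv.Perm.sigmaCongrRight
      (fun c => if c ∈ s then h c else 1)) = ∏ c ∈ s, Equiv.Perm.sign (h c) := by
    intro s
    induction s using Finset.induction_on with
    | empty =>
      simp only [Finset.notMem_empty, if_false, Finset.prod_empty]
      exact (map_one ((Equiv.Perm.sign (α := Σ c, Fin (r c))).comp
        (Equiv.Perm.sigmaCongrRightHom (fun c => Fin (r c)))))
    | insert c s hc ih =>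
      have h2 : (fun d => if d ∈ insert c s then h d else 1) =
          (Pi.mulSingle c (h c) : ∀ c, Equiv.Perm (Fin (r c))) *
            (fun d => if d ∈ s then h d else 1) := by
        funext d
        by_cases hd : d = c
        · subst hd
          simp [hc]
        · simp [hd]
      rw [h2, ← Equiv.Perm.sigmaCongrRight_mul, map_mul, A2b_sign_single, ih,
        Finset.prod_insert hc]
  have := e Finset.univ
  simpa using this

/-- If the minors of the blocks of rows `c` satisfy `|det (a_(⟨c, i⟩, w j))_(i, j)| * p c ≤ q c * ∏_j N (w j)` for all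
choices `w` of `r c` columns, then the same holds for the whole matrix.

PROOF: the Leibniz formula grouped by blocks: `det M = ∑_σ sign σ ∏_z M z (σ z)`. Generalised Laplace expansion: for a
fixed map `τ` from the columns to the blocks `c` the partial sum over the permutations `σ` with `τ (σ z) = z.1` is
`± ∏_c det (a_(⟨c, i⟩, w_c j))`. To avoid signs: induction on the number of the blocks, or: multilinearity. Let
`Φ c : (Fin (r c) → V) → E` be alternating maps; the determinant is an alternating form on the vectors (columns)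
`w : (Σ c, Fin (r c)) → W`, and at a valuation one may argue with a norm instead: let `V = R → E` be the space of the
columns with `R = Σ c, Fin (r c)`; the statement is multilinear in the columns. Another way: `Matrix.det_mul`-free
proof with the columns `N z`: choose a subset of the permutations by their images of the first block:
`AlternatingMap.domCoprod` or `Matrix.det` along `Equiv.Perm.sumCongrHom` (see `Matrix.det_fromBlocks...`,
`MultilinearMap.domCoprod`, `AlternatingMap.domCoprod`: for two blocks `R₁ ⊕ R₂` the determinant is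
`∑_(σ ∈ Perm.ModSumCongr) sign σ * det₁ * det₂`). By induction on the finite set of the blocks it is enough to do two
blocks `R₁ ⊕ R₂`. -/
theorem laplace {E Γ : Type*} [Field E] [LinearOrderedCommGroupWithZero Γ] (v : Valuation E Γ) {C : Type}
    [Fintype C] [DecidableEq C] (r : C → ℕ) {D : Type*} (a : (Σ c, Fin (r c)) → D → E) (N : D → Γ)
    (p q : C → Γ) (hb : ∀ c (w : Fin (r c) → D),
      v (Matrix.of fun j i => a ⟨c, i⟩ (w j)).det * p c ≤ q c * ∏ j, N (w j))
    (w : (Σ c, Fin (r c)) → D) :
    v (Matrix.of fun j z => a z (w j)).det * ∏ c, p c ≤ (∏ c, q c) * ∏ j, N (w j) := by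
  classical
  set H : Subgroup (Equiv.Perm (Σ c, Fin (r c))) :=
    (Equiv.Perm.sigmaCongrRightHom (fun c => Fin (r c))).range with hH
  set f : Equiv.Perm (Σ c, Fin (r c)) → E := fun σ =>
    ((Equiv.Perm.sign σ : ℤ) : E) * ∏ z, a z (w (σ z)) with hf
  have hdet : (Matrix.of fun j z => a z (w j)).det = ∑ σ, f σ := by
    rw [Matrix.det_apply']
    simp [hf]
  -- the partial sum over a coset
  have hcos : ∀ σ : Equiv.Perm (Σ c, Fin (r c)),
      ∑ h : (∀ c, Equiv.Perm (Fin (r c))), f (σ * Equiv.Perm.sigmaCongrRight h) =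
        ((Equiv.Perm.sign σ : ℤ) : E) *
          ∏ c, (Matrix.of fun (j i : Fin (r c)) => a ⟨c, i⟩ (w (σ ⟨c, j⟩))).det := by
    intro σ
    have h1 : ∏ c, (Matrix.of fun (j i : Fin (r c)) => a ⟨c, i⟩ (w (σ ⟨c, j⟩))).det =
        ∏ c, ∑ h : Equiv.Perm (Fin (r c)), ((Equiv.Perm.sign h : ℤ) : E) *
          ∏ i, a ⟨c, i⟩ (w (σ ⟨c, h i⟩)) := by
      refine Finset.prod_congr rfl fun c _ => ?_
      rw [Matrix.det_apply']
      simp
    rw [h1, Finset.prod_univ_sum, Fintype.piFinset_univ, Finset.mul_sum]
    refine Finset.sum_congr rfl fun h _ => ?_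
    simp only [hf]
    rw [map_mul, A2b_sign, Finset.prod_mul_distrib, ← mul_assoc]
    congr 1
    · push_cast
      ring
    · rw [Fintype.prod_sigma]
      refine Finset.prod_congr rfl fun c _ => Finset.prod_congr rfl fun i _ => ?_
      simp [Equiv.Perm.sigmaCongrRight]
  have hfib : ∑ σ, f σ = ∑ Q : (Equiv.Perm (Σ c, Fin (r c)) ⧸ H),
      ∑ h : (∀ c, Equiv.Perm (Fin (r c))), f (Q.out * Equiv.Perm.sigmaCongrRight h) := by
    rw [← Finset.sum_fiberwise_of_maps_to (s := Finset.univ) (t := Finset.univ)
      (g := fun σ : Equiv.Perm (Σ c, Fin (r c)) => (σ : Equiv.Perm (Σ c, Fin (r c)) ⧸ H))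
      (fun _ _ => Finset.mem_univ _)]
    refine Finset.sum_congr rfl fun Q _ => ?_
    symm
    refine Finset.sum_bij (fun h _ => Q.out * Equiv.Perm.sigmaCongrRight h) ?_ ?_ ?_ ?_
    · intro h _
      simp only [Finset.mem_filter, Finset.mem_univ, true_and]
      conv_rhs => rw [← QuotientGroup.out_eq' Q]
      rw [eq_comm, QuotientGroup.eq]
      refine ⟨h, ?_⟩
      simp [Equiv.Perm.sigmaCongrRightHom]
    · intro h _ h' _ hh
      have := mul_left_cancel hh
      exact Equiv.Perm.sigmaCongrRightHom_injective this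
    · intro σ hσ
      simp only [Finset.mem_filter, Finset.mem_univ, true_and] at hσ
      have h2 : Q.out⁻¹ * σ ∈ H := by
        rw [← QuotientGroup.eq, QuotientGroup.out_eq', hσ]
      obtain ⟨h, hh⟩ := h2
      refine ⟨h, Finset.mem_univ _, ?_⟩
      have hh' : Equiv.Perm.sigmaCongrRight h = Q.out⁻¹ * σ := hh
      rw [hh', mul_inv_cancel_left]
    · intro h _
      rfl
  have hσ : ∀ σ : Equiv.Perm (Σ c, Fin (r c)),
      v (∏ c, (Matrix.of fun (j i : Fin (r c)) => a ⟨c, i⟩ (w (σ ⟨c, j⟩))).det) * ∏ c, p c ≤
        (∏ c, q c) * ∏ j, N (w j) := by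
    intro σ
    rw [map_prod, ← Finset.prod_mul_distrib]
    calc ∏ c, v (Matrix.of fun (j i : Fin (r c)) => a ⟨c, i⟩ (w (σ ⟨c, j⟩))).det * p c
        ≤ ∏ c, (q c * ∏ j, N (w (σ ⟨c, j⟩))) :=
          Finset.prod_le_prod' (fun c _ => hb c fun j => w (σ ⟨c, j⟩))
      _ = (∏ c, q c) * ∏ j, N (w j) := by
          rw [Finset.prod_mul_distrib]
          congr 1
          rw [← Fintype.prod_sigma (fun z : Σ c, Fin (r c) => N (w (σ z)))]
          exact Equiv.prod_comp σ fun z => N (w z)
  rw [hdet, hfib]
  have hsgn : ∀ σ : Equiv.Perm (Σ c, Fin (r c)), v (((Equiv.Perm.sign σ : ℤ) : E)) = 1 := by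
    intro σ
    rcases Int.units_eq_one_or (Equiv.Perm.sign σ) with h | h <;> simp [h, Valuation.map_neg]
  -- the maximum of the cosets
  by_cases hp : ∏ c, p c = 0
  · rw [hp, mul_zero]
    exact zero_le
  · rw [← le_div_iff₀ (zero_lt_iff.mpr hp)]
    refine Valuation.map_sum_le v fun Q _ => ?_
    rw [le_div_iff₀ (zero_lt_iff.mpr hp), hcos, map_mul, hsgn, one_mul]
    exact hσ _

end Pool.Agent.Lib.MP_17a322_nt.MV
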