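import Pool.Agent.Lib.MP_17a322_nt.MV.A2a
import Pool.Agent.Lib.MP_17a322_nt.MV.A2b

/-!
The degree of the quotient of two spaces of derivations.
-/

universe u v

namespace Pool.Agent.Lib.MP_17a322_nt.MV

open Pool.Agent.Lib.MP_17a322_nt.FQ

private theorem a2_Lm_prod {k : Type v} {E : Type u} [Field k] [Field E] [Algebra k E] (H : Ht k E) {C : Type}
    (s : Finset C) {κP : C → Type} [∀ c, Fintype (κP c)] (P : ∀ c, κP c → E) (hP : ∀ c, P c ≠ 0) :
    Lm H (fun A => ∏ c ∈ s, nm k (P c) A) (∑ c ∈ s, H.lam (P c)) := by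
  classical
  induction s using Finset.induction_on with
  | empty =>
    simp only [Finset.prod_empty, Finset.sum_empty]
    exact Lm_one
  | insert c s hc ih =>
    rw [Finset.sum_insert hc]
    have h : (fun A : VQ k E => ∏ c ∈ insert c s, nm k (P c) A) =
        fun A => nm k (P c) A * ∏ c ∈ s, nm k (P c) A := by
      funext A
      rw [Finset.prod_insert hc]
    rw [h]
    exact Lm_mul (Lm_fam (P c) (hP c)) ih

/-- PROOF: Let `R = Σ c, Fin (r c)`, `u` a basis of `L` (`finBasis`), `v j ∈ M` dual to the functionals (`hs`). The family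
`Sum.elim u v` is a basis of `M`: for `D ∈ M` the derivation `D - ∑ lam j D • v j` is in `L`. At every `A`, by `laplace`
with `D = M` (or all derivations: use the set of the `w` in `M`; take for `D` in `laplace` the type `M`),
`N = mn m A`, `p c = nm (P c) A`, `q c = nm (Q c) A`, and `quot_local`:
`dv m u A * ∏ nm (P c) A ≤ dv m (Sum.elim u v) A * ∏ nm (Q c) A`. By `Lm_mono`, `Lm_mul`, `Lm_fam` (a product of the
families over `c`: induction, or `Lm` for the function `∏ c, nm (P c) A` by induction with `Lm_mul`, `Lm_one`) and `dv_dg`: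
`- dg L + ∑ H.lam (P c) ≤ - dg M + ∑ H.lam (Q c)`. -/
theorem lemG {k : Type v} {E : Type u} [Field k] [Field E] [Algebra k E]
    [FiniteDimensional E (Derivation k E E)] (H : Ht k E) {κ : Type} [Fintype κ] (m : κ → E) (hm : IsMd k m)
    (M L : Submodule E (Derivation k E E)) {C : Type} [Fintype C] [DecidableEq C] (r : C → ℕ)
    (lam : (Σ c, Fin (r c)) → Derivation k E E →ₗ[E] E) (hL : ∀ D, D ∈ L ↔ D ∈ M ∧ ∀ z, lam z D = 0)
    (hs : ∀ w : (Σ c, Fin (r c)) → E, ∃ D ∈ M, ∀ z, lam z D = w z) {κP κQ : C → Type}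
    [∀ c, Fintype (κP c)] [∀ c, Fintype (κQ c)] (P : ∀ c, κP c → E) (Q : ∀ c, κQ c → E)
    (hP : ∀ c, P c ≠ 0) (hQ : ∀ c, Q c ≠ 0)
    (hb : ∀ c (A : VQ k E) (w : Fin (r c) → Derivation k E E), (∀ j, w j ∈ M) →
      A.1.valuation (Matrix.of fun j i => lam ⟨c, i⟩ (w j)).det * nm k (P c) A ≤
        nm k (Q c) A * ∏ j, mn m A (w j)) :
    dg H m M - dg H m L ≤ ∑ c, (H.lam (Q c) - H.lam (P c)) := by
  choose v hvM hv using fun j : (Σ c, Fin (r c)) => hs fun z => if z = j then 1 else 0
  have hlv : ∀ i j, lam i (v j) = if i = j then 1 else 0 := fun i j => hv j i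
  set u : Fin (Module.finrank E L) → Derivation k E E :=
    fun i => ((Module.finBasis E L i : L) : Derivation k E E) with hudef
  have hu : LinearIndependent E u := (Module.finBasis E L).linearIndependent.map' L.subtype (Submodule.ker_subtype L)
  have huL : Submodule.span E (Set.range u) = L := by
    have h1 : Set.range u = L.subtype '' Set.range (Module.finBasis E L) := by
      rw [← Set.range_comp]
      rfl
    rw [h1, Submodule.span_image, (Module.finBasis E L).span_eq, Submodule.map_top, Submodule.range_subtype]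
  have hLM : L ≤ M := fun D hD => ((hL D).1 hD).1
  -- the functionals on combinations of the `v j`
  have hcomb : ∀ (c : (Σ c, Fin (r c)) → E) i, lam i (∑ j, c j • v j) = c i := by
    intro c i
    rw [map_sum, Finset.sum_eq_single i]
    · rw [map_smul, hlv, if_pos rfl, smul_eq_mul, mul_one]
    · intro j _ hj
      rw [map_smul, hlv, if_neg (fun h => hj h.symm), smul_zero]
    · intro h
      exact absurd (Finset.mem_univ i) h
  have hvi : LinearIndependent E v := by
    rw [Fintype.linearIndependent_iff]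
    intro c hc i
    rw [← hcomb c i, hc, map_zero]
  have hdis : Disjoint (Submodule.span E (Set.range u)) (Submodule.span E (Set.range v)) := by
    rw [huL, Submodule.disjoint_def]
    intro w hw hw2
    obtain ⟨c, rfl⟩ := (Submodule.mem_span_range_iff_exists_fun E).1 hw2
    have h1 : ∀ i, c i = 0 := fun i => by rw [← hcomb c i]; exact ((hL _).1 hw).2 i
    exact Finset.sum_eq_zero fun i _ => by rw [h1 i, zero_smul]
  have huv : LinearIndependent E (Sum.elim u v) := hu.sum_type hvi hdis
  have hsp : Submodule.span E (Set.range (Sum.elim u v)) = M := by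
    rw [Set.Sum.elim_range, Submodule.span_union, huL]
    apply le_antisymm
    · refine sup_le hLM (Submodule.span_le.2 ?_)
      rintro _ ⟨j, rfl⟩
      exact hvM j
    · intro D hD
      have h1 : ∑ j, lam j D • v j ∈ Submodule.span E (Set.range v) :=
        Submodule.sum_mem _ fun j _ => Submodule.smul_mem _ _ (Submodule.subset_span ⟨j, rfl⟩)
      have h2 : D - ∑ j, lam j D • v j ∈ L := by
        refine (hL _).2 ⟨M.sub_mem hD (Submodule.sum_mem _ fun j _ => Submodule.smul_mem _ _ (hvM j)), fun z => ?_⟩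
        rw [map_sub, hcomb (fun j => lam j D) z, sub_self]
      have h3 : D = (D - ∑ j, lam j D • v j) + ∑ j, lam j D • v j := by abel
      rw [h3]
      exact Submodule.add_mem_sup h2 h1
  have hx : Lm H (dv m u) (- dg H m L) := by
    have h := dv_dg H m hm u hu
    rwa [huL] at h
  have hy : Lm H (dv m (Sum.elim u v)) (- dg H m M) := by
    have h := dv_dg H m hm (Sum.elim u v) huv
    rwa [hsp] at h
  have key : ∀ A : VQ k E, dv m u A * (∏ c, nm k (P c) A) ≤ dv m (Sum.elim u v) A * ∏ c, nm k (Q c) A := by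
    intro A
    refine quot_local m hm M L lam hL u hu huL v hvM hlv A _ _ fun w hw => ?_
    exact laplace A.1.valuation r (fun z (D : M) => lam z D) (fun D : M => mn m A D) (fun c => nm k (P c) A)
      (fun c => nm k (Q c) A) (fun c w => hb c A (fun j => w j) fun j => (w j).2) (fun j => ⟨w j, hw j⟩)
  have h := Lm_mono (Lm_mul hx (a2_Lm_prod H Finset.univ P hP)) (Lm_mul hy (a2_Lm_prod H Finset.univ Q hQ)) key
  rw [Finset.sum_sub_distrib]
  linarith

end Pool.Agent.Lib.MP_17a322_nt.MV
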