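import Pool.Agent.Lib.MP_17a322_nt.FQ.H4

/-!
The quotient of two spaces of derivations, at one valuation ring.
-/

universe u v

namespace Pool.Agent.Lib.MP_17a322_nt.MV

open Pool.Agent.Lib.MP_17a322_nt.FQ

/-- A frame of `M` adapted to `L`, indexed by a sum type. -/
private theorem A2a_frame {k : Type v} {E : Type u} [Field k] [Field E] [Algebra k E]
    [FiniteDimensional E (Derivation k E E)] {κ : Type} [Fintype κ] (m : κ → E) (hm : IsMd k m)
    (M L : Submodule E (Derivation k E E)) (hLM : L ≤ M) {R : Type} [Fintype R] {l : ℕ}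
    (hl : Module.finrank E L = l) (hM : Module.finrank E M = l + Fintype.card R) (A : VQ k E) :
    ∃ f : Fin l ⊕ R → Derivation k E E, (∀ x, f x ∈ M) ∧ (∀ i, f (Sum.inl i) ∈ L) ∧
      (∀ x, mn m A (f x) ≤ 1) ∧ LinearIndependent E f ∧
      (∀ w ∈ M, ∃ c : Fin l ⊕ R → E, w = ∑ x, c x • f x) ∧
      ∀ (c : Fin l ⊕ R → E) (x : Fin l ⊕ R), A.1.valuation (c x) ≤ mn m A (∑ y, c y • f y) := by
  classical
  obtain ⟨Fr, -, hFr⟩ := exists_frames m hm L M hLM
  obtain ⟨g, -, hgM, hgL, hg1, hg2⟩ := hFr A
  let e : Fin l ⊕ R ≃ Fin (Module.finrank E M) :=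
    ((Equiv.sumCongr (Equiv.refl (Fin l)) (Fintype.equivFin R)).trans finSumFinEquiv).trans
      (finCongr hM.symm)
  have hel : ∀ i : Fin l, ((e (Sum.inl i) : Fin (Module.finrank E M)) : ℕ) < Module.finrank E L := by
    intro i
    have h1 : ((e (Sum.inl i) : Fin (Module.finrank E M)) : ℕ) = (i : ℕ) := rfl
    rw [h1, hl]
    exact i.2
  have hspan : ∀ w ∈ M, ∃ c : Fin l ⊕ R → E, w = ∑ x, c x • g (e x) ∧
      ∀ x, A.1.valuation (c x) ≤ mn m A w := by
    intro w hw
    obtain ⟨c, hc, hb⟩ := hg2 w hw
    refine ⟨fun x => c (e x), ?_, fun x => hb (e x)⟩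
    rw [hc]
    exact (Equiv.sum_comp e fun j => c j • g j).symm
  have hli : LinearIndependent E (fun x => g (e x)) := by
    have h1 : Submodule.span E (Set.range fun x => g (e x)) = M := by
      apply le_antisymm
      · rw [Submodule.span_le]
        rintro _ ⟨x, rfl⟩
        exact hgM _
      · intro w hw
        obtain ⟨c, hc, -⟩ := hspan w hw
        rw [hc]
        exact Submodule.sum_mem _ fun x _ => Submodule.smul_mem _ _ (Submodule.subset_span ⟨x, rfl⟩)
    rw [linearIndependent_iff_card_eq_finrank_span, Set.finrank, h1, hM, Fintype.card_sum,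
      Fintype.card_fin]
  refine ⟨fun x => g (e x), fun x => hgM _, fun i => hgL _ (hel i), fun x => hg1 _, hli, ?_, ?_⟩
  · intro w hw
    obtain ⟨c, hc, -⟩ := hspan w hw
    exact ⟨c, hc⟩
  · intro c x
    have hmem : ∑ y, c y • g (e y) ∈ M := Submodule.sum_mem _ fun y _ => Submodule.smul_mem _ _ (hgM _)
    obtain ⟨c', hc', hb⟩ := hspan _ hmem
    have h1 : c = c' := by
      have h2 : ∑ y, (c y - c' y) • g (e y) = 0 := by
        simp only [sub_smul, Finset.sum_sub_distrib]
        rw [← hc', sub_self]
      funext y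
      exact sub_eq_zero.1 (Fintype.linearIndependent_iff.1 hli _ h2 y)
    rw [h1] at hb ⊢
    exact hb x

/-- At one valuation ring `A`: if `|det lam_i (w_j)| * p ≤ q * ∏ |w_j|` for all `w_j ∈ M`, then
`|u_1 ∧ ... ∧ u_l| * p ≤ |u_1 ∧ ... ∧ u_l ∧ v_1 ∧ ... ∧ v_r| * q`, where the `u_i` are a basis of `L` and the `v_j ∈ M` are
dual to the functionals `lam_i`, whose common zeros in `M` are `L`.

PROOF: `exists_frames m hm L M` (FQ/H3) gives at `A` a frame `u' : Fin (finrank M) → _` of `M` whose first `finrank L`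
members lie in `L`, `mn m A (u' j) ≤ 1`, and every `w ∈ M` is `∑ c_j u'_j` with `|c_j| ≤ mn m A w`; as in `H4_frame`
(FQ/H4) the `u'_j` are independent and `dv m u' A = 1` (`dv_frame`), and the same for the first ones and `L`
(their coefficients for `w ∈ L`: the others are zero by the independence, because the first ones are a basis of `L` by
dimension). Split `Fin (finrank M) ≃ Fin l ⊕ Fin r`. The family `Sum.elim u v` is `P` times the frame with a block
triangular matrix `P`, diagonal blocks `P₁`, `P₂`; `dv m u A = |det P₁|` and `dv m (Sum.elim u v) A = |det P₁| |det P₂|`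
(`dv_mul`, `dv_equiv`). For the last members `w_j` of the frame `δ_ij = lam_i (v_j) = ∑_l P₂ j l * lam_i (w_l)`, so
`det P₂ * det (lam_i (w_l)) = 1`. The hypothesis for the `w_j` gives `|det (lam_i w_j)| * p ≤ q`. -/
theorem quot_local {k : Type v} {E : Type u} [Field k] [Field E] [Algebra k E]
    [FiniteDimensional E (Derivation k E E)] {κ : Type} [Fintype κ] (m : κ → E) (hm : IsMd k m)
    (M L : Submodule E (Derivation k E E)) {R : Type} [Fintype R] [DecidableEq R]
    (lam : R → Derivation k E E →ₗ[E] E) (hL : ∀ D, D ∈ L ↔ D ∈ M ∧ ∀ z, lam z D = 0)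
    {l : ℕ} (u : Fin l → Derivation k E E) (hu : LinearIndependent E u)
    (huL : Submodule.span E (Set.range u) = L) (v : R → Derivation k E E) (hv : ∀ j, v j ∈ M)
    (hlv : ∀ i j, lam i (v j) = if i = j then 1 else 0) (A : VQ k E) (p q : A.1.ValueGroup)
    (hb : ∀ w : R → Derivation k E E, (∀ j, w j ∈ M) →
      A.1.valuation (Matrix.of fun j i => lam i (w j)).det * p ≤ q * ∏ j, mn m A (w j)) :
    dv m u A * p ≤ dv m (Sum.elim u v) A * q := by
  classical
  have hLM : L ≤ M := fun D hD => ((hL D).1 hD).1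
  have huM : ∀ i, u i ∈ L := fun i => by
    rw [← huL]
    exact Submodule.subset_span ⟨i, rfl⟩
  have hl : Module.finrank E L = l := by
    rw [← huL, finrank_span_eq_card hu, Fintype.card_fin]
  -- the family `Sum.elim u v` is a basis of `M`
  have hlam : ∀ (i : R) (b : R → E), lam i (∑ j, b j • v j) = b i := by
    intro i b
    rw [map_sum]
    simp only [map_smul, hlv, smul_eq_mul, mul_ite, mul_one, mul_zero, Finset.sum_ite_eq,
      Finset.mem_univ, if_true]
  have hdisj : LinearIndependent E (Sum.elim u v) := by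
    have hvi : LinearIndependent E v := by
      rw [Fintype.linearIndependent_iff]
      intro b hb0 i
      rw [← hlam i b, hb0, map_zero]
    refine hu.sum_type hvi ?_
    rw [huL, Submodule.disjoint_def]
    intro w hw hw2
    obtain ⟨b, rfl⟩ := (Submodule.mem_span_range_iff_exists_fun E).1 hw2
    have h1 : ∀ i, b i = 0 := fun i => by
      rw [← hlam i b]
      exact ((hL _).1 hw).2 i
    simp only [h1, zero_smul, Finset.sum_const_zero]
  have hspM : Submodule.span E (Set.range (Sum.elim u v)) = M := by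
    rw [Set.Sum.elim_range, Submodule.span_union, huL]
    apply le_antisymm
    · refine sup_le hLM ?_
      rw [Submodule.span_le]
      rintro _ ⟨j, rfl⟩
      exact hv j
    · intro w hw
      have h1 : w - ∑ j, lam j w • v j ∈ L := by
        rw [hL]
        refine ⟨M.sub_mem hw (Submodule.sum_mem _ fun j _ => Submodule.smul_mem _ _ (hv j)), ?_⟩
        intro i
        rw [map_sub, hlam i fun j => lam j w, sub_self]
      have h2 : w = (w - ∑ j, lam j w • v j) + ∑ j, lam j w • v j := by abel
      rw [h2]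
      refine Submodule.add_mem_sup h1 ?_
      exact Submodule.sum_mem _ fun j _ => Submodule.smul_mem _ _ (Submodule.subset_span ⟨j, rfl⟩)
  have hM : Module.finrank E M = l + Fintype.card R := by
    rw [← hspM, finrank_span_eq_card hdisj, Fintype.card_sum, Fintype.card_fin]
  obtain ⟨f, hfM, hfL, hf1, hfi, hfs, hfc⟩ := A2a_frame m hm M L hLM hl hM A
  -- the first members of the frame span `L`
  have hf1i : LinearIndependent E (fun i : Fin l => f (Sum.inl i)) :=
    hfi.comp Sum.inl Sum.inl_injective
  have hf1s : Submodule.span E (Set.range fun i : Fin l => f (Sum.inl i)) = L := by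
    apply Submodule.eq_of_le_of_finrank_eq
    · rw [Submodule.span_le]
      rintro _ ⟨i, rfl⟩
      exact hfL i
    · rw [finrank_span_eq_card hf1i, Fintype.card_fin, hl]
  have hdf : dv m f A = 1 := dv_frame m hm f A hf1 hfc
  have hdf1 : dv m (fun i : Fin l => f (Sum.inl i)) A = 1 := by
    refine dv_frame m hm _ A (fun i => hf1 _) ?_
    intro c j
    have h1 := hfc (Sum.elim c fun _ => 0) (Sum.inl j)
    rw [Fintype.sum_sum_type] at h1
    simp only [Sum.elim_inl, Sum.elim_inr, zero_smul, Finset.sum_const_zero, add_zero] at h1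
    exact h1
  -- the matrices
  have hu1 : ∀ j, ∃ c : Fin l → E, ∑ i, c i • f (Sum.inl i) = u j := fun j =>
    (Submodule.mem_span_range_iff_exists_fun E).1 (by rw [hf1s]; exact huM j)
  choose P1 hP1 using hu1
  have hv1 : ∀ j, ∃ c : Fin l ⊕ R → E, v j = ∑ x, c x • f x := fun j => hfs _ (hv j)
  choose Q hQ using hv1
  have hU : dv m u A = A.1.valuation (Matrix.of fun i j => P1 j i).det := by
    have h1 : u = fun j => ∑ i, (Matrix.of fun i j => P1 j i) i j • f (Sum.inl i) := by
      funext j
      exact (hP1 j).symm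
    conv_lhs => rw [h1]
    rw [dv_mul m (fun i : Fin l => f (Sum.inl i)) (Matrix.of fun i j => P1 j i) A, hdf1, mul_one]
  have hUV : dv m (Sum.elim u v) A = A.1.valuation (Matrix.of fun i j => P1 j i).det *
      A.1.valuation (Matrix.of fun (i j : R) => Q j (Sum.inr i)).det := by
    have h1 : Sum.elim u v = fun x => ∑ y, (Matrix.fromBlocks (Matrix.of fun i j => P1 j i)
        (Matrix.of fun (i : Fin l) (j : R) => Q j (Sum.inl i)) 0
        (Matrix.of fun (i j : R) => Q j (Sum.inr i))) y x • f y := by
      funext x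
      rcases x with j | j
      · rw [Sum.elim_inl, Fintype.sum_sum_type]
        simp only [Matrix.fromBlocks_apply₁₁, Matrix.fromBlocks_apply₂₁, Matrix.zero_apply,
          zero_smul, Finset.sum_const_zero, add_zero, Matrix.of_apply]
        exact (hP1 j).symm
      · rw [Sum.elim_inr, Fintype.sum_sum_type]
        simp only [Matrix.fromBlocks_apply₁₂, Matrix.fromBlocks_apply₂₂, Matrix.of_apply]
        rw [hQ j, Fintype.sum_sum_type]
    rw [h1, dv_mul m f _ A, hdf, mul_one, Matrix.det_fromBlocks_zero₂₁, map_mul]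
  have hGP : (Matrix.of fun (j i : R) => lam i (f (Sum.inr j))).det *
      (Matrix.of fun (i j : R) => Q j (Sum.inr i)).det = 1 := by
    rw [← Matrix.det_transpose, ← Matrix.det_mul]
    have h1 : (Matrix.of fun (j i : R) => lam i (f (Sum.inr j))).transpose *
        (Matrix.of fun (i j : R) => Q j (Sum.inr i)) = 1 := by
      ext i j
      rw [Matrix.mul_apply, Matrix.one_apply, ← hlv i j, hQ j, map_sum, Fintype.sum_sum_type]
      have h2 : ∀ a : Fin l, lam i (Q j (Sum.inl a) • f (Sum.inl a)) = 0 := by
        intro a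
        rw [map_smul, ((hL _).1 (hfL a)).2 i, smul_zero]
      simp only [h2, Finset.sum_const_zero, zero_add]
      apply Finset.sum_congr rfl
      intro a _
      rw [Matrix.transpose_apply, Matrix.of_apply, Matrix.of_apply, map_smul, smul_eq_mul, mul_comm]
    rw [h1, Matrix.det_one]
  have hGP' : A.1.valuation (Matrix.of fun (j i : R) => lam i (f (Sum.inr j))).det *
      A.1.valuation (Matrix.of fun (i j : R) => Q j (Sum.inr i)).det = 1 := by
    rw [← map_mul, hGP, map_one]
  have hq := hb (fun j => f (Sum.inr j)) fun j => hfM _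
  have hprod : ∏ j, mn m A (f (Sum.inr j)) ≤ 1 := Finset.prod_le_one' fun j _ => hf1 _
  have hq' : A.1.valuation (Matrix.of fun (j i : R) => lam i (f (Sum.inr j))).det * p ≤ q :=
    hq.trans ((mul_le_mul' le_rfl hprod).trans (mul_one q).le)
  rw [hU, hUV]
  generalize A.1.valuation (Matrix.of fun i j => P1 j i).det = a
  generalize A.1.valuation (Matrix.of fun (i j : R) => Q j (Sum.inr i)).det = b at hGP' ⊢
  generalize A.1.valuation (Matrix.of fun (j i : R) => lam i (f (Sum.inr j))).det = c at hGP' hq' ⊢
  calc a * p = a * b * (c * p) := by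
        rw [← mul_assoc, mul_assoc a b c, mul_comm b c, hGP', mul_one]
    _ ≤ a * b * q := mul_le_mul' le_rfl hq'

end Pool.Agent.Lib.MP_17a322_nt.MV
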