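import Pool.Agent.Lib.MP_17a322_nt.MV.A0

/-!
The inequality for one block, at one valuation.
-/

namespace Pool.Agent.Lib.MP_17a322_nt.MV

open Pool.Agent.Lib.MP_17a322_nt.FQ

/-- The minors of `e' , w` are the determinant of the coefficients times the minors of `e`, for every choice `π` of
columns.

PROOF: `Sum.elim e' w = fun j => ∑ k, t j k • e k` with the block triangular matrix `t` with the blocks `1`, `0`, `c'`,
`Λ`; `plk_comb_vec`, `Matrix.det_fromBlocks_zero₁₂` (as in `vn_quot_le` in FQ/N3). -/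
theorem block_id {W : Type*} [Field W] {ι κ : Type} [Fintype ι] {k' r : ℕ} (e : Fin (k' + 1) ⊕ Fin r → ι → W)
    (π : κ → ι) (w : Fin r → ι → W) (c' : Fin r → Fin (k' + 1) → W) (Λ : Fin r → Fin r → W)
    (hw : ∀ j, w j = ∑ i, c' j i • e (Sum.inl i) + ∑ i, Λ j i • e (Sum.inr i)) :
    plk (Sum.elim (fun j b => e (Sum.inl j) (π b)) fun j b => w j (π b)) =
      (Matrix.of Λ).det • plk fun j b => e j (π b) := by
  have h2 : Sum.elim (fun j b => e (Sum.inl j) (π b)) (fun j b => w j (π b)) = fun j => ∑ k,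
      (Matrix.fromBlocks (1 : Matrix (Fin (k' + 1)) (Fin (k' + 1)) W) 0 (Matrix.of c') (Matrix.of Λ) j k) •
        (fun b => e k (π b)) := by
    funext j b
    rcases j with j | j
    · rw [Sum.elim_inl, Finset.sum_apply, Fintype.sum_sum_type]
      simp only [Matrix.fromBlocks_apply₁₁, Matrix.fromBlocks_apply₁₂, Matrix.zero_apply, Pi.smul_apply,
        smul_eq_mul, zero_mul, Finset.sum_const_zero, add_zero, Matrix.one_apply, ite_mul, one_mul,
        Finset.sum_ite_eq, Finset.mem_univ, if_true]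
    · rw [Sum.elim_inr, Finset.sum_apply, Fintype.sum_sum_type, hw j]
      simp only [Matrix.fromBlocks_apply₂₁, Matrix.fromBlocks_apply₂₂, Matrix.of_apply, Pi.add_apply,
        Finset.sum_apply, Pi.smul_apply, smul_eq_mul]
  rw [h2, plk_comb_vec]
  have h3 : (Matrix.of fun j k => (Matrix.fromBlocks (1 : Matrix (Fin (k' + 1)) (Fin (k' + 1)) W) 0
      (Matrix.of c') (Matrix.of Λ) j k)) =
      Matrix.fromBlocks (1 : Matrix (Fin (k' + 1)) (Fin (k' + 1)) W) 0 (Matrix.of c') (Matrix.of Λ) := rfl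
  rw [h3, Matrix.det_fromBlocks_zero₁₂, Matrix.det_one, one_mul]

/-- PROOF: (1) `|det Λ| |plk e| ≤ |plk e'| ∏ (|x| N_j)`: let `|x a₀|` be maximal, `w'_j = w_j - (w_j a₀ / x a₀) x`; then
`|w'_j| ≤ |x| N_j` by `h1` (`x a₀ * w'_j b = x a₀ * w_j b - x b * w_j a₀`), and `plk (e', w) = plk (e', w')` because
`x ∈ span e'` (write `x = ∑ b_i e'_i`; `plk_comb_vec`; or apply `block_id` to `w'`, which has the same `Λ`), then
`vn_plk_sum_le`, `vn_plk_le_prod`. (2) `|det Λ| |plk e|_os| ≤ |plk e'|_os| ∏ (N_j |z| |y|²)` by `block_id` with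
`π = os o s`, `vn_plk_sum_le`, `vn_plk_le_prod`, `h2`. Then `vn_famP`, `vn_famQ` (`A0`): in the maximum the first term
is bounded with (1), the second one with (2). -/
theorem block {W Γ : Type*} [Field W] [LinearOrderedCommGroupWithZero Γ] (v : Valuation W Γ) {ι : Type}
    [Fintype ι] {k k' r : ℕ} (o : ι) (s : Fin k → ι) (x : ι → W) (e : Fin (k' + 1) ⊕ Fin r → ι → W) (z : W)
    (y : Option (Fin k) → W) (hx0 : x ≠ 0) (hx : x ∈ Submodule.span W (Set.range fun j => e (Sum.inl j)))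
    (w : Fin r → ι → W) (c' : Fin r → Fin (k' + 1) → W) (Λ : Fin r → Fin r → W)
    (hw : ∀ j, w j = ∑ i, c' j i • e (Sum.inl i) + ∑ i, Λ j i • e (Sum.inr i)) (N : Fin r → Γ)
    (h1 : ∀ j a b, v (x a * w j b - x b * w j a) ≤ N j * vn v x ^ 2)
    (h2 : ∀ j b, v (w j (os o s b)) ≤ N j * (v z * vn v y ^ 2)) :
    v (Matrix.of Λ).det * vn v (famP o s x e z y) ≤ vn v (famQ o s x e z y) * ∏ j, N j := by
  have hvx : vn v x ≠ 0 := (vn_ne_zero v).2 hx0
  obtain ⟨a₀, ha₀, hva₀⟩ := vn_attained' v hx0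
  obtain ⟨b, hb⟩ := (Submodule.mem_span_range_iff_exists_fun W).1 hx
  have hP1 : v (Matrix.of Λ).det * vn v (plk e) ≤
      vn v (plk fun j => e (Sum.inl j)) * (vn v x ^ r * ∏ j, N j) := by
    have hid := block_id e (fun b : ι => b) (fun j => w j - (w j a₀ / x a₀) • x)
      (fun j i => c' j i - (w j a₀ / x a₀) * b i) Λ (fun j => by
        generalize w j a₀ / x a₀ = t
        rw [hw j, ← hb, Finset.smul_sum]
        simp only [sub_smul, Finset.sum_sub_distrib, smul_smul]
        abel)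
    have h3 : v (Matrix.of Λ).det * vn v (plk e) =
        vn v (plk (Sum.elim (fun j => e (Sum.inl j)) fun j => w j - (w j a₀ / x a₀) • x)) := by
      rw [← vn_smul]
      exact congrArg (vn v) hid.symm
    rw [h3]
    refine (vn_plk_sum_le v _ _).trans (mul_le_mul' le_rfl ((vn_plk_le_prod v _).trans ?_))
    have h4 : vn v x ^ r * ∏ j, N j = ∏ j, vn v x * N j := by
      rw [Finset.prod_mul_distrib, Finset.prod_const, Finset.card_univ, Fintype.card_fin]
    rw [h4]
    refine Finset.prod_le_prod' fun j _ => vn_le v fun c => ?_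
    have h5 : x a₀ * (w j - (w j a₀ / x a₀) • x) c = x a₀ * w j c - x c * w j a₀ := by
      rw [Pi.sub_apply, Pi.smul_apply, smul_eq_mul]
      field_simp
    have h6 := h1 j a₀ c
    rw [← h5, map_mul, hva₀] at h6
    have h7 : vn v x * v ((w j - (w j a₀ / x a₀) • x) c) ≤ vn v x * (vn v x * N j) := by
      refine h6.trans (le_of_eq ?_)
      rw [pow_two]
      ac_rfl
    exact (mul_le_mul_iff_right₀ (zero_lt_iff.2 hvx)).1 h7
  have hP2 : v (Matrix.of Λ).det * vn v (plk fun j b => e j (os o s b)) ≤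
      vn v (plk fun j b => e (Sum.inl j) (os o s b)) * ((v z ^ r * vn v y ^ (2 * r)) * ∏ j, N j) := by
    have hid := block_id e (os o s) w c' Λ hw
    rw [← vn_smul, ← hid]
    refine (vn_plk_sum_le v _ _).trans (mul_le_mul' le_rfl ((vn_plk_le_prod v _).trans ?_))
    have h4 : (v z ^ r * vn v y ^ (2 * r)) * ∏ j, N j = ∏ j, N j * (v z * vn v y ^ 2) := by
      rw [Finset.prod_mul_distrib, Finset.prod_const, Finset.card_univ, Fintype.card_fin, mul_pow, ← pow_mul,
        mul_comm]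
    rw [h4]
    exact Finset.prod_le_prod' fun j _ => vn_le v fun c => h2 j c
  rw [vn_famP, vn_famQ]
  rcases max_choice (vn v (plk e) * (vn v (plk fun j b => e (Sum.inl j) (os o s b)) *
      (v z ^ r * vn v y ^ (2 * r))))
      (vn v (plk fun j b => e j (os o s b)) * (vn v (plk fun j => e (Sum.inl j)) * vn v x ^ r)) with hm | hm
  · rw [hm, ← mul_assoc]
    refine (mul_le_mul' hP1 le_rfl).trans (le_of_eq ?_)
    ac_rfl
  · rw [hm, ← mul_assoc]
    refine (mul_le_mul' hP2 le_rfl).trans (le_of_eq ?_)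
    ac_rfl

end Pool.Agent.Lib.MP_17a322_nt.MV
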