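import Pool.Agent.Lib.MP_17a322_nt.MV.A2

/-!
The derivations which vanish on finitely many elements.
-/

universe u v

namespace Pool.Agent.Lib.MP_17a322_nt.MV

open Pool.Agent.Lib.MP_17a322_nt.FQ

private theorem A4_surj {E V C : Type*} [Field E] [AddCommGroup V] [Module E V] [Finite C]
    (lam : C → V →ₗ[E] E) (h : LinearIndependent E lam) (w : C → E) : ∃ D, ∀ c, lam c D = w c := by
  classical
  have := Fintype.ofFinite C
  have hsurj : LinearMap.range (LinearMap.pi lam) = ⊤ := by
    by_contra hne
    obtain ⟨g, hg, hle⟩ := Submodule.exists_le_ker_of_lt_top _ (lt_top_iff_ne_top.mpr hne)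
    apply hg
    have h1 : ∑ c, g (Pi.single c 1) • lam c = 0 := by
      ext D
      have h2 : g (LinearMap.pi lam D) = 0 := LinearMap.mem_ker.mp (hle ⟨D, rfl⟩)
      rw [LinearMap.sum_apply, LinearMap.zero_apply, ← h2, LinearMap.pi_apply_eq_sum_univ g]
      refine Finset.sum_congr rfl fun c _ => ?_
      rw [LinearMap.smul_apply, smul_eq_mul, smul_eq_mul, LinearMap.pi_apply, mul_comm]
      congr 2
      funext c'
      rw [Pi.single_apply]
      by_cases hc : c = c'
      · rw [if_pos hc, if_pos hc.symm]
      · rw [if_neg hc, if_neg (fun h' => hc h'.symm)]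
    have h3 := Fintype.linearIndependent_iff.mp h _ h1
    refine LinearMap.pi_ext' fun c => ?_
    ext
    simp only [LinearMap.comp_apply, LinearMap.single_apply, LinearMap.zero_apply]
    exact h3 c
  have h4 : w ∈ LinearMap.range (LinearMap.pi lam) := by
    rw [hsurj]
    exact Submodule.mem_top
  obtain ⟨D, hD⟩ := h4
  exact ⟨D, fun c => congrFun hD c⟩

/-- PROOF: The functionals `D ↦ D (f j)` on the space `Der` of all derivations: let `J` be a maximal subset of `Fin l`
for which they are linearly independent (`exists_linearIndependent` ...); then `L` is the set of common zeros of those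
with `j ∈ J`, and these are jointly surjective. `lemG` with `M = ⊤`, `C = J`, `r = 1`, `P = fun _ : Unit => 1`,
`Q = tn (on (f j)) (on (f j))` (`H.tensor`: `H.lam Q = 2 * H.lam (on (f j))`, `H.single`; `nm_tn`). The hypothesis `hb`:
`|D (f j)| ≤ |(1, f j)| ^ 2 * mn (on (f j)) A D` (`ps (on f) (false, true) D = D f`, definition of `mn`, `le_nm`), and
`mn (on (f j)) A D ≤ mn m A D` by `hf`. `0 ≤ H.lam (on (f j))` (`lam_nonneg`) for the `j` which are not in `J`. -/
theorem base_bound {k : Type v} {E : Type u} [Field k] [Field E] [Algebra k E]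
    [FiniteDimensional E (Derivation k E E)] (H : Ht k E) {κ : Type} [Fintype κ] (m : κ → E) (hm : IsMd k m)
    {l : ℕ} (f : Fin l → E) (hf : ∀ j, Fi k (on (f j)) m) (L : Submodule E (Derivation k E E))
    (hL : ∀ D, D ∈ L ↔ ∀ j, D (f j) = 0) :
    dg H m ⊤ - dg H m L ≤ 2 * ∑ j, H.lam (on (f j)) := by
  classical
  let φ : Fin l → Derivation k E E →ₗ[E] E := fun j =>
    { toFun := fun D => D (f j)
      map_add' := fun D D' => rfl
      map_smul' := fun c D => rfl }
  obtain ⟨C, a, ha, hspan, hli⟩ := exists_linearIndependent' E φ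
  have : Finite C := Finite.of_injective a ha
  have := Fintype.ofFinite C
  have hone : ∀ g : E, on g ≠ 0 := fun g h => one_ne_zero (congrFun h false)
  have htne : ∀ g : E, tn (on g) (on g) ≠ 0 := fun g h => by
    have h1 := congrFun h (false, false)
    have h2 : (1 : E) * 1 = 0 := h1
    rw [mul_one] at h2
    exact one_ne_zero h2
  have key := lemG H m hm ⊤ L (C := C) (fun _ => 1) (fun z => φ (a z.1))
    (by
      intro D
      rw [hL]
      constructor
      · intro h
        exact ⟨Submodule.mem_top, fun z => h (a z.1)⟩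
      · rintro ⟨_, h⟩ j
        have h1 : Submodule.span E (Set.range φ) ≤
            LinearMap.ker (LinearMap.applyₗ D : (Derivation k E E →ₗ[E] E) →ₗ[E] E) := by
          rw [← hspan, Submodule.span_le]
          rintro _ ⟨c, rfl⟩
          exact h ⟨c, 0⟩
        exact h1 (Submodule.subset_span ⟨j, rfl⟩))
    (by
      intro w
      obtain ⟨D, hD⟩ := A4_surj (φ ∘ a) hli (fun c => w ⟨c, 0⟩)
      refine ⟨D, Submodule.mem_top, ?_⟩
      rintro ⟨c, i⟩
      have hi : i = 0 := Subsingleton.elim _ _
      subst hi
      exact hD c)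
    (κP := fun _ => Unit) (κQ := fun _ => Bool × Bool)
    (fun _ _ => (1 : E)) (fun c => tn (on (f (a c))) (on (f (a c))))
    (fun _ h => one_ne_zero (congrFun h ())) (fun c => htne _)
    (by
      intro c A w _
      have hD : A.1.valuation ((w 0) (f (a c))) ≤
          nm k (tn (on (f (a c))) (on (f (a c)))) A * mn m A (w 0) := by
        have h1 : A.1.valuation ((w 0) (f (a c))) ≤ nm k (fun p => ps (on (f (a c))) p (w 0)) A := by
          have h2 := le_nm (k := k) (fun p => ps (on (f (a c))) p (w 0)) A (false, true)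
          have h3 : ps (on (f (a c))) (false, true) (w 0) = (w 0) (f (a c)) := by
            show (1 : E) * (w 0) (f (a c)) - f (a c) * (w 0) 1 = _
            rw [one_mul, Derivation.map_one_eq_zero, mul_zero, sub_zero]
          rw [h3] at h2
          exact h2
        have h4 : nm k (on (f (a c))) A ≠ 0 := by
          intro h5
          have h6 := le_nm (k := k) (on (f (a c))) A false
          rw [h5] at h6
          have h7 : A.1.valuation (1 : E) ≤ 0 := h6
          rw [map_one] at h7
          exact one_ne_zero (le_zero_iff.mp h7)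
        have h5 : nm k (fun p => ps (on (f (a c))) p (w 0)) A =
            nm k (on (f (a c))) A ^ 2 * mn (on (f (a c))) A (w 0) := by
          unfold mn
          rw [mul_div_cancel₀ _ (pow_ne_zero 2 h4)]
        rw [nm_tn, ← pow_two]
        refine h1.trans ?_
        rw [h5]
        exact mul_le_mul_right (hf (a c) A (w 0)) _
      have h8 : nm k (fun _ : Unit => (1 : E)) A ≤ 1 := nm_le _ A _ fun _ => by rw [map_one]
      rw [Fin.prod_univ_one, Matrix.det_fin_one]
      calc _ ≤ A.1.valuation ((w 0) (f (a c))) * 1 := mul_le_mul_right h8 _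
        _ ≤ _ := by
          rw [mul_one]
          exact hD)
  refine key.trans ?_
  have h9 : ∀ c : C, H.lam (tn (on (f (a c))) (on (f (a c)))) - H.lam (fun _ : Unit => (1 : E)) =
      2 * H.lam (on (f (a c))) := by
    intro c
    have h10 : H.lam (tn (on (f (a c))) (on (f (a c)))) = H.lam (on (f (a c))) + H.lam (on (f (a c))) :=
      H.tensor _ _ (hone _) (hone _)
    rw [h10, H.single 1 one_ne_zero]
    ring
  rw [Finset.sum_congr rfl fun c _ => h9 c, ← Finset.mul_sum]
  refine mul_le_mul_of_nonneg_left ?_ (by norm_num)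
  rw [← Finset.sum_image (s := Finset.univ) (g := a) (f := fun j => H.lam (on (f j)))
    (fun c _ c' _ h => ha h)]
  exact Finset.sum_le_sum_of_subset_of_nonneg (Finset.subset_univ _)
    fun j _ _ => lam_nonneg _ (hone _)

end Pool.Agent.Lib.MP_17a322_nt.MV
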