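import Pool.Agent.Lib.MP_17a322_nt.ABN.Sard

/-!
Derivations with prescribed values.
-/

namespace Pool.Agent.Lib.MP_17a322_nt.MV

open Pool.Agent.Lib.MP_17a322_nt.ABN

/-- PROOF: `K = adjoin ℚ (range f) ≤ E`; `IntermediateField.extendScalars` makes `E` an intermediate field `E'` of `B / K`; the
family `y` in `E'` is algebraically independent over `K` (`AlgebraicIndependent.of_ringHom_of_comp_eq` /
`(E'.val).algebraicIndependent_iff` ...); `der_of_indep` (ABN/Sard) gives a derivation over `K` of `E'` with the values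
`w`; restrict the scalars to `ℚ` (or write it down with `Derivation.mk'`); it vanishes on `K`, hence at the `f j`. -/
theorem der_exists {B : Type} [Field B] [Algebra ℚ B] (E : IntermediateField ℚ B) {l : ℕ} (f : Fin l → B)
    (hf : ∀ j, f j ∈ E) {Z : Type} (y : Z → B) (hy : ∀ z, y z ∈ E)
    (h : AlgebraicIndependent (IntermediateField.adjoin ℚ (Set.range f)) y) (w : Z → E) :
    ∃ D : Derivation ℚ E E, (∀ j, D ⟨f j, hf j⟩ = 0) ∧ ∀ z, D ⟨y z, hy z⟩ = w z := by
  have hle : IntermediateField.adjoin ℚ (Set.range f) ≤ E := by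
    rw [IntermediateField.adjoin_le_iff]
    rintro _ ⟨j, rfl⟩
    exact hf j
  let E' := IntermediateField.extendScalars hle
  let t : E → E' := fun x => ⟨(x : B), x.2⟩
  have hind : AlgebraicIndependent (IntermediateField.adjoin ℚ (Set.range f))
      (fun z => (⟨y z, hy z⟩ : E')) :=
    AlgebraicIndependent.of_comp E'.val h
  obtain ⟨δ, hδ⟩ := der_of_indep hind (fun z => t (w z))
  have hadd : ∀ a b : E, t (a + b) = t a + t b := fun a b => rfl
  have hmul : ∀ a b : E, t (a * b) = t a * t b := fun a b => rfl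
  have hzero : t 0 = 0 := rfl
  let D₀ : E →+ E :=
    { toFun := fun x => ⟨(δ (t x) : B), (δ (t x)).2⟩
      map_zero' := by
        refine Subtype.ext ?_
        show ((δ (t 0) : E') : B) = 0
        rw [hzero, map_zero]
        rfl
      map_add' := by
        intro a b
        refine Subtype.ext ?_
        show ((δ (t (a + b)) : E') : B) = (δ (t a) : B) + (δ (t b) : B)
        rw [hadd, map_add]
        rfl }
  refine ⟨Derivation.mk' (@LinearMap.mk ℚ ℚ _ _ (RingHom.id ℚ) E E _ _ Algebra.toModule E.module' ⟨D₀, D₀.map_add⟩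
    (fun q a => @map_rat_smul E E _ _ Algebra.toModule E.module' _ _ _ D₀ q a)) ?_, ?_, ?_⟩
  · intro a b
    refine Subtype.ext ?_
    show ((δ (t (a * b)) : E') : B) = (a : B) * (δ (t b) : B) + (b : B) * (δ (t a) : B)
    rw [hmul, Derivation.leibniz]
    rfl
  · intro j
    refine Subtype.ext ?_
    show ((δ (t ⟨f j, hf j⟩) : E') : B) = 0
    have h1 : t ⟨f j, hf j⟩ = algebraMap (IntermediateField.adjoin ℚ (Set.range f)) E'
        ⟨f j, IntermediateField.subset_adjoin ℚ _ ⟨j, rfl⟩⟩ := rfl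
    rw [h1, Derivation.map_algebraMap]
    rfl
  · intro z
    refine Subtype.ext ?_
    show ((δ (t ⟨y z, hy z⟩) : E') : B) = (w z : B)
    have h1 := hδ z
    have h2 : t ⟨y z, hy z⟩ = (⟨y z, hy z⟩ : E') := rfl
    rw [h2, h1]

/-- A derivation which vanishes at the `f j` vanishes on the field generated by them. PROOF:
`IntermediateField.adjoin_induction`, as `der_ext_gen` in FQ/V2. -/
theorem der_adjoin {B : Type} [Field B] [Algebra ℚ B] (E : IntermediateField ℚ B) {M : Type} [AddCommGroup M]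
    [Module ℚ M] [Module E M] (D : Derivation ℚ E M) {F : Set B} (hF : F ⊆ E)
    (h : ∀ t : E, (t : B) ∈ F → D t = 0) (t : E) (ht : (t : B) ∈ IntermediateField.adjoin ℚ F) : D t = 0 := by
  have hle : IntermediateField.adjoin ℚ F ≤ E := IntermediateField.adjoin_le_iff.2 hF
  have key : ∀ h1 : (t : B) ∈ E, D ⟨(t : B), h1⟩ = 0 := by
    refine IntermediateField.adjoin_induction ℚ (p := fun x _ => ∀ h1 : x ∈ E, D ⟨x, h1⟩ = 0)
      ?_ ?_ ?_ ?_ ?_ ht
    · intro x hx h1
      exact h ⟨x, h1⟩ hx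
    · intro q h1
      have h2 : (⟨algebraMap ℚ B q, h1⟩ : E) = algebraMap ℚ E q := by
        refine Subtype.ext ?_
        rw [eq_ratCast (algebraMap ℚ E) q]
        show algebraMap ℚ B q = algebraMap E B (q : E)
        rw [map_ratCast, eq_ratCast]
      rw [h2, Derivation.map_algebraMap]
    · intro x y hx hy hx0 hy0 h1
      have h2 : (⟨x + y, h1⟩ : E) = ⟨x, hle hx⟩ + ⟨y, hle hy⟩ := rfl
      rw [h2, map_add, hx0, hy0, add_zero]
    · intro x hx hx0 h1
      have h2 : (⟨x⁻¹, h1⟩ : E) = (⟨x, hle hx⟩ : E)⁻¹ := rfl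
      rw [h2, Derivation.leibniz_inv, hx0, smul_zero]
    · intro x y hx hy hx0 hy0 h1
      have h2 : (⟨x * y, h1⟩ : E) = ⟨x, hle hx⟩ * ⟨y, hle hy⟩ := rfl
      rw [h2, Derivation.leibniz, hx0, hy0, smul_zero, smul_zero, add_zero]
  exact key t.2

end Pool.Agent.Lib.MP_17a322_nt.MV
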