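import Pool.Agent.Lib.MP_17a322_nt.FQ.H2
import Pool.Agent.Lib.MP_17a322_nt.FQ.V2

/-!
Models above finitely many families.
-/

universe u

namespace Pool.Agent.Lib.MP_17a322_nt.MV

open Pool.Agent.Lib.MP_17a322_nt.FQ

/-- Above finitely many nonzero families there is a model. -/
theorem exists_model {k E : Type u} [Field k] [Field E] [Algebra k E] (hE : (⊤ : IntermediateField k E).FG)
    {C : Type} [Fintype C] {κ : C → Type} [∀ c, Fintype (κ c)] (φ : ∀ c, κ c → E) (h : ∀ c, φ c ≠ 0) :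
    ∃ (κ₀ : Type) (_ : Fintype κ₀) (m : κ₀ → E), IsMd k m ∧ ∀ c, Fi k (φ c) m := by
  classical
  have key : ∀ s : Finset C, ∃ (κ₀ : Type) (_ : Fintype κ₀) (m : κ₀ → E),
      IsMd k m ∧ ∀ c ∈ s, Fi k (φ c) m := by
    intro s
    induction s using Finset.induction_on with
    | empty =>
      obtain ⟨n, m, h1, h2⟩ := exists_gen hE
      exact ⟨Option (Fin n), inferInstance, m, gen_IsMd m h1 h2,
        fun c hc => absurd hc (Finset.notMem_empty c)⟩
    | insert c s hc ih =>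
      obtain ⟨κ₁, i₁, m₁, h1, h2⟩ := ih
      refine ⟨κ₁ × κ c, inferInstance, tn m₁ (φ c), IsMd_tn m₁ (φ c) h1 (h c), fun c' hc' => ?_⟩
      rcases Finset.mem_insert.1 hc' with h3 | h3
      · subst h3
        exact Fi_tn_right m₁ (φ c') h1.1 (h c')
      · exact fun A v => (h2 c' h3 A v).trans (Fi_tn_left m₁ (φ c) h1.1 (h c) A v)
  obtain ⟨κ₀, i₀, m, h1, h2⟩ := key Finset.univ
  exact ⟨κ₀, i₀, m, h1, fun c => h2 c (Finset.mem_univ c)⟩

end Pool.Agent.Lib.MP_17a322_nt.MV
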