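import Pool.Agent.Lib.MP_17a322_nt.MV.A3
import Pool.Agent.Lib.MP_17a322_nt.MV.A4
import Pool.Agent.Lib.MP_17a322_nt.MV.A6
import Pool.Agent.Lib.MP_17a322_nt.FQ.X1

/-!
The inequality for many points, in one field.
-/

namespace Pool.Agent.Lib.MP_17a322_nt.MV

open Pool.Agent.Lib.MP_17a322_nt.FQ

private theorem A7_tt_ne {W α β : Type} [Field W] {a : α → W} {b : β → W} (ha : a ≠ 0) (hb : b ≠ 0) : tt a b ≠ 0 := by
  obtain ⟨i, hi⟩ := Function.ne_iff.1 ha
  obtain ⟨j, hj⟩ := Function.ne_iff.1 hb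
  exact Function.ne_iff.2 ⟨(i, j), mul_ne_zero hi hj⟩

private theorem A7_tpw_ne {W α : Type} [Field W] (r : ℕ) {x : α → W} (hx : x ≠ 0) : tpw r x ≠ 0 := by
  obtain ⟨i, hi⟩ := Function.ne_iff.1 hx
  refine Function.ne_iff.2 ⟨fun _ => i, ?_⟩
  rw [Pi.zero_apply]
  exact Finset.prod_ne_zero_iff.2 fun _ _ => hi

/-- coordinates with respect to independent vectors, on the whole space -/
private theorem A7_coord {E ι J : Type} [Field E] [Fintype ι] [Fintype J] [DecidableEq J] (e : J → ι → E)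
    (he : LinearIndependent E e) :
    ∃ g : (ι → E) →ₗ[E] (J → E), ∀ v ∈ Submodule.span E (Set.range e), ∑ j, g v j • e j = v := by
  have hk : LinearMap.ker (Fintype.linearCombination E e) = ⊥ := by
    rw [LinearMap.ker_eq_bot']
    intro c hc
    rw [Fintype.linearCombination_apply] at hc
    exact funext (Fintype.linearIndependent_iff.1 he c hc)
  obtain ⟨g, hg⟩ := (Fintype.linearCombination E e).exists_leftInverse_of_injective hk
  refine ⟨g, fun v hv => ?_⟩
  rw [← Fintype.range_linearCombination E e] at hv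
  obtain ⟨c, rfl⟩ := hv
  have h1 : g (Fintype.linearCombination E e c) = c := LinearMap.congr_fun hg c
  rw [h1]
  rfl

/-- the derivations which vanish at `f` -/
private def A7_M {E : Type} [Field E] [Algebra ℚ E] {l : ℕ} (f : Fin l → E) : Submodule E (Derivation ℚ E E) where
  carrier := {D | ∀ j, D (f j) = 0}
  add_mem' := fun {a b} ha hb j => by rw [Derivation.add_apply, ha j, hb j, add_zero]
  zero_mem' := fun j => rfl
  smul_mem' := fun c a ha j => by rw [Derivation.smul_apply, ha j, smul_zero]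

/-- the values of a derivation at a point -/
private def A7_ev {E ι : Type} [Field E] [Algebra ℚ E] (x : ι → E) : Derivation ℚ E E →ₗ[E] (ι → E) where
  toFun D := fun a => D (x a)
  map_add' _ _ := rfl
  map_smul' _ _ := rfl

/-- The inequality for many points `x c`, `c < m`, and subspaces of the spaces spanned by the `e c`.

PROOF: `exists_model` for the families `x c`, `y c`, `on (f j)`: a model `m₀` above all. `M = {D | ∀ j, D (f j) = 0}`. For
every `c` the `e c` are independent: choose linear functionals `φ c i : (ι → E) →ₗ E`, `i : Fin (r c)`, with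
`φ c i (e c j) = 1` if `j = inr i` and zero otherwise (extend to a basis, or `LinearMap.exists_extend`), and
`lam ⟨c, i⟩ D = φ c i (fun a => D (x c a))`. `L = {D ∈ M | ∀ z, lam z D = 0}`. `hs`: for given values `w ⟨c, i⟩` let
`v c = ∑ i, w ⟨c, i⟩ • e c (inr i)`, `v' c = v c - (v c o) • x c`, so `v' c o = 0`, `φ c i (v' c) = w ⟨c, i⟩` (because
`x c ∈ span (e c ∘ inl)`); take `D` from `hs` with `D (x c (s j)) = v' c (s j)`; then `D (x c ·) - v' c` is in the span of
`e c` and zero at the coordinates `os o s` (`D (x c o) = D 1 = 0`), so it is zero by `hin`. `lemG` with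
`P c = famP ..`, `Q c = famQ ..` (nonzero: `vn_famP`, `vn_famQ` or directly; the restrictions of the `e c (inl j)` to the
coordinates `os o s` are independent by `hin`). `hb`: for `w j ∈ M` the vector `W j = fun a => w j (x c a)` is in the span
of `e c`: `W j = ∑ c' j i • e c (inl i) + ∑ Λ j i • e c (inr i)` with `Λ j i = φ c i (W j) = lam ⟨c, i⟩ (w j)`; `block` with
`N j = mn m₀ A (w j)`: `h1`: `ps (x c) (a, b) (w j) = x c a * w j (x c b) - x c b * w j (x c a)` and
`mn (x c) A ≤ mn m₀ A`; `h2`: `W j o = 0`, `W j (s i) = z * w j (y c (some i))` (by `hy`, `hDz`) and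
`|w j (y c (some i))| ≤ |y c| ^ 2 * mn (y c) A (w j)` (`ps (y c) (none, some i)`, `y c none = 1`). So
`dg M - dg L ≤ ∑ (lam Q - lam P)`; `base_bound`: `dg ⊤ - dg M ≤ 2 ∑ lam (on (f j))`; `hS`: `0 ≤ dg ⊤ - dg L`. -/
theorem coreE {E : Type} [Field E] [Algebra ℚ E] [FiniteDimensional E (Derivation ℚ E E)] (H : Ht ℚ E)
    (hS : ∀ {κ : Type} [Fintype κ] (m : κ → E), IsMd ℚ m → ∀ L, dg H m L ≤ dg H m ⊤)
    (hE : (⊤ : IntermediateField ℚ E).FG) {ι : Type} [Fintype ι] (o : ι) {k m l : ℕ} (s : Fin k → ι)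
    (f : Fin l → E) (k' r : Fin m → ℕ) (x : Fin m → ι → E) (e : ∀ c, Fin (k' c + 1) ⊕ Fin (r c) → ι → E) (z : E)
    (y : Fin m → Option (Fin k) → E) (x0 : Fin k → E)
    (hx : ∀ c, x c o = 1) (he : ∀ c, LinearIndependent E (e c))
    (hxe : ∀ c, x c ∈ Submodule.span E (Set.range fun j => e c (Sum.inl j)))
    (hin : ∀ c, ∀ v ∈ Submodule.span E (Set.range (e c)), (∀ b, v (os o s b) = 0) → v = 0)
    (hz : z ≠ 0) (hy0 : ∀ c, y c none = 1) (hy : ∀ c j, z * y c (some j) = x c (s j) - x0 j)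
    (hDz : ∀ D : Derivation ℚ E E, (∀ j, D (f j) = 0) → D z = 0 ∧ ∀ j, D (x0 j) = 0)
    (hder : ∀ D : Derivation ℚ E E, (∀ j, D (f j) = 0) → ∀ c,
      (fun a => D (x c a)) ∈ Submodule.span E (Set.range (e c)))
    (hs : ∀ w : Fin m → Fin k → E, ∃ D : Derivation ℚ E E, (∀ j, D (f j) = 0) ∧ ∀ c j, D (x c (s j)) = w c j) :
    ∑ c, (H.lam (famP o s (x c) (e c) z (y c)) - H.lam (famQ o s (x c) (e c) z (y c))) ≤
      2 * ∑ j, H.lam (on (f j)) := by
  classical
  have hx0 : ∀ c, x c ≠ 0 := fun c h => one_ne_zero ((hx c).symm.trans (congrFun h o))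
  have hyn : ∀ c, y c ≠ 0 := fun c h => one_ne_zero ((hy0 c).symm.trans (congrFun h none))
  have hon : ∀ j, on (f j) ≠ 0 := fun j => Function.ne_iff.2 ⟨false, one_ne_zero⟩
  -- the model
  obtain ⟨κ₁, i₁, m₁, hm₁, hF₁⟩ := exists_model (k := ℚ) hE x hx0
  obtain ⟨κ₂, i₂, m₂, hm₂, hF₂⟩ := exists_model (k := ℚ) hE y hyn
  obtain ⟨κ₃, i₃, m₃, hm₃, hF₃⟩ := exists_model (k := ℚ) hE (fun j => on (f j)) hon
  have hm23 : IsMd ℚ (tn m₂ m₃) := IsMd_tn m₂ m₃ hm₂ hm₃.1
  have hm₀ : IsMd ℚ (tn m₁ (tn m₂ m₃)) := IsMd_tn m₁ (tn m₂ m₃) hm₁ hm23.1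
  have hx₀ : ∀ c, Fi ℚ (x c) (tn m₁ (tn m₂ m₃)) := fun c A v =>
    (hF₁ c A v).trans (Fi_tn_left m₁ (tn m₂ m₃) hm₁.1 hm23.1 A v)
  have hy₀ : ∀ c, Fi ℚ (y c) (tn m₁ (tn m₂ m₃)) := fun c A v =>
    ((hF₂ c A v).trans (Fi_tn_left m₂ m₃ hm₂.1 hm₃.1 A v)).trans (Fi_tn_right m₁ (tn m₂ m₃) hm₁.1 hm23.1 A v)
  have hf₀ : ∀ j, Fi ℚ (on (f j)) (tn m₁ (tn m₂ m₃)) := fun j A v =>
    ((hF₃ j A v).trans (Fi_tn_right m₂ m₃ hm₂.1 hm₃.1 A v)).trans (Fi_tn_right m₁ (tn m₂ m₃) hm₁.1 hm23.1 A v)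
  -- coordinates
  choose g hg using fun c => A7_coord (e c) (he c)
  have hguniq : ∀ c (u : Fin (k' c + 1) ⊕ Fin (r c) → E), g c (∑ j, u j • e c j) = u := by
    intro c u
    have h1 : ∑ j, u j • e c j ∈ Submodule.span E (Set.range (e c)) :=
      Submodule.sum_mem _ fun j _ => Submodule.smul_mem _ _ (Submodule.subset_span ⟨j, rfl⟩)
    have h2 := hg c _ h1
    have h3 : ∑ j, (g c (∑ j, u j • e c j) j - u j) • e c j = 0 := by
      simp only [sub_smul, Finset.sum_sub_distrib]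
      rw [h2, sub_self]
    funext j
    exact sub_eq_zero.1 (Fintype.linearIndependent_iff.1 (he c) _ h3 j)
  have hspan : ∀ c, Submodule.span E (Set.range fun j => e c (Sum.inl j)) ≤ Submodule.span E (Set.range (e c)) := by
    intro c
    refine Submodule.span_mono ?_
    rintro _ ⟨j, rfl⟩
    exact ⟨Sum.inl j, rfl⟩
  have hgx : ∀ c (i : Fin (r c)), g c (x c) (Sum.inr i) = 0 := by
    intro c i
    obtain ⟨u, hu⟩ := (Submodule.mem_span_range_iff_exists_fun E).1 (hxe c)
    have h1 : x c = ∑ j, (Sum.elim u (fun _ : Fin (r c) => (0 : E))) j • e c j := by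
      rw [Fintype.sum_sum_type]
      simp only [Sum.elim_inl, Sum.elim_inr, zero_smul, Finset.sum_const_zero, add_zero]
      exact hu.symm
    rw [h1, hguniq]
    rfl
  -- the functionals
  let lam : (Σ c, Fin (r c)) → Derivation ℚ E E →ₗ[E] E := fun q =>
    (LinearMap.proj (Sum.inr q.2 : Fin (k' q.1 + 1) ⊕ Fin (r q.1))).comp ((g q.1).comp (A7_ev (x q.1)))
  have hlam : ∀ c (i : Fin (r c)) D, lam ⟨c, i⟩ D = g c (fun a => D (x c a)) (Sum.inr i) := fun c i D => rfl
  let L : Submodule E (Derivation ℚ E E) := A7_M f ⊓ ⨅ q, LinearMap.ker (lam q)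
  have hL : ∀ D, D ∈ L ↔ D ∈ A7_M f ∧ ∀ q, lam q D = 0 := by
    intro D
    simp only [L, Submodule.mem_inf, Submodule.mem_iInf, LinearMap.mem_ker]
  have hsurj : ∀ w : (Σ c, Fin (r c)) → E, ∃ D ∈ A7_M f, ∀ q, lam q D = w q := by
    intro w
    let v : Fin m → ι → E := fun c => ∑ i, w ⟨c, i⟩ • e c (Sum.inr i)
    let v' : Fin m → ι → E := fun c => v c - v c o • x c
    obtain ⟨D, hDf, hD⟩ := hs fun c j => v' c (s j)
    refine ⟨D, hDf, fun q => ?_⟩
    obtain ⟨c, i⟩ := q
    have hv : v c ∈ Submodule.span E (Set.range (e c)) :=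
      Submodule.sum_mem _ fun j _ => Submodule.smul_mem _ _ (Submodule.subset_span ⟨Sum.inr j, rfl⟩)
    have hxs : x c ∈ Submodule.span E (Set.range (e c)) := hspan c (hxe c)
    have hu : (fun a => D (x c a)) - v' c ∈ Submodule.span E (Set.range (e c)) :=
      Submodule.sub_mem _ (hder D hDf c) (Submodule.sub_mem _ hv (Submodule.smul_mem _ _ hxs))
    have h0 : (fun a => D (x c a)) - v' c = 0 := by
      refine hin c _ hu fun b => ?_
      rcases b with _ | j
      · show D (x c o) - (v c o - v c o * x c o) = 0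
        rw [hx c, Derivation.map_one_eq_zero, mul_one, sub_self, sub_self]
      · show D (x c (s j)) - v' c (s j) = 0
        rw [hD c j, sub_self]
    rw [hlam, sub_eq_zero.1 h0]
    have h2 : v c = ∑ j, (Sum.elim (fun _ : Fin (k' c + 1) => (0 : E)) (fun i => w ⟨c, i⟩)) j • e c j := by
      rw [Fintype.sum_sum_type]
      simp only [Sum.elim_inl, Sum.elim_inr, zero_smul, Finset.sum_const_zero, zero_add]
      rfl
    show g c (v c - v c o • x c) (Sum.inr i) = w ⟨c, i⟩
    rw [map_sub, map_smul, Pi.sub_apply, Pi.smul_apply, hgx, smul_zero, sub_zero, h2, hguniq]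
    rfl
  -- independence at the coordinates `o`, `s`
  have hind' : ∀ c, LinearIndependent E (fun j b => e c (Sum.inl j) (os o s b)) := by
    intro c
    rw [Fintype.linearIndependent_iff]
    intro u hu j
    have h1 : ∑ j, u j • e c (Sum.inl j) = 0 := by
      refine hin c _ ?_ fun b => ?_
      · exact Submodule.sum_mem _ fun j _ => Submodule.smul_mem _ _ (Submodule.subset_span ⟨Sum.inl j, rfl⟩)
      · have h2 := congrFun hu b
        rw [Finset.sum_apply] at h2 ⊢
        exact h2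
    have h3 : LinearIndependent E (fun j => e c (Sum.inl j)) := (he c).comp _ Sum.inl_injective
    exact Fintype.linearIndependent_iff.1 h3 u h1 j
  have hin' : ∀ c, LinearIndependent E (fun j => e c (Sum.inl j)) := fun c => (he c).comp _ Sum.inl_injective
  have hzr : ∀ c, (fun _ : Unit => z ^ r c) ≠ 0 := fun c => Function.ne_iff.2 ⟨(), pow_ne_zero _ hz⟩
  have hP : ∀ c, famP o s (x c) (e c) z (y c) ≠ 0 := by
    intro c h
    have h1 : famA o s (e c) z (y c) ≠ 0 :=
      A7_tt_ne (plk_ne_zero _ (he c)) (A7_tt_ne (plk_ne_zero _ (hind' c)) (A7_tt_ne (hzr c) (A7_tpw_ne _ (hyn c))))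
    obtain ⟨i, hi⟩ := Function.ne_iff.1 h1
    exact hi (congrFun h (Sum.inl i))
  have hQ : ∀ c, famQ o s (x c) (e c) z (y c) ≠ 0 := fun c =>
    A7_tt_ne (plk_ne_zero _ (hin' c)) (A7_tt_ne (A7_tpw_ne _ (hx0 c)) (A7_tt_ne (plk_ne_zero _ (hind' c))
      (A7_tt_ne (hzr c) (A7_tpw_ne _ (hyn c)))))
  -- the inequality at one valuation ring
  have hps : ∀ {κ : Type} [Fintype κ] (q : κ → E), q ≠ 0 → ∀ (A : VQ ℚ E) (D : Derivation ℚ E E) (p : κ × κ),
      A.1.valuation (ps q p D) ≤ mn q A D * nm ℚ q A ^ 2 := by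
    intro κ _ q hq A D p
    have h0 : 0 < nm ℚ q A ^ 2 := pow_pos (zero_lt_iff.2 (nm_ne q hq A)) 2
    have h1 : mn q A D * nm ℚ q A ^ 2 = nm ℚ (fun p => ps q p D) A := div_mul_cancel₀ _ h0.ne'
    rw [h1]
    exact le_nm (fun p => ps q p D) A p
  have key := lemG H (tn m₁ (tn m₂ m₃)) hm₀ (A7_M f) L r lam hL hsurj
    (fun c => famP o s (x c) (e c) z (y c)) (fun c => famQ o s (x c) (e c) z (y c)) hP hQ (by
      intro c A w hw
      have hW : ∀ j, (fun a => w j (x c a)) ∈ Submodule.span E (Set.range (e c)) := fun j => hder (w j) (hw j) c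
      refine block A.1.valuation o s (x c) (e c) z (y c) (hx0 c) (hxe c) (fun j a => w j (x c a))
        (fun j i => g c (fun a => w j (x c a)) (Sum.inl i)) (fun j i => lam ⟨c, i⟩ (w j)) (fun j => ?_)
        (fun j => mn (tn m₁ (tn m₂ m₃)) A (w j)) (fun j a b => ?_) (fun j b => ?_)
      · have h1 := hg c _ (hW j)
        rw [Fintype.sum_sum_type] at h1
        exact h1.symm
      · exact (hps (x c) (hx0 c) A (w j) (a, b)).trans (mul_le_mul_left (hx₀ c A (w j)) _)
      · rcases b with _ | i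
        · show A.1.valuation (w j (x c o)) ≤ _
          rw [hx c, Derivation.map_one_eq_zero, map_zero]
          exact zero_le
        · show A.1.valuation (w j (x c (s i))) ≤ _
          have h1 : x c (s i) = z * y c (some i) + x0 i := by rw [hy c i]; ring
          have h2 : w j (x c (s i)) = z * w j (y c (some i)) := by
            rw [h1, map_add, Derivation.leibniz, (hDz (w j) (hw j)).1, (hDz (w j) (hw j)).2 i, smul_zero, add_zero, add_zero,
              smul_eq_mul]
          have h3 : ps (y c) (none, some i) (w j) = w j (y c (some i)) := by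
            show y c none * w j (y c (some i)) - y c (some i) * w j (y c none) = _
            rw [hy0 c, Derivation.map_one_eq_zero, mul_zero, sub_zero, one_mul]
          have h4 := (hps (y c) (hyn c) A (w j) (none, some i)).trans (mul_le_mul_left (hy₀ c A (w j)) _)
          rw [h3] at h4
          rw [h2, map_mul]
          calc A.1.valuation z * A.1.valuation (w j (y c (some i)))
              ≤ A.1.valuation z * (mn (tn m₁ (tn m₂ m₃)) A (w j) * nm ℚ (y c) A ^ 2) := mul_le_mul_right h4 _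
            _ = _ := by rw [mul_left_comm]; rfl)
  have h1 := base_bound H (tn m₁ (tn m₂ m₃)) hm₀ f hf₀ (A7_M f) (fun D => Iff.rfl)
  have h2 := hS (tn m₁ (tn m₂ m₃)) hm₀ L
  have h3 : ∑ c, (H.lam (famP o s (x c) (e c) z (y c)) - H.lam (famQ o s (x c) (e c) z (y c))) =
      -∑ c, (H.lam (famQ o s (x c) (e c) z (y c)) - H.lam (famP o s (x c) (e c) z (y c))) := by
    rw [← Finset.sum_neg_distrib]
    exact Finset.sum_congr rfl fun c _ => by ring
  rw [h3]
  linarith

end Pool.Agent.Lib.MP_17a322_nt.MV
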