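import Pool.Agent.Lib.MP_17a322_nt.MV.A1
import Pool.Agent.Lib.MP_17a322_nt.MV.A5
import Pool.Agent.Lib.MP_17a322_nt.MV.A7

/-!
The inequality for many points, in the big field.
-/

namespace Pool.Agent.Lib.MP_17a322_nt.MV

open Pool.Agent.Lib.MP_17a322_nt.FQ

/-- Determinants commute with ring homomorphisms. -/
private theorem A8_plk {W W' : Type} [Field W] [Field W'] (φ : W →+* W') {α κ : Type} [Fintype α] [DecidableEq α]
    (x : α → κ → W) (I : α → κ) : φ (plk x I) = plk (fun j a => φ (x j a)) I := by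
  rw [plk_apply, plk_apply, RingHom.map_det]
  rfl

/-- Powers of families commute with ring homomorphisms. -/
private theorem A8_tpw {W W' : Type} [Field W] [Field W'] (φ : W →+* W') {α : Type} (r : ℕ) (x : α → W)
    (a : Fin r → α) : φ (tpw r x a) = tpw r (fun b => φ (x b)) a := by
  show φ (∏ j, x (a j)) = ∏ j, φ (x (a j))
  rw [map_prod]

private theorem A8_famA {W W' : Type} [Field W] [Field W'] (φ : W →+* W') {ι : Type} {k k' r : ℕ} (o : ι)
    (s : Fin k → ι) (e : Fin (k' + 1) ⊕ Fin r → ι → W) (z : W) (y : Option (Fin k) → W) (a) :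
    φ (famA o s e z y a) = famA o s (fun j b => φ (e j b)) (φ z) (fun b => φ (y b)) a := by
  show φ (plk e a.1 * (plk (fun j b => e (Sum.inl j) (os o s b)) a.2.1 * (z ^ r * tpw (2 * r) y a.2.2.2))) =
    plk (fun j b => φ (e j b)) a.1 * (plk (fun j b => φ (e (Sum.inl j) (os o s b))) a.2.1 *
      (φ z ^ r * tpw (2 * r) (fun b => φ (y b)) a.2.2.2))
  rw [map_mul, map_mul, map_mul, map_pow, A8_plk, A8_plk, A8_tpw]

private theorem A8_famB {W W' : Type} [Field W] [Field W'] (φ : W →+* W') {ι : Type} {k k' r : ℕ} (o : ι)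
    (s : Fin k → ι) (x : ι → W) (e : Fin (k' + 1) ⊕ Fin r → ι → W) (a) :
    φ (famB o s x e a) = famB o s (fun b => φ (x b)) (fun j b => φ (e j b)) a := by
  show φ (plk (fun j b => e j (os o s b)) a.1 * (plk (fun j => e (Sum.inl j)) a.2.1 * tpw r x a.2.2)) =
    plk (fun j b => φ (e j (os o s b))) a.1 * (plk (fun j b => φ (e (Sum.inl j) b)) a.2.1 *
      tpw r (fun b => φ (x b)) a.2.2)
  rw [map_mul, map_mul, A8_plk, A8_plk, A8_tpw]

private theorem A8_famP {W W' : Type} [Field W] [Field W'] (φ : W →+* W') {ι : Type} {k k' r : ℕ} (o : ι)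
    (s : Fin k → ι) (x : ι → W) (e : Fin (k' + 1) ⊕ Fin r → ι → W) (z : W) (y : Option (Fin k) → W) :
    (fun a => φ (famP o s x e z y a)) =
      famP o s (fun b => φ (x b)) (fun j b => φ (e j b)) (φ z) (fun b => φ (y b)) := by
  funext a
  cases a with
  | inl a => exact A8_famA φ o s e z y a
  | inr a => exact A8_famB φ o s x e a

private theorem A8_famQ {W W' : Type} [Field W] [Field W'] (φ : W →+* W') {ι : Type} {k k' r : ℕ} (o : ι)
    (s : Fin k → ι) (x : ι → W) (e : Fin (k' + 1) ⊕ Fin r → ι → W) (z : W) (y : Option (Fin k) → W) :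
    (fun a => φ (famQ o s x e z y a)) =
      famQ o s (fun b => φ (x b)) (fun j b => φ (e j b)) (φ z) (fun b => φ (y b)) := by
  funext a
  show φ (plk (fun j => e (Sum.inl j)) a.1 * (tpw r x a.2.1 * (plk (fun j b => e (Sum.inl j) (os o s b)) a.2.2.1 *
      (z ^ r * tpw (2 * r) y a.2.2.2.2)))) =
    plk (fun j b => φ (e (Sum.inl j) b)) a.1 * (tpw r (fun b => φ (x b)) a.2.1 *
      (plk (fun j b => φ (e (Sum.inl j) (os o s b))) a.2.2.1 * (φ z ^ r * tpw (2 * r) (fun b => φ (y b)) a.2.2.2.2)))
  rw [map_mul, map_mul, map_mul, map_mul, map_pow, A8_plk, A8_plk, A8_tpw, A8_tpw]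

private theorem A8_on {W W' : Type} [Field W] [Field W'] (φ : W →+* W') (f : W) :
    (fun a => φ (on f a)) = on (φ f) := by
  funext a
  cases a with
  | false => exact map_one φ
  | true => rfl

/-- If the image of a vector is in the span of the images, the vector is in the span. -/
private theorem A8_span {E B : Type} [Field E] [Field B] [Algebra E B] {ι J : Type} [Fintype ι] (v : J → ι → E)
    (w : ι → E)
    (h : (fun a => algebraMap E B (w a)) ∈ Submodule.span B (Set.range fun j a => algebraMap E B (v j a))) :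
    w ∈ Submodule.span E (Set.range v) := by
  classical
  by_contra hw
  obtain ⟨φ, h1, h2⟩ := Submodule.exists_le_ker_of_notMem hw
  obtain ⟨c, hc⟩ : ∃ c : ι → E, ∀ u : ι → E, φ u = ∑ a, c a * u a := by
    refine ⟨fun a => φ (Pi.single a 1), fun u => ?_⟩
    conv_lhs => rw [pi_eq_sum_univ' u]
    rw [map_sum]
    refine Finset.sum_congr rfl fun a _ => ?_
    rw [map_smul, smul_eq_mul, mul_comm]
  have h3 : ∀ u ∈ Submodule.span B (Set.range fun j a => algebraMap E B (v j a)),
      ∑ a, algebraMap E B (c a) * u a = 0 := by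
    intro u hu
    induction hu using Submodule.span_induction with
    | mem u hu =>
      obtain ⟨j, rfl⟩ := hu
      have h4 : φ (v j) = 0 := h2 (Submodule.subset_span ⟨j, rfl⟩)
      rw [hc] at h4
      have h5 := congrArg (algebraMap E B) h4
      rw [map_sum, map_zero] at h5
      rw [← h5]
      refine Finset.sum_congr rfl fun a _ => ?_
      rw [map_mul]
    | zero =>
      refine Finset.sum_eq_zero fun a _ => ?_
      rw [Pi.zero_apply, mul_zero]
    | add u u' _ _ h4 h5 =>
      have h6 : ∑ a, algebraMap E B (c a) * (u + u') a =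
          ∑ a, algebraMap E B (c a) * u a + ∑ a, algebraMap E B (c a) * u' a := by
        rw [← Finset.sum_add_distrib]
        refine Finset.sum_congr rfl fun a _ => ?_
        rw [Pi.add_apply, mul_add]
      rw [h6, h4, h5, add_zero]
    | smul t u _ h4 =>
      have h6 : ∑ a, algebraMap E B (c a) * (t • u) a = t * ∑ a, algebraMap E B (c a) * u a := by
        rw [Finset.mul_sum]
        refine Finset.sum_congr rfl fun a _ => ?_
        rw [Pi.smul_apply, smul_eq_mul]
        ring
      rw [h6, h4, mul_zero]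
  have h4 := h3 _ h
  apply h1
  rw [hc]
  apply (algebraMap E B).injective
  rw [map_zero, map_sum, ← h4]
  refine Finset.sum_congr rfl fun a _ => ?_
  rw [map_mul]

/-- The image of a vector in the span is in the span of the images. -/
private theorem A8_span' {E B : Type} [Field E] [Field B] [Algebra E B] {ι J : Type} (v : J → ι → E)
    (w : ι → E) (h : w ∈ Submodule.span E (Set.range v)) :
    (fun a => algebraMap E B (w a)) ∈ Submodule.span B (Set.range fun j a => algebraMap E B (v j a)) := by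
  induction h using Submodule.span_induction with
  | mem u hu =>
    obtain ⟨j, rfl⟩ := hu
    exact Submodule.subset_span ⟨j, rfl⟩
  | zero =>
    have h1 : (fun a => algebraMap E B ((0 : ι → E) a)) = 0 := by
      funext a
      rw [Pi.zero_apply, map_zero, Pi.zero_apply]
    rw [h1]
    exact zero_mem _
  | add u u' _ _ h4 h5 =>
    have h1 : (fun a => algebraMap E B ((u + u') a)) =
        (fun a => algebraMap E B (u a)) + fun a => algebraMap E B (u' a) := by
      funext a
      rw [Pi.add_apply, map_add, Pi.add_apply]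
    rw [h1]
    exact add_mem h4 h5
  | smul t u _ h4 =>
    have h1 : (fun a => algebraMap E B ((t • u) a)) = algebraMap E B t • fun a => algebraMap E B (u a) := by
      funext a
      rw [Pi.smul_apply, smul_eq_mul, map_mul, Pi.smul_apply, smul_eq_mul]
    rw [h1]
    exact Submodule.smul_mem _ _ h4

/-- Vectors are independent if their images are. -/
private theorem A8_li {E B : Type} [Field E] [Field B] [Algebra E B] {ι J : Type} (v : J → ι → E)
    (h : LinearIndependent B fun j a => algebraMap E B (v j a)) : LinearIndependent E v := by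
  rw [linearIndependent_iff'] at h ⊢
  intro t c hc j hj
  apply (algebraMap E B).injective
  rw [map_zero]
  refine h t (fun j => algebraMap E B (c j)) ?_ j hj
  funext a
  have h1 := congrFun hc a
  rw [Finset.sum_apply, Pi.zero_apply] at h1
  rw [Finset.sum_apply, Pi.zero_apply]
  have h2 := congrArg (algebraMap E B) h1
  rw [map_sum, map_zero] at h2
  rw [← h2]
  refine Finset.sum_congr rfl fun i _ => ?_
  rw [Pi.smul_apply, smul_eq_mul, Pi.smul_apply, smul_eq_mul, map_mul]

/-- An additive map with the product rule is a derivation over the rationals. -/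
private noncomputable def A8_der {A M : Type} [CommRing A] [Algebra ℚ A] [AddCommGroup M] [Module A M] [Module ℚ M]
    (d : A →+ M) (h : ∀ a b, d (a * b) = a • d b + b • d a) : Derivation ℚ A M :=
  Derivation.mk' d.toRatLinearMap h

/-- The theorem for data in a finitely generated field. -/
private theorem A8_aux (hQ : SemiQ) {B : Type} [Field B] [Algebra ℚ B] (X : Evl ℚ B ℕ) (E : Type) [Field E]
    [Algebra ℚ E] [Algebra E B] [IsScalarTower ℚ E B]
    (hE : (⊤ : IntermediateField ℚ E).FG) {ι : Type} [Fintype ι] (o : ι)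
    {k m l : ℕ} (s : Fin k → ι) (f : Fin l → E) (k' r : Fin m → ℕ) (x : Fin m → ι → E)
    (e : ∀ c, Fin (k' c + 1) ⊕ Fin (r c) → ι → E) (z : E) (y : Fin m → Option (Fin k) → E) (x0 : Fin k → E)
    (hx : ∀ c, x c o = 1) (he : ∀ c, LinearIndependent B (fun j a => algebraMap E B (e c j a)))
    (hxe : ∀ c, (fun a => algebraMap E B (x c a)) ∈
      Submodule.span B (Set.range fun j a => algebraMap E B (e c (Sum.inl j) a)))
    (hin : ∀ c, ∀ v ∈ Submodule.span B (Set.range (fun j a => algebraMap E B (e c j a))),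
      (∀ b, v (os o s b) = 0) → v = 0)
    (hz : z ≠ 0) (hy0 : ∀ c, y c none = 1) (hy : ∀ c j, z * y c (some j) = x c (s j) - x0 j)
    (hDz : ∀ D : E →+ E, (∀ a b, D (a * b) = a * D b + b * D a) → (∀ j, D (f j) = 0) →
      D z = 0 ∧ ∀ j, D (x0 j) = 0)
    (hder : ∀ c, ∀ D : E →+ B, (∀ a b, D (a * b) = algebraMap E B a * D b + algebraMap E B b * D a) →
      (∀ j, D (f j) = 0) →
        (fun a => D (x c a)) ∈ Submodule.span B (Set.range (fun j a => algebraMap E B (e c j a))))
    (hs : ∀ w : Fin m → Fin k → E, ∃ D : E →+ E, (∀ a b, D (a * b) = a * D b + b * D a) ∧ (∀ j, D (f j) = 0) ∧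
      ∀ c j, D (x c (s j)) = w c j) :
    ∑ c, (X.lm (famP o s (fun a => algebraMap E B (x c a)) (fun j a => algebraMap E B (e c j a)) (algebraMap E B z)
      (fun b => algebraMap E B (y c b))) - X.lm (famQ o s (fun a => algebraMap E B (x c a))
        (fun j a => algebraMap E B (e c j a)) (algebraMap E B z) (fun b => algebraMap E B (y c b)))) ≤
      2 * ∑ j, X.lm (on (algebraMap E B (f j))) := by
  obtain ⟨n, g, -, hg⟩ := exists_gen hE
  have hfd := gen_findim g hg
  have hDz' : ∀ D : Derivation ℚ E E, (∀ j, D (f j) = 0) → D z = 0 ∧ ∀ j, D (x0 j) = 0 := fun D hD =>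
    hDz (AddMonoidHom.mk' D (map_add D)) (fun a b => D.leibniz a b) hD
  have hder' : ∀ D : Derivation ℚ E E, (∀ j, D (f j) = 0) → ∀ c,
      (fun a => D (x c a)) ∈ Submodule.span E (Set.range (e c)) := by
    intro D hD c
    apply A8_span (B := B)
    refine hder c (AddMonoidHom.mk' (fun a => algebraMap E B (D a)) fun a b => ?_) (fun a b => ?_) fun j => ?_
    · rw [map_add, map_add]
    · show algebraMap E B (D (a * b)) = algebraMap E B a * algebraMap E B (D b) + algebraMap E B b * algebraMap E B (D a)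
      rw [D.leibniz, smul_eq_mul, smul_eq_mul, map_add, map_mul, map_mul]
    · show algebraMap E B (D (f j)) = 0
      rw [hD j, map_zero]
  have hs' : ∀ w : Fin m → Fin k → E, ∃ D : Derivation ℚ E E, (∀ j, D (f j) = 0) ∧
      ∀ c j, D (x c (s j)) = w c j := by
    intro w
    obtain ⟨D, h1, h2, h3⟩ := hs w
    exact ⟨A8_der D h1, h2, h3⟩
  have h1 := coreE (X.ht E) (fun m hm L => thmS hQ X E hE m hm L) hE o s f k' r x e z y x0 hx
    (fun c => A8_li (e c) (he c)) (fun c => A8_span (B := B) (fun j => e c (Sum.inl j)) (x c) (hxe c))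
    (fun c v hv hb => by
      have h2 := hin c (fun a => algebraMap E B (v a)) (A8_span' (e c) v hv) (fun b => by
        show algebraMap E B (v (os o s b)) = 0
        rw [hb b, map_zero])
      funext a
      apply (algebraMap E B).injective
      rw [Pi.zero_apply, map_zero]
      exact congrFun h2 a) hz hy0 hy hDz' hder' hs'
  have hP : ∀ c, (X.ht E).lam (famP o s (x c) (e c) z (y c)) =
      X.lm (famP o s (fun a => algebraMap E B (x c a)) (fun j a => algebraMap E B (e c j a)) (algebraMap E B z)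
      (fun b => algebraMap E B (y c b))) := by
    intro c
    rw [← A8_famP]
    rfl
  have hQ' : ∀ c, (X.ht E).lam (famQ o s (x c) (e c) z (y c)) =
      X.lm (famQ o s (fun a => algebraMap E B (x c a)) (fun j a => algebraMap E B (e c j a)) (algebraMap E B z)
      (fun b => algebraMap E B (y c b))) := by
    intro c
    rw [← A8_famQ]
    rfl
  have hon : ∀ j, (X.ht E).lam (on (f j)) = X.lm (on (algebraMap E B (f j))) := by
    intro j
    rw [← A8_on]
    rfl
  simp only [hP, hQ', hon] at h1
  exact h1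

/-- The inequality for many points in the big field `B`.

PROOF: `E = adjoin ℚ` (the finite set of all the entries of `f`, `x`, `e`, `z`, `y`, `x0`), an intermediate field; `⊤` of
`IntermediateField ℚ E` is finitely generated; `FiniteDimensional E (Derivation ℚ E E)` by `exists_gen`, `gen_findim`
(FQ/V2). All data lie in `E`; `thmS` for `E` (with `Algebra E B`); `coreE` for the lifted data and `H = X.ht E`, whose
`lam` is `X.lm` of the images; the images of `famP`, `famQ`, `on` of the lifted data are those of the data (determinants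
and products commute with `algebraMap`, `RingHom.map_det`). Linear independence and spans: `e c` is independent over `E`
because it is over `B`; for `w` with entries in `E` one has `w ∈ span_E (e c)` iff `w ∈ span_B (e c)` (if `w` is not in
the span over `E`, the family `e c`, `w` is independent over `E`, hence over `B`: `li_algebraMap` in FQ/X2). `hder` with
`D` composed with `E → B`; `hDz` by `der_adjoin`; `hs` by `der_exists` with `Z = Fin m × Fin k`. -/
theorem core (hQ : SemiQ) {B : Type} [Field B] [Algebra ℚ B] (X : Evl ℚ B ℕ) {ι : Type} [Fintype ι] (o : ι)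
    {k m l : ℕ} (s : Fin k → ι) (f : Fin l → B) (k' r : Fin m → ℕ) (x : Fin m → ι → B)
    (e : ∀ c, Fin (k' c + 1) ⊕ Fin (r c) → ι → B) (z : B) (y : Fin m → Option (Fin k) → B) (x0 : Fin k → B)
    (hx : ∀ c, x c o = 1) (he : ∀ c, LinearIndependent B (e c))
    (hxe : ∀ c, x c ∈ Submodule.span B (Set.range fun j => e c (Sum.inl j)))
    (hin : ∀ c, ∀ v ∈ Submodule.span B (Set.range (e c)), (∀ b, v (os o s b) = 0) → v = 0)
    (hz : z ≠ 0) (hy0 : ∀ c, y c none = 1) (hy : ∀ c j, z * y c (some j) = x c (s j) - x0 j)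
    (hzf : z ∈ IntermediateField.adjoin ℚ (Set.range f))
    (hx0 : ∀ j, x0 j ∈ IntermediateField.adjoin ℚ (Set.range f))
    (hder : ∀ (E : IntermediateField ℚ B) (c : Fin m) (xE : ι → E), (∀ a, (xE a : B) = x c a) →
      Set.range f ⊆ E → ∀ D : Derivation ℚ E B, (∀ t : E, (t : B) ∈ Set.range f → D t = 0) →
        (fun a => D (xE a)) ∈ Submodule.span B (Set.range (e c)))
    (halg : AlgebraicIndependent (IntermediateField.adjoin ℚ (Set.range f))
      fun z : Fin m × Fin k => x z.1 (s z.2)) :
    ∑ c, (X.lm (famP o s (x c) (e c) z (y c)) - X.lm (famQ o s (x c) (e c) z (y c))) ≤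
      2 * ∑ j, X.lm (on (f j)) := by
  classical
  obtain ⟨S, hS⟩ : ∃ S : Set B, S = Set.range f ∪ (⋃ c, Set.range (x c)) ∪ (⋃ c, ⋃ j, Set.range (e c j)) ∪ {z} ∪
      (⋃ c, Set.range (y c)) ∪ Set.range x0 := ⟨_, rfl⟩
  have hfin : S.Finite := by
    rw [hS]
    refine Set.Finite.union (Set.Finite.union (Set.Finite.union (Set.Finite.union (Set.Finite.union
      (Set.finite_range f) (Set.finite_iUnion fun c => Set.finite_range (x c)))
      (Set.finite_iUnion fun c => Set.finite_iUnion fun j => Set.finite_range (e c j)))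
      (Set.finite_singleton z)) (Set.finite_iUnion fun c => Set.finite_range (y c))) (Set.finite_range x0)
  obtain ⟨E, hEd⟩ : ∃ E : IntermediateField ℚ B, E = IntermediateField.adjoin ℚ S := ⟨_, rfl⟩
  have hSE : ∀ t ∈ S, t ∈ E := by
    intro t ht
    rw [hEd]
    exact IntermediateField.subset_adjoin ℚ S ht
  have hf : ∀ j, f j ∈ E := fun j => hSE _ (by
    rw [hS]
    exact Or.inl (Or.inl (Or.inl (Or.inl (Or.inl ⟨j, rfl⟩)))))
  have hxE : ∀ c a, x c a ∈ E := fun c a => hSE _ (by
    rw [hS]
    exact Or.inl (Or.inl (Or.inl (Or.inl (Or.inr (Set.mem_iUnion.2 ⟨c, a, rfl⟩))))))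
  have heE : ∀ c j a, e c j a ∈ E := fun c j a => hSE _ (by
    rw [hS]
    exact Or.inl (Or.inl (Or.inl (Or.inr (Set.mem_iUnion.2 ⟨c, Set.mem_iUnion.2 ⟨j, a, rfl⟩⟩)))))
  have hzE : z ∈ E := hSE _ (by
    rw [hS]
    exact Or.inl (Or.inl (Or.inr rfl)))
  have hyE : ∀ c a, y c a ∈ E := fun c a => hSE _ (by
    rw [hS]
    exact Or.inl (Or.inr (Set.mem_iUnion.2 ⟨c, a, rfl⟩)))
  have hx0E : ∀ j, x0 j ∈ E := fun j => hSE _ (by
    rw [hS]
    exact Or.inr ⟨j, rfl⟩)
  have hF : Set.range f ⊆ E := by
    rintro _ ⟨j, rfl⟩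
    exact hf j
  have hDz : ∀ D : E →+ E, (∀ a b, D (a * b) = a * D b + b * D a) → (∀ j, D ⟨f j, hf j⟩ = 0) →
      D ⟨z, hzE⟩ = 0 ∧ ∀ j, D ⟨x0 j, hx0E j⟩ = 0 := by
    intro D h0 hD
    have h1 : ∀ t : E, (t : B) ∈ Set.range f → D t = 0 := by
      rintro t ⟨j, hj⟩
      have h2 : (⟨f j, hf j⟩ : E) = t := Subtype.ext hj
      rw [← h2]
      exact hD j
    exact ⟨der_adjoin E (A8_der D h0) hF h1 ⟨z, hzE⟩ hzf, fun j => der_adjoin E (A8_der D h0) hF h1 ⟨x0 j, hx0E j⟩ (hx0 j)⟩
  have hder' : ∀ c, ∀ D : E →+ B, (∀ a b, D (a * b) = algebraMap E B a * D b + algebraMap E B b * D a) →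
      (∀ j, D ⟨f j, hf j⟩ = 0) → (fun a => D ⟨x c a, hxE c a⟩) ∈ Submodule.span B (Set.range (e c)) := by
    intro c D h0 hD
    exact hder E c (fun a => ⟨x c a, hxE c a⟩) (fun a => rfl) hF (A8_der D h0) fun t ht => by
      obtain ⟨j, hj⟩ := ht
      have h2 : (⟨f j, hf j⟩ : E) = t := Subtype.ext hj
      rw [← h2]
      exact hD j
  have hs : ∀ w : Fin m → Fin k → E, ∃ D : E →+ E, (∀ a b, D (a * b) = a * D b + b * D a) ∧
      (∀ j, D ⟨f j, hf j⟩ = 0) ∧ ∀ c j, D ⟨x c (s j), hxE c (s j)⟩ = w c j := by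
    intro w
    obtain ⟨D, h1, h2⟩ := der_exists E f hf (fun z : Fin m × Fin k => x z.1 (s z.2)) (fun z => hxE z.1 (s z.2)) halg
      (fun z => w z.1 z.2)
    exact ⟨AddMonoidHom.mk' D (map_add D), fun a b => D.leibniz a b, h1, fun c j => h2 (c, j)⟩
  let : Algebra ℚ E := E.algebra'
  have hE : (⊤ : IntermediateField ℚ E).FG := by
    rw [IntermediateField.fg_top_iff, IntermediateField.essFiniteType_iff, hEd]
    exact IntermediateField.fg_adjoin_of_finite hfin
  exact A8_aux hQ X E hE o s (fun j => ⟨f j, hf j⟩) k' r (fun c a => ⟨x c a, hxE c a⟩)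
    (fun c j a => ⟨e c j a, heE c j a⟩) ⟨z, hzE⟩ (fun c b => ⟨y c b, hyE c b⟩) (fun j => ⟨x0 j, hx0E j⟩)
    (fun c => Subtype.ext (hx c)) he hxe hin (fun h => hz (congrArg Subtype.val h))
    (fun c => Subtype.ext (hy0 c)) (fun c j => Subtype.ext (hy c j)) hDz hder' hs

end Pool.Agent.Lib.MP_17a322_nt.MV
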