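import Mathlib

/-!
The height of two families and the place `2`.
-/

namespace Pool.Agent.Lib.MP_17a322_nt.MV

open Height

/-- An integral family times a nonzero factor. -/
private theorem B1_int {γ : Type} [Finite γ] (c : γ → ℚ) :
    ∃ (d : ℚ) (y : γ → ℤ), d ≠ 0 ∧ ∀ i, d * c i = y i := by
  obtain ⟨b, hb⟩ := IsLocalization.exist_integer_multiples_of_finite (nonZeroDivisors ℤ) c
  choose y hy using hb
  refine ⟨((b : ℤ) : ℚ), y, ?_, fun i => ?_⟩
  · have := nonZeroDivisors.coe_ne_zero b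
    exact_mod_cast this
  · have h := hy i
    rw [zsmul_eq_mul] at h
    rw [← h]
    simp

/-- A nonzero family is a multiple of a primitive integral one. -/
private theorem B1_prim {γ : Type} [Fintype γ] (c : γ → ℚ) (hc : c ≠ 0) :
    ∃ (d : ℚ) (z : γ → ℤ), d ≠ 0 ∧ (∀ i, d * c i = z i) ∧ Finset.univ.gcd z = 1 := by
  obtain ⟨d, y, hd, hy⟩ := B1_int c
  obtain ⟨i0, hi0⟩ := Function.ne_iff.1 hc
  have hne : (Finset.univ : Finset γ).Nonempty := ⟨i0, Finset.mem_univ _⟩
  obtain ⟨z, hz, hz1⟩ := Finset.extract_gcd y hne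
  have hg : Finset.univ.gcd y ≠ 0 := by
    intro h
    have h1 := hy i0
    have h2 : y i0 = 0 := Finset.gcd_eq_zero_iff.1 h i0 (Finset.mem_univ _)
    rw [h2] at h1
    have h3 : d * c i0 = 0 := by simpa using h1
    rcases mul_eq_zero.1 h3 with h | h
    · exact hd h
    · exact hi0 h
  have hg' : ((Finset.univ.gcd y : ℤ) : ℚ) ≠ 0 := by exact_mod_cast hg
  refine ⟨d / ((Finset.univ.gcd y : ℤ) : ℚ), z, div_ne_zero hd hg', fun i => ?_, hz1⟩
  have h1 := hy i
  have h2 := hz i (Finset.mem_univ _)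
  have h3 : (y i : ℚ) = ((Finset.univ.gcd y : ℤ) : ℚ) * (z i : ℚ) := by exact_mod_cast h2
  rw [div_mul_eq_mul_div, h1, h3, mul_div_cancel_left₀ _ hg']

/-- The height of an integral family is at most its greatest absolute value. -/
private theorem B1_le {γ : Type} [Fintype γ] (w : γ → ℤ) (i0 : γ) (hw : w i0 ≠ 0) :
    mulHeight (fun i => (w i : ℚ)) ≤ ⨆ i, |(w i : ℝ)| := by
  have hne : (Finset.univ : Finset γ).Nonempty := ⟨i0, Finset.mem_univ _⟩
  have : Nonempty γ := ⟨i0⟩
  obtain ⟨z, hz, hz1⟩ := Finset.extract_gcd w hne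
  have hg : Finset.univ.gcd w ≠ 0 := by
    intro h
    exact hw (Finset.gcd_eq_zero_iff.1 h i0 (Finset.mem_univ _))
  have hg' : ((Finset.univ.gcd w : ℤ) : ℚ) ≠ 0 := by exact_mod_cast hg
  have h1 : (fun i => (w i : ℚ)) = ((Finset.univ.gcd w : ℤ) : ℚ) • (((↑) : ℤ → ℚ) ∘ z) := by
    funext i
    have := hz i (Finset.mem_univ _)
    simp only [Pi.smul_apply, smul_eq_mul, Function.comp]
    exact_mod_cast this
  rw [h1, mulHeight_smul_eq_mulHeight _ hg', Rat.mulHeight_eq_max_abs_of_gcd_eq_one hz1,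
    Finite.map_iSup_of_monotone _ Int.cast_mono]
  refine ciSup_le fun i => Finite.le_ciSup_of_le i ?_
  have h2 := hz i (Finset.mem_univ _)
  rw [h2]
  push_cast
  rw [abs_mul]
  have h3 : (1 : ℝ) ≤ |((Finset.univ.gcd w : ℤ) : ℝ)| := by
    have : (1 : ℤ) ≤ |Finset.univ.gcd w| := Int.one_le_abs hg
    exact_mod_cast this
  exact le_mul_of_one_le_left (abs_nonneg _) h3

/-- If at the place `2` the family `b` is larger than `a` by the factor `2 ^ M`, the height of both together is at least the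
one of `a` plus `M log 2`.

PROOF: there is an integer `D ≠ 0` with `D a`, `D b` integral. For an integral family `c ≠ 0` the height is
`log max |c| - log gcd(c)` (see `FQ/X9.lean`, `FQ/S2.lean`, or directly for the primitive family `c / gcd`; Mathlib:
`Rat`-lemmas on `mulHeight`/`logHeight` of integer vectors with gcd one). Let `g = gcd(D a)`, `g' = gcd(D a, D b)`. Then `g' ∣ g`
and by hypothesis the `2`-adic valuation of `g'` is at most the one of `g` minus `M`, so `g' * 2 ^ M ∣ g`. Hence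
`logHeight (Sum.elim a b) ≥ log max |D a| - log g' ≥ log max |D a| - log g + M log 2`. (ANOTHER WAY: the definition of
`logHeight` as a sum over the places of `ℚ`; every local term is larger, the one at `2` by `M log 2`.) -/
theorem height2 {α β : Type} [Finite α] [Finite β] (a : α → ℚ) (b : β → ℚ) (M : ℕ) (ha : a ≠ 0) (b0 : β)
    (h : ∀ a0, padicNorm 2 (a a0) ≤ (2 ^ M)⁻¹ * padicNorm 2 (b b0)) :
    logHeight a + M * Real.log 2 ≤ logHeight (Sum.elim a b) := by
  classical
  cases nonempty_fintype α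
  cases nonempty_fintype β
  obtain ⟨i0, hi0⟩ := Function.ne_iff.1 ha
  have hc : Sum.elim a b ≠ 0 := Function.ne_iff.2 ⟨Sum.inl i0, by simpa using hi0⟩
  obtain ⟨d, z, hd, hz, hz1⟩ := B1_prim (Sum.elim a b) hc
  have : Nonempty (α ⊕ β) := ⟨Sum.inl i0⟩
  have : Nonempty α := ⟨i0⟩
  have hdvd : ∀ i, (2 : ℤ) ^ M ∣ z (Sum.inl i) := by
    intro i
    have h1 : padicNorm 2 ((z (Sum.inl i) : ℤ) : ℚ) ≤ (2 : ℚ) ^ (-(M : ℤ)) := by
      rw [← hz (Sum.inl i), Sum.elim_inl, padicNorm.mul]
      have h2 : padicNorm 2 (d * b b0) ≤ 1 := by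
        have := hz (Sum.inr b0)
        rw [Sum.elim_inr] at this
        rw [this]
        exact padicNorm.of_int _
      rw [padicNorm.mul] at h2
      calc padicNorm 2 d * padicNorm 2 (a i)
          ≤ padicNorm 2 d * ((2 ^ M)⁻¹ * padicNorm 2 (b b0)) :=
            mul_le_mul_of_nonneg_left (h i) (padicNorm.nonneg _)
        _ = (2 ^ M)⁻¹ * (padicNorm 2 d * padicNorm 2 (b b0)) := by ring
        _ ≤ (2 ^ M)⁻¹ * 1 := mul_le_mul_of_nonneg_left h2 (by positivity)
        _ = (2 : ℚ) ^ (-(M : ℤ)) := by rw [mul_one, zpow_neg, zpow_natCast]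
    have h3 := (padicNorm.dvd_iff_norm_le (p := 2) (n := M) (z := z (Sum.inl i))).2
      (by exact_mod_cast h1)
    exact_mod_cast h3
  choose w hw using hdvd
  have hw0 : w i0 ≠ 0 := by
    intro h0
    have h1 := hz (Sum.inl i0)
    rw [hw i0, h0] at h1
    simp only [Sum.elim_inl, mul_zero, Int.cast_zero] at h1
    rcases mul_eq_zero.1 h1 with h2 | h2
    · exact hd h2
    · exact hi0 (by simpa using h2)
  have hA : mulHeight a = mulHeight (fun i => (w i : ℚ)) := by
    have h1 : (fun i => (w i : ℚ)) = (d / 2 ^ M) • a := by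
      funext i
      have h2 := hz (Sum.inl i)
      rw [hw i, Sum.elim_inl] at h2
      push_cast at h2
      simp only [Pi.smul_apply, smul_eq_mul]
      rw [div_mul_eq_mul_div, h2, mul_div_cancel_left₀ _ (by positivity)]
    rw [h1, mulHeight_smul_eq_mulHeight _ (div_ne_zero hd (by positivity))]
  have hB : mulHeight (Sum.elim a b) = ⨆ i, |(z i : ℝ)| := by
    have h1 : (((↑) : ℤ → ℚ) ∘ z) = d • Sum.elim a b := by
      funext i
      simp only [Pi.smul_apply, smul_eq_mul, Function.comp]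
      rw [hz i]
    rw [← mulHeight_smul_eq_mulHeight _ hd, ← h1, Rat.mulHeight_eq_max_abs_of_gcd_eq_one hz1,
      Finite.map_iSup_of_monotone _ Int.cast_mono]
    simp only [Int.cast_abs]
  have hC : (2 : ℝ) ^ M * mulHeight a ≤ mulHeight (Sum.elim a b) := by
    rw [hA, hB]
    calc (2 : ℝ) ^ M * mulHeight (fun i => (w i : ℚ))
        ≤ (2 : ℝ) ^ M * ⨆ i, |(w i : ℝ)| :=
          mul_le_mul_of_nonneg_left (B1_le w i0 hw0) (by positivity)
      _ = ⨆ i, (2 : ℝ) ^ M * |(w i : ℝ)| := Real.mul_iSup_of_nonneg (by positivity) _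
      _ ≤ ⨆ i, |(z i : ℝ)| := by
          refine ciSup_le fun i => Finite.le_ciSup_of_le (Sum.inl i) ?_
          rw [hw i]
          push_cast
          rw [abs_mul, abs_of_pos (by positivity : (0 : ℝ) < 2 ^ M)]
  rw [logHeight_eq_log_mulHeight, logHeight_eq_log_mulHeight]
  have h4 := Real.log_le_log (by positivity) hC
  rw [Real.log_mul (by positivity) (mulHeight_ne_zero a), Real.log_pow] at h4
  linarith

end Pool.Agent.Lib.MP_17a322_nt.MV
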