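import Pool.Agent.Lib.MP_17a322_nt.FQ.N3

/-!
Families of products of minors: definitions.
-/

namespace Pool.Agent.Lib.MP_17a322_nt.MV

open Pool.Agent.Lib.MP_17a322_nt.FQ (plk)

section

variable {W : Type*} [Field W] {ι : Type}

/-- The coordinates `o` and `s`. -/
def os {k : ℕ} (o : ι) (s : Fin k → ι) (b : Option (Fin k)) : ι := b.elim o s

/-- The product of two families. -/
def tt {α β : Type} (a : α → W) (b : β → W) : α × β → W := fun z => a z.1 * b z.2

/-- The power of a family. -/
def tpw {α : Type} (r : ℕ) (x : α → W) : (Fin r → α) → W := fun a => ∏ j, x (a j)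

variable {k k' r : ℕ} (o : ι) (s : Fin k → ι) (x : ι → W) (e : Fin (k' + 1) ⊕ Fin r → ι → W) (z : W)
  (y : Option (Fin k) → W)

/-- The minors of the vectors `e (inl j)` and of all vectors `e j`, times `z ^ r` and the products of `2 r` of the
`y b`. The minors of the `e (inl j)` are taken at the coordinates `o`, `s`. -/
noncomputable def famA : ((Fin (k' + 1) ⊕ Fin r → ι) × (Fin (k' + 1) → Option (Fin k)) × Unit ×
    (Fin (2 * r) → Option (Fin k))) → W :=
  tt (plk e) (tt (plk fun j b => e (Sum.inl j) (os o s b)) (tt (fun _ : Unit => z ^ r) (tpw (2 * r) y)))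

/-- The minors of all vectors `e j` at the coordinates `o`, `s` and all minors of the `e (inl j)`, times the products of
`r` of the coordinates of `x`. -/
noncomputable def famB : ((Fin (k' + 1) ⊕ Fin r → Option (Fin k)) × (Fin (k' + 1) → ι) × (Fin r → ι)) → W :=
  tt (plk fun j b => e j (os o s b)) (tt (plk fun j => e (Sum.inl j)) (tpw r x))

/-- The two families together. -/
noncomputable def famP : ((Fin (k' + 1) ⊕ Fin r → ι) × (Fin (k' + 1) → Option (Fin k)) × Unit ×
    (Fin (2 * r) → Option (Fin k))) ⊕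
    ((Fin (k' + 1) ⊕ Fin r → Option (Fin k)) × (Fin (k' + 1) → ι) × (Fin r → ι)) → W :=
  Sum.elim (famA o s e z y) (famB o s x e)

/-- The denominators. -/
noncomputable def famQ : ((Fin (k' + 1) → ι) × (Fin r → ι) × (Fin (k' + 1) → Option (Fin k)) × Unit ×
    (Fin (2 * r) → Option (Fin k))) → W :=
  tt (plk fun j => e (Sum.inl j)) (tt (tpw r x) (tt (plk fun j b => e (Sum.inl j) (os o s b))
    (tt (fun _ : Unit => z ^ r) (tpw (2 * r) y))))

end

end Pool.Agent.Lib.MP_17a322_nt.MV
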