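import Pool.Agent.Lib.MP_17a322_nt.FQ.A1
import Pool.Agent.Lib.MP_17a322_nt.MV.Fam

/-!
Internal sets of points, configurations: definitions.
-/

namespace Pool.Agent.Lib.MP_17a322_nt.MV

open Height
open Pool.Agent.Lib.MP_17a322_nt.EQ
open Pool.Agent.Lib.MP_17a322_nt.FQ

section

variable {B : Type} [Field B] [Algebra ℚ B] (X : Evl ℚ B ℕ) {ι : Type}

/-- The values of a vector. -/
def evv (x : ι → B) (i : ℕ) : ι → ℚ := fun a => X.ev (x a) i

/-- The point `p` over the big field belongs to the internal set `S`. -/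
def Mem (S : ℕ → Finset (ι → ℚ)) (p : ι → B) : Prop := ∀ᶠ i in (X.U : Filter ℕ), evv X p i ∈ S i

/-- `S'` is a subset of `S` which contains a positive proportion of its elements. -/
def Lg (S' S : ℕ → Finset (ι → ℚ)) : Prop :=
  (∀ᶠ i in (X.U : Filter ℕ), S' i ⊆ S i) ∧
    ∃ C : ℕ, ∀ᶠ i in (X.U : Filter ℕ), (S i).card ≤ C * (S' i).card

/-- `S i` has at least `exp ((c - o(1)) h i)` elements. -/
def Big (S : ℕ → Finset (ι → ℚ)) (c : ℝ) : Prop :=
  ∀ c' : ℝ, c' < c → ∀ᶠ i in (X.U : Filter ℕ), Real.exp (c' * X.h i) ≤ (S i).card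

/-- The `y j` are algebraically independent over the field generated by `F`. -/
def Ind (F : Set B) {k : ℕ} (y : Fin k → B) : Prop :=
  AlgebraicIndependent (IntermediateField.adjoin ℚ F) y

/-- The height of the subspace `V` minus its dimension times the height of `p`. -/
noncomputable def kap [Fintype ι] (V : Submodule ℚ (ι → ℚ)) (p : ι → ℚ) : ℝ :=
  hPl V - Module.finrank ℚ V * logHeight p

/-- The coordinates `o`, `s` are optimal for `V` at the place `2`. -/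
def Opt (o : ι) {k : ℕ} (s : Fin k → ι) (V : Submodule ℚ (ι → ℚ)) : Prop :=
  ∀ v ∈ V, ∀ a, ∃ b, padicNorm 2 (v a) ≤ padicNorm 2 (v (os o s b))

/-- Configurations of dimension `k` and scale `σ`. -/
structure Cfg [Fintype ι] (o : ι) (k : ℕ) (F : Set B) (S : ℕ → Finset (ι → ℚ))
    (V : ℕ → (ι → ℚ) → Submodule ℚ (ι → ℚ)) (N : ℕ → ℕ) (s : Fin k → ι) (σ : ℝ) : Prop where
  fin : F.Finite
  hgt : ∃ C : ℝ, ∀ᶠ i in (X.U : Filter ℕ), ∀ p ∈ S i, logHeight p ≤ C * X.h i ∧ hPl (V i p) ≤ C * X.h i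
  pt : ∀ᶠ i in (X.U : Filter ℕ), ∀ p ∈ S i, p o = 1 ∧ (∀ a, padicNorm 2 (p a) ≤ 1) ∧ p ∈ V i p ∧
    Module.finrank ℚ (V i p) = k + 1 ∧ Opt o s (V i p)
  cls : ∀ᶠ i in (X.U : Filter ℕ), ∀ p ∈ S i, ∀ q ∈ S i, ∀ j,
    padicNorm 2 (p (s j) - q (s j)) ≤ (2 ^ N i)⁻¹
  scale : Filter.Tendsto (fun i => N i * Real.log 2 / X.h i) (X.U : Filter ℕ) (nhds σ)
  der : ∀ (E : IntermediateField ℚ B) (p : ι → E), Mem X S (fun a => (p a : B)) → F ⊆ E →
    ∀ D : Derivation ℚ E B, (∀ t : E, (t : B) ∈ F → D t = 0) →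
      ∀ᶠ i in (X.U : Filter ℕ), evv X (fun a => D (p a)) i ∈ V i (evv X (fun a => (p a : B)) i)

/-- The points of every large subset are not contained in a smaller variety, over any larger field. -/
def Full (F : Set B) (S : ℕ → Finset (ι → ℚ)) {k : ℕ} (s : Fin k → ι) : Prop :=
  ∀ F' : Set B, F ⊆ F' → F'.Finite → ∀ S' : ℕ → Finset (ι → ℚ), Lg X S' S →
    ∃ p : ι → B, Mem X S' p ∧ Ind F' fun j => p (s j)

end

end Pool.Agent.Lib.MP_17a322_nt.MV
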