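import Pool.Agent.Lib.MP_17a322_nt.FQ.X1
import Pool.Agent.Lib.MP_17a322_nt.MV.Defs
import Pool.Agent.Lib.MP_17a322_nt.MV.Fam

/-!
Minors at optimal coordinates.
-/

namespace Pool.Agent.Lib.MP_17a322_nt.MV

open Pool.Agent.Lib.MP_17a322_nt.FQ

private theorem B2_prod {α : Type} (s : Finset α) (f : α → ℚ) (h : ∀ a ∈ s, padicNorm 2 (f a) ≤ 1) :
    padicNorm 2 (∏ a ∈ s, f a) ≤ 1 := by
  classical
  induction s using Finset.induction_on with
  | empty => rw [Finset.prod_empty, padicNorm.one]
  | insert a s ha ih =>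
    rw [Finset.prod_insert ha, padicNorm.mul]
    exact mul_le_one₀ (h a (Finset.mem_insert_self a s)) (padicNorm.nonneg _)
      (ih fun b hb => h b (Finset.mem_insert_of_mem hb))

/-- The determinant of an integral matrix is integral. -/
private theorem B2_det {J : Type} [Fintype J] [DecidableEq J] (M : Matrix J J ℚ)
    (h : ∀ i j, padicNorm 2 (M i j) ≤ 1) : padicNorm 2 M.det ≤ 1 := by
  rw [Matrix.det_apply]
  refine padicNorm.sum_le' (fun σ _ => ?_) zero_le_one
  rcases Int.units_eq_one_or (Equiv.Perm.sign σ) with h1 | h1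
  · rw [h1, one_smul]
    exact B2_prod _ _ fun a _ => h _ _
  · rw [h1, Units.neg_smul, one_smul, padicNorm.neg]
    exact B2_prod _ _ fun a _ => h _ _

private theorem B2_zero {q : ℚ} (h : padicNorm 2 q ≤ 0) : q = 0 :=
  padicNorm.zero_of_padicNorm_eq_zero (le_antisymm h (padicNorm.nonneg _))

/-- The largest minor at `2` is attained at the optimal coordinates.

PROOF: The restriction of `W = span e` to the coordinates `os o s` is injective (`Opt`), so the vectors `e j ∘ os o s` are
independent. Let `I'` be such that `|plk (e ∘ os) I'|_2` is maximal, so it is not zero. There are `w_i ∈ W` with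
`w_i (os (I' l)) = 1` if `l = i` and zero otherwise; by Cramer's rule and the maximality `|w_i (os b)|_2 ≤ 1` for all `b`,
so by `Opt` `|w_i a|_2 ≤ 1` for all `a`. Since `v a = ∑ i, v (os (I' i)) * w_i a` for `v ∈ W`, the minor `plk e I` is the
minor `plk (e ∘ os) I'` times `det (w_i (I l))`, which is `2`-integral. -/
theorem opt_plk {ι : Type} [Fintype ι] {k k' r : ℕ} (o : ι) (s : Fin k → ι) (e : Fin (k' + 1) ⊕ Fin r → ι → ℚ)
    (he : LinearIndependent ℚ e) (hO : Opt o s (Submodule.span ℚ (Set.range e)))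
    (I : Fin (k' + 1) ⊕ Fin r → ι) :
    ∃ I', padicNorm 2 (plk e I) ≤ padicNorm 2 (plk (fun j b => e j (os o s b)) I') := by
  classical
  obtain ⟨f, hf⟩ : ∃ f : Fin (k' + 1) ⊕ Fin r → Option (Fin k) → ℚ, ∀ j b, f j b = e j (os o s b) :=
    ⟨fun j b => e j (os o s b), fun _ _ => rfl⟩
  have hf' : (fun j b => e j (os o s b)) = f := by
    funext j b
    exact (hf j b).symm
  have hfi : LinearIndependent ℚ f := by
    rw [Fintype.linearIndependent_iff]
    intro g hg
    have hv : ∑ j, g j • e j = 0 := by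
      funext a
      obtain ⟨b, hb⟩ := hO (∑ j, g j • e j) (Submodule.sum_mem _ fun j _ =>
        Submodule.smul_mem _ _ (Submodule.subset_span ⟨j, rfl⟩)) a
      have h1 : (∑ j, g j • e j) (os o s b) = 0 := by
        have h2 := congrFun hg b
        rw [Finset.sum_apply, Pi.zero_apply] at h2
        rw [Finset.sum_apply, ← h2]
        refine Finset.sum_congr rfl fun j _ => ?_
        rw [Pi.smul_apply, Pi.smul_apply, hf]
      rw [h1, padicNorm.zero] at hb
      exact B2_zero hb
    exact Fintype.linearIndependent_iff.1 he g hv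
  rw [hf']
  obtain ⟨I', hI'⟩ : ∃ I', ∀ I'', padicNorm 2 (plk f I'') ≤ padicNorm 2 (plk f I') :=
    Finite.exists_max fun I'' => padicNorm 2 (plk f I'')
  have hne : plk f I' ≠ 0 := by
    intro h0
    refine plk_ne_zero f hfi (funext fun I'' => ?_)
    have h1 := hI' I''
    rw [h0, padicNorm.zero] at h1
    exact B2_zero h1
  refine ⟨I', ?_⟩
  obtain ⟨M, hM⟩ : ∃ M : Matrix (Fin (k' + 1) ⊕ Fin r) (Fin (k' + 1) ⊕ Fin r) ℚ,
      M = Matrix.of fun i j => f j (I' i) := ⟨_, rfl⟩
  have hMdet : M.det = plk f I' := by rw [hM, plk_apply]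
  have hunit : IsUnit M.det := by
    rw [hMdet]
    exact isUnit_iff_ne_zero.2 hne
  obtain ⟨w, hw⟩ : ∃ w : ι → Fin (k' + 1) ⊕ Fin r → ℚ, ∀ a, w a = Matrix.vecMul (fun j => e j a) M⁻¹ :=
    ⟨_, fun _ => rfl⟩
  have hwM : ∀ a j, ∑ i, w a i * M i j = e j a := by
    intro a j
    have h1 : Matrix.vecMul (w a) M = fun j => e j a := by
      rw [hw, Matrix.vecMul_vecMul, Matrix.nonsing_inv_mul M hunit, Matrix.vecMul_one]
    exact congrFun h1 j
  have hpos : 0 < padicNorm 2 (plk f I') :=
    lt_of_le_of_ne (padicNorm.nonneg _) fun h0 => hne (padicNorm.zero_of_padicNorm_eq_zero h0.symm)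
  have hos : ∀ b i, padicNorm 2 (w (os o s b) i) ≤ 1 := by
    intro b i
    have h1 := congrFun (Matrix.det_smul_inv_vecMul_eq_cramer_transpose M (fun j => e j (os o s b)) hunit) i
    rw [← hw, Matrix.cramer_transpose_apply, Pi.smul_apply, smul_eq_mul] at h1
    have h2 : (M.updateRow i fun j => e j (os o s b)).det = plk f (Function.update I' i b) := by
      rw [plk_apply]
      congr 1
      ext i' j
      rw [Matrix.updateRow_apply, Matrix.of_apply, Function.update_apply]
      by_cases hi : i' = i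
      · rw [if_pos hi, if_pos hi, hf]
      · rw [if_neg hi, if_neg hi, hM, Matrix.of_apply]
    have h3 := hI' (Function.update I' i b)
    rw [← h2, ← h1, padicNorm.mul, hMdet] at h3
    exact le_of_mul_le_mul_left (h3.trans_eq (mul_one _).symm) hpos
  have hall : ∀ a i, padicNorm 2 (w a i) ≤ 1 := by
    intro a i
    have hmem : (fun a => w a i) ∈ Submodule.span ℚ (Set.range e) := by
      have h1 : (fun a => w a i) = ∑ j, M⁻¹ j i • e j := by
        funext a
        rw [Finset.sum_apply, hw, Matrix.vecMul, dotProduct]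
        refine Finset.sum_congr rfl fun j _ => ?_
        rw [Pi.smul_apply, smul_eq_mul, mul_comm]
      rw [h1]
      exact Submodule.sum_mem _ fun j _ => Submodule.smul_mem _ _ (Submodule.subset_span ⟨j, rfl⟩)
    obtain ⟨b, hb⟩ := hO _ hmem a
    exact hb.trans (hos b i)
  have hfac : plk e I = (Matrix.of fun i l => w (I i) l).det * plk f I' := by
    rw [← hMdet, ← Matrix.det_mul, plk_apply]
    congr 1
    ext i j
    rw [Matrix.of_apply, Matrix.mul_apply, ← hwM]
    rfl
  rw [hfac, padicNorm.mul]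
  exact mul_le_of_le_one_left hpos.le (B2_det _ fun i j => hall (I i) j)

end Pool.Agent.Lib.MP_17a322_nt.MV
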