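import Pool.Agent.Lib.MP_17a322_nt.FQ.A6
import Pool.Agent.Lib.MP_17a322_nt.MV.B1
import Pool.Agent.Lib.MP_17a322_nt.MV.B2

/-!
The heights of the families over the rational numbers.
-/

namespace Pool.Agent.Lib.MP_17a322_nt.MV

open Height
open Pool.Agent.Lib.MP_17a322_nt.EQ
open Pool.Agent.Lib.MP_17a322_nt.FQ

private theorem B3_mns {κ ρ : Type} [Fintype ρ] [DecidableEq ρ] (y : ρ → κ → ℚ) : plk y = mns y := by
  funext s
  unfold plk mns
  rw [← Matrix.det_transpose]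
  rfl

private theorem B3_tt {α β : Type} [Finite α] [Finite β] {a : α → ℚ} {b : β → ℚ} (ha : a ≠ 0) (hb : b ≠ 0) :
    logHeight (tt a b) = logHeight a + logHeight b :=
  logHeight_fun_mul_eq ha hb

private theorem B3_tt_ne {α β : Type} {a : α → ℚ} {b : β → ℚ} (ha : a ≠ 0) (hb : b ≠ 0) : tt a b ≠ 0 := by
  obtain ⟨i, hi⟩ := Function.ne_iff.1 ha
  obtain ⟨j, hj⟩ := Function.ne_iff.1 hb
  exact Function.ne_iff.2 ⟨(i, j), mul_ne_zero hi hj⟩

private theorem B3_tpw {α : Type} [Finite α] (r : ℕ) {x : α → ℚ} (hx : x ≠ 0) :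
    logHeight (tpw r x) = r * logHeight x := by
  have h := logHeight_fun_prod_eq (K := ℚ) (α := Fin r) (ι := fun _ => α) (x := fun _ => x) fun _ => hx
  rw [Finset.sum_const, Finset.card_univ, Fintype.card_fin, nsmul_eq_mul] at h
  exact h

private theorem B3_tpw_ne {α : Type} (r : ℕ) {x : α → ℚ} (a : α) (hx : x a = 1) : tpw r x ≠ 0 := by
  refine Function.ne_iff.2 ⟨fun _ => a, ?_⟩
  show ∏ _j : Fin r, x a ≠ 0
  rw [hx, Finset.prod_const_one]
  exact one_ne_zero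

private theorem B3_mulN (a b : ℚ) : padicNorm 2 (a * b) = padicNorm 2 a * padicNorm 2 b :=
  padicNorm.mul a b

private theorem B3_pos (a : ℚ) : 0 ≤ padicNorm 2 a := padicNorm.nonneg a

private theorem B3_prod {r : ℕ} (f : Fin r → ℚ) (hf : ∀ j, padicNorm 2 (f j) ≤ 1) :
    padicNorm 2 (∏ j, f j) ≤ 1 := by
  induction r with
  | zero => simp
  | succ r ih =>
    rw [Fin.prod_univ_succ, B3_mulN]
    exact mul_le_one₀ (hf 0) (B3_pos _) (ih _ fun j => hf j.succ)

private theorem B3_two0 (M : ℕ) : padicNorm 2 ((2 : ℚ) ^ M) = (2 ^ M)⁻¹ := by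
  have h2 : padicNorm 2 (2 : ℚ) = 2⁻¹ := by
    have h := padicNorm.padicNorm_p_of_prime (p := 2)
    exact_mod_cast h
  induction M with
  | zero => simp
  | succ M ih => rw [pow_succ, B3_mulN, ih, h2, mul_inv]

private theorem B3_two (N r : ℕ) : padicNorm 2 (((2 : ℚ) ^ N) ^ r) = (2 ^ (r * N))⁻¹ := by
  rw [← pow_mul, mul_comm N r, B3_two0]

/-- The restriction to optimal coordinates is injective. -/
private theorem B3_inj {ι : Type} {k : ℕ} (o : ι) (s : Fin k → ι) (V : Submodule ℚ (ι → ℚ)) (hO : Opt o s V)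
    (v : ι → ℚ) (hv : v ∈ V) (h : ∀ b, v (os o s b) = 0) : v = 0 := by
  funext a
  obtain ⟨b, hb⟩ := hO v hv a
  rw [h b, padicNorm.zero] at hb
  exact padicNorm.zero_of_padicNorm_eq_zero (le_antisymm hb (B3_pos _))

private theorem B3_li {ι κ : Type} {k : ℕ} (o : ι) (s : Fin k → ι) (V : Submodule ℚ (ι → ℚ)) (hO : Opt o s V)
    (f : κ → ι → ℚ) (hf : LinearIndependent ℚ f) (hV : ∀ j, f j ∈ V) :
    LinearIndependent ℚ fun j b => f j (os o s b) := by
  have h1 : LinearIndependent ℚ (LinearMap.funLeft ℚ ℚ (os o s) ∘ f) := by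
    refine hf.map ?_
    rw [Submodule.disjoint_def]
    intro v hv hk
    have hv2 : v ∈ V := (Submodule.span_le.2 (by rintro _ ⟨j, rfl⟩; exact hV j)) hv
    exact B3_inj o s V hO v hv2 fun b => congrFun (LinearMap.mem_ker.1 hk) b
  exact h1

/-- PROOF: `height2` with `a = famA o s e (2 ^ N) y`, `b = famB o s x e`, `M = r * N`. For `famA a₀ = plk e I₁ *
plk (e' ∘ os) I₂ * 2 ^ (N r) * ∏ y (..)` take `I'` from `opt_plk`, for the maximal `|plk e I₁|_2`, and for the maximal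
`|plk (e' ∘ os) I₂|_2`, which is a minor `plk e' (os ∘ I₂)` of `e'`: `b₀ = (I', os ∘ I₂, fun _ => o)` (`x o = 1`), so
`|famA a₀|_2 ≤ |plk e|_2 |plk e'|_2 2 ^ (- N r) ≤ 2 ^ (- N r) |famB b₀|_2`. (`famA ≠ 0`: `e' ∘ os` is independent.) Then
`logHeight (famA) = hPl (span e) + logHeight (plk (e' ∘ os)) + 0 + logHeight (tpw (2 r) y)` and
`logHeight (famQ) = hPl (span e') + r * logHeight x + logHeight (plk (e' ∘ os)) + 0 + logHeight (tpw (2 r) y)`
(`logHeight_fun_mul_eq` for `tt`, `logHeight_fun_prod_eq` for `tpw`, `logHeight` of one nonzero element is zero,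
`hPl_span` (FQ/A6): `hPl (span y) = logHeight (mns y)`, and `mns` is `plk` up to the transpose). -/
theorem evalQ {ι : Type} [Fintype ι] {k k' r : ℕ} (o : ι) (s : Fin k → ι) (x : ι → ℚ)
    (e : Fin (k' + 1) ⊕ Fin r → ι → ℚ) (y : Option (Fin k) → ℚ) (N : ℕ) (he : LinearIndependent ℚ e)
    (hx : x o = 1) (hO : Opt o s (Submodule.span ℚ (Set.range e)))
    (hy : y none = 1) (hy2 : ∀ b, padicNorm 2 (y b) ≤ 1) :
    hPl (Submodule.span ℚ (Set.range e)) - hPl (Submodule.span ℚ (Set.range fun j => e (Sum.inl j))) -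
        r * logHeight x + r * (N * Real.log 2) ≤
      logHeight (famP o s x e (2 ^ N) y) - logHeight (famQ o s x e (2 ^ N) y) := by
  have he' : LinearIndependent ℚ fun j : Fin (k' + 1) => e (Sum.inl j) := he.comp _ Sum.inl_injective
  have hos : LinearIndependent ℚ fun (j : Fin (k' + 1)) b => e (Sum.inl j) (os o s b) :=
    B3_li o s _ hO _ he' fun j => Submodule.subset_span ⟨Sum.inl j, rfl⟩
  have n1 : plk e ≠ 0 := by
    rw [B3_mns]
    exact mns_ne he
  have n2 : (plk fun (j : Fin (k' + 1)) b => e (Sum.inl j) (os o s b)) ≠ 0 := by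
    rw [B3_mns]
    exact mns_ne hos
  have n3 : (fun _ : Unit => ((2 : ℚ) ^ N) ^ r) ≠ 0 := Function.ne_iff.2 ⟨(), by
    show ((2 : ℚ) ^ N) ^ r ≠ 0
    positivity⟩
  have n4 : tpw (2 * r) y ≠ 0 := B3_tpw_ne _ none hy
  have n5 : (plk fun j : Fin (k' + 1) => e (Sum.inl j)) ≠ 0 := by
    rw [B3_mns]
    exact mns_ne he'
  have n6 : tpw r x ≠ 0 := B3_tpw_ne _ o hx
  have hx0 : x ≠ 0 := Function.ne_iff.2 ⟨o, by rw [hx]; exact one_ne_zero⟩
  have n34 : tt (fun _ : Unit => ((2 : ℚ) ^ N) ^ r) (tpw (2 * r) y) ≠ 0 := B3_tt_ne n3 n4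
  have n234 := B3_tt_ne n2 n34
  have n1234 := B3_tt_ne n1 n234
  have hA : logHeight (famA o s e ((2 : ℚ) ^ N) y) = hPl (Submodule.span ℚ (Set.range e)) +
      logHeight (tt (plk fun (j : Fin (k' + 1)) b => e (Sum.inl j) (os o s b))
        (tt (fun _ : Unit => ((2 : ℚ) ^ N) ^ r) (tpw (2 * r) y))) := by
    unfold famA
    rw [B3_tt n1 n234, hPl_span e he, B3_mns e]
  have hQ : logHeight (famQ o s x e ((2 : ℚ) ^ N) y) =
      hPl (Submodule.span ℚ (Set.range fun j => e (Sum.inl j))) + (r * logHeight x +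
      logHeight (tt (plk fun (j : Fin (k' + 1)) b => e (Sum.inl j) (os o s b))
        (tt (fun _ : Unit => ((2 : ℚ) ^ N) ^ r) (tpw (2 * r) y)))) := by
    unfold famQ
    rw [B3_tt n5 (B3_tt_ne n6 n234), B3_tt n6 n234, hPl_span _ he', B3_tpw r hx0, B3_mns]
  have : Nonempty (Fin (k' + 1) ⊕ Fin r → ι) := ⟨fun _ => o⟩
  have : Nonempty (Fin (k' + 1) → Option (Fin k)) := ⟨fun _ => none⟩
  obtain ⟨I₁, hI₁⟩ := Finite.exists_max fun I => padicNorm 2 (plk e I)
  obtain ⟨I₂, hI₂⟩ := Finite.exists_max fun I =>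
    padicNorm 2 (plk (fun (j : Fin (k' + 1)) b => e (Sum.inl j) (os o s b)) I)
  obtain ⟨I', hI'⟩ := opt_plk o s e he hO I₁
  have hh := height2 (famA o s e ((2 : ℚ) ^ N) y) (famB o s x e) (r * N) n1234
    (I', (fun i => os o s (I₂ i)), fun _ => o) ?_
  · unfold famP
    rw [hA] at hh
    rw [hQ]
    push_cast at hh
    linarith
  · rintro ⟨a1, a2, a3, a4⟩
    show padicNorm 2 (plk e a1 * (plk (fun (j : Fin (k' + 1)) b => e (Sum.inl j) (os o s b)) a2 *
      (((2 : ℚ) ^ N) ^ r * ∏ j, y (a4 j)))) ≤ (2 ^ (r * N))⁻¹ *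
        padicNorm 2 (plk (fun j b => e j (os o s b)) I' *
          (plk (fun (j : Fin (k' + 1)) b => e (Sum.inl j) (os o s b)) I₂ * ∏ _j : Fin r, x o))
    rw [hx, Finset.prod_const_one, mul_one, B3_mulN, B3_mulN, B3_mulN, B3_mulN, B3_two]
    have g1 := (hI₁ a1).trans hI'
    have g2 := hI₂ a2
    have g3 := B3_prod (fun j => y (a4 j)) fun j => hy2 _
    have p1 := B3_pos (plk e a1)
    have p2 := B3_pos (plk (fun (j : Fin (k' + 1)) b => e (Sum.inl j) (os o s b)) a2)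
    have p3 := B3_pos (∏ j, y (a4 j))
    have p4 : (0 : ℚ) ≤ (2 ^ (r * N))⁻¹ := by positivity
    have p5 := B3_pos (plk (fun (j : Fin (k' + 1)) b => e (Sum.inl j) (os o s b)) I₂)
    calc padicNorm 2 (plk e a1) * (padicNorm 2 (plk (fun (j : Fin (k' + 1)) b => e (Sum.inl j) (os o s b)) a2) *
          ((2 ^ (r * N))⁻¹ * padicNorm 2 (∏ j, y (a4 j))))
        ≤ padicNorm 2 (plk (fun j b => e j (os o s b)) I') *
          (padicNorm 2 (plk (fun (j : Fin (k' + 1)) b => e (Sum.inl j) (os o s b)) I₂) *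
          ((2 ^ (r * N))⁻¹ * 1)) := by
          refine mul_le_mul g1 (mul_le_mul g2 (mul_le_mul_of_nonneg_left g3 p4) (mul_nonneg p4 p3) p5)
            (mul_nonneg p2 (mul_nonneg p4 p3)) (le_trans p1 g1)
      _ = _ := by ring

end Pool.Agent.Lib.MP_17a322_nt.MV
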