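import Pool.Agent.Lib.MP_17a322_nt.MV.Defs

/-!
First properties of internal sets.
-/

namespace Pool.Agent.Lib.MP_17a322_nt.MV

open Height
open Pool.Agent.Lib.MP_17a322_nt.EQ
open Pool.Agent.Lib.MP_17a322_nt.FQ

section

variable {B : Type} [Field B] [Algebra ℚ B] (X : Evl ℚ B ℕ) {ι : Type}

theorem Lg.refl (S : ℕ → Finset (ι → ℚ)) : Lg X S S := by
  refine ⟨Filter.Eventually.of_forall fun i => Finset.Subset.refl _, 1,
    Filter.Eventually.of_forall fun i => ?_⟩
  rw [one_mul]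

theorem Lg.trans {S S' S'' : ℕ → Finset (ι → ℚ)} (h : Lg X S'' S') (h' : Lg X S' S) : Lg X S'' S := by
  obtain ⟨h1, C, h2⟩ := h
  obtain ⟨h3, C', h4⟩ := h'
  refine ⟨?_, C' * C, ?_⟩
  · filter_upwards [h1, h3] with i a b
    exact a.trans b
  · filter_upwards [h2, h4] with i a b
    rw [mul_assoc]
    exact b.trans (Nat.mul_le_mul_left _ a)

theorem Mem.mono {S S' : ℕ → Finset (ι → ℚ)} {p : ι → B} (h : Mem X S' p)
    (hS : ∀ᶠ i in (X.U : Filter ℕ), S' i ⊆ S i) : Mem X S p := by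
  unfold Mem at h ⊢
  filter_upwards [h, hS] with i a b
  exact b a

/-- PROOF: for `c' < c` take `c''` between; `exp (c'' h) ≤ |S| ≤ C |S'|` and `C exp (c' h) ≤ exp (c'' h)` for large `h`
(`X.top`), so `C` is positive and `exp (c' h) ≤ |S'|`. -/
theorem Big.lg {S S' : ℕ → Finset (ι → ℚ)} (h : Lg X S' S) {c : ℝ} (hb : Big X S c) : Big X S' c := by
  intro c' hc'
  obtain ⟨-, C, hC⟩ := h
  have h1 := hb ((c' + c) / 2) (by linarith)
  have h2 : Filter.Tendsto (fun i => Real.exp (((c' + c) / 2 - c') * X.h i)) (X.U : Filter ℕ)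
      Filter.atTop :=
    Real.tendsto_exp_atTop.comp (X.top.const_mul_atTop (by linarith))
  filter_upwards [h1, hC, h2.eventually_ge_atTop ((C : ℝ) + 1)] with i a b d
  have e1 : Real.exp ((c' + c) / 2 * X.h i) =
      Real.exp (((c' + c) / 2 - c') * X.h i) * Real.exp (c' * X.h i) := by
    rw [← Real.exp_add]
    congr 1
    ring
  have e2 : ((S i).card : ℝ) ≤ C * (S' i).card := by exact_mod_cast b
  have e3 : ((C : ℝ) + 1) * Real.exp (c' * X.h i) ≤ Real.exp ((c' + c) / 2 * X.h i) := by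
    rw [e1]
    exact mul_le_mul_of_nonneg_right d (Real.exp_pos _).le
  have e4 : ((C : ℝ) + 1) * Real.exp (c' * X.h i) ≤ (C + 1) * (S' i).card := by
    have e5 : (0 : ℝ) ≤ (S' i).card := Nat.cast_nonneg _
    linarith
  exact le_of_mul_le_mul_left e4 (by positivity)

theorem Big.mono {S : ℕ → Finset (ι → ℚ)} {c c' : ℝ} (hb : Big X S c) (h : c' ≤ c) : Big X S c' := by
  intro c'' hc''
  exact hb c'' (lt_of_lt_of_le hc'' h)

theorem Ind.mono {F F' : Set B} (h : F ⊆ F') {k : ℕ} {y : Fin k → B} (hi : Ind F' y) : Ind F y := by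
  unfold Ind at hi ⊢
  have hle : IntermediateField.adjoin ℚ F ≤ IntermediateField.adjoin ℚ F' :=
    IntermediateField.adjoin.mono ℚ F F' h
  let f : IntermediateField.adjoin ℚ F →+* IntermediateField.adjoin ℚ F' :=
    { toFun := fun x => ⟨x.1, hle x.2⟩
      map_one' := rfl
      map_mul' := fun _ _ => rfl
      map_zero' := rfl
      map_add' := fun _ _ => rfl }
  letI : Algebra (IntermediateField.adjoin ℚ F) (IntermediateField.adjoin ℚ F') := f.toAlgebra
  haveI : IsScalarTower (IntermediateField.adjoin ℚ F) (IntermediateField.adjoin ℚ F') B :=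
    IsScalarTower.of_algebraMap_eq fun _ => rfl
  exact hi.restrictScalars f.injective

theorem Full.mono {F F' : Set B} {S S' : ℕ → Finset (ι → ℚ)} {k : ℕ} {s : Fin k → ι} (h : Full X F S s)
    (hF : F ⊆ F') (hS : Lg X S' S) : Full X F' S' s := by
  intro F'' h1 h2 S'' h3
  exact h F'' (hF.trans h1) h2 S'' (Lg.trans X h3 hS)

theorem Cfg.mono [Fintype ι] {o : ι} {k : ℕ} {F F' : Set B} {S S' : ℕ → Finset (ι → ℚ)}
    {V : ℕ → (ι → ℚ) → Submodule ℚ (ι → ℚ)} {N : ℕ → ℕ} {s : Fin k → ι} {σ : ℝ}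
    (h : Cfg X o k F S V N s σ) (hF : F ⊆ F') (hf : F'.Finite)
    (hS : ∀ᶠ i in (X.U : Filter ℕ), S' i ⊆ S i) : Cfg X o k F' S' V N s σ := by
  refine ⟨hf, ?_, ?_, ?_, h.scale, ?_⟩
  · obtain ⟨C, hC⟩ := h.hgt
    refine ⟨C, ?_⟩
    filter_upwards [hC, hS] with i a b p hp
    exact a p (b hp)
  · filter_upwards [h.pt, hS] with i a b p hp
    exact a p (b hp)
  · filter_upwards [h.cls, hS] with i a b p hp q hq
    exact a p (b hp) q (b hq)
  · intro E p hp hE D hD
    exact h.der E p (Mem.mono X hp hS) (hF.trans hE) D fun t ht => hD t (hF ht)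

open Classical in
/-- Pigeonhole. PROOF: at every `i` there is a value with `|S i| ≤ |α| * |filter|` (`α` is nonempty: if `α` is empty, `g`
gives a contradiction); the ultrafilter makes the value constant (`Ultrafilter` and a finite type:
`Ultrafilter.eventually_exists_iff`-like, or `Filter.Eventually` over a finite union, `Ultrafilter.finite_sUnion_mem_iff`
/ `finite_biUnion_mem_iff`). -/
theorem lg_pigeon (S : ℕ → Finset (ι → ℚ)) {α : Type} [Finite α] (g : ℕ → (ι → ℚ) → α) :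
    ∃ a, Lg X (fun i => (S i).filter fun p => g i p = a) S := by
  have hne : Nonempty α := ⟨g 0 fun _ => 0⟩
  haveI := Fintype.ofFinite α
  have h1 : ∀ i, ∃ a, (S i).card ≤ Fintype.card α * ((S i).filter fun p => g i p = a).card := by
    intro i
    have h2 : ∑ a : α, (S i).card ≤
        ∑ a : α, Fintype.card α * ((S i).filter fun p => g i p = a).card := by
      rw [← Finset.mul_sum, ← Finset.card_eq_sum_card_fiberwise (fun x _ => Finset.mem_coe.2
        (Finset.mem_univ (g i x))), Finset.sum_const, Finset.card_univ, smul_eq_mul]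
    obtain ⟨a, -, ha⟩ := Finset.exists_le_of_sum_le Finset.univ_nonempty h2
    exact ⟨a, ha⟩
  obtain ⟨a, ha⟩ := Ultrafilter.eventually_exists_iff.1
    (Filter.Eventually.of_forall h1 : ∀ᶠ i in (X.U : Filter ℕ), _)
  refine ⟨a, Filter.Eventually.of_forall fun i => Finset.filter_subset _ _, Fintype.card α, ha⟩

/-- Points of internal sets. PROOF: the coordinates of `q i` have heights at most `logHeight (q i)` (because `q i o = 1`),
so `X.surj` gives elements of `B`. -/
theorem exists_pt [Fintype ι] (o : ι) (q : ℕ → ι → ℚ) (hq : ∃ C : ℝ, ∀ᶠ i in (X.U : Filter ℕ),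
    logHeight (q i) ≤ C * X.h i ∧ q i o = 1) : ∃ p : ι → B, ∀ᶠ i in (X.U : Filter ℕ), evv X p i = q i := by
  obtain ⟨C, hC⟩ := hq
  have h1 : ∀ a, ∃ x : B, ∀ᶠ i in (X.U : Filter ℕ), X.ev x i = q i a := by
    intro a
    refine X.surj (fun i => q i a) ⟨C, ?_⟩
    filter_upwards [hC] with i hi
    refine le_trans ?_ hi.1
    rw [logHeight₁_eq_logHeight]
    have h2 : ![q i a, 1] = q i ∘ ![a, o] := by
      funext j
      fin_cases j
      · rfl
      · exact hi.2.symm
    rw [h2]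
    exact logHeight_comp_le _ _
  choose p hp using h1
  refine ⟨p, ?_⟩
  filter_upwards [Filter.eventually_all.2 hp] with i hi
  funext a
  exact hi a

/-- A large set has points. -/
theorem exists_mem [Fintype ι] {o : ι} {k : ℕ} {F : Set B} {S : ℕ → Finset (ι → ℚ)}
    {V : ℕ → (ι → ℚ) → Submodule ℚ (ι → ℚ)} {N : ℕ → ℕ} {s : Fin k → ι} {σ c : ℝ}
    (h : Cfg X o k F S V N s σ) (hb : Big X S c) : ∃ p, Mem X S p := by
  obtain ⟨C, hC⟩ := h.hgt
  have h1 := hb (c - 1) (by linarith)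
  have h2 : ∀ i, ∃ q : ι → ℚ, (S i).Nonempty → q ∈ S i := by
    intro i
    by_cases hi : (S i).Nonempty
    · obtain ⟨q, hq⟩ := hi
      exact ⟨q, fun _ => hq⟩
    · exact ⟨0, fun h => absurd h hi⟩
  choose q hq using h2
  have h3 : ∀ᶠ i in (X.U : Filter ℕ), q i ∈ S i := by
    filter_upwards [h1] with i hi
    refine hq i (Finset.card_pos.1 ?_)
    have h4 : (0 : ℝ) < (S i).card := lt_of_lt_of_le (Real.exp_pos _) hi
    exact_mod_cast h4
  obtain ⟨p, hp⟩ := exists_pt X o q ⟨C, by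
    filter_upwards [h3, hC, h.pt] with i a b d
    exact ⟨(b _ a).1, (d _ a).1⟩⟩
  refine ⟨p, ?_⟩
  unfold Mem
  filter_upwards [h3, hp] with i a b
  rw [b]
  exact a

end

end Pool.Agent.Lib.MP_17a322_nt.MV
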