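import Pool.Agent.Lib.MP_17a322_nt.FQ.A2
import Pool.Agent.Lib.MP_17a322_nt.MV.C0
import Pool.Agent.Lib.MP_17a322_nt.MV.B3

/-!
The limits of the heights of the families.
-/

namespace Pool.Agent.Lib.MP_17a322_nt.MV

open Height
open Pool.Agent.Lib.MP_17a322_nt.EQ
open Pool.Agent.Lib.MP_17a322_nt.FQ

section

variable {B : Type} [Field B] [Algebra ℚ B] (X : Evl ℚ B ℕ) {ι : Type} [Fintype ι] {k k' r : ℕ} (o : ι)
  (s : Fin k → ι) (x : ι → B) (e : Fin (k' + 1) ⊕ Fin r → ι → B) (z : B) (y : Option (Fin k) → B)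

private theorem B4_plk {α β : Type} [Fintype α] [DecidableEq α] (P : α → β → B) (I : α → β) :
    ∀ᶠ i in (X.U : Filter ℕ), X.ev (plk P I) i = plk (fun j b => X.ev (P j b) i) I := by
  filter_upwards [ev_det X (Matrix.of fun i j => P j (I i))] with i hi
  rw [plk_apply, plk_apply, hi]
  rfl

private theorem B4_tt {α β : Type} {a : α → B} {b : β → B} {a' : ℕ → α → ℚ} {b' : ℕ → β → ℚ} (p : α × β)
    (ha : ∀ᶠ i in (X.U : Filter ℕ), X.ev (a p.1) i = a' i p.1)
    (hb : ∀ᶠ i in (X.U : Filter ℕ), X.ev (b p.2) i = b' i p.2) :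
    ∀ᶠ i in (X.U : Filter ℕ), X.ev (tt a b p) i = tt (a' i) (b' i) p := by
  filter_upwards [X.mul (a p.1) (b p.2), ha, hb] with i h1 h2 h3
  unfold tt
  rw [h1, h2, h3]

private theorem B4_tpw {α : Type} (m : ℕ) (v : α → B) (J : Fin m → α) :
    ∀ᶠ i in (X.U : Filter ℕ), X.ev (tpw m v J) i = tpw m (fun a => X.ev (v a) i) J :=
  ev_prod X Finset.univ fun j => v (J j)

/-- PROOF: `ev_det`, `X.mul`, `ev_prod`, `ev_pow` (FQ/A1); finitely many indices (`Filter.eventually_all`). -/
theorem ev_famP : ∀ᶠ i in (X.U : Filter ℕ), (fun a => X.ev (famP o s x e z y a) i) =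
    famP o s (evv X x i) (fun j => evv X (e j) i) (X.ev z i) fun b => X.ev (y b) i := by
  have h : ∀ a, ∀ᶠ i in (X.U : Filter ℕ), X.ev (famP o s x e z y a) i =
      famP o s (evv X x i) (fun j => evv X (e j) i) (X.ev z i) (fun b => X.ev (y b) i) a := by
    rintro (a | a)
    · exact B4_tt X a (a := plk e) (a' := fun i => plk fun j => evv X (e j) i) (B4_plk X e a.1)
        (B4_tt X a.2 (a := plk fun j b => e (Sum.inl j) (os o s b))
          (a' := fun i => plk fun j b => evv X (e (Sum.inl j)) i (os o s b))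
          (B4_plk X (fun j b => e (Sum.inl j) (os o s b)) a.2.1)
          (B4_tt X a.2.2 (a := fun _ : Unit => z ^ r) (a' := fun i _ => X.ev z i ^ r) (ev_pow X z r)
            (b' := fun i => tpw (2 * r) fun b => X.ev (y b) i) (B4_tpw X (2 * r) y a.2.2.2)))
    · exact B4_tt X a (a := plk fun j b => e j (os o s b))
        (a' := fun i => plk fun j b => evv X (e j) i (os o s b))
        (B4_plk X (fun j b => e j (os o s b)) a.1)
        (B4_tt X a.2 (a := plk fun j => e (Sum.inl j)) (a' := fun i => plk fun j => evv X (e (Sum.inl j)) i)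
          (B4_plk X (fun j => e (Sum.inl j)) a.2.1)
          (b' := fun i => tpw r (evv X x i)) (B4_tpw X r x a.2.2))
  filter_upwards [Filter.eventually_all.2 h] with i hi
  funext a
  exact hi a

theorem ev_famQ : ∀ᶠ i in (X.U : Filter ℕ), (fun a => X.ev (famQ o s x e z y a) i) =
    famQ o s (evv X x i) (fun j => evv X (e j) i) (X.ev z i) fun b => X.ev (y b) i := by
  have h : ∀ a, ∀ᶠ i in (X.U : Filter ℕ), X.ev (famQ o s x e z y a) i =
      famQ o s (evv X x i) (fun j => evv X (e j) i) (X.ev z i) (fun b => X.ev (y b) i) a := by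
    intro a
    exact B4_tt X a (a := plk fun j => e (Sum.inl j)) (a' := fun i => plk fun j => evv X (e (Sum.inl j)) i)
        (B4_plk X (fun j => e (Sum.inl j)) a.1)
        (B4_tt X a.2 (a := tpw r x) (a' := fun i => tpw r (evv X x i)) (B4_tpw X r x a.2.1)
          (B4_tt X a.2.2 (a := plk fun j b => e (Sum.inl j) (os o s b))
            (a' := fun i => plk fun j b => evv X (e (Sum.inl j)) i (os o s b))
            (B4_plk X (fun j b => e (Sum.inl j) (os o s b)) a.2.2.1)
            (B4_tt X a.2.2.2 (a := fun _ : Unit => z ^ r) (a' := fun i _ => X.ev z i ^ r) (ev_pow X z r)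
              (b' := fun i => tpw (2 * r) fun b => X.ev (y b) i) (B4_tpw X (2 * r) y a.2.2.2.2))))
  filter_upwards [Filter.eventually_all.2 h] with i hi
  funext a
  exact hi a

/-- PROOF: `evalQ` at almost all `i`, divided by `X.h i`, and the limits `lm_tendsto` (FQ/A2), `hN`. -/
theorem lm_eval (N : ℕ → ℕ) {σ g : ℝ}
    (hN : Filter.Tendsto (fun i => N i * Real.log 2 / X.h i) (X.U : Filter ℕ) (nhds σ))
    (hind : ∀ᶠ i in (X.U : Filter ℕ), LinearIndependent ℚ fun j => evv X (e j) i)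
    (hx : ∀ᶠ i in (X.U : Filter ℕ), evv X x i o = 1)
    (hO : ∀ᶠ i in (X.U : Filter ℕ), Opt o s (Submodule.span ℚ (Set.range fun j => evv X (e j) i)))
    (hz : ∀ᶠ i in (X.U : Filter ℕ), X.ev z i = 2 ^ N i)
    (hy : ∀ᶠ i in (X.U : Filter ℕ), X.ev (y none) i = 1 ∧ ∀ b, padicNorm 2 (X.ev (y b) i) ≤ 1)
    (hg : ∀ᶠ i in (X.U : Filter ℕ), hPl (Submodule.span ℚ (Set.range fun j => evv X (e (Sum.inl j)) i)) -
      hPl (Submodule.span ℚ (Set.range fun j => evv X (e j) i)) + r * logHeight (evv X x i) ≤ g * X.h i) :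
    r * σ - g ≤ X.lm (famP o s x e z y) - X.lm (famQ o s x e z y) := by
  have h1 : Filter.Tendsto (fun i => r * (N i * Real.log 2 / X.h i) - g) (X.U : Filter ℕ) (nhds (r * σ - g)) :=
    (hN.const_mul (r : ℝ)).sub_const g
  have h2 := (lm_tendsto X (famP o s x e z y)).sub (lm_tendsto X (famQ o s x e z y))
  refine le_of_tendsto_of_tendsto h1 h2 ?_
  filter_upwards [hind, hx, hO, hz, hy, hg, ev_famP X o s x e z y, ev_famQ X o s x e z y, ev_pos X]
    with i hi hxi hOi hzi hyi hgi hP hQ hpos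
  have h3 := evalQ o s (evv X x i) (fun j => evv X (e j) i) (fun b => X.ev (y b) i) (N i) hi hxi hOi hyi.1 hyi.2
  rw [hzi] at hP hQ
  rw [← hP, ← hQ] at h3
  have h4 : r * (N i * Real.log 2) - g * X.h i ≤
      logHeight (fun a => X.ev (famP o s x e z y a) i) - logHeight (fun a => X.ev (famQ o s x e z y a) i) := by
    linarith
  have h5 := div_le_div_of_nonneg_right h4 hpos.le
  rw [sub_div, sub_div, mul_div_assoc, mul_div_cancel_right₀ _ hpos.ne'] at h5
  exact h5

end

end Pool.Agent.Lib.MP_17a322_nt.MV
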