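import Pool.Agent.Lib.MP_17a322_nt.FQ.A6
import Pool.Agent.Lib.MP_17a322_nt.MV.C0

/-!
Linear algebra over the big field and at almost all places of the sequence.
-/

namespace Pool.Agent.Lib.MP_17a322_nt.MV

open Height
open Pool.Agent.Lib.MP_17a322_nt.EQ
open Pool.Agent.Lib.MP_17a322_nt.FQ

section

variable {B : Type} [Field B] [Algebra ℚ B] (X : Evl ℚ B ℕ) {ι κ : Type} [Fintype ι] [Fintype κ]

/-- The values of a linear combination. -/
private theorem B5_comb (g : κ → B) (e : κ → ι → B) : ∀ᶠ i in (X.U : Filter ℕ),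
    evv X (∑ j, g j • e j) i = ∑ j, X.ev (g j) i • evv X (e j) i := by
  have h1 : ∀ a : ι, ∀ᶠ i in (X.U : Filter ℕ),
      X.ev (∑ j, g j * e j a) i = ∑ j, X.ev (g j) i * X.ev (e j a) i := by
    intro a
    have h2 : ∀ᶠ i in (X.U : Filter ℕ), ∀ j : κ, X.ev (g j * e j a) i = X.ev (g j) i * X.ev (e j a) i :=
      Filter.eventually_all.2 fun j => X.mul _ _
    filter_upwards [ev_sum X Finset.univ (fun j => g j * e j a), h2] with i h3 h4
    rw [h3]
    exact Finset.sum_congr rfl fun j _ => h4 j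
  filter_upwards [Filter.eventually_all.2 h1] with i h2
  funext a
  have h3 : (∑ j, g j • e j) a = ∑ j, g j * e j a := by
    rw [Finset.sum_apply]
    rfl
  rw [evv, h3, h2 a, Finset.sum_apply]
  rfl

/-- PROOF: some minor is not zero at almost all `i` (finitely many minors), so it is not zero in `B` (`ev_det`, `ev_eq`). -/
theorem tr_indep (e : κ → ι → B) (h : ∀ᶠ i in (X.U : Filter ℕ), LinearIndependent ℚ fun j => evv X (e j) i) :
    LinearIndependent B e := by
  by_contra hn
  obtain ⟨g, hg, j₀, hj₀⟩ := Fintype.not_linearIndependent_iff.1 hn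
  have h0 : ∀ᶠ i in (X.U : Filter ℕ), evv X (∑ j, g j • e j) i = 0 := by
    rw [hg]
    filter_upwards [ev_zero X] with i h1
    funext a
    exact h1
  obtain ⟨i, h1, h2, h3, h4⟩ := (h.and (h0.and ((B5_comb X g e).and (ev_ne X hj₀)))).exists
  rw [h2] at h3
  exact h4 (Fintype.linearIndependent_iff.1 h1 (fun j => X.ev (g j) i) h3.symm j₀)

/-- PROOF: otherwise the family `e`, `w` is independent over `B`, so at almost all `i` (`ev_indep`, FQ/A6). -/
theorem tr_mem (e : κ → ι → B) (w : ι → B) (he : LinearIndependent B e)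
    (h : ∀ᶠ i in (X.U : Filter ℕ), evv X w i ∈ Submodule.span ℚ (Set.range fun j => evv X (e j) i)) :
    w ∈ Submodule.span B (Set.range e) := by
  classical
  by_contra hw
  have h1 : LinearIndependent B (fun o : Option κ => (o.casesOn' w e : ι → B)) :=
    linearIndependent_option'.2 ⟨he, hw⟩
  obtain ⟨i, h2, h3⟩ := (h.and (ev_indep X _ h1)).exists
  have h4 : (fun (o : Option κ) (b : ι) => X.ev ((o.casesOn' w e : ι → B) b) i)
      = fun o : Option κ => (o.casesOn' (evv X w i) (fun j => evv X (e j) i) : ι → ℚ) := by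
    funext o
    cases o <;> rfl
  rw [h4] at h3
  exact (linearIndependent_option'.1 h3).2 h2

/-- PROOF: `ev_sum`, `X.mul` for the coefficients. -/
theorem tr_mem' (e : κ → ι → B) (w : ι → B) (h : w ∈ Submodule.span B (Set.range e)) :
    ∀ᶠ i in (X.U : Filter ℕ), evv X w i ∈ Submodule.span ℚ (Set.range fun j => evv X (e j) i) := by
  obtain ⟨g, hg⟩ := (Submodule.mem_span_range_iff_exists_fun B).1 h
  filter_upwards [B5_comb X g e] with i h1
  rw [← hg, h1]
  exact (Submodule.mem_span_range_iff_exists_fun ℚ).2 ⟨fun j => X.ev (g j) i, rfl⟩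

end

end Pool.Agent.Lib.MP_17a322_nt.MV
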