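import Pool.Agent.Lib.MP_17a322_nt.FQ.A6
import Pool.Agent.Lib.MP_17a322_nt.MV.Defs

/-!
Bases of small height.
-/

namespace Pool.Agent.Lib.MP_17a322_nt.MV

open Height
open Pool.Agent.Lib.MP_17a322_nt.EQ
open Pool.Agent.Lib.MP_17a322_nt.FQ

/-- A reduced basis: its entries are quotients of Pluecker coordinates.

PROOF: let `t : Fin d → ι` be such that the minor of a basis of `V` at `t` is not zero; take the basis `e` with
`e j (t i) = 1` if `i = j` and zero otherwise. By Cramer `e j a` is the quotient of the minor at `t` with `t j` replaced by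
`a` by the minor at `t`: `logHeight₁ (e j a) = logHeight ![minor, minor₀] ≤ hPl V` (`logHeight_comp_le`, `hPl_span` or
`hPl_eq`; `logHeight₁_div_eq_logHeight`-like lemma). -/
theorem low_basis {ι : Type} [Fintype ι] (V : Submodule ℚ (ι → ℚ)) {d : ℕ} (hd : Module.finrank ℚ V = d) :
    ∃ e : Fin d → ι → ℚ, LinearIndependent ℚ e ∧ Submodule.span ℚ (Set.range e) = V ∧
      ∀ j a, logHeight₁ (e j a) ≤ hPl V := by
  obtain ⟨y, hyV, hyi⟩ : ∃ y : Fin d → ι → ℚ, (∀ k, y k ∈ V) ∧ LinearIndependent ℚ y := by
    refine ⟨fun k => (Module.finBasisOfFinrankEq ℚ V hd k : ι → ℚ), fun k => Subtype.property _, ?_⟩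
    exact (Module.finBasisOfFinrankEq ℚ V hd).linearIndependent.map' V.subtype (Submodule.ker_subtype V)
  obtain ⟨t, ht⟩ := H1_minor hyi
  have hh : hPl V = logHeight (mns y) := hPl_eq V hd y hyV hyi
  obtain ⟨P, hP⟩ : ∃ P : Matrix (Fin d) (Fin d) ℚ, P = Matrix.of fun a b => y a (t b) := ⟨_, rfl⟩
  rw [← hP] at ht
  obtain ⟨e, he⟩ : ∃ e : Fin d → ι → ℚ, e = fun j a => mns y (Function.update t j a) / P.det := ⟨_, rfl⟩
  have he1 : ∀ j a, e j a = ∑ k, P.adjugate j k / P.det * y k a := by
    intro j a
    have h1 : mns y (Function.update t j a) = P.cramer (fun k => y k a) j := by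
      rw [Matrix.cramer_apply, hP]
      unfold mns
      congr 1
      ext k b
      rw [Matrix.updateCol_apply, Matrix.of_apply, Matrix.of_apply, Function.update_apply]
      by_cases hb : b = j
      · rw [if_pos hb, if_pos hb]
      · rw [if_neg hb, if_neg hb]
    rw [he]
    simp only
    rw [h1, Matrix.cramer_eq_adjugate_mulVec, Matrix.mulVec, dotProduct, Finset.sum_div]
    exact Finset.sum_congr rfl fun k _ => by ring
  have heV : ∀ j, e j ∈ V := by
    intro j
    have h1 : e j = ∑ k, (P.adjugate j k / P.det) • y k := by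
      funext a
      rw [he1, Finset.sum_apply]
      exact Finset.sum_congr rfl fun k _ => rfl
    rw [h1]
    exact V.sum_mem fun k _ => V.smul_mem _ (hyV k)
  have hdel : (Matrix.of fun a b => e a (t b)) = (1 : Matrix (Fin d) (Fin d) ℚ) := by
    have h1 : (Matrix.of fun a b => e a (t b)) = P.det⁻¹ • (P.adjugate * P) := by
      ext j b
      rw [Matrix.of_apply, he1, Matrix.smul_apply, Matrix.mul_apply, smul_eq_mul, Finset.mul_sum]
      refine Finset.sum_congr rfl fun k _ => ?_
      rw [hP]
      simp only [Matrix.of_apply]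
      ring
    rw [h1, Matrix.adjugate_mul, smul_smul, inv_mul_cancel₀ ht, one_smul]
  have hei : LinearIndependent ℚ e := by
    have h0 : (Matrix.of fun a b => e a (t b)).det ≠ 0 := by
      rw [hdel, Matrix.det_one]
      exact one_ne_zero
    have h1 : LinearIndependent ℚ (Matrix.of fun a b => e a (t b)).row :=
      Matrix.linearIndependent_rows_of_det_ne_zero h0
    exact LinearIndependent.of_comp (LinearMap.funLeft ℚ ℚ t) h1
  refine ⟨e, hei, ?_, fun j a => ?_⟩
  · refine Submodule.eq_of_le_of_finrank_eq (Submodule.span_le.2 ?_) ?_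
    · rintro _ ⟨j, rfl⟩
      exact heV j
    · rw [finrank_span_eq_card hei, Fintype.card_fin, hd]
  · have h1 : e j a = mns y (Function.update t j a) / mns y t := by
      rw [he]
      simp only
      rw [hP]
      rfl
    rw [h1, logHeight₁_div_eq_logHeight, hh]
    have h2 : ![mns y (Function.update t j a), mns y t] = mns y ∘ ![Function.update t j a, t] := by
      funext i
      fin_cases i <;> rfl
    rw [h2]
    exact logHeight_comp_le _ _

/-- PROOF: `low_basis` for `V'`, and `r` members of a `low_basis` of `V` which complete it (Steinitz: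
`exists_linearIndependent_extension`-like; reindex by `Fin r`). -/
theorem low_ext {ι : Type} [Fintype ι] (V V' : Submodule ℚ (ι → ℚ)) (h : V' ≤ V) {d r : ℕ}
    (hd : Module.finrank ℚ V' = d) (hr : Module.finrank ℚ V = d + r) :
    ∃ e : Fin d ⊕ Fin r → ι → ℚ, LinearIndependent ℚ e ∧
      Submodule.span ℚ (Set.range fun j => e (Sum.inl j)) = V' ∧ Submodule.span ℚ (Set.range e) = V ∧
      ∀ j a, logHeight₁ (e j a) ≤ max (hPl V) (hPl V') := by
  obtain ⟨e', hi', hs', hh'⟩ := low_basis V' hd
  obtain ⟨f, hi, hs, hh⟩ := low_basis V hr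
  have hsub : Set.range e' ⊆ Set.range e' ∪ Set.range f := Set.subset_union_left
  obtain ⟨b, hbt, hsb, htb, hb⟩ := exists_linearIndepOn_id_extension hi'.linearIndepOn_id hsub
  have hspan : Submodule.span ℚ b = V := by
    apply le_antisymm
    · rw [Submodule.span_le]
      intro x hx
      rcases hbt hx with h1 | h1
      · exact h (hs' ▸ Submodule.subset_span h1)
      · exact hs ▸ Submodule.subset_span h1
    · rw [← hs, Submodule.span_le]
      exact Set.subset_union_right.trans htb
  have hfin : b.Finite := (Set.finite_union.2 ⟨Set.finite_range e', Set.finite_range f⟩).subset hbt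
  have hbc : b.ncard = d + r := by
    have hF : Fintype b := hfin.fintype
    have h1 := finrank_span_set_eq_card hb
    rw [hspan, hr] at h1
    rw [h1, Set.ncard_eq_toFinset_card']
  have hec : (Set.range e').ncard = d := by
    rw [Set.ncard_range_of_injective hi'.injective, Nat.card_fin]
  have hrc : Nat.card ↥(b \ Set.range e') = r := by
    have h1 := Set.ncard_sdiff hsb (Set.finite_range e')
    rw [hbc, hec, Nat.add_sub_cancel_left] at h1
    exact h1
  have hfin2 : Finite ↥(b \ Set.range e') := (hfin.subset Set.sdiff_subset).to_subtype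
  obtain ⟨g⟩ : Nonempty (Fin r ≃ ↥(b \ Set.range e')) := ⟨(Finite.equivFinOfCardEq hrc).symm⟩
  have hrange : Set.range (Sum.elim e' fun i => (g i : ι → ℚ)) = b := by
    rw [Set.Sum.elim_range]
    have h1 : Set.range (fun i => (g i : ι → ℚ)) = b \ Set.range e' := by
      have h2 : (fun i => (g i : ι → ℚ)) = Subtype.val ∘ g := rfl
      rw [h2, Set.range_comp, g.surjective.range_eq, Set.image_univ, Subtype.range_coe]
    rw [h1, Set.union_sdiff_cancel hsb]
  refine ⟨Sum.elim e' fun i => (g i : ι → ℚ), ?_, ?_, ?_, ?_⟩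
  · rw [linearIndependent_iff_card_eq_finrank_span, Set.finrank, hrange, hspan, hr, Fintype.card_sum,
      Fintype.card_fin, Fintype.card_fin]
  · exact hs'
  · rw [hrange, hspan]
  · rintro (j | j) a
    · exact (hh' j a).trans (le_max_right _ _)
    · have h1 := (g j).2
      rcases hbt h1.1 with h2 | ⟨i, hi2⟩
      · exact absurd h2 h1.2
      · have h3 : (Sum.elim e' fun i => (g i : ι → ℚ)) (Sum.inr j) = f i := hi2.symm
        rw [h3]
        exact (hh i a).trans (le_max_left _ _)

end Pool.Agent.Lib.MP_17a322_nt.MV
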