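import Pool.Agent.Lib.MP_17a322_nt.MV.B6a
import Pool.Agent.Lib.MP_17a322_nt.MV.C0

/-!
Bases in the big field.
-/

namespace Pool.Agent.Lib.MP_17a322_nt.MV

open Height
open Pool.Agent.Lib.MP_17a322_nt.EQ
open Pool.Agent.Lib.MP_17a322_nt.FQ

/-- PROOF: `low_ext` at almost all `i` (choice; arbitrary for the other `i`), `X.surj` for every entry. -/
theorem exists_e {B : Type} [Field B] [Algebra ℚ B] (X : Evl ℚ B ℕ) {ι : Type} [Fintype ι]
    (V V' : ℕ → Submodule ℚ (ι → ℚ)) (k' r : ℕ)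
    (h : ∀ᶠ i in (X.U : Filter ℕ), V' i ≤ V i ∧ Module.finrank ℚ (V' i) = k' + 1 ∧
      Module.finrank ℚ (V i) = k' + 1 + r)
    (hh : ∃ C : ℝ, ∀ᶠ i in (X.U : Filter ℕ), hPl (V i) ≤ C * X.h i ∧ hPl (V' i) ≤ C * X.h i) :
    ∃ e : Fin (k' + 1) ⊕ Fin r → ι → B, ∀ᶠ i in (X.U : Filter ℕ),
      (LinearIndependent ℚ fun j => evv X (e j) i) ∧
      Submodule.span ℚ (Set.range fun j => evv X (e (Sum.inl j)) i) = V' i ∧
      Submodule.span ℚ (Set.range fun j => evv X (e j) i) = V i := by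
  have key : ∀ i, ∃ e : Fin (k' + 1) ⊕ Fin r → ι → ℚ,
      (V' i ≤ V i ∧ Module.finrank ℚ (V' i) = k' + 1 ∧ Module.finrank ℚ (V i) = k' + 1 + r) →
      LinearIndependent ℚ e ∧ Submodule.span ℚ (Set.range fun j => e (Sum.inl j)) = V' i ∧
      Submodule.span ℚ (Set.range e) = V i ∧
      ∀ j a, logHeight₁ (e j a) ≤ max (hPl (V i)) (hPl (V' i)) := by
    intro i
    by_cases hi : V' i ≤ V i ∧ Module.finrank ℚ (V' i) = k' + 1 ∧
      Module.finrank ℚ (V i) = k' + 1 + r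
    · obtain ⟨e, h1, h2, h3, h4⟩ := low_ext (V i) (V' i) hi.1 hi.2.1 hi.2.2
      exact ⟨e, fun _ => ⟨h1, h2, h3, h4⟩⟩
    · exact ⟨fun _ _ => 0, fun h => absurd h hi⟩
  choose e0 he0 using key
  obtain ⟨C, hC⟩ := hh
  have hs : ∀ (j : Fin (k' + 1) ⊕ Fin r) (a : ι), ∃ x : B,
      ∀ᶠ i in (X.U : Filter ℕ), X.ev x i = e0 i j a := by
    intro j a
    refine X.surj (fun i => e0 i j a) ⟨C, ?_⟩
    filter_upwards [h, hC] with i h1 h2
    exact ((he0 i h1).2.2.2 j a).trans (max_le h2.1 h2.2)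
  choose e he using hs
  refine ⟨e, ?_⟩
  have hall : ∀ᶠ i in (X.U : Filter ℕ), ∀ j a, X.ev (e j a) i = e0 i j a := by
    rw [Filter.eventually_all]
    intro j
    rw [Filter.eventually_all]
    exact he j
  filter_upwards [h, hall] with i h1 h2
  have h3 : ∀ j, evv X (e j) i = e0 i j := fun j => funext fun a => h2 j a
  obtain ⟨a1, a2, a3, -⟩ := he0 i h1
  simp only [h3]
  exact ⟨a1, a2, a3⟩

end Pool.Agent.Lib.MP_17a322_nt.MV
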