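import Pool.Agent.Lib.MP_17a322_nt.MV.C0

/-!
Many independent points.
-/

namespace Pool.Agent.Lib.MP_17a322_nt.MV

private theorem B8_mono {B R S : Type} [Field B] [CommRing R] [CommRing S] [Algebra R B] [Algebra S B]
    (f : R →+* S) (hf : Function.Injective f) (hc : ∀ r, algebraMap S B (f r) = algebraMap R B r)
    {ι : Type} {y : ι → B} (h : AlgebraicIndependent S y) : AlgebraicIndependent R y := by
  rw [algebraicIndependent_iff] at h ⊢
  intro q hq
  have h1 : MvPolynomial.aeval y (MvPolynomial.map f q) = 0 := by
    rw [MvPolynomial.aeval_def, MvPolynomial.eval₂_map]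
    have h2 : (algebraMap S B).comp f = algebraMap R B := RingHom.ext hc
    rw [h2, ← MvPolynomial.aeval_def]
    exact hq
  have h2 := h _ h1
  exact MvPolynomial.map_injective f hf (h2.trans (map_zero _).symm)

/-- PROOF: induction on `m`. For `m + 1` apply `h` to `F' = F ∪ {x c (s j)}` for the points `x c`, `c < m`, already chosen:
`p (s ·)` is algebraically independent over the field generated by `F'`. Transitivity: a family which is independent over
`K = adjoin ℚ F` together with a family which is independent over the field `adjoin ℚ F'` gives a family independent over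
`K` (`AlgebraicIndependent.sumElim_iff`/`algebraicIndependent_sum..`, `IntermediateField.adjoin_adjoin_left` /
`restrictScalars_adjoin`; the field `adjoin ℚ F'` contains the ring generated over `K` by the first family, and it is
enough to be independent over that ring). Reindex `Fin (m + 1) × Fin k ≃ (Fin m × Fin k) ⊕ Fin k`. -/
theorem tower {B : Type} [Field B] [Algebra ℚ B] {ι : Type} {k : ℕ} (s : Fin k → ι) (P : (ι → B) → Prop)
    {F : Set B} (hF : F.Finite)
    (h : ∀ F' : Set B, F ⊆ F' → F'.Finite → ∃ p, P p ∧ Ind F' fun j => p (s j)) (m : ℕ) :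
    ∃ x : Fin m → ι → B, (∀ c, P (x c)) ∧
      AlgebraicIndependent (IntermediateField.adjoin ℚ F) fun z : Fin m × Fin k => x z.1 (s z.2) := by
  induction m with
  | zero =>
    refine ⟨fun c => c.elim0, fun c => c.elim0, ?_⟩
    rw [algebraicIndependent_empty_type_iff]
    exact (algebraMap (IntermediateField.adjoin ℚ F) B).injective
  | succ m ih =>
    obtain ⟨x, hx, hi⟩ := ih
    obtain ⟨p, hp, hj⟩ := h (F ∪ Set.range fun z : Fin m × Fin k => x z.1 (s z.2))
      Set.subset_union_left (hF.union (Set.finite_range _))
    have hle : ∀ b ∈ Algebra.adjoin (IntermediateField.adjoin ℚ F)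
        (Set.range fun z : Fin m × Fin k => x z.1 (s z.2)),
        b ∈ IntermediateField.adjoin ℚ (F ∪ Set.range fun z : Fin m × Fin k => x z.1 (s z.2)) := by
      intro b hb
      induction hb using Algebra.adjoin_induction with
      | mem b hb => exact IntermediateField.subset_adjoin ℚ _ (Or.inr hb)
      | algebraMap r => exact IntermediateField.adjoin.mono ℚ _ _ Set.subset_union_left r.2
      | add b c _ _ hb hc => exact add_mem hb hc
      | mul b c _ _ hb hc => exact mul_mem hb hc
    have h1 : AlgebraicIndependent (Algebra.adjoin (IntermediateField.adjoin ℚ F)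
        (Set.range fun z : Fin m × Fin k => x z.1 (s z.2))) fun j => p (s j) := by
      refine B8_mono (S := IntermediateField.adjoin ℚ
          (F ∪ Set.range fun z : Fin m × Fin k => x z.1 (s z.2)))
        { toFun := fun b => ⟨b.1, hle b.1 b.2⟩
          map_one' := rfl
          map_mul' := fun _ _ => rfl
          map_zero' := rfl
          map_add' := fun _ _ => rfl } ?_ (fun _ => rfl) hj
      intro b c hbc
      exact Subtype.ext (congrArg (fun t => t.1) hbc)
    have h2 := (AlgebraicIndependent.sumElim_iff (R := IntermediateField.adjoin ℚ F)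
      (x := fun z : Fin m × Fin k => x z.1 (s z.2)) (y := fun j => p (s j))).mpr ⟨hi, h1⟩
    let f : Fin (m + 1) × Fin k → Fin k ⊕ (Fin m × Fin k) := fun z =>
      Fin.lastCases (motive := fun _ => Fin k ⊕ (Fin m × Fin k)) (Sum.inl z.2)
        (fun c => Sum.inr (c, z.2)) z.1
    have f1 : ∀ j, f (Fin.last m, j) = Sum.inl j := fun j => Fin.lastCases_last ..
    have f2 : ∀ c j, f (Fin.castSucc c, j) = Sum.inr (c, j) := fun c j => Fin.lastCases_castSucc ..
    have hf : Function.Injective f := by
      rintro ⟨a, j⟩ ⟨a', j'⟩ he
      induction a using Fin.lastCases with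
      | last =>
        induction a' using Fin.lastCases with
        | last =>
          rw [f1, f1] at he
          rw [Sum.inl.inj he]
        | cast c' =>
          rw [f1, f2] at he
          exact absurd he (by simp)
      | cast c =>
        induction a' using Fin.lastCases with
        | last =>
          rw [f1, f2] at he
          exact absurd he (by simp)
        | cast c' =>
          rw [f2, f2] at he
          have h3 := Sum.inr.inj he
          rw [Prod.mk.injEq] at h3
          rw [h3.1, h3.2]
    refine ⟨Fin.snoc (α := fun _ => ι → B) x p, fun c => ?_, ?_⟩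
    · induction c using Fin.lastCases with
      | last =>
        rw [Fin.snoc_last]
        exact hp
      | cast c =>
        rw [Fin.snoc_castSucc]
        exact hx c
    · have h3 := h2.comp f hf
      have h4 : (Sum.elim (fun j => p (s j)) (fun z : Fin m × Fin k => x z.1 (s z.2))) ∘ f =
          fun z : Fin (m + 1) × Fin k =>
            (Fin.snoc (α := fun _ => ι → B) x p : Fin (m + 1) → ι → B) z.1 (s z.2) := by
        funext z
        obtain ⟨a, j⟩ := z
        induction a using Fin.lastCases with
        | last =>
          show Sum.elim (fun j => p (s j)) (fun z : Fin m × Fin k => x z.1 (s z.2)) (f (Fin.last m, j)) =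
            (Fin.snoc (α := fun _ => ι → B) x p : Fin (m + 1) → ι → B) (Fin.last m) (s j)
          rw [f1, Fin.snoc_last]
          rfl
        | cast c =>
          show Sum.elim (fun j => p (s j)) (fun z : Fin m × Fin k => x z.1 (s z.2)) (f (Fin.castSucc c, j)) =
            (Fin.snoc (α := fun _ => ι → B) x p : Fin (m + 1) → ι → B) (Fin.castSucc c) (s j)
          rw [f2, Fin.snoc_castSucc]
          rfl
      rw [h4] at h3
      exact h3

end Pool.Agent.Lib.MP_17a322_nt.MV
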