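import Pool.Agent.Lib.MP_17a322_nt.MV.Defs

/-!
Points with subspaces of small `kap`.
-/

namespace Pool.Agent.Lib.MP_17a322_nt.MV

open Height
open Pool.Agent.Lib.MP_17a322_nt.EQ
open Pool.Agent.Lib.MP_17a322_nt.FQ

section

variable {B : Type} [Field B] [Algebra ℚ B] (X : Evl ℚ B ℕ) {ι : Type} [Fintype ι] {o : ι}

/-- The hypotheses of `core` for one point `x`, and a lower bound `ε` for its term. -/
def GoodPt (o : ι) {k : ℕ} (s : Fin k → ι) (F : Set B) (z : B) (x0 : Fin k → B) (ε : ℝ) (x : ι → B) : Prop :=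
  ∃ (k' r : ℕ) (e : Fin (k' + 1) ⊕ Fin r → ι → B) (y : Option (Fin k) → B), x o = 1 ∧ LinearIndependent B e ∧
    x ∈ Submodule.span B (Set.range fun j => e (Sum.inl j)) ∧
    (∀ v ∈ Submodule.span B (Set.range e), (∀ b, v (os o s b) = 0) → v = 0) ∧ y none = 1 ∧
    (∀ j, z * y (some j) = x (s j) - x0 j) ∧
    (∀ (E : IntermediateField ℚ B) (xE : ι → E), (∀ a, (xE a : B) = x a) → F ⊆ E →
      ∀ D : Derivation ℚ E B, (∀ t : E, (t : B) ∈ F → D t = 0) →
        (fun a => D (xE a)) ∈ Submodule.span B (Set.range e)) ∧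
    ε ≤ X.lm (famP o s x e z y) - X.lm (famQ o s x e z y)

end

end Pool.Agent.Lib.MP_17a322_nt.MV
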