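import Pool.Agent.Lib.MP_17a322_nt.MV.A8
import Pool.Agent.Lib.MP_17a322_nt.MV.B8
import Pool.Agent.Lib.MP_17a322_nt.MV.B9a

/-!
Points with subspaces of small `kap`.
-/

namespace Pool.Agent.Lib.MP_17a322_nt.MV

open Height
open Pool.Agent.Lib.MP_17a322_nt.EQ
open Pool.Agent.Lib.MP_17a322_nt.FQ

section

variable {B : Type} [Field B] [Algebra ℚ B] (X : Evl ℚ B ℕ) {ι : Type} [Fintype ι] {o : ι}

/-- PROOF: Let `f : Fin l → B` enumerate `F`. For every `m` the points `x c` from `tower` with `P = GoodPt ..`; `core` gives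
`m ε ≤ ∑ (lm P - lm Q) ≤ 2 ∑ j, X.lm (on (f j))` for all `m`, so `ε ≤ 0`. -/
theorem good_many (hQ : SemiQ) {k : ℕ} (s : Fin k → ι) {F : Set B} (hF : F.Finite) (z : B) (x0 : Fin k → B)
    (hz : z ≠ 0) (hzF : z ∈ IntermediateField.adjoin ℚ F) (hx0 : ∀ j, x0 j ∈ IntermediateField.adjoin ℚ F) {ε : ℝ}
    (h : ∀ F' : Set B, F ⊆ F' → F'.Finite → ∃ p, GoodPt X o s F z x0 ε p ∧ Ind F' fun j => p (s j)) :
    ε ≤ 0 := by
  obtain ⟨l, f, hf⟩ : ∃ (l : ℕ) (f : Fin l → B), Set.range f = F := by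
    obtain ⟨l, f0, hf0⟩ := hF.fin_embedding
    exact ⟨l, f0, hf0⟩
  subst hf
  have key : ∀ m : ℕ, (m : ℝ) * ε ≤ 2 * ∑ j, X.lm (on (f j)) := by
    intro m
    obtain ⟨x, hx, hal⟩ := tower s (GoodPt X o s (Set.range f) z x0 ε) hF h m
    unfold GoodPt at hx
    choose k' r e y h1 h2 h3 h4 h5 h6 h7 h8 using hx
    have hc := core hQ X o s f k' r x e z y x0 h1 h2 h3 h4 hz h5 h6 hzF hx0
      (fun E c xE hxE hE D hD => h7 c E xE hxE hE D hD) hal
    refine le_trans ?_ hc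
    calc (m : ℝ) * ε = ∑ _c : Fin m, ε := by simp
      _ ≤ _ := Finset.sum_le_sum fun c _ => h8 c
  by_contra hε
  push Not at hε
  obtain ⟨m, hm⟩ := exists_nat_gt ((2 * ∑ j, X.lm (on (f j))) / ε)
  rw [div_lt_iff₀ hε] at hm
  linarith [key m]

/-- PROOF: `core` with `m = 1`, `l = 0`: the right side is zero. -/
theorem good_one (hQ : SemiQ) {k : ℕ} (s : Fin k → ι) (z : B) (x0 : Fin k → B)
    (hz : z ≠ 0) (hzF : z ∈ IntermediateField.adjoin ℚ (∅ : Set B))
    (hx0 : ∀ j, x0 j ∈ IntermediateField.adjoin ℚ (∅ : Set B)) {ε : ℝ} (p : ι → B)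
    (hp : GoodPt X o s ∅ z x0 ε p) (hi : Ind ∅ fun j => p (s j)) : ε ≤ 0 := by
  obtain ⟨k', r, e, y, h1, h2, h3, h4, h5, h6, h7, h8⟩ := hp
  let f : Fin 0 → B := Fin.elim0
  have hf : Set.range f = ∅ := Set.range_eq_empty f
  have hal : AlgebraicIndependent (IntermediateField.adjoin ℚ (∅ : Set B))
      fun w : Fin 1 × Fin k => p (s w.2) := by
    have hinj : Function.Injective (fun w : Fin 1 × Fin k => w.2) := by
      rintro ⟨a, b⟩ ⟨c, d⟩ hbd
      exact Prod.ext (Subsingleton.elim _ _) hbd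
    exact AlgebraicIndependent.comp hi (fun w : Fin 1 × Fin k => w.2) hinj
  have hc := core hQ X o s f (fun _ : Fin 1 => k') (fun _ => r) (fun _ => p) (fun _ => e) z (fun _ => y) x0
    (fun _ => h1) (fun _ => h2) (fun _ => h3) (fun _ => h4) hz (fun _ => h5) (fun _ => h6)
    (by rw [hf]; exact hzF) (by rw [hf]; exact hx0)
    (fun E c xE hxE hE D hD => h7 E xE hxE (by rw [← hf]; exact hE) D (by rw [← hf]; exact hD))
    (by rw [hf]; exact hal)
  simp only [Finset.univ_unique, Finset.sum_const, Finset.card_singleton, one_smul, Finset.univ_eq_empty,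
    Finset.sum_empty, mul_zero] at hc
  linarith

end

end Pool.Agent.Lib.MP_17a322_nt.MV
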