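import Pool.Agent.Lib.MP_17a322_nt.MV.B9b
import Pool.Agent.Lib.MP_17a322_nt.MV.B9c

/-!
Lemma Q.
-/

namespace Pool.Agent.Lib.MP_17a322_nt.MV

open Height
open Pool.Agent.Lib.MP_17a322_nt.EQ
open Pool.Agent.Lib.MP_17a322_nt.FQ

section

variable {B : Type} [Field B] [Algebra ℚ B] (X : Evl ℚ B ℕ) {ι : Type} [Fintype ι] {o : ι}

private theorem b7_pow (n : ℕ) : padicNorm 2 ((2 : ℚ) ^ n) = (2 ^ n)⁻¹ := by
  induction n with
  | zero => simp
  | succ n ih =>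
    have h1 : padicNorm 2 (2 : ℚ) = 2⁻¹ := by
      have h2 := padicNorm.padicNorm_p_of_prime (p := 2)
      exact_mod_cast h2
    rw [pow_succ, padicNorm.mul, ih, h1, mul_inv]

/-- The power of two with the exponents `N i`. -/
private theorem b7_z {N : ℕ → ℕ} {σ : ℝ}
    (hN : Filter.Tendsto (fun i => N i * Real.log 2 / X.h i) (X.U : Filter ℕ) (nhds σ)) :
    ∃ z : B, z ≠ 0 ∧ ∀ᶠ i in (X.U : Filter ℕ), X.ev z i = 2 ^ N i := by
  have hl : 0 < Real.log 2 := Real.log_pos one_lt_two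
  have h1 : ∀ᶠ i in (X.U : Filter ℕ), N i * Real.log 2 / X.h i < σ + 1 :=
    hN.eventually (gt_mem_nhds (by linarith))
  obtain ⟨z, hz⟩ := X.surj (fun i => (2 : ℚ) ^ N i) ⟨(σ + 1) * (logHeight₁ (2 : ℚ) / Real.log 2), by
    filter_upwards [h1, ev_pos X] with i h2 h3
    rw [logHeight₁_pow]
    rw [div_lt_iff₀ h3] at h2
    have h4 : 0 ≤ logHeight₁ (2 : ℚ) := zero_le_logHeight₁ _
    calc (N i : ℝ) * logHeight₁ (2 : ℚ) = (N i * Real.log 2) * (logHeight₁ (2 : ℚ) / Real.log 2) := by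
          field_simp
      _ ≤ ((σ + 1) * X.h i) * (logHeight₁ (2 : ℚ) / Real.log 2) :=
          mul_le_mul_of_nonneg_right h2.le (by positivity)
      _ = _ := by ring⟩
  refine ⟨z, ?_, hz⟩
  intro h0
  rw [h0] at hz
  obtain ⟨i, h2, h3⟩ := (hz.and (ev_zero X)).exists
  rw [h3] at h2
  exact pow_ne_zero _ two_ne_zero h2.symm

/-- LEMMA Q. In a configuration of scale `σ` there are no points `p`, generic over arbitrary larger fields, with subspaces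
`V' ≤ V(p)` such that `kap V' - kap V(p) ≤ ((dim V - dim V') σ - ε) h`. -/
theorem lemQ (hQ : SemiQ) {k : ℕ} {F : Set B} {S : ℕ → Finset (ι → ℚ)}
    {V : ℕ → (ι → ℚ) → Submodule ℚ (ι → ℚ)} {N : ℕ → ℕ} {s : Fin k → ι} {σ ε : ℝ}
    (hc : Cfg X o k F S V N s σ) (hε : 0 < ε)
    (h : ∀ F' : Set B, F ⊆ F' → F'.Finite → ∃ (p : ι → B) (V' : ℕ → Submodule ℚ (ι → ℚ)) (k' : ℕ),
      Mem X S p ∧ (Ind F' fun j => p (s j)) ∧ k' ≤ k ∧ ∀ᶠ i in (X.U : Filter ℕ), V' i ≤ V i (evv X p i) ∧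
        evv X p i ∈ V' i ∧ Module.finrank ℚ (V' i) = k' + 1 ∧
        kap (V' i) (evv X p i) - kap (V i (evv X p i)) (evv X p i) ≤ (((k : ℝ) - k') * σ - ε) * X.h i) :
    False := by
  obtain ⟨p0, -, -, hp0, -⟩ := h F subset_rfl hc.fin
  obtain ⟨z, hz0, hz⟩ := b7_z X hc.scale
  obtain ⟨F₁, hF₁⟩ : ∃ F₁ : Set B, F₁ = F ∪ ({z} ∪ Set.range fun j => p0 (s j)) := ⟨_, rfl⟩
  have hFF : F ⊆ F₁ := by
    rw [hF₁]
    exact Set.subset_union_left
  have hfin : F₁.Finite := by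
    rw [hF₁]
    exact hc.fin.union ((Set.finite_singleton z).union (Set.finite_range _))
  have hzF : z ∈ IntermediateField.adjoin ℚ F₁ := IntermediateField.subset_adjoin ℚ F₁ (by
    rw [hF₁]
    exact Or.inr (Or.inl rfl))
  have hx0 : ∀ j, p0 (s j) ∈ IntermediateField.adjoin ℚ F₁ := fun j =>
    IntermediateField.subset_adjoin ℚ F₁ (by
      rw [hF₁]
      exact Or.inr (Or.inr ⟨j, rfl⟩))
  have hc₁ : Cfg X o k F₁ S V N s σ := hc.mono X hFF hfin (Filter.Eventually.of_forall fun _ => subset_rfl)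
  refine absurd (good_many X (o := o) hQ s hfin z (fun j => p0 (s j)) hz0 hzF hx0 (ε := ε) ?_) (not_le.2 hε)
  intro F' hF' hf'
  obtain ⟨p, V', k', hp, hi, hk, hV'⟩ := h F' (hFF.trans hF') hf'
  refine ⟨p, ?_, hi⟩
  have hg := goodPt X hc₁ N hc₁.scale z hz (fun j => p0 (s j))
    (fun b => b.elim 1 fun j => (p (s j) - p0 (s j)) / z) p rfl ?_ ?_ hp V' k' hk hV'
  · have e : ((k : ℝ) - k') * σ - (((k : ℝ) - k') * σ - ε) = ε := by ring
    rw [e] at hg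
    exact hg
  · have h1 : ∀ j, ∀ᶠ i in (X.U : Filter ℕ), X.ev ((p (s j) - p0 (s j)) / z) i =
        (X.ev (p (s j)) i - X.ev (p0 (s j)) i) / X.ev z i := by
      intro j
      filter_upwards [X.mul (p (s j) - p0 (s j)) z⁻¹, ev_inv X z, ev_sub X (p (s j)) (p0 (s j))] with i h2 h3 h4
      rw [div_eq_mul_inv, h2, h3, h4, div_eq_mul_inv]
    filter_upwards [Filter.eventually_all.2 h1, hc.cls, hp, hp0, hz, ev_one X] with i h2 h3 h4 h5 h6 h7 b
    rcases b with _ | j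
    · change padicNorm 2 (X.ev 1 i) ≤ 1
      rw [h7, padicNorm.one]
    · change padicNorm 2 (X.ev ((p (s j) - p0 (s j)) / z) i) ≤ 1
      rw [h2, h6, padicNorm.div]
      have h8 := h3 _ h4 _ h5 j
      have h9 : padicNorm 2 ((2 : ℚ) ^ N i) = (2 ^ N i)⁻¹ := b7_pow (N i)
      rw [h9]
      exact div_le_one_of_le₀ h8 (by positivity)
  · intro j
    change z * ((p (s j) - p0 (s j)) / z) = _
    field_simp

/-- LEMMA Q for one point and the field `ℚ`. -/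
theorem lemQ0 (hQ : SemiQ) {k : ℕ} {S : ℕ → Finset (ι → ℚ)}
    {V : ℕ → (ι → ℚ) → Submodule ℚ (ι → ℚ)} {N : ℕ → ℕ} {s : Fin k → ι} {σ ε : ℝ}
    (hc : Cfg X o k ∅ S V N s σ) (hε : 0 < ε) (p : ι → B) (V' : ℕ → Submodule ℚ (ι → ℚ)) (k' : ℕ)
    (hp : Mem X S p) (hi : Ind ∅ fun j => p (s j)) (hk : k' ≤ k)
    (h : ∀ᶠ i in (X.U : Filter ℕ), V' i ≤ V i (evv X p i) ∧
        evv X p i ∈ V' i ∧ Module.finrank ℚ (V' i) = k' + 1 ∧
        kap (V' i) (evv X p i) - kap (V i (evv X p i)) (evv X p i) ≤ -ε * X.h i) : False := by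
  refine absurd (good_one X (o := o) hQ s 1 (fun _ => 0) one_ne_zero (one_mem _) (fun _ => zero_mem _)
    (ε := ε) p ?_ hi) (not_le.2 hε)
  have hg := goodPt X hc (fun _ => 0) (σ₁ := 0) (g := -ε) (by simp) 1 ?_ (fun _ => 0)
    (fun b => b.elim 1 fun j => p (s j)) p rfl ?_ ?_ hp V' k' hk h
  · have e : ((k : ℝ) - k') * 0 - -ε = ε := by ring
    rw [e] at hg
    exact hg
  · filter_upwards [ev_one X] with i h1
    rw [h1, pow_zero]
  · filter_upwards [hc.pt, hp, ev_one X] with i h1 h2 h3 b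
    rcases b with _ | j
    · change padicNorm 2 (X.ev 1 i) ≤ 1
      rw [h3, padicNorm.one]
    · exact (h1 _ h2).2.1 (s j)
  · intro j
    change 1 * p (s j) = p (s j) - 0
    rw [one_mul, sub_zero]

end

end Pool.Agent.Lib.MP_17a322_nt.MV
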