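import Pool.Agent.Lib.MP_17a322_nt.MV.B4
import Pool.Agent.Lib.MP_17a322_nt.MV.B5
import Pool.Agent.Lib.MP_17a322_nt.MV.B6b
import Pool.Agent.Lib.MP_17a322_nt.MV.B9a

/-!
Points with subspaces of small `kap`.
-/

namespace Pool.Agent.Lib.MP_17a322_nt.MV

open Height
open Pool.Agent.Lib.MP_17a322_nt.EQ
open Pool.Agent.Lib.MP_17a322_nt.FQ

section

variable {B : Type} [Field B] [Algebra ℚ B] (X : Evl ℚ B ℕ) {ι : Type} [Fintype ι] {o : ι}

/-- PROOF: `exists_e` for `V i (evv X p i)` and `V' i` with `r = k - k'` (heights: `Cfg.hgt`, and `hPl (V' i) ≤ C h i` by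
`hV'`, because `kap` contains it). `p o = 1` (`ev_eq`). `tr_indep`; `tr_mem` for `p ∈ V'`; the injectivity: for
`v` in the span of `e` `tr_mem'` and `Opt` (all values at `os o s` are zero at almost all `i`, so
`padicNorm 2 (v a) ≤ 0`); the derivations: `Cfg.der` and `tr_mem`; the last inequality: `lm_eval` with `N₁`, `σ₁`:
`hPl V' - hPl V + (k - k') logHeight p = kap V' - kap V`. -/
theorem goodPt {k : ℕ} {F : Set B} {S : ℕ → Finset (ι → ℚ)}
    {V : ℕ → (ι → ℚ) → Submodule ℚ (ι → ℚ)} {N : ℕ → ℕ} {s : Fin k → ι} {σ : ℝ}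
    (hc : Cfg X o k F S V N s σ) (N₁ : ℕ → ℕ) {σ₁ g : ℝ}
    (hN : Filter.Tendsto (fun i => N₁ i * Real.log 2 / X.h i) (X.U : Filter ℕ) (nhds σ₁)) (z : B)
    (hz : ∀ᶠ i in (X.U : Filter ℕ), X.ev z i = 2 ^ N₁ i) (x0 : Fin k → B) (y : Option (Fin k) → B)
    (p : ι → B) (hy0 : y none = 1) (hy2 : ∀ᶠ i in (X.U : Filter ℕ), ∀ b, padicNorm 2 (X.ev (y b) i) ≤ 1)
    (hy : ∀ j, z * y (some j) = p (s j) - x0 j) (hp : Mem X S p) (V' : ℕ → Submodule ℚ (ι → ℚ)) (k' : ℕ)
    (hk : k' ≤ k) (hV' : ∀ᶠ i in (X.U : Filter ℕ), V' i ≤ V i (evv X p i) ∧ evv X p i ∈ V' i ∧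
      Module.finrank ℚ (V' i) = k' + 1 ∧
      kap (V' i) (evv X p i) - kap (V i (evv X p i)) (evv X p i) ≤ g * X.h i) :
    GoodPt X o s F z x0 (((k : ℝ) - k') * σ₁ - g) p := by
  have hpos : ∀ᶠ i in (X.U : Filter ℕ), 0 < X.h i := ev_pos X
  have hpt : ∀ᶠ i in (X.U : Filter ℕ), evv X p i o = 1 ∧ evv X p i ∈ V i (evv X p i) ∧
      Module.finrank ℚ (V i (evv X p i)) = k + 1 ∧ Opt o s (V i (evv X p i)) := by
    filter_upwards [hc.pt, hp] with i h1 h2
    obtain ⟨h3, -, h4, h5, h6⟩ := h1 _ h2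
    exact ⟨h3, h4, h5, h6⟩
  have hkap : ∀ᶠ i in (X.U : Filter ℕ), hPl (V' i) - hPl (V i (evv X p i)) +
      ((k - k' : ℕ) : ℝ) * logHeight (evv X p i) ≤ g * X.h i := by
    filter_upwards [hpt, hV'] with i h1 h2
    obtain ⟨-, -, h3, h4⟩ := h2
    unfold kap at h4
    rw [h3, h1.2.2.1] at h4
    rw [Nat.cast_sub hk]
    push_cast at h4
    linarith
  have hh : ∃ C : ℝ, ∀ᶠ i in (X.U : Filter ℕ), hPl (V i (evv X p i)) ≤ C * X.h i ∧
      hPl (V' i) ≤ C * X.h i := by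
    obtain ⟨C, hC⟩ := hc.hgt
    refine ⟨max C (g + C), ?_⟩
    filter_upwards [hC, hp, hkap, hpos] with i h1 h2 h3 h4
    have h5 := (h1 _ h2).2
    have h6 : 0 ≤ ((k - k' : ℕ) : ℝ) * logHeight (evv X p i) :=
      mul_nonneg (Nat.cast_nonneg _) (Height.logHeight_nonneg _)
    have h7 : C * X.h i ≤ max C (g + C) * X.h i :=
      mul_le_mul_of_nonneg_right (le_max_left _ _) h4.le
    have h8 : (g + C) * X.h i ≤ max C (g + C) * X.h i :=
      mul_le_mul_of_nonneg_right (le_max_right _ _) h4.le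
    exact ⟨h5.trans h7, by linarith⟩
  obtain ⟨e, he⟩ := exists_e X (fun i => V i (evv X p i)) V' k' (k - k') (by
    filter_upwards [hpt, hV'] with i h1 h2
    refine ⟨h2.1, h2.2.2.1, ?_⟩
    rw [h1.2.2.1]
    omega) hh
  have hind : LinearIndependent B e := tr_indep X e (he.mono fun i h => h.1)
  have hpo : p o = 1 := by
    refine (ev_eq X).1 ?_
    filter_upwards [hpt, ev_one X] with i h1 h2
    rw [h2]
    exact h1.1
  refine ⟨k', k - k', e, y, hpo, hind, ?_, ?_, hy0, hy, ?_, ?_⟩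
  · refine tr_mem X (fun j => e (Sum.inl j)) p (hind.comp _ Sum.inl_injective) ?_
    filter_upwards [he, hV'] with i h1 h2
    rw [h1.2.1]
    exact h2.2.1
  · intro v hv h0
    funext a
    refine (ev_eq X).1 ?_
    have h1 : ∀ᶠ i in (X.U : Filter ℕ), ∀ b, X.ev (v (os o s b)) i = 0 := by
      refine Filter.eventually_all.2 fun b => ?_
      rw [h0 b]
      exact ev_zero X
    filter_upwards [h1, tr_mem' X e v hv, he, hpt, ev_zero X] with i h2 h3 h4 h5 h6
    rw [h4.2.2] at h3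
    obtain ⟨b, hb⟩ := h5.2.2.2 _ h3 a
    have h7 : evv X v i (os o s b) = 0 := h2 b
    rw [h7, padicNorm.zero] at hb
    have h8 : padicNorm 2 (evv X v i a) = 0 := le_antisymm hb (padicNorm.nonneg _)
    rw [Pi.zero_apply, h6]
    exact padicNorm.zero_of_padicNorm_eq_zero h8
  · intro E xE hxE hFE D hD
    have hpE : (fun a => (xE a : B)) = p := funext hxE
    refine tr_mem X e (fun a => D (xE a)) hind ?_
    have h1 := hc.der E xE (by rw [hpE]; exact hp) hFE D hD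
    rw [hpE] at h1
    filter_upwards [h1, he] with i h2 h3
    rw [h3.2.2]
    exact h2
  · have h1 := lm_eval X o s p e z y N₁ hN (he.mono fun i h => h.1) (hpt.mono fun i h => h.1) (by
        filter_upwards [he, hpt] with i h2 h3
        rw [h2.2.2]
        exact h3.2.2.2) hz (by
        filter_upwards [hy2, ev_one X] with i h2 h3
        refine ⟨?_, h2⟩
        rw [hy0]
        exact h3) (g := g) (by
        filter_upwards [he, hkap] with i h2 h3
        rw [h2.2.1, h2.2.2]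
        exact h3)
    rw [Nat.cast_sub hk] at h1
    exact h1

end

end Pool.Agent.Lib.MP_17a322_nt.MV
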