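import Mathlib

/-!
Classes modulo powers of two, for finite sets.
-/

namespace Pool.Agent.Lib.MP_17a322_nt.MV

private theorem C10a_norm (x : ℚ) : ((padicNorm 2 x : ℚ) : ℝ) = ‖(x : ℚ_[2])‖ :=
  (Padic.eq_padicNorm x).symm

private theorem C10a_class (M : ℕ) (x y : ℤ_[2])
    (hxy : PadicInt.toZModPow M x = PadicInt.toZModPow M y) :
    ‖x - y‖ ≤ ((2 : ℝ) ^ M)⁻¹ := by
  have h1 : x - y ∈ RingHom.ker (PadicInt.toZModPow (p := 2) M) := by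
    rw [RingHom.mem_ker, map_sub, hxy, sub_self]
  rw [PadicInt.ker_toZModPow, ← PadicInt.norm_le_pow_iff_mem_span_pow] at h1
  simpa [zpow_neg, zpow_natCast] using h1

/-- PROOF: if `Q` is empty take `Q' = Q`. Let `q₀ ∈ Q`; the numbers `(p (s j) - q₀ (s j)) / 2 ^ N` are 2-integral; a
2-integral rational number `a / b`, `b` odd, has a class `a * b⁻¹` in `ZMod (2 ^ M)`; if the classes of `x` and `y` are equal
then `padicNorm 2 (x - y) ≤ (2 ^ M)⁻¹` (numerator of the difference divisible by `2 ^ M`). (Or `PadicInt.toZModPow`.)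
The map from `Q` to `Fin k → ZMod (2 ^ M)` has a fibre with at least `|Q| / 2 ^ (k M)` elements
(`Finset.exists_le_card_fiber_of_mul_le_card_of_maps_to`). -/
theorem cls_fin {ι : Type} {k : ℕ} (Q : Finset (ι → ℚ)) (s : Fin k → ι) (N M : ℕ)
    (h : ∀ p ∈ Q, ∀ q ∈ Q, ∀ j, padicNorm 2 (p (s j) - q (s j)) ≤ (2 ^ N)⁻¹) :
    ∃ Q' ⊆ Q, Q.card ≤ 2 ^ (k * M) * Q'.card ∧ ∀ p ∈ Q', ∀ q ∈ Q', ∀ j,
      padicNorm 2 (p (s j) - q (s j)) ≤ (2 ^ (N + M))⁻¹ := by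
  classical
  rcases Q.eq_empty_or_nonempty with rfl | ⟨q₀, hq₀⟩
  · exact ⟨∅, Finset.Subset.refl _, by simp, by simp⟩
  have h2 : ‖(2 : ℚ_[2])‖ = (2 : ℝ)⁻¹ := by
    have := Padic.norm_p (p := 2)
    simpa using this
  have hint : ∀ p ∈ Q, ∀ j,
      ‖(((p (s j) - q₀ (s j)) / 2 ^ N : ℚ) : ℚ_[2])‖ ≤ 1 := by
    intro p hp j
    have h3 := h p hp q₀ hq₀ j
    have h4 : ‖((p (s j) - q₀ (s j) : ℚ) : ℚ_[2])‖ ≤ ((2 : ℝ) ^ N)⁻¹ := by
      rw [← C10a_norm]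
      have : ((padicNorm 2 (p (s j) - q₀ (s j)) : ℚ) : ℝ) ≤ (((2 ^ N)⁻¹ : ℚ) : ℝ) := by
        exact_mod_cast h3
      simpa using this
    rw [Rat.cast_div, norm_div, Rat.cast_pow, norm_pow, Rat.cast_ofNat, h2, inv_pow, div_inv_eq_mul]
    have h5 : (0 : ℝ) < 2 ^ N := by positivity
    calc ‖((p (s j) - q₀ (s j) : ℚ) : ℚ_[2])‖ * 2 ^ N ≤ ((2 : ℝ) ^ N)⁻¹ * 2 ^ N := by gcongr
      _ = 1 := inv_mul_cancel₀ h5.ne'
  let f : (ι → ℚ) → Fin k → ZMod (2 ^ M) := fun p j =>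
    if hh : ‖(((p (s j) - q₀ (s j)) / 2 ^ N : ℚ) : ℚ_[2])‖ ≤ 1 then
      PadicInt.toZModPow M ⟨(((p (s j) - q₀ (s j)) / 2 ^ N : ℚ) : ℚ_[2]), hh⟩ else 0
  have : NeZero ((2 : ℕ) ^ M) := ⟨by positivity⟩
  have hT : (Finset.univ : Finset (Fin k → ZMod (2 ^ M))).card = 2 ^ (k * M) := by
    rw [Finset.card_univ, Fintype.card_fun, ZMod.card, Fintype.card_fin, ← pow_mul, mul_comm]
  have hQ : 0 < Q.card := Finset.card_pos.mpr ⟨q₀, hq₀⟩
  have hTpos : 0 < 2 ^ (k * M) := by positivity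
  obtain ⟨y, -, hy⟩ := Finset.exists_lt_card_fiber_of_mul_lt_card_of_maps_to
    (s := Q) (t := (Finset.univ : Finset (Fin k → ZMod (2 ^ M)))) (f := f)
    (n := (Q.card - 1) / 2 ^ (k * M)) (fun a _ => Finset.mem_univ _) (by
      rw [hT]
      have := Nat.mul_div_le (Q.card - 1) (2 ^ (k * M))
      omega)
  refine ⟨Q.filter (fun p => f p = y), Finset.filter_subset _ _, ?_, ?_⟩
  · have h6 : Q.card - 1 < 2 ^ (k * M) * ((Q.card - 1) / 2 ^ (k * M) + 1) :=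
      Nat.lt_mul_div_succ _ hTpos
    have h7 : 2 ^ (k * M) * ((Q.card - 1) / 2 ^ (k * M) + 1) ≤
        2 ^ (k * M) * (Q.filter (fun p => f p = y)).card := Nat.mul_le_mul_left _ hy
    omega
  · intro p hp q hq j
    rw [Finset.mem_filter] at hp hq
    have h8 : f p j = f q j := by rw [hp.2, hq.2]
    have hpj := hint p hp.1 j
    have hqj := hint q hq.1 j
    simp only [f, dif_pos hpj, dif_pos hqj] at h8
    have h9 := C10a_class M _ _ h8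
    have h10 : ‖((((p (s j) - q₀ (s j)) / 2 ^ N : ℚ) : ℚ_[2])) -
        (((q (s j) - q₀ (s j)) / 2 ^ N : ℚ) : ℚ_[2])‖ ≤ ((2 : ℝ) ^ M)⁻¹ := h9
    have h11 : p (s j) - q (s j) =
        ((p (s j) - q₀ (s j)) / 2 ^ N - (q (s j) - q₀ (s j)) / 2 ^ N) * 2 ^ N := by
      have : (2 : ℚ) ^ N ≠ 0 := by positivity
      field_simp
      ring
    have h12 : ((padicNorm 2 (p (s j) - q (s j)) : ℚ) : ℝ) ≤ ((2 : ℝ) ^ (N + M))⁻¹ := by
      rw [C10a_norm, h11, Rat.cast_mul, norm_mul, Rat.cast_pow, norm_pow, Rat.cast_ofNat, h2,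
        Rat.cast_sub, pow_add, mul_inv, mul_comm, inv_pow]
      gcongr
    have h13 : ((padicNorm 2 (p (s j) - q (s j)) : ℚ) : ℝ) ≤ (((2 ^ (N + M))⁻¹ : ℚ) : ℝ) := by
      simpa using h12
    exact_mod_cast h13

end Pool.Agent.Lib.MP_17a322_nt.MV
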