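import Pool.Agent.Lib.MP_17a322_nt.MV.C0
import Pool.Agent.Lib.MP_17a322_nt.MV.C10a

/-!
Classes modulo powers of two.
-/

namespace Pool.Agent.Lib.MP_17a322_nt.MV

open Height
open Pool.Agent.Lib.MP_17a322_nt.EQ
open Pool.Agent.Lib.MP_17a322_nt.FQ

/-- PROOF: `N' i = N i + M i`, `M i = ⌈η h i / log 2⌉₊`; `S' i` from `cls_fin` (for the `i` for which `cls` holds, otherwise
`S' i = S i`). `M i * log 2 / h i → η`. `|S' i| ≥ |S i| / 2 ^ (k M i)` and `2 ^ (k M i) ≤ 2 ^ k exp (k η h i)`, so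
`Big S' (c - k η)` (with `c' < c'' `, the constant `2 ^ k` is absorbed as in `Big.lg`). The other fields of `Cfg` as in
`Cfg.mono`. -/
theorem classes {B : Type} [Field B] [Algebra ℚ B] (X : Evl ℚ B ℕ) {ι : Type} [Fintype ι] {o : ι} {k : ℕ}
    {F : Set B} {S : ℕ → Finset (ι → ℚ)} {V : ℕ → (ι → ℚ) → Submodule ℚ (ι → ℚ)} {N : ℕ → ℕ} {s : Fin k → ι}
    {σ c η : ℝ} (hc : Cfg X o k F S V N s σ) (hη : 0 < η) (hb : Big X S c) :
    ∃ (S' : ℕ → Finset (ι → ℚ)) (N' : ℕ → ℕ), (∀ i, S' i ⊆ S i) ∧ Cfg X o k F S' V N' s (σ + η) ∧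
      Big X S' (c - k * η) := by
  classical
  have hl2 : (0 : ℝ) < Real.log 2 := Real.log_pos (by norm_num)
  obtain ⟨M, hM⟩ : ∃ M : ℕ → ℕ, ∀ i, M i = ⌈η * X.h i / Real.log 2⌉₊ := ⟨_, fun i => rfl⟩
  have hex : ∀ i, ∃ Q' ⊆ S i, (∀ p ∈ S i, ∀ q ∈ S i, ∀ j,
      padicNorm 2 (p (s j) - q (s j)) ≤ (2 ^ N i)⁻¹) →
      (S i).card ≤ 2 ^ (k * M i) * Q'.card ∧ ∀ p ∈ Q', ∀ q ∈ Q', ∀ j,
      padicNorm 2 (p (s j) - q (s j)) ≤ (2 ^ (N i + M i))⁻¹ := by
    intro i
    by_cases h : ∀ p ∈ S i, ∀ q ∈ S i, ∀ j, padicNorm 2 (p (s j) - q (s j)) ≤ (2 ^ N i)⁻¹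
    · obtain ⟨Q', h1, h2, h3⟩ := cls_fin (S i) s (N i) (M i) h
      exact ⟨Q', h1, fun _ => ⟨h2, h3⟩⟩
    · exact ⟨S i, Finset.Subset.refl _, fun h' => absurd h' h⟩
  choose S' hS' hS2 using hex
  have h0 : ∀ᶠ i in (X.U : Filter ℕ), 0 < X.h i := X.top.eventually_gt_atTop 0
  have hMlo : ∀ᶠ i in (X.U : Filter ℕ), η * X.h i ≤ M i * Real.log 2 := by
    filter_upwards [h0] with i hi
    rw [hM]
    exact (div_le_iff₀ hl2).mp (Nat.le_ceil _)
  have hMup : ∀ᶠ i in (X.U : Filter ℕ), (M i : ℝ) * Real.log 2 ≤ η * X.h i + Real.log 2 := by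
    filter_upwards [h0] with i hi
    rw [hM]
    have h1 : ((⌈η * X.h i / Real.log 2⌉₊ : ℕ) : ℝ) < η * X.h i / Real.log 2 + 1 :=
      Nat.ceil_lt_add_one (by positivity)
    have h2 : (η * X.h i / Real.log 2 + 1) * Real.log 2 = η * X.h i + Real.log 2 := by
      rw [add_mul, div_mul_cancel₀ _ hl2.ne', one_mul]
    rw [← h2]
    exact mul_le_mul_of_nonneg_right h1.le hl2.le
  have hMlim : Filter.Tendsto (fun i => M i * Real.log 2 / X.h i) (X.U : Filter ℕ) (nhds η) := by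
    have h1 : Filter.Tendsto (fun i => η + Real.log 2 / X.h i) (X.U : Filter ℕ) (nhds (η + 0)) :=
      tendsto_const_nhds.add (X.top.const_div_atTop _)
    rw [add_zero] at h1
    refine tendsto_of_tendsto_of_tendsto_of_le_of_le' tendsto_const_nhds h1 ?_ ?_
    · filter_upwards [h0, hMlo] with i hi h2
      exact (le_div_iff₀ hi).mpr h2
    · filter_upwards [h0, hMup] with i hi h2
      rw [div_le_iff₀ hi, add_mul, div_mul_cancel₀ _ hi.ne']
      exact h2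
  have hc1 : Cfg X o k F S' V N s σ :=
    hc.mono X (Set.Subset.refl F) hc.fin (Filter.Eventually.of_forall hS')
  refine ⟨S', fun i => N i + M i, hS', ⟨hc1.fin, hc1.hgt, hc1.pt, ?_, ?_, hc1.der⟩, ?_⟩
  · filter_upwards [hc.cls] with i hi
    exact (hS2 i hi).2
  · refine (hc.scale.add hMlim).congr fun i => ?_
    push_cast
    ring
  · intro c' hc'
    obtain ⟨c'', h1, h2⟩ := exists_between (show c' + k * η < c by linarith)
    have hd : 0 < c'' - (c' + k * η) := by linarith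
    filter_upwards [hb c'' h2, hc.cls, h0, hMup,
      X.top.eventually_ge_atTop (k * Real.log 2 / (c'' - (c' + k * η)))] with i hi1 hi2 hi3 hi4 hi5
    have h3 := (hS2 i hi2).1
    have h4 : ((S i).card : ℝ) ≤ 2 ^ (k * M i) * ((S' i).card : ℝ) := by exact_mod_cast h3
    have h5 : ((2 : ℝ) ^ (k * M i)) = Real.exp (k * (M i * Real.log 2)) := by
      have h10 : Real.exp (((k * M i : ℕ) : ℝ) * Real.log 2) = 2 ^ (k * M i) := by
        rw [Real.exp_nat_mul, Real.exp_log (by norm_num)]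
      rw [← h10, Nat.cast_mul, mul_assoc]
    have h6 : (k : ℝ) * Real.log 2 ≤ (c'' - (c' + k * η)) * X.h i := by
      have := (div_le_iff₀ hd).mp hi5
      linarith [mul_comm (X.h i) (c'' - (c' + k * η))]
    have h7 : (k : ℝ) * (M i * Real.log 2) ≤ k * (η * X.h i + Real.log 2) :=
      mul_le_mul_of_nonneg_left hi4 (Nat.cast_nonneg _)
    have h8 : c' * X.h i + k * (M i * Real.log 2) ≤ c'' * X.h i := by
      nlinarith [h6, h7]
    have h9 : Real.exp (c' * X.h i) * Real.exp (k * (M i * Real.log 2)) ≤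
        Real.exp (k * (M i * Real.log 2)) * ((S' i).card : ℝ) := by
      rw [← Real.exp_add]
      refine (Real.exp_le_exp.mpr h8).trans (hi1.trans (h4.trans (le_of_eq ?_)))
      rw [h5]
    have h10 : Real.exp (c' * X.h i) * Real.exp (k * (M i * Real.log 2)) ≤
        ((S' i).card : ℝ) * Real.exp (k * (M i * Real.log 2)) := by
      rw [mul_comm ((S' i).card : ℝ)]
      exact h9
    exact le_of_mul_le_mul_right h10 (Real.exp_pos _)

end Pool.Agent.Lib.MP_17a322_nt.MV
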