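import Pool.Agent.Lib.MP_17a322_nt.MV.C0

/-!
Saturation.
-/

namespace Pool.Agent.Lib.MP_17a322_nt.MV

open Height
open Pool.Agent.Lib.MP_17a322_nt.EQ
open Pool.Agent.Lib.MP_17a322_nt.FQ

section

variable {B : Type} [Field B] [Algebra ℚ B] (X : Evl ℚ B ℕ) {ι : Type} [Fintype ι]

/-- A diagonal argument. PROOF: `T m = {i | G m i}` with `G` decreasing in `m` after replacing `G m i` by
`∀ m' ≤ m, G m' i`; all sets are in the ultrafilter. Let `n i` be the largest `m ≤ i` with `∀ m' < m, G m' i`. Then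
`G m i` for all `m < n i`, and `{i | M ≤ n i}` contains `{i | M ≤ i} ∩ ⋂_(m < M) {i | G m i}`, and `{i | M ≤ i}` is in
the ultrafilter because it is not principal (`X.top`: `h` tends to infinity; if the ultrafilter contains the finite set
`{i | i < M}` it is principal at some `i₀` and `h` is eventually equal to `h i₀`). -/
theorem diag (G : ℕ → ℕ → Prop) (h : ∀ m, ∀ᶠ i in (X.U : Filter ℕ), G m i) :
    ∃ n : ℕ → ℕ, (∀ i, ∀ m < n i, G m i) ∧ ∀ M, ∀ᶠ i in (X.U : Filter ℕ), M ≤ n i := by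
  classical
  have hM : ∀ M : ℕ, ∀ᶠ i in (X.U : Filter ℕ), M ≤ i := by
    intro M
    by_contra hneg
    have h1 : ∀ᶠ i in (X.U : Filter ℕ), ¬ M ≤ i := Ultrafilter.eventually_not.2 hneg
    have h2 : ∀ᶠ i in (X.U : Filter ℕ), (∑ j ∈ Finset.range M, |X.h j|) + 1 ≤ X.h i :=
      X.top.eventually_ge_atTop _
    obtain ⟨i, h3, h4⟩ := (h1.and h2).exists
    have h5 : |X.h i| ≤ ∑ j ∈ Finset.range M, |X.h j| :=
      Finset.single_le_sum (f := fun j => |X.h j|) (fun j _ => abs_nonneg _) (Finset.mem_range.2 (not_le.1 h3))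
    have h6 := le_abs_self (X.h i)
    linarith
  refine ⟨fun i => Nat.findGreatest (fun m => ∀ m' < m, G m' i) i, fun i => ?_, fun M => ?_⟩
  · exact Nat.findGreatest_spec (P := fun m => ∀ m' < m, G m' i) (Nat.zero_le i)
      (fun m' hm' => absurd hm' (Nat.not_lt_zero _))
  · have h1 : ∀ᶠ i in (X.U : Filter ℕ), ∀ m ∈ Finset.range M, G m i :=
      (Filter.eventually_all_finset _).2 fun m _ => h m
    filter_upwards [hM M, h1] with i h2 h3
    exact Nat.le_findGreatest h2 fun m' hm' => h3 m' (Finset.mem_range.2 hm')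

/-- SATURATION: if every point of the internal set `S` lies in one of countably many internal sets `A j`, then finitely
many of them contain `S`.

PROOF: Suppose not. For every `m` the set of the `i` with `∃ p ∈ S i, ∀ j < m, p ∉ A j i` is in the ultrafilter
(`Ultrafilter.eventually_not`). `diag` with `G m i : ∃ p ∈ S i, ∀ j < m + 1, p ∉ A j i` gives `n`; take `q i ∈ S i` with
`∀ j < n i, q i ∉ A j i` (for `n i = 0` any `q i`, for `n i = m + 1` from `G m i`). `exists_pt` gives `p` with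
`evv X p i = q i`; `Mem X S p` since `1 ≤ n i` eventually; `p` is in no `A j` because `j < n i` eventually. -/
theorem sat (o : ι) (S : ℕ → Finset (ι → ℚ)) (hS : ∃ C : ℝ, ∀ᶠ i in (X.U : Filter ℕ), ∀ p ∈ S i,
      logHeight p ≤ C * X.h i ∧ p o = 1) (A : ℕ → ℕ → Set (ι → ℚ))
    (h : ∀ p, Mem X S p → ∃ j, ∀ᶠ i in (X.U : Filter ℕ), evv X p i ∈ A j i) :
    ∃ m, ∀ᶠ i in (X.U : Filter ℕ), ∀ p ∈ S i, ∃ j < m, p ∈ A j i := by
  classical
  by_contra hneg
  have h0 : ∀ m, ∀ᶠ i in (X.U : Filter ℕ), ∃ p ∈ S i, ∀ j < m + 1, p ∉ A j i := by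
    intro m
    have h1 : ¬ ∀ᶠ i in (X.U : Filter ℕ), ∀ p ∈ S i, ∃ j < m + 1, p ∈ A j i := fun h2 => hneg ⟨m + 1, h2⟩
    have h2 := Ultrafilter.eventually_not.2 h1
    filter_upwards [h2] with i h3
    by_contra h4
    refine h3 fun p hp => ?_
    by_contra h5
    exact h4 ⟨p, hp, fun j hj h6 => h5 ⟨j, hj, h6⟩⟩
  obtain ⟨n, hn, hn'⟩ := diag X (fun m i => ∃ p ∈ S i, ∀ j < m + 1, p ∉ A j i) h0
  have hq0 : ∀ i, 1 ≤ n i → ∃ p ∈ S i, ∀ j < n i, p ∉ A j i := by
    intro i hi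
    obtain ⟨p, hp, hp'⟩ := hn i (n i - 1) (by omega)
    exact ⟨p, hp, fun j hj => hp' j (by omega)⟩
  obtain ⟨q, hq⟩ : ∃ q : ℕ → ι → ℚ, ∀ i, 1 ≤ n i → q i ∈ S i ∧ ∀ j < n i, q i ∉ A j i := by
    refine ⟨fun i => if hi : 1 ≤ n i then (hq0 i hi).choose else 0, fun i hi => ?_⟩
    simp only [dif_pos hi]
    exact (hq0 i hi).choose_spec
  obtain ⟨C, hC⟩ := hS
  obtain ⟨p, hp⟩ := exists_pt X o q ⟨C, by
    filter_upwards [hC, hn' 1] with i h1 h2
    exact h1 _ (hq i h2).1⟩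
  have hmem : Mem X S p := by
    show ∀ᶠ i in (X.U : Filter ℕ), evv X p i ∈ S i
    filter_upwards [hp, hn' 1] with i h1 h2
    rw [h1]
    exact (hq i h2).1
  obtain ⟨j, hj⟩ := h p hmem
  obtain ⟨i, ⟨h1, h2⟩, h3⟩ := ((hj.and hp).and (hn' (j + 1))).exists
  rw [h2] at h1
  exact (hq i (by omega)).2 j (by omega) h1

end

end Pool.Agent.Lib.MP_17a322_nt.MV
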