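import Pool.Agent.Lib.MP_17a322_nt.MV.C1a

/-!
Saturation: a large piece.
-/

namespace Pool.Agent.Lib.MP_17a322_nt.MV

open Height
open Pool.Agent.Lib.MP_17a322_nt.EQ
open Pool.Agent.Lib.MP_17a322_nt.FQ

section

variable {B : Type} [Field B] [Algebra ℚ B] (X : Evl ℚ B ℕ) {ι : Type} [Fintype ι]

open Classical in
/-- One of the sets `A j` contains a positive proportion of `S`. PROOF: `sat`, `lg_pigeon` with `α = Fin (m + 1)` and
`g i p` an index `j < m` with `p ∈ A j i` if there is one; if `S i` is eventually empty the statement is trivial too. -/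
theorem sat_lg (o : ι) (S : ℕ → Finset (ι → ℚ)) (hS : ∃ C : ℝ, ∀ᶠ i in (X.U : Filter ℕ), ∀ p ∈ S i,
      logHeight p ≤ C * X.h i ∧ p o = 1) (A : ℕ → ℕ → Set (ι → ℚ))
    (h : ∀ p, Mem X S p → ∃ j, ∀ᶠ i in (X.U : Filter ℕ), evv X p i ∈ A j i) :
    ∃ j, Lg X (fun i => (S i).filter fun p => p ∈ A j i) S := by
  obtain ⟨m, hm⟩ := sat X o S hS A h
  let g : ℕ → (ι → ℚ) → Fin (m + 1) := fun i p =>
    if hp : ∃ j, j < m ∧ p ∈ A j i then ⟨hp.choose, lt_trans hp.choose_spec.1 (Nat.lt_succ_self m)⟩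
    else ⟨m, Nat.lt_succ_self m⟩
  obtain ⟨a, -, C, hC⟩ := lg_pigeon X S g
  refine ⟨a, Filter.Eventually.of_forall fun i => Finset.filter_subset _ _, C, ?_⟩
  filter_upwards [hC, hm] with i h1 h2
  refine h1.trans (Nat.mul_le_mul_left _ (Finset.card_le_card ?_))
  intro p hp
  have key : ∀ (P : (ι → ℚ) → Prop) (hP : DecidablePred P) (T : Finset (ι → ℚ)),
      p ∈ @Finset.filter _ P hP T ↔ p ∈ T ∧ P p := fun P hP T => Finset.mem_filter
  obtain ⟨hp1, hp2⟩ := (key _ _ _).1 hp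
  refine (key _ _ _).2 ⟨hp1, ?_⟩
  have h3 : ∃ j, j < m ∧ p ∈ A j i := h2 p hp1
  have h4 : g i p = ⟨h3.choose, lt_trans h3.choose_spec.1 (Nat.lt_succ_self m)⟩ := dif_pos h3
  rw [hp2] at h4
  have h5 : (a : ℕ) = h3.choose := congrArg Fin.val h4
  rw [h5]
  exact h3.choose_spec.2

end

end Pool.Agent.Lib.MP_17a322_nt.MV
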