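import Pool.Agent.Lib.MP_17a322_nt.MV.C1a

/-!
Saturation: to avoid countably many small pieces.
-/

namespace Pool.Agent.Lib.MP_17a322_nt.MV

open Height
open Pool.Agent.Lib.MP_17a322_nt.EQ
open Pool.Agent.Lib.MP_17a322_nt.FQ

section

variable {B : Type} [Field B] [Algebra ℚ B] (X : Evl ℚ B ℕ) {ι : Type} [Fintype ι]

open Classical in
/-- If none of the sets `S ∩ A j` contains a positive proportion of `S`, there is a large subset of `S` whose points lie in
no `A j`. PROOF: for every `m` eventually `2 * |S ∩ (A 0 ∪ ... ∪ A m)| ≤ |S|`: `¬ Lg` with `C = 2 * (m + 1)` for every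
`j ≤ m`. `diag` gives `n`; `S' i = S i ∖ ⋃_(j < n i) A j i` has at least half of the elements. -/
theorem avoid (S : ℕ → Finset (ι → ℚ)) (A : ℕ → ℕ → Set (ι → ℚ))
    (h : ∀ j, ¬ Lg X (fun i => (S i).filter fun p => p ∈ A j i) S) :
    ∃ S', Lg X S' S ∧ ∀ p, Mem X S' p → ∀ j, ¬ ∀ᶠ i in (X.U : Filter ℕ), evv X p i ∈ A j i := by
  -- finitely many of the small pieces have at most half of the elements
  have key : ∀ m, ∀ᶠ i in (X.U : Filter ℕ),
      2 * ((S i).filter fun p => ∃ j ≤ m, p ∈ A j i).card ≤ (S i).card := by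
    intro m
    have h1 : ∀ j, ∀ᶠ i in (X.U : Filter ℕ),
        2 * (m + 1) * ((S i).filter fun p => p ∈ A j i).card < (S i).card := by
      intro j
      have h2 : ¬ ∀ᶠ i in (X.U : Filter ℕ),
          (S i).card ≤ 2 * (m + 1) * ((S i).filter fun p => p ∈ A j i).card := fun h3 =>
        h j ⟨Filter.Eventually.of_forall fun i => Finset.filter_subset _ _, 2 * (m + 1), h3⟩
      have h4 := Ultrafilter.eventually_not.2 h2
      exact h4.mono fun i hi => not_le.1 hi
    have h2 : ∀ᶠ i in (X.U : Filter ℕ), ∀ j ∈ Finset.range (m + 1),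
        2 * (m + 1) * ((S i).filter fun p => p ∈ A j i).card < (S i).card :=
      (Filter.eventually_all_finset _).2 fun j _ => h1 j
    refine h2.mono fun i hi => ?_
    have h3 : ((S i).filter fun p => ∃ j ≤ m, p ∈ A j i)
        ⊆ (Finset.range (m + 1)).biUnion fun j => (S i).filter fun p => p ∈ A j i := by
      intro p hp
      obtain ⟨hp1, j, hj, hpj⟩ := Finset.mem_filter.1 hp
      exact Finset.mem_biUnion.2 ⟨j, Finset.mem_range.2 (by omega), Finset.mem_filter.2 ⟨hp1, hpj⟩⟩
    have h4 := (Finset.card_le_card h3).trans Finset.card_biUnion_le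
    have h5 : ∑ j ∈ Finset.range (m + 1), 2 * (m + 1) * ((S i).filter fun p => p ∈ A j i).card
        ≤ ∑ _j ∈ Finset.range (m + 1), (S i).card :=
      Finset.sum_le_sum fun j hj => (hi j hj).le
    rw [← Finset.mul_sum, Finset.sum_const, Finset.card_range, smul_eq_mul] at h5
    have h6 : (m + 1) * (2 * ∑ j ∈ Finset.range (m + 1), ((S i).filter fun p => p ∈ A j i).card)
        ≤ (m + 1) * (S i).card := by
      refine le_trans (le_of_eq ?_) h5
      ring
    have h7 := Nat.le_of_mul_le_mul_left h6 (Nat.succ_pos m)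
    exact (Nat.mul_le_mul_left 2 h4).trans h7
  obtain ⟨n, hn1, hn2⟩ := diag X (fun m i => 2 * ((S i).filter fun p => ∃ j ≤ m, p ∈ A j i).card ≤ (S i).card) key
  refine ⟨fun i => (S i).filter fun p => ∀ j < n i, p ∉ A j i, ⟨Filter.Eventually.of_forall fun i =>
    Finset.filter_subset _ _, 2, Filter.Eventually.of_forall fun i => ?_⟩, fun p hp j hj => ?_⟩
  · show (S i).card ≤ 2 * ((S i).filter fun p => ∀ j < n i, p ∉ A j i).card
    have h1 := Finset.card_filter_add_card_filter_not (s := S i) (fun p => ∀ j < n i, p ∉ A j i)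
    rcases Nat.eq_zero_or_pos (n i) with h0 | h0
    · have h2 : ((S i).filter fun p => ¬ ∀ j < n i, p ∉ A j i) = ∅ := by
        refine Finset.filter_false_of_mem fun p _ => ?_
        rw [not_not]
        intro j hj
        omega
      rw [h2, Finset.card_empty] at h1
      omega
    · have h2 := hn1 i (n i - 1) (by omega)
      have h3 : ((S i).filter fun p => ¬ ∀ j < n i, p ∉ A j i)
          = (S i).filter fun p => ∃ j ≤ n i - 1, p ∈ A j i := by
        refine Finset.filter_congr fun p _ => ?_
        push Not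
        constructor
        · rintro ⟨j, hj, hp⟩
          exact ⟨j, by omega, hp⟩
        · rintro ⟨j, hj, hp⟩
          exact ⟨j, by omega, hp⟩
      rw [h3] at h1
      omega
  · obtain ⟨i, h1, h2, h3⟩ := ((hn2 (j + 1)).and (hp.and hj)).exists
    exact (Finset.mem_filter.1 h2).2 j (by omega) h3

end

end Pool.Agent.Lib.MP_17a322_nt.MV
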