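import Pool.Agent.Lib.MP_17a322_nt.MV.Defs

/-!
Algebraic relations.
-/

namespace Pool.Agent.Lib.MP_17a322_nt.MV

open MvPolynomial
open Pool.Agent.Lib.MP_17a322_nt.FQ

/-- an element of the field generated by the `f j` is a quotient of two values of polynomials, the denominator not zero -/
private theorem C2a_frac {B : Type} [Field B] [Algebra ℚ B] {l : ℕ} (f : Fin l → B) (c : B)
    (hc : c ∈ IntermediateField.adjoin ℚ (Set.range f)) :
    ∃ a b : MvPolynomial (Fin l) ℚ, aeval f b ≠ 0 ∧ aeval f a = aeval f b * c := by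
  rw [IntermediateField.mem_adjoin_range_iff] at hc
  obtain ⟨r, s, h⟩ := hc
  by_cases hs : aeval f s = 0
  · refine ⟨0, 1, ?_, ?_⟩
    · rw [map_one]
      exact one_ne_zero
    · rw [h, hs, div_zero, map_zero, mul_zero]
  · exact ⟨r, s, hs, by rw [h, mul_div_cancel₀ _ hs]⟩

/-- the derivative in a variable of the second kind of a polynomial in the variables of the first kind -/
private theorem C2a_inl {l k : ℕ} (a : MvPolynomial (Fin l) ℚ) (j : Fin k) :
    pderiv (Sum.inr j) (rename (Sum.inl : Fin l → Fin l ⊕ Fin k) a) = 0 := by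
  classical
  apply pderiv_eq_zero_of_notMem_vars
  intro h
  have h1 := vars_rename (Sum.inl : Fin l → Fin l ⊕ Fin k) a h
  rw [Finset.mem_image] at h1
  obtain ⟨x, _, hx⟩ := h1
  cases hx

/-- clearing the denominators -/
private theorem C2a_clear {B : Type} [Field B] [Algebra ℚ B] {l k : ℕ} (f : Fin l → B) (y : Fin k → B)
    (g : MvPolynomial (Fin k) (IntermediateField.adjoin ℚ (Set.range f))) :
    ∃ (d : MvPolynomial (Fin l) ℚ) (G : MvPolynomial (Fin l ⊕ Fin k) ℚ), aeval f d ≠ 0 ∧
      aeval (Sum.elim f y) G = aeval f d * aeval y g ∧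
      ∀ j, aeval (Sum.elim f y) (pderiv (Sum.inr j) G) = aeval f d * aeval y (pderiv j g) := by
  induction g using MvPolynomial.induction_on' with
  | monomial u c =>
    obtain ⟨a, b, hb, hab⟩ := C2a_frac f (c : B) c.2
    have hl : ∀ q : MvPolynomial (Fin l) ℚ, aeval (Sum.elim f y)
        (rename (Sum.inl : Fin l → Fin l ⊕ Fin k) q) = aeval f q := by
      intro q
      rw [aeval_rename, Sum.elim_comp_inl]
    have hr : ∀ q : MvPolynomial (Fin k) ℚ, aeval (Sum.elim f y)
        (rename (Sum.inr : Fin k → Fin l ⊕ Fin k) q) = aeval y q := by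
      intro q
      rw [aeval_rename, Sum.elim_comp_inr]
    refine ⟨b, rename Sum.inl a * rename Sum.inr (monomial u 1), hb, ?_, ?_⟩
    · rw [map_mul, hl, hr, hab, aeval_monomial, aeval_monomial, map_one, one_mul]
      rw [mul_assoc]
      rfl
    · intro j
      rw [pderiv_mul, C2a_inl, zero_mul, zero_add, pderiv_rename Sum.inr_injective, map_mul, hl, hr, hab,
        pderiv_monomial, pderiv_monomial, aeval_monomial, aeval_monomial, one_mul, mul_assoc]
      congr 1
      rw [map_mul, mul_assoc]
      have e1 : (algebraMap (IntermediateField.adjoin ℚ (Set.range f)) B) c = (c : B) := rfl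
      rw [e1]
      congr 2
      rw [map_natCast, map_natCast]
  | add p q hp hq =>
    obtain ⟨d1, G1, h1, h2, h3⟩ := hp
    obtain ⟨d2, G2, k1, k2, k3⟩ := hq
    have hl : ∀ q : MvPolynomial (Fin l) ℚ, aeval (Sum.elim f y)
        (rename (Sum.inl : Fin l → Fin l ⊕ Fin k) q) = aeval f q := by
      intro q
      rw [aeval_rename, Sum.elim_comp_inl]
    refine ⟨d1 * d2, rename Sum.inl d2 * G1 + rename Sum.inl d1 * G2, ?_, ?_, ?_⟩
    · rw [map_mul]
      exact mul_ne_zero h1 k1
    · rw [map_add, map_mul, map_mul, hl, hl, h2, k2, map_mul, map_add]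
      ring
    · intro j
      rw [map_add, pderiv_mul, pderiv_mul, C2a_inl, C2a_inl, zero_mul, zero_mul, zero_add, zero_add, map_add,
        map_mul, map_mul, hl, hl, h3, k3, map_mul, map_add, map_add]
      ring

/-- PROOF: There is a nonzero polynomial `g` in `k` variables over the field `K` generated by the `f j` with `g(y) = 0`.
Take one of minimal total degree. Its total degree is positive, so some `∂ g / ∂ Y_j` is not zero (characteristic zero)
and of smaller degree, so its value at `y` is not zero. Every element of `K` is a quotient of values of polynomials in the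
`f j` over `ℚ` (`IntermediateField.mem_adjoin_range_iff`, or `IsFractionRing (Algebra.adjoin ..) (IntermediateField.adjoin ..)`),
so after multiplication with a common denominator `g = G(f, Y)`; `pderiv` commutes with this specialisation. -/
theorem exists_rel {B : Type} [Field B] [Algebra ℚ B] {l k : ℕ} (f : Fin l → B) (y : Fin k → B)
    (h : ¬ Ind (Set.range f) y) : ∃ G : MvPolynomial (Fin l ⊕ Fin k) ℚ, aeval (Sum.elim f y) G = 0 ∧
      ∃ j, aeval (Sum.elim f y) (pderiv (Sum.inr j) G) ≠ 0 := by
  classical
  unfold Ind at h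
  rw [algebraicIndependent_iff] at h
  push Not at h
  have hex : ∃ n : ℕ, ∃ g : MvPolynomial (Fin k) (IntermediateField.adjoin ℚ (Set.range f)),
      g ≠ 0 ∧ aeval y g = 0 ∧ g.totalDegree = n := by
    obtain ⟨g, h1, h2⟩ := h
    exact ⟨g.totalDegree, g, h2, h1, rfl⟩
  obtain ⟨g, hg0, hgy, hgd⟩ := Nat.find_spec hex
  have hmin : ∀ g' : MvPolynomial (Fin k) (IntermediateField.adjoin ℚ (Set.range f)),
      g' ≠ 0 → aeval y g' = 0 → g.totalDegree ≤ g'.totalDegree := by
    intro g' h1 h2
    rw [hgd]
    exact Nat.find_min' hex ⟨g', h1, h2, rfl⟩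
  -- some derivative is not zero
  have hj : ∃ j, pderiv j g ≠ 0 := by
    by_contra hcon
    push Not at hcon
    have h1 : ∀ m : Fin k →₀ ℕ, m ≠ 0 → coeff m g = 0 := by
      intro m hm
      obtain ⟨j, hj⟩ : ∃ j, m j ≠ 0 := by
        by_contra hc
        push Not at hc
        exact hm (Finsupp.ext hc)
      have h2 := congrArg (coeff (m - Finsupp.single j 1)) (hcon j)
      rw [coeff_pderiv, coeff_zero] at h2
      have h3 : m - Finsupp.single j 1 + Finsupp.single j 1 = m := by
        apply tsub_add_cancel_of_le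
        rw [Finsupp.single_le_iff]
        omega
      rw [h3] at h2
      rcases mul_eq_zero.1 h2 with h4 | h4
      · exact h4
      · exfalso
        have h5 : (((m - Finsupp.single j 1 : Fin k →₀ ℕ) j + 1 : ℕ) :
            IntermediateField.adjoin ℚ (Set.range f)) = 0 := by
          push_cast
          exact h4
        have h6 := Nat.cast_eq_zero.1 h5
        omega
    have h2 : g = C (coeff 0 g) := by
      ext1 m
      rw [coeff_C]
      split_ifs with hm
      · rw [hm]
      · exact h1 m (fun h => hm h.symm)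
    rw [h2, aeval_C] at hgy
    have h3 : coeff 0 g = 0 := by
      apply (algebraMap (IntermediateField.adjoin ℚ (Set.range f)) B).injective
      rw [hgy, map_zero]
    rw [h3, C_0] at h2
    exact hg0 h2
  obtain ⟨j, hj⟩ := hj
  -- its degree is smaller
  have hdeg : (pderiv j g).totalDegree < g.totalDegree := by
    have hpos : ∀ m ∈ (pderiv j g).support, (m.sum fun _ e => e) + 1 ≤ g.totalDegree := by
      intro m hm
      rw [mem_support_iff, coeff_pderiv] at hm
      have h1 : m + Finsupp.single j 1 ∈ g.support := by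
        rw [mem_support_iff]
        exact left_ne_zero_of_mul hm
      have h2 := le_totalDegree h1
      have h3 : ((m + Finsupp.single j 1).sum fun _ e => e) = (m.sum fun _ e => e) + 1 := by
        rw [Finsupp.sum_add_index' (fun _ => rfl) (fun _ _ _ => rfl), Finsupp.sum_single_index rfl]
      omega
    obtain ⟨m, hm, hm2⟩ : ∃ m ∈ (pderiv j g).support, (pderiv j g).totalDegree = m.sum fun _ e => e := by
      have hne : (pderiv j g).support.Nonempty := by
        rw [Finset.nonempty_iff_ne_empty]
        intro he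
        exact hj (support_eq_empty.1 he)
      obtain ⟨m, hm, h1⟩ := Finset.exists_mem_eq_sup _ hne (fun s : Fin k →₀ ℕ => s.sum fun _ e => e)
      exact ⟨m, hm, h1⟩
    have := hpos m hm
    omega
  have hval : aeval y (pderiv j g) ≠ 0 := fun h0 => absurd (hmin _ hj h0) (not_le.2 hdeg)
  obtain ⟨d, G, hd, hG, hG2⟩ := C2a_clear f y g
  refine ⟨G, ?_, j, ?_⟩
  · rw [hG, hgy, mul_zero]
  · rw [hG2 j]
    exact mul_ne_zero hd hval

end Pool.Agent.Lib.MP_17a322_nt.MV
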