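import Pool.Agent.Lib.MP_17a322_nt.MV.Defs

/-!
Algebraic relations: derivatives.
-/

namespace Pool.Agent.Lib.MP_17a322_nt.MV

open MvPolynomial
open Pool.Agent.Lib.MP_17a322_nt.FQ

/-- substitution of constants for the first variables commutes with the derivatives in the others -/
private theorem c2b_pderiv {K : Type*} [Field K] [Algebra ℚ K] {l k : ℕ} (f : Fin l → K) (j : Fin k)
    (G : MvPolynomial (Fin l ⊕ Fin k) ℚ) :
    pderiv j (aeval (Sum.elim (fun i => (C (f i) : MvPolynomial (Fin k) K)) X) G) =
      aeval (Sum.elim (fun i => (C (f i) : MvPolynomial (Fin k) K)) X) (pderiv (Sum.inr j) G) := by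
  induction G using MvPolynomial.induction_on with
  | C a =>
    rw [pderiv_C, map_zero]
    have h : aeval (Sum.elim (fun i => (C (f i) : MvPolynomial (Fin k) K)) X) (C a : MvPolynomial (Fin l ⊕ Fin k) ℚ) =
        C (algebraMap ℚ K a) := by
      rw [aeval_C]
      rfl
    rw [h, pderiv_C]
  | add p q hp hq => simp only [map_add, hp, hq]
  | mul_X p z hp =>
    rw [map_mul, aeval_X, Derivation.leibniz, Derivation.leibniz, hp, map_add, smul_eq_mul, smul_eq_mul, smul_eq_mul,
      smul_eq_mul, map_mul, map_mul, aeval_X]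
    cases z with
    | inl i =>
      have h1 : pderiv (Sum.inr j) (X (Sum.inl i) : MvPolynomial (Fin l ⊕ Fin k) ℚ) = 0 :=
        pderiv_X_of_ne (by simp)
      rw [Sum.elim_inl, pderiv_C, h1, map_zero]
    | inr i =>
      rw [Sum.elim_inr]
      by_cases hij : i = j
      · subst hij
        rw [pderiv_X_self, pderiv_X_self, map_one]
      · rw [pderiv_X_of_ne hij, pderiv_X_of_ne (fun h => hij (Sum.inr_injective h)), map_zero]

/-- A relation with a nonzero derivative is a relation of algebraic dependence. PROOF: the polynomial `G(f, Y)` over `K` is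
not zero since its derivative at `y` is not zero. -/
theorem not_ind_of_rel {B : Type} [Field B] [Algebra ℚ B] {l k : ℕ} (f : Fin l → B) (y : Fin k → B)
    (G : MvPolynomial (Fin l ⊕ Fin k) ℚ) (h0 : aeval (Sum.elim f y) G = 0) (j : Fin k)
    (h1 : aeval (Sum.elim f y) (pderiv (Sum.inr j) G) ≠ 0) : ¬ Ind (Set.range f) y := by
  intro hind
  set K := IntermediateField.adjoin ℚ (Set.range f) with hK
  let f' : Fin l → K := fun i => ⟨f i, IntermediateField.subset_adjoin ℚ _ ⟨i, rfl⟩⟩
  have hev : ∀ P : MvPolynomial (Fin l ⊕ Fin k) ℚ,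
      aeval y (aeval (Sum.elim (fun i => (C (f' i) : MvPolynomial (Fin k) K)) X) P) = aeval (Sum.elim f y) P := by
    intro P
    induction P using MvPolynomial.induction_on with
    | C a =>
      rw [aeval_C, aeval_C]
      have h : (algebraMap ℚ (MvPolynomial (Fin k) K)) a = C (algebraMap ℚ K a) := rfl
      rw [h, aeval_C]
      exact (IsScalarTower.algebraMap_apply ℚ K B a).symm
    | add p q hp hq => simp only [map_add, hp, hq]
    | mul_X p z hp =>
      rw [map_mul, map_mul, map_mul, hp, aeval_X, aeval_X]
      cases z with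
      | inl i =>
        rw [Sum.elim_inl, Sum.elim_inl, aeval_C]
        rfl
      | inr i => rw [Sum.elim_inr, Sum.elim_inr, aeval_X]
  have h2 : aeval (Sum.elim (fun i => (C (f' i) : MvPolynomial (Fin k) K)) X) G = 0 := by
    refine (algebraicIndependent_iff.1 hind) _ ?_
    rw [hev, h0]
  apply h1
  rw [← hev, ← c2b_pderiv, h2, map_zero, map_zero]

private theorem c2b_der {B : Type} [Field B] [Algebra ℚ B] (E : IntermediateField ℚ B) (D : Derivation ℚ E B)
    {α : Type} [Fintype α] (x : α → E) (P : MvPolynomial α ℚ) :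
    D (aeval x P) = ∑ l, aeval (fun l => (x l : B)) (pderiv l P) * D (x l) := by
  classical
  have hc : ∀ P : MvPolynomial α ℚ, ((aeval x P : E) : B) = aeval (fun l => (x l : B)) P := by
    intro P
    have h := MvPolynomial.aeval_algebraMap_apply B x P
    exact h.symm
  induction P using MvPolynomial.induction_on with
  | C a =>
    rw [aeval_C, D.map_algebraMap, Finset.sum_eq_zero]
    intro l _
    rw [pderiv_C, map_zero, zero_mul]
  | add p q hp hq =>
    simp only [map_add, hp, hq, add_mul, Finset.sum_add_distrib]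
  | mul_X p i hp =>
    have h1 : ∀ l, aeval (fun l => (x l : B)) (pderiv l (p * X i)) * D (x l) =
        (x i : B) * (aeval (fun l => (x l : B)) (pderiv l p) * D (x l)) +
          aeval (fun l => (x l : B)) p * (aeval (fun l => (x l : B)) (pderiv l (X i : MvPolynomial α ℚ)) * D (x l)) := by
      intro l
      rw [Derivation.leibniz, smul_eq_mul, smul_eq_mul, map_add, map_mul, map_mul, aeval_X]
      ring
    rw [Finset.sum_congr rfl fun l _ => h1 l, Finset.sum_add_distrib, ← Finset.mul_sum,
      ← Finset.mul_sum, ← hp, Finset.sum_eq_single i]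
    · rw [pderiv_X_self, map_one, one_mul, map_mul, aeval_X, Derivation.leibniz, ← hc]
      have e : ∀ (a : E) (b : B), a • b = (a : B) * b := fun a b => rfl
      rw [e, e]
      ring
    · intro l _ hl
      rw [pderiv_X_of_ne (Ne.symm hl), map_zero, zero_mul]
    · intro h
      exact absurd (Finset.mem_univ i) h

/-- The derivation of a relation. PROOF: induction on `G` (as `der_aeval` in ABN/Sard, for derivations of an intermediate
field with values in `B`); the terms with `D (f j)` vanish. -/
theorem der_rel {B : Type} [Field B] [Algebra ℚ B] (E : IntermediateField ℚ B) (D : Derivation ℚ E B) {l k : ℕ}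
    (f : Fin l → E) (hf : ∀ j, D (f j) = 0) (y : Fin k → E) (G : MvPolynomial (Fin l ⊕ Fin k) ℚ)
    (hG : aeval (Sum.elim (fun j => (f j : B)) fun j => (y j : B)) G = 0) :
    ∑ j, aeval (Sum.elim (fun j => (f j : B)) fun j => (y j : B)) (pderiv (Sum.inr j) G) * D (y j) = 0 := by
  have he : (fun z => ((Sum.elim f y z : E) : B)) = Sum.elim (fun j => (f j : B)) fun j => (y j : B) := by
    funext z
    cases z <;> rfl
  have h1 := c2b_der E D (Sum.elim f y) G
  rw [he] at h1
  have h2 : aeval (Sum.elim f y) G = (0 : E) := by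
    have h3 := MvPolynomial.aeval_algebraMap_apply B (Sum.elim f y) G
    have h4 : (aeval (fun z => ((Sum.elim f y z : E) : B)) G : B) = ((aeval (Sum.elim f y) G : E) : B) := h3
    rw [he, hG] at h4
    exact_mod_cast h4.symm
  rw [h2, map_zero, Fintype.sum_sum_type] at h1
  simp only [Sum.elim_inl, Sum.elim_inr, hf, mul_zero, Finset.sum_const_zero, zero_add] at h1
  exact h1.symm

end Pool.Agent.Lib.MP_17a322_nt.MV
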