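import Pool.Agent.Lib.MP_17a322_nt.MV.Defs
import Pool.Agent.Lib.MP_17a322_nt.EQ.H1

/-!
Hyperplane sections of subspaces.
-/

namespace Pool.Agent.Lib.MP_17a322_nt.MV

open Height
open Pool.Agent.Lib.MP_17a322_nt.EQ
open Pool.Agent.Lib.MP_17a322_nt.FQ

variable {ι : Type} [Fintype ι]

/-- The subspace of `V` on which the linear form with the coefficients `φ` vanishes. -/
def cut (V : Submodule ℚ (ι → ℚ)) (φ : ι → ℚ) : Submodule ℚ (ι → ℚ) :=
  V ⊓ LinearMap.ker (∑ a, φ a • (LinearMap.proj a : (ι → ℚ) →ₗ[ℚ] ℚ))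

theorem mem_cut (V : Submodule ℚ (ι → ℚ)) (φ v : ι → ℚ) : v ∈ cut V φ ↔ v ∈ V ∧ ∑ a, φ a * v a = 0 := by
  unfold cut
  rw [Submodule.mem_inf, LinearMap.mem_ker, LinearMap.sum_apply]
  rfl

/-- PROOF: rank and nullity. -/
theorem finrank_cut (V : Submodule ℚ (ι → ℚ)) (φ : ι → ℚ) (h : ∃ v ∈ V, ∑ a, φ a * v a ≠ 0) :
    Module.finrank ℚ (cut V φ) + 1 = Module.finrank ℚ V := by
  obtain ⟨v, hv, hφ⟩ := h
  obtain ⟨f, hf⟩ : ∃ f : (ι → ℚ) →ₗ[ℚ] ℚ, f = ∑ a, φ a • (LinearMap.proj a : (ι → ℚ) →ₗ[ℚ] ℚ) := ⟨_, rfl⟩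
  have hfv : ∀ w, f w = ∑ a, φ a * w a := by
    intro w
    rw [hf, LinearMap.sum_apply]
    rfl
  have hcut : cut V φ = V ⊓ LinearMap.ker f := by
    unfold cut
    rw [hf]
  have h1 := LinearMap.finrank_range_add_finrank_ker (f ∘ₗ V.subtype)
  have h2 : LinearMap.range (f ∘ₗ V.subtype) = ⊤ := by
    rw [LinearMap.range_eq_top]
    refine LinearMap.surjective ?_
    intro h0
    have h3 := LinearMap.congr_fun h0 ⟨v, hv⟩
    rw [LinearMap.comp_apply, Submodule.subtype_apply, hfv] at h3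
    exact hφ h3
  have h4 : Module.finrank ℚ (LinearMap.ker (f ∘ₗ V.subtype)) = Module.finrank ℚ (cut V φ) := by
    rw [LinearMap.ker_comp, ← Submodule.finrank_map_subtype_eq V ((LinearMap.ker f).comap V.subtype),
      Submodule.map_comap_subtype, hcut]
  rw [h2, finrank_top, Module.finrank_self, h4] at h1
  rw [add_comm]
  exact h1

open Classical in
/-- The matrix of the contraction. -/
private noncomputable def C3_A (ι : Type) (r : ℕ) : (Fin r → ι) × (ι × (Fin (r + 1) → ι)) → ℚ :=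
  fun x => if x.2.2 = Fin.cons x.2.1 x.1 then 1 else 0

private theorem C3_sum (r : ℕ) (φ : ι → ℚ) (m : (Fin (r + 1) → ι) → ℚ) (s : Fin r → ι) :
    ∑ x : ι × (Fin (r + 1) → ι), C3_A ι r (s, x) * (φ x.1 * m x.2) = ∑ a, φ a * m (Fin.cons a s) := by
  classical
  rw [Fintype.sum_prod_type]
  refine Finset.sum_congr rfl fun a _ => ?_
  rw [Finset.sum_eq_single (Fin.cons a s)]
  · unfold C3_A
    rw [if_pos rfl, one_mul]
  · intro t _ ht
    unfold C3_A
    rw [if_neg ht, zero_mul]
  · intro h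
    exact absurd (Finset.mem_univ _) h

/-- The constant in dimension `r`. -/
private noncomputable def C3_c (ι : Type) [Fintype ι] (r : ℕ) : ℝ :=
  totalWeight ℚ * Real.log (Nat.card (ι × (Fin (r + 1) → ι))) + logHeight (C3_A ι r)

private theorem C3_det {r : ℕ} (φ : ι → ℚ) (y : Fin (r + 1) → ι → ℚ) (h0 : ∑ a, φ a * y 0 a = 1)
    (h1 : ∀ j : Fin r, ∑ a, φ a * y j.succ a = 0) (s : Fin r → ι) :
    ∑ a, φ a * (Matrix.of fun i b => y i ((Fin.cons a s : Fin (r + 1) → ι) b)).det =
      (Matrix.of fun i b => y (Fin.succ i) (s b)).det := by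
  have e1 : ∀ a, (Matrix.of fun i b => y i ((Fin.cons a s : Fin (r + 1) → ι) b)).det =
      ∑ i : Fin (r + 1), (-1) ^ (i : ℕ) * y i a *
        ((Matrix.of fun i b => y i (s b)).submatrix i.succAbove id).det := by
    intro a
    rw [Matrix.det_succ_column_zero]
    refine Finset.sum_congr rfl fun i _ => ?_
    rw [Matrix.of_apply, Fin.cons_zero]
    rfl
  calc ∑ a, φ a * (Matrix.of fun i b => y i ((Fin.cons a s : Fin (r + 1) → ι) b)).det
      = ∑ a, ∑ i : Fin (r + 1), (-1) ^ (i : ℕ) * (φ a * y i a) *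
        ((Matrix.of fun i b => y i (s b)).submatrix i.succAbove id).det := by
        refine Finset.sum_congr rfl fun a _ => ?_
        rw [e1, Finset.mul_sum]
        refine Finset.sum_congr rfl fun i _ => ?_
        ring
    _ = ∑ i : Fin (r + 1), (-1) ^ (i : ℕ) * (∑ a, φ a * y i a) *
        ((Matrix.of fun i b => y i (s b)).submatrix i.succAbove id).det := by
        rw [Finset.sum_comm]
        refine Finset.sum_congr rfl fun i _ => ?_
        rw [Finset.mul_sum, Finset.sum_mul]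
    _ = (Matrix.of fun i b => y (Fin.succ i) (s b)).det := by
        rw [Fin.sum_univ_succ, h0, Finset.sum_eq_zero fun j _ => by rw [h1 j, mul_zero, zero_mul], add_zero,
          Fin.val_zero, pow_zero, one_mul, one_mul]
        rfl

/-- The height of a hyperplane section. PROOF: Let `y_1, ..., y_d` be a basis of `cut V φ` and `y_0 ∈ V` with `φ(y_0) = 1`.
The minor of `y_0, ..., y_d` at `(a, I)` expanded along the first column and summed against `φ a`:
`∑_a φ_a det_(a, I)(y_0, ..., y_d) = φ(y_0) det_I(y_1, ..., y_d) = det_I (y_1, ..., y_d)` (multilinearity in the first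
column: the column of the `y_j` at `φ` is `(1, 0, ..., 0)`). So the vector of the Pluecker coordinates of `cut V φ` is a
linear image, with coefficients `1`, of the tensor product of `φ` and those of `V`: its height is at most
`logHeight φ + hPl V + log |ι|` (`logHeight_fun_mul_eq`, and the height of the sums over `a`: a lemma on the height of
the image of a vector under a `0-1`-matrix with at most `|ι|` ones in every row; see `hPl_eq`, `A3`, or
`logHeight_linearMap_apply_le`-type lemmas of Mathlib). Only a bound with SOME constant depending on `ι` is needed. -/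
theorem hPl_cut (ι : Type) [Fintype ι] : ∃ C : ℝ, ∀ (V : Submodule ℚ (ι → ℚ)) (φ : ι → ℚ),
    (∃ v ∈ V, ∑ a, φ a * v a ≠ 0) → hPl (cut V φ) ≤ hPl V + logHeight φ + C := by
  refine ⟨∑ r ∈ Finset.range (Fintype.card ι + 1), |C3_c ι r|, fun V φ h => ?_⟩
  have hfr := finrank_cut V φ h
  obtain ⟨v, hv, hφv⟩ := h
  obtain ⟨r, hr⟩ : ∃ r, r = Module.finrank ℚ (cut V φ) := ⟨_, rfl⟩
  rw [← hr] at hfr
  have hrι : r < Fintype.card ι + 1 := by
    have h1 : Module.finrank ℚ V ≤ Module.finrank ℚ (ι → ℚ) := Submodule.finrank_le V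
    rw [Module.finrank_fintype_fun_eq_card] at h1
    omega
  have hC : C3_c ι r ≤ ∑ r ∈ Finset.range (Fintype.card ι + 1), |C3_c ι r| :=
    (le_abs_self _).trans (Finset.single_le_sum (f := fun r => |C3_c ι r|) (fun _ _ => abs_nonneg _)
      (Finset.mem_range.2 hrι))
  let b := Module.finBasisOfFinrankEq ℚ (cut V φ) hr.symm
  let y' : Fin r → ι → ℚ := fun k => (b k : ι → ℚ)
  have hy' : ∀ k, y' k ∈ cut V φ := fun k => (b k).2
  have hi' : LinearIndependent ℚ y' :=
    b.linearIndependent.map' (cut V φ).subtype (Submodule.ker_subtype _)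
  let y0 : ι → ℚ := (∑ a, φ a * v a)⁻¹ • v
  have hy0 : y0 ∈ V := V.smul_mem _ hv
  have hφ0 : ∑ a, φ a * y0 a = 1 := by
    have e1 : ∑ a, φ a * y0 a = (∑ a, φ a * v a)⁻¹ * ∑ a, φ a * v a := by
      rw [Finset.mul_sum]
      refine Finset.sum_congr rfl fun a _ => ?_
      show φ a * ((∑ a, φ a * v a)⁻¹ * v a) = _
      ring
    rw [e1, inv_mul_cancel₀ hφv]
  let y : Fin (r + 1) → ι → ℚ := Fin.cons y0 y'
  have hyV : ∀ k, y k ∈ V := by
    intro k
    refine Fin.cases ?_ (fun j => ?_) k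
    · exact hy0
    · exact ((mem_cut V φ _).1 (hy' j)).1
  have hi : LinearIndependent ℚ y := by
    refine linearIndependent_finCons.2 ⟨hi', fun hmem => ?_⟩
    have h1 : Submodule.span ℚ (Set.range y') ≤ cut V φ := by
      rw [Submodule.span_le]
      rintro _ ⟨k, rfl⟩
      exact hy' k
    have h2 := ((mem_cut V φ _).1 (h1 hmem)).2
    rw [hφ0] at h2
    exact one_ne_zero h2
  have e1 : hPl (cut V φ) = logHeight fun s : Fin r → ι => (Matrix.of fun a b => y' a (s b)).det :=
    hPl_eq (cut V φ) hr.symm y' hy' hi'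
  have e2 : hPl V = logHeight fun s : Fin (r + 1) → ι => (Matrix.of fun a b => y a (s b)).det :=
    hPl_eq V hfr.symm y hyV hi
  have hφ : φ ≠ 0 := by
    rintro rfl
    exact hφv (Finset.sum_eq_zero fun a _ => zero_mul _)
  have e3 := logHeight_fun_mul_eq hφ (minors_ne hi)
  have e4 := logHeight_linearMap_apply_le (C3_A ι r)
    (fun x : ι × (Fin (r + 1) → ι) => φ x.1 * (Matrix.of fun a b => y a (x.2 b)).det)
  rw [e3, ← e2] at e4
  have e5 : (fun s : Fin r → ι => (Matrix.of fun a b => y' a (s b)).det) =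
      fun s => ∑ x : ι × (Fin (r + 1) → ι), C3_A ι r (s, x) *
        (φ x.1 * (Matrix.of fun a b => y a (x.2 b)).det) := by
    funext s
    rw [C3_sum r φ (fun t => (Matrix.of fun a b => y a (t b)).det) s,
      C3_det φ y hφ0 (fun j => ((mem_cut V φ _).1 (hy' j)).2) s]
    rfl
  rw [← e5, ← e1] at e4
  have e6 : C3_c ι r = totalWeight ℚ * Real.log (Nat.card (ι × (Fin (r + 1) → ι))) +
      logHeight (C3_A ι r) := rfl
  rw [← e6] at e4
  linarith

end Pool.Agent.Lib.MP_17a322_nt.MV
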