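import Pool.Agent.Lib.MP_17a322_nt.MV.Defs

/-!
Optimal coordinates at the place `2`.
-/

namespace Pool.Agent.Lib.MP_17a322_nt.MV

open Pool.Agent.Lib.MP_17a322_nt.FQ

private theorem C4_step {ι M : Type} [AddCommGroup M] [Module ℚ M] (φ : ι → M →ₗ[ℚ] ℚ) (a₀ : ι)
    (v₀ : M) (h0 : φ a₀ v₀ ≠ 0) (hmax : ∀ a, padicNorm 2 (φ a v₀) ≤ padicNorm 2 (φ a₀ v₀)) {n : ℕ}
    (s : Fin n → ι) (hs : ∀ v, φ a₀ v = 0 → ∀ a, φ a v = 0 ∨
      ∃ j, padicNorm 2 (φ a v) ≤ padicNorm 2 (φ (s j) v)) (v : M) (a : ι) :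
    padicNorm 2 (φ a v) ≤ padicNorm 2 (φ a₀ v) ∨
      ∃ j, padicNorm 2 (φ a v) ≤ padicNorm 2 (φ (s j) v) := by
  obtain ⟨c, hc⟩ : ∃ c : ℚ, c = φ a₀ v / φ a₀ v₀ := ⟨_, rfl⟩
  have hK : φ a₀ (v - c • v₀) = 0 := by
    rw [map_sub, map_smul, smul_eq_mul, hc, div_mul_cancel₀ _ h0, sub_self]
  have hcn : ∀ a, padicNorm 2 (c * φ a v₀) ≤ padicNorm 2 (φ a₀ v) := by
    intro a
    have e1 : c * φ a₀ v₀ = φ a₀ v := by rw [hc, div_mul_cancel₀ _ h0]
    rw [← e1, padicNorm.mul, padicNorm.mul]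
    exact mul_le_mul_of_nonneg_left (hmax a) (padicNorm.nonneg _)
  have e2 : ∀ a, φ a v = φ a (v - c • v₀) + c * φ a v₀ := by
    intro a
    rw [map_sub, map_smul, smul_eq_mul, sub_add_cancel]
  have e3 : ∀ a, φ a (v - c • v₀) = φ a v + -(c * φ a v₀) := by
    intro a
    rw [map_sub, map_smul, smul_eq_mul, sub_eq_add_neg]
  have e4 : ∀ a, padicNorm 2 (φ a v) ≤
      max (padicNorm 2 (φ a (v - c • v₀))) (padicNorm 2 (φ a₀ v)) := by
    intro a
    rw [e2 a]
    exact padicNorm.nonarchimedean.trans (max_le_max le_rfl (hcn a))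
  have e5 : ∀ a, padicNorm 2 (φ a (v - c • v₀)) ≤
      max (padicNorm 2 (φ a v)) (padicNorm 2 (φ a₀ v)) := by
    intro a
    rw [e3 a]
    refine padicNorm.nonarchimedean.trans (max_le_max le_rfl ?_)
    rw [padicNorm.neg]
    exact hcn a
  rcases hs _ hK a with h | ⟨j, h⟩
  · left
    have := e4 a
    rwa [h, padicNorm.zero, max_eq_right (padicNorm.nonneg _)] at this
  · have h1 := (e4 a).trans (max_le_max (h.trans (e5 (s j))) le_rfl)
    rw [max_assoc, max_self] at h1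
    rcases le_max_iff.1 h1 with h2 | h2
    · exact Or.inr ⟨j, h2⟩
    · exact Or.inl h2

private theorem C4_ker {M : Type} [AddCommGroup M] [Module ℚ M] [FiniteDimensional ℚ M] {n : ℕ}
    (hn : Module.finrank ℚ M = n + 1) (f : M →ₗ[ℚ] ℚ) (v : M) (hv : f v ≠ 0) :
    Module.finrank ℚ (LinearMap.ker f) = n := by
  have h1 : LinearMap.range f = ⊤ := by
    rw [LinearMap.range_eq_top]
    intro c
    refine ⟨(c / f v) • v, ?_⟩
    rw [map_smul, smul_eq_mul, div_mul_cancel₀ _ hv]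
  have h2 := LinearMap.finrank_range_add_finrank_ker f
  rw [h1, finrank_top, Module.finrank_self, hn] at h2
  omega

private theorem C4_greedy {ι κ : Type} [Finite κ] (t : κ → ι) : ∀ (n : ℕ) (M : Type)
    [AddCommGroup M] [Module ℚ M] [FiniteDimensional ℚ M] (φ : ι → M →ₗ[ℚ] ℚ),
    Module.finrank ℚ M = n →
    (∀ v a, φ a v = 0 ∨ ∃ b, padicNorm 2 (φ a v) ≤ padicNorm 2 (φ (t b) v)) →
    (∀ v, (∀ a, φ a v = 0) → v = 0) →
    ∃ s : Fin n → κ, ∀ v a, φ a v = 0 ∨ ∃ j, padicNorm 2 (φ a v) ≤ padicNorm 2 (φ (t (s j)) v) := by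
  intro n
  induction n with
  | zero =>
    intro M _ _ _ φ hn h1 h2
    refine ⟨Fin.elim0, fun v a => Or.inl ?_⟩
    have : Subsingleton M := Module.finrank_zero_iff.1 hn
    rw [Subsingleton.elim v 0, map_zero]
  | succ n ih =>
    intro M _ _ _ φ hn h1 h2
    have h3 : Nontrivial M := Module.finrank_pos_iff.1 (by omega : 0 < Module.finrank ℚ M)
    obtain ⟨v₀, hv₀⟩ := exists_ne (0 : M)
    obtain ⟨a₁, ha₁⟩ : ∃ a, φ a v₀ ≠ 0 := by
      by_contra h
      push Not at h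
      exact hv₀ (h2 v₀ h)
    obtain ⟨b₁, hb₁⟩ := (h1 v₀ a₁).resolve_left ha₁
    have : Nonempty κ := ⟨b₁⟩
    obtain ⟨b₀, hb₀⟩ := Finite.exists_max fun b => padicNorm 2 (φ (t b) v₀)
    have h4 : ∀ a, padicNorm 2 (φ a v₀) ≤ padicNorm 2 (φ (t b₀) v₀) := by
      intro a
      rcases h1 v₀ a with h | ⟨b, hb⟩
      · rw [h, padicNorm.zero]
        exact padicNorm.nonneg _
      · exact hb.trans (hb₀ b)
    have h5 : φ (t b₀) v₀ ≠ 0 := by
      intro h
      have h6 := h4 a₁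
      rw [h, padicNorm.zero] at h6
      exact ha₁ (padicNorm.zero_of_padicNorm_eq_zero (le_antisymm h6 (padicNorm.nonneg _)))
    obtain ⟨s, hs⟩ := ih (LinearMap.ker (φ (t b₀)))
      (fun a => (φ a).comp (LinearMap.ker (φ (t b₀))).subtype) (C4_ker hn _ v₀ h5)
      (fun v a => h1 v a) (fun v hv => Subtype.ext (h2 v hv))
    refine ⟨Fin.cons b₀ s, fun v a => Or.inr ?_⟩
    rcases C4_step φ (t b₀) v₀ h5 h4 (fun j => t (s j)) (fun v hv a => hs ⟨v, hv⟩ a) v a with h | ⟨j, hj⟩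
    · exact ⟨0, h⟩
    · exact ⟨j.succ, hj⟩

/-- Optimal coordinates among given ones.

PROOF: The projection `v ↦ (v (b.elim o t))_b` preserves the sup norm at `2` on `V'`, so it is injective. Let
`y : Fin (k' + 1) → _` be a basis of `V'` with `y 0 = p`. Choose `s' : Fin k' → κ` such that the absolute value at `2` of the
minor of the `y j` at the columns `o, t (s' 0), ...` is maximal among ALL minors at `k' + 1` of the columns `o`, `t b`:
there is a maximal minor whose columns contain `o`: exchange argument: let `c` be the columns of a maximal minor and write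
the coordinate functional `v ↦ v o` on `V'` as a combination `∑ λ_i (v ↦ v (c i))`; by Cramer and maximality
`|λ_i|_2 ≤ 1`, and since `p o = 1`, `|p (c i)|_2 ≤ 1` some `|λ_i|_2 = 1`; replace the column `c i` by `o`: the minor is
multiplied by `λ_i`, so it is still maximal. Then for `v ∈ V'` and every `b` the value `v (b.elim o t)` is a combination
of the values at the chosen columns with coefficients of absolute value at most `1` (Cramer), so it is at most one of
them (nonarchimedean). ANOTHER WAY, with the residue field or by induction with `padicNorm`: as you like. -/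
theorem exists_opt {ι κ : Type} [Fintype ι] [Fintype κ] (o : ι) (t : κ → ι) (V' : Submodule ℚ (ι → ℚ)) {k' : ℕ}
    (hk : Module.finrank ℚ V' = k' + 1) (hO : ∀ v ∈ V', ∀ a, ∃ b : Option κ,
      padicNorm 2 (v a) ≤ padicNorm 2 (v (b.elim o t))) (p : ι → ℚ) (hp : p ∈ V') (hpo : p o = 1)
    (hp2 : ∀ a, padicNorm 2 (p a) ≤ 1) : ∃ s' : Fin k' → κ, Opt o (fun j => t (s' j)) V' := by
  obtain ⟨φ, hφ⟩ : ∃ φ : ι → V' →ₗ[ℚ] ℚ, ∀ a v, φ a v = (v : ι → ℚ) a :=
    ⟨fun a => (LinearMap.proj a).comp V'.subtype, fun _ _ => rfl⟩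
  have h0 : φ o ⟨p, hp⟩ ≠ 0 := by
    rw [hφ]
    simp [hpo]
  have h1 : ∀ a, padicNorm 2 (φ a ⟨p, hp⟩) ≤ padicNorm 2 (φ o ⟨p, hp⟩) := by
    intro a
    rw [hφ, hφ]
    simpa [hpo] using hp2 a
  obtain ⟨s, hs⟩ := C4_greedy t k' (LinearMap.ker (φ o)) (fun a => (φ a).comp (LinearMap.ker (φ o)).subtype)
    (C4_ker hk _ ⟨p, hp⟩ h0) (fun v a => by
      obtain ⟨b, hb⟩ := hO v.1 v.1.2 a
      have h2 : φ o v.1 = 0 := v.2
      cases b with
      | none =>
        left
        have h3 : padicNorm 2 (φ a v.1) ≤ padicNorm 2 (φ o v.1) := by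
          rw [hφ, hφ]
          exact hb
        rw [h2, padicNorm.zero] at h3
        exact padicNorm.zero_of_padicNorm_eq_zero (le_antisymm h3 (padicNorm.nonneg _))
      | some b =>
        right
        refine ⟨b, ?_⟩
        show padicNorm 2 (φ a v.1) ≤ padicNorm 2 (φ (t b) v.1)
        rw [hφ, hφ]
        exact hb)
    (fun v hv => by
      apply Subtype.ext
      apply Subtype.ext
      funext a
      have h3 : φ a v.1 = 0 := hv a
      rw [hφ] at h3
      exact h3)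
  refine ⟨s, fun v hv a => ?_⟩
  rcases C4_step φ o ⟨p, hp⟩ h0 h1 (fun j => t (s j)) (fun v hv a => hs ⟨v, hv⟩ a) ⟨v, hv⟩ a with h | ⟨j, hj⟩
  · refine ⟨none, ?_⟩
    rw [hφ, hφ] at h
    exact h
  · refine ⟨some j, ?_⟩
    rw [hφ, hφ] at hj
    exact hj

end Pool.Agent.Lib.MP_17a322_nt.MV
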