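import Pool.Agent.Lib.MP_17a322_nt.MV.C1b
import Pool.Agent.Lib.MP_17a322_nt.MV.C2a
import Pool.Agent.Lib.MP_17a322_nt.MV.C2b

/-!
A relation on a large subset.
-/

namespace Pool.Agent.Lib.MP_17a322_nt.MV

open Height
open Pool.Agent.Lib.MP_17a322_nt.EQ
open Pool.Agent.Lib.MP_17a322_nt.FQ

section

variable {B : Type} [Field B] [Algebra ℚ B] (X : Evl ℚ B ℕ) {ι : Type} [Fintype ι] {o : ι}

/-- A relation which holds on a large subset. `f` are the elements of `F'`.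

The dimension is `k + 1` here: in dimension zero the empty internal set is a configuration which is not full, and there is
no `j`.

PROOF: `¬ Full` gives a finite `F' ⊇ F` and `S₁` with `Lg X S₁ S` such that every point `p` of `S₁` has dependent
coordinates `p (s j)` over `F'`. Let `f : Fin l → B` enumerate `F'`. By `exists_rel` there
is `G` (a countable set: `MvPolynomial (Fin l ⊕ Fin k) ℚ` is countable, use an enumeration `ℕ → _` of the pairs `(G, j)`)
with `G(f, p_s) = 0` and `∂ G / ∂ Y_j (f, p_s) ≠ 0`; both hold at `i` eventually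
(`ev_aeval`, `ev_ne`). `sat_lg` with the sets `A i` = the set of the `q` with these two properties for the values
`X.ev (f ·) i`. -/
theorem exists_rel_lg {k : ℕ} {F : Set B} {S : ℕ → Finset (ι → ℚ)}
    {V : ℕ → (ι → ℚ) → Submodule ℚ (ι → ℚ)} {N : ℕ → ℕ} {s : Fin (k + 1) → ι} {σ : ℝ}
    (hc : Cfg X o (k + 1) F S V N s σ) (hn : ¬ Full X F S s) :
    ∃ (l : ℕ) (f : Fin l → B) (S' : ℕ → Finset (ι → ℚ)) (G : MvPolynomial (Fin l ⊕ Fin (k + 1)) ℚ)
      (j : Fin (k + 1)),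
      F ⊆ Set.range f ∧ Lg X S' S ∧ ∀ᶠ i in (X.U : Filter ℕ), ∀ q ∈ S' i,
        MvPolynomial.eval (Sum.elim (fun a => X.ev (f a) i) fun a => q (s a)) G = 0 ∧
        MvPolynomial.eval (Sum.elim (fun a => X.ev (f a) i) fun a => q (s a))
          (MvPolynomial.pderiv (Sum.inr j) G) ≠ 0 := by
  classical
  have hn' : ∃ F' : Set B, F ⊆ F' ∧ F'.Finite ∧ ∃ S₁ : ℕ → Finset (ι → ℚ), Lg X S₁ S ∧
      ∀ p : ι → B, Mem X S₁ p → ¬ Ind F' fun j => p (s j) := by
    by_contra hcon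
    refine hn fun F' hF hfin S₁ hL => ?_
    by_contra hno
    exact hcon ⟨F', hF, hfin, S₁, hL, fun p hp hi => hno ⟨p, hp, hi⟩⟩
  obtain ⟨F', hFF, hfin, S₁, hLg, hdep⟩ := hn'
  obtain ⟨l, f, -, hf⟩ := hfin.fin_param
  have hcount : Countable (MvPolynomial (Fin l ⊕ Fin (k + 1)) ℚ) := by
    rw [← Cardinal.mk_le_aleph0_iff]
    refine MvPolynomial.cardinalMk_le_max.trans (max_le (max_le ?_ ?_) le_rfl)
    · exact Cardinal.mk_le_aleph0
    · exact Cardinal.mk_le_aleph0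
  obtain ⟨en, hen⟩ := exists_surjective_nat (MvPolynomial (Fin l ⊕ Fin (k + 1)) ℚ × Fin (k + 1))
  have hS₁ : ∃ C : ℝ, ∀ᶠ i in (X.U : Filter ℕ), ∀ p ∈ S₁ i, logHeight p ≤ C * X.h i ∧ p o = 1 := by
    obtain ⟨C, hC⟩ := hc.hgt
    refine ⟨C, ?_⟩
    filter_upwards [hC, hc.pt, hLg.1] with i h1 h2 h3 p hp
    exact ⟨(h1 p (h3 hp)).1, (h2 p (h3 hp)).1⟩
  obtain ⟨A, hA⟩ : ∃ A : ℕ → ℕ → Set (ι → ℚ), ∀ n i q, q ∈ A n i ↔
      MvPolynomial.eval (Sum.elim (fun a => X.ev (f a) i) fun a => q (s a)) (en n).1 = 0 ∧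
      MvPolynomial.eval (Sum.elim (fun a => X.ev (f a) i) fun a => q (s a))
        (MvPolynomial.pderiv (Sum.inr (en n).2) (en n).1) ≠ 0 :=
    ⟨fun n i => {q | MvPolynomial.eval (Sum.elim (fun a => X.ev (f a) i) fun a => q (s a)) (en n).1 = 0 ∧
      MvPolynomial.eval (Sum.elim (fun a => X.ev (f a) i) fun a => q (s a))
        (MvPolynomial.pderiv (Sum.inr (en n).2) (en n).1) ≠ 0}, fun _ _ _ => Iff.rfl⟩
  have hcov : ∀ p, Mem X S₁ p → ∃ n : ℕ, ∀ᶠ i in (X.U : Filter ℕ), evv X p i ∈ A n i := by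
    intro p hp
    have h := hdep p hp
    rw [← hf] at h
    obtain ⟨G, hG, j, hj⟩ := exists_rel f (fun j => p (s j)) h
    obtain ⟨n, hn⟩ := hen (G, j)
    refine ⟨n, ?_⟩
    filter_upwards [ev_aeval X (Sum.elim f fun j => p (s j)) G,
      ev_aeval X (Sum.elim f fun j => p (s j)) (MvPolynomial.pderiv (Sum.inr j) G), ev_ne X hj,
      ev_zero X] with i h1 h2 h3 h4
    have he : (fun b => X.ev (Sum.elim f (fun j => p (s j)) b) i) =
        Sum.elim (fun a => X.ev (f a) i) fun a => evv X p i (s a) := by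
      funext b
      rcases b with b | b
      · rfl
      · rfl
    rw [hG, h4, he] at h1
    rw [he] at h2
    rw [hA, hn]
    exact ⟨h1.symm, fun h5 => h3 (h2.trans h5)⟩
  obtain ⟨n, hn2⟩ := sat_lg X o S₁ hS₁ A hcov
  exact ⟨l, f, _, (en n).1, (en n).2, hf ▸ hFF, hn2.trans X hLg,
    Filter.Eventually.of_forall fun i q hq => (hA n i q).1 (Finset.mem_filter.1 hq).2⟩

end

end Pool.Agent.Lib.MP_17a322_nt.MV
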