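import Pool.Agent.Lib.MP_17a322_nt.MV.C6a
import Pool.Agent.Lib.MP_17a322_nt.MV.C3
import Pool.Agent.Lib.MP_17a322_nt.MV.C4
import Pool.Agent.Lib.MP_17a322_nt.FQ.X13
import Pool.Agent.Lib.MP_17a322_nt.FQ.A2

/-!
Configurations which are not full.
-/

namespace Pool.Agent.Lib.MP_17a322_nt.MV

open Height
open Pool.Agent.Lib.MP_17a322_nt.EQ
open Pool.Agent.Lib.MP_17a322_nt.FQ

section

variable {B : Type} [Field B] [Algebra ℚ B] (X : Evl ℚ B ℕ) {ι : Type} [Fintype ι] {o : ι}

/-- The coefficients of the linear form. -/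
private theorem C6b_sum [DecidableEq ι] {k : ℕ} (o : ι) (s : Fin (k + 1) → ι) (d : Fin (k + 1) → ℚ)
    (q v : ι → ℚ) :
    ∑ b, (∑ a, d a * ((if s a = b then 1 else 0) - q (s a) * (if o = b then 1 else 0))) * v b =
      ∑ a, d a * (v (s a) - q (s a) * v o) := by
  simp only [Finset.sum_mul]
  rw [Finset.sum_comm]
  refine Finset.sum_congr rfl fun a _ => ?_
  have h1 : ∀ c : ι, ∑ b, (if c = b then (1 : ℚ) else 0) * v b = v c := by
    intro c
    simp only [ite_mul, one_mul, zero_mul]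
    rw [Finset.sum_ite_eq, if_pos (Finset.mem_univ c)]
  calc ∑ b, d a * ((if s a = b then 1 else 0) - q (s a) * (if o = b then 1 else 0)) * v b
      = ∑ b, (d a * ((if s a = b then (1 : ℚ) else 0) * v b) -
          d a * (q (s a) * ((if o = b then (1 : ℚ) else 0) * v b))) :=
        Finset.sum_congr rfl fun b _ => by ring
    _ = d a * (∑ b, (if s a = b then (1 : ℚ) else 0) * v b) -
          d a * (q (s a) * ∑ b, (if o = b then (1 : ℚ) else 0) * v b) := by
        rw [Finset.sum_sub_distrib, Finset.mul_sum, Finset.mul_sum, Finset.mul_sum]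
    _ = d a * (v (s a) - q (s a) * v o) := by
        rw [h1, h1]
        ring

/-- Optimal coordinates take all values. -/
private theorem C6b_surj {k : ℕ} {o : ι} {s : Fin k → ι} {V : Submodule ℚ (ι → ℚ)} (hO : Opt o s V)
    (hk : Module.finrank ℚ V = k + 1) (c : Option (Fin k) → ℚ) :
    ∃ v ∈ V, ∀ b, v (os o s b) = c b := by
  let L : V →ₗ[ℚ] (Option (Fin k) → ℚ) :=
    (LinearMap.funLeft ℚ ℚ (os o s)) ∘ₗ V.subtype
  have hL : ∀ v b, L v b = (v : ι → ℚ) (os o s b) := fun v b => rfl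
  have hinj : Function.Injective L := by
    rw [← LinearMap.ker_eq_bot]
    refine LinearMap.ker_eq_bot'.2 fun v hv => ?_
    refine Subtype.ext (funext fun a => ?_)
    obtain ⟨b, hb⟩ := hO v.1 v.2 a
    have h1 : (v : ι → ℚ) (os o s b) = 0 := by
      rw [← hL, hv]
      rfl
    rw [h1, padicNorm.zero] at hb
    exact padicNorm.zero_of_padicNorm_eq_zero (le_antisymm hb (padicNorm.nonneg _))
  have hd : Module.finrank ℚ V = Module.finrank ℚ (Option (Fin k) → ℚ) := by
    rw [hk, Module.finrank_fintype_fun_eq_card, Fintype.card_option, Fintype.card_fin]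
  have hsur : Function.Surjective L := (LinearMap.injective_iff_surjective_of_finrank_eq_finrank hd).1 hinj
  obtain ⟨v, hv⟩ := hsur c
  exact ⟨v.1, v.2, fun b => by rw [← hL, hv]⟩

/-- The height of the parameters. -/
private theorem C6b_par {l k : ℕ} (o : ι) (s : Fin k → ι) (u : Fin l → ℚ) (q : ι → ℚ) (hq : q o = 1) :
    logHeight (fun t : Option (Fin l ⊕ Fin k) => t.elim 1 (Sum.elim u fun a => q (s a))) ≤
      logHeight (fun t : Option (Fin l) => t.elim 1 u) + logHeight q := by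
  have hx : (fun t : Option (Fin l) => t.elim 1 u) ≠ 0 := fun h => one_ne_zero (congrFun h none)
  have hy : q ≠ 0 := fun h => by
    rw [h] at hq
    exact zero_ne_one hq
  let g : Option (Fin l ⊕ Fin k) → Option (Fin l) × ι := fun t =>
    t.elim (none, o) (Sum.elim (fun a => (some a, o)) fun a => (none, s a))
  have h1 := logHeight_comp_le g (fun z : Option (Fin l) × ι => (z.1.elim 1 u) * q z.2)
  have h2 : (fun z : Option (Fin l) × ι => (z.1.elim 1 u) * q z.2) ∘ g =
      fun t : Option (Fin l ⊕ Fin k) => t.elim 1 (Sum.elim u fun a => q (s a)) := by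
    funext t
    rcases t with _ | t | t
    · show 1 * q o = 1
      rw [hq, one_mul]
    · show u t * q o = u t
      rw [hq, mul_one]
    · show 1 * q (s t) = q (s t)
      rw [one_mul]
  rw [h2] at h1
  exact h1.trans (le_of_eq (logHeight_fun_mul_eq hx hy))

/-- The height of the linear form. -/
private theorem C6b_height {l k : ℕ} [DecidableEq ι] (o : ι) (s : Fin (k + 1) → ι) (f : Fin l → B)
    (G : MvPolynomial (Fin l ⊕ Fin (k + 1)) ℚ) (C₀ : ℝ) :
    ∃ C : ℝ, ∀ᶠ i in (X.U : Filter ℕ), ∀ q : ι → ℚ, q o = 1 → logHeight q ≤ C₀ * X.h i →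
      logHeight (fun b : ι => ∑ a, MvPolynomial.eval (Sum.elim (fun a => X.ev (f a) i) fun a => q (s a))
        (MvPolynomial.pderiv (Sum.inr a) G) *
          ((if s a = b then 1 else 0) - q (s a) * (if o = b then 1 else 0))) ≤ C * X.h i := by
  obtain ⟨C₁, hC₁⟩ := lm_bdd X (fun t : Option (Fin l) => t.elim (1 : B) f)
  let P : ι → MvPolynomial (Fin l ⊕ Fin (k + 1)) ℚ := fun b =>
    ∑ a, MvPolynomial.pderiv (Sum.inr a) G *
      (MvPolynomial.C (if s a = b then 1 else 0) -
        MvPolynomial.X (Sum.inr a) * MvPolynomial.C (if o = b then 1 else 0))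
  obtain ⟨D, C₂, hD, hP⟩ := logHeight_poly_le P
  refine ⟨D * (C₁ + C₀) + |C₂|, ?_⟩
  filter_upwards [hC₁, ev_one X, X.top.eventually_ge_atTop 1] with i h1 h2 h3 q hq hq2
  have h4 := hP (Sum.elim (fun a => X.ev (f a) i) fun a => q (s a))
  have h5 : (fun b => MvPolynomial.eval (Sum.elim (fun a => X.ev (f a) i) fun a => q (s a)) (P b)) =
      fun b : ι => ∑ a, MvPolynomial.eval (Sum.elim (fun a => X.ev (f a) i) fun a => q (s a))
        (MvPolynomial.pderiv (Sum.inr a) G) *
          ((if s a = b then 1 else 0) - q (s a) * (if o = b then 1 else 0)) := by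
    funext b
    simp only [P, map_sum, map_mul, map_sub, MvPolynomial.eval_C, MvPolynomial.eval_X, Sum.elim_inr]
  rw [h5] at h4
  refine h4.trans ?_
  have h6 := C6b_par o s (fun a => X.ev (f a) i) q hq
  have h7 : (fun t : Option (Fin l) => t.elim (1 : ℚ) fun a => X.ev (f a) i) =
      fun t : Option (Fin l) => X.ev (t.elim (1 : B) f) i := by
    funext t
    rcases t with _ | t
    · exact h2.symm
    · rfl
  rw [h7] at h6
  have h8 : logHeight (fun t : Option (Fin l ⊕ Fin (k + 1)) =>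
      t.elim 1 (Sum.elim (fun a => X.ev (f a) i) fun a => q (s a))) ≤ (C₁ + C₀) * X.h i := by
    rw [add_mul]
    exact h6.trans (add_le_add h1 hq2)
  have h9 := mul_le_mul_of_nonneg_left h8 hD
  have h10 : C₂ ≤ |C₂| * X.h i := by
    have h11 : |C₂| * 1 ≤ |C₂| * X.h i := mul_le_mul_of_nonneg_left h3 (abs_nonneg _)
    have h12 := le_abs_self C₂
    linarith
  have h11 : (D * (C₁ + C₀) + |C₂|) * X.h i = D * ((C₁ + C₀) * X.h i) + |C₂| * X.h i := by ring
  rw [h11]
  exact add_le_add h9 h10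

/-- A configuration which is not full has a large subset in a configuration of smaller dimension.

PROOF: `exists_rel_lg` gives `l`, `f`, `S₁`, `G`, `j`. `F' = range f`. For `q` let `φ i q : ι → ℚ` be the linear form
`v ↦ ∑ a, ∂_a G (v (s a) - q (s a) * v o)`, `∂_a G = eval (Sum.elim (ev f) (q ∘ s)) (pderiv (inr a) G)`, and
`V' i q = cut (V i q) (φ i q)`. It contains `q` (`q o = 1`). It has dimension `k + 1`: `finrank_cut`, where some `v ∈ V i q` is
not in the kernel: the map from `V i q` to its coordinates `os o s` is injective (`Opt`) and `finrank = k + 2`, so it is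
onto: take `v` with `v o = 0`, `v (s a) = 1` if `a = j` and zero otherwise (note that `Opt` forces `os o s` to be injective).
Heights: `hPl_cut` and `logHeight (φ i q) ≤ C' * X.h i` (polynomial expressions in numbers of height `≤ C h`: every
entry is the value of a polynomial at `q (s ·)`, `X.ev (f ·) i`; bound of `logHeight` for families of polynomials, as
`logHeight_poly_le` in FQ/X13). `exists_opt` with `κ = Fin (k + 1)`, `t = s` gives `s'` for every `q`; `lg_pigeon` makes `s'`
constant on a large subset `S'`. `cls` for the coordinates `s (s' j)`. `der`: for `E ⊇ F'` and `D` with `D (f j) = 0`,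
`der_rel` (applied to `p`, for which `G(f, p_s) = 0` by `ev_eq`, `ev_aeval`): `∑ a, ∂_a G (f, p_s) * D (p (s a)) = 0` and
`D (p o) = 0` (since `p o = 1`), so the form `φ` vanishes at `D p` at almost all `i`. -/
theorem drop {k : ℕ} {F : Set B} {S : ℕ → Finset (ι → ℚ)}
    {V : ℕ → (ι → ℚ) → Submodule ℚ (ι → ℚ)} {N : ℕ → ℕ} {s : Fin (k + 1) → ι} {σ : ℝ}
    (hc : Cfg X o (k + 1) F S V N s σ) (hn : ¬ Full X F S s) :
    ∃ (F' : Set B) (S' : ℕ → Finset (ι → ℚ)) (V' : ℕ → (ι → ℚ) → Submodule ℚ (ι → ℚ)) (s' : Fin k → ι),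
      F ⊆ F' ∧ Lg X S' S ∧ Cfg X o k F' S' V' N s' σ ∧
        ∀ᶠ i in (X.U : Filter ℕ), ∀ p ∈ S' i, V' i p ≤ V i p := by
  classical
  obtain ⟨l, f, S₁, G, j, hF, hLg, hrel⟩ := exists_rel_lg X hc hn
  let dG : Fin (k + 1) → ℕ → (ι → ℚ) → ℚ := fun a i q =>
    MvPolynomial.eval (Sum.elim (fun a => X.ev (f a) i) fun a => q (s a))
      (MvPolynomial.pderiv (Sum.inr a) G)
  let φ : ℕ → (ι → ℚ) → ι → ℚ := fun i q b =>
    ∑ a, dG a i q * ((if s a = b then 1 else 0) - q (s a) * (if o = b then 1 else 0))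
  have hφ : ∀ (i : ℕ) (q v : ι → ℚ), ∑ b, φ i q b * v b = ∑ a, dG a i q * (v (s a) - q (s a) * v o) :=
    fun i q v => C6b_sum o s (fun a => dG a i q) q v
  let V' : ℕ → (ι → ℚ) → Submodule ℚ (ι → ℚ) := fun i q => cut (V i q) (φ i q)
  have hpt : ∀ᶠ i in (X.U : Filter ℕ), ∀ q ∈ S₁ i, q o = 1 ∧ (∀ a, padicNorm 2 (q a) ≤ 1) ∧
      q ∈ V' i q ∧ Module.finrank ℚ (V' i q) = k + 1 ∧ Opt o s (V' i q) ∧
      ∃ v ∈ V i q, ∑ b, φ i q b * v b ≠ 0 := by
    filter_upwards [hLg.1, hc.pt, hrel] with i h1 h2 h3 q hq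
    obtain ⟨h4, h5, h6, h7, h8⟩ := h2 q (h1 hq)
    have h9 : ∃ v ∈ V i q, ∑ b, φ i q b * v b ≠ 0 := by
      obtain ⟨v, hv, hvb⟩ := C6b_surj h8 h7 (fun b => b.elim 0 fun a => if a = j then 1 else 0)
      refine ⟨v, hv, ?_⟩
      have h10 : v o = 0 := hvb none
      have h11 : ∀ a, v (s a) = if a = j then 1 else 0 := fun a => hvb (some a)
      rw [hφ]
      simp only [h10, h11, mul_zero, sub_zero, mul_ite, mul_one]
      rw [Finset.sum_ite_eq', if_pos (Finset.mem_univ j)]
      exact (h3 q hq).2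
    refine ⟨h4, h5, ?_, ?_, fun v hv a => h8 v ((mem_cut _ _ _).1 hv).1 a, h9⟩
    · refine (mem_cut _ _ _).2 ⟨h6, ?_⟩
      rw [hφ]
      refine Finset.sum_eq_zero fun a _ => ?_
      rw [h4, mul_one, sub_self, mul_zero]
    · have h10 := finrank_cut (V i q) (φ i q) h9
      rw [h7] at h10
      exact Nat.add_right_cancel h10
  have hsel : ∀ i q, ∃ s' : Fin k → Fin (k + 1), (q o = 1 ∧ (∀ a, padicNorm 2 (q a) ≤ 1) ∧
      q ∈ V' i q ∧ Module.finrank ℚ (V' i q) = k + 1 ∧ Opt o s (V' i q)) →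
      Opt o (fun j => s (s' j)) (V' i q) := by
    intro i q
    by_cases h : q o = 1 ∧ (∀ a, padicNorm 2 (q a) ≤ 1) ∧
      q ∈ V' i q ∧ Module.finrank ℚ (V' i q) = k + 1 ∧ Opt o s (V' i q)
    · obtain ⟨h1, h2, h3, h4, h5⟩ := h
      obtain ⟨s', hs'⟩ := exists_opt o s (V' i q) h4 (fun v hv a => h5 v hv a) q h3 h1 h2
      exact ⟨s', fun _ => hs'⟩
    · exact ⟨fun _ => 0, fun h' => absurd h' h⟩
  choose g hg using hsel
  obtain ⟨b, S', hS', hmem⟩ : ∃ (b : Fin k → Fin (k + 1)) (S' : ℕ → Finset (ι → ℚ)), Lg X S' S₁ ∧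
      ∀ i, ∀ p ∈ S' i, p ∈ S₁ i ∧ g i p = b := by
    obtain ⟨b, hb⟩ := lg_pigeon X S₁ g
    refine ⟨b, _, hb, fun i p hp => ?_⟩
    exact (@Finset.mem_filter _ (fun q => g i q = b) (fun _ => Classical.propDecidable _) _ _).1 hp
  have hLg' : Lg X S' S := Lg.trans X hS' hLg
  refine ⟨Set.range f, S', V', fun j => s (b j), hF, hLg', ?_, ?_⟩
  · refine ⟨Set.finite_range f, ?_, ?_, ?_, hc.scale, ?_⟩
    · obtain ⟨C₀, hC₀⟩ := hc.hgt
      obtain ⟨C₁, hC₁⟩ := C6b_height X o s f G C₀
      obtain ⟨C₂, hC₂⟩ := hPl_cut ι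
      refine ⟨|C₀| + |C₁| + |C₂|, ?_⟩
      filter_upwards [hC₀, hC₁, hLg.1, hpt, X.top.eventually_ge_atTop 1] with i h1 h2 h3 h4 h5 p hp
      have hp1 := (hmem i p hp).1
      obtain ⟨h6, h7⟩ := h1 p (h3 hp1)
      obtain ⟨h8, -, -, -, -, h9⟩ := h4 p hp1
      have h10 : logHeight (φ i p) ≤ C₁ * X.h i := h2 p h8 h6
      have h11 : hPl (V' i p) ≤ hPl (V i p) + logHeight (φ i p) + C₂ := hC₂ _ _ h9
      have hh : 0 ≤ X.h i := by linarith
      have a0 : C₀ * X.h i ≤ |C₀| * X.h i := mul_le_mul_of_nonneg_right (le_abs_self _) hh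
      have a1 : C₁ * X.h i ≤ |C₁| * X.h i := mul_le_mul_of_nonneg_right (le_abs_self _) hh
      have a2 : C₂ ≤ |C₂| * X.h i := by
        have h12 : |C₂| * 1 ≤ |C₂| * X.h i := mul_le_mul_of_nonneg_left h5 (abs_nonneg _)
        have h13 := le_abs_self C₂
        linarith
      have a3 : 0 ≤ |C₁| * X.h i := mul_nonneg (abs_nonneg _) hh
      have a4 : 0 ≤ |C₂| * X.h i := mul_nonneg (abs_nonneg _) hh
      rw [add_mul, add_mul]
      constructor <;> linarith
    · filter_upwards [hpt] with i h1 p hp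
      obtain ⟨hp1, hp2⟩ := hmem i p hp
      obtain ⟨h2, h3, h4, h5, h6, -⟩ := h1 p hp1
      refine ⟨h2, h3, h4, h5, ?_⟩
      have h7 := hg i p ⟨h2, h3, h4, h5, h6⟩
      rw [hp2] at h7
      exact h7
    · filter_upwards [hc.cls, hLg'.1] with i h1 h2 p hp q hq j
      exact h1 p (h2 hp) q (h2 hq) (b j)
    · intro E p hp hFE D hD
      have hpS : Mem X S (fun a => (p a : B)) := Mem.mono X hp hLg'.1
      have hV := hc.der E p hpS (hF.trans hFE) D (fun t ht => hD t (hF ht))
      have hfE : ∀ a, f a ∈ E := fun a => hFE ⟨a, rfl⟩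
      have hpo : (p o : B) = 1 := by
        refine (ev_eq X).1 ?_
        filter_upwards [hp, hpt, ev_one X] with i h1 h2 h3
        rw [h3]
        exact (h2 _ (hmem i _ h1).1).1
      have hDo : D (p o) = 0 := by
        have h1 : p o = 1 := Subtype.ext hpo
        rw [h1, D.map_one_eq_zero]
      have hG : MvPolynomial.aeval (Sum.elim (fun a => ((⟨f a, hfE a⟩ : E) : B)) fun a => (p (s a) : B)) G = 0 := by
        refine (ev_eq X).1 ?_
        filter_upwards [hp, hrel, ev_zero X, ev_aeval X (Sum.elim (fun a => ((⟨f a, hfE a⟩ : E) : B))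
          fun a => (p (s a) : B)) G] with i h1 h2 h3 h4
        rw [h3, h4]
        have h5 := (h2 _ (hmem i _ h1).1).1
        have h6 : (fun t => X.ev (Sum.elim (fun a => ((⟨f a, hfE a⟩ : E) : B))
            (fun a => (p (s a) : B)) t) i) =
            Sum.elim (fun a => X.ev (f a) i) fun a => evv X (fun a => (p a : B)) i (s a) := by
          funext t
          rcases t with t | t <;> rfl
        rw [h6]
        exact h5
      have hrel2 := der_rel E D (fun a => (⟨f a, hfE a⟩ : E)) (fun a => hD _ ⟨a, rfl⟩)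
        (fun a => p (s a)) G hG
      have hsum := ev_sum X Finset.univ fun a : Fin (k + 1) =>
        MvPolynomial.aeval (Sum.elim (fun a => ((⟨f a, hfE a⟩ : E) : B)) fun a => (p (s a) : B))
          (MvPolynomial.pderiv (Sum.inr a) G) * D (p (s a))
      have hterm : ∀ a : Fin (k + 1), ∀ᶠ i in (X.U : Filter ℕ),
          X.ev (MvPolynomial.aeval (Sum.elim (fun a => ((⟨f a, hfE a⟩ : E) : B)) fun a => (p (s a) : B))
            (MvPolynomial.pderiv (Sum.inr a) G) * D (p (s a))) i =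
          dG a i (evv X (fun a => (p a : B)) i) * X.ev (D (p (s a))) i := by
        intro a
        filter_upwards [X.mul (MvPolynomial.aeval (Sum.elim (fun a => ((⟨f a, hfE a⟩ : E) : B))
          fun a => (p (s a) : B)) (MvPolynomial.pderiv (Sum.inr a) G)) (D (p (s a))),
          ev_aeval X (Sum.elim (fun a => ((⟨f a, hfE a⟩ : E) : B)) fun a => (p (s a) : B))
            (MvPolynomial.pderiv (Sum.inr a) G)] with i h1 h2
        have h6 : (fun t => X.ev (Sum.elim (fun a => ((⟨f a, hfE a⟩ : E) : B))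
            (fun a => (p (s a) : B)) t) i) =
            Sum.elim (fun a => X.ev (f a) i) fun a => evv X (fun a => (p a : B)) i (s a) := by
          funext t
          rcases t with t | t <;> rfl
        rw [h1, h2, h6]
      have hterm' := Filter.eventually_all.2 hterm
      filter_upwards [hV, hsum, hterm', ev_zero X] with i h1 h2 h3 h4
      refine (mem_cut _ _ _).2 ⟨h1, ?_⟩
      rw [hφ]
      have h5 : evv X (fun a => D (p a)) i o = 0 := by
        show X.ev (D (p o)) i = 0
        rw [hDo, h4]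
      rw [h5]
      simp only [mul_zero, sub_zero]
      have h6 : ∑ a, dG a i (evv X (fun a => (p a : B)) i) * X.ev (D (p (s a))) i = 0 := by
        rw [← Finset.sum_congr rfl fun a _ => h3 a, ← h2, hrel2, h4]
      exact h6
  · exact Filter.Eventually.of_forall fun i p _ => inf_le_left

end

end Pool.Agent.Lib.MP_17a322_nt.MV
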