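import Pool.Agent.Lib.MP_17a322_nt.MV.C1a
import Pool.Agent.Lib.MP_17a322_nt.MV.A5

/-!
Configurations of dimension zero.
-/

namespace Pool.Agent.Lib.MP_17a322_nt.MV

open Height
open Pool.Agent.Lib.MP_17a322_nt.EQ
open Pool.Agent.Lib.MP_17a322_nt.FQ

section

variable {B : Type} [Field B] [Algebra ℚ B] (X : Evl ℚ B ℕ) {ι : Type} [Fintype ι] {o : ι}

/-- A derivation, composed with a ring homomorphism. -/
private theorem C6c_comp {E B : Type} [CommRing E] [CommRing B] {aE : Algebra ℚ E} {mE : Module ℚ E}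
    {mB : Module ℚ B} {mEB : Module E B} (φ : E →+* B) (hφ : ∀ (x : E) (y : B), x • y = φ x * y)
    (D : @Derivation ℚ E E _ _ _ aE _ mE) :
    ∃ D' : @Derivation ℚ E B _ _ _ aE mEB mB, ∀ t, D' t = φ (D t) := by
  let H : E →+ B := φ.toAddMonoidHom.comp D.toLinearMap.toAddMonoidHom
  refine ⟨Derivation.mk' (@LinearMap.mk ℚ ℚ _ _ (RingHom.id ℚ) E B _ _ aE.toModule mB (AddHom.mk H H.map_add)
    (fun c x => @map_rat_smul E B _ _ aE.toModule mB _ _ _ H c x)) ?_, fun t => rfl⟩
  intro x y
  change φ (D (x * y)) = x • φ (D y) + y • φ (D x)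
  rw [Derivation.leibniz, map_add, smul_eq_mul, smul_eq_mul, map_mul, map_mul, hφ, hφ]

/-- Every coordinate of a point is algebraic. -/
private theorem C6c_alg {F : Set B} {S : ℕ → Finset (ι → ℚ)}
    {V : ℕ → (ι → ℚ) → Submodule ℚ (ι → ℚ)} {N : ℕ → ℕ} {s : Fin 0 → ι} {σ : ℝ}
    (hc : Cfg X o 0 F S V N s σ) {p : ι → B} (hp : Mem X S p) (a : ι) :
    IsAlgebraic (IntermediateField.adjoin ℚ F) (p a) := by
  by_contra ha
  have hfin := hc.fin
  have : Finite F := hfin
  obtain ⟨n, ⟨eF⟩⟩ := Finite.exists_equiv_fin F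
  let f : Fin n → B := fun j => (eF.symm j : B)
  have hfr : Set.range f = F := by
    ext x
    constructor
    · rintro ⟨j, rfl⟩
      exact (eF.symm j).2
    · intro hx
      exact ⟨eF ⟨x, hx⟩, by simp [f]⟩
  let E : IntermediateField ℚ B := IntermediateField.adjoin ℚ (F ∪ Set.range p)
  have hFE : F ⊆ E := fun x hx => IntermediateField.subset_adjoin ℚ _ (Or.inl hx)
  have hpE : ∀ b, p b ∈ E := fun b => IntermediateField.subset_adjoin ℚ _ (Or.inr ⟨b, rfl⟩)
  have hind : AlgebraicIndependent (IntermediateField.adjoin ℚ (Set.range f)) (fun _ : Unit => p a) := by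
    rw [hfr]
    exact (algebraicIndependent_unique_type_iff (x := fun _ : Unit => p a)).mpr ha
  obtain ⟨D, hD0, hD1⟩ := der_exists E f (fun j => hFE (eF.symm j).2) (fun _ : Unit => p a)
    (fun _ => hpE a) hind (fun _ => 1)
  obtain ⟨D', hD'⟩ : ∃ D' : Derivation ℚ E B, ∀ t : E, D' t = ((D t : E) : B) :=
    C6c_comp (algebraMap E B) (fun x y => rfl) D
  let q : ι → E := fun b => ⟨p b, hpE b⟩
  have hqp : (fun b => ((q b : E) : B)) = p := rfl
  have h1 := hc.der E q (by rw [hqp]; exact hp) hFE D' (by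
    intro t ht
    have h2 : t = ⟨f (eF ⟨(t : B), ht⟩), hFE (eF.symm _).2⟩ := by
      apply Subtype.ext
      simp [f]
    rw [hD', h2, hD0]
    rfl)
  rw [hqp] at h1
  have hpo : p o = 1 := by
    rw [← ev_eq X]
    filter_upwards [hc.pt, hp, ev_one X] with i h2 h3 h4
    rw [h4]
    exact (h2 _ h3).1
  have hDo : D' (q o) = 0 := by
    have h2 : q o = 1 := Subtype.ext hpo
    rw [h2, Derivation.map_one_eq_zero]
  have hDa : D' (q a) = 1 := by
    rw [hD']
    have h2 : D (q a) = 1 := hD1 ()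
    rw [h2]
    rfl
  have h5 : ∀ᶠ i in (X.U : Filter ℕ), False := by
    filter_upwards [h1, hc.pt, hp, ev_zero X, ev_one X] with i h2 h3 h4 h6 h7
    obtain ⟨g1, -, g3, g4, -⟩ := h3 _ h4
    have g5 : evv X p i ≠ 0 := by
      intro h8
      have := congrFun h8 o
      rw [g1] at this
      exact one_ne_zero this
    have g6 : Module.finrank ℚ (V i (evv X p i)) = 1 := by
      rw [g4]
    have g7 : (⟨evv X p i, g3⟩ : V i (evv X p i)) ≠ 0 := by
      intro h8
      exact g5 (congrArg Subtype.val h8)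
    obtain ⟨l, hl⟩ := (finrank_eq_one_iff_of_nonzero' _ g7).mp g6 ⟨_, h2⟩
    have h8 : ∀ b, l * evv X p i b = X.ev (D' (q b)) i := fun b => congrFun (congrArg Subtype.val hl) b
    have h9 := h8 o
    rw [g1, hDo, h6, mul_one] at h9
    have h10 := h8 a
    rw [h9, zero_mul, hDa, h7] at h10
    exact zero_ne_one h10
  exact h5.exists.elim fun _ h => h

omit [Fintype ι] in
private theorem C6c_countable [Finite ι] {F : Set B} (hF : F.Finite) (P : Set (ι → B))
    (hP : ∀ p ∈ P, ∀ a, IsAlgebraic (IntermediateField.adjoin ℚ F) (p a)) : P.Countable := by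
  have : Countable (IntermediateField.adjoin ℚ F) := by
    have h1 := IntermediateField.cardinalMk_adjoin_le ℚ F
    have h2 : Cardinal.mk F ≤ Cardinal.aleph0 := hF.countable.le_aleph0
    have h3 : Cardinal.mk ℚ ≤ Cardinal.aleph0 := Cardinal.mk_le_aleph0
    rw [← Cardinal.mk_le_aleph0_iff]
    exact h1.trans (max_le (max_le h3 h2) le_rfl)
  have h4 : Set.Countable {x : B | IsAlgebraic (IntermediateField.adjoin ℚ F) x} :=
    Algebraic.countable _ _
  have h5 : Set.Countable (Set.pi Set.univ fun _ : ι => {x : B | IsAlgebraic (IntermediateField.adjoin ℚ F) x}) :=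
    Set.countable_univ_pi fun _ => h4
  exact h5.mono fun p hp => Set.mem_univ_pi.mpr fun a => hP p hp a

/-- In dimension zero there are only boundedly many points.

PROOF: `V i p` is the line spanned by `p`. For a point `p` of `S` every coordinate `p a` is algebraic over
`K = adjoin ℚ F`: otherwise `AlgebraicIndependent K ![p a]`, and `der_exists` (MV/A5) for `E = adjoin ℚ (F ∪ range p)` gives
`D` with `D (F) = 0`, `D (p a) = 1`; by `Cfg.der` the vector `D p` is at almost all `i` a multiple of `p` and zero at `o`, where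
`p o = 1`, so it is zero. So the set of the points of `S` is countable: `K` is countable (finitely generated over `ℚ`) and
so is its algebraic closure in `B` (`Algebra.IsAlgebraic.cardinalMk_le_max` or countably many polynomials with finitely
many roots). Let `p_j` be an enumeration; `sat` with `A j i = {evv X p_j i}` gives `m` with `|S i| ≤ m` eventually, in
contradiction to `Big X S c` (`exp (c / 2 * h i) → ∞`). -/
theorem cfg_zero {F : Set B} {S : ℕ → Finset (ι → ℚ)}
    {V : ℕ → (ι → ℚ) → Submodule ℚ (ι → ℚ)} {N : ℕ → ℕ} {s : Fin 0 → ι} {σ c : ℝ}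
    (hc : Cfg X o 0 F S V N s σ) (hb : Big X S c) (h0 : 0 < c) : False := by
  classical
  have hcnt : Set.Countable {p : ι → B | Mem X S p} :=
    C6c_countable hc.fin _ fun p hp a => C6c_alg X hc hp a
  have : Countable {p : ι → B | Mem X S p} := hcnt
  obtain ⟨e, he⟩ := exists_injective_nat {p : ι → B | Mem X S p}
  obtain ⟨C, hC⟩ := hc.hgt
  obtain ⟨m, hm⟩ := sat X o S ⟨C, by
      filter_upwards [hC, hc.pt] with i h1 h2 p hp
      exact ⟨(h1 p hp).1, (h2 p hp).1⟩⟩
    (fun j i => {x | ∃ p : {p : ι → B | Mem X S p}, e p = j ∧ evv X p i = x})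
    (fun p hp => ⟨e ⟨p, hp⟩, Filter.Eventually.of_forall fun i => ⟨⟨p, hp⟩, rfl, rfl⟩⟩)
  have hcard : ∀ᶠ i in (X.U : Filter ℕ), (S i).card ≤ m := by
    filter_upwards [hm] with i hi
    choose! g hg1 hg2 using hi
    have h1 : Set.InjOn g (S i) := by
      intro x hx y hy hxy
      obtain ⟨p, hp1, hp2⟩ := hg2 x hx
      obtain ⟨p', hp1', hp2'⟩ := hg2 y hy
      have h3 : p = p' := he (by rw [hp1, hp1', hxy])
      rw [← hp2, ← hp2', h3]
    have h2 := Finset.card_le_card_of_injOn (t := Finset.range m) g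
      (fun x hx => Finset.mem_coe.mpr (Finset.mem_range.mpr (hg1 x hx))) h1
    rwa [Finset.card_range] at h2
  have hbig := hb (c / 2) (by linarith)
  have htop : Filter.Tendsto (fun i => c / 2 * X.h i) (X.U : Filter ℕ) Filter.atTop :=
    Filter.Tendsto.const_mul_atTop (by linarith) X.top
  have h1 := htop.eventually_gt_atTop (m : ℝ)
  have h2 : ∀ᶠ i in (X.U : Filter ℕ), False := by
    filter_upwards [hcard, hbig, h1] with i g1 g2 g3
    have g4 : ((S i).card : ℝ) ≤ m := by exact_mod_cast g1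
    have g5 := Real.add_one_le_exp (c / 2 * X.h i)
    linarith
  exact h2.exists.elim fun _ h => h

end

end Pool.Agent.Lib.MP_17a322_nt.MV
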