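import Pool.Agent.Lib.MP_17a322_nt.MV.C0

/-!
Rounding.
-/

namespace Pool.Agent.Lib.MP_17a322_nt.MV

open Height
open Pool.Agent.Lib.MP_17a322_nt.EQ
open Pool.Agent.Lib.MP_17a322_nt.FQ

section

variable {B : Type} [Field B] [Algebra ℚ B] (X : Evl ℚ B ℕ) {ι : Type} [Fintype ι] {o : ι}

/-- Rounding of `kap`. PROOF: `|kap (V i p) p| ≤ C h i` with some `C` (`Cfg.hgt`, `logHeight_nonneg`, `hPl` is not
negative); `lg_pigeon` with `g i p = ⌊(-kap (V i p) p / h i + C) / η⌋₊` in `Fin (M + 1)`. -/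
theorem round {k : ℕ} {F : Set B} {S : ℕ → Finset (ι → ℚ)} {V : ℕ → (ι → ℚ) → Submodule ℚ (ι → ℚ)} {N : ℕ → ℕ}
    {s : Fin k → ι} {σ η : ℝ} (hc : Cfg X o k F S V N s σ) (hη : 0 < η) :
    ∃ (S' : ℕ → Finset (ι → ℚ)) (t : ℝ), Lg X S' S ∧ ∀ᶠ i in (X.U : Filter ℕ), ∀ p ∈ S' i,
      (t - η) * X.h i ≤ -kap (V i p) p ∧ -kap (V i p) p ≤ t * X.h i := by
  classical
  obtain ⟨C, hC⟩ := hc.hgt
  set D : ℝ := (k + 1) * |C| + 1 with hD
  have hD0 : 0 < D := by positivity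
  have hCD : |C| ≤ D := by
    rw [hD]
    have h1 : 0 ≤ |C| := abs_nonneg C
    have h2 : (0 : ℝ) ≤ k := Nat.cast_nonneg k
    nlinarith
  set M : ℕ := ⌊(D + D) / η⌋₊ with hM
  have hb : ∀ᶠ i in (X.U : Filter ℕ), ∀ p ∈ S i, 0 < X.h i ∧ -D * X.h i ≤ -kap (V i p) p ∧
      -kap (V i p) p ≤ D * X.h i := by
    filter_upwards [hC, hc.pt, X.top.eventually_gt_atTop 0] with i h1 h2 h3 p hp
    obtain ⟨h4, h5⟩ := h1 p hp
    obtain ⟨-, -, -, h6, -⟩ := h2 p hp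
    have h7 : 0 ≤ logHeight p := logHeight_nonneg p
    have h8 : 0 ≤ hPl (V i p) := logHeight_nonneg _
    have h9 : C ≤ |C| := le_abs_self C
    have h10 : C * X.h i ≤ |C| * X.h i := mul_le_mul_of_nonneg_right h9 h3.le
    have h11 : kap (V i p) p = hPl (V i p) - (k + 1) * logHeight p := by
      rw [kap, h6]
      push_cast
      ring
    have h12 : (0 : ℝ) ≤ k := Nat.cast_nonneg k
    refine ⟨h3, ?_, ?_⟩
    · rw [h11]
      have h13 : |C| * X.h i ≤ D * X.h i := mul_le_mul_of_nonneg_right hCD h3.le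
      have h14 : 0 ≤ ((k : ℝ) + 1) * logHeight p := by positivity
      linarith
    · rw [h11, hD]
      have h13 : ((k : ℝ) + 1) * logHeight p ≤ (k + 1) * (|C| * X.h i) :=
        mul_le_mul_of_nonneg_left (h4.trans h10) (by positivity)
      linarith
  obtain ⟨a, ha⟩ := lg_pigeon X S (α := Fin (M + 1)) fun i p =>
    ⟨min M ⌊(-kap (V i p) p / X.h i + D) / η⌋₊, Nat.lt_succ_of_le (min_le_left _ _)⟩
  refine ⟨_, (a : ℕ) * η + η - D, ha, ?_⟩
  filter_upwards [hb] with i hi p hp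
  obtain ⟨hp1, hp2⟩ := (@Finset.mem_filter _ _ (_) _ _).1 hp
  obtain ⟨h3, h4, h5⟩ := hi p hp1
  have h6 : min M ⌊(-kap (V i p) p / X.h i + D) / η⌋₊ = a := congrArg Fin.val hp2
  have h7 : -D ≤ -kap (V i p) p / X.h i := (le_div_iff₀ h3).2 h4
  have h8 : -kap (V i p) p / X.h i ≤ D := (div_le_iff₀ h3).2 h5
  have h9 : 0 ≤ (-kap (V i p) p / X.h i + D) / η := div_nonneg (by linarith) hη.le
  have h10 : ⌊(-kap (V i p) p / X.h i + D) / η⌋₊ ≤ M :=
    Nat.floor_le_floor (div_le_div_of_nonneg_right (by linarith) hη.le)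
  rw [min_eq_right h10] at h6
  have h11 := Nat.floor_le h9
  have h12 := Nat.lt_floor_add_one ((-kap (V i p) p / X.h i + D) / η)
  rw [h6] at h11 h12
  rw [le_div_iff₀ hη] at h11
  rw [div_lt_iff₀ hη] at h12
  constructor
  · rw [← le_div_iff₀ h3]
    linarith
  · rw [← div_le_iff₀ h3]
    linarith

end

end Pool.Agent.Lib.MP_17a322_nt.MV
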