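import Pool.Agent.Lib.MP_17a322_nt.MV.C8a
import Pool.Agent.Lib.MP_17a322_nt.MV.C6b
import Pool.Agent.Lib.MP_17a322_nt.MV.C6c

/-!
Full pieces.
-/

namespace Pool.Agent.Lib.MP_17a322_nt.MV

open Height
open Pool.Agent.Lib.MP_17a322_nt.EQ
open Pool.Agent.Lib.MP_17a322_nt.FQ

section

variable {B : Type} [Field B] [Algebra ℚ B] (X : Evl ℚ B ℕ) {ι : Type} [Fintype ι] {o : ι}

/-- Every configuration has a large subset which is full in its dimension or in a configuration of smaller dimension.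

PROOF: induction on `k`. If `Full X F S s`: the first case with `F' = F`, `S' = S`. Otherwise `k = k₁ + 1` (for `k = 0`:
`cfg_zero` contradicts `hb`), `drop` gives a configuration of dimension `k₁`, `Big.lg`, and the induction hypothesis for it:
in its first case apply `round` (`Full.mono`, `Cfg.mono`) and take the second case with `k' = k₁`; in its second case
combine (`Lg.trans`, `V'' ≤ V' ≤ V`). -/
theorem full_piece {k : ℕ} {F : Set B} {S : ℕ → Finset (ι → ℚ)} {V : ℕ → (ι → ℚ) → Submodule ℚ (ι → ℚ)}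
    {N : ℕ → ℕ} {s : Fin k → ι} {σ c η : ℝ} (hc : Cfg X o k F S V N s σ) (hb : Big X S c) (h0 : 0 < c)
    (hη : 0 < η) :
    (∃ (F' : Set B) (S' : ℕ → Finset (ι → ℚ)), F ⊆ F' ∧ Lg X S' S ∧ Cfg X o k F' S' V N s σ ∧ Full X F' S' s) ∨
      ∃ k' < k, ∃ (F' : Set B) (S' : ℕ → Finset (ι → ℚ)) (V' : ℕ → (ι → ℚ) → Submodule ℚ (ι → ℚ))
        (s' : Fin k' → ι) (t' : ℝ), F ⊆ F' ∧ Lg X S' S ∧ Cfg X o k' F' S' V' N s' σ ∧ Full X F' S' s' ∧
          (∀ᶠ i in (X.U : Filter ℕ), ∀ p ∈ S' i, V' i p ≤ V i p) ∧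
          ∀ᶠ i in (X.U : Filter ℕ), ∀ p ∈ S' i,
            (t' - η) * X.h i ≤ -kap (V' i p) p ∧ -kap (V' i p) p ≤ t' * X.h i := by
  induction k generalizing F S V with
  | zero =>
    by_cases hf : Full X F S s
    · exact Or.inl ⟨F, S, subset_rfl, Lg.refl X S, hc, hf⟩
    · exact (cfg_zero X hc hb h0).elim
  | succ k ih =>
    by_cases hf : Full X F S s
    · exact Or.inl ⟨F, S, subset_rfl, Lg.refl X S, hc, hf⟩
    · obtain ⟨F', S', V', s', hFF, hL, hc', hV⟩ := drop X hc hf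
      rcases ih hc' (Big.lg X hL hb) with ⟨F₂, S₂, hF2, hL2, hc2, hf2⟩ |
        ⟨k', hk', F₂, S₂, V₂, s₂, t', hF2, hL2, hc2, hf2, hV2, ht⟩
      · obtain ⟨S₃, t, hL3, ht⟩ := round X hc2 hη
        refine Or.inr ⟨k, Nat.lt_succ_self k, F₂, S₃, V', s', t, hFF.trans hF2,
          Lg.trans X hL3 (Lg.trans X hL2 hL), Cfg.mono X hc2 subset_rfl hc2.fin hL3.1,
          Full.mono X hf2 subset_rfl hL3, ?_, ht⟩
        filter_upwards [hV, hL2.1, hL3.1] with i h1 h2 h3 p hp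
        exact h1 p (h2 (h3 hp))
      · refine Or.inr ⟨k', hk'.trans (Nat.lt_succ_self k), F₂, S₂, V₂, s₂, t', hFF.trans hF2,
          Lg.trans X hL2 hL, hc2, hf2, ?_, ht⟩
        filter_upwards [hV, hL2.1, hV2] with i h1 h2 h3 p hp
        exact (h3 p hp).trans (h1 p (h2 hp))

end

end Pool.Agent.Lib.MP_17a322_nt.MV
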