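import Pool.Agent.Lib.MP_17a322_nt.MV.C1c
import Pool.Agent.Lib.MP_17a322_nt.MV.C2a
import Pool.Agent.Lib.MP_17a322_nt.MV.C2b

/-!
Generic subsets of full configurations.
-/

namespace Pool.Agent.Lib.MP_17a322_nt.MV

open Height
open Pool.Agent.Lib.MP_17a322_nt.EQ
open Pool.Agent.Lib.MP_17a322_nt.FQ

section

variable {B : Type} [Field B] [Algebra ℚ B] (X : Evl ℚ B ℕ) {ι : Type} [Fintype ι]

/-- The set of the points at which the polynomial `G` vanishes and its derivative does not. -/
private def C8c_R {l k : ℕ} (f : Fin l → B) (s : Fin k → ι) :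
    Option (MvPolynomial (Fin l ⊕ Fin k) ℚ × Fin k) → ℕ → Set (ι → ℚ)
  | none, _ => ∅
  | some (G, j), i => {q | MvPolynomial.eval (Sum.elim (fun a => X.ev (f a) i) fun b => q (s b)) G = 0 ∧
      MvPolynomial.eval (Sum.elim (fun a => X.ev (f a) i) fun b => q (s b))
        (MvPolynomial.pderiv (Sum.inr j) G) ≠ 0}

omit [Fintype ι] in
private theorem C8c_ev {l k : ℕ} (f : Fin l → B) (s : Fin k → ι) (p : ι → B)
    (G : MvPolynomial (Fin l ⊕ Fin k) ℚ) : ∀ᶠ i in (X.U : Filter ℕ),
      X.ev (MvPolynomial.aeval (Sum.elim f fun b => p (s b)) G) i =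
        MvPolynomial.eval (Sum.elim (fun a => X.ev (f a) i) fun b => evv X p i (s b)) G := by
  filter_upwards [ev_aeval X (Sum.elim f fun b => p (s b)) G] with i h
  rw [h]
  congr 2
  funext t
  rcases t with a | b
  · rfl
  · rfl

open Classical in
/-- A large subset of a full configuration all of whose points are independent over a given finite set.

PROOF: Let `f : Fin l → B` enumerate `F'`, and let `(G_n, j_n)` enumerate the pairs of a polynomial in
`MvPolynomial (Fin l ⊕ Fin k) ℚ` and `j : Fin k` (if `k = 0` the conclusion is trivial: the empty family is independent,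
`S' = S`). `A n i` = the set of the `q` with `G_n (ev f, q_s) = 0` and `(∂ G_n / ∂ Y_(j_n)) (ev f, q_s) ≠ 0`. No
`S ∩ A n` is `Lg` in `S`: otherwise `Full` gives `p ∈ S ∩ A n` with `Ind F'`, but `G_n (f, p_s) = 0` and the derivative is
not zero (`ev_aeval`, `ev_eq`), in contradiction to `not_ind_of_rel`. `avoid` gives `S'`; a point `p` of `S'` with
dependent coordinates has a relation by `exists_rel`, so it is in some `A n`, a contradiction. -/
theorem generic {k : ℕ} {F : Set B} {S : ℕ → Finset (ι → ℚ)} {s : Fin k → ι} (hf : Full X F S s) (F' : Set B)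
    (hF : F ⊆ F') (hfin : F'.Finite) : ∃ S', Lg X S' S ∧ ∀ p, Mem X S' p → Ind F' fun j => p (s j) := by
  obtain ⟨l, f, rfl⟩ : ∃ (l : ℕ) (f : Fin l → B), Set.range f = F' := by
    refine ⟨hfin.toFinset.card, fun j => ((hfin.toFinset.equivFin.symm j : hfin.toFinset) : B), ?_⟩
    ext x
    constructor
    · rintro ⟨j, rfl⟩
      exact hfin.mem_toFinset.1 (hfin.toFinset.equivFin.symm j).2
    · intro hx
      refine ⟨hfin.toFinset.equivFin ⟨x, hfin.mem_toFinset.2 hx⟩, ?_⟩
      simp only [Equiv.symm_apply_apply]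
  have hc : Countable (MvPolynomial (Fin l ⊕ Fin k) ℚ) := by
    rw [← Cardinal.mk_le_aleph0_iff]
    refine (MvPolynomial.cardinalMk_le_max (σ := Fin l ⊕ Fin k) (R := ℚ)).trans ?_
    simp
  obtain ⟨e, he⟩ := exists_surjective_nat (Option (MvPolynomial (Fin l ⊕ Fin k) ℚ × Fin k))
  obtain ⟨S', hS', hp⟩ := avoid X S (fun n i => C8c_R X f s (e n) i) (by
    intro n hn
    obtain ⟨p, hpm, hpi⟩ := hf (Set.range f) hF hfin _ hn
    have h1 : ∀ᶠ i in (X.U : Filter ℕ), evv X p i ∈ C8c_R X f s (e n) i := by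
      filter_upwards [hpm] with i hi
      exact (Finset.mem_filter.1 hi).2
    rcases hen : e n with _ | ⟨G, j⟩
    · rw [hen] at h1
      obtain ⟨i, hi⟩ := h1.exists
      exact hi
    · rw [hen] at h1
      refine not_ind_of_rel f (fun b => p (s b)) G ?_ j ?_ hpi
      · rw [← ev_eq X]
        filter_upwards [h1, C8c_ev X f s p G, ev_zero X] with i h2 h3 h4
        rw [h3, h4]
        exact h2.1
      · intro h0
        have h2 := C8c_ev X f s p (MvPolynomial.pderiv (Sum.inr j) G)
        rw [h0] at h2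
        obtain ⟨i, h3, h4, h5⟩ := (h1.and (h2.and (ev_zero X))).exists
        rw [h5] at h4
        exact h3.2 h4.symm)
  refine ⟨S', hS', fun p hpm => ?_⟩
  by_contra hni
  obtain ⟨G, h0, j, h1⟩ := exists_rel f (fun b => p (s b)) hni
  obtain ⟨n, hn⟩ := he (some (G, j))
  refine hp p hpm n ?_
  have h2 := C8c_ev X f s p G
  rw [h0] at h2
  filter_upwards [h2, ev_zero X, C8c_ev X f s p (MvPolynomial.pderiv (Sum.inr j) G), ev_ne X h1]
    with i h3 h4 h5 h6
  rw [hn]
  refine ⟨?_, ?_⟩
  · rw [← h3, h4]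
  · rw [← h5]
    exact h6

end

end Pool.Agent.Lib.MP_17a322_nt.MV
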