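import Pool.Agent.Lib.MP_17a322_nt.FQ.A6
import Pool.Agent.Lib.MP_17a322_nt.MV.B7
import Pool.Agent.Lib.MP_17a322_nt.MV.C8b
import Pool.Agent.Lib.MP_17a322_nt.MV.C8c
import Pool.Agent.Lib.MP_17a322_nt.MV.C10b

/-!
The bound for the number of the points of full configurations.
-/

namespace Pool.Agent.Lib.MP_17a322_nt.MV

open Height
open Pool.Agent.Lib.MP_17a322_nt.EQ
open Pool.Agent.Lib.MP_17a322_nt.FQ

section

variable {B : Type} [Field B] [Algebra ℚ B] (X : Evl ℚ B ℕ) {ι : Type} [Fintype ι] {o : ι}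

/-- `kap` of the line spanned by the point is zero. -/
private theorem d1_line (p : ι → ℚ) (hp : p ≠ 0) :
    Module.finrank ℚ (Submodule.span ℚ {p}) = 1 ∧ kap (Submodule.span ℚ {p}) p = 0 := by
  have h1 : Module.finrank ℚ (Submodule.span ℚ {p}) = 1 := finrank_span_singleton hp
  refine ⟨h1, ?_⟩
  have h2 : LinearIndependent ℚ fun _ : Unit => p := LinearIndependent.of_subsingleton () hp
  have h3 := hPl_span (fun _ : Unit => p) h2
  have h4 : (Set.range fun _ : Unit => p) = {p} := Set.range_const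
  rw [h4] at h3
  unfold kap
  rw [h3, h1]
  have h5 : logHeight (mns fun _ : Unit => p) = logHeight p := by
    refine le_antisymm ?_ ?_
    · have h6 : (mns fun _ : Unit => p) = fun s : Unit → ι => p (s ()) := by
        funext s
        unfold mns
        rw [Matrix.det_unique]
        rfl
      rw [h6]
      exact logHeight_comp_le (fun s : Unit → ι => s ()) p
    · have h6 : p = fun a => (mns fun _ : Unit => p) fun _ => a := by
        funext a
        unfold mns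
        rw [Matrix.det_unique]
        rfl
      conv_lhs => rw [h6]
      exact logHeight_comp_le (fun (a : ι) (_ : Unit) => a) (mns fun _ : Unit => p)
  rw [h5]
  push_cast
  ring

/-- The scales of full configurations are bounded. -/
private theorem d1_bound (hQ : SemiQ) {k : ℕ} {F : Set B} {S : ℕ → Finset (ι → ℚ)}
    {V : ℕ → (ι → ℚ) → Submodule ℚ (ι → ℚ)} {N : ℕ → ℕ} {s : Fin k → ι} {σ t : ℝ}
    (hc : Cfg X o k F S V N s σ) (hf : Full X F S s)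
    (ht : ∀ᶠ i in (X.U : Filter ℕ), ∀ p ∈ S i, -kap (V i p) p ≤ t * X.h i) : k * σ ≤ t := by
  by_contra hlt
  rw [not_le] at hlt
  refine lemQ X hQ hc (ε := k * σ - t) (by linarith) ?_
  intro F' hF hf'
  obtain ⟨p, hp, hi⟩ := hf F' hF hf' S (Lg.refl X S)
  refine ⟨p, fun i => Submodule.span ℚ {evv X p i}, 0, hp, hi, Nat.zero_le _, ?_⟩
  filter_upwards [hp, hc.pt, ht] with i h1 h2 h3
  obtain ⟨h4, -, h5, -, -⟩ := h2 _ h1
  have h6 : evv X p i ≠ 0 := by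
    intro h7
    rw [h7] at h4
    exact zero_ne_one h4
  obtain ⟨h8, h9⟩ := d1_line (evv X p i) h6
  refine ⟨?_, Submodule.mem_span_singleton_self _, h8, ?_⟩
  · rw [Submodule.span_singleton_le_iff_mem]
    exact h5
  · rw [h9]
    have h10 := h3 _ h1
    push_cast
    linarith

/-- A full configuration of dimension `k` and scale `σ` with `- kap ≤ t h` has at most `exp ((t - k σ) h)` points. -/
theorem claim (hQ : SemiQ) (k : ℕ) : ∀ {F : Set B} {S : ℕ → Finset (ι → ℚ)}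
    {V : ℕ → (ι → ℚ) → Submodule ℚ (ι → ℚ)} {N : ℕ → ℕ} {s : Fin k → ι} {σ t c : ℝ},
    Cfg X o k F S V N s σ → Full X F S s → Big X S c → 0 < c →
    (∀ᶠ i in (X.U : Filter ℕ), ∀ p ∈ S i, -kap (V i p) p ≤ t * X.h i) → c ≤ t - k * σ := by
  induction k using Nat.strong_induction_on with
  | _ k IH =>
  intro F S V N s σ t c hc hf hb h0 ht
  by_contra hlt
  rw [not_le] at hlt
  rcases Nat.eq_zero_or_pos k with hk0 | hk0
  · subst hk0
    exact cfg_zero X hc hb h0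
  have hk1 : (1 : ℝ) ≤ k := by exact_mod_cast hk0
  obtain ⟨ε, hε⟩ : ∃ ε : ℝ, ε = c - (t - k * σ) := ⟨_, rfl⟩
  have hε0 : 0 < ε := by linarith
  obtain ⟨η, hη⟩ : ∃ η : ℝ, η = ε / (2 * (k + 1)) := ⟨_, rfl⟩
  have hη0 : 0 < η := by
    rw [hη]
    positivity
  have hηk : (k + 1) * η = ε / 2 := by
    rw [hη]
    field_simp
  obtain ⟨P, hP⟩ : ∃ P : ℝ → Prop, ∀ σ₁, P σ₁ ↔ ∃ (F₁ : Set B) (S₁ : ℕ → Finset (ι → ℚ)) (N₁ : ℕ → ℕ),
      F ⊆ F₁ ∧ (∀ᶠ i in (X.U : Filter ℕ), S₁ i ⊆ S i) ∧ Cfg X o k F₁ S₁ V N₁ s σ₁ ∧ Full X F₁ S₁ s ∧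
        Big X S₁ (c - k * (σ₁ - σ)) := ⟨_, fun _ => Iff.rfl⟩
  have hP0 : P σ := by
    rw [hP]
    refine ⟨F, S, N, subset_rfl, Filter.Eventually.of_forall fun _ => subset_rfl, hc, hf, ?_⟩
    rw [sub_self, mul_zero, sub_zero]
    exact hb
  have hPb : ∀ σ₁, P σ₁ → k * σ₁ ≤ t := by
    intro σ₁ h1
    rw [hP] at h1
    obtain ⟨F₁, S₁, N₁, -, hS, hc₁, hf₁, -⟩ := h1
    refine d1_bound X hQ hc₁ hf₁ ?_
    filter_upwards [hS, ht] with i h2 h3 p hp
    exact h3 p (h2 hp)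
  obtain ⟨j, hj, hj'⟩ : ∃ j : ℕ, P (σ + j * η) ∧ ¬ P (σ + (j + 1 : ℕ) * η) := by
    by_contra hne
    push Not at hne
    have hall : ∀ j : ℕ, P (σ + j * η) := by
      intro j
      induction j with
      | zero => simpa using hP0
      | succ j ih => exact hne j ih
    obtain ⟨j, hj⟩ := exists_nat_gt ((t - k * σ) / (k * η))
    have h1 := hPb _ (hall j)
    have h2 : 0 < k * η := by positivity
    rw [div_lt_iff₀ h2] at hj
    have h3 : (k : ℝ) * (σ + j * η) = k * σ + j * (k * η) := by ring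
    linarith
  obtain ⟨σ₁, hσ₁⟩ : ∃ σ₁ : ℝ, σ₁ = σ + j * η := ⟨_, rfl⟩
  have hσ₂ : σ + (j + 1 : ℕ) * η = σ₁ + η := by
    rw [hσ₁]
    push_cast
    ring
  rw [hσ₂] at hj'
  rw [← hσ₁] at hj
  have hkt := hPb _ hj
  rw [hP] at hj
  obtain ⟨F₁, S₁, N₁, hFF, hSS, hc₁, hf₁, hb₁⟩ := hj
  obtain ⟨c₁, hc₁'⟩ : ∃ c₁ : ℝ, c₁ = c - k * (σ₁ - σ) := ⟨_, rfl⟩
  rw [← hc₁'] at hb₁
  have hce : c₁ = ε + t - k * σ₁ := by
    rw [hc₁', hε]
    ring
  have hkη : k * η < ε := by nlinarith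
  refine lemQ X hQ hc₁ (ε := ε / 2) (by linarith) ?_
  intro F' hF' hfin'
  obtain ⟨S₂, hL₂, hg₂⟩ := generic X hf₁ F' hF' hfin'
  have hc₂ : Cfg X o k F' S₂ V N₁ s σ₁ := hc₁.mono X hF' hfin' hL₂.1
  have hb₂ : Big X S₂ c₁ := Big.lg X hL₂ hb₁
  obtain ⟨S₃, N₃, hS₃, hc₃, hb₃⟩ := classes X hc₂ hη0 hb₂
  have hc30 : 0 < c₁ - k * η := by linarith
  rcases full_piece X hc₃ hb₃ hc30 hη0 with ⟨F₄, S₄, hF₄, hL₄, hc₄, hf₄⟩ |
      ⟨k', hk', F₄, S₄, V', s', t', hF₄, hL₄, hc₄, hf₄, hV', ht'⟩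
  · exfalso
    refine hj' ?_
    rw [hP]
    refine ⟨F₄, S₄, N₃, hFF.trans (hF'.trans hF₄), ?_, hc₄, hf₄, ?_⟩
    · filter_upwards [hSS, hL₂.1, hL₄.1] with i h1 h2 h3
      exact h3.trans ((hS₃ i).trans (h2.trans h1))
    · have h1 := Big.lg X hL₄ hb₃
      have h2 : c - k * (σ₁ + η - σ) = c₁ - k * η := by
        rw [hc₁']
        ring
      rw [h2]
      exact h1
  · have hb₄ : Big X S₄ (c₁ - k * η) := Big.lg X hL₄ hb₃
    have hIH := IH k' hk' hc₄ hf₄ hb₄ hc30 (by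
      filter_upwards [ht'] with i h1 p hp
      exact (h1 p hp).2)
    obtain ⟨p, hp⟩ := exists_mem X hc₄ hb₄
    have hp₂ : Mem X S₂ p := Mem.mono X hp (by
      filter_upwards [hL₄.1] with i h1
      exact h1.trans (hS₃ i))
    have hp₁ : Mem X S₁ p := Mem.mono X hp₂ hL₂.1
    refine ⟨p, fun i => V' i (evv X p i), k', hp₁, hg₂ p hp₂, hk'.le, ?_⟩
    filter_upwards [hp, hp₁, hc₄.pt, hV', ht', ht, hSS, ev_pos X] with i h1 h2 h3 h4 h5 h6 h7 h8
    obtain ⟨-, -, h9, h10, -⟩ := h3 _ h1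
    refine ⟨h4 _ h1, h9, h10, ?_⟩
    have h11 := (h5 _ h1).1
    have h12 := h6 _ (h7 h2)
    have h13 : t - (t' - η) ≤ ((k : ℝ) - k') * σ₁ - ε / 2 := by
      have h14 : 0 ≤ (k' : ℝ) * η := by positivity
      have h15 : (k + 1) * η = k * η + η := by ring
      have h16 : (k' : ℝ) * (σ₁ + η) = k' * σ₁ + k' * η := by ring
      have h17 : ((k : ℝ) - k') * σ₁ = k * σ₁ - k' * σ₁ := by ring
      linarith
    have h18 : kap (V' i (evv X p i)) (evv X p i) - kap (V i (evv X p i)) (evv X p i) ≤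
        (t - (t' - η)) * X.h i := by
      have h19 : (t - (t' - η)) * X.h i = t * X.h i - (t' - η) * X.h i := by ring
      linarith
    exact h18.trans (mul_le_mul_of_nonneg_right h13 h8.le)

end

end Pool.Agent.Lib.MP_17a322_nt.MV
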