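import Pool.Agent.Lib.MP_17a322_nt.MV.E1a

/-!
Sequences of finite sets of points which contradict the bound.
-/

namespace Pool.Agent.Lib.MP_17a322_nt.MV

open MvPolynomial Height NumberField
open Pool.Agent.Lib.MP_17a322_nt.EQ

/-- The finite sets `S i` of points of the variety with the ideal `J` leave every proper closed subset, and have at least
`exp (c T i)` elements, with heights at most `T i` and `- hCan ≤ α T i`. -/
structure Bad {ι : Type} [Fintype ι] (J : Ideal (MvPolynomial ι ℚ)) (α c : ℝ) (T : ℕ → ℝ)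
    (S : ℕ → Finset (ι → ℚ)) : Prop where
  top : Filter.Tendsto T Filter.atTop Filter.atTop
  pt : ∀ i, ∀ p ∈ S i, IsPt J p ∧ logHeight p ≤ T i ∧ -hCan J p ≤ α * T i
  gen : ∀ G, G ∉ J → (∃ e, G.IsHomogeneous e) → ∀ᶠ i in Filter.atTop, ∀ p ∈ S i, eval p G ≠ 0
  big : ∀ᶠ i in Filter.atTop, Real.exp (c * T i) ≤ (S i).card
  inj : ∀ i, ∀ p ∈ S i, ∀ q ∈ S i, (∃ a : ℚ, q = a • p) → p = q

/-- Northcott's theorem for the points of projective space. PROOF: `northcott` in `BI/Y8.lean` on main is this theorem: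
copy its proof (25 lines, Mathlib only), do not import it. -/
theorem northcottE (ι : Type) [Fintype ι] (R : ℝ) :
    ∃ N : ℕ, ∀ S : Finset (ι → ℚ), (∀ p ∈ S, p ≠ 0 ∧ logHeight p ≤ R) →
      (∀ p ∈ S, ∀ q ∈ S, (∃ a : ℚ, q = a • p) → p = q) → S.card ≤ N := by
  classical
  have hT : {c : ℚ | logHeight₁ c ≤ R}.Finite := Northcott.finite_le (h := logHeight₁ (K := ℚ)) R
  set T : Finset (ι → ℚ) := Fintype.piFinset fun _ => hT.toFinset with hTd
  refine ⟨T.card, fun S hS hinj => ?_⟩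
  have hne : ∀ p ∈ S, ∃ i, p i ≠ 0 := fun p hp => Function.ne_iff.1 (hS p hp).1
  rcases S.eq_empty_or_nonempty with rfl | ⟨p₀, hp₀⟩
  · exact Nat.zero_le _
  have hι : Nonempty ι := (hne p₀ hp₀).nonempty
  choose! m hm using hne
  refine Finset.card_le_card_of_injOn (fun p => (p (m p))⁻¹ • p) (fun p hp => ?_) (fun p hp q hq h => ?_)
  · rw [hTd, Finset.mem_coe, Fintype.mem_piFinset]
    intro j
    rw [Set.Finite.mem_toFinset]
    change logHeight₁ ((p (m p))⁻¹ * p j) ≤ R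
    rw [mul_comm, ← div_eq_mul_inv, logHeight₁_div_eq_logHeight]
    have h1 : ![p j, p (m p)] = p ∘ ![j, m p] := by
      funext x
      fin_cases x <;> rfl
    rw [h1]
    exact (logHeight_comp_le _ _).trans (hS p hp).2
  · refine hinj p hp q hq ⟨q (m q) * (p (m p))⁻¹, ?_⟩
    have h1 : (p (m p))⁻¹ • p = (q (m q))⁻¹ • q := h
    rw [mul_smul, h1, smul_inv_smul₀ (hm q hq)]

/-- PROOF: `unfold GrowG at h; push_neg at h` gives `ι`, `J`, `δ`, and for all `G`, `A` a pair `T`, `S` with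
`A * exp ((α + δ) * T) < card S`. Take `P` from `exists_forms` and `T i`, `S i` for `G = P i`, `A = i + 1`. `S i` is not
empty, so `0 ≤ logHeight p ≤ T i` and `- hCan J p ≤ α * logHeight p ≤ α * T i`. `top`: for `R` take `N` from `northcottE`
(`IsPt` contains `p ≠ 0`): if `T i ≤ R` then `i + 1 ≤ (i + 1) * exp ((α + δ) * T i) < card (S i) ≤ N`. `gen`:
`G ∣ P i` for `i ≥ j` and `eval p (P i) ≠ 0`. -/
theorem exists_bad {n : ℕ} {α : ℝ} (hα : 0 ≤ α) (h : ¬ GrowG ℚ n α) :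
    ∃ (ι : Type) (_ : Fintype ι) (J : Ideal (MvPolynomial ι ℚ)) (δ : ℝ) (T : ℕ → ℝ) (S : ℕ → Finset (ι → ℚ)),
      J.IsPrime ∧ (∀ F ∈ J, ∀ i, homogeneousComponent i F ∈ J) ∧ 0 < δ ∧ Bad J α (α + δ) T S := by
  by_contra hcon
  refine h ?_
  intro ι _ J hJ hh _ δ hδ
  by_contra hno
  refine hcon ?_
  have hno' : ∀ (G : MvPolynomial ι ℚ) (A : ℝ), G ∉ J → (∃ e, G.IsHomogeneous e) →
      ∃ (T : ℝ) (S : Finset (ι → ℚ)),
        (∀ p ∈ S, IsPt J p ∧ eval p G ≠ 0 ∧ logHeight p ≤ T ∧ -hCan J p ≤ α * logHeight p) ∧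
        (∀ p ∈ S, ∀ q ∈ S, (∃ a : ℚ, q = a • p) → p = q) ∧
          A * Real.exp ((α + δ) * T) < S.card := by
    intro G A hG he
    by_contra h1
    refine hno ⟨G, A, hG, he, fun T S hS hinj => ?_⟩
    by_contra h2
    exact h1 ⟨T, S, hS, hinj, not_le.1 h2⟩
  obtain ⟨P, hP, hdvd⟩ := exists_forms J hJ
  choose T S hS hinj hbig using fun i : ℕ => hno' (P i) (i + 1) (hP i).1 (hP i).2
  have hc : 0 ≤ α + δ := by linarith
  have hex : ∀ i : ℕ, (0 : ℝ) < (i + 1) * Real.exp ((α + δ) * T i) := fun i => by positivity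
  have hT0 : ∀ i, 0 ≤ T i := by
    intro i
    rcases (S i).eq_empty_or_nonempty with h0 | ⟨p, hp⟩
    · have h1 := hbig i
      rw [h0, Finset.card_empty, Nat.cast_zero] at h1
      exact absurd h1 (hex i).le.not_gt
    · exact (logHeight_nonneg p).trans (hS i p hp).2.2.1
  have h1e : ∀ i, 1 ≤ Real.exp ((α + δ) * T i) := fun i =>
    Real.one_le_exp (mul_nonneg hc (hT0 i))
  refine ⟨ι, inferInstance, J, δ, T, S, hJ, hh, hδ, ?_, ?_, ?_, ?_, hinj⟩
  · rw [Filter.tendsto_atTop]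
    intro R
    obtain ⟨N, hN⟩ := northcottE ι R
    filter_upwards [Filter.eventually_ge_atTop N] with i hi
    by_contra h2
    have h3 := hN (S i) (fun p hp => ⟨(hS i p hp).1.1, (hS i p hp).2.2.1.trans (not_le.1 h2).le⟩) (hinj i)
    have h4 : ((S i).card : ℝ) ≤ i := Nat.cast_le.2 (h3.trans hi)
    have h5 : ((i : ℝ) + 1) * 1 ≤ (i + 1) * Real.exp ((α + δ) * T i) :=
      mul_le_mul_of_nonneg_left (h1e i) (by positivity)
    have h6 := hbig i
    linarith
  · intro i p hp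
    obtain ⟨a1, _, a3, a4⟩ := hS i p hp
    exact ⟨a1, a3, a4.trans (mul_le_mul_of_nonneg_left a3 hα)⟩
  · intro G hG he
    obtain ⟨j, hj⟩ := hdvd G hG he
    filter_upwards [Filter.eventually_ge_atTop j] with i hi p hp
    obtain ⟨Q, hQ⟩ := hj i hi
    have h2 := (hS i p hp).2.1
    rw [hQ, map_mul] at h2
    exact left_ne_zero_of_mul h2
  · refine Filter.Eventually.of_forall fun i => ?_
    have h6 := hbig i
    have h7 : 1 * Real.exp ((α + δ) * T i) ≤ ((i : ℝ) + 1) * Real.exp ((α + δ) * T i) :=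
      mul_le_mul_of_nonneg_right (by linarith [(Nat.cast_nonneg i : (0 : ℝ) ≤ i)]) (Real.exp_pos _).le
    linarith

end Pool.Agent.Lib.MP_17a322_nt.MV
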