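import Pool.Agent.Lib.MP_17a322_nt.MV.GDefs

/-!
The forms which do not vanish on a variety.
-/

namespace Pool.Agent.Lib.MP_17a322_nt.MV

open MvPolynomial

/-- PROOF: the set of the homogeneous `G ∉ J` is countable (`MvPolynomial ι ℚ` is) and contains `1`: let `g : ℕ → _` be
onto it (`exists_surjective_nat`), `P i = ∏ j ∈ Finset.range (i + 1), g j`; `P i ∉ J` since `J` is prime
(`Ideal.IsPrime.prod_mem`), `IsHomogeneous.prod`, `Finset.dvd_prod_of_mem`. -/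
theorem exists_forms {ι : Type} [Fintype ι] (J : Ideal (MvPolynomial ι ℚ)) (hJ : J.IsPrime) :
    ∃ P : ℕ → MvPolynomial ι ℚ, (∀ i, P i ∉ J ∧ ∃ e, (P i).IsHomogeneous e) ∧
      ∀ G, G ∉ J → (∃ e, G.IsHomogeneous e) → ∃ j, ∀ i, j ≤ i → G ∣ P i := by
  classical
  have hc : Countable (MvPolynomial ι ℚ) := by
    rw [← Cardinal.mk_le_aleph0_iff]
    refine (cardinalMk_le_max (σ := ι) (R := ℚ)).trans (max_le (max_le ?_ ?_) le_rfl)
    · exact Cardinal.mk_le_aleph0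
    · exact Cardinal.mk_le_aleph0
  have h1 : (1 : MvPolynomial ι ℚ) ∉ J := (Ideal.ne_top_iff_one J).1 hJ.ne_top
  have hne : Nonempty {G : MvPolynomial ι ℚ // G ∉ J ∧ ∃ e, G.IsHomogeneous e} := ⟨⟨1, h1, 0, isHomogeneous_one ι ℚ⟩⟩
  obtain ⟨g, hg⟩ := exists_surjective_nat {G : MvPolynomial ι ℚ // G ∉ J ∧ ∃ e, G.IsHomogeneous e}
  refine ⟨fun i => ∏ j ∈ Finset.range (i + 1), (g j).1, fun i => ⟨fun h => ?_, ?_⟩, fun G hG he => ?_⟩
  · obtain ⟨j, _, hj⟩ := (hJ.prod_mem_iff).1 h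
    exact (g j).2.1 hj
  · choose e he using fun j => (g j).2.2
    exact ⟨∑ j ∈ Finset.range (i + 1), e j, IsHomogeneous.prod _ _ _ fun j _ => he j⟩
  · obtain ⟨j, hj⟩ := hg ⟨G, hG, he⟩
    refine ⟨j, fun i hi => ?_⟩
    have h2 : G = (g j).1 := by rw [hj]
    rw [h2]
    exact Finset.dvd_prod_of_mem (fun j => (g j).1) (Finset.mem_range.2 (by omega))

end Pool.Agent.Lib.MP_17a322_nt.MV
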