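import Pool.Agent.Lib.MP_17a322_nt.MV.E1
import Pool.Agent.Lib.MP_17a322_nt.EQ.G0

/-!
Normalised coordinates.
-/

namespace Pool.Agent.Lib.MP_17a322_nt.MV

open MvPolynomial Height NumberField
open Pool.Agent.Lib.MP_17a322_nt.EQ

variable {ι : Type} [Fintype ι]

/-- PROOF: `o` with `padicNorm 2 (p o)` maximal (`Finite.exists_max`; `ι` is not empty), `p o ≠ 0`, `c = (p o)⁻¹`. -/
theorem exists_norm (p : ι → ℚ) (hp : p ≠ 0) :
    ∃ c : ℚ, c ≠ 0 ∧ ∃ o, (c • p) o = 1 ∧ ∀ a, padicNorm 2 ((c • p) a) ≤ 1 := by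
  obtain ⟨b, hb⟩ := Function.ne_iff.1 hp
  rw [Pi.zero_apply] at hb
  have : Nonempty ι := ⟨b⟩
  obtain ⟨o, ho⟩ := Finite.exists_max fun a => padicNorm 2 (p a)
  have h1 : 0 < padicNorm 2 (p b) := lt_of_le_of_ne (padicNorm.nonneg _) (Ne.symm (padicNorm.nonzero hb))
  have h2 : 0 < padicNorm 2 (p o) := lt_of_lt_of_le h1 (ho b)
  have h3 : p o ≠ 0 := by
    intro h
    rw [h, padicNorm.zero] at h2
    exact lt_irrefl _ h2
  refine ⟨(p o)⁻¹, inv_ne_zero h3, o, ?_, fun a => ?_⟩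
  · show (p o)⁻¹ * p o = 1
    exact inv_mul_cancel₀ h3
  · have h4 : ((p o)⁻¹ • p) a = p a / p o := by
      show (p o)⁻¹ * p a = p a / p o
      rw [div_eq_mul_inv, mul_comm]
    rw [h4, padicNorm.div, div_le_one h2]
    exact ho a

/-- PROOF: `Tan_mul` (EQ/G0) and `logHeight_smul_eq_logHeight`. -/
theorem hCan_smulE {J : Ideal (MvPolynomial ι ℚ)} (hJ : ∀ F ∈ J, ∀ i, homogeneousComponent i F ∈ J) {c : ℚ}
    (hc : c ≠ 0) (p : ι → ℚ) : hCan J (c • p) = hCan J p := by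
  have h1 : Tan J (c • p) = Tan J p := Tan_mul hJ hc p
  unfold hCan
  rw [h1, logHeight_smul_eq_logHeight p hc]

/-- Every vector can be replaced by a normalised multiple. PROOF: `S' i` is the image of `S i` under `p ↦ c p • p` with
`c` from `exists_norm` (`choose`); this map is injective on `S i` by `hb.inj`, so the numbers of the elements are equal;
`IsPt_mul`, `hCan_smulE`, `logHeight_smul_eq_logHeight`, `eval (c • p) G = c ^ e * eval p G`
(`aeval_mul` in EQ/G0 or `IsHomogeneous.eval₂...`), `inj` for the multiples. -/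
theorem norm_bad {J : Ideal (MvPolynomial ι ℚ)} (hJ : ∀ F ∈ J, ∀ i, homogeneousComponent i F ∈ J) {α c : ℝ}
    {T : ℕ → ℝ} {S : ℕ → Finset (ι → ℚ)} (hb : Bad J α c T S) :
    ∃ S' : ℕ → Finset (ι → ℚ), Bad J α c T S' ∧
      ∀ i, ∀ p ∈ S' i, ∃ o, p o = 1 ∧ ∀ a, padicNorm 2 (p a) ≤ 1 := by
  classical
  choose g hg0 hg1 using fun (p : ι → ℚ) (hp : p ≠ 0) => exists_norm p hp
  let cc : (ι → ℚ) → ℚ := fun p => if hp : p ≠ 0 then g p hp else 1
  have hcc0 : ∀ p, cc p ≠ 0 := by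
    intro p
    show (if hp : p ≠ 0 then g p hp else 1) ≠ 0
    split_ifs with hp
    · exact hg0 p hp
    · exact one_ne_zero
  have hcc1 : ∀ p, p ≠ 0 → ∃ o, (cc p • p) o = 1 ∧ ∀ a, padicNorm 2 ((cc p • p) a) ≤ 1 := by
    intro p hp
    have h1 : cc p = g p hp := dif_pos hp
    rw [h1]
    exact hg1 p hp
  have hinj : ∀ i, ∀ p ∈ S i, ∀ q ∈ S i, (∃ a : ℚ, cc q • q = a • (cc p • p)) → p = q := by
    rintro i p hp q hq ⟨a, ha⟩
    refine hb.inj i p hp q hq ⟨(cc q)⁻¹ * (a * cc p), ?_⟩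
    have h1 := congrArg (fun x => (cc q)⁻¹ • x) ha
    simp only [smul_smul] at h1
    rw [inv_mul_cancel₀ (hcc0 q), one_smul] at h1
    exact h1
  refine ⟨fun i => (S i).image fun p => cc p • p, ⟨hb.top, ?_, ?_, ?_, ?_⟩, ?_⟩
  · intro i q hq
    obtain ⟨p, hp, rfl⟩ := Finset.mem_image.1 hq
    obtain ⟨h1, h2, h3⟩ := hb.pt i p hp
    refine ⟨IsPt_mul hJ (hcc0 p) h1, ?_, ?_⟩
    · rw [logHeight_smul_eq_logHeight p (hcc0 p)]
      exact h2
    · rw [hCan_smulE hJ (hcc0 p) p]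
      exact h3
  · rintro G hG ⟨e, he⟩
    filter_upwards [hb.gen G hG ⟨e, he⟩] with i hi q hq
    obtain ⟨p, hp, rfl⟩ := Finset.mem_image.1 hq
    have h1 : eval (cc p • p) G = cc p ^ e * eval p G := aeval_mul he (cc p) p
    rw [h1]
    exact mul_ne_zero (pow_ne_zero _ (hcc0 p)) (hi p hp)
  · filter_upwards [hb.big] with i hi
    have h1 : ((S i).image fun p => cc p • p).card = (S i).card :=
      Finset.card_image_of_injOn fun p hp q hq h => hinj i p hp q hq ⟨1, by rw [one_smul]; exact h.symm⟩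
    rw [h1]
    exact hi
  · rintro i p' hp' q' hq' ⟨a, ha⟩
    obtain ⟨p, hp, rfl⟩ := Finset.mem_image.1 hp'
    obtain ⟨q, hq, rfl⟩ := Finset.mem_image.1 hq'
    rw [hinj i p hp q hq ⟨a, ha⟩]
  · intro i q hq
    obtain ⟨p, hp, rfl⟩ := Finset.mem_image.1 hq
    exact hcc1 p (hb.pt i p hp).1.1

end Pool.Agent.Lib.MP_17a322_nt.MV
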