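import Pool.Agent.Lib.MP_17a322_nt.MV.Defs
import Pool.Agent.Lib.MP_17a322_nt.EQ.G0
import Pool.Agent.Lib.MP_17a322_nt.ABN.Sard

/-!
Derivations of points of a variety are tangent vectors.
-/

namespace Pool.Agent.Lib.MP_17a322_nt.MV

open MvPolynomial Height NumberField
open Pool.Agent.Lib.MP_17a322_nt.EQ
open Pool.Agent.Lib.MP_17a322_nt.FQ

/-- PROOF: `J` is finitely generated (`MvPolynomial ι ℚ` is Noetherian, `Submodule.fg_span_iff...`, enumerate a finite
generating set). For `F = ∑ a_j F_j` one has `dif p F v = ∑ (a_j(p) dif p F_j v + F_j(p) dif p a_j v)` by the Leibniz rule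
(EQ/G0, `dif_apply`, `pderiv_mul`); use `Submodule.span_induction`; `mem_Tan` (EQ/G0). -/
theorem exists_gens {ι : Type} [Fintype ι] (J : Ideal (MvPolynomial ι ℚ)) :
    ∃ (m : ℕ) (F : Fin m → MvPolynomial ι ℚ), (∀ j, F j ∈ J) ∧
      ∀ p v : ι → ℚ, (∀ G ∈ J, aeval p G = 0) → (∀ j, dif p (F j) v = 0) → v ∈ Tan J p := by
  classical
  obtain ⟨s, hs⟩ := (IsNoetherian.noetherian J : J.FG)
  refine ⟨s.card, fun j => (s.equivFin.symm j : MvPolynomial ι ℚ), fun j => ?_, ?_⟩
  · rw [← hs]
    exact Submodule.subset_span (s.equivFin.symm j).2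
  · intro p v h1 h2
    rw [mem_Tan]
    intro G hG
    have key : ∀ G ∈ Submodule.span (MvPolynomial ι ℚ) (↑s : Set (MvPolynomial ι ℚ)),
        dif p G v = 0 := by
      intro G hG
      induction hG using Submodule.span_induction with
      | mem x hx =>
        have h3 := h2 (s.equivFin ⟨x, hx⟩)
        dsimp only at h3
        rwa [Equiv.symm_apply_apply] at h3
      | zero => exact dif_zero p v
      | add x y _ _ hx hy => rw [dif_add, hx, hy, add_zero]
      | smul a x hx hx' =>
        rw [smul_eq_mul, dif_mul, hx', h1 x (by rw [← hs]; exact hx), mul_zero, zero_mul, add_zero]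
    exact key G (by rw [← hs] at hG; exact hG)

private theorem E3a_coe {B : Type} [Field B] [Algebra ℚ B] {ι : Type} (E : IntermediateField ℚ B)
    (p : ι → E) (G : MvPolynomial ι ℚ) :
    ((aeval p G : E) : B) = aeval (fun a => (p a : B)) G := by
  induction G using MvPolynomial.induction_on with
  | C a =>
    rw [aeval_C, aeval_C]
    exact DFunLike.congr_fun
      (Subsingleton.elim ((algebraMap E B).comp (algebraMap ℚ E)) (algebraMap ℚ B)) a
  | add F G hF hG =>
    rw [map_add, map_add, ← hF, ← hG]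
    rfl
  | mul_X F i hF =>
    rw [map_mul, map_mul, aeval_X, aeval_X, ← hF]
    rfl

private theorem E3a_der {B : Type} [Field B] [Algebra ℚ B] {ι : Type} [Fintype ι]
    (E : IntermediateField ℚ B) (p : ι → E) (D : Derivation ℚ E B) (F : MvPolynomial ι ℚ) :
    D (aeval p F) = ∑ a, aeval (fun a => (p a : B)) (pderiv a F) * D (p a) := by
  classical
  have hc : ∀ G : MvPolynomial ι ℚ, ((aeval p G : E) : B) = aeval (fun a => (p a : B)) G :=
    E3a_coe E p
  induction F using MvPolynomial.induction_on with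
  | C a =>
    rw [aeval_C, D.map_algebraMap, Finset.sum_eq_zero]
    intro l _
    rw [pderiv_C, map_zero, zero_mul]
  | add F G hF hG =>
    simp only [map_add, hF, hG, add_mul, Finset.sum_add_distrib]
  | mul_X F i hF =>
    have h1 : ∀ l, aeval (fun a => (p a : B)) (pderiv l (F * X i)) * D (p l) =
        (p i : B) * (aeval (fun a => (p a : B)) (pderiv l F) * D (p l)) +
          aeval (fun a => (p a : B)) F *
            (aeval (fun a => (p a : B)) (pderiv l (X i : MvPolynomial ι ℚ)) * D (p l)) := by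
      intro l
      rw [Derivation.leibniz, smul_eq_mul, smul_eq_mul, map_add, map_mul, map_mul, aeval_X]
      ring
    rw [Finset.sum_congr rfl fun l _ => h1 l, Finset.sum_add_distrib, ← Finset.mul_sum,
      ← Finset.mul_sum, ← hF, Finset.sum_eq_single i]
    · rw [pderiv_X_self, map_one, one_mul, map_mul, aeval_X, Derivation.leibniz]
      have h2 : ∀ (x : E) (b : B), x • b = (x : B) * b := fun _ _ => rfl
      rw [h2, h2, hc]
      ring
    · intro l _ hl
      rw [pderiv_X_of_ne (Ne.symm hl), map_zero, zero_mul]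
    · intro h
      exact absurd (Finset.mem_univ i) h

/-- PROOF: for `F ∈ J`: `aeval (p ·) F = 0` in `B` (`ev_aeval`, `ev_eq`, FQ/A1), hence in `E`, and
`0 = D (aeval p F) = ∑ a, aeval (p ·) (pderiv a F) * D (p a)` (induction on `F`, as `der_aeval` in ABN/Sard, for a
derivation of `E` with values in `B`); evaluate at `i` (`ev_sum`, `X.mul`, `ev_aeval`): `dif (evv X p i) F (evv X (D p) i) = 0`
eventually. Do this for the finitely many `F j` of `exists_gens`. -/
theorem der_tan {B : Type} [Field B] [Algebra ℚ B] (X : Evl ℚ B ℕ) {ι : Type} [Fintype ι]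
    (J : Ideal (MvPolynomial ι ℚ)) (E : IntermediateField ℚ B) (p : ι → E)
    (hp : ∀ᶠ i in (X.U : Filter ℕ), IsPt J (evv X (fun a => (p a : B)) i)) (D : Derivation ℚ E B) :
    ∀ᶠ i in (X.U : Filter ℕ), evv X (fun a => D (p a)) i ∈ Tan J (evv X (fun a => (p a : B)) i) := by
  classical
  obtain ⟨m, F, hF, hT⟩ := exists_gens J
  have hev : ∀ (x : ι → B) (G : MvPolynomial ι ℚ), ∀ᶠ i in (X.U : Filter ℕ),
      X.ev (aeval x G) i = aeval (evv X x i) G := by
    intro x G
    filter_upwards [ev_aeval X x G] with i hi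
    rw [hi, MvPolynomial.aeval_eq_eval]
    rfl
  have hz : ∀ j, aeval p (F j) = 0 := by
    intro j
    have h1 : aeval (fun a => (p a : B)) (F j) = 0 := by
      rw [← ev_eq X]
      filter_upwards [hp, hev (fun a => (p a : B)) (F j), ev_zero X] with i h2 h3 h4
      rw [h3, h4]
      exact h2.2 (F j) (hF j)
    have h2 : ((aeval p (F j) : E) : B) = aeval (fun a => (p a : B)) (F j) :=
      E3a_coe E p (F j)
    rw [h1] at h2
    exact_mod_cast h2
  have hd : ∀ j, ∑ a, aeval (fun a => (p a : B)) (pderiv a (F j)) * D (p a) = 0 := by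
    intro j
    rw [← E3a_der E p D (F j), hz j, map_zero]
  have hj : ∀ j, ∀ᶠ i in (X.U : Filter ℕ),
      dif (evv X (fun a => (p a : B)) i) (F j) (evv X (fun a => D (p a)) i) = 0 := by
    intro j
    have h1 := ev_sum X Finset.univ fun a =>
      aeval (fun a => (p a : B)) (pderiv a (F j)) * D (p a)
    have h2 : ∀ a, ∀ᶠ i in (X.U : Filter ℕ),
        X.ev (aeval (fun a => (p a : B)) (pderiv a (F j)) * D (p a)) i =
          aeval (evv X (fun a => (p a : B)) i) (pderiv a (F j)) * X.ev (D (p a)) i := by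
      intro a
      filter_upwards [X.mul (aeval (fun a => (p a : B)) (pderiv a (F j))) (D (p a)),
        hev (fun a => (p a : B)) (pderiv a (F j))] with i h3 h4
      rw [h3, h4]
    filter_upwards [h1, Filter.eventually_all.2 h2, ev_zero X] with i h3 h4 h5
    rw [hd j, h5] at h3
    rw [dif_apply, h3]
    exact Finset.sum_congr rfl fun a _ => (h4 a).symm
  filter_upwards [hp, Filter.eventually_all.2 hj] with i h1 h2
  exact hT _ _ (fun G hG => h1.2 G hG) h2

end Pool.Agent.Lib.MP_17a322_nt.MV
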