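import Pool.Agent.Lib.MP_17a322_nt.MV.E1
import Pool.Agent.Lib.MP_17a322_nt.MV.E3a
import Pool.Agent.Lib.MP_17a322_nt.MV.C0
import Pool.Agent.Lib.MP_17a322_nt.MV.C4
import Pool.Agent.Lib.MP_17a322_nt.JAC.Defs

/-!
The configuration of the tangent spaces.
-/

namespace Pool.Agent.Lib.MP_17a322_nt.MV

open MvPolynomial Height NumberField
open Pool.Agent.Lib.MP_17a322_nt.EQ
open Pool.Agent.Lib.MP_17a322_nt.FQ
open Pool.Agent.Lib.MP_17a322_nt.JAC (VojtaGauss)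

/-- PROOF: choose `o` for every `p` (`hn`); `lg_pigeon` with the values `(o, finrank (Tan J p))` in `ι × Fin (card ι + 1)`
makes both constant on a large subset `S₁`. If `S₁ i` is eventually empty, everything is trivial except `finrank`: take
`S' = S₁`, `k = 0` and any `s` (note that `ι` is not empty, as `o : ι`). Otherwise there are points (`Ultrafilter`:
eventually nonempty) and `0 < finrank` as `p ∈ Tan J p` (`self_mem_Tan`), `p ≠ 0`: `finrank = k + 1`. `exists_opt` (MV/C4)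
with `κ = ι`, `t = id` and `V' = Tan J p` (its `hO` is trivial with `b = some a`) gives `s` for every `p`; `lg_pigeon` with
values in `Fin k → ι` makes it constant on `S'`. `hgt`: `logHeight p ≤ T i`; by `hV` with `ε = 1` there are `G ∉ J` and `C`
with `hCan J p ≤ logHeight p + C` for `eval p G ≠ 0`, which holds eventually for all `p ∈ S i` (`hb.gen`), so
`hPl (Tan J p) = hCan J p + finrank * logHeight p ≤ (card ι + 1) * T i + C ≤ C' * T i` eventually (`T` tends to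
infinity). `pt`: `self_mem_Tan`. `cls` with `N = 0`: `padicNorm 2 (x - y) ≤ max ≤ 1`. `scale`: constant zero. `der`:
`der_tan`; `Mem` and `hb.pt` give its hypothesis. -/
theorem bad_cfg (hV : VojtaGauss ℚ) {ι : Type} [Fintype ι] {J : Ideal (MvPolynomial ι ℚ)} (hJp : J.IsPrime)
    (hJ : ∀ F ∈ J, ∀ i, homogeneousComponent i F ∈ J) {α c : ℝ} {T : ℕ → ℝ} {S : ℕ → Finset (ι → ℚ)}
    (hb : Bad J α c T S) (hn : ∀ i, ∀ p ∈ S i, ∃ o, p o = 1 ∧ ∀ a, padicNorm 2 (p a) ≤ 1)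
    (hS : ∀ᶠ i in Filter.atTop, (S i).Nonempty) {B : Type} [Field B] [Algebra ℚ B] (X : Evl ℚ B ℕ)
    (hT : X.h = T) (hU : (X.U : Filter ℕ) ≤ Filter.atTop) :
    ∃ (o : ι) (k : ℕ) (s : Fin k → ι) (S' : ℕ → Finset (ι → ℚ)), Lg X S' S ∧
      Cfg X o k ∅ S' (fun _ p => Tan J p) (fun _ => 0) s 0 := by
  classical
  have hS' : ∀ᶠ i in (X.U : Filter ℕ), (S i).Nonempty := hU hS
  have ho0 : Nonempty ι := by
    obtain ⟨i, p, hp⟩ := hS.exists
    obtain ⟨o, _⟩ := hn i p hp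
    exact ⟨o⟩
  obtain ⟨o0⟩ := ho0
  -- the first pigeonhole
  have hfr : ∀ p : ι → ℚ, Module.finrank ℚ (Tan J p) < Fintype.card ι + 1 := by
    intro p
    have h1 := Submodule.finrank_le (Tan J p)
    rw [Module.finrank_fintype_fun_eq_card] at h1
    omega
  obtain ⟨oo, hoo⟩ : ∃ oo : (ι → ℚ) → ι, ∀ p : ι → ℚ, (∃ o, p o = 1 ∧ ∀ a, padicNorm 2 (p a) ≤ 1) →
      p (oo p) = 1 ∧ ∀ a, padicNorm 2 (p a) ≤ 1 := by
    refine ⟨fun p => if h : ∃ o, p o = 1 ∧ ∀ a, padicNorm 2 (p a) ≤ 1 then h.choose else o0, fun p h => ?_⟩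
    simp only [dif_pos h]
    exact h.choose_spec
  obtain ⟨⟨o, K⟩, h₁⟩ := lg_pigeon X S (α := ι × Fin (Fintype.card ι + 1))
    (fun _ p => (oo p, ⟨Module.finrank ℚ (Tan J p), hfr p⟩))
  obtain ⟨S₁, hS₁, h₁⟩ : ∃ S₁ : ℕ → Finset (ι → ℚ), (∀ i p, p ∈ S₁ i ↔ p ∈ S i ∧
      ((oo p, ⟨Module.finrank ℚ (Tan J p), hfr p⟩) : ι × Fin (Fintype.card ι + 1)) = (o, K)) ∧ Lg X S₁ S := by
    refine ⟨_, fun i p => ?_, h₁⟩
    exact @Finset.mem_filter _ _ (fun a => Classical.propDecidable _) _ _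
  have hne : ∀ᶠ i in (X.U : Filter ℕ), (S₁ i).Nonempty := by
    obtain ⟨C, hC⟩ := h₁.2
    filter_upwards [hC, hS'] with i h2 h3
    have h4 : 0 < (S i).card := Finset.card_pos.2 h3
    rcases Nat.eq_zero_or_pos (S₁ i).card with h5 | h5
    · rw [h5, mul_zero] at h2
      omega
    · exact Finset.card_pos.1 h5
  have hmem₁ : ∀ i, ∀ p ∈ S₁ i, p ∈ S i ∧ oo p = o ∧ Module.finrank ℚ (Tan J p) = (K : ℕ) := by
    intro i p hp
    obtain ⟨h2, h3⟩ := (hS₁ i p).1 hp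
    have h4 := Prod.mk.inj h3
    exact ⟨h2, h4.1, congrArg Fin.val h4.2⟩
  have hpt : ∀ i, ∀ p ∈ S i, IsPt J p := fun i p hp => (hb.pt i p hp).1
  have htan : ∀ i, ∀ p ∈ S i, p ∈ Tan J p := fun i p hp => self_mem_Tan hJ (hpt i p hp)
  obtain ⟨k, hk⟩ : ∃ k, (K : ℕ) = k + 1 := by
    obtain ⟨i, p, hp⟩ := hne.exists
    obtain ⟨h2, _, h3⟩ := hmem₁ i p hp
    have h4 : Module.finrank ℚ (Tan J p) ≠ 0 := by
      intro h5
      have h6 : Tan J p = ⊥ := Submodule.finrank_eq_zero.1 h5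
      have h7 := htan i p h2
      rw [h6] at h7
      exact (hpt i p h2).1 ((Submodule.mem_bot ℚ).1 h7)
    exact ⟨(K : ℕ) - 1, by omega⟩
  have hprop : ∀ i, ∀ p ∈ S₁ i, p o = 1 ∧ (∀ a, padicNorm 2 (p a) ≤ 1) ∧ p ∈ Tan J p ∧
      Module.finrank ℚ (Tan J p) = k + 1 := by
    intro i p hp
    obtain ⟨h2, h3, h4⟩ := hmem₁ i p hp
    obtain ⟨h5, h6⟩ := hoo p (hn i p h2)
    rw [h3] at h5
    exact ⟨h5, h6, htan i p h2, h4.trans hk⟩
  -- the second pigeonhole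
  obtain ⟨ss, hss⟩ : ∃ ss : (ι → ℚ) → Fin k → ι, ∀ p : ι → ℚ, (∃ s : Fin k → ι, Opt o s (Tan J p)) →
      Opt o (ss p) (Tan J p) := by
    refine ⟨fun p => if h : ∃ s : Fin k → ι, Opt o s (Tan J p) then h.choose else fun _ => o0, fun p h => ?_⟩
    simp only [dif_pos h]
    exact h.choose_spec
  obtain ⟨s, h₂⟩ := lg_pigeon X S₁ (α := Fin k → ι) (fun _ p => ss p)
  obtain ⟨S₂, hS₂, h₂⟩ : ∃ S₂ : ℕ → Finset (ι → ℚ), (∀ i p, p ∈ S₂ i ↔ p ∈ S₁ i ∧ ss p = s) ∧ Lg X S₂ S₁ := by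
    refine ⟨_, fun i p => ?_, h₂⟩
    exact @Finset.mem_filter _ _ (fun a => Classical.propDecidable _) _ _
  have hmem₂ : ∀ i, ∀ p ∈ S₂ i, p ∈ S₁ i ∧ ss p = s := fun i p hp => (hS₂ i p).1 hp
  have hopt : ∀ i, ∀ p ∈ S₂ i, Opt o s (Tan J p) := by
    intro i p hp
    obtain ⟨h2, h3⟩ := hmem₂ i p hp
    obtain ⟨h4, h5, h6, h7⟩ := hprop i p h2
    rw [← h3]
    refine hss p ?_
    obtain ⟨s', hs'⟩ := exists_opt o (id : ι → ι) (Tan J p) h7
      (fun v _ a => ⟨some a, le_refl _⟩) p h6 h4 h5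
    exact ⟨s', hs'⟩
  obtain ⟨G, C0, hG, hG', hC0⟩ := hV ι J hJp hJ 1 one_pos
  refine ⟨o, k, s, S₂, h₂.trans X h₁, ?_⟩
  refine ⟨Set.finite_empty, ⟨(Fintype.card ι : ℝ) + 2 + |C0|, ?_⟩, ?_, ?_, ?_, ?_⟩
  · have h2 : ∀ᶠ i in (X.U : Filter ℕ), 1 ≤ T i := hU (hb.top.eventually_ge_atTop 1)
    have h3 : ∀ᶠ i in (X.U : Filter ℕ), ∀ p ∈ S i, eval p G ≠ 0 := hU (hb.gen G hG hG')
    filter_upwards [h2, h3] with i h2 h3 p hp
    obtain ⟨h4, _⟩ := hmem₂ i p hp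
    obtain ⟨h5, _, h6⟩ := hmem₁ i p h4
    obtain ⟨h7, h8, _⟩ := hb.pt i p h5
    have h9 := hC0 p h7 (h3 p h5)
    rw [hT]
    have h10 : (Module.finrank ℚ (Tan J p) : ℝ) ≤ Fintype.card ι := by
      exact_mod_cast Nat.lt_succ_iff.1 (hfr p)
    have h11 : (0 : ℝ) ≤ Module.finrank ℚ (Tan J p) := Nat.cast_nonneg _
    have h12 : (0 : ℝ) ≤ Fintype.card ι := Nat.cast_nonneg _
    have h13 := le_abs_self C0
    have h14 := abs_nonneg C0
    have h15 : |C0| ≤ |C0| * T i := le_mul_of_one_le_right h14 h2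
    have h16 : (Module.finrank ℚ (Tan J p) : ℝ) * logHeight p ≤ Fintype.card ι * T i :=
      (mul_le_mul_of_nonneg_left h8 h11).trans (mul_le_mul_of_nonneg_right h10 (by linarith))
    have h17 : (0 : ℝ) ≤ Fintype.card ι * T i := mul_nonneg h12 (by linarith)
    constructor
    · nlinarith
    · unfold hCan at h9
      nlinarith
  · filter_upwards with i p hp
    obtain ⟨h2, _⟩ := hmem₂ i p hp
    obtain ⟨h4, h5, h6, h7⟩ := hprop i p h2
    exact ⟨h4, h5, h6, h7, hopt i p hp⟩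
  · filter_upwards with i p hp q hq j
    have h2 := (hprop i p (hmem₂ i p hp).1).2.1 (s j)
    have h3 := (hprop i q (hmem₂ i q hq).1).2.1 (s j)
    have h4 : padicNorm 2 (p (s j) - q (s j)) ≤ max (padicNorm 2 (p (s j))) (padicNorm 2 (q (s j))) := padicNorm.sub
    simpa using h4.trans (max_le h2 h3)
  · simp only [Nat.cast_zero, zero_mul, zero_div]
    exact tendsto_const_nhds
  · intro E p hp _ D _
    refine der_tan X J E p ?_ D
    filter_upwards [hp] with i h2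
    exact hpt i _ (hmem₁ i _ (hmem₂ i _ h2).1).1

end Pool.Agent.Lib.MP_17a322_nt.MV
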