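import Pool.Agent.Lib.MP_17a322_nt.EQ.G0

/-!
Homogenisation.
-/

namespace Pool.Agent.Lib.MP_17a322_nt.MV

open MvPolynomial
open Pool.Agent.Lib.MP_17a322_nt.EQ

private theorem E4a_dif_pow {ι : Type} [Fintype ι] (o : ι) (L : Type) [Field L] [Algebra ℚ L] (p v : ι → L)
    (hv : v o = 0) (d : ℕ) : dif p ((X o : MvPolynomial ι ℚ) ^ d) v = 0 := by
  induction d with
  | zero => rw [pow_zero, dif_one]
  | succ d ih => rw [pow_succ, dif_mul, ih, dif_X, hv, mul_zero, mul_zero, add_zero]

/-- A polynomial in the variables `t j`, made homogeneous with the variable `o`.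

PROOF: `F = ∑ m ∈ G.support, X o ^ (e - m.degree) * rename t (monomial m (G.coeff m))`, `e = G.totalDegree`, is
homogeneous of degree `e` (`IsHomogeneous.sum`, `.mul`, `isHomogeneous_monomial`, `IsHomogeneous.rename...`). For
`p o = 1` the value is that of `G` (`aeval_rename`, `G.support_sum_monomial_coeff`). The differential is additive and
satisfies the Leibniz rule; `dif p (X o ^ d) v = d * p o ^ (d - 1) * v o = 0`; so it is enough to see
`dif p (rename t H) v = ∑ j, aeval (p ∘ t) (pderiv j H) * v (t j)` for all `H` (chain rule; induction on `H`: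
`MvPolynomial.induction_on`, constants, sums, multiplication with `X j`; `t` need not be injective) and to sum over the
monomials. -/
theorem exists_homog {τ ι : Type} [Fintype τ] [Fintype ι] (o : ι) (t : τ → ι) (G : MvPolynomial τ ℚ) :
    ∃ F : MvPolynomial ι ℚ, (∃ e, F.IsHomogeneous e) ∧
      ∀ (L : Type) [Field L] [Algebra ℚ L] (p : ι → L), p o = 1 →
        aeval p F = aeval (fun j => p (t j)) G ∧ ∀ v : ι → L, v o = 0 →
          dif p F v = ∑ j, aeval (fun j => p (t j)) (pderiv j G) * v (t j) := by
  classical
  have hsum : ∑ k ∈ Finset.range (G.totalDegree + 1), homogeneousComponent k G = G :=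
    sum_homogeneousComponent G
  refine ⟨∑ k ∈ Finset.range (G.totalDegree + 1),
    (X o : MvPolynomial ι ℚ) ^ (G.totalDegree - k) * rename t (homogeneousComponent k G),
    ⟨G.totalDegree, ?_⟩, ?_⟩
  · refine IsHomogeneous.sum _ _ _ fun k hk => ?_
    have h1 : ((X o : MvPolynomial ι ℚ) ^ (G.totalDegree - k)).IsHomogeneous
        (1 * (G.totalDegree - k)) := (isHomogeneous_X ℚ o).pow _
    have h2 : (rename t (homogeneousComponent k G)).IsHomogeneous k :=
      (homogeneousComponent_isHomogeneous k G).rename_isHomogeneous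
    have h3 := h1.mul h2
    have h4 : 1 * (G.totalDegree - k) + k = G.totalDegree := by
      have := Finset.mem_range.1 hk
      omega
    rwa [h4] at h3
  · intro L _ _ p hp
    refine ⟨?_, fun v hv => ?_⟩
    · rw [map_sum]
      conv_rhs => rw [← hsum, map_sum]
      refine Finset.sum_congr rfl fun k _ => ?_
      rw [map_mul, map_pow, aeval_X, hp, one_pow, one_mul, aeval_rename]
      rfl
    · have h1 : dif p (∑ k ∈ Finset.range (G.totalDegree + 1),
          (X o : MvPolynomial ι ℚ) ^ (G.totalDegree - k) * rename t (homogeneousComponent k G)) v =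
          dif p (rename t G) v := by
        conv_rhs => rw [← hsum, map_sum]
        rw [dif_sum, dif_sum]
        refine Finset.sum_congr rfl fun k _ => ?_
        rw [dif_mul, E4a_dif_pow o L p v hv, mul_zero, add_zero, map_pow, aeval_X, hp, one_pow,
          one_mul]
      have h3 : (rename t : MvPolynomial τ ℚ →ₐ[ℚ] MvPolynomial ι ℚ) =
          aeval (fun j => (X (t j) : MvPolynomial ι ℚ)) := by
        refine MvPolynomial.algHom_ext fun i => ?_
        rw [rename_X, aeval_X]
      have h2 : rename t G = aeval (fun j => (X (t j) : MvPolynomial ι ℚ)) G := by rw [h3]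
      rw [h1, h2, dif_aeval, dif_apply]
      refine Finset.sum_congr rfl fun j _ => ?_
      simp only [aeval_X, dif_X]

end Pool.Agent.Lib.MP_17a322_nt.MV
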