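import Pool.Agent.Lib.MP_17a322_nt.MV.E1
import Pool.Agent.Lib.MP_17a322_nt.MV.E4a
import Pool.Agent.Lib.MP_17a322_nt.MV.C0
import Pool.Agent.Lib.MP_17a322_nt.MV.C2a

/-!
The points are generic.
-/

namespace Pool.Agent.Lib.MP_17a322_nt.MV

open MvPolynomial Height NumberField
open Pool.Agent.Lib.MP_17a322_nt.EQ
open Pool.Agent.Lib.MP_17a322_nt.FQ

/-- PROOF: Suppose not. `exists_rel` (MV/C2a) with `l = 0`, `f = Fin.elim0` (`Set.range f = ∅`) gives
`G : MvPolynomial (Fin 0 ⊕ Fin k) ℚ` with `aeval (Sum.elim f (p ∘ s)) G = 0` and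
`aeval (Sum.elim f (p ∘ s)) (pderiv (inr j) G) ≠ 0` for some `j`. `exists_homog` with `t = Sum.elim Fin.elim0 s` gives `F`. As
`p o = 1` (`hc.pt`, `ev_eq`, `ev_one`), `aeval p F = 0`, so `eval (evv X p i) F = 0` eventually (`ev_aeval`). If `F ∉ J`,
`hb.gen` (`hU`, `Mem`, `hS`) gives a contradiction. So `F ∈ J`, and at almost all `i` with `q = evv X p i`:
`dif q F v = 0` for all `v ∈ Tan J q` (`mem_Tan`), `q o = 1`, and `aeval (q ∘ s) (∂_j G) ≠ 0` (`ev_ne`, `ev_aeval`; write it with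
`Sum.elim`). By `hc.pt` the space `Tan J q` has dimension `k + 1` and by `Opt` the map `v ↦ (v (os o s b))_b` to
`Option (Fin k) → ℚ` is injective on it (`v = 0` at `os o s b` gives `padicNorm 2 (v a) ≤ 0`), so it is onto: take
`v ∈ Tan J q` with `v o = 0`, `v (s j) = 1` and `v (s j') = 0` for `j' ≠ j`. Then
`0 = dif q F v = aeval (q ∘ s) (∂_j G)`: a contradiction. -/
theorem bad_ind {ι : Type} [Fintype ι] {J : Ideal (MvPolynomial ι ℚ)} {α c : ℝ} {T : ℕ → ℝ}
    {S : ℕ → Finset (ι → ℚ)} (hb : Bad J α c T S) {B : Type} [Field B] [Algebra ℚ B] (X : Evl ℚ B ℕ)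
    (hU : (X.U : Filter ℕ) ≤ Filter.atTop) {o : ι} {k : ℕ} {s : Fin k → ι} {S' : ℕ → Finset (ι → ℚ)}
    {N : ℕ → ℕ} {σ : ℝ} (hS : ∀ᶠ i in (X.U : Filter ℕ), S' i ⊆ S i)
    (hc : Cfg X o k ∅ S' (fun _ p => Tan J p) N s σ) {p : ι → B} (hp : Mem X S' p) :
    Ind ∅ fun j => p (s j) := by
  classical
  by_contra hnot
  have hr : (∅ : Set B) = Set.range (Fin.elim0 : Fin 0 → B) := (Set.range_eq_empty _).symm
  rw [hr] at hnot
  obtain ⟨G, hG0, j, hGj⟩ := exists_rel (Fin.elim0 : Fin 0 → B) (fun j => p (s j)) hnot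
  obtain ⟨F, hFh, hF⟩ := exists_homog o (Sum.elim (Fin.elim0 : Fin 0 → ι) s) G
  have hpo : p o = 1 := by
    rw [← ev_eq X]
    filter_upwards [hp, hc.pt, ev_one X] with i h1 h2 h3
    rw [h3]
    exact (h2 _ h1).1
  have het : (fun c => p (Sum.elim (Fin.elim0 : Fin 0 → ι) s c)) =
      Sum.elim (Fin.elim0 : Fin 0 → B) (fun j => p (s j)) := by
    funext c
    rcases c with c | c
    · exact c.elim0
    · rfl
  have hF0 : aeval p F = 0 := by
    rw [(hF B p hpo).1, het]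
    exact hG0
  have hev : ∀ᶠ i in (X.U : Filter ℕ), eval (evv X p i) F = 0 := by
    filter_upwards [ev_aeval X p F, ev_zero X] with i h1 h2
    rw [hF0, h2] at h1
    exact h1.symm
  have hFJ : F ∈ J := by
    by_contra hFJ
    have h1 := (hb.gen F hFJ hFh).filter_mono hU
    have h2 : ∀ᶠ i in (X.U : Filter ℕ), False := by
      filter_upwards [h1, hev, hp, hS] with i h3 h4 h5 h6
      exact h3 _ (h6 h5) h4
    obtain ⟨_, h3⟩ := h2.exists
    exact h3
  have hne : ∀ᶠ i in (X.U : Filter ℕ), eval (fun c => X.ev (Sum.elim (Fin.elim0 : Fin 0 → B)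
      (fun j => p (s j)) c) i) (pderiv (Sum.inr j) G) ≠ 0 := by
    filter_upwards [ev_ne X hGj, ev_aeval X (Sum.elim (Fin.elim0 : Fin 0 → B) fun j => p (s j))
      (pderiv (Sum.inr j) G)] with i h1 h2
    rw [← h2]
    exact h1
  obtain ⟨i, h1, h2, h3⟩ := (hp.and (hc.pt.and hne)).exists
  obtain ⟨q, hq⟩ : ∃ q, q = evv X p i := ⟨_, rfl⟩
  rw [← hq] at h1
  obtain ⟨hqo, -, -, hqd, hqO⟩ := h2 q h1
  have hqt : (fun c => X.ev (Sum.elim (Fin.elim0 : Fin 0 → B) (fun j => p (s j)) c) i) =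
      fun c => q (Sum.elim (Fin.elim0 : Fin 0 → ι) s c) := by
    funext c
    rcases c with c | c
    · exact c.elim0
    · rw [hq]
      rfl
  rw [hqt] at h3
  let φ : Tan J q →ₗ[ℚ] (Option (Fin k) → ℚ) :=
    { toFun := fun v b => (v : ι → ℚ) (os o s b)
      map_add' := fun _ _ => rfl
      map_smul' := fun _ _ => rfl }
  have hφi : Function.Injective φ := by
    rw [injective_iff_map_eq_zero]
    intro v hv
    apply Subtype.ext
    funext a
    obtain ⟨b, hb'⟩ := hqO v v.2 a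
    have h4 : (v : ι → ℚ) (os o s b) = 0 := congrFun hv b
    rw [h4, padicNorm.zero] at hb'
    exact padicNorm.zero_of_padicNorm_eq_zero (le_antisymm hb' (padicNorm.nonneg _))
  have hfr : Module.finrank ℚ (Tan J q) = Module.finrank ℚ (Option (Fin k) → ℚ) := by
    rw [hqd, Module.finrank_fintype_fun_eq_card, Fintype.card_option, Fintype.card_fin]
  have hφs : Function.Surjective φ :=
    (LinearMap.injective_iff_surjective_of_finrank_eq_finrank hfr).1 hφi
  obtain ⟨v, hv⟩ := hφs (Pi.single (some j) 1)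
  have hvo : (v : ι → ℚ) o = 0 := by
    have h4 := congrFun hv none
    rw [Pi.single_eq_of_ne (by simp)] at h4
    exact h4
  have hvs : ∀ j', (v : ι → ℚ) (s j') = if j' = j then 1 else 0 := by
    intro j'
    have h4 := congrFun hv (some j')
    by_cases h5 : j' = j
    · subst h5
      rw [Pi.single_eq_same] at h4
      rw [if_pos rfl]
      exact h4
    · rw [Pi.single_eq_of_ne (by simpa using h5)] at h4
      rw [if_neg h5]
      exact h4
  have h4 := (hF ℚ q hqo).2 v hvo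
  rw [(mem_Tan.1 v.2) F hFJ, Fintype.sum_sum_type, Finset.univ_eq_empty, Finset.sum_empty, zero_add,
    Finset.sum_eq_single j] at h4
  · rw [show (v : ι → ℚ) (Sum.elim (Fin.elim0 : Fin 0 → ι) s (Sum.inr j)) = 1 from by
      show (v : ι → ℚ) (s j) = 1
      rw [hvs, if_pos rfl], mul_one] at h4
    refine h3 ?_
    rw [← coe_aeval_eq_eval]
    exact h4.symm
  · intro j' _ hj'
    rw [show (v : ι → ℚ) (Sum.elim (Fin.elim0 : Fin 0 → ι) s (Sum.inr j')) = 0 from by
      show (v : ι → ℚ) (s j') = 0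
      rw [hvs, if_neg hj'], mul_zero]
  · intro h5
    exact absurd (Finset.mem_univ j) h5

end Pool.Agent.Lib.MP_17a322_nt.MV
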