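import Pool.Agent.Lib.MP_17a322_nt.MV.E2
import Pool.Agent.Lib.MP_17a322_nt.MV.E3
import Pool.Agent.Lib.MP_17a322_nt.MV.E4
import Pool.Agent.Lib.MP_17a322_nt.MV.D1
import Pool.Agent.Lib.MP_17a322_nt.FQ.A5

/-!
The upper bound for the number of the points.
-/

namespace Pool.Agent.Lib.MP_17a322_nt.MV

open MvPolynomial Height NumberField
open Pool.Agent.Lib.MP_17a322_nt.EQ
open Pool.Agent.Lib.MP_17a322_nt.FQ
open Pool.Agent.Lib.MP_17a322_nt.JAC (VojtaGauss)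

private theorem e5_big {ι : Type} [Fintype ι] {J : Ideal (MvPolynomial ι ℚ)} {α c : ℝ}
    {T : ℕ → ℝ} {S : ℕ → Finset (ι → ℚ)} (hb : Bad J α c T S) {B : Type} [Field B] [Algebra ℚ B] (X : Evl ℚ B ℕ)
    (hT : X.h = T) (hU : (X.U : Filter ℕ) ≤ Filter.atTop) : Big X S c := by
  intro c' hc'
  filter_upwards [hU hb.big, ev_pos X] with i h1 h2
  refine le_trans ?_ h1
  rw [← hT]
  exact Real.exp_le_exp.2 (mul_le_mul_of_nonneg_right hc'.le h2.le)

/-- The bound for the numbers of points follows from the case `D = 0` of Vojta's conjecture. -/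
theorem grow_of_gauss (hQ : SemiQ) (hV : VojtaGauss ℚ) (n : ℕ) {α : ℝ} (hα : 0 ≤ α) : GrowG ℚ n α := by
  by_contra hcon
  obtain ⟨ι, _, J, δ, T, S₀, hJp, hJ, hδ, hb₀⟩ := exists_bad hα hcon
  obtain ⟨S, hb, hn⟩ := norm_bad hJ hb₀
  obtain ⟨U, hUd⟩ : ∃ U : Ultrafilter ℕ, U = Filter.hyperfilter ℕ := ⟨_, rfl⟩
  have hUle : (U : Filter ℕ) ≤ Filter.atTop := by
    rw [hUd]
    exact Nat.hyperfilter_le_atTop
  have htU : Filter.Tendsto T (U : Filter ℕ) Filter.atTop := hb.top.mono_left hUle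
  obtain ⟨B, _, _, X, hXU, hXh⟩ := exists_evl ℚ ℕ U T htU
  have hU : (X.U : Filter ℕ) ≤ Filter.atTop := by
    rw [hXU]
    exact hUle
  have hne : ∀ᶠ i in Filter.atTop, (S i).Nonempty := by
    filter_upwards [hb.big] with i hi
    rw [← Finset.card_pos]
    by_contra h0
    have h1 : (S i).card = 0 := by omega
    rw [h1, Nat.cast_zero] at hi
    exact absurd (Real.exp_pos (( α + δ) * T i)) (not_lt.2 hi)
  obtain ⟨o, k, s, S₁, hL, hc⟩ := bad_cfg hV hJp hJ hb hn hne X hXh hU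
  have hB : Big X S₁ (α + δ) := Big.lg X hL (e5_big hb X hXh hU)
  have hcp : 0 < α + δ := by linarith
  have hkap : ∀ S' : ℕ → Finset (ι → ℚ), (∀ᶠ i in (X.U : Filter ℕ), S' i ⊆ S i) →
      ∀ᶠ i in (X.U : Filter ℕ), ∀ p ∈ S' i, -kap (Tan J p) p ≤ α * X.h i := by
    intro S' hS'
    filter_upwards [hS'] with i hi p hp
    have h1 := (hb.pt i p (hi hp)).2.2
    rw [hXh]
    exact h1
  rcases full_piece X hc hB hcp (half_pos hδ) with ⟨F', S₂, -, hL₂, hc₂, hf₂⟩ |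
    ⟨k', hk', F', S₂, V', s', t', -, hL₂, hc₂, hf₂, hV', ht'⟩
  · have h1 := claim X hQ k hc₂ hf₂ (Big.lg X hL₂ hB) hcp (hkap S₂ (hL₂.trans X hL).1)
    linarith
  · have h1 := claim X hQ k' hc₂ hf₂ (Big.lg X hL₂ hB) hcp (t := t')
      (ht'.mono fun i h p hp => (h p hp).2)
    obtain ⟨p, hp⟩ := exists_mem X hc₂ (Big.lg X hL₂ hB)
    have hp₁ : Mem X S₁ p := hp.mono X hL₂.1
    have hi := bad_ind hb X hU hL.1 hc hp₁
    refine lemQ0 X hQ hc (ε := t' - δ / 2 - α) (by linarith) p (fun i => V' i (evv X p i)) k' hp₁ hi hk'.le ?_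
    filter_upwards [hV', ht', hc₂.pt, hp, hkap S₂ (hL₂.trans X hL).1] with i h2 h3 h4 h5 h6
    refine ⟨h2 _ h5, (h4 _ h5).2.2.1, (h4 _ h5).2.2.2.1, ?_⟩
    have h7 := (h3 _ h5).1
    have h8 := h6 _ h5
    nlinarith

end Pool.Agent.Lib.MP_17a322_nt.MV
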