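import Pool.Agent.Lib.MP_17a322_nt.EQ.Defs

/-!
The upper bounds for the numbers of the points of projective varieties, smooth or not: definitions.
-/

universe u

namespace Pool.Agent.Lib.MP_17a322_nt.MV

open MvPolynomial Height NumberField
open Pool.Agent.Lib.MP_17a322_nt.EQ

/-- The bound with the exponent `α` for the number of the points of the projective varieties of dimension `n` over `K`,
smooth or not, at which the anticanonical height is at most `α` times the height: for every homogeneous prime ideal `J`
such that `K[X] ⧸ J` has the transcendence degree `n + 1` and every `δ > 0` there are a proper closed subset `G = 0` and a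
number `A` such that for every `T` at most `A exp ((α + δ) T)` points `p` over `K` outside it satisfy `h(p) ≤ T` and
`- hCan(p) ≤ α h(p)`. (`S` is a finite set of such points, given by vectors no two of which are proportional.) -/
def GrowG (K : Type u) [Field K] [NumberField K] (n : ℕ) (α : ℝ) : Prop :=
  ∀ (ι : Type) [Fintype ι] (J : Ideal (MvPolynomial ι K)), J.IsPrime →
    (∀ F ∈ J, ∀ i, homogeneousComponent i F ∈ J) → Algebra.trdeg K (MvPolynomial ι K ⧸ J) = n + 1 →
    ∀ δ : ℝ, 0 < δ → ∃ (G : MvPolynomial ι K) (A : ℝ), G ∉ J ∧ (∃ e, G.IsHomogeneous e) ∧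
      ∀ (T : ℝ) (S : Finset (ι → K)),
        (∀ p ∈ S, IsPt J p ∧ eval p G ≠ 0 ∧ logHeight p ≤ T ∧ -hCan J p ≤ α * logHeight p) →
        (∀ p ∈ S, ∀ q ∈ S, (∃ a : K, q = a • p) → p = q) → (S.card : ℝ) ≤ A * Real.exp ((α + δ) * T)

/-- For every projective variety over `K`, smooth or not, and every `δ > 0` the sum of the numbers
`exp (hCan(p) - δ h(p))` over the points `p` over `K` outside a proper closed subset is finite. (`S` is a finite set of
points, given by vectors no two of which are proportional; `A` is a bound for all finite partial sums.) -/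
def SumG (K : Type u) [Field K] [NumberField K] : Prop :=
  ∀ (ι : Type) [Fintype ι] (J : Ideal (MvPolynomial ι K)), J.IsPrime →
    (∀ F ∈ J, ∀ i, homogeneousComponent i F ∈ J) → ∀ δ : ℝ, 0 < δ →
    ∃ (G : MvPolynomial ι K) (A : ℝ), G ∉ J ∧ (∃ e, G.IsHomogeneous e) ∧ ∀ S : Finset (ι → K),
      (∀ p ∈ S, IsPt J p ∧ eval p G ≠ 0) → (∀ p ∈ S, ∀ q ∈ S, (∃ a : K, q = a • p) → p = q) →
        ∑ p ∈ S, Real.exp (hCan J p - δ * logHeight p) ≤ A

end Pool.Agent.Lib.MP_17a322_nt.MV
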