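import Pool.Agent.Lib.MP_17a322_nt.MG.A1

/-!
The product with a projective space: the dimension.
-/

set_option linter.unusedSectionVars false

universe u

namespace Pool.Agent.Lib.MP_17a322_nt.MV

open MvPolynomial
open Pool.Agent.Lib.MP_17a322_nt.EQ
open Pool.Agent.Lib.MP_17a322_nt.MG

/-- A root of a linear polynomial is algebraic. -/
private theorem S0_lin {D R : Type u} [CommRing D] [CommRing R] [IsDomain R] [Algebra D R] {a b : D} {y : R}
    (ha : algebraMap D R a ≠ 0) (h : algebraMap D R a * y = algebraMap D R b) : IsAlgebraic D y := by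
  refine ⟨Polynomial.C a * Polynomial.X - Polynomial.C b, fun h0 => ha ?_, ?_⟩
  · have h1 := congrArg (fun p : Polynomial D => p.coeff 1) h0
    simp only [Polynomial.coeff_sub, Polynomial.coeff_C_mul, Polynomial.coeff_X_one, mul_one,
      Polynomial.coeff_C_succ, sub_zero, Polynomial.coeff_zero] at h1
    rw [h1, map_zero]
  · rw [map_sub, map_mul, Polynomial.aeval_C, Polynomial.aeval_C, Polynomial.aeval_X, h, sub_self]

/-- An element with infinitely many images is transcendental. -/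
private theorem S0_trans {S R : Type u} [CommRing S] [CommRing R] [IsDomain R] [Algebra S R]
    (hinj : Function.Injective (algebraMap S R)) {y : R}
    (hθ : Set.Infinite {z : R | ∃ θ : R →+* R, (∀ x : S, θ (algebraMap S R x) = algebraMap S R x) ∧ θ y = z}) :
    Transcendental S y := by
  rintro ⟨P, hP0, hP⟩
  have h1 : P.map (algebraMap S R) ≠ 0 := by
    intro h
    apply hP0
    exact Polynomial.map_injective _ hinj (by rw [h, Polynomial.map_zero])
  apply h1
  refine Polynomial.eq_zero_of_infinite_isRoot _ (hθ.mono ?_)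
  rintro _ ⟨θ, hθ1, rfl⟩
  show Polynomial.eval _ (P.map (algebraMap S R)) = 0
  rw [Polynomial.eval_map]
  have h4 := Polynomial.hom_eval₂ P (algebraMap S R) θ y
  have h5 : θ.comp (algebraMap S R) = algebraMap S R := RingHom.ext fun x => hθ1 x
  rw [h5] at h4
  rw [← h4]
  have h6 : Polynomial.eval₂ (algebraMap S R) y P = 0 := hP
  rw [h6, map_zero]

/-- The transcendence degree is one. -/
private theorem S0_one {S R : Type u} [CommRing S] [CommRing R] [IsDomain R] [Algebra S R]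
    (hinj : Function.Injective (algebraMap S R)) {y : R} (hy : Transcendental S y) {G : Set R}
    (hG : Algebra.adjoin S G = ⊤)
    (h : ∀ g ∈ G, ∃ a ∈ Algebra.adjoin S {y}, ∃ b ∈ Algebra.adjoin S {y}, a ≠ 0 ∧ a * g = b) :
    Algebra.trdeg S R = 1 := by
  have t2 : 0 < Algebra.trdeg S R := by
    have : Algebra.Transcendental S R := ⟨⟨_, hy⟩⟩
    exact trdeg_pos _ _
  have f : FaithfulSMul S R := (faithfulSMul_iff_algebraMap_injective S R).2 hinj
  have t3 : Algebra.IsAlgebraic (Algebra.adjoin S ({y} : Set R)) R := by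
    refine ⟨fun x => ?_⟩
    have h1 : x ∈ Algebra.adjoin S G := by
      rw [hG]
      trivial
    change x ∈ Subalgebra.algebraicClosure (Algebra.adjoin S ({y} : Set R)) R
    refine Algebra.adjoin_induction (fun g hg => ?_) (fun c => ?_) (fun a b _ _ ha hb => ?_)
      (fun a b _ _ ha hb => ?_) h1
    · obtain ⟨a, ha, b, hb, ha0, hab⟩ := h g hg
      exact S0_lin (D := Algebra.adjoin S ({y} : Set R)) (a := ⟨a, ha⟩) (b := ⟨b, hb⟩) ha0 hab
    · exact Subalgebra.algebraMap_mem (Subalgebra.algebraicClosure (Algebra.adjoin S ({y} : Set R)) R)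
        (algebraMap S (Algebra.adjoin S ({y} : Set R)) c)
    · exact Subalgebra.add_mem _ ha hb
    · exact Subalgebra.mul_mem _ ha hb
  have t4 := Algebra.IsAlgebraic.trdeg_le_cardinalMk S ({y} : Set R)
  rw [Cardinal.mk_singleton] at t4
  exact le_antisymm t4 (Cardinal.one_le_iff_pos.2 t2)

section

variable {K : Type u} [Field K] {ι Λ : Type} [Fintype ι] [Fintype Λ] {J : Ideal (MvPolynomial ι K)}

/-- Scaling of the generic point. -/
private theorem S0_scal (hJh : ∀ F ∈ J, ∀ i, homogeneousComponent i F ∈ J) (a : K) :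
    ∃ β : (MvPolynomial ι K ⧸ J) →ₐ[K] (MvPolynomial ι K ⧸ J), ∀ i, β (gen J i) = a • gen J i := by
  have h0 : ∀ F ∈ J, aeval (fun i => a • gen J i) F = 0 := by
    intro F hF
    rw [← sum_homogeneousComponent F, map_sum]
    refine Finset.sum_eq_zero fun d _ => ?_
    have h1 : aeval (fun i => a • gen J i) (homogeneousComponent d F) =
        a ^ d • aeval (gen J) (homogeneousComponent d F) := by
      have h2 := homogeneousComponent_isHomogeneous d F
      rw [aeval_def, aeval_def, eval₂_eq', eval₂_eq', Finset.smul_sum]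
      refine Finset.sum_congr rfl fun m hm => ?_
      have h3 : ∑ l, m l = d := by
        rw [← Finsupp.degree_eq_sum]
        exact h2.degree_eq_sum_deg_support hm ▸ rfl
      have h4 : ∏ i, (a • gen J i) ^ m i = a ^ d • ∏ i, gen J i ^ m i := by
        rw [← h3, ← Finset.prod_pow_eq_pow_sum, ← Finset.prod_smul]
        refine Finset.prod_congr rfl fun i _ => ?_
        rw [smul_pow]
      rw [h4, mul_smul_comm]
    rw [h1, gen_zero _ (hJh F hF d), smul_zero]
  refine ⟨Ideal.Quotient.liftₐ J (aeval fun i => a • gen J i) h0, fun i => ?_⟩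
  have h1 : Ideal.Quotient.liftₐ J (aeval fun i => a • gen J i) h0 (gen J i) =
      aeval (fun i => a • gen J i) (X i) := rfl
  rw [h1, aeval_X]

/-- The embedding of the coordinate ring of the cone over the product. -/
private noncomputable def S0_phi (Λ : Type) (J : Ideal (MvPolynomial ι K)) :
    (MvPolynomial (ι × Λ) K ⧸ qJ Λ J) →ₐ[K] MvPolynomial Λ (MvPolynomial ι K ⧸ J) :=
  Ideal.Quotient.liftₐ (qJ Λ J) (aeval fun z : ι × Λ => C (gen J z.1) * X z.2) fun _ hF => hF

private theorem S0_phi_mk (F : MvPolynomial (ι × Λ) K) : S0_phi Λ J (Ideal.Quotient.mk (qJ Λ J) F) =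
    aeval (fun z : ι × Λ => (C (gen J z.1) * X z.2 : MvPolynomial Λ (MvPolynomial ι K ⧸ J))) F := rfl

private theorem S0_phi_inj : Function.Injective (S0_phi Λ J) := by
  rw [injective_iff_map_eq_zero]
  intro x hx
  obtain ⟨F, rfl⟩ := Ideal.Quotient.mk_surjective x
  rw [S0_phi_mk] at hx
  exact Ideal.Quotient.eq_zero_iff_mem.2 hx

/-- Scaling of the parameters. -/
private theorem S0_theta (hJh : ∀ F ∈ J, ∀ i, homogeneousComponent i F ∈ J) {a : K} (ha : a ≠ 0) :
    ∃ θ : MvPolynomial Λ (MvPolynomial ι K ⧸ J) →ₐ[K] MvPolynomial Λ (MvPolynomial ι K ⧸ J),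
      (∀ x, θ (S0_phi Λ J x) = S0_phi Λ J x) ∧ ∀ l, θ (X l) = a • X l := by
  obtain ⟨β, hβ⟩ := S0_scal hJh a⁻¹
  let θ₀ : MvPolynomial Λ (MvPolynomial ι K ⧸ J) →+* MvPolynomial Λ (MvPolynomial ι K ⧸ J) :=
    eval₂Hom ((C : _ →+* MvPolynomial Λ (MvPolynomial ι K ⧸ J)).comp β.toRingHom) fun l => a • X l
  let θ : MvPolynomial Λ (MvPolynomial ι K ⧸ J) →ₐ[K] MvPolynomial Λ (MvPolynomial ι K ⧸ J) :=
    { θ₀ with
      commutes' := fun c => by
        show θ₀ (C (algebraMap K _ c)) = C (algebraMap K _ c)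
        show eval₂ _ _ (C (algebraMap K _ c)) = C (algebraMap K _ c)
        rw [eval₂_C]
        show C (β (algebraMap K _ c)) = _
        rw [β.commutes] }
  have h1 : ∀ b, θ (C b) = C (β b) := fun b => by
    show eval₂ _ _ (C b) = C (β b)
    rw [eval₂_C]
    rfl
  have h2 : ∀ l, θ (X l) = a • X l := fun l => by
    show eval₂ _ _ (X l) = _
    rw [eval₂_X]
  refine ⟨θ, fun x => ?_, h2⟩
  obtain ⟨F, rfl⟩ := Ideal.Quotient.mk_surjective x
  rw [S0_phi_mk]
  have h3 : (θ.comp (aeval fun z : ι × Λ =>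
      (C (gen J z.1) * X z.2 : MvPolynomial Λ (MvPolynomial ι K ⧸ J)))) =
      aeval fun z : ι × Λ => (C (gen J z.1) * X z.2 : MvPolynomial Λ (MvPolynomial ι K ⧸ J)) := by
    refine algHom_ext fun z => ?_
    rw [AlgHom.comp_apply, aeval_X, map_mul, h1, h2, hβ]
    have h4 : (C (a⁻¹ • gen J z.1) : MvPolynomial Λ (MvPolynomial ι K ⧸ J)) = a⁻¹ • C (gen J z.1) := by
      rw [Algebra.smul_def (A := MvPolynomial ι K ⧸ J), C_mul, Algebra.smul_def]
      rfl
    rw [h4, smul_mul_smul_comm, inv_mul_cancel₀ ha, one_smul]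
  exact congrArg (fun f : MvPolynomial (ι × Λ) K →ₐ[K] _ => f F) h3

end

/-- The dimension of the product with a projective space. -/
theorem trdeg_qJ {K : Type u} [Field K] [Infinite K] {ι Λ : Type} [Fintype ι] [Fintype Λ]
    {J : Ideal (MvPolynomial ι K)} (hJ : J.IsPrime) (hJh : ∀ F ∈ J, ∀ i, homogeneousComponent i F ∈ J)
    {n r : ℕ} (hn : Algebra.trdeg K (MvPolynomial ι K ⧸ J) = n + 1) (hΛ : Fintype.card Λ = r + 1) :
    Algebra.trdeg K (MvPolynomial (ι × Λ) K ⧸ qJ Λ J) = (n + r : ℕ) + 1 := by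
  classical
  have hdom : IsDomain (MvPolynomial ι K ⧸ J) := Ideal.Quotient.isDomain J
  have hq : (qJ Λ J).IsPrime := qJ_prime hJ
  have hdomS : IsDomain (MvPolynomial (ι × Λ) K ⧸ qJ Λ J) := Ideal.Quotient.isDomain _
  -- some coordinate is not in the ideal
  obtain ⟨i₀, hi₀⟩ : ∃ i, gen J i ≠ 0 := by
    by_contra hcon
    push Not at hcon
    have h1 : Algebra.IsAlgebraic K (MvPolynomial ι K ⧸ J) := by
      refine ⟨fun x => ?_⟩
      obtain ⟨F, rfl⟩ := Ideal.Quotient.mk_surjective x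
      have h2 : Ideal.Quotient.mk J F = algebraMap K _ (constantCoeff F) := by
        rw [← aeval_gen]
        have h3 : gen J = 0 := funext hcon
        rw [h3, aeval_zero]
      rw [h2]
      exact isAlgebraic_algebraMap _
    have h2 : Algebra.trdeg K (MvPolynomial ι K ⧸ J) = 0 := trdeg_eq_zero_iff.2 h1
    rw [hn] at h2
    have h3 : ((n + 1 : ℕ) : Cardinal) = 0 := by
      rw [← h2]
      push_cast
      rfl
    rw [Nat.cast_eq_zero] at h3
    omega
  obtain ⟨l₀⟩ : Nonempty Λ := Fintype.card_pos_iff.1 (by omega)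
  let alg : Algebra (MvPolynomial (ι × Λ) K ⧸ qJ Λ J) (MvPolynomial Λ (MvPolynomial ι K ⧸ J)) :=
    (S0_phi Λ J).toRingHom.toAlgebra
  have hmap : ∀ x, algebraMap (MvPolynomial (ι × Λ) K ⧸ qJ Λ J) (MvPolynomial Λ (MvPolynomial ι K ⧸ J)) x =
      S0_phi Λ J x := fun _ => rfl
  have hinj : Function.Injective (algebraMap (MvPolynomial (ι × Λ) K ⧸ qJ Λ J)
      (MvPolynomial Λ (MvPolynomial ι K ⧸ J))) := fun x y hxy => S0_phi_inj hxy
  have tow : IsScalarTower K (MvPolynomial (ι × Λ) K ⧸ qJ Λ J) (MvPolynomial Λ (MvPolynomial ι K ⧸ J)) :=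
    IsScalarTower.of_algebraMap_eq fun c => ((S0_phi Λ J).commutes c).symm
  have f1 : FaithfulSMul K (MvPolynomial (ι × Λ) K ⧸ qJ Λ J) :=
    (faithfulSMul_iff_algebraMap_injective K (MvPolynomial (ι × Λ) K ⧸ qJ Λ J)).2
      (algebraMap K (MvPolynomial (ι × Λ) K ⧸ qJ Λ J)).injective
  have f2 : FaithfulSMul (MvPolynomial (ι × Λ) K ⧸ qJ Λ J) (MvPolynomial Λ (MvPolynomial ι K ⧸ J)) :=
    (faithfulSMul_iff_algebraMap_injective _ _).2 S0_phi_inj
  have f3 : FaithfulSMul K (MvPolynomial ι K ⧸ J) :=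
    (faithfulSMul_iff_algebraMap_injective K (MvPolynomial ι K ⧸ J)).2
      (algebraMap K (MvPolynomial ι K ⧸ J)).injective
  have f4 : FaithfulSMul (MvPolynomial ι K ⧸ J) (MvPolynomial Λ (MvPolynomial ι K ⧸ J)) :=
    (faithfulSMul_iff_algebraMap_injective _ _).2 (C_injective _ _)
  have e1 := trdeg_add_eq K (MvPolynomial (ι × Λ) K ⧸ qJ Λ J)
    (A := MvPolynomial Λ (MvPolynomial ι K ⧸ J))
  have e2 := trdeg_add_eq K (MvPolynomial ι K ⧸ J) (A := MvPolynomial Λ (MvPolynomial ι K ⧸ J))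
  have e3 : Algebra.trdeg (MvPolynomial ι K ⧸ J) (MvPolynomial Λ (MvPolynomial ι K ⧸ J)) =
      ((r + 1 : ℕ) : Cardinal) := by
    rw [MvPolynomial.trdeg_of_isDomain, Cardinal.mk_fintype, hΛ, Cardinal.lift_natCast]
  -- `X l₀` is transcendental over the coordinate ring of the product
  have t1 : Transcendental (MvPolynomial (ι × Λ) K ⧸ qJ Λ J)
      (X l₀ : MvPolynomial Λ (MvPolynomial ι K ⧸ J)) := by
    refine S0_trans (S := MvPolynomial (ι × Λ) K ⧸ qJ Λ J)
      (R := MvPolynomial Λ (MvPolynomial ι K ⧸ J)) hinj ?_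
    have h2 : Set.range (fun a : {a : K // a ≠ 0} =>
        (a : K) • (X l₀ : MvPolynomial Λ (MvPolynomial ι K ⧸ J))) ⊆
        {z | ∃ θ : MvPolynomial Λ (MvPolynomial ι K ⧸ J) →+* MvPolynomial Λ (MvPolynomial ι K ⧸ J),
          (∀ x : MvPolynomial (ι × Λ) K ⧸ qJ Λ J, θ (algebraMap _ _ x) = algebraMap _ _ x) ∧
            θ (X l₀) = z} := by
      rintro _ ⟨a, rfl⟩
      obtain ⟨θ, hθ1, hθ2⟩ := S0_theta (Λ := Λ) hJh a.2
      exact ⟨θ.toRingHom, hθ1, hθ2 l₀⟩
    refine Set.Infinite.mono h2 ?_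
    have h3 : Infinite {a : K // a ≠ 0} := by
      have h4 : Set.Infinite {a : K | a ≠ 0} := by
        have h5 : {a : K | a ≠ 0} = {0}ᶜ := rfl
        rw [h5]
        exact (Set.finite_singleton (0 : K)).infinite_compl
      exact h4.to_subtype
    refine Set.infinite_range_of_injective fun a b hab => Subtype.ext ?_
    have h4 : algebraMap K (MvPolynomial Λ (MvPolynomial ι K ⧸ J)) a * X l₀ =
        algebraMap K (MvPolynomial Λ (MvPolynomial ι K ⧸ J)) b * X l₀ := by
      rw [← Algebra.smul_def, ← Algebra.smul_def]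
      exact hab
    exact (algebraMap K (MvPolynomial Λ (MvPolynomial ι K ⧸ J))).injective
      (mul_right_cancel₀ (X_ne_zero l₀) h4)
  have hgX : ∀ i l, S0_phi Λ J (Ideal.Quotient.mk _ (X (i, l))) = C (gen J i) * X l := fun i l => by
    rw [S0_phi_mk, aeval_X]
  obtain ⟨G, hG⟩ : ∃ G : Set (MvPolynomial Λ (MvPolynomial ι K ⧸ J)),
      G = (Set.range fun i => C (gen J i)) ∪ Set.range fun l => X l := ⟨_, rfl⟩
  have hGtop : Algebra.adjoin (MvPolynomial (ι × Λ) K ⧸ qJ Λ J) G = ⊤ := by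
    have h1 : ∀ i, (C (gen J i) : MvPolynomial Λ (MvPolynomial ι K ⧸ J)) ∈
        Algebra.adjoin (MvPolynomial (ι × Λ) K ⧸ qJ Λ J) G := fun i =>
      Algebra.subset_adjoin (by rw [hG]; exact Or.inl ⟨i, rfl⟩)
    have h2 : ∀ l, (X l : MvPolynomial Λ (MvPolynomial ι K ⧸ J)) ∈
        Algebra.adjoin (MvPolynomial (ι × Λ) K ⧸ qJ Λ J) G := fun l =>
      Algebra.subset_adjoin (by rw [hG]; exact Or.inr ⟨l, rfl⟩)
    have h3 : ∀ b : MvPolynomial ι K ⧸ J, (C b : MvPolynomial Λ (MvPolynomial ι K ⧸ J)) ∈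
        Algebra.adjoin (MvPolynomial (ι × Λ) K ⧸ qJ Λ J) G := by
      intro b
      obtain ⟨F, rfl⟩ := Ideal.Quotient.mk_surjective b
      induction F using MvPolynomial.induction_on with
      | C c =>
        have h4 : (C (Ideal.Quotient.mk J (C c)) : MvPolynomial Λ (MvPolynomial ι K ⧸ J)) =
            algebraMap (MvPolynomial (ι × Λ) K ⧸ qJ Λ J) _ (algebraMap K _ c) := by
          rw [hmap, AlgHom.commutes]
          rfl
        rw [h4]
        exact Subalgebra.algebraMap_mem _ _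
      | add F G hF hG =>
        rw [map_add, C_add]
        exact Subalgebra.add_mem _ hF hG
      | mul_X F i hF =>
        rw [map_mul, C_mul]
        exact Subalgebra.mul_mem _ hF (h1 i)
    refine eq_top_iff.2 fun y _ => ?_
    induction y using MvPolynomial.induction_on with
    | C b => exact h3 b
    | add F G hF hG => exact Subalgebra.add_mem _ (hF trivial) (hG trivial)
    | mul_X F l hF => exact Subalgebra.mul_mem _ (hF trivial) (h2 l)
  have hS : ∀ x, S0_phi Λ J x ∈ Algebra.adjoin (MvPolynomial (ι × Λ) K ⧸ qJ Λ J)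
      ({X l₀} : Set (MvPolynomial Λ (MvPolynomial ι K ⧸ J))) := fun x => Subalgebra.algebraMap_mem _ x
  have hX : (X l₀ : MvPolynomial Λ (MvPolynomial ι K ⧸ J)) ∈
      Algebra.adjoin (MvPolynomial (ι × Λ) K ⧸ qJ Λ J)
        ({X l₀} : Set (MvPolynomial Λ (MvPolynomial ι K ⧸ J))) := Algebra.subset_adjoin rfl
  have t5 : Algebra.trdeg (MvPolynomial (ι × Λ) K ⧸ qJ Λ J) (MvPolynomial Λ (MvPolynomial ι K ⧸ J)) = 1 := by
    refine S0_one (S := MvPolynomial (ι × Λ) K ⧸ qJ Λ J)
      (R := MvPolynomial Λ (MvPolynomial ι K ⧸ J)) hinj t1 hGtop fun g hg => ?_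
    rw [hG] at hg
    rcases hg with ⟨i, rfl⟩ | ⟨l, rfl⟩
    · refine ⟨X l₀, hX, _, hS (Ideal.Quotient.mk _ (X (i, l₀))), X_ne_zero l₀, ?_⟩
      show X l₀ * C (gen J i) = _
      rw [hgX, mul_comm]
    · refine ⟨_, hS (Ideal.Quotient.mk _ (X (i₀, l₀))), _,
        Subalgebra.mul_mem _ (hS (Ideal.Quotient.mk _ (X (i₀, l)))) hX, ?_, ?_⟩
      · rw [hgX]
        exact mul_ne_zero (fun h => hi₀ (C_injective _ _ (by rw [h, C_0]))) (X_ne_zero l₀)
      · show S0_phi Λ J (Ideal.Quotient.mk _ (X (i₀, l₀))) * X l = _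
        rw [hgX, hgX]
        ring
  have e4 : Algebra.trdeg K (MvPolynomial (ι × Λ) K ⧸ qJ Λ J) < Cardinal.aleph0 :=
    trdeg_lt_aleph0_of_finiteType
  obtain ⟨m, hm⟩ := Cardinal.lt_aleph0.1 e4
  rw [t5, ← e2, hn, e3, hm] at e1
  rw [hm]
  have e5 : m + 1 = n + 1 + (r + 1) := by exact_mod_cast e1
  have e6 : m = n + r + 1 := by omega
  rw [e6]
  push_cast
  rfl

end Pool.Agent.Lib.MP_17a322_nt.MV
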