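import Pool.Agent.Lib.MP_17a322_nt.MG.A3

/-!
The product with a projective space: the dimension of the tangent spaces of the cone.
-/

set_option linter.unusedSectionVars false

universe u

namespace Pool.Agent.Lib.MP_17a322_nt.MV

open MvPolynomial
open Pool.Agent.Lib.MP_17a322_nt.EQ
open Pool.Agent.Lib.MP_17a322_nt.MG

open Classical in
/-- extension by zero -/
private noncomputable def S1_ext {Ω : Type u} [Field Ω] {Λ : Type} (l₀ : Λ) (c : {l : Λ // l ≠ l₀} → Ω) (l : Λ) : Ω :=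
  if h : l = l₀ then 0 else c ⟨l, h⟩

private theorem S1_ext_self {Ω : Type u} [Field Ω] {Λ : Type} (l₀ : Λ) (c : {l : Λ // l ≠ l₀} → Ω) :
    S1_ext l₀ c l₀ = 0 := dif_pos rfl

private theorem S1_ext_ne {Ω : Type u} [Field Ω] {Λ : Type} (l₀ : Λ) (c : {l : Λ // l ≠ l₀} → Ω) (l : {l : Λ // l ≠ l₀}) :
    S1_ext l₀ c l = c l := dif_neg l.2

private theorem S1_ext_add {Ω : Type u} [Field Ω] {Λ : Type} (l₀ : Λ) (c c' : {l : Λ // l ≠ l₀} → Ω) (l : Λ) :
    S1_ext l₀ (c + c') l = S1_ext l₀ c l + S1_ext l₀ c' l := by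
  unfold S1_ext
  split_ifs with h
  · rw [add_zero]
  · rfl

private theorem S1_ext_smul {Ω : Type u} [Field Ω] {Λ : Type} (l₀ : Λ) (a : Ω) (c : {l : Λ // l ≠ l₀} → Ω) (l : Λ) :
    S1_ext l₀ (a • c) l = a * S1_ext l₀ c l := by
  unfold S1_ext
  split_ifs with h
  · rw [mul_zero]
  · rfl

section

variable {K : Type u} [Field K] {ι Λ : Type} [Fintype ι] [Fintype Λ] {J : Ideal (MvPolynomial ι K)}
  {L : Type u} [Field L] [Algebra K L]

private theorem S1_tan (hJh : ∀ F ∈ J, ∀ i, homogeneousComponent i F ∈ J) {p : ι × Λ → L} {l₁ : Λ}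
    (hl : ∃ i, p (i, l₁) ≠ 0) {W : Λ → L} (hW : W l₁ = 1) (hpW : ∀ i l, p (i, l) = p (i, l₁) * W l) :
    ∀ y ∈ Tan (qJ Λ J) p, (fun i => y (i, l₁)) ∈ Tan J (fun i => p (i, l₁)) ∧
      ∃ ω : Λ → L, ω l₁ = 0 ∧ ∀ i l, y (i, l) = y (i, l₁) * W l + p (i, l₁) * ω l :=
  fun _ hy => gJ_tan hJh qgen_zero hl hW hpW hy

private theorem S1_le (hJh : ∀ F ∈ J, ∀ i, homogeneousComponent i F ∈ J) {q : ι → L} (hq : IsPt J q)
    {t : Λ → L} (ht : t ≠ 0) {r : ℕ} (hΛ : Fintype.card Λ = r + 1) :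
    Module.finrank L (Tan (qJ Λ J) (sg q t)) ≤ Module.finrank L (Tan J q) + r := by
  classical
  obtain ⟨l₁, hl₁⟩ := Function.ne_iff.1 ht
  have ht₁ : t l₁ ≠ 0 := hl₁
  obtain ⟨i₁, hi₁⟩ := Function.ne_iff.1 hq.1
  have hq₁ : q i₁ ≠ 0 := hi₁
  have hex : ∃ i, sg q t (i, l₁) ≠ 0 := ⟨i₁, mul_ne_zero hq₁ ht₁⟩
  have htan : ∀ y ∈ Tan (qJ Λ J) (sg q t), (fun i => y (i, l₁)) ∈ Tan J q ∧
      ∃ ω : Λ → L, ω l₁ = 0 ∧ ∀ i l, y (i, l) = y (i, l₁) * (t l / t l₁) + sg q t (i, l₁) * ω l := by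
    intro y hy
    obtain ⟨h1, h2⟩ := S1_tan hJh hex (W := fun l => t l / t l₁) (div_self ht₁)
      (fun i l => by
        show q i * t l = q i * t l₁ * (t l / t l₁)
        rw [mul_assoc, mul_div_cancel₀ _ ht₁]) y hy
    refine ⟨?_, h2⟩
    have h3 : (fun i => sg q t (i, l₁)) = fun i => t l₁ * q i := funext fun i => mul_comm _ _
    rw [h3, Tan_mul hJh ht₁] at h1
    exact h1
  let φ : Tan (qJ Λ J) (sg q t) →ₗ[L] Tan J q × ({l : Λ // l ≠ l₁} → L) :=
    LinearMap.prod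
      (LinearMap.codRestrict (Tan J q)
        ((LinearMap.funLeft L L (fun i : ι => (i, l₁))).comp (Tan (qJ Λ J) (sg q t)).subtype)
        (fun y => (htan y.1 y.2).1))
      ((LinearMap.funLeft L L (fun l : {l : Λ // l ≠ l₁} => (i₁, (l : Λ)))).comp (Tan (qJ Λ J) (sg q t)).subtype)
  have hφ : Function.Injective φ := by
    rw [injective_iff_map_eq_zero]
    rintro ⟨y, hy⟩ h
    obtain ⟨-, ω, hω, hyω⟩ := htan y hy
    have h2 : ∀ i, y (i, l₁) = 0 := fun i => congrFun (congrArg Subtype.val (congrArg Prod.fst h)) i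
    have h3 : ∀ l, l ≠ l₁ → y (i₁, l) = 0 := fun l hl => congrFun (congrArg Prod.snd h) ⟨l, hl⟩
    have h4 : ∀ l, ω l = 0 := by
      intro l
      by_cases hl : l = l₁
      · rw [hl, hω]
      · have h5 := hyω i₁ l
        rw [h3 l hl, h2, zero_mul, zero_add] at h5
        exact (mul_eq_zero.1 h5.symm).resolve_left (mul_ne_zero hq₁ ht₁)
    apply Subtype.ext
    funext z
    show y z = 0
    have h5 := hyω z.1 z.2
    rw [h2, h4, zero_mul, mul_zero, add_zero] at h5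
    exact h5
  have h2 := LinearMap.finrank_le_finrank_of_injective hφ
  rw [Module.finrank_prod, Module.finrank_fintype_fun_eq_card, Fintype.card_subtype_compl,
    Fintype.card_subtype_eq, hΛ] at h2
  omega

private theorem S1_ge {q : ι → L} (hq : IsPt J q) {t : Λ → L} (ht : t ≠ 0) {r : ℕ}
    (hΛ : Fintype.card Λ = r + 1) :
    Module.finrank L (Tan J q) + r ≤ Module.finrank L (Tan (qJ Λ J) (sg q t)) := by
  classical
  obtain ⟨l₀, hl₀⟩ := Function.ne_iff.1 ht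
  have ht₀ : t l₀ ≠ 0 := hl₀
  let ψ : (ι → L) × ({l : Λ // l ≠ l₀} → L) →ₗ[L] (ι × Λ → L) :=
    { toFun := fun yc z => yc.1 z.1 * t z.2 + q z.1 * S1_ext l₀ yc.2 z.2
      map_add' := by
        intro a b
        funext z
        have e : S1_ext l₀ (a + b).2 z.2 = S1_ext l₀ a.2 z.2 + S1_ext l₀ b.2 z.2 := S1_ext_add l₀ a.2 b.2 z.2
        rw [e, Pi.add_apply, Prod.fst_add, Pi.add_apply]
        ring
      map_smul' := by
        intro a b
        funext z
        have e : S1_ext l₀ (a • b).2 z.2 = a * S1_ext l₀ b.2 z.2 := S1_ext_smul l₀ a b.2 z.2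
        rw [e, Pi.smul_apply, Prod.smul_fst, Pi.smul_apply, smul_eq_mul, smul_eq_mul, RingHom.id_apply]
        ring }
  let φ : Tan J q × ({l : Λ // l ≠ l₀} → L) →ₗ[L] Tan (qJ Λ J) (sg q t) :=
    LinearMap.codRestrict (Tan (qJ Λ J) (sg q t)) (ψ.comp (LinearMap.prodMap (Tan J q).subtype LinearMap.id)) (by
      rintro ⟨y, c⟩
      exact qJ_tan hq.2 y.2 t (S1_ext l₀ c))
  have hφ : Function.Injective φ := by
    rw [injective_iff_map_eq_zero]
    rintro ⟨y, c⟩ h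
    have h1 : ψ ((y : ι → L), c) = 0 := congrArg Subtype.val h
    have hy : (y : ι → L) = 0 := by
      funext i
      have h2 := congrFun h1 (i, l₀)
      have h3 : (y : ι → L) i * t l₀ + q i * S1_ext l₀ c l₀ = 0 := h2
      rw [S1_ext_self, mul_zero, add_zero] at h3
      exact (mul_eq_zero.1 h3).resolve_right ht₀
    obtain ⟨i, hi⟩ := Function.ne_iff.1 hq.1
    have hc : c = 0 := by
      funext l
      have h2 := congrFun h1 (i, (l : Λ))
      have h3 : (y : ι → L) i * t l + q i * S1_ext l₀ c l = 0 := h2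
      rw [hy, Pi.zero_apply, zero_mul, zero_add, S1_ext_ne] at h3
      exact (mul_eq_zero.1 h3).resolve_left hi
    rw [hc, Prod.mk_eq_zero]
    exact ⟨Subtype.ext hy, rfl⟩
  have h2 := LinearMap.finrank_le_finrank_of_injective hφ
  rw [Module.finrank_prod, Module.finrank_fintype_fun_eq_card, Fintype.card_subtype_compl,
    Fintype.card_subtype_eq, hΛ] at h2
  omega

/-- The dimension of the tangent spaces of the cone over the product, at all points. -/
theorem finrank_qJ (hJh : ∀ F ∈ J, ∀ i, homogeneousComponent i F ∈ J) {q : ι → L} (hq : IsPt J q)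
    {t : Λ → L} (ht : t ≠ 0) {r : ℕ} (hΛ : Fintype.card Λ = r + 1) :
    Module.finrank L (Tan (qJ Λ J) (sg q t)) = Module.finrank L (Tan J q) + r :=
  le_antisymm (S1_le hJh hq ht hΛ) (S1_ge hq ht hΛ)

end

end Pool.Agent.Lib.MP_17a322_nt.MV
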