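import Pool.Agent.Lib.MP_17a322_nt.MG.B2
import Pool.Agent.Lib.MP_17a322_nt.MV.S1

/-!
The product with a projective space: the canonical height at all points.
-/

set_option linter.unusedSectionVars false

universe u

namespace Pool.Agent.Lib.MP_17a322_nt.MV

open MvPolynomial Height NumberField
open Pool.Agent.Lib.MP_17a322_nt.EQ
open Pool.Agent.Lib.MP_17a322_nt.MG

/-- The canonical height on the product, at all points, smooth or not. -/
theorem hCan_qJ_all {K : Type u} [Field K] [NumberField K] {ι : Type} [Fintype ι] {J : Ideal (MvPolynomial ι K)}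
    {r : ℕ} (hJh : ∀ F ∈ J, ∀ i, homogeneousComponent i F ∈ J) {q : ι → K} (hq : IsPt J q)
    {t : Fin (r + 1) → K} (ht : t ≠ 0) :
    hCan J q - (r + 1) * logHeight t ≤ hCan (qJ (Fin (r + 1)) J) (sg q t) := by
  obtain ⟨n, hT⟩ : ∃ n, Module.finrank K (Tan J q) = n + 1 := by
    have h1 : Nontrivial (Tan J q) := by
      refine ⟨⟨⟨q, self_mem_Tan hJh hq⟩, 0, fun h => hq.1 ?_⟩⟩
      exact congrArg Subtype.val h
    have h2 : 0 < Module.finrank K (Tan J q) := Module.finrank_pos
    exact ⟨Module.finrank K (Tan J q) - 1, by omega⟩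
  have hT' : Module.finrank K (Tan (qJ (Fin (r + 1)) J) (sg q t)) = n + r + 1 := by
    rw [finrank_qJ hJh hq ht (Fintype.card_fin _), hT]
    omega
  obtain ⟨y, hy0, hy, hyi⟩ := exists_basis (Tan J q) hT (self_mem_Tan hJh hq) hq.1
  -- the vectors of the tangent space of the product
  have hY : ∀ a, fam q y t a ∈ Tan (qJ (Fin (r + 1)) J) (sg q t) := by
    rintro (j | a)
    · have h := qJ_tan hq.2 (Submodule.zero_mem (Tan J q)) t fun l => if l = j then 1 else 0
      have h1 : fam q y t (Sum.inl j) = fun z : ι × Fin (r + 1) =>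
          (0 : ι → K) z.1 * t z.2 + q z.1 * if z.2 = j then 1 else 0 := by
        ext z
        rw [Pi.zero_apply, zero_mul, zero_add]
        rfl
      rw [h1]
      exact h
    · have h := qJ_tan hq.2 (hy a.succ) t fun _ => 0
      have h1 : fam q y t (Sum.inr a) = fun z : ι × Fin (r + 1) =>
          y a.succ z.1 * t z.2 + q z.1 * (fun _ => 0 : Fin (r + 1) → K) z.2 := by
        ext z
        rw [mul_zero, add_zero]
        rfl
      rw [h1]
      exact h
  have hYi : LinearIndependent K (fam q y t) := fam_indep hyi hy0 ht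
  let e : Fin (n + r + 1) ≃ Fin (r + 1) ⊕ Fin n :=
    (finCongr (by omega)).trans finSumFinEquiv.symm
  -- the heights
  have e1 : hPl (Tan J q) =
      logHeight fun s : Fin (n + 1) → ι => (Matrix.of fun a b => y a (s b)).det :=
    hPl_eq _ hT y hy hyi
  have e2 : hPl (Tan (qJ (Fin (r + 1)) J) (sg q t)) =
      logHeight fun s : Fin (n + r + 1) → ι × Fin (r + 1) =>
        (Matrix.of fun a b => fam q y t (e a) (s b)).det :=
    hPl_eq _ hT' (fun a => fam q y t (e a)) (fun a => hY (e a)) (hYi.comp e e.injective)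
  have e3 : hPl (Tan J q) + (r * logHeight q + n * logHeight t) ≤
      hPl (Tan (qJ (Fin (r + 1)) J) (sg q t)) := by
    have hu : (fun k : Fin r → ι => ∏ m, q (k m)) ≠ 0 := by
      obtain ⟨i, hi⟩ := Function.ne_iff.1 hq.1
      exact Function.ne_iff.2 ⟨fun _ => i, Finset.prod_ne_zero_iff.2 fun _ _ => hi⟩
    have hw : t ^ n ≠ 0 := by
      obtain ⟨i, hi⟩ := Function.ne_iff.1 ht
      exact Function.ne_iff.2 ⟨i, pow_ne_zero n hi⟩
    have h2 : (fun z : (Fin r → ι) × Fin (r + 1) => (∏ m, q (z.1 m)) * (t ^ n) z.2) ≠ 0 := by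
      obtain ⟨i, hi⟩ := Function.ne_iff.1 hu
      obtain ⟨j, hj⟩ := Function.ne_iff.1 hw
      exact Function.ne_iff.2 ⟨(i, j), mul_ne_zero hi hj⟩
    have h4 : logHeight (fun k : Fin r → ι => ∏ m, q (k m)) = r * logHeight q := by
      rw [logHeight_fun_prod_eq (x := fun _ : Fin r => q) fun _ => hq.1, Finset.sum_const,
        Finset.card_univ, Fintype.card_fin, nsmul_eq_mul]
    rw [← h4, ← logHeight_pow t n, ← logHeight_fun_mul_eq hu hw, e1, add_comm,
      ← logHeight_fun_mul_eq h2 (minors_ne hyi), e2]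
    have h3 : (fun z : ((Fin r → ι) × Fin (r + 1)) × (Fin (n + 1) → ι) =>
        ((∏ m, q (z.1.1 m)) * (t ^ n) z.1.2) * (Matrix.of fun a b => y a (z.2 b)).det) =
        (fun s : Fin (n + r + 1) → ι × Fin (r + 1) =>
          (Matrix.of fun a b => fam q y t (e a) (s b)).det) ∘
          fun z => fun b => col z.1.2 z.1.1 z.2 (e b) := by
      ext z
      have h5 : (Matrix.of fun a b => fam q y t (e a) (col z.1.2 z.1.1 z.2 (e b))) =
          (Matrix.of fun a b => fam q y t a (col z.1.2 z.1.1 z.2 b)).submatrix e e := rfl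
      rw [Function.comp_apply, h5, Matrix.det_submatrix_equiv_self, fam_det hy0, Pi.pow_apply]
    rw [h3]
    exact logHeight_comp_le _ _
  unfold hCan
  rw [hT, hT', lh_sg hq.1 ht]
  push_cast
  linarith

end Pool.Agent.Lib.MP_17a322_nt.MV
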