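import Pool.Agent.Lib.MP_17a322_nt.MV.T1

/-!
The numbers of the points whose height is at most `T` and whose anticanonical height is at most `R`.
-/

universe u

namespace Pool.Agent.Lib.MP_17a322_nt.MV

open MvPolynomial Height NumberField
open Pool.Agent.Lib.MP_17a322_nt.EQ
open Pool.Agent.Lib.MP_17a322_nt.JAC (VojtaGauss)

/-- For every projective variety over `K`, smooth or not, and every `δ > 0` there are a proper closed subset and a number
`A` such that for all `R` and `T` at most `A exp (R + δ T)` points `p` over `K` outside it satisfy `h(p) ≤ T` and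
`- hCan(p) ≤ R`. (`S` is a finite set of such points, given by vectors no two of which are proportional.) -/
def CountG (K : Type u) [Field K] [NumberField K] : Prop :=
  ∀ (ι : Type) [Fintype ι] (J : Ideal (MvPolynomial ι K)), J.IsPrime →
    (∀ F ∈ J, ∀ i, homogeneousComponent i F ∈ J) → ∀ δ : ℝ, 0 < δ →
    ∃ (G : MvPolynomial ι K) (A : ℝ), G ∉ J ∧ (∃ e, G.IsHomogeneous e) ∧ ∀ (R T : ℝ) (S : Finset (ι → K)),
      (∀ p ∈ S, IsPt J p ∧ eval p G ≠ 0 ∧ logHeight p ≤ T ∧ -hCan J p ≤ R) →
        (∀ p ∈ S, ∀ q ∈ S, (∃ a : K, q = a • p) → p = q) → (S.card : ℝ) ≤ A * Real.exp (R + δ * T)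

/-- The bounds for the numbers of points follow from those for the sums. -/
theorem count_of_sum {K : Type u} [Field K] [NumberField K] (h : SumG K) : CountG K := by
  intro ι _ J hJ hh δ hδ
  obtain ⟨G, A, hG, he, hb⟩ := h ι J hJ hh δ hδ
  refine ⟨G, A, hG, he, fun R T S hS hpr => ?_⟩
  have h1 := hb S (fun p hp => ⟨(hS p hp).1, (hS p hp).2.1⟩) hpr
  have h2 : (S.card : ℝ) * Real.exp (-(R + δ * T)) ≤ ∑ p ∈ S, Real.exp (hCan J p - δ * logHeight p) := by
    rw [← nsmul_eq_mul]
    refine Finset.card_nsmul_le_sum _ _ _ fun p hp => ?_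
    obtain ⟨-, -, h3, h4⟩ := hS p hp
    rw [Real.exp_le_exp]
    have h5 : δ * logHeight p ≤ δ * T := mul_le_mul_of_nonneg_left h3 hδ.le
    linarith
  have h3 := mul_le_mul_of_nonneg_right (h2.trans h1) (Real.exp_pos (R + δ * T)).le
  rwa [mul_assoc, ← Real.exp_add, neg_add_cancel, Real.exp_zero, mul_one] at h3

/-- The bounds with fixed exponents follow from those for the numbers of points. -/
theorem grow_of_count {K : Type u} [Field K] [NumberField K] (h : CountG K) (n : ℕ) {α : ℝ} (hα : 0 ≤ α) :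
    GrowG K n α := by
  intro ι _ J hJ hh _ δ hδ
  obtain ⟨G, A, hG, he, hb⟩ := h ι J hJ hh δ hδ
  refine ⟨G, A, hG, he, fun T S hS hpr => ?_⟩
  rw [add_mul]
  refine hb (α * T) T S (fun p hp => ⟨(hS p hp).1, (hS p hp).2.1, (hS p hp).2.2.1, ?_⟩) hpr
  exact (hS p hp).2.2.2.trans (mul_le_mul_of_nonneg_left (hS p hp).2.2.1 hα)

/-- One point is at most `A exp (R + δ T)` points. -/
theorem gauss_of_count {K : Type u} [Field K] [NumberField K] (h : CountG K) : VojtaGauss K := by
  intro ι _ J hJ hh ε hε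
  obtain ⟨G, A, hG, he, hb⟩ := h ι J hJ hh ε hε
  refine ⟨G, Real.log A, hG, he, fun p hp hpG => ?_⟩
  have h1 := hb (-hCan J p) (logHeight p) {p} (by
    intro q hq
    rw [Finset.mem_singleton] at hq
    rw [hq]
    exact ⟨hp, hpG, le_rfl, le_rfl⟩) (by
    intro q hq r hr _
    rw [Finset.mem_singleton] at hq hr
    rw [hq, hr])
  rw [Finset.card_singleton, Nat.cast_one] at h1
  have hA : 0 < A := by
    by_contra h2
    have h3 := mul_nonpos_of_nonpos_of_nonneg (not_lt.1 h2) (Real.exp_pos (-hCan J p + ε * logHeight p)).le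
    linarith
  have h2 := Real.log_le_log one_pos h1
  rw [Real.log_one, Real.log_mul hA.ne' (Real.exp_pos _).ne', Real.log_exp] at h2
  linarith

end Pool.Agent.Lib.MP_17a322_nt.MV
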