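import Pool.Agent.Lib.MP_17a322_nt.MV.E5
import Pool.Agent.Lib.MP_17a322_nt.MV.T2
import Pool.Agent.Lib.MP_17a322_nt.FL.Fin

/-!
The case `D = 0` of Vojta's conjecture is equivalent to the upper bounds for the numbers of the points.
-/

universe u

namespace Pool.Agent.Lib.MP_17a322_nt.MV

open Pool.Agent.Lib.MP_17a322_nt.FL
open Pool.Agent.Lib.MP_17a322_nt.JAC (VojtaGauss)

/-- The case `D = 0` of Vojta's conjecture over any number field is equivalent to the convergence of the sums over
the rational points. -/
theorem gauss_iff_sum (L : Type u) [Field L] [NumberField L] : VojtaGauss L ↔ SumG ℚ := by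
  constructor
  · intro h
    have h1 := gauss_any L ℚ h
    exact sum_of_grow h1 fun n a ha => grow_of_gauss (semi_of_gauss h1) h1 n ha
  · intro h
    exact gauss_any ℚ L (gauss_of_sum ℚ h)

/-- The same for the numbers of the points. -/
theorem gauss_iff_count (L : Type u) [Field L] [NumberField L] : VojtaGauss L ↔ CountG ℚ :=
  ⟨fun h => count_of_sum ((gauss_iff_sum L).1 h), fun h => gauss_any ℚ L (gauss_of_count h)⟩

end Pool.Agent.Lib.MP_17a322_nt.MV
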