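import Pool.Agent.Lib.MP_17a322_nt.MV.T2
import Pool.Agent.Lib.MP_17a322_nt.RAT.Defs

/-!
The numbers of the points of rational varieties.
-/

universe u

namespace Pool.Agent.Lib.MP_17a322_nt.MV

open MvPolynomial Height NumberField
open Pool.Agent.Lib.MP_17a322_nt.EQ
open Pool.Agent.Lib.MP_17a322_nt.RAT (IsRat VojtaGaussRat)

/-- `CountG K` for the rational projective varieties only, smooth or not: for every `δ > 0` there are a proper closed
subset and a number `A` such that for all `R` and `T` at most `A exp (R + δ T)` points `p` over `K` outside it satisfy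
`h(p) ≤ T` and `- hCan(p) ≤ R`. -/
def CountRat (K : Type u) [Field K] [NumberField K] : Prop :=
  ∀ (ι : Type) [Fintype ι] (J : Ideal (MvPolynomial ι K)), J.IsPrime →
    (∀ F ∈ J, ∀ i, homogeneousComponent i F ∈ J) → IsRat J → ∀ δ : ℝ, 0 < δ →
    ∃ (G : MvPolynomial ι K) (A : ℝ), G ∉ J ∧ (∃ e, G.IsHomogeneous e) ∧ ∀ (R T : ℝ) (S : Finset (ι → K)),
      (∀ p ∈ S, IsPt J p ∧ eval p G ≠ 0 ∧ logHeight p ≤ T ∧ -hCan J p ≤ R) →
        (∀ p ∈ S, ∀ q ∈ S, (∃ a : K, q = a • p) → p = q) → (S.card : ℝ) ≤ A * Real.exp (R + δ * T)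

theorem countRat_of_count {K : Type u} [Field K] [NumberField K] (h : CountG K) : CountRat K :=
  fun ι _ J hJ hh _ δ hδ => h ι J hJ hh δ hδ

/-- One point is at most `A exp (R + δ T)` points. -/
theorem gaussRat_of_count {K : Type u} [Field K] [NumberField K] (h : CountRat K) : VojtaGaussRat K := by
  intro ι _ J hJ hh hr ε hε
  obtain ⟨G, A, hG, he, hb⟩ := h ι J hJ hh hr ε hε
  refine ⟨G, Real.log A, hG, he, fun p hp hpG => ?_⟩
  have h1 := hb (-hCan J p) (logHeight p) {p} (by
    intro q hq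
    rw [Finset.mem_singleton] at hq
    rw [hq]
    exact ⟨hp, hpG, le_rfl, le_rfl⟩) (by
    intro q hq r hr _
    rw [Finset.mem_singleton] at hq hr
    rw [hq, hr])
  rw [Finset.card_singleton, Nat.cast_one] at h1
  have hA : 0 < A := by
    by_contra h2
    have h3 := mul_nonpos_of_nonpos_of_nonneg (not_lt.1 h2) (Real.exp_pos (-hCan J p + ε * logHeight p)).le
    linarith
  have h2 := Real.log_le_log one_pos h1
  rw [Real.log_one, Real.log_mul hA.ne' (Real.exp_pos _).ne', Real.log_exp] at h2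
  linarith

end Pool.Agent.Lib.MP_17a322_nt.MV
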