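import Pool.Agent.Lib.MP_17a322_nt.MV.WDefs

/-!
Restriction of scalars: first properties.
-/

universe u

namespace Pool.Agent.Lib.MP_17a322_nt.MV

section

variable {K : Type u} [Field K] [NumberField K] {m : ℕ} (ω : Module.Basis (Fin m) ℚ K) {ι : Type}

theorem rs_injective : Function.Injective (rs ω : (ι → K) →ₗ[ℚ] (ι × Fin m → ℚ)) := by
  intro y z h
  funext a
  apply ω.repr.injective
  ext j
  exact congrFun h (a, j)

theorem rs_sum (y : ι → K) (a : ι) : ∑ j, ((rs ω y (a, j) : ℚ) : K) * ω j = y a := by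
  refine Eq.trans (Finset.sum_congr rfl fun j _ => ?_) (ω.sum_repr (y a))
  rw [Algebra.smul_def, eq_ratCast]
  rfl

/-- The matrix `bm ω j` is the multiplication by `ω j`. -/
theorem mulb_bm [Fintype ι] (j : Fin m) (y : ι → K) : mulb (bm ω j) (rs ω y) = rs ω (ω j • y) := by
  classical
  funext c
  obtain ⟨a, i⟩ := c
  have h1 : mulb (bm ω j) (rs ω y) (a, i) =
      ∑ c' : ι × Fin m, algebraMap ℚ ℚ (bm ω j (a, i) c') * ω.repr (y c'.1) c'.2 := rfl
  have h2 : rs ω (ω j • y) (a, i) = ω.repr (ω j * y a) i := rfl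
  have h3 : ω.repr (ω j * y a) i = ∑ i', ω.repr (ω j * ω i') i * ω.repr (y a) i' := by
    have h4 : ω j * y a = ∑ i', ω.repr (y a) i' • (ω j * ω i') := by
      conv_lhs => rw [← ω.sum_repr (y a)]
      rw [Finset.mul_sum]
      exact Finset.sum_congr rfl fun i' _ => mul_smul_comm _ _ _
    rw [h4, map_sum, Finsupp.finsetSum_apply]
    refine Finset.sum_congr rfl fun i' _ => ?_
    rw [map_smul, Finsupp.smul_apply, smul_eq_mul, mul_comm]
  rw [h1, h2, h3, Fintype.sum_prod_type, Finset.sum_eq_single a]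
  · refine Finset.sum_congr rfl fun i' _ => ?_
    have h5 : bm ω j (a, i) (a, i') = ω.repr (ω j * ω i') i := if_pos rfl
    rw [h5]
    rfl
  · intro b _ hb
    refine Finset.sum_eq_zero fun i' _ => ?_
    have h5 : bm ω j (a, i) (b, i') = 0 := if_neg (Ne.symm hb)
    rw [h5, map_zero, zero_mul]
  · intro h
    exact absurd (Finset.mem_univ a) h

/-- PROOF: `rs ω` is injective, `Module.finrank ℚ V = Module.finrank ℚ K * Module.finrank K V`
(`Module.finrank_mul_finrank`), `Module.finrank ℚ K = m`. -/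
theorem finrank_resV [Fintype ι] (V : Submodule K (ι → K)) :
    Module.finrank ℚ (resV ω V) = m * Module.finrank K V := by
  have h1 : Module.finrank ℚ (V.restrictScalars ℚ) = Module.finrank ℚ (resV ω V) :=
    LinearEquiv.finrank_eq (Submodule.equivMapOfInjective (rs ω) (rs_injective ω) (V.restrictScalars ℚ))
  have h2 : Module.finrank ℚ K = m := by rw [Module.finrank_eq_card_basis ω, Fintype.card_fin]
  have h3 : Module.finrank ℚ K * Module.finrank K V = Module.finrank ℚ V := Module.finrank_mul_finrank ℚ K V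
  rw [← h1, ← h2, h3]
  rfl

/-- PROOF: `1 = ∑ j, q j • ω j` with `q j = ω.repr 1 j`, so `v = ∑ j, algebraMap ℚ E (q j) • mulb (bm ω j) v` for all
`v : ι × Fin m → E` (an identity of rational matrices). -/
theorem L0_le_Lf [Fintype ι] {E : Type*} [Field E] [Algebra ℚ E] (x : ι × Fin m → E) : L0 ℚ x ≤ Lf (bm ω) x := by
  classical
  intro v hv
  have h0 : ∀ c c' : ι × Fin m, ∑ j, ω.repr 1 j * bm ω j c c' = if c = c' then 1 else 0 := by
    rintro ⟨a, i⟩ ⟨b, i'⟩
    by_cases hab : a = b
    · have h1 : ∀ j, bm ω j (a, i) (b, i') = ω.repr (ω j * ω i') i := fun j => if_pos hab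
      simp only [h1]
      have h2 : ∑ j, ω.repr 1 j * ω.repr (ω j * ω i') i = ω.repr (ω i') i := by
        have h3 : ω i' = ∑ j, ω.repr 1 j • (ω j * ω i') := by
          have h4 : (1 : K) * ω i' = (∑ j, ω.repr 1 j • ω j) * ω i' := by rw [ω.sum_repr 1]
          rw [one_mul, Finset.sum_mul] at h4
          refine h4.trans (Finset.sum_congr rfl fun j _ => smul_mul_assoc _ _ _)
        conv_rhs => rw [h3]
        rw [map_sum, Finsupp.finsetSum_apply]
        refine Finset.sum_congr rfl fun j _ => ?_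
        rw [map_smul, Finsupp.smul_apply, smul_eq_mul]
      rw [h2, ω.repr_self, Finsupp.single_apply]
      by_cases hi : i' = i
      · rw [if_pos hi, if_pos (by rw [hab, hi])]
      · rw [if_neg hi, if_neg (fun h => hi (Prod.mk.inj h).2.symm)]
    · have h1 : ∀ j, bm ω j (a, i) (b, i') = 0 := fun j => if_neg hab
      simp only [h1, mul_zero, Finset.sum_const_zero]
      rw [if_neg (fun h => hab (Prod.mk.inj h).1)]
  have hv2 : v = ∑ j, algebraMap ℚ E (ω.repr 1 j) • mulb (bm ω j) v := by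
    funext c
    rw [Finset.sum_apply]
    have h5 : ∀ j, (algebraMap ℚ E (ω.repr 1 j) • mulb (bm ω j) v) c =
        ∑ c', algebraMap ℚ E (ω.repr 1 j * bm ω j c c') * v c' := by
      intro j
      have h6 : (algebraMap ℚ E (ω.repr 1 j) • mulb (bm ω j) v) c =
        algebraMap ℚ E (ω.repr 1 j) * ∑ c', algebraMap ℚ E (bm ω j c c') * v c' := rfl
      rw [h6, Finset.mul_sum]
      refine Finset.sum_congr rfl fun c' _ => ?_
      rw [map_mul, mul_assoc]
    rw [Finset.sum_congr rfl fun j _ => h5 j, Finset.sum_comm]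
    have h7 : ∀ c', ∑ j, algebraMap ℚ E (ω.repr 1 j * bm ω j c c') * v c' = if c = c' then v c' else 0 := by
      intro c'
      rw [← Finset.sum_mul, ← map_sum, h0 c c']
      by_cases hc : c = c'
      · rw [if_pos hc, if_pos hc, map_one, one_mul]
      · rw [if_neg hc, if_neg hc, map_zero, zero_mul]
    rw [Finset.sum_congr rfl fun c' _ => h7 c', Finset.sum_ite_eq]
    rw [if_pos (Finset.mem_univ c)]
  rw [hv2]
  refine Submodule.sum_mem _ fun j _ => Submodule.smul_mem _ _ ?_
  exact (le_iSup (fun j => (L0 ℚ x).map (mulb (bm ω j))) j) (Submodule.mem_map_of_mem hv)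

end

end Pool.Agent.Lib.MP_17a322_nt.MV
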