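import Pool.Agent.Lib.MP_17a322_nt.MV.E1
import Pool.Agent.Lib.MP_17a322_nt.MV.W0
import Pool.Agent.Lib.MP_17a322_nt.EQ.G0

/-!
Sequences of finite sets of points over `K` which contradict the bound.
-/

universe u

namespace Pool.Agent.Lib.MP_17a322_nt.MV

open MvPolynomial Height NumberField
open Pool.Agent.Lib.MP_17a322_nt.EQ

/-- The forms which do not vanish on a variety over `K`, as a sequence of products. -/
private theorem W10a_forms {K : Type u} [Field K] [NumberField K] {ι : Type} [Fintype ι]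
    (J : Ideal (MvPolynomial ι K)) (hJ : J.IsPrime) :
    ∃ P : ℕ → MvPolynomial ι K, (∀ i, P i ∉ J ∧ ∃ e, (P i).IsHomogeneous e) ∧
      ∀ G, G ∉ J → (∃ e, G.IsHomogeneous e) → ∃ j, ∀ i, j ≤ i → G ∣ P i := by
  classical
  have hK : Countable K := Finsupp.Countable.of_moduleFinite (R := ℚ)
  have hc : Countable (MvPolynomial ι K) := by
    rw [← Cardinal.mk_le_aleph0_iff]
    refine MvPolynomial.cardinalMk_le_max_lift.trans (max_le (max_le ?_ ?_) le_rfl)
    · rw [Cardinal.lift_le_aleph0, Cardinal.mk_le_aleph0_iff]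
      exact hK
    · rw [Cardinal.lift_le_aleph0, Cardinal.mk_le_aleph0_iff]
      exact inferInstance
  have h1 : (1 : MvPolynomial ι K) ∉ J := (Ideal.ne_top_iff_one J).1 hJ.ne_top
  have hne : Nonempty {G : MvPolynomial ι K // G ∉ J ∧ ∃ e, G.IsHomogeneous e} := ⟨⟨1, h1, 0, isHomogeneous_one ι K⟩⟩
  obtain ⟨g, hg⟩ := exists_surjective_nat {G : MvPolynomial ι K // G ∉ J ∧ ∃ e, G.IsHomogeneous e}
  refine ⟨fun i => ∏ j ∈ Finset.range (i + 1), (g j).1, fun i => ⟨fun h => ?_, ?_⟩, fun G hG he => ?_⟩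
  · obtain ⟨j, _, hj⟩ := (hJ.prod_mem_iff).1 h
    exact (g j).2.1 hj
  · choose e he using fun j => (g j).2.2
    exact ⟨∑ j ∈ Finset.range (i + 1), e j, IsHomogeneous.prod _ _ _ fun j _ => he j⟩
  · obtain ⟨j, hj⟩ := hg ⟨G, hG, he⟩
    refine ⟨j, fun i hi => ?_⟩
    have h2 : G = (g j).1 := by rw [hj]
    rw [h2]
    exact Finset.dvd_prod_of_mem (fun j => (g j).1) (Finset.mem_range.2 (by omega))

/-- Northcott's theorem over `K` for balanced points. -/
private theorem W10a_northcott {K : Type u} [Field K] [NumberField K] {m : ℕ} (ω : Module.Basis (Fin m) ℚ K)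
    (ι : Type) [Fintype ι] (R : ℝ) :
    ∃ N : ℕ, ∀ S : Finset (ι → K), (∀ p ∈ S, p ≠ 0 ∧ m * logHeight (rs ω p) ≤ R) →
      (∀ p ∈ S, ∀ q ∈ S, (∃ a : K, q = a • p) → p = q) → S.card ≤ N := by
  classical
  have hne : Nonempty (Fin m) := ω.index_nonempty
  have hm : (0 : ℝ) < m := Nat.cast_pos.2 (Fin.pos_iff_nonempty.2 hne)
  obtain ⟨N, hN⟩ := northcottE (ι × Fin m) (R / m)
  refine ⟨N, fun S hS hinj => ?_⟩
  have h1 : (S.image (rs ω)).card = S.card := Finset.card_image_of_injective S (rs_injective ω)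
  rw [← h1]
  refine hN _ ?_ ?_
  · intro x hx
    obtain ⟨p, hp, rfl⟩ := Finset.mem_image.1 hx
    obtain ⟨h2, h3⟩ := hS p hp
    refine ⟨fun h => h2 (rs_injective ω (by rw [h, map_zero])), ?_⟩
    rw [le_div_iff₀ hm, mul_comm]
    exact h3
  · rintro x hx y hy ⟨c, hc⟩
    obtain ⟨p, hp, rfl⟩ := Finset.mem_image.1 hx
    obtain ⟨q, hq, rfl⟩ := Finset.mem_image.1 hy
    have h2 : q = c • p := rs_injective ω (by rw [hc, map_smul])
    have h3 : q = (algebraMap ℚ K c) • p := by rw [h2, algebraMap_smul]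
    rw [hinj p hp q hq ⟨_, h3⟩]

/-- PROOF: as `exists_bad` (MV/E1) over `K`: `exists_forms` (MV/E1a) over `K` (`MvPolynomial ι K` is countable: `K` is,
see `X13_count` in FQ/X13), which gives `T i`, `S i` with `S i` of more than `(i + 1) exp ((α + δ) T i)` points. Replace every
`p ∈ S i` by the multiple `a p` of `hω` (`C` its constant): an injective map on `S i`, as no two points are proportional;
`IsPt`, `logHeight` (`logHeight_smul_eq_logHeight`), `hCan` (`hCan_smulE` in MV/E2 over `ℚ`; over `K` `Tan_smul` / `Tan_mul`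
as at the end of FL/B14) and `eval p G ≠ 0` for homogeneous `G` do not change. `top`: the vectors `rs ω p`, `p ∈ S i`, over
`ℚ` are not proportional (`rs ω` is `ℚ`-linear and injective) and have heights at most `(T i + C) / m` (`m > 0`), so
`northcottE` (MV/E1) bounds `card (S i)` if `T i` stays bounded. -/
theorem exists_badK {K : Type u} [Field K] [NumberField K] {m : ℕ} (ω : Module.Basis (Fin m) ℚ K)
    (hω : ∀ (ι : Type) [Fintype ι], Bal ω ι) {n : ℕ} {α : ℝ} (hα : 0 ≤ α) (h : ¬ GrowG K n α) :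
    ∃ (ι : Type) (_ : Fintype ι) (J : Ideal (MvPolynomial ι K)) (C δ : ℝ) (T : ℕ → ℝ) (S : ℕ → Finset (ι → K)),
      J.IsPrime ∧ (∀ F ∈ J, ∀ i, homogeneousComponent i F ∈ J) ∧ 0 < δ ∧ BadK ω J C α (α + δ) T S := by
  classical
  by_contra hcon
  refine h ?_
  intro ι _ J hJ hh _ δ hδ
  by_contra hno
  refine hcon ?_
  have hno' : ∀ (G : MvPolynomial ι K) (A : ℝ), G ∉ J → (∃ e, G.IsHomogeneous e) →
      ∃ (T : ℝ) (S : Finset (ι → K)),
        (∀ p ∈ S, IsPt J p ∧ eval p G ≠ 0 ∧ logHeight p ≤ T ∧ -hCan J p ≤ α * logHeight p) ∧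
        (∀ p ∈ S, ∀ q ∈ S, (∃ a : K, q = a • p) → p = q) ∧
          A * Real.exp ((α + δ) * T) < S.card := by
    intro G A hG he
    by_contra h1
    refine hno ⟨G, A, hG, he, fun T S hS hinj => ?_⟩
    by_contra h2
    exact h1 ⟨T, S, hS, hinj, not_le.1 h2⟩
  obtain ⟨P, hP, hdvd⟩ := W10a_forms J hJ
  choose T S hS hinj hbig using fun i : ℕ => hno' (P i) (i + 1) (hP i).1 (hP i).2
  obtain ⟨C, hC⟩ := hω ι
  choose g hg0 hg1 using hC
  let cc : (ι → K) → K := fun p => if hp : p ≠ 0 then g p hp else 1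
  have hcc0 : ∀ p, cc p ≠ 0 := by
    intro p
    show (if hp : p ≠ 0 then g p hp else 1) ≠ 0
    split_ifs with hp
    · exact hg0 p hp
    · exact one_ne_zero
  have hcc1 : ∀ p, p ≠ 0 → m * logHeight (rs ω (cc p • p)) ≤ logHeight p + C := by
    intro p hp
    have h1 : cc p = g p hp := dif_pos hp
    rw [h1]
    exact hg1 p hp
  have hinj' : ∀ i, ∀ p ∈ S i, ∀ q ∈ S i, (∃ a : K, cc q • q = a • (cc p • p)) → p = q := by
    rintro i p hp q hq ⟨a, ha⟩
    refine hinj i p hp q hq ⟨(cc q)⁻¹ * (a * cc p), ?_⟩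
    have h1 := congrArg (fun x => (cc q)⁻¹ • x) ha
    simp only [smul_smul] at h1
    rw [inv_mul_cancel₀ (hcc0 q), one_smul] at h1
    exact h1
  have hcard : ∀ i, ((S i).image fun p => cc p • p).card = (S i).card := fun i =>
    Finset.card_image_of_injOn fun p hp q hq h => hinj' i p hp q hq ⟨1, by rw [one_smul]; exact h.symm⟩
  have hc : 0 ≤ α + δ := by linarith
  have hex : ∀ i : ℕ, (0 : ℝ) < (i + 1) * Real.exp ((α + δ) * T i) := fun i => by positivity
  have hT0 : ∀ i, 0 ≤ T i := by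
    intro i
    rcases (S i).eq_empty_or_nonempty with h0 | ⟨p, hp⟩
    · have h1 := hbig i
      rw [h0, Finset.card_empty, Nat.cast_zero] at h1
      exact absurd h1 (hex i).le.not_gt
    · exact (logHeight_nonneg p).trans (hS i p hp).2.2.1
  have h1e : ∀ i, 1 ≤ Real.exp ((α + δ) * T i) := fun i =>
    Real.one_le_exp (mul_nonneg hc (hT0 i))
  have hhgt : ∀ p : ι → K, logHeight (cc p • p) = logHeight p := fun p =>
    logHeight_smul_eq_logHeight p (hcc0 p)
  have hinj2 : ∀ i, ∀ p ∈ (S i).image (fun p => cc p • p), ∀ q ∈ (S i).image (fun p => cc p • p),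
      (∃ a : K, q = a • p) → p = q := by
    rintro i p' hp' q' hq' ⟨a, ha⟩
    obtain ⟨p, hp, rfl⟩ := Finset.mem_image.1 hp'
    obtain ⟨q, hq, rfl⟩ := Finset.mem_image.1 hq'
    rw [hinj' i p hp q hq ⟨a, ha⟩]
  refine ⟨ι, inferInstance, J, C, δ, T, fun i => (S i).image fun p => cc p • p, hJ, hh, hδ, ?_, ?_, ?_, ?_, hinj2⟩
  · rw [Filter.tendsto_atTop]
    intro R
    obtain ⟨N, hN⟩ := W10a_northcott ω ι (R + C)
    filter_upwards [Filter.eventually_ge_atTop N] with i hi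
    by_contra h2
    have h3 := hN ((S i).image fun p => cc p • p) (fun q hq => by
      obtain ⟨p, hp, rfl⟩ := Finset.mem_image.1 hq
      have h4 := (hS i p hp).1.1
      refine ⟨smul_ne_zero (hcc0 p) h4, (hcc1 p h4).trans ?_⟩
      have h5 := (hS i p hp).2.2.1.trans (not_le.1 h2).le
      linarith) (hinj2 i)
    rw [hcard i] at h3
    have h4 : ((S i).card : ℝ) ≤ i := Nat.cast_le.2 (h3.trans hi)
    have h5 : ((i : ℝ) + 1) * 1 ≤ (i + 1) * Real.exp ((α + δ) * T i) :=
      mul_le_mul_of_nonneg_left (h1e i) (by positivity)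
    have h6 := hbig i
    linarith
  · intro i q hq
    obtain ⟨p, hp, rfl⟩ := Finset.mem_image.1 hq
    obtain ⟨a1, _, a3, a4⟩ := hS i p hp
    have h1 : Tan J (cc p • p) = Tan J p := Tan_mul hh (hcc0 p) p
    have h2 : hCan J (cc p • p) = hCan J p := by
      unfold hCan
      rw [h1, hhgt p]
    refine ⟨IsPt_mul hh (hcc0 p) a1, ?_, ?_, ?_⟩
    · rw [hhgt p]
      exact a3
    · rw [h2]
      exact a4.trans (mul_le_mul_of_nonneg_left a3 hα)
    · rw [hhgt p]
      exact hcc1 p a1.1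
  · rintro G hG ⟨e, he⟩
    obtain ⟨j, hj⟩ := hdvd G hG ⟨e, he⟩
    filter_upwards [Filter.eventually_ge_atTop j] with i hi q hq
    obtain ⟨p, hp, rfl⟩ := Finset.mem_image.1 hq
    obtain ⟨Q, hQ⟩ := hj i hi
    have h2 := (hS i p hp).2.1
    rw [hQ, map_mul] at h2
    have h3 : eval (cc p • p) G = cc p ^ e * eval p G := aeval_mul he (cc p) p
    rw [h3]
    exact mul_ne_zero (pow_ne_zero _ (hcc0 p)) (left_ne_zero_of_mul h2)
  · refine Filter.Eventually.of_forall fun i => ?_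
    rw [hcard i]
    have h6 := hbig i
    have h7 : 1 * Real.exp ((α + δ) * T i) ≤ ((i : ℝ) + 1) * Real.exp ((α + δ) * T i) :=
      mul_le_mul_of_nonneg_right (by linarith [(Nat.cast_nonneg i : (0 : ℝ) ≤ i)]) (Real.exp_pos _).le
    linarith

end Pool.Agent.Lib.MP_17a322_nt.MV
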