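import Pool.Agent.Lib.MP_17a322_nt.EQ.Defs

/-!
The smallest variety which contains a positive proportion of given points.
-/

namespace Pool.Agent.Lib.MP_17a322_nt.MV

open MvPolynomial
open Pool.Agent.Lib.MP_17a322_nt.EQ

private theorem W10b_comp {κ : Type} (I : Ideal (MvPolynomial κ ℚ))
    (hI : letI := MvPolynomial.gradedAlgebra (R := ℚ) (σ := κ)
      I.IsHomogeneous (homogeneousSubmodule κ ℚ)) :
    ∀ F ∈ I, ∀ i, homogeneousComponent i F ∈ I := by
  let _ := MvPolynomial.gradedAlgebra (R := ℚ) (σ := κ)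
  intro F hF i
  have h := hI i hF
  have h2 : ((DirectSum.decompose (homogeneousSubmodule κ ℚ) F i : homogeneousSubmodule κ ℚ i) :
      MvPolynomial κ ℚ) = homogeneousComponent i F :=
    MvPolynomial.decomposition.decompose'_apply F i
  rwa [h2] at h

private theorem W10b_le {κ : Type} (I : Ideal (MvPolynomial κ ℚ)) (F : MvPolynomial κ ℚ) (z : κ → ℚ)
    (h : I ≤ RingHom.ker (eval z)) (hF : eval z F = 0) :
    I ⊔ Ideal.span {F} ≤ RingHom.ker (eval z) := by
  refine sup_le h ((Ideal.span_singleton_le_iff_mem _).mpr ?_)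
  exact hF

/-- PROOF: For a homogeneous ideal `𝔞` let `P 𝔞` be the statement that there is `C : ℕ` such that for `U`-almost all `i`
`card (S i) ≤ C * card {z ∈ S i | z is a zero of 𝔞}`. `P ⊥` holds. As the ring is Noetherian there is a maximal homogeneous
`I` with `P I`. It is prime: it suffices to consider homogeneous `F`, `G` with `F G ∈ I`
(`Ideal.IsHomogeneous.isPrime_of_homogeneous_mem_or_mem`); if neither is in `I`, then `P (I ⊔ span {F})` and
`P (I ⊔ span {G})` fail by maximality, but every zero of `I` is a zero of `F` or `G`, so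
`card (S i) ≤ C (card zeros of (I, F) + card zeros of (I, G))`, and one of the two, say the first, is at least
`card (S i) / (2 C)` for `U`-almost all `i` (ultrafilter: `Ultrafilter.eventually_or`): contradiction. `I ≠ ⊤` as `S i` is
not empty. With `C` the constant for `I` (`C ≥ 1`) put `c = 1 / (2 C)`: for a homogeneous `G ∉ I` not `P (I ⊔ span {G})`, so
for `U`-almost all `i` `card (S i) > 2 C * card (zeros of (I, G))` (`Ultrafilter.eventually_not`), so that at least
`card (S i) / C - card (S i) / (2 C)` points of `S i` are zeros of `I` and not of `G`. (The finite set with `open Classical`;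
`IsPt I z` is `z ≠ 0` and `aeval z F = 0` for `F ∈ I`.) -/
theorem exists_ideal {κ : Type} [Fintype κ] (U : Ultrafilter ℕ) (S : ℕ → Finset (κ → ℚ))
    (hS : ∀ᶠ i in (U : Filter ℕ), (S i).Nonempty) (h0 : ∀ i, ∀ z ∈ S i, z ≠ 0) :
    ∃ I : Ideal (MvPolynomial κ ℚ), I.IsPrime ∧ (∀ F ∈ I, ∀ i, homogeneousComponent i F ∈ I) ∧
      ∃ c : ℝ, 0 < c ∧ ∀ G, G ∉ I → (∃ e, G.IsHomogeneous e) → ∀ᶠ i in (U : Filter ℕ), ∃ S' ⊆ S i,
        (∀ z ∈ S', IsPt I z ∧ eval z G ≠ 0) ∧ c * (S i).card ≤ S'.card := by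
  classical
  let _ := MvPolynomial.gradedAlgebra (R := ℚ) (σ := κ)
  let Z : ℕ → Ideal (MvPolynomial κ ℚ) → Finset (κ → ℚ) := fun i J =>
    (S i).filter fun z => J ≤ RingHom.ker (eval z)
  let P : Ideal (MvPolynomial κ ℚ) → Prop := fun J =>
    ∃ C : ℕ, ∀ᶠ i in (U : Filter ℕ), (S i).card ≤ C * (Z i J).card
  have hne : {J : Ideal (MvPolynomial κ ℚ) | J.IsHomogeneous (homogeneousSubmodule κ ℚ) ∧ P J}.Nonempty := by
    refine ⟨⊥, Ideal.IsHomogeneous.bot _, 1, Filter.Eventually.of_forall fun i => ?_⟩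
    have h1 : Z i ⊥ = S i := Finset.filter_true_of_mem fun z _ => bot_le
    rw [h1, one_mul]
  obtain ⟨I, ⟨hI, hP⟩, hmax⟩ := set_has_maximal_iff_noetherian.mpr
    (inferInstance : IsNoetherian (MvPolynomial κ ℚ) (MvPolynomial κ ℚ)) _ hne
  have hnot : ∀ F : MvPolynomial κ ℚ, F ∉ I → (∃ e, F.IsHomogeneous e) → ¬ P (I ⊔ Ideal.span {F}) := by
    rintro F hF ⟨e, he⟩ hPF
    refine hmax (I ⊔ Ideal.span {F}) ⟨hI.sup (Ideal.homogeneous_span _ _ ?_), hPF⟩ ?_
    · intro x hx
      rw [Set.mem_singleton_iff.mp hx]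
      exact ⟨e, he⟩
    · refine lt_of_le_of_ne le_sup_left fun h => hF ?_
      rw [h]
      exact Ideal.mem_sup_right (Ideal.mem_span_singleton_self F)
  obtain ⟨C, hC⟩ := hP
  have htop : I ≠ ⊤ := by
    intro h
    obtain ⟨i, h1, h2⟩ := (hC.and hS).exists
    have h3 : Z i I = ∅ := Finset.filter_eq_empty_iff.mpr fun z _ h4 => by
      have h5 : (1 : MvPolynomial κ ℚ) ∈ RingHom.ker (eval z) := h4 (h ▸ Submodule.mem_top)
      rw [RingHom.mem_ker, map_one] at h5
      exact one_ne_zero h5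
    rw [h3, Finset.card_empty, mul_zero] at h1
    have h4 := Finset.card_pos.mpr h2
    omega
  have hsplit : ∀ F G : MvPolynomial κ ℚ, F * G ∈ I → ∀ i,
      (Z i I).card ≤ (Z i (I ⊔ Ideal.span {F})).card + (Z i (I ⊔ Ideal.span {G})).card := by
    intro F G hFG i
    refine (Finset.card_le_card ?_).trans (Finset.card_union_le _ _)
    intro z hz
    obtain ⟨h1, h2⟩ := Finset.mem_filter.mp hz
    have h3 : eval z (F * G) = 0 := h2 hFG
    rw [map_mul, mul_eq_zero] at h3
    rw [Finset.mem_union]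
    rcases h3 with h3 | h3
    · exact Or.inl (Finset.mem_filter.mpr ⟨h1, W10b_le I F z h2 h3⟩)
    · exact Or.inr (Finset.mem_filter.mpr ⟨h1, W10b_le I G z h2 h3⟩)
  have hprime : Ideal.IsPrime I := by
    refine hI.isPrime_of_homogeneous_mem_or_mem htop ?_
    intro F G hF hG hFG
    by_contra hcon
    rw [not_or] at hcon
    have h1 : ∀ᶠ i in (U : Filter ℕ), (S i).card ≤ 2 * C * (Z i (I ⊔ Ideal.span {F})).card ∨
        (S i).card ≤ 2 * C * (Z i (I ⊔ Ideal.span {G})).card := by
      filter_upwards [hC] with i hi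
      have h2 := Nat.mul_le_mul_left C (hsplit F G hFG i)
      rw [mul_add] at h2
      by_contra h3
      rw [not_or, not_le, not_le, mul_assoc, mul_assoc] at h3
      omega
    rcases Ultrafilter.eventually_or.mp h1 with h2 | h2
    · exact hnot F hcon.1 hF ⟨2 * C, h2⟩
    · exact hnot G hcon.2 hG ⟨2 * C, h2⟩
  have hC1 : 0 < C := by
    obtain ⟨i, h1, h2⟩ := (hC.and hS).exists
    have h4 := Finset.card_pos.mpr h2
    rcases Nat.eq_zero_or_pos C with h | h
    · rw [h, zero_mul] at h1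
      omega
    · exact h
  have hC2 : (0 : ℝ) < C := by exact_mod_cast hC1
  refine ⟨I, hprime, W10b_comp I hI, 1 / (2 * C), by positivity, ?_⟩
  intro G hG hGh
  have h1 : ∀ᶠ i in (U : Filter ℕ), ¬ (S i).card ≤ 2 * C * (Z i (I ⊔ Ideal.span {G})).card := by
    rw [Ultrafilter.eventually_not]
    exact fun h => hnot G hG hGh ⟨2 * C, h⟩
  filter_upwards [hC, h1] with i h2 h3
  refine ⟨(Z i I).filter fun z => eval z G ≠ 0, (Finset.filter_subset _ _).trans
    (Finset.filter_subset _ _), ?_, ?_⟩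
  · intro z hz
    obtain ⟨h4, h5⟩ := Finset.mem_filter.mp hz
    obtain ⟨h6, h7⟩ := Finset.mem_filter.mp h4
    refine ⟨⟨h0 i z h6, fun F hF => ?_⟩, h5⟩
    have h8 : eval z F = 0 := h7 hF
    rw [← h8]
    rfl
  · have h4 : (Z i I).card ≤ ((Z i I).filter fun z => eval z G ≠ 0).card +
        (Z i (I ⊔ Ideal.span {G})).card := by
      refine (Finset.card_le_card ?_).trans (Finset.card_union_le _ _)
      intro z hz
      rw [Finset.mem_union]
      by_cases h5 : eval z G = 0
      · obtain ⟨h6, h7⟩ := Finset.mem_filter.mp hz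
        exact Or.inr (Finset.mem_filter.mpr ⟨h6, W10b_le I G z h7 h5⟩)
      · exact Or.inl (Finset.mem_filter.mpr ⟨hz, h5⟩)
    have h5 := Nat.mul_le_mul_left C h4
    rw [mul_add] at h5
    rw [mul_assoc] at h3
    have h6 : (S i).card ≤ 2 * (C * ((Z i I).filter fun z => eval z G ≠ 0).card) := by omega
    have h7 : ((S i).card : ℝ) ≤ 2 * (C * (((Z i I).filter fun z => eval z G ≠ 0).card : ℝ)) := by
      exact_mod_cast h6
    rw [one_div, inv_mul_le_iff₀ (by positivity)]
    linarith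

end Pool.Agent.Lib.MP_17a322_nt.MV
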