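import Pool.Agent.Lib.MP_17a322_nt.MV.E1a
import Pool.Agent.Lib.MP_17a322_nt.MV.T2
import Pool.Agent.Lib.MP_17a322_nt.MV.W0
import Pool.Agent.Lib.MP_17a322_nt.MV.W10b

/-!
A sequence of points over `K` whose canonical height is large compared with the one of the smallest variety over `ℚ`.
-/

universe u

namespace Pool.Agent.Lib.MP_17a322_nt.MV

open MvPolynomial Height NumberField
open Pool.Agent.Lib.MP_17a322_nt.EQ

/-- Along an ultrafilter finer than `atTop` one can choose an index which tends to infinity. -/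
private theorem W10c_diag (U : Ultrafilter ℕ) (hU : (U : Filter ℕ) ≤ Filter.atTop) (E : ℕ → ℕ → Prop)
    (hE : ∀ j, ∀ᶠ i in (U : Filter ℕ), E j i) :
    ∃ j : ℕ → ℕ, (∀ N, ∀ᶠ i in (U : Filter ℕ), N ≤ j i) ∧ ∀ᶠ i in (U : Filter ℕ), E (j i) i := by
  classical
  refine ⟨fun i => Nat.findGreatest (fun j => ∀ k ≤ j, E k i) i, fun N => ?_, ?_⟩
  · have h1 : ∀ᶠ i in (U : Filter ℕ), ∀ k ∈ Finset.range (N + 1), E k i :=
      (Filter.eventually_all_finset _).2 fun k _ => hE k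
    filter_upwards [h1, hU (Filter.eventually_ge_atTop N)] with i h2 h3
    exact Nat.le_findGreatest h3 fun k hk => h2 k (Finset.mem_range.2 (by omega))
  · filter_upwards [hE 0] with i h
    have h1 : ∀ k ≤ Nat.findGreatest (fun j => ∀ k ≤ j, E k i) i, E k i :=
      Nat.findGreatest_spec (P := fun j => ∀ k ≤ j, E k i) (Nat.zero_le i) fun k hk => by
        rw [Nat.le_zero.1 hk]
        exact h
    exact h1 _ le_rfl

/-- For every form `G` which is not in the ideal almost all of the sets contain a point at which the canonical height is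
large. -/
private theorem W10c_pt {K : Type u} [Field K] [NumberField K] {m : ℕ} (ω : Module.Basis (Fin m) ℚ K) (hC : CountG ℚ)
    {ι : Type} [Fintype ι] {J : Ideal (MvPolynomial ι K)} {C α δ : ℝ} (hδ : 0 < δ) {T : ℕ → ℝ}
    {S : ℕ → Finset (ι → K)} (hb : BadK ω J C α (α + δ) T S) (U : Ultrafilter ℕ)
    (hU : (U : Filter ℕ) ≤ Filter.atTop) (S' : ℕ → Finset (ι × Fin m → ℚ))
    (hcard : ∀ i, (S' i).card = (S i).card) (hS' : ∀ i, ∀ z ∈ S' i, ∃ p ∈ S i, z = rs ω p)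
    {I : Ideal (MvPolynomial (ι × Fin m) ℚ)} (hI : I.IsPrime) (hIh : ∀ F ∈ I, ∀ i, homogeneousComponent i F ∈ I)
    {c : ℝ} (hc : 0 < c)
    (hG : ∀ G, G ∉ I → (∃ e, G.IsHomogeneous e) → ∀ᶠ i in (U : Filter ℕ), ∃ S'' ⊆ S' i,
        (∀ z ∈ S'', IsPt I z ∧ eval z G ≠ 0) ∧ c * (S' i).card ≤ S''.card)
    (G : MvPolynomial (ι × Fin m) ℚ) (hGI : G ∉ I) (hGh : ∃ e, G.IsHomogeneous e) :
    ∀ᶠ i in (U : Filter ℕ), ∃ p ∈ S i, IsPt I (rs ω p) ∧ eval (rs ω p) G ≠ 0 ∧
      (α + δ / 2) * T i ≤ -hCan I (rs ω p) := by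
  obtain ⟨G₀, A, hG₀, ⟨e₀, he₀⟩, hcount⟩ := hC (ι × Fin m) I hI hIh (δ / 4) (by linarith)
  obtain ⟨e, he⟩ := hGh
  have h1 := hG (G₀ * G) (fun h => (hI.mem_or_mem h).elim hG₀ hGI) ⟨e₀ + e, he₀.mul he⟩
  have h2 : ∀ᶠ i in Filter.atTop, A * Real.exp (δ / 4 * |C|) / c < Real.exp (δ / 4 * T i) :=
    (Real.tendsto_exp_atTop.comp (hb.top.const_mul_atTop (by linarith : (0 : ℝ) < δ / 4))).eventually_gt_atTop _
  have hm : 1 ≤ m := by
    rcases Nat.eq_zero_or_pos m with rfl | h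
    · exfalso
      have h3 : (1 : K) = 0 := by
        rw [← ω.sum_repr 1, Finset.univ_eq_empty, Finset.sum_empty]
      exact one_ne_zero h3
    · exact h
  filter_upwards [h1, hU h2, hU hb.big] with i h3 h4 h5
  obtain ⟨S'', hsub, hpt, hcard''⟩ := h3
  by_contra hcon
  push Not at hcon
  have h6 : (S''.card : ℝ) ≤ A * Real.exp ((α + δ / 2) * T i + δ / 4 * (T i + |C|)) := by
    refine hcount _ _ S'' (fun z hz => ?_) fun z hz z' hz' hzz => ?_
    · obtain ⟨p, hp, rfl⟩ := hS' i z (hsub hz)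
      obtain ⟨h7, h8⟩ := hpt _ hz
      rw [map_mul] at h8
      have h9 := hcon p hp h7 (right_ne_zero_of_mul h8)
      obtain ⟨-, h10, -, h11⟩ := hb.pt i p hp
      refine ⟨h7, left_ne_zero_of_mul h8, ?_, h9.le⟩
      have h12 : 0 ≤ logHeight (rs ω p) := logHeight_nonneg _
      have h13 : (1 : ℝ) ≤ m := by exact_mod_cast hm
      have h14 : 1 * logHeight (rs ω p) ≤ m * logHeight (rs ω p) := mul_le_mul_of_nonneg_right h13 h12
      have h15 := le_abs_self C
      linarith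
    · obtain ⟨p, hp, rfl⟩ := hS' i z (hsub hz)
      obtain ⟨p', hp', rfl⟩ := hS' i z' (hsub hz')
      obtain ⟨a, ha⟩ := hzz
      rw [← map_smul] at ha
      have h7 : p' = a • p := rs_injective ω ha
      have h8 := hb.inj i p hp p' hp' ⟨(a : K), by
        rw [h7]
        funext b
        rw [Pi.smul_apply, Pi.smul_apply, smul_eq_mul, Rat.smul_def]⟩
      rw [h8]
  rw [hcard i] at hcard''
  have h7 : c * Real.exp ((α + δ) * T i) ≤ A * Real.exp ((α + δ / 2) * T i + δ / 4 * (T i + |C|)) :=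
    (mul_le_mul_of_nonneg_left h5 hc.le).trans (hcard''.trans h6)
  have h8 : Real.exp ((α + δ / 2) * T i + δ / 4 * (T i + |C|)) =
      Real.exp (δ / 4 * |C|) * Real.exp ((α + 3 * δ / 4) * T i) := by
    rw [← Real.exp_add]
    congr 1
    ring
  have h9 : Real.exp ((α + δ) * T i) = Real.exp (δ / 4 * T i) * Real.exp ((α + 3 * δ / 4) * T i) := by
    rw [← Real.exp_add]
    congr 1
    ring
  rw [h8, h9, ← mul_assoc, ← mul_assoc] at h7
  have h10 := le_of_mul_le_mul_right h7 (Real.exp_pos _)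
  rw [div_lt_iff₀ hc] at h4
  linarith

/-- PROOF: Let `S' i` be the image of `S i` under `rs ω` (injective, so of the same cardinality). Take `I`, `c` from
`exists_ideal`. `CountG ℚ` for `I` and `δ' = δ / 4` gives `G₀ ∉ I` and `A`. Let `G ∉ I` be homogeneous. For `U`-almost all `i`
at least `c exp ((α + δ) T i)` of the points `z` of `S' i` are points of `I` with `(G₀ G) z ≠ 0`, and their heights are at
most `(T i + C) / m ≤ T i + |C|` (`0 ≤ logHeight`, `m ≥ 1`). If all of them had `- hCan I z ≤ (α + δ / 2) T i`, then there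
would be at most `A exp ((α + δ / 2) T i + δ' (T i + |C|))` of them (`T i ≥ 0`; no two of them are proportional), which is
smaller for large `i`. So one of them has `- hCan I z > (α + δ / 2) T i`: for every homogeneous `G ∉ I` and `U`-almost all
`i` there is `p ∈ S i` with `IsPt I (rs ω p)`, `eval (rs ω p) G ≠ 0` and `(α + δ / 2) T i ≤ - hCan I (rs ω p)`. Let `P j` be
the forms of `exists_forms` (MV/E1a) for `I`, which are not in `I` and such that every `G` divides `P j` for large `j`. Put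
`j(i)` = the largest `j ≤ i` such that `i` belongs to the sets of `U` of `P 0`, .., `P j` (or `0`), and choose `p i` for
`G = P (j(i))`; `j(i)` tends to infinity along `U` (`U` is finer than `atTop`). `genJ`: `hb.gen`, `hU`. -/
theorem exists_seqK {K : Type u} [Field K] [NumberField K] {m : ℕ} (ω : Module.Basis (Fin m) ℚ K) (hC : CountG ℚ)
    {ι : Type} [Fintype ι] {J : Ideal (MvPolynomial ι K)} {C α δ : ℝ} (hα : 0 ≤ α) (hδ : 0 < δ) {T : ℕ → ℝ}
    {S : ℕ → Finset (ι → K)} (hb : BadK ω J C α (α + δ) T S) (U : Ultrafilter ℕ)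
    (hU : (U : Filter ℕ) ≤ Filter.atTop) :
    ∃ (I : Ideal (MvPolynomial (ι × Fin m) ℚ)) (p : ℕ → ι → K), I.IsPrime ∧
      (∀ F ∈ I, ∀ i, homogeneousComponent i F ∈ I) ∧ SeqK ω J I U T C α (α + δ / 2) p := by
  classical
  obtain ⟨S', hS'⟩ : ∃ S' : ℕ → Finset (ι × Fin m → ℚ), ∀ i, S' i = (S i).image (rs ω) := ⟨_, fun _ => rfl⟩
  have hcard : ∀ i, (S' i).card = (S i).card := by
    intro i
    rw [hS', Finset.card_image_of_injective _ (rs_injective ω)]
  have hmem : ∀ i, ∀ z ∈ S' i, ∃ p ∈ S i, z = rs ω p := by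
    intro i z hz
    rw [hS'] at hz
    obtain ⟨p, hp, rfl⟩ := Finset.mem_image.1 hz
    exact ⟨p, hp, rfl⟩
  have hne : ∀ᶠ i in (U : Filter ℕ), (S' i).Nonempty := by
    filter_upwards [hU hb.big] with i h
    rw [← Finset.card_pos, hcard]
    have h1 := (Real.exp_pos ((α + δ) * T i)).trans_le h
    exact_mod_cast h1
  have h0 : ∀ i, ∀ z ∈ S' i, z ≠ 0 := by
    intro i z hz h
    obtain ⟨p, hp, rfl⟩ := hmem i z hz
    have h1 := (hb.pt i p hp).1.1
    exact h1 (rs_injective ω (h.trans (map_zero _).symm))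
  obtain ⟨I, hI, hIh, c, hc, hG⟩ := exists_ideal U S' hne h0
  obtain ⟨P, hP, hPd⟩ := exists_forms I hI
  obtain ⟨j, hj, hE⟩ := W10c_diag U hU (fun j i => ∃ p ∈ S i, IsPt I (rs ω p) ∧ eval (rs ω p) (P j) ≠ 0 ∧
      (α + δ / 2) * T i ≤ -hCan I (rs ω p))
    fun j => W10c_pt ω hC hδ hb U hU S' hcard hmem hI hIh hc hG (P j) (hP j).1 (hP j).2
  obtain ⟨p, hp⟩ : ∃ p : ℕ → ι → K, ∀ᶠ i in (U : Filter ℕ), p i ∈ S i ∧ IsPt I (rs ω (p i)) ∧
      eval (rs ω (p i)) (P (j i)) ≠ 0 ∧ (α + δ / 2) * T i ≤ -hCan I (rs ω (p i)) := by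
    refine ⟨fun i => if h : ∃ p ∈ S i, IsPt I (rs ω p) ∧ eval (rs ω p) (P (j i)) ≠ 0 ∧
      (α + δ / 2) * T i ≤ -hCan I (rs ω p) then h.choose else 0, ?_⟩
    filter_upwards [hE] with i h
    rw [dif_pos h]
    exact h.choose_spec
  refine ⟨I, p, hI, hIh, ⟨?_, fun G hGJ hGh => ?_, ?_, fun G hGI hGh => ?_⟩⟩
  · filter_upwards [hp] with i h
    exact hb.pt i _ h.1
  · filter_upwards [hp, hU (hb.gen G hGJ hGh)] with i h h'
    exact h' _ h.1
  · filter_upwards [hp] with i h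
    exact ⟨h.2.1, h.2.2.2⟩
  · obtain ⟨N, hN⟩ := hPd G hGI hGh
    filter_upwards [hp, hj N] with i h h'
    obtain ⟨Q, hQ⟩ := hN (j i) h'
    intro h1
    apply h.2.2.1
    rw [hQ, map_mul, h1, zero_mul]

end Pool.Agent.Lib.MP_17a322_nt.MV
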