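import Pool.Agent.Lib.MP_17a322_nt.MV.W0
import Pool.Agent.Lib.MP_17a322_nt.EQ.G0

/-!
Normalisation of the sequence.
-/

universe u

namespace Pool.Agent.Lib.MP_17a322_nt.MV

open MvPolynomial Height NumberField
open Pool.Agent.Lib.MP_17a322_nt.EQ

private theorem W11a_pigeon {κ : Type} [Finite κ] {U : Ultrafilter ℕ} {P : ℕ → κ → Prop}
    (h : ∀ᶠ i in (U : Filter ℕ), ∃ o, P i o) : ∃ o, ∀ᶠ i in (U : Filter ℕ), P i o := by
  by_contra hc
  have h1 : ∀ o, ∀ᶠ i in (U : Filter ℕ), ¬ P i o := by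
    intro o
    rw [Ultrafilter.eventually_not]
    exact fun h2 => hc ⟨o, h2⟩
  have h3 : ∀ᶠ i in (U : Filter ℕ), ∀ o, ¬ P i o := Filter.eventually_all.2 h1
  obtain ⟨i, ⟨o, ho⟩, hi⟩ := (h.and h3).exists
  exact hi o ho

private theorem W11a_hCan {K : Type u} [Field K] [NumberField K] {ι : Type} [Fintype ι]
    {J : Ideal (MvPolynomial ι K)} (hJ : ∀ F ∈ J, ∀ i, homogeneousComponent i F ∈ J) {c : K}
    (hc : c ≠ 0) (p : ι → K) : hCan J (c • p) = hCan J p := by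
  have h1 : Tan J (c • p) = Tan J p := Tan_mul hJ hc p
  unfold hCan
  rw [h1, logHeight_smul_eq_logHeight p hc]

private theorem W11a_hCanQ {κ : Type} [Fintype κ]
    {J : Ideal (MvPolynomial κ ℚ)} (hJ : ∀ F ∈ J, ∀ i, homogeneousComponent i F ∈ J) {c : ℚ}
    (hc : c ≠ 0) (p : κ → ℚ) : hCan J (c • p) = hCan J p := by
  have h1 : Tan J (c • p) = Tan J p := Tan_mul hJ hc p
  unfold hCan
  rw [h1, logHeight_smul_eq_logHeight p hc]

private theorem W11a_rs {K : Type u} [Field K] [NumberField K] {m : ℕ} (ω : Module.Basis (Fin m) ℚ K)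
    {ι : Type} (q : ℚ) (p : ι → K) : rs ω ((algebraMap ℚ K q) • p) = q • rs ω p := by
  have h : (algebraMap ℚ K q) • p = q • p := by
    funext a
    show algebraMap ℚ K q * p a = q • p a
    rw [Algebra.smul_def]
  rw [h, map_smul]

/-- PROOF: `rs ω (p i) ≠ 0`, so for one `o` (finite pigeonhole for the ultrafilter) `rs ω (p i) o ≠ 0` for `U`-almost all
`i`. Multiply `p i` by the rational number `q i = (rs ω (p i) o)⁻¹` (`0` replaced by `1`): `rs ω (q • p) = q • rs ω p`, and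
`IsPt`, `logHeight`, `hCan` (`Tan_smul` / `Tan_mul`, see the end of FL/B14; `hCan_smulE` in MV/E2) and `eval p G ≠ 0` for
homogeneous `G` do not change. -/
theorem SeqK.norm {K : Type u} [Field K] [NumberField K] {m : ℕ} {ω : Module.Basis (Fin m) ℚ K}
    {ι : Type} [Fintype ι] {J : Ideal (MvPolynomial ι K)} (hJ : ∀ F ∈ J, ∀ i, homogeneousComponent i F ∈ J)
    {I : Ideal (MvPolynomial (ι × Fin m) ℚ)} (hI : ∀ F ∈ I, ∀ i, homogeneousComponent i F ∈ I) {U : Ultrafilter ℕ}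
    {T : ℕ → ℝ} {C α β : ℝ} {p : ℕ → ι → K} (hs : SeqK ω J I U T C α β p) :
    ∃ (o : ι × Fin m) (p' : ℕ → ι → K), SeqK ω J I U T C α β p' ∧ ∀ᶠ i in (U : Filter ℕ), rs ω (p' i) o = 1 := by
  have h0 : ∀ᶠ i in (U : Filter ℕ), ∃ o, rs ω (p i) o ≠ 0 := by
    filter_upwards [hs.ptI] with i hi
    exact Function.ne_iff.1 hi.1.1
  obtain ⟨o, ho⟩ := W11a_pigeon h0
  classical
  let q : ℕ → ℚ := fun i => if rs ω (p i) o = 0 then 1 else (rs ω (p i) o)⁻¹
  have hq0 : ∀ i, q i ≠ 0 := by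
    intro i
    show (if rs ω (p i) o = 0 then 1 else (rs ω (p i) o)⁻¹) ≠ 0
    split_ifs with h
    · exact one_ne_zero
    · exact inv_ne_zero h
  have hc0 : ∀ i, algebraMap ℚ K (q i) ≠ 0 := fun i => (map_ne_zero (algebraMap ℚ K)).2 (hq0 i)
  refine ⟨o, fun i => algebraMap ℚ K (q i) • p i, ⟨?_, ?_, ?_, ?_⟩, ?_⟩
  · filter_upwards [hs.ptJ] with i hi
    obtain ⟨h1, h2, h3, h4⟩ := hi
    refine ⟨IsPt_mul hJ (hc0 i) h1, ?_, ?_, ?_⟩
    · rw [logHeight_smul_eq_logHeight (p i) (hc0 i)]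
      exact h2
    · rw [W11a_hCan hJ (hc0 i) (p i)]
      exact h3
    · rw [logHeight_smul_eq_logHeight (p i) (hc0 i), W11a_rs, logHeight_smul_eq_logHeight _ (hq0 i)]
      exact h4
  · rintro G hG ⟨e, he⟩
    filter_upwards [hs.genJ G hG ⟨e, he⟩] with i hi
    have h1 : eval (algebraMap ℚ K (q i) • p i) G = (algebraMap ℚ K (q i)) ^ e * eval (p i) G :=
      aeval_mul he (algebraMap ℚ K (q i)) (p i)
    rw [h1]
    exact mul_ne_zero (pow_ne_zero _ (hc0 i)) hi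
  · filter_upwards [hs.ptI] with i hi
    obtain ⟨h1, h2⟩ := hi
    rw [W11a_rs]
    refine ⟨IsPt_mul hI (hq0 i) h1, ?_⟩
    rw [W11a_hCanQ hI (hq0 i)]
    exact h2
  · rintro G hG ⟨e, he⟩
    filter_upwards [hs.genI G hG ⟨e, he⟩] with i hi
    rw [W11a_rs]
    have h1 : eval (q i • rs ω (p i)) G = (q i) ^ e * eval (rs ω (p i)) G :=
      aeval_mul he (q i) (rs ω (p i))
    rw [h1]
    exact mul_ne_zero (pow_ne_zero _ (hq0 i)) hi
  · filter_upwards [ho] with i hi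
    rw [W11a_rs]
    show q i * rs ω (p i) o = 1
    have h1 : q i = (rs ω (p i) o)⁻¹ := if_neg hi
    rw [h1]
    exact inv_mul_cancel₀ hi

end Pool.Agent.Lib.MP_17a322_nt.MV
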