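import Pool.Agent.Lib.MP_17a322_nt.MV.Defs
import Pool.Agent.Lib.MP_17a322_nt.MV.GDefs

/-!
Restriction of scalars from a number field `K` to the rational numbers: definitions.
-/

universe u

namespace Pool.Agent.Lib.MP_17a322_nt.MV

open MvPolynomial Height NumberField
open Pool.Agent.Lib.MP_17a322_nt.EQ

section

variable {K : Type u} [Field K] [NumberField K] {m : ℕ} (ω : Module.Basis (Fin m) ℚ K) {ι : Type}

/-- The coordinates of a vector over `K` with respect to a basis of `K` over `ℚ`. -/
noncomputable def rs : (ι → K) →ₗ[ℚ] (ι × Fin m → ℚ) where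
  toFun y c := ω.repr (y c.1) c.2
  map_add' y z := by
    funext c
    simp
  map_smul' q y := by
    funext c
    simp

/-- The space of the coordinate vectors of the elements of a subspace. -/
noncomputable def resV (V : Submodule K (ι → K)) : Submodule ℚ (ι × Fin m → ℚ) :=
  (V.restrictScalars ℚ).map (rs ω)

open Classical in
/-- The matrix of the multiplication by `ω j` on `K ^ ι`. -/
noncomputable def bm (j : Fin m) (c c' : ι × Fin m) : ℚ :=
  if c.1 = c'.1 then ω.repr (ω j * ω c'.2) c.2 else 0

end

section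

variable {E : Type*} [Field E] {κ : Type}

/-- The space spanned by the vector `x` and its derivatives. -/
def L0 (k : Type*) [Field k] [Algebra k E] (x : κ → E) : Submodule E (κ → E) :=
  Submodule.span E (insert x (Set.range fun (D : Derivation k E E) (a : κ) => D (x a)))

/-- The linear map with the rational matrix `b`. -/
def mulb [Algebra ℚ E] [Fintype κ] (b : κ → κ → ℚ) : (κ → E) →ₗ[E] (κ → E) where
  toFun v a := ∑ c, algebraMap ℚ E (b a c) * v c
  map_add' v w := by
    funext a
    simp only [Pi.add_apply, mul_add, Finset.sum_add_distrib]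
  map_smul' c v := by
    funext a
    simp only [Pi.smul_apply, smul_eq_mul, RingHom.id_apply, Finset.mul_sum]
    exact Finset.sum_congr rfl fun d _ => by ring

/-- The space spanned by the images of the vector `x` and of its derivatives under the matrices `b j`. -/
def Lf [Algebra ℚ E] [Fintype κ] {m : ℕ} (b : Fin m → κ → κ → ℚ) (x : κ → E) : Submodule E (κ → E) :=
  ⨆ j, (L0 ℚ x).map (mulb (b j))

/-- The vector over `F` with the coordinates `v (a, j)` over `E`. -/
noncomputable def cb {F : Type*} [Field F] [Algebra E F] {m : ℕ} {ι : Type} (b : Module.Basis (Fin m) E F)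
    (v : ι × Fin m → E) (a : ι) : F :=
  ∑ j, algebraMap E F (v (a, j)) * b j

end

section

variable {K : Type u} [Field K] [NumberField K] {m : ℕ} (ω : Module.Basis (Fin m) ℚ K) {ι : Type} [Fintype ι]

/-- For every vector `p` over `K` there is a multiple `a p` whose coordinates over `ℚ` have a small height. -/
def Bal (ι : Type) [Fintype ι] : Prop :=
  ∃ C : ℝ, ∀ p : ι → K, p ≠ 0 → ∃ a : K, a ≠ 0 ∧ m * logHeight (rs ω (a • p)) ≤ logHeight p + C

/-- The finite sets `S i` of points over `K` of the variety with the ideal `J` leave every proper closed subset, and have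
at least `exp (c T i)` elements, with heights at most `T i` and `- hCan ≤ α T i`; they are balanced. -/
structure BadK (J : Ideal (MvPolynomial ι K)) (C α c : ℝ) (T : ℕ → ℝ) (S : ℕ → Finset (ι → K)) : Prop where
  top : Filter.Tendsto T Filter.atTop Filter.atTop
  pt : ∀ i, ∀ p ∈ S i, IsPt J p ∧ logHeight p ≤ T i ∧ -hCan J p ≤ α * T i ∧
    m * logHeight (rs ω p) ≤ logHeight p + C
  gen : ∀ G, G ∉ J → (∃ e, G.IsHomogeneous e) → ∀ᶠ i in Filter.atTop, ∀ p ∈ S i, eval p G ≠ 0
  big : ∀ᶠ i in Filter.atTop, Real.exp (c * T i) ≤ (S i).card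
  inj : ∀ i, ∀ p ∈ S i, ∀ q ∈ S i, (∃ a : K, q = a • p) → p = q

/-- A sequence of points `p i` over `K` of the variety with the ideal `J` which leaves every proper closed subset, while
the sequence of the points `rs ω (p i)` over `ℚ` of the variety with the ideal `I` leaves every proper closed subset of
this variety. -/
structure SeqK (J : Ideal (MvPolynomial ι K)) (I : Ideal (MvPolynomial (ι × Fin m) ℚ)) (U : Ultrafilter ℕ)
    (T : ℕ → ℝ) (C α β : ℝ) (p : ℕ → ι → K) : Prop where
  ptJ : ∀ᶠ i in (U : Filter ℕ), IsPt J (p i) ∧ logHeight (p i) ≤ T i ∧ -hCan J (p i) ≤ α * T i ∧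
    m * logHeight (rs ω (p i)) ≤ logHeight (p i) + C
  genJ : ∀ G, G ∉ J → (∃ e, G.IsHomogeneous e) → ∀ᶠ i in (U : Filter ℕ), eval (p i) G ≠ 0
  ptI : ∀ᶠ i in (U : Filter ℕ), IsPt I (rs ω (p i)) ∧ β * T i ≤ -hCan I (rs ω (p i))
  genI : ∀ G, G ∉ I → (∃ e, G.IsHomogeneous e) → ∀ᶠ i in (U : Filter ℕ), eval (rs ω (p i)) G ≠ 0

end

end Pool.Agent.Lib.MP_17a322_nt.MV
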