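import Pool.Agent.Lib.MP_17a322_nt.MV.A0
import Pool.Agent.Lib.MP_17a322_nt.FQ.X1
import Pool.Agent.Lib.MP_17a322_nt.MV.WDefs

/-!
The height of a space of vectors to which one vector is added.
-/

universe u

namespace Pool.Agent.Lib.MP_17a322_nt.MV

open Pool.Agent.Lib.MP_17a322_nt.FQ

/-- A basis of a subspace of the space of vectors. -/
private noncomputable def W4_bv {E : Type} [Field E] {κ : Type} [Fintype κ] (N : Submodule E (κ → E))
    (i : Fin (Module.finrank E N)) : κ → E :=
  ((Module.finBasis E N i : N) : κ → E)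

private theorem W4_bv_li {E : Type} [Field E] {κ : Type} [Fintype κ] (N : Submodule E (κ → E)) :
    LinearIndependent E (W4_bv N) :=
  (Module.finBasis E N).linearIndependent.map' N.subtype N.ker_subtype

private theorem W4_bv_span {E : Type} [Field E] {κ : Type} [Fintype κ] (N : Submodule E (κ → E)) :
    Submodule.span E (Set.range (W4_bv N)) = N := by
  have h1 : Set.range (W4_bv N) = N.subtype '' Set.range (Module.finBasis E N) := by
    rw [← Set.range_comp]
    rfl
  rw [h1, Submodule.span_image, (Module.finBasis E N).span_eq, Submodule.map_subtype_top]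

private theorem W4_plu {E : Type} [Field E] {κ : Type} [Fintype κ] (N : Submodule E (κ → E)) :
    plu N = plk (W4_bv N) := by
  funext s
  rw [plk_apply, ← Matrix.det_transpose]
  rfl

private theorem W4_eq {E : Type} [Field E] [Algebra ℚ E] (H : Ht ℚ E) {κ : Type} [Fintype κ] {ι : Type} [Fintype ι]
    [DecidableEq ι] {y : ι → κ → E} (hy : LinearIndependent E y) :
    H.lam (plk y) = H.lam (plu (Submodule.span E (Set.range y))) := by
  rw [W4_plu]
  set N := Submodule.span E (Set.range y) with hN
  have hcard : Fintype.card ι = Module.finrank E N := (finrank_span_eq_card hy).symm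
  let e : ι ≃ Fin (Module.finrank E N) := Fintype.equivFinOfCardEq hcard
  have hyN : ∀ i, y i ∈ N := fun i => Submodule.subset_span ⟨i, rfl⟩
  let t : ι → ι → E := fun i i' => (Module.finBasis E N).repr ⟨y i, hyN i⟩ (e i')
  have h1 : ∀ i, y i = ∑ i', t i i' • W4_bv N (e i') := by
    intro i
    have h2 := (Module.finBasis E N).sum_repr ⟨y i, hyN i⟩
    have h3 := congrArg (fun n : N => (n : κ → E)) h2
    simp only [Submodule.coe_sum, Submodule.coe_smul] at h3
    rw [← h3]
    exact (Equiv.sum_comp e fun l => (Module.finBasis E N).repr ⟨y i, hyN i⟩ l • W4_bv N l).symm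
  have h2 : y = fun i => ∑ i', t i i' • W4_bv N (e i') := by
    funext i
    rw [← h1]
  have hb : LinearIndependent E fun i' => W4_bv N (e i') := (W4_bv_li N).comp e e.injective
  have hne := plk_ne_zero _ hb
  have hne' := plk_ne_zero _ hy
  have h2' : plk y = (Matrix.of t).det • plk (fun i' => W4_bv N (e i')) := by
    conv_lhs => rw [h2]
    exact plk_comb_vec t _
  have hdet : (Matrix.of t).det ≠ 0 := by
    intro h0
    rw [h2', h0, zero_smul] at hne'
    exact hne' rfl
  rw [h2', lam_smul H _ hdet _ hne]
  have hne2 : plk (W4_bv N) ≠ 0 := plk_ne_zero _ (W4_bv_li N)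
  exact lam_congr H _ _ hne hne2 fun A =>
    vn_plk_reindex A.1.valuation (W4_bv N) e

private theorem W4_mulb {E : Type} [Field E] [Algebra ℚ E] {κ : Type} [Fintype κ] (x : κ → E) (b : κ → κ → ℚ)
    (A : VQ ℚ E) : vn A.1.valuation (mulb b x) ≤ vn A.1.valuation x := by
  refine vn_le _ fun a => ?_
  refine A.1.valuation.map_sum_le fun c _ => ?_
  rw [map_mul]
  have h1 : A.1.valuation (algebraMap ℚ E (b a c)) ≤ 1 := (A.1.valuation_le_one_iff _).2 (A.2 _)
  calc A.1.valuation (algebraMap ℚ E (b a c)) * A.1.valuation (x c) ≤ 1 * vn A.1.valuation x :=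
        mul_le_mul' h1 (le_vn _ x c)
    _ = vn A.1.valuation x := one_mul _

/-- PROOF: if `mulb b x ∈ L` nothing changes. Otherwise the minors of a basis of `L` and `y = mulb b x` are at every
valuation ring at most the product of those of the basis and of `|y| ≤ |x|` (`vn_plk_sum_le`, `vn_plk_le_prod`; the entries
of `b` are rational numbers, which have absolute value at most one); `H.mono`, `H.tensor`; `H.lam` of `plu` is the one of
`plk` of any basis (`pH_eq` in FQ/X1, or `plk_comb_vec`, `lam_smul`). -/
theorem step0 {E : Type} [Field E] [Algebra ℚ E] (H : Ht ℚ E) {κ : Type} [Fintype κ] (x : κ → E) (hx : x ≠ 0)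
    (b : κ → κ → ℚ) (L : Submodule E (κ → E)) :
    H.lam (plu (L ⊔ Submodule.span E {mulb b x})) + Module.finrank E L * H.lam x ≤
      H.lam (plu L) + Module.finrank E (L ⊔ Submodule.span E {mulb b x} : Submodule E (κ → E)) * H.lam x := by
  by_cases hy : mulb b x ∈ L
  · have h1 : L ⊔ Submodule.span E {mulb b x} = L :=
      sup_eq_left.2 ((Submodule.span_singleton_le_iff_mem _ _).2 hy)
    rw [h1]
  · set y : κ → E := mulb b x with hydef
    have hy0 : y ≠ 0 := fun h0 => hy (h0 ▸ L.zero_mem)
    have hu : Set.range (fun _ : Unit => y) = {y} := Set.range_const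
    have hli : LinearIndependent E (Sum.elim (W4_bv L) (fun _ : Unit => y)) := by
      refine (W4_bv_li L).sum_type ?_ ?_
      · exact LinearIndependent.of_subsingleton () hy0
      · rw [W4_bv_span, hu]
        exact (Submodule.disjoint_span_singleton' hy0).2 hy
    have hsp : Submodule.span E (Set.range (Sum.elim (W4_bv L) (fun _ : Unit => y))) =
        L ⊔ Submodule.span E {y} := by
      rw [Set.Sum.elim_range, Submodule.span_union, W4_bv_span, hu]
    have hfr : Module.finrank E (L ⊔ Submodule.span E {y} : Submodule E (κ → E)) = Module.finrank E L + 1 := by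
      rw [← hsp, finrank_span_eq_card hli, Fintype.card_sum, Fintype.card_fin, Fintype.card_unit]
    have h1 := W4_eq H hli
    rw [hsp] at h1
    have n1 := plk_ne_zero _ hli
    have n2 := plk_ne_zero _ (W4_bv_li L)
    have h2 : H.lam (plk (Sum.elim (W4_bv L) (fun _ : Unit => y))) ≤ H.lam (plu L) + H.lam x := by
      rw [W4_plu, ← H.tensor _ _ n2 hx]
      refine H.mono _ _ n1 (X1_tn_ne _ _ n2 hx) fun A => ?_
      have h3 : nm ℚ (fun a : (Fin (Module.finrank E L) → κ) × κ => plk (W4_bv L) a.1 * x a.2) A =
          nm ℚ (plk (W4_bv L)) A * nm ℚ x A := nm_tn _ _ A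
      rw [h3]
      refine (vn_plk_sum_le A.1.valuation (W4_bv L) (fun _ : Unit => y)).trans ?_
      rw [vn_plk_unit]
      exact mul_le_mul' le_rfl (W4_mulb x b A)
    rw [← h1, hfr]
    push_cast
    linarith

end Pool.Agent.Lib.MP_17a322_nt.MV
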