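import Pool.Agent.Lib.MP_17a322_nt.MV.W3
import Pool.Agent.Lib.MP_17a322_nt.MV.W4

/-!
The height of a space of vectors to which all derivatives of a vector and their multiples are added.
-/

universe u

namespace Pool.Agent.Lib.MP_17a322_nt.MV

open Pool.Agent.Lib.MP_17a322_nt.FQ

private theorem W5_fst {E : Type} [Field E] [Algebra ℚ E] (H : Ht ℚ E) {κ : Type} [Fintype κ] (x : κ → E)
    (hx : x ≠ 0) {m : ℕ} (b : Fin m → κ → κ → ℚ) (L : Submodule E (κ → E)) (s : Finset (Fin m)) :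
    H.lam (plu (L ⊔ ⨆ j ∈ s, Submodule.span E {mulb (b j) x})) + Module.finrank E L * H.lam x ≤
      H.lam (plu L) +
        Module.finrank E (L ⊔ ⨆ j ∈ s, Submodule.span E {mulb (b j) x} : Submodule E (κ → E)) * H.lam x := by
  classical
  induction s using Finset.induction_on with
  | empty =>
    have h : (L ⊔ ⨆ j ∈ (∅ : Finset (Fin m)), Submodule.span E {mulb (b j) x}) = L := by
      simp only [Finset.notMem_empty, iSup_false, iSup_bot, sup_bot_eq]
    rw [h]
  | insert i s hi ih =>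
    have h1 := step0 H x hx (b i) (L ⊔ ⨆ j ∈ s, Submodule.span E {mulb (b j) x})
    have h2 : (L ⊔ ⨆ j ∈ insert i s, Submodule.span E {mulb (b j) x}) =
        (L ⊔ ⨆ j ∈ s, Submodule.span E {mulb (b j) x}) ⊔ Submodule.span E {mulb (b i) x} := by
      rw [Finset.iSup_insert, sup_comm (Submodule.span E {mulb (b i) x}), sup_assoc]
    rw [h2]
    linarith

private theorem W5_snd {E : Type} [Field E] [Algebra ℚ E] [FiniteDimensional E (Derivation ℚ E E)] (H : Ht ℚ E)
    (hS : ∀ {κ : Type} [Fintype κ] (m : κ → E), IsMd ℚ m → ∀ L, dg H m L ≤ dg H m ⊤)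
    (hE : (⊤ : IntermediateField ℚ E).FG) {κ : Type} [Fintype κ] (x : κ → E) (hx : x ≠ 0) {m : ℕ}
    (b : Fin m → κ → κ → ℚ) (L : Submodule E (κ → E)) (hb : ∀ j, mulb (b j) x ∈ L) (s : Finset (Fin m)) :
    H.lam (plu (L ⊔ ⨆ j ∈ s, (L0 ℚ x).map (mulb (b j)))) + Module.finrank E L * H.lam x ≤
      H.lam (plu L) +
        Module.finrank E (L ⊔ ⨆ j ∈ s, (L0 ℚ x).map (mulb (b j)) : Submodule E (κ → E)) * H.lam x := by
  classical
  induction s using Finset.induction_on with
  | empty =>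
    have h : (L ⊔ ⨆ j ∈ (∅ : Finset (Fin m)), (L0 ℚ x).map (mulb (b j))) = L := by
      simp only [Finset.notMem_empty, iSup_false, iSup_bot, sup_bot_eq]
    rw [h]
  | insert i s hi ih =>
    have h1 := step H hS hE x hx (b i) (L ⊔ ⨆ j ∈ s, (L0 ℚ x).map (mulb (b j)))
      (Submodule.mem_sup_left (hb i))
    have h2 : (L ⊔ ⨆ j ∈ insert i s, (L0 ℚ x).map (mulb (b j))) =
        (L ⊔ ⨆ j ∈ s, (L0 ℚ x).map (mulb (b j))) ⊔ (L0 ℚ x).map (mulb (b i)) := by
      rw [Finset.iSup_insert, sup_comm ((L0 ℚ x).map (mulb (b i))), sup_assoc]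
    rw [h2]
    linarith

/-- PROOF: first add the `mulb (b j) x` one after the other (`step0`, induction over a `Finset` of indices `j`), then the
`(L0 ℚ x).map (mulb (b j))` (`step`; the hypothesis `mulb (b j) x ∈ L` holds now). The inequalities
`lam (plu L') + finrank L * lam x ≤ lam (plu L) + finrank L' * lam x` add up. At the end the space is `L ⊔ Lf b x`, since
`mulb (b j) x ∈ (L0 ℚ x).map (mulb (b j))`. -/
theorem chain {E : Type} [Field E] [Algebra ℚ E] [FiniteDimensional E (Derivation ℚ E E)] (H : Ht ℚ E)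
    (hS : ∀ {κ : Type} [Fintype κ] (m : κ → E), IsMd ℚ m → ∀ L, dg H m L ≤ dg H m ⊤)
    (hE : (⊤ : IntermediateField ℚ E).FG) {κ : Type} [Fintype κ] (x : κ → E) (hx : x ≠ 0) {m : ℕ}
    (b : Fin m → κ → κ → ℚ) (L : Submodule E (κ → E)) :
    H.lam (plu (L ⊔ Lf b x)) + Module.finrank E L * H.lam x ≤
      H.lam (plu L) + Module.finrank E (L ⊔ Lf b x : Submodule E (κ → E)) * H.lam x := by
  have h1 := W5_fst H x hx b L Finset.univ
  have h2 := W5_snd H hS hE x hx b (L ⊔ ⨆ j ∈ Finset.univ, Submodule.span E {mulb (b j) x}) (by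
    intro j
    refine Submodule.mem_sup_right (Submodule.mem_iSup_of_mem j (Submodule.mem_iSup_of_mem (Finset.mem_univ j) ?_))
    exact Submodule.mem_span_singleton_self _) Finset.univ
  have h3 : (L ⊔ ⨆ j ∈ Finset.univ, Submodule.span E {mulb (b j) x}) ⊔
      ⨆ j ∈ Finset.univ, (L0 ℚ x).map (mulb (b j)) = L ⊔ Lf b x := by
    have h4 : (⨆ j ∈ Finset.univ, (L0 ℚ x).map (mulb (b j))) = Lf b x := by
      unfold Lf
      simp only [Finset.mem_univ, iSup_pos]
    rw [h4]
    refine le_antisymm (sup_le (sup_le le_sup_left ?_) le_sup_right) (sup_le (le_sup_left.trans le_sup_left) le_sup_right)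
    refine iSup_le fun j => iSup_le fun _ => le_trans ?_ le_sup_right
    rw [Submodule.span_singleton_le_iff_mem]
    refine Submodule.mem_iSup_of_mem j ⟨x, Submodule.subset_span (Set.mem_insert _ _), rfl⟩
  rw [h3] at h2
  linarith

end Pool.Agent.Lib.MP_17a322_nt.MV
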