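import Pool.Agent.Lib.MP_17a322_nt.EQ.G0

/-!
Algebraic relations of a point with a derivative which does not vanish.
-/

universe u

namespace Pool.Agent.Lib.MP_17a322_nt.MV

open MvPolynomial
open Pool.Agent.Lib.MP_17a322_nt.EQ

/-- PROOF: as `exists_rel` (MV/C2a) with `l = 0`, over `k` in place of `ℚ`: take `G ≠ 0` of minimal total degree with
`aeval y G = 0`; if all `aeval y (pderiv j G) = 0` then all `pderiv j G = 0` by minimality, so `G` is constant
(characteristic zero), a contradiction. -/
theorem exists_relK {k E : Type u} [Field k] [CharZero k] [Field E] [Algebra k E] {r : ℕ} (y : Fin r → E)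
    (h : ¬ AlgebraicIndependent k y) :
    ∃ G : MvPolynomial (Fin r) k, aeval y G = 0 ∧ ∃ j, aeval y (pderiv j G) ≠ 0 := by
  classical
  rw [algebraicIndependent_iff] at h
  push Not at h
  have hex : ∃ n : ℕ, ∃ g : MvPolynomial (Fin r) k, g ≠ 0 ∧ aeval y g = 0 ∧ g.totalDegree = n := by
    obtain ⟨g, h1, h2⟩ := h
    exact ⟨g.totalDegree, g, h2, h1, rfl⟩
  obtain ⟨g, hg0, hgy, hgd⟩ := Nat.find_spec hex
  have hmin : ∀ g' : MvPolynomial (Fin r) k, g' ≠ 0 → aeval y g' = 0 → g.totalDegree ≤ g'.totalDegree := by
    intro g' h1 h2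
    rw [hgd]
    exact Nat.find_min' hex ⟨g', h1, h2, rfl⟩
  -- some derivative is not zero
  have hj : ∃ j, pderiv j g ≠ 0 := by
    by_contra hcon
    push Not at hcon
    have h1 : ∀ m : Fin r →₀ ℕ, m ≠ 0 → coeff m g = 0 := by
      intro m hm
      obtain ⟨j, hj⟩ : ∃ j, m j ≠ 0 := by
        by_contra hc
        push Not at hc
        exact hm (Finsupp.ext hc)
      have h2 := congrArg (coeff (m - Finsupp.single j 1)) (hcon j)
      rw [coeff_pderiv, coeff_zero] at h2
      have h3 : m - Finsupp.single j 1 + Finsupp.single j 1 = m := by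
        apply tsub_add_cancel_of_le
        rw [Finsupp.single_le_iff]
        omega
      rw [h3] at h2
      rcases mul_eq_zero.1 h2 with h4 | h4
      · exact h4
      · exfalso
        have h5 : (((m - Finsupp.single j 1 : Fin r →₀ ℕ) j + 1 : ℕ) : k) = 0 := by
          push_cast
          exact h4
        have h6 := Nat.cast_eq_zero.1 h5
        omega
    have h2 : g = C (coeff 0 g) := by
      ext1 m
      rw [coeff_C]
      split_ifs with hm
      · rw [hm]
      · exact h1 m (fun h => hm h.symm)
    rw [h2, aeval_C] at hgy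
    have h3 : coeff 0 g = 0 := by
      apply (algebraMap k E).injective
      rw [hgy, map_zero]
    rw [h3, C_0] at h2
    exact hg0 h2
  obtain ⟨j, hj⟩ := hj
  -- its degree is smaller
  have hdeg : (pderiv j g).totalDegree < g.totalDegree := by
    have hpos : ∀ m ∈ (pderiv j g).support, (m.sum fun _ e => e) + 1 ≤ g.totalDegree := by
      intro m hm
      rw [mem_support_iff, coeff_pderiv] at hm
      have h1 : m + Finsupp.single j 1 ∈ g.support := by
        rw [mem_support_iff]
        exact left_ne_zero_of_mul hm
      have h2 := le_totalDegree h1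
      have h3 : ((m + Finsupp.single j 1).sum fun _ e => e) = (m.sum fun _ e => e) + 1 := by
        rw [Finsupp.sum_add_index' (fun _ => rfl) (fun _ _ _ => rfl), Finsupp.sum_single_index rfl]
      omega
    obtain ⟨m, hm, hm2⟩ : ∃ m ∈ (pderiv j g).support, (pderiv j g).totalDegree = m.sum fun _ e => e := by
      have hne : (pderiv j g).support.Nonempty := by
        rw [Finset.nonempty_iff_ne_empty]
        intro he
        exact hj (support_eq_empty.1 he)
      obtain ⟨m, hm, h1⟩ := Finset.exists_mem_eq_sup _ hne (fun s : Fin r →₀ ℕ => s.sum fun _ e => e)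
      exact ⟨m, hm, h1⟩
    have := hpos m hm
    omega
  have hval : aeval y (pderiv j g) ≠ 0 := fun h0 => absurd (hmin _ hj h0) (not_le.2 hdeg)
  exact ⟨g, hgy, j, hval⟩

private theorem W6a_dif_pow {k : Type u} [Field k] {ι : Type} [Fintype ι] (o : ι) (L : Type u) [Field L]
    [Algebra k L] (p v : ι → L) (hv : v o = 0) (d : ℕ) : dif p ((X o : MvPolynomial ι k) ^ d) v = 0 := by
  induction d with
  | zero => rw [pow_zero, dif_one]
  | succ d ih => rw [pow_succ, dif_mul, ih, dif_X, hv, mul_zero, mul_zero, add_zero]

/-- PROOF: literally `exists_homog` (MV/E4a), over `k` in place of `ℚ`. -/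
theorem exists_homogK {k : Type u} [Field k] {τ ι : Type} [Fintype τ] [Fintype ι] (o : ι) (t : τ → ι)
    (G : MvPolynomial τ k) :
    ∃ F : MvPolynomial ι k, (∃ e, F.IsHomogeneous e) ∧
      ∀ (L : Type u) [Field L] [Algebra k L] (p : ι → L), p o = 1 →
        aeval p F = aeval (fun j => p (t j)) G ∧ ∀ v : ι → L, v o = 0 →
          dif p F v = ∑ j, aeval (fun j => p (t j)) (pderiv j G) * v (t j) := by
  classical
  have hsum : ∑ l ∈ Finset.range (G.totalDegree + 1), homogeneousComponent l G = G :=
    sum_homogeneousComponent G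
  refine ⟨∑ l ∈ Finset.range (G.totalDegree + 1),
    (X o : MvPolynomial ι k) ^ (G.totalDegree - l) * rename t (homogeneousComponent l G),
    ⟨G.totalDegree, ?_⟩, ?_⟩
  · refine IsHomogeneous.sum _ _ _ fun l hl => ?_
    have h1 : ((X o : MvPolynomial ι k) ^ (G.totalDegree - l)).IsHomogeneous
        (1 * (G.totalDegree - l)) := (isHomogeneous_X k o).pow _
    have h2 : (rename t (homogeneousComponent l G)).IsHomogeneous l :=
      (homogeneousComponent_isHomogeneous l G).rename_isHomogeneous
    have h3 := h1.mul h2
    have h4 : 1 * (G.totalDegree - l) + l = G.totalDegree := by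
      have := Finset.mem_range.1 hl
      omega
    rwa [h4] at h3
  · intro L _ _ p hp
    refine ⟨?_, fun v hv => ?_⟩
    · rw [map_sum]
      conv_rhs => rw [← hsum, map_sum]
      refine Finset.sum_congr rfl fun l _ => ?_
      rw [map_mul, map_pow, aeval_X, hp, one_pow, one_mul, aeval_rename]
      rfl
    · have h1 : dif p (∑ l ∈ Finset.range (G.totalDegree + 1),
          (X o : MvPolynomial ι k) ^ (G.totalDegree - l) * rename t (homogeneousComponent l G)) v =
          dif p (rename t G) v := by
        conv_rhs => rw [← hsum, map_sum]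
        rw [dif_sum, dif_sum]
        refine Finset.sum_congr rfl fun l _ => ?_
        rw [dif_mul, W6a_dif_pow o L p v hv, mul_zero, add_zero, map_pow, aeval_X, hp, one_pow,
          one_mul]
      have h3 : (rename t : MvPolynomial τ k →ₐ[k] MvPolynomial ι k) =
          aeval (fun j => (X (t j) : MvPolynomial ι k)) := by
        refine MvPolynomial.algHom_ext fun i => ?_
        rw [rename_X, aeval_X]
      have h2 : rename t G = aeval (fun j => (X (t j) : MvPolynomial ι k)) G := by rw [h3]
      rw [h1, h2, dif_aeval, dif_apply]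
      refine Finset.sum_congr rfl fun j _ => ?_
      simp only [aeval_X, dif_X]

end Pool.Agent.Lib.MP_17a322_nt.MV
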