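import Pool.Agent.Lib.MP_17a322_nt.ABN.Sard
import Pool.Agent.Lib.MP_17a322_nt.FQ.A1
import Pool.Agent.Lib.MP_17a322_nt.MV.W6a
import Pool.Agent.Lib.MP_17a322_nt.MV.WDefs

/-!
The derivatives of a generic point span the tangent space.
-/

universe u

namespace Pool.Agent.Lib.MP_17a322_nt.MV

open MvPolynomial Height NumberField
open Pool.Agent.Lib.MP_17a322_nt.EQ
open Pool.Agent.Lib.MP_17a322_nt.FQ

/-- Coordinates which separate enough vectors of a subspace. -/
private theorem W6_coord {k : Type*} [Field k] {ι : Type} [Fintype ι] (V : Submodule k (ι → k)) (o : ι)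
    (ho : ∃ v ∈ V, v o ≠ 0) (d : ℕ) (hd : d + 1 ≤ Module.finrank k V) :
    ∃ s : Fin d → ι, ∀ (c0 : k) (c : Fin d → k), ∃ v ∈ V, v o = c0 ∧ ∀ j, v (s j) = c j := by
  induction d with
  | zero =>
    obtain ⟨v, hv, hvo⟩ := ho
    refine ⟨Fin.elim0, fun c0 c => ⟨(c0 * (v o)⁻¹) • v, V.smul_mem _ hv, ?_, fun j => j.elim0⟩⟩
    rw [Pi.smul_apply, smul_eq_mul, mul_assoc, inv_mul_cancel₀ hvo, mul_one]
  | succ d ih =>
    obtain ⟨s, hs⟩ := ih (by omega)
    let φ : V →ₗ[k] (Option (Fin d) → k) :=
      { toFun := fun v b => (v : ι → k) (b.elim o s)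
        map_add' := fun _ _ => rfl
        map_smul' := fun _ _ => rfl }
    have hker : LinearMap.ker φ ≠ ⊥ := by
      refine LinearMap.ker_ne_bot_of_finrank_lt ?_
      rw [Module.finrank_fintype_fun_eq_card, Fintype.card_option, Fintype.card_fin]
      omega
    obtain ⟨w, hw, hw0⟩ := (Submodule.ne_bot_iff _).1 hker
    have hwo : (w : ι → k) o = 0 := congrFun (LinearMap.mem_ker.1 hw) none
    have hws : ∀ j, (w : ι → k) (s j) = 0 := fun j => congrFun (LinearMap.mem_ker.1 hw) (some j)
    have hwa : ∃ a, (w : ι → k) a ≠ 0 := by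
      by_contra h
      push Not at h
      exact hw0 (Subtype.ext (funext h))
    obtain ⟨a, ha⟩ := hwa
    refine ⟨Fin.cons a s, fun c0 c => ?_⟩
    obtain ⟨v, hv, hv0, hvs⟩ := hs c0 (fun j => c j.succ)
    refine ⟨v + ((c 0 - v a) * ((w : ι → k) a)⁻¹) • (w : ι → k), V.add_mem hv (V.smul_mem _ w.2), ?_, ?_⟩
    · rw [Pi.add_apply, Pi.smul_apply, hwo, smul_zero, add_zero, hv0]
    · intro j
      refine Fin.cases ?_ (fun j => ?_) j
      · rw [Fin.cons_zero, Pi.add_apply, Pi.smul_apply, smul_eq_mul, mul_assoc, inv_mul_cancel₀ ha, mul_one]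
        ring
      · rw [Fin.cons_succ, Pi.add_apply, Pi.smul_apply, hws, smul_zero, add_zero, hvs]

/-- A finite pigeonhole principle for ultrafilters. -/
private theorem W6_pigeon {α : Type*} [Finite α] (U : Ultrafilter ℕ) (P : α → ℕ → Prop)
    (h : ∀ᶠ i in (U : Filter ℕ), ∃ a, P a i) : ∃ a, ∀ᶠ i in (U : Filter ℕ), P a i := by
  by_contra hno
  have h1 : ∀ a, ∀ᶠ i in (U : Filter ℕ), ¬ P a i := fun a => Ultrafilter.eventually_not.2 fun h2 => hno ⟨a, h2⟩
  have h2 := Filter.eventually_all.2 h1
  obtain ⟨i, ⟨a, h3⟩, h4⟩ := (h.and h2).exists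
  exact h4 a h3

/-- PROOF: `finrank (Tan J (p i))` takes finitely many values, so it is constant `= f` on a set of `U`
(`Ultrafilter.eventually_exists...` / finite pigeonhole). If `f = 0` there is nothing to show. As `p i ≠ 0`, there is `o` with
`p i o ≠ 0` for `U`-almost all `i`; then `y o ≠ 0` (`ev_zero`). `p i ∈ Tan J (p i)` (`self_mem_Tan`, EQ/G0; this needs
`hh`), so there are coordinates `s : Fin (f - 1) → ι` such that `v = 0` is the only vector of `Tan J (p i)` with `v o = 0`,
`v (s j) = 0` for all `j` (linear algebra: the functionals `v ↦ v a` span the dual of the tangent space; complete `v ↦ v o`,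
which is not zero on it, to a basis); `s` is constant on a set of `U` (pigeonhole). CLAIM: the `y (s j) / y o` are
algebraically independent over `k`. Otherwise `G`, `j` from `exists_relK`, `F` from `exists_homogK` with `t = s`;
with `q = (y o)⁻¹ • y`: `aeval q F = 0`, so `aeval y F = 0` and `eval (p i) F = 0` for almost all `i` (`ev_aeval`), and
`F ∈ J` by `hg`. With `q i = (p i o)⁻¹ • p i` one has `Tan J (q i) = Tan J (p i)` (`Tan_mul` / `Tan_smul`); take
`v ∈ Tan J (q i)` with `v o = 0`, `v (s j) = 1`, `v (s j') = 0` (the restriction to the `f` coordinates `o`, `s` is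
injective, so bijective): `0 = dif (q i) F v = aeval (q i ∘ s) (pderiv j G)`, a contradiction to
`aeval (q ∘ s) (pderiv j G) ≠ 0` (`ev_ne`, `ev_aeval`). This is the proof of `bad_ind` (MV/E4). By `der_of_indep` (ABN/Sard)
there are derivations `D j` of `F` over `k` with `D j (y (s j') / y o) = δ_(j j')`. The vectors `y` and
`D j y - (D j (y o) / y o) • y = y o • D j (y / y o)` of `L0 k y` are independent (look at the coordinates `o` and `s`):
`f ≤ finrank (L0 k y)`. -/
theorem L0_dim {k B : Type u} [Field k] [NumberField k] [Field B] [Algebra k B] (X : Evl k B ℕ) {ι : Type}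
    [Fintype ι] {J : Ideal (MvPolynomial ι k)} (hh : ∀ F ∈ J, ∀ i, homogeneousComponent i F ∈ J) {F : Type u}
    [Field F] [Algebra k F] [Algebra F B] [IsScalarTower k F B] (y : ι → F) (p : ℕ → ι → k)
    (hp : ∀ a, ∀ᶠ i in (X.U : Filter ℕ), X.ev (algebraMap F B (y a)) i = p i a)
    (hJ : ∀ᶠ i in (X.U : Filter ℕ), IsPt J (p i))
    (hg : ∀ G, G ∉ J → (∃ e, G.IsHomogeneous e) → ∀ᶠ i in (X.U : Filter ℕ), eval (p i) G ≠ 0) :
    ∀ᶠ i in (X.U : Filter ℕ), Module.finrank k (Tan J (p i)) ≤ Module.finrank F (L0 k y) := by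
  classical
  by_contra hcon
  obtain ⟨d, hd⟩ : ∃ d, d = Module.finrank F (L0 k y) := ⟨_, rfl⟩
  have hbig : ∀ᶠ i in (X.U : Filter ℕ), d + 1 ≤ Module.finrank k (Tan J (p i)) := by
    have h1 := Ultrafilter.eventually_not.2 hcon
    filter_upwards [h1] with i h2
    omega
  have hpall : ∀ᶠ i in (X.U : Filter ℕ), ∀ a, X.ev (algebraMap F B (y a)) i = p i a := Filter.eventually_all.2 hp
  -- the coordinate which does not vanish
  obtain ⟨o, ho⟩ : ∃ o, ∀ᶠ i in (X.U : Filter ℕ), p i o ≠ 0 := by
    refine W6_pigeon X.U (fun o i => p i o ≠ 0) ?_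
    filter_upwards [hJ] with i hi
    exact Function.ne_iff.1 hi.1
  have hyo : y o ≠ 0 := by
    intro h0
    obtain ⟨i, h1, h2, h3⟩ := (ho.and ((hp o).and (ev_zero X))).exists
    rw [h0, map_zero, h3] at h2
    exact h1 h2.symm
  -- the other coordinates
  obtain ⟨s, hs⟩ : ∃ s : Fin d → ι, ∀ᶠ i in (X.U : Filter ℕ), ∀ (c0 : k) (c : Fin d → k),
      ∃ v ∈ Tan J (p i), v o = c0 ∧ ∀ j, v (s j) = c j := by
    refine W6_pigeon X.U _ ?_
    filter_upwards [hJ, ho, hbig] with i h1 h2 h3
    exact W6_coord _ o ⟨p i, self_mem_Tan hh h1, h2⟩ d h3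
  -- algebraic independence
  obtain ⟨z, hz⟩ : ∃ z : Fin d → F, z = fun j => (y o)⁻¹ * y (s j) := ⟨_, rfl⟩
  have hind : AlgebraicIndependent k z := by
    by_contra hnot
    obtain ⟨G, hG0, j, hGj⟩ := exists_relK z hnot
    obtain ⟨P, ⟨e, hPh⟩, hP⟩ := exists_homogK o s G
    have hq1 : (fun a => (y o)⁻¹ * y a) o = 1 := inv_mul_cancel₀ hyo
    have hqP : aeval (fun a => (y o)⁻¹ * y a) P = 0 := by
      rw [(hP F _ hq1).1]
      rw [hz] at hG0
      exact hG0
    have hyP : aeval y P = 0 := by
      have h1 := aeval_mul hPh (y o) (fun a => (y o)⁻¹ * y a)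
      rw [hqP, mul_zero] at h1
      have h2 : (fun a => y o * (y o)⁻¹ * y a) = y := by
        funext a
        rw [mul_inv_cancel₀ hyo, one_mul]
      rw [← h2]
      simp only [← mul_assoc] at h1
      exact h1
    have hev : ∀ᶠ i in (X.U : Filter ℕ), eval (p i) P = 0 := by
      filter_upwards [ev_aeval X (fun a => algebraMap F B (y a)) P, ev_zero X, hpall] with i h1 h2 h3
      have h4 : aeval (fun a => algebraMap F B (y a)) P = 0 := by
        have h5 := aeval_map (IsScalarTower.toAlgHom k F B) y P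
        rw [hyP, map_zero] at h5
        exact h5
      rw [h4, h2] at h1
      have h6 : (fun a => X.ev (algebraMap F B (y a)) i) = p i := funext h3
      rw [h6] at h1
      exact h1.symm
    have hPJ : P ∈ J := by
      by_contra hPJ
      obtain ⟨i, h1, h2⟩ := ((hg P hPJ ⟨e, hPh⟩).and hev).exists
      exact h1 h2
    have hzev : ∀ᶠ i in (X.U : Filter ℕ), ∀ l, X.ev (algebraMap F B (z l)) i = (p i o)⁻¹ * p i (s l) := by
      refine Filter.eventually_all.2 fun l => ?_
      filter_upwards [X.mul (algebraMap F B (y o))⁻¹ (algebraMap F B (y (s l))), ev_inv X (algebraMap F B (y o)),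
        hpall] with i h1 h2 h3
      rw [hz]
      simp only
      rw [map_mul, map_inv₀, h1, h2, h3, h3]
    have hne : ∀ᶠ i in (X.U : Filter ℕ), eval (fun l => (p i o)⁻¹ * p i (s l)) (pderiv j G) ≠ 0 := by
      have h0 : aeval (fun l => algebraMap F B (z l)) (pderiv j G) ≠ 0 := by
        have h5 := aeval_map (IsScalarTower.toAlgHom k F B) z (pderiv j G)
        have h6 : aeval (fun l => algebraMap F B (z l)) (pderiv j G) =
            algebraMap F B (aeval z (pderiv j G)) := h5
        rw [h6]
        intro h7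
        exact hGj ((map_eq_zero (algebraMap F B)).1 h7)
      filter_upwards [ev_ne X h0, ev_aeval X (fun l => algebraMap F B (z l)) (pderiv j G), hzev] with i h1 h2 h3
      rw [h2] at h1
      have h4 : (fun l => X.ev (algebraMap F B (z l)) i) = fun l => (p i o)⁻¹ * p i (s l) := funext h3
      rw [h4] at h1
      exact h1
    obtain ⟨i, h1, h2, h3, h4⟩ := (hne.and (hs.and (ho.and hJ))).exists
    obtain ⟨v, hv, hvo, hvs⟩ := h2 0 (Pi.single j 1)
    have hvq : v ∈ Tan J (fun a => (p i o)⁻¹ * p i a) := by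
      rw [Tan_mul hh (inv_ne_zero h3)]
      exact hv
    have h5 := (hP k (fun a => (p i o)⁻¹ * p i a) (inv_mul_cancel₀ h3)).2 v hvo
    rw [(mem_Tan.1 hvq) P hPJ, Finset.sum_eq_single j] at h5
    · rw [hvs, Pi.single_eq_same, mul_one] at h5
      apply h1
      rw [← coe_aeval_eq_eval]
      exact h5.symm
    · intro l _ hl
      rw [hvs, Pi.single_eq_of_ne hl, mul_zero]
    · intro h6
      exact absurd (Finset.mem_univ j) h6
  -- derivations
  choose D hD using fun j : Fin d => ABN.der_of_indep hind (fun l => if l = j then (1 : F) else 0)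
  have hys : ∀ l, y (s l) = z l * y o := by
    intro l
    rw [hz]
    simp only
    field_simp
  have hDs : ∀ j l, D j (y (s l)) = (if l = j then 1 else 0) * y o + z l * D j (y o) := by
    intro j l
    rw [hys, Derivation.leibniz, hD, smul_eq_mul, smul_eq_mul]
    ring
  let w : Option (Fin d) → L0 k y := fun b => match b with
    | none => ⟨y, Submodule.subset_span (Set.mem_insert _ _)⟩
    | some j => ⟨fun a => D j (y a), Submodule.subset_span (Set.mem_insert_of_mem _ ⟨D j, rfl⟩)⟩
  have hw : LinearIndependent F w := by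
    rw [Fintype.linearIndependent_iff]
    intro g hgw
    rw [Fintype.sum_option] at hgw
    have h1 : ∀ a, g none * y a + ∑ j, g (some j) * D j (y a) = 0 := by
      intro a
      have h2 := congrFun (congrArg Subtype.val hgw) a
      simpa [w, Finset.sum_apply] using h2
    have h2 := h1 o
    have h3 : ∀ l, g (some l) = 0 := by
      intro l
      have h4 := h1 (s l)
      have h5 : ∑ j, g (some j) * D j (y (s l)) = g (some l) * y o + z l * ∑ j, g (some j) * D j (y o) := by
        simp only [hDs, mul_add, Finset.sum_add_distrib, Finset.mul_sum]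
        congr 1
        · rw [Finset.sum_eq_single l]
          · rw [if_pos rfl, one_mul]
          · intro j _ hj
            rw [if_neg (Ne.symm hj), zero_mul, mul_zero]
          · intro h6
            exact absurd (Finset.mem_univ l) h6
        · exact Finset.sum_congr rfl fun j _ => by ring
      rw [h5, hys] at h4
      have h6 : g (some l) * y o = 0 := by linear_combination h4 - z l * h2
      exact (mul_eq_zero.1 h6).resolve_right hyo
    intro b
    rcases b with _ | l
    · rw [Finset.sum_eq_zero (fun j _ => by rw [h3, zero_mul]), add_zero] at h2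
      exact (mul_eq_zero.1 h2).resolve_right hyo
    · exact h3 l
  have h1 := hw.fintype_card_le_finrank
  rw [Fintype.card_option, Fintype.card_fin, ← hd] at h1
  omega

end Pool.Agent.Lib.MP_17a322_nt.MV
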