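import Pool.Agent.Lib.MP_17a322_nt.FQ.X4
import Pool.Agent.Lib.MP_17a322_nt.MV.W0

/-!
Restriction of scalars for the spaces of the derivatives.
-/

universe u v

namespace Pool.Agent.Lib.MP_17a322_nt.MV

open Pool.Agent.Lib.MP_17a322_nt.FQ
open scoped Pointwise

variable {K : Type v} {E : Type u} {F : Type v} [Field K] [NumberField K] [Field E] [Algebra ℚ E] [Field F]
  [Algebra K F] [Algebra E F] {m : ℕ} (ω : Module.Basis (Fin m) ℚ K) (b : Module.Basis (Fin m) E F)
  (hb : ∀ i, b i = algebraMap K F (ω i)) {ι : Type} [Fintype ι]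

private theorem W7a_rat (q : ℚ) :
    algebraMap K F (algebraMap ℚ K q) = algebraMap E F (algebraMap ℚ E q) := by
  have h : (algebraMap K F).comp (algebraMap ℚ K) = (algebraMap E F).comp (algebraMap ℚ E) :=
    Subsingleton.elim _ _
  exact congrArg (fun f : ℚ →+* F => f q) h

omit [Algebra ℚ E] [Fintype ι] in
private theorem W7a_equiv : ∃ e : (ι × Fin m → E) ≃ₗ[E] (ι → F), ∀ v, e v = cb b v := by
  refine ⟨{ toFun := cb b
            map_add' := fun v w => ?_
            map_smul' := fun c v => ?_
            invFun := fun w c => b.repr (w c.1) c.2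
            left_inv := fun v => ?_
            right_inv := fun w => ?_ }, fun v => rfl⟩
  · funext a
    show ∑ j, algebraMap E F (v (a, j) + w (a, j)) * b j =
      ∑ j, algebraMap E F (v (a, j)) * b j + ∑ j, algebraMap E F (w (a, j)) * b j
    rw [← Finset.sum_add_distrib]
    exact Finset.sum_congr rfl fun j _ => by rw [map_add, add_mul]
  · funext a
    show ∑ j, algebraMap E F (c * v (a, j)) * b j = c • ∑ j, algebraMap E F (v (a, j)) * b j
    rw [Finset.smul_sum]
    exact Finset.sum_congr rfl fun j _ => by rw [map_mul, Algebra.smul_def, mul_assoc]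
  · funext c
    show b.repr (∑ j, algebraMap E F (v (c.1, j)) * b j) c.2 = v c
    have h1 : ∑ j, algebraMap E F (v (c.1, j)) * b j = ∑ j, v (c.1, j) • b j :=
      Finset.sum_congr rfl fun j _ => by rw [Algebra.smul_def]
    rw [h1, b.repr_sum_self]
  · funext a
    show ∑ j, algebraMap E F (b.repr (w a) j) * b j = w a
    conv_rhs => rw [← b.sum_repr (w a)]
    exact Finset.sum_congr rfl fun j _ => by rw [Algebra.smul_def]

include hb

private theorem W7a_mul (j : Fin m) (v : ι × Fin m → E) :
    cb b (mulb (bm ω j) v) = (b j : F) • cb b v := by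
  classical
  funext a
  have h1 : ∀ c' : Fin m, ∑ i, algebraMap E F (algebraMap ℚ E (ω.repr (ω j * ω c') i)) * b i =
      b j * b c' := by
    intro c'
    have h0 : b j * b c' = algebraMap K F (ω j * ω c') := by rw [hb j, hb c', map_mul]
    rw [h0]
    conv_rhs => rw [← ω.sum_repr (ω j * ω c')]
    rw [map_sum]
    refine Finset.sum_congr rfl fun i _ => ?_
    rw [Algebra.smul_def, (algebraMap K F).map_mul, W7a_rat (E := E), hb]
  have h2 : ∀ i, algebraMap E F (∑ c, algebraMap ℚ E (bm ω j (a, i) c) * v c) =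
      ∑ c', algebraMap E F (v (a, c')) * algebraMap E F (algebraMap ℚ E (ω.repr (ω j * ω c') i)) := by
    intro i
    rw [map_sum, Fintype.sum_prod_type, Finset.sum_eq_single a]
    · refine Finset.sum_congr rfl fun c' _ => ?_
      rw [map_mul, bm, if_pos rfl, mul_comm]
    · intro a' _ ha'
      refine Finset.sum_eq_zero fun c' _ => ?_
      rw [bm, if_neg (fun h => ha' h.symm), map_zero, zero_mul, map_zero]
    · intro h
      exact absurd (Finset.mem_univ a) h
  show ∑ i, algebraMap E F (∑ c, algebraMap ℚ E (bm ω j (a, i) c) * v c) * b i =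
    b j * ∑ c', algebraMap E F (v (a, c')) * b c'
  simp only [h2, Finset.sum_mul]
  rw [Finset.sum_comm, Finset.mul_sum]
  refine Finset.sum_congr rfl fun c' _ => ?_
  rw [mul_left_comm, ← h1 c', Finset.mul_sum]
  exact Finset.sum_congr rfl fun i _ => by ring

omit [Fintype ι] in
private theorem W7a_der (D : Derivation ℚ E E) (D' : Derivation K F F)
    (hD : ∀ y, D' (algebraMap E F y) = algebraMap E F (D y)) (x : ι × Fin m → E) (a : ι) :
    D' (cb b x a) = cb b (fun c => D (x c)) a := by
  show D' (∑ j, algebraMap E F (x (a, j)) * b j) = ∑ j, algebraMap E F (D (x (a, j))) * b j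
  rw [map_sum]
  refine Finset.sum_congr rfl fun j _ => ?_
  rw [Derivation.leibniz, hb, Derivation.map_algebraMap, smul_zero, zero_add, hD, smul_eq_mul, mul_comm]

omit [Fintype ι] in
private theorem W7a_dec (D'' : Derivation K F F) : ∃ G : Fin m → Derivation ℚ E E,
    ∀ (x : ι × Fin m → E), (fun a => D'' (cb b x a)) = ∑ i, (b i : F) • cb b (fun c => G i (x c)) := by
  have hDi : ∀ i : Fin m, ∃ G : Derivation ℚ E E, ∀ y, G y = b.repr (D'' (algebraMap E F y)) i := by
    intro i
    let G₀ : E →+ E :=
      { toFun := fun y => b.repr (D'' (algebraMap E F y)) i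
        map_zero' := by simp
        map_add' := fun x y => by simp }
    refine ⟨Derivation.mk' G₀.toRatLinearMap fun x y => ?_, fun y => rfl⟩
    show b.repr (D'' (algebraMap E F (x * y))) i =
      x • b.repr (D'' (algebraMap E F y)) i + y • b.repr (D'' (algebraMap E F x)) i
    have h1 : D'' (algebraMap E F (x * y)) =
        x • D'' (algebraMap E F y) + y • D'' (algebraMap E F x) := by
      rw [map_mul, Derivation.leibniz, smul_eq_mul, smul_eq_mul, Algebra.smul_def, Algebra.smul_def]
    rw [h1, map_add, map_smul, map_smul]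
    rfl
  choose G hG using hDi
  refine ⟨G, fun x => ?_⟩
  funext a
  rw [Finset.sum_apply]
  show D'' (∑ j, algebraMap E F (x (a, j)) * b j) =
    ∑ i, b i * ∑ j, algebraMap E F (G i (x (a, j))) * b j
  rw [map_sum]
  simp only [Finset.mul_sum]
  rw [Finset.sum_comm]
  refine Finset.sum_congr rfl fun j _ => ?_
  have h1 : D'' (algebraMap E F (x (a, j))) = ∑ i, algebraMap E F (G i (x (a, j))) * b i := by
    conv_lhs => rw [← b.sum_repr (D'' (algebraMap E F (x (a, j))))]
    refine Finset.sum_congr rfl fun i _ => ?_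
    rw [Algebra.smul_def, hG]
  rw [Derivation.leibniz, hb j, Derivation.map_algebraMap, smul_zero, zero_add, h1, smul_eq_mul, ← hb j,
    Finset.mul_sum]
  exact Finset.sum_congr rfl fun i _ => by ring

/-- the space over `F` spanned by the images of the elements of `L0 ℚ x` -/
private theorem W7a_span (x : ι × Fin m → E) :
    L0 K (cb b x) = Submodule.span F (cb b '' (L0 ℚ x : Set (ι × Fin m → E))) := by
  have hx : x ∈ L0 ℚ x := Submodule.subset_span (Set.mem_insert _ _)
  have hD : ∀ D : Derivation ℚ E E, (fun c => D (x c)) ∈ L0 ℚ x := fun D =>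
    Submodule.subset_span (Set.mem_insert_of_mem _ ⟨D, rfl⟩)
  refine le_antisymm ?_ ?_
  · refine Submodule.span_le.2 ?_
    rintro w (rfl | ⟨D'', rfl⟩)
    · exact Submodule.subset_span ⟨x, hx, rfl⟩
    · obtain ⟨G, hG⟩ := W7a_dec ω b hb (ι := ι) D''
      show (fun a => D'' (cb b x a)) ∈ _
      rw [hG x]
      exact Submodule.sum_mem _ fun i _ => Submodule.smul_mem _ _ (Submodule.subset_span ⟨_, hD (G i), rfl⟩)
  · refine Submodule.span_le.2 ?_
    rintro _ ⟨v, hv, rfl⟩
    obtain ⟨e, he⟩ := W7a_equiv b (ι := ι)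
    have h1 : L0 ℚ x ≤ ((L0 K (cb b x)).restrictScalars E).comap (e : (ι × Fin m → E) →ₗ[E] (ι → F)) := by
      refine Submodule.span_le.2 ?_
      rintro w (rfl | ⟨D, rfl⟩)
      · show e w ∈ L0 K (cb b w)
        rw [he]
        exact Submodule.subset_span (Set.mem_insert _ _)
      · obtain ⟨D', hD'⟩ := exists_ext ω b hb D
        show e (fun c => D (x c)) ∈ L0 K (cb b x)
        rw [he]
        refine Submodule.subset_span (Set.mem_insert_of_mem _ ⟨D', ?_⟩)
        funext a
        exact W7a_der ω b hb D D' hD' x a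
    have h2 := h1 hv
    have h3 : e v ∈ L0 K (cb b x) := h2
    rwa [he] at h3

/-- PROOF: `cb b` is an additive bijection from `ι × Fin m → E` to `ι → F` (`b` is a basis), with
`cb b (e • v) = algebraMap E F e • cb b v` and `cb b (mulb (bm ω j) v) = algebraMap K F (ω j) • cb b v` (`hb`,
`∑ c, ω.repr (ω j * ω c') c • ω c = ω j * ω c'`). Every derivation of `F` over `K` is determined by its values on `E`, a
derivation `D` of `E` over `ℚ` extends to `D'` over `K` (`exists_ext`, FQ/X4) with `D' (cb b x a) = cb b (D x) a`, and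
every derivation `D''` of `F` over `K` is a combination with coefficients in `F` of such `D'` (`ext_span`, FQ/X4, needs a
finite generating system; or directly: `D'' (e) = ∑ i, D_i(e) b i` with derivations `D_i` of `E`, so
`D'' = ∑ i, b i • D_i'` by `ext_unique`). So `L0 K (cb b x)` is the `F`-span, that is, since `F = ∑ E ω j`, the `E`-span of
the `ω j • cb b x` and `ω j • cb b (D x)`, the image of `Lf (bm ω) x = ⨆ j, (L0 ℚ x).map (mulb (bm ω j))`. -/
theorem Lf_iff (x v : ι × Fin m → E) : v ∈ Lf (bm ω) x ↔ cb b v ∈ L0 K (cb b x) := by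
  obtain ⟨e, he⟩ := W7a_equiv b (ι := ι)
  rw [W7a_span ω b hb x]
  constructor
  · intro hv
    have h1 : Lf (bm ω) x ≤ ((Submodule.span F (cb b '' (L0 ℚ x : Set (ι × Fin m → E)))).restrictScalars E).comap
        (e : (ι × Fin m → E) →ₗ[E] (ι → F)) := by
      refine iSup_le fun j => Submodule.map_le_iff_le_comap.2 fun w hw => ?_
      show e (mulb (bm ω j) w) ∈ Submodule.span F (cb b '' (L0 ℚ x : Set (ι × Fin m → E)))
      rw [he, W7a_mul ω b hb]
      exact Submodule.smul_mem _ _ (Submodule.subset_span ⟨w, hw, rfl⟩)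
    have h3 : e v ∈ Submodule.span F (cb b '' (L0 ℚ x : Set (ι × Fin m → E))) := h1 hv
    rwa [he] at h3
  · intro hv
    have h1 : cb b v ∈ Submodule.span E (Set.range b • (cb b '' (L0 ℚ x : Set (ι × Fin m → E)))) := by
      rw [Submodule.span_smul_of_span_eq_top b.span_eq]
      exact hv
    have h2 : Submodule.span E (Set.range b • (cb b '' (L0 ℚ x : Set (ι × Fin m → E)))) ≤
        (Lf (bm ω) x).map (e : (ι × Fin m → E) →ₗ[E] (ι → F)) := by
      refine Submodule.span_le.2 ?_
      rintro _ ⟨_, ⟨j, rfl⟩, _, ⟨w, hw, rfl⟩, rfl⟩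
      refine ⟨mulb (bm ω j) w, ?_, ?_⟩
      · exact Submodule.mem_iSup_of_mem j ⟨w, hw, rfl⟩
      · show e _ = _
        rw [he, W7a_mul ω b hb]
    obtain ⟨w, hw, hwv⟩ := h2 h1
    have h3 : e w = e v := by
      rw [he v]
      exact hwv
    rwa [← e.injective h3]

/-- PROOF: `cb b` is an `E`-linear isomorphism from `Lf (bm ω) x` onto `L0 K (cb b x)` (`Lf_iff`; with the module structure over
`E` through `algebraMap E F`: `Algebra E F` is given, `Module.compHom` / `IsScalarTower`), and the dimension over `E` of a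
space over `F` is `m` times the one over `F` (`Module.finrank_mul_finrank`, or with the bases `b` and one of
`L0 K (cb b x)`). -/
theorem finrank_Lf (x : ι × Fin m → E) :
    Module.finrank E (Lf (bm ω) x) = m * Module.finrank F (L0 K (cb b x)) := by
  obtain ⟨e, he⟩ := W7a_equiv b (ι := ι)
  have h1 : (Lf (bm ω) x).map (e : (ι × Fin m → E) →ₗ[E] (ι → F)) = (L0 K (cb b x)).restrictScalars E := by
    ext w
    constructor
    · rintro ⟨v, hv, rfl⟩
      show e v ∈ L0 K (cb b x)
      rw [he]
      exact (Lf_iff ω b hb x v).1 hv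
    · intro hw
      refine ⟨e.symm w, ?_, e.apply_symm_apply w⟩
      have h0 : cb b (e.symm w) = w := by rw [← he, e.apply_symm_apply]
      refine (Lf_iff ω b hb x _).2 ?_
      rw [h0]
      exact hw
  have h2 : Module.finrank E F = m := by
    rw [Module.finrank_eq_card_basis b, Fintype.card_fin]
  have h3 : Module.finrank E (Lf (bm ω) x) =
      Module.finrank E ((L0 K (cb b x)).restrictScalars E) := by
    rw [← h1]
    exact (LinearEquiv.finrank_map_eq e _).symm
  rw [h3]
  have h4 := Module.finrank_mul_finrank E F (L0 K (cb b x))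
  rw [h2] at h4
  exact h4.symm

end Pool.Agent.Lib.MP_17a322_nt.MV
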