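import Pool.Agent.Lib.MP_17a322_nt.FQ.X11
import Pool.Agent.Lib.MP_17a322_nt.FQ.X12

/-!
The field generated by `K` and a subfield of the big field over `ℚ`.
-/

universe u

namespace Pool.Agent.Lib.MP_17a322_nt.MV

open NumberField
open Pool.Agent.Lib.MP_17a322_nt.FQ

/-- The rational combinations of a basis give all elements of `K`. -/
private theorem W7b_sum {K BK : Type*} [Field K] [CharZero K] [Field BK] [Algebra K BK] {m : ℕ}
    (ω : Module.Basis (Fin m) ℚ K) (c : K) :
    algebraMap K BK c = ∑ a, ((ω.repr c a : ℚ) : BK) * algebraMap K BK (ω a) := by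
  have h1 : ∑ a, ω.repr c a • ω a = c := ω.sum_repr c
  have h2 := congrArg (algebraMap K BK) h1
  rw [map_sum] at h2
  rw [← h2]
  refine Finset.sum_congr rfl fun a _ => ?_
  rw [Algebra.smul_def, map_mul, eq_ratCast, map_ratCast]

/-- PROOF: `j` from `exists_emb` (FQ/X10). `F` is (the type of) the intermediate field of `exists_comp` (FQ/X12), with
`Algebra E F` given by `j`; the `algebraMap K F (ω i)` are a basis over `E`: they generate `F` by `exists_comp`, and are
independent by `coord_unique` (FQ/X11). See the proof of `exists_tower` (FQ/X12), which is the same for a Galois field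
`K` with more data. -/
theorem exists_twr {K BK : Type u} [Field K] [NumberField K] [Field BK] [Algebra K BK] (XK : Evl K BK ℕ)
    {BQ : Type} [Field BQ] [Algebra ℚ BQ] (XQ : Evl ℚ BQ ℕ) (hU : XK.U = XQ.U) (hh : XK.h = XQ.h) {m : ℕ}
    (ω : Module.Basis (Fin m) ℚ K) (E : IntermediateField ℚ BQ) :
    ∃ (F : Type u) (_ : Field F) (_ : Algebra K F) (_ : Algebra E F) (_ : Algebra F BK) (_ : IsScalarTower K F BK)
      (b : Module.Basis (Fin m) E F), (∀ i, b i = algebraMap K F (ω i)) ∧
        ∀ e : E, ∀ᶠ i in (XK.U : Filter ℕ), XK.ev (algebraMap F BK (algebraMap E F e)) i = ((XQ.ev (e : BQ) i : ℚ) : K) := by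
  obtain ⟨j, hj⟩ := exists_emb XK XQ hU hh
  obtain ⟨F, hF⟩ := exists_comp j ω E
  -- the embedding of `E` in `F`
  have hjF : ∀ e : E, j e ∈ F := by
    intro e
    rw [hF]
    refine ⟨fun a => ((ω.repr 1 a : ℚ) : E) * e, ?_⟩
    have h1 := W7b_sum (BK := BK) ω 1
    rw [map_one] at h1
    have h2 : j e = (∑ a, ((ω.repr 1 a : ℚ) : BK) * algebraMap K BK (ω a)) * j e := by rw [← h1, one_mul]
    rw [h2, Finset.sum_mul]
    refine Finset.sum_congr rfl fun a _ => ?_
    have h3 : j ((((ω.repr 1 a : ℚ) : E) * e : E) : BQ) = ((ω.repr 1 a : ℚ) : BK) * j e := by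
      have h4 : (((ω.repr 1 a : ℚ) : E) : BQ) = ((ω.repr 1 a : ℚ) : BQ) := map_ratCast (algebraMap E BQ) _
      rw [IntermediateField.coe_mul, map_mul, h4, map_ratCast]
    rw [h3]
    ring
  let ρ : E →+* F := (j.comp (algebraMap E BQ)).codRestrict F hjF
  let iEF : Algebra E F := ρ.toAlgebra
  have hρ : ∀ e : E, ((algebraMap E F e : F) : BK) = j e := fun e => rfl
  have hsm : ∀ (e : E) (y : F), ((e • y : F) : BK) = j e * y := fun e y => rfl
  have hli : LinearIndependent E fun i => algebraMap K F (ω i) := by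
    rw [Fintype.linearIndependent_iff]
    intro g hg i
    have h1 : ∑ a, algebraMap K BK (ω a) * j (g a) = 0 := by
      have h2 := congrArg (algebraMap F BK) hg
      rw [map_sum, map_zero] at h2
      rw [← h2]
      refine Finset.sum_congr rfl fun a _ => ?_
      show _ = ((g a • algebraMap K F (ω a) : F) : BK)
      rw [hsm, mul_comm]
      rfl
    have h2 := coord_unique XK XQ j hj hU ω (fun a => (g a : BQ)) h1
    have h3 := congrFun h2 i
    exact Subtype.ext h3
  have hsp : ⊤ ≤ Submodule.span E (Set.range fun i => algebraMap K F (ω i)) := by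
    intro y _
    rw [Submodule.mem_span_range_iff_exists_fun]
    obtain ⟨e, he⟩ := (hF y).1 y.2
    refine ⟨e, Subtype.ext ?_⟩
    rw [he]
    have h2 : ((∑ i, e i • algebraMap K F (ω i) : F) : BK) = ∑ i, ((e i • algebraMap K F (ω i) : F) : BK) :=
      map_sum (algebraMap F BK) _ _
    rw [h2]
    refine Finset.sum_congr rfl fun a _ => ?_
    rw [hsm, mul_comm]
    rfl
  let b : Module.Basis (Fin m) E F := Module.Basis.mk hli hsp
  refine ⟨F, inferInstance, inferInstance, iEF, inferInstance, inferInstance, b, ?_, ?_⟩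
  · intro i
    exact Module.Basis.mk_apply hli hsp i
  · intro e
    exact hj e

end Pool.Agent.Lib.MP_17a322_nt.MV
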