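import Pool.Agent.Lib.MP_17a322_nt.FQ.A6
import Pool.Agent.Lib.MP_17a322_nt.FQ.T5
import Pool.Agent.Lib.MP_17a322_nt.FQ.X2

/-!
The heights of the values of a space.
-/

universe u

namespace Pool.Agent.Lib.MP_17a322_nt.MV

open Height NumberField
open Pool.Agent.Lib.MP_17a322_nt.EQ
open Pool.Agent.Lib.MP_17a322_nt.FQ

/-- PROOF: let `e` be the basis of `L` used by `plu`, `e' a = algebraMap E B ∘ e a`, independent over `B` (`li_algebraMap`,
FQ/X2). The values of `e'` at `i` are eventually independent (`ev_indep`, FQ/A6) and in `V i` (`hL`), so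
`finrank E L ≤ finrank (V i)`, and with `hV` they span `V i`; `ev_hPl` (FQ/A6):
`logHeight (ev (mns e') i) = hPl (V i)` eventually, where `mns e' = algebraMap ∘ plu L` (`RingHom.map_det`; `plu` and
`mns` are the same determinant); `lm_tendsto` (FQ/A2). -/
theorem pl_lim {k B : Type u} [Field k] [NumberField k] [Field B] [Algebra k B] (X : Evl k B ℕ) {E : Type u}
    [Field E] [Algebra k E] [Algebra E B] [IsScalarTower k E B] {κ : Type} [Fintype κ]
    (L : Submodule E (κ → E)) (V : ℕ → Submodule k (κ → k))
    (hL : ∀ v ∈ L, ∀ᶠ i in (X.U : Filter ℕ), (fun a => X.ev (algebraMap E B (v a)) i) ∈ V i)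
    (hV : ∀ᶠ i in (X.U : Filter ℕ), Module.finrank k (V i) ≤ Module.finrank E L) :
    (∀ᶠ i in (X.U : Filter ℕ), Module.finrank k (V i) = Module.finrank E L) ∧
      Filter.Tendsto (fun i => hPl (V i) / X.h i) (X.U : Filter ℕ) (nhds ((X.ht E).lam (plu L))) := by
  classical
  let e : Fin (Module.finrank E L) → κ → E := fun a => ((Module.finBasis E L a : L) : κ → E)
  have he : LinearIndependent E e :=
    (Module.finBasis E L).linearIndependent.map' L.subtype L.ker_subtype
  let y : Fin (Module.finrank E L) → κ → B := fun a b => algebraMap E B (e a b)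
  have hy : LinearIndependent B y := li_algebraMap he
  have h1 : ∀ᶠ i in (X.U : Filter ℕ), LinearIndependent k (fun a b => X.ev (y a b) i) := ev_indep X y hy
  have h2 : ∀ᶠ i in (X.U : Filter ℕ), ∀ a, (fun b => X.ev (y a b) i) ∈ V i :=
    Filter.eventually_all.2 fun a => hL (e a) (Module.finBasis E L a).2
  have h3 : ∀ᶠ i in (X.U : Filter ℕ), Module.finrank k (V i) = Module.finrank E L ∧
      Submodule.span k (Set.range fun a b => X.ev (y a b) i) = V i := by
    filter_upwards [h1, h2, hV] with i hi1 hi2 hi3
    have h4 : Submodule.span k (Set.range fun a b => X.ev (y a b) i) ≤ V i := by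
      rw [Submodule.span_le]
      rintro _ ⟨a, rfl⟩
      exact hi2 a
    have h5 : Module.finrank k (Submodule.span k (Set.range fun a b => X.ev (y a b) i)) =
        Module.finrank E L := by
      rw [finrank_span_eq_card hi1, Fintype.card_fin]
    have h6 : Module.finrank k (Submodule.span k (Set.range fun a b => X.ev (y a b) i)) ≤
        Module.finrank k (V i) := Submodule.finrank_mono h4
    refine ⟨le_antisymm hi3 (h5 ▸ h6), ?_⟩
    exact Submodule.eq_of_le_of_finrank_le h4 (hi3.trans h5.ge)
  refine ⟨h3.mono fun i hi => hi.1, ?_⟩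
  have h7 : (X.ht E).lam (plu L) = X.lm (mns y) := by
    have h8 : (fun s => algebraMap E B (plu L s)) = mns y := by
      funext s
      unfold plu mns
      rw [RingHom.map_det]
      rfl
    rw [← h8]
    rfl
  rw [h7]
  refine (lm_hPl X y hy).congr' ?_
  filter_upwards [h3] with i hi
  rw [hi.2]

end Pool.Agent.Lib.MP_17a322_nt.MV
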