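import Pool.Agent.Lib.MP_17a322_nt.ABN.Sard
import Pool.Agent.Lib.MP_17a322_nt.EQ.G0
import Pool.Agent.Lib.MP_17a322_nt.FQ.A1
import Pool.Agent.Lib.MP_17a322_nt.MV.WDefs

/-!
The derivatives of a point are tangent vectors.
-/

universe u

namespace Pool.Agent.Lib.MP_17a322_nt.MV

open MvPolynomial Height NumberField
open Pool.Agent.Lib.MP_17a322_nt.EQ
open Pool.Agent.Lib.MP_17a322_nt.FQ

private theorem W9_gens {k : Type u} [Field k] {ι : Type} [Fintype ι] (J : Ideal (MvPolynomial ι k)) :
    ∃ (m : ℕ) (G : Fin m → MvPolynomial ι k), (∀ j, G j ∈ J) ∧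
      ∀ p v : ι → k, (∀ H ∈ J, aeval p H = 0) → (∀ j, dif p (G j) v = 0) → v ∈ Tan J p := by
  classical
  obtain ⟨s, hs⟩ := (IsNoetherian.noetherian J : J.FG)
  refine ⟨s.card, fun j => (s.equivFin.symm j : MvPolynomial ι k), fun j => ?_, ?_⟩
  · rw [← hs]
    exact Submodule.subset_span (s.equivFin.symm j).2
  · intro p v h1 h2
    rw [mem_Tan]
    intro G hG
    have key : ∀ G ∈ Submodule.span (MvPolynomial ι k) (↑s : Set (MvPolynomial ι k)),
        dif p G v = 0 := by
      intro G hG
      induction hG using Submodule.span_induction with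
      | mem x hx =>
        have h3 := h2 (s.equivFin ⟨x, hx⟩)
        dsimp only at h3
        rwa [Equiv.symm_apply_apply] at h3
      | zero => exact dif_zero p v
      | add x y _ _ hx hy => rw [dif_add, hx, hy, add_zero]
      | smul a x hx hx' =>
        rw [smul_eq_mul, dif_mul, hx', h1 x (by rw [← hs]; exact hx), mul_zero, zero_mul, add_zero]
    exact key G (by rw [← hs] at hG; exact hG)

private theorem W9_map {k B : Type u} [Field k] [Field B] [Algebra k B] {ι : Type} {F : Type u}
    [Field F] [Algebra k F] [Algebra F B] [IsScalarTower k F B] (y : ι → F) (G : MvPolynomial ι k) :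
    algebraMap F B (aeval y G) = aeval (fun a => algebraMap F B (y a)) G := by
  have h := MvPolynomial.comp_aeval_apply (R := k) (f := y) (IsScalarTower.toAlgHom k F B) G
  rw [IsScalarTower.toAlgHom_apply] at h
  rw [h]
  rfl

private theorem W9_der {k B : Type u} [Field k] [NumberField k] [Field B] [Algebra k B] (X : Evl k B ℕ)
    {ι : Type} [Fintype ι] {J : Ideal (MvPolynomial ι k)} {F : Type u}
    [Field F] [Algebra k F] [Algebra F B] [IsScalarTower k F B] (y : ι → F) (p : ℕ → ι → k)
    (hp : ∀ a, ∀ᶠ i in (X.U : Filter ℕ), X.ev (algebraMap F B (y a)) i = p i a)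
    (hJ : ∀ᶠ i in (X.U : Filter ℕ), IsPt J (p i)) (D : Derivation k F F) :
    ∀ᶠ i in (X.U : Filter ℕ), (fun a => X.ev (algebraMap F B (D (y a))) i) ∈ Tan J (p i) := by
  classical
  obtain ⟨m, G, hG, hT⟩ := W9_gens J
  have hp' : ∀ᶠ i in (X.U : Filter ℕ), (fun a => X.ev (algebraMap F B (y a)) i) = p i := by
    filter_upwards [Filter.eventually_all.2 hp] with i hi
    funext a
    exact hi a
  have hev : ∀ H : MvPolynomial ι k, ∀ᶠ i in (X.U : Filter ℕ),
      X.ev (algebraMap F B (aeval y H)) i = aeval (p i) H := by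
    intro H
    filter_upwards [ev_aeval X (fun a => algebraMap F B (y a)) H, hp'] with i h1 h2
    rw [W9_map, h1, h2, MvPolynomial.aeval_eq_eval]
  have hz : ∀ j, aeval y (G j) = 0 := by
    intro j
    have h1 : algebraMap F B (aeval y (G j)) = 0 := by
      rw [← ev_eq X]
      filter_upwards [hJ, hev (G j), ev_zero X] with i h2 h3 h4
      rw [h3, h4]
      exact h2.2 (G j) (hG j)
    exact (map_eq_zero (algebraMap F B)).1 h1
  have hd : ∀ j, ∑ a, algebraMap F B (aeval y (pderiv a (G j))) * algebraMap F B (D (y a)) = 0 := by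
    intro j
    have h1 := ABN.der_aeval D y (G j)
    rw [hz j, map_zero] at h1
    have h2 := congrArg (algebraMap F B) h1
    rw [map_zero, map_sum] at h2
    rw [h2]
    exact Finset.sum_congr rfl fun a _ => (map_mul _ _ _).symm
  have hj : ∀ j, ∀ᶠ i in (X.U : Filter ℕ),
      dif (p i) (G j) (fun a => X.ev (algebraMap F B (D (y a))) i) = 0 := by
    intro j
    have h1 := ev_sum X Finset.univ fun a =>
      algebraMap F B (aeval y (pderiv a (G j))) * algebraMap F B (D (y a))
    have h2 : ∀ a, ∀ᶠ i in (X.U : Filter ℕ),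
        X.ev (algebraMap F B (aeval y (pderiv a (G j))) * algebraMap F B (D (y a))) i =
          aeval (p i) (pderiv a (G j)) * X.ev (algebraMap F B (D (y a))) i := by
      intro a
      filter_upwards [X.mul (algebraMap F B (aeval y (pderiv a (G j)))) (algebraMap F B (D (y a))),
        hev (pderiv a (G j))] with i h3 h4
      rw [h3, h4]
    filter_upwards [h1, Filter.eventually_all.2 h2, ev_zero X] with i h3 h4 h5
    rw [hd j, h5] at h3
    rw [dif_apply, h3]
    exact Finset.sum_congr rfl fun a _ => (h4 a).symm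
  filter_upwards [hJ, Filter.eventually_all.2 hj] with i h1 h2
  exact hT _ _ (fun H hH => h1.2 H hH) h2

/-- PROOF: `Submodule.span_induction` over `L0 k y`: sums and multiples by elements of `F` (`X.add`, `X.mul`; the values of
sums and products are eventually the sums and products of the values, and `Tan J (p i)` is a subspace); for `y` itself
`self_mem_Tan` (EQ/G0; it needs `hh`); for `D y` the proof of `der_tan` (MV/E3a) over `k` in place of `ℚ`: finitely many
generators `G` of `J`, `aeval y G = 0` because its values vanish, `0 = D (aeval y G) = ∑ a, aeval y (pderiv a G) * D (y a)`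
(`der_aeval`, ABN/Sard), evaluated at `i`. -/
theorem L0_tan {k B : Type u} [Field k] [NumberField k] [Field B] [Algebra k B] (X : Evl k B ℕ) {ι : Type}
    [Fintype ι] {J : Ideal (MvPolynomial ι k)} (hh : ∀ F ∈ J, ∀ i, homogeneousComponent i F ∈ J) {F : Type u}
    [Field F] [Algebra k F] [Algebra F B] [IsScalarTower k F B] (y : ι → F) (p : ℕ → ι → k)
    (hp : ∀ a, ∀ᶠ i in (X.U : Filter ℕ), X.ev (algebraMap F B (y a)) i = p i a)
    (hJ : ∀ᶠ i in (X.U : Filter ℕ), IsPt J (p i)) :
    ∀ w ∈ L0 k y, ∀ᶠ i in (X.U : Filter ℕ), (fun a => X.ev (algebraMap F B (w a)) i) ∈ Tan J (p i) := by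
  intro w hw
  have hp' : ∀ᶠ i in (X.U : Filter ℕ), (fun a => X.ev (algebraMap F B (y a)) i) = p i := by
    filter_upwards [Filter.eventually_all.2 hp] with i hi
    funext a
    exact hi a
  induction hw using Submodule.span_induction with
  | mem x hx =>
    rcases Set.mem_insert_iff.1 hx with rfl | ⟨D, rfl⟩
    · filter_upwards [hp', hJ] with i h1 h2
      rw [h1]
      exact self_mem_Tan hh h2
    · exact W9_der X y p hp hJ D
  | zero =>
    filter_upwards [ev_zero X] with i h1
    have h2 : (fun a => X.ev (algebraMap F B ((0 : ι → F) a)) i) = 0 := by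
      funext a
      rw [Pi.zero_apply, map_zero, h1]
      rfl
    rw [h2]
    exact zero_mem _
  | add x z _ _ hx hz =>
    filter_upwards [hx, hz, Filter.eventually_all.2 fun a => X.add (algebraMap F B (x a))
      (algebraMap F B (z a))] with i h1 h2 h3
    have h4 : (fun a => X.ev (algebraMap F B ((x + z) a)) i) =
        (fun a => X.ev (algebraMap F B (x a)) i) + fun a => X.ev (algebraMap F B (z a)) i := by
      funext a
      rw [Pi.add_apply, map_add, h3 a]
      rfl
    rw [h4]
    exact add_mem h1 h2
  | smul c x _ hx =>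
    filter_upwards [hx, Filter.eventually_all.2 fun a => X.mul (algebraMap F B c)
      (algebraMap F B (x a))] with i h1 h3
    have h4 : (fun a => X.ev (algebraMap F B ((c • x) a)) i) =
        X.ev (algebraMap F B c) i • fun a => X.ev (algebraMap F B (x a)) i := by
      funext a
      rw [Pi.smul_apply, smul_eq_mul, map_mul, h3 a]
      rfl
    rw [h4]
    exact Submodule.smul_mem _ _ h1

end Pool.Agent.Lib.MP_17a322_nt.MV
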