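import Pool.Agent.Lib.MP_17a322_nt.FQ.A5
import Pool.Agent.Lib.MP_17a322_nt.FQ.V2
import Pool.Agent.Lib.MP_17a322_nt.MV.A1
import Pool.Agent.Lib.MP_17a322_nt.MV.W0
import Pool.Agent.Lib.MP_17a322_nt.MV.W5
import Pool.Agent.Lib.MP_17a322_nt.MV.W6
import Pool.Agent.Lib.MP_17a322_nt.MV.W7a
import Pool.Agent.Lib.MP_17a322_nt.MV.W7b
import Pool.Agent.Lib.MP_17a322_nt.MV.W8
import Pool.Agent.Lib.MP_17a322_nt.MV.W9

/-!
The slope inequality for the tangent spaces over `K` and over `ℚ`.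
-/

universe u

namespace Pool.Agent.Lib.MP_17a322_nt.MV

open MvPolynomial Height NumberField
open Pool.Agent.Lib.MP_17a322_nt.EQ
open Pool.Agent.Lib.MP_17a322_nt.FQ

/-- The coordinates of a combination of the basis. -/
private theorem W11b_rs {K : Type u} [Field K] [NumberField K] {m : ℕ} (ω : Module.Basis (Fin m) ℚ K) {ι : Type}
    (q : ι × Fin m → ℚ) : rs ω (fun a => ∑ j, ((q (a, j) : ℚ) : K) * ω j) = q := by
  funext c
  show ω.repr (∑ j, ((q (c.1, j) : ℚ) : K) * ω j) c.2 = q c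
  have h1 : (∑ j, ((q (c.1, j) : ℚ) : K) * ω j) = ∑ j, q (c.1, j) • ω j :=
    Finset.sum_congr rfl fun j _ => by rw [Rat.smul_def]
  rw [h1, ω.repr_sum_self]

/-- The values of the vector over `F` with the coordinates `v`. -/
private theorem W11b_cb {K BK : Type u} [Field K] [NumberField K] [Field BK] [Algebra K BK] (XK : Evl K BK ℕ)
    {BQ : Type} [Field BQ] [Algebra ℚ BQ] (XQ : Evl ℚ BQ ℕ) {m : ℕ} (ω : Module.Basis (Fin m) ℚ K)
    {E : Type} [Field E] [Algebra E BQ] {F : Type u} [Field F] [Algebra K F] [Algebra E F] [Algebra F BK]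
    [IsScalarTower K F BK] (b : Module.Basis (Fin m) E F) (hb : ∀ i, b i = algebraMap K F (ω i))
    (hev : ∀ e : E, ∀ᶠ i in (XK.U : Filter ℕ), XK.ev (algebraMap F BK (algebraMap E F e)) i =
      ((XQ.ev (algebraMap E BQ e) i : ℚ) : K)) {ι : Type} (v : ι × Fin m → E) (a : ι) :
    ∀ᶠ i in (XK.U : Filter ℕ), XK.ev (algebraMap F BK (cb b v a)) i =
      ∑ j, ((XQ.ev (algebraMap E BQ (v (a, j))) i : ℚ) : K) * ω j := by
  have h1 : algebraMap F BK (cb b v a) =
      ∑ j, algebraMap F BK (algebraMap E F (v (a, j))) * algebraMap K BK (ω j) := by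
    unfold cb
    rw [map_sum]
    refine Finset.sum_congr rfl fun j _ => ?_
    rw [map_mul, hb, IsScalarTower.algebraMap_apply K F BK]
  rw [h1]
  filter_upwards [ev_sum XK Finset.univ
      fun j => algebraMap F BK (algebraMap E F (v (a, j))) * algebraMap K BK (ω j),
    Filter.eventually_all.2 fun j =>
      XK.mul (algebraMap F BK (algebraMap E F (v (a, j)))) (algebraMap K BK (ω j)),
    Filter.eventually_all.2 fun j => XK.alg (ω j),
    Filter.eventually_all.2 fun j => hev (v (a, j))] with i h2 h3 h4 h5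
  rw [h2]
  refine Finset.sum_congr rfl fun j _ => ?_
  rw [h3, h4, h5]

/-- The inequality with all fields given. -/
private theorem W11b_main (hQ : SemiQ) {K : Type u} [Field K] [NumberField K] {m : ℕ} (ω : Module.Basis (Fin m) ℚ K)
    {ι : Type} [Fintype ι] {J : Ideal (MvPolynomial ι K)} (hJ : ∀ F ∈ J, ∀ i, homogeneousComponent i F ∈ J)
    {I : Ideal (MvPolynomial (ι × Fin m) ℚ)} (hI : ∀ F ∈ I, ∀ i, homogeneousComponent i F ∈ I)
    {T : ℕ → ℝ} {C α β : ℝ} {p : ℕ → ι → K} {BK : Type u} [Field BK] [Algebra K BK] (XK : Evl K BK ℕ)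
    {BQ : Type} [Field BQ] [Algebra ℚ BQ] (XQ : Evl ℚ BQ ℕ) (hU : XK.U = XQ.U) (hh : XQ.h = T)
    (hs : SeqK ω J I XQ.U T C α β p) {E : Type} [Field E] [Algebra ℚ E] [Algebra E BQ] [IsScalarTower ℚ E BQ]
    (hE : (⊤ : IntermediateField ℚ E).FG) (x : ι × Fin m → E)
    (hx : ∀ c, ∀ᶠ i in (XQ.U : Filter ℕ), XQ.ev (algebraMap E BQ (x c)) i = rs ω (p i) c)
    {F : Type u} [Field F] [Algebra K F] [Algebra E F] [Algebra F BK]
    [IsScalarTower K F BK] (b : Module.Basis (Fin m) E F) (hb : ∀ i, b i = algebraMap K F (ω i))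
    (hev : ∀ e : E, ∀ᶠ i in (XK.U : Filter ℕ), XK.ev (algebraMap F BK (algebraMap E F e)) i =
      ((XQ.ev (algebraMap E BQ e) i : ℚ) : K))
    {o : ι × Fin m} (ho : ∀ᶠ i in (XQ.U : Filter ℕ), rs ω (p i) o = 1) {ε : ℝ} (hε : 0 < ε) :
    ∀ᶠ i in (XQ.U : Filter ℕ), hPl (resV ω (Tan J (p i))) -
      m * Module.finrank K (Tan J (p i)) * logHeight (rs ω (p i)) ≤ hCan I (rs ω (p i)) + ε * T i := by
  obtain ⟨n, m₁, h1, hm₁⟩ := exists_gen hE
  have hfd : FiniteDimensional E (Derivation ℚ E E) := gen_findim m₁ hm₁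
  -- the values of `cb b x`
  have hy : ∀ a, ∀ᶠ i in (XK.U : Filter ℕ), XK.ev (algebraMap F BK (cb b x a)) i = p i a := by
    intro a
    have h2 : ∀ᶠ i in (XK.U : Filter ℕ), ∀ j, XQ.ev (algebraMap E BQ (x (a, j))) i = rs ω (p i) (a, j) := by
      rw [hU]
      exact Filter.eventually_all.2 fun j => hx (a, j)
    filter_upwards [W11b_cb XK XQ ω b hb hev x a, h2] with i h3 h4
    rw [h3, ← rs_sum ω (p i) a]
    exact Finset.sum_congr rfl fun j _ => by rw [h4]
  have hJK : ∀ᶠ i in (XK.U : Filter ℕ), IsPt J (p i) := by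
    rw [hU]
    exact hs.ptJ.mono fun i hi => hi.1
  have hgK : ∀ G, G ∉ J → (∃ e, G.IsHomogeneous e) → ∀ᶠ i in (XK.U : Filter ℕ), eval (p i) G ≠ 0 := by
    rw [hU]
    exact hs.genJ
  have hIQ : ∀ᶠ i in (XQ.U : Filter ℕ), IsPt I (rs ω (p i)) := hs.ptI.mono fun i hi => hi.1
  -- over `K`
  have hKt := L0_tan XK hJ (cb b x) p hy hJK
  have hKd := L0_dim XK hJ (cb b x) p hy hJK hgK
  have hK1 := (pl_lim XK (L0 K (cb b x)) (fun i => Tan J (p i)) hKt hKd).1
  -- the restriction of scalars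
  have hLt : ∀ v ∈ Lf (bm ω) x, ∀ᶠ i in (XQ.U : Filter ℕ),
      (fun c => XQ.ev (algebraMap E BQ (v c)) i) ∈ resV ω (Tan J (p i)) := by
    intro v hv
    have h2 := hKt _ ((Lf_iff ω b hb x v).1 hv)
    have h3 : ∀ᶠ i in (XK.U : Filter ℕ), ∀ a, XK.ev (algebraMap F BK (cb b v a)) i =
        ∑ j, ((XQ.ev (algebraMap E BQ (v (a, j))) i : ℚ) : K) * ω j :=
      Filter.eventually_all.2 fun a => W11b_cb XK XQ ω b hb hev v a
    rw [hU] at h2 h3
    filter_upwards [h2, h3] with i h4 h5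
    have h6 : (fun a => XK.ev (algebraMap F BK (cb b v a)) i) =
        fun a => ∑ j, ((XQ.ev (algebraMap E BQ (v (a, j))) i : ℚ) : K) * ω j := funext h5
    rw [h6] at h4
    exact ⟨_, h4, W11b_rs ω fun c => XQ.ev (algebraMap E BQ (v c)) i⟩
  have hLd : ∀ᶠ i in (XQ.U : Filter ℕ), Module.finrank ℚ (resV ω (Tan J (p i))) ≤
      Module.finrank E (Lf (bm ω) x) := by
    rw [hU] at hKd
    filter_upwards [hKd] with i h2
    rw [finrank_resV, finrank_Lf ω b hb]
    exact Nat.mul_le_mul_left m h2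
  obtain ⟨-, hL2⟩ := pl_lim XQ (Lf (bm ω) x) (fun i => resV ω (Tan J (p i))) hLt hLd
  -- over the rational numbers
  have hQt := L0_tan XQ hI x (fun i => rs ω (p i)) hx hIQ
  have hQd := L0_dim XQ hI x (fun i => rs ω (p i)) hx hIQ hs.genI
  obtain ⟨hQ1, hQ2⟩ := pl_lim XQ (L0 ℚ x) (fun i => Tan I (rs ω (p i))) hQt hQd
  -- the height of `x`
  have hH : Filter.Tendsto (fun i => logHeight (rs ω (p i)) / T i) (XQ.U : Filter ℕ)
      (nhds ((XQ.ht E).lam x)) := by
    refine (lm_tendsto XQ fun c => algebraMap E BQ (x c)).congr' ?_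
    have h2 : ∀ᶠ i in (XQ.U : Filter ℕ), ∀ c, XQ.ev (algebraMap E BQ (x c)) i = rs ω (p i) c :=
      Filter.eventually_all.2 hx
    filter_upwards [h2] with i h3
    rw [hh]
    have h4 : (fun c => XQ.ev (algebraMap E BQ (x c)) i) = rs ω (p i) := funext h3
    rw [h4]
  -- `x` is not zero
  have hx0 : x ≠ 0 := by
    intro h2
    have h3 := hx o
    rw [h2] at h3
    have h4 : algebraMap E BQ ((0 : ι × Fin m → E) o) = 0 := by
      rw [Pi.zero_apply, map_zero]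
    rw [h4] at h3
    obtain ⟨i, h5, h6, h7⟩ := (h3.and (ho.and (ev_zero XQ))).exists
    rw [h5, h6] at h7
    exact one_ne_zero h7
  -- the slope inequality
  have hch := chain (XQ.ht E) (fun m hm L => thmS hQ XQ E hE m hm L) hE x hx0 (bm ω) (L0 ℚ x)
  have hsup : L0 ℚ x ⊔ Lf (bm ω) x = Lf (bm ω) x := sup_eq_right.2 (L0_le_Lf ω x)
  rw [hsup] at hch
  rw [hh] at hL2 hQ2
  -- the limits
  have hl := hL2.sub (hH.const_mul (Module.finrank E (Lf (bm ω) x) : ℝ))
  have hr := hQ2.sub (hH.const_mul (Module.finrank E (L0 ℚ x) : ℝ))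
  have hlr := hl.sub hr
  have hlt : ((XQ.ht E).lam (plu (Lf (bm ω) x)) - Module.finrank E (Lf (bm ω) x) * (XQ.ht E).lam x) -
      ((XQ.ht E).lam (plu (L0 ℚ x)) - Module.finrank E (L0 ℚ x) * (XQ.ht E).lam x) < ε := by
    linarith
  have hpos : ∀ᶠ i in (XQ.U : Filter ℕ), 0 < T i := by
    rw [← hh]
    exact ev_pos XQ
  rw [hU] at hK1
  filter_upwards [hlr.eventually (gt_mem_nhds hlt), hpos, hK1, hQ1] with i h2 h3 h4 h5
  unfold hCan
  rw [h4, h5]
  have h6 : (Module.finrank E (Lf (bm ω) x) : ℝ) = m * Module.finrank F (L0 K (cb b x)) := by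
    rw [finrank_Lf ω b hb]
    push_cast
    rfl
  rw [h6] at h2
  have h7 := mul_lt_mul_of_pos_right h2 h3
  have h8 : (hPl (resV ω (Tan J (p i))) / T i - m * Module.finrank F (L0 K (cb b x)) *
      (logHeight (rs ω (p i)) / T i) - (hPl (Tan I (rs ω (p i))) / T i - Module.finrank E (L0 ℚ x) *
      (logHeight (rs ω (p i)) / T i))) * T i =
      (hPl (resV ω (Tan J (p i))) - m * Module.finrank F (L0 K (cb b x)) * logHeight (rs ω (p i))) -
        (hPl (Tan I (rs ω (p i))) - Module.finrank E (L0 ℚ x) * logHeight (rs ω (p i))) := by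
    field_simp
  rw [h8] at h7
  linarith

/-- PROOF: `BQ`, `XQ` from `exists_evl ℚ ℕ U T` and `BK`, `XK` from `exists_evl K ℕ U T` (FQ/A5). `x c` with
`XQ.ev (x c) i = rs ω (p i) c` eventually (`XQ.surj`; `logHeight₁ (rs ω (p i) c) ≤ logHeight (rs ω (p i))` because the
coordinate `o` is one, and `hT`). `E = IntermediateField.adjoin ℚ (Set.range x)`, `xE : ι × Fin m → E`; `⊤` of
`IntermediateField ℚ E` is finitely generated, so `FiniteDimensional E (Derivation ℚ E E)` (`exists_gen`, `gen_findim`, FQ/V2)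
and `thmS` (MV/A1) is the hypothesis `hS` of `chain` for `H = XQ.ht E`. `F`, `b` from `exists_twr`; `y = cb b xE`, whose
values are `∑ j, rs ω (p i) (a, j) ω j = p i a` (`rs_sum`; `ev_sum`, `XK.mul`, `XK.alg`).
(1) OVER `K`: `L0_tan`, `L0_dim` and `pl_lim`-like dimension count: `finrank (Tan J (p i)) = finrank F (L0 K y)` eventually
(first part of `pl_lim` with `L = L0 K y`, `V i = Tan J (p i)`). (2) `L = Lf (bm ω) xE`, `V i = resV ω (Tan J (p i))`: for
`v ∈ Lf` the vector `cb b v` is in `L0 K y` (`Lf_iff`), its value `∑ j, XQ.ev (v (a, j)) i * ω j` is in `Tan J (p i)`, and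
`rs ω` of it is the value of `v`; `finrank (V i) = m * finrank (Tan J (p i)) = finrank Lf` (`finrank_resV`, `finrank_Lf`).
`pl_lim`: `hPl (V i) / T i → H.lam (plu Lf)`. (3) OVER `ℚ`: `L = L0 ℚ xE`, `V i = Tan I (rs ω (p i))`: `L0_tan`,
`L0_dim`, `pl_lim`: `hPl (Tan I ..) / T i → H.lam (plu (L0 ℚ xE))`, and `finrank (Tan I ..) = finrank (L0 ℚ xE)`
eventually. (4) `logHeight (rs ω (p i)) / T i → H.lam xE` (`lm_tendsto`). (5) `chain` with `L = L0 ℚ xE`,
`L ⊔ Lf = Lf` (`L0_le_Lf`). Multiply the inequality by `T i` (which is eventually positive): the limits give the error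
`ε T i`. -/
theorem slopeK (hQ : SemiQ) {K : Type u} [Field K] [NumberField K] {m : ℕ} (ω : Module.Basis (Fin m) ℚ K)
    {ι : Type} [Fintype ι] {J : Ideal (MvPolynomial ι K)} (hJ : ∀ F ∈ J, ∀ i, homogeneousComponent i F ∈ J)
    {I : Ideal (MvPolynomial (ι × Fin m) ℚ)} (hI : ∀ F ∈ I, ∀ i, homogeneousComponent i F ∈ I) {U : Ultrafilter ℕ}
    {T : ℕ → ℝ} (hTop : Filter.Tendsto T (U : Filter ℕ) Filter.atTop) {C α β : ℝ} {p : ℕ → ι → K}
    (hs : SeqK ω J I U T C α β p) (hT : ∃ C' : ℝ, ∀ᶠ i in (U : Filter ℕ), logHeight (rs ω (p i)) ≤ C' * T i)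
    {o : ι × Fin m} (ho : ∀ᶠ i in (U : Filter ℕ), rs ω (p i) o = 1) {ε : ℝ} (hε : 0 < ε) :
    ∀ᶠ i in (U : Filter ℕ), hPl (resV ω (Tan J (p i))) -
      m * Module.finrank K (Tan J (p i)) * logHeight (rs ω (p i)) ≤ hCan I (rs ω (p i)) + ε * T i := by
  obtain ⟨BQ, _, _, XQ, hQU, hQh⟩ := exists_evl ℚ ℕ U T hTop
  obtain ⟨BK, _, _, XK, hKU, hKh⟩ := exists_evl K ℕ U T hTop
  have h1 : ∀ c : ι × Fin m, ∃ x : BQ, ∀ᶠ i in (XQ.U : Filter ℕ), XQ.ev x i = rs ω (p i) c := by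
    intro c
    refine XQ.surj (fun i => rs ω (p i) c) ?_
    obtain ⟨C', hC'⟩ := hT
    refine ⟨C', ?_⟩
    rw [hQU, hQh]
    filter_upwards [hC', ho] with i h2 h3
    rw [logHeight₁_eq_logHeight]
    have h4 : (![rs ω (p i) c, 1] : Fin 2 → ℚ) = rs ω (p i) ∘ ![c, o] := by
      funext a
      fin_cases a
      · rfl
      · exact h3.symm
    rw [h4]
    exact (logHeight_comp_le _ _).trans h2
  choose x hx using h1
  let E : IntermediateField ℚ BQ := IntermediateField.adjoin ℚ (Set.range x)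
  have hE : E.FG := IntermediateField.fg_adjoin_of_finite (Set.finite_range _)
  have hEt : @IntermediateField.FG ℚ _ E _ E.algebra' ⊤ :=
    (@IntermediateField.fg_top_iff ℚ _ E _ E.algebra').2 ((IntermediateField.essFiniteType_iff).2 hE)
  obtain ⟨F, _, _, _, _, _, b, hb, hev⟩ := exists_twr XK XQ (by rw [hKU, hQU]) (by rw [hKh, hQh]) ω E
  let iE : Algebra ℚ E := E.algebra'
  have hxE : ∀ c, x c ∈ E := fun c => IntermediateField.subset_adjoin _ _ ⟨c, rfl⟩
  rw [← hQU] at ho hs ⊢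
  exact W11b_main hQ ω hJ hI XK XQ (by rw [hKU, hQU]) hQh hs hEt (fun c => (⟨x c, hxE c⟩ : E)) hx b hb hev ho hε

end Pool.Agent.Lib.MP_17a322_nt.MV
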