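import Pool.Agent.Lib.MP_17a322_nt.MV.WDefs

/-!
The minors of the restriction of scalars of a space: an identity.
-/

universe u

namespace Pool.Agent.Lib.MP_17a322_nt.MV

/-- The vectors `ω j u_i` in coordinates over `ℚ`. -/
noncomputable def rsu {K : Type u} [Field K] [NumberField K] {m : ℕ} (ω : Module.Basis (Fin m) ℚ K) {ι : Type}
    {n : ℕ} (u : Fin n → ι → K) (z : Fin n × Fin m) : ι × Fin m → ℚ :=
  rs ω (ω z.2 • u z.1)

private theorem W2a_rs {K : Type u} [Field K] [NumberField K] {m : ℕ} (ω : Module.Basis (Fin m) ℚ K)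
    {ι : Type} {L : Type u} [Field L] [CharZero L] (σ : K →+* L) (y : ι → K) (a : ι) :
    σ (y a) = ∑ c, ((rs ω y (a, c) : ℚ) : L) * σ (ω c) := by
  have h1 := congrArg σ (ω.sum_repr (y a))
  rw [map_sum] at h1
  rw [← h1]
  refine Finset.sum_congr rfl fun c _ => ?_
  rw [Algebra.smul_def, map_mul]
  congr 1
  exact eq_ratCast (σ.comp (algebraMap ℚ K)) (ω.repr (y a) c)

/-- The determinant of the conjugates of the vectors `ω j u i`. -/
private theorem W2a_det {K : Type u} [Field K] {m : ℕ} (ω : Fin m → K) {L : Type u}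
    [Field L] (σ : Fin m → K →+* L) {ι : Type} {n : ℕ} (u : Fin n → ι → K)
    (t : Fin m → Fin n → ι) :
    (Matrix.of fun z z' : Fin n × Fin m => σ z'.2 (ω z.2 * u z.1 (t z'.2 z'.1))).det =
      (Matrix.of fun j l => σ l (ω j)).det ^ n *
        ∏ l, σ l (Matrix.of fun i i' => u i (t l i')).det := by
  obtain ⟨B, hB⟩ : ∃ B : Matrix (Fin n × Fin m) (Fin n × Fin m) L,
      B = (Matrix.blockDiagonal fun _ : Fin n => Matrix.of fun j l => σ l (ω j)).submatrix
        (Equiv.prodComm (Fin n) (Fin m)) (Equiv.prodComm (Fin n) (Fin m)) := ⟨_, rfl⟩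
  obtain ⟨D, hD⟩ : ∃ D : Matrix (Fin n × Fin m) (Fin n × Fin m) L,
      D = Matrix.blockDiagonal fun l => Matrix.of fun i i' => σ l (u i (t l i')) := ⟨_, rfl⟩
  have h1 : (Matrix.of fun z z' : Fin n × Fin m => σ z'.2 (ω z.2 * u z.1 (t z'.2 z'.1))) =
      B * D := by
    ext ⟨i, j⟩ ⟨i', l'⟩
    rw [Matrix.mul_apply, Fintype.sum_prod_type]
    have h2 : ∀ (i₂ : Fin n) (l : Fin m), B (i, j) (i₂, l) * D (i₂, l) (i', l') =
        if i = i₂ then (if l = l' then σ l (ω j) * σ l (u i₂ (t l i')) else 0) else 0 := by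
      intro i₂ l
      have e1 : B (i, j) (i₂, l) = if i = i₂ then σ l (ω j) else 0 := by
        rw [hB]
        rfl
      have e2 : D (i₂, l) (i', l') = if l = l' then σ l (u i₂ (t l i')) else 0 := by
        rw [hD]
        rfl
      rw [e1, e2]
      split_ifs
      · rfl
      · rw [mul_zero]
      · rw [zero_mul]
      · rw [zero_mul]
    rw [Finset.sum_congr rfl fun i₂ _ => Finset.sum_congr rfl fun l _ => h2 i₂ l]
    have h3 : ∀ i₂ : Fin n, (∑ l, if i = i₂ then
        (if l = l' then σ l (ω j) * σ l (u i₂ (t l i')) else 0) else 0) =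
        if i = i₂ then σ l' (ω j) * σ l' (u i₂ (t l' i')) else 0 := by
      intro i₂
      by_cases h : i = i₂
      · simp only [if_pos h]
        rw [Finset.sum_ite_eq' Finset.univ l' fun l => σ l (ω j) * σ l (u i₂ (t l i')),
          if_pos (Finset.mem_univ _)]
      · simp only [if_neg h, Finset.sum_const_zero]
    rw [Finset.sum_congr rfl fun i₂ _ => h3 i₂,
      Finset.sum_ite_eq Finset.univ i fun i₂ => σ l' (ω j) * σ l' (u i₂ (t l' i')),
      if_pos (Finset.mem_univ _), ← map_mul]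
    rfl
  rw [h1, Matrix.det_mul]
  congr 1
  · rw [hB, Matrix.det_submatrix_equiv_self, Matrix.det_blockDiagonal, Finset.prod_const,
      Finset.card_univ, Fintype.card_fin]
  · rw [hD, Matrix.det_blockDiagonal]
    refine Finset.prod_congr rfl fun l _ => ?_
    rw [RingHom.map_det]
    rfl

/-- The same determinant by the multilinearity in the columns. -/
private theorem W2a_exp {K : Type u} [Field K] [NumberField K] {m : ℕ}
    (ω : Module.Basis (Fin m) ℚ K) {L : Type u} [Field L] [CharZero L] (σ : Fin m → K →+* L)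
    {ι : Type} {n : ℕ} (u : Fin n → ι → K) (t : Fin m → Fin n → ι) :
    (Matrix.of fun z z' : Fin n × Fin m => σ z'.2 (ω z.2 * u z.1 (t z'.2 z'.1))).det =
      ∑ γ : Fin n × Fin m → Fin m, (∏ z', σ z'.2 (ω (γ z'))) *
        (((Matrix.of fun z z' => rsu ω u z (t z'.2 z'.1, γ z')).det : ℚ) : L) := by
  rw [← Matrix.det_transpose]
  have h1 : (Matrix.of fun z z' : Fin n × Fin m =>
      σ z'.2 (ω z.2 * u z.1 (t z'.2 z'.1))).transpose =
      fun z' => ∑ c, σ z'.2 (ω c) • fun z : Fin n × Fin m =>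
        ((rsu ω u z (t z'.2 z'.1, c) : ℚ) : L) := by
    funext z' z
    rw [Finset.sum_apply]
    show σ z'.2 ((ω z.2 • u z.1) (t z'.2 z'.1)) = _
    rw [W2a_rs ω (σ z'.2) (ω z.2 • u z.1) (t z'.2 z'.1)]
    refine Finset.sum_congr rfl fun c _ => ?_
    rw [mul_comm]
    rfl
  rw [h1]
  have h2 := MultilinearMap.map_sum
    ((Matrix.detRowAlternating : ((Fin n × Fin m) → L) [⋀^Fin n × Fin m]→ₗ[L] L).toMultilinearMap)
    (fun z' c => σ z'.2 (ω c) • fun z : Fin n × Fin m =>
        ((rsu ω u z (t z'.2 z'.1, c) : ℚ) : L))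
  refine Eq.trans h2 (Finset.sum_congr rfl fun γ _ => ?_)
  have h3 := MultilinearMap.map_smul_univ
    ((Matrix.detRowAlternating : ((Fin n × Fin m) → L) [⋀^Fin n × Fin m]→ₗ[L] L).toMultilinearMap)
    (fun z' => σ z'.2 (ω (γ z'))) (fun z' => fun z : Fin n × Fin m =>
        ((rsu ω u z (t z'.2 z'.1, γ z') : ℚ) : L))
  refine Eq.trans h3 ?_
  rw [smul_eq_mul]
  congr 1
  have h4 : (((Matrix.of fun z z' => rsu ω u z (t z'.2 z'.1, γ z')).det : ℚ) : L) =
      ((Rat.castHom L).mapMatrix (Matrix.of fun z z' => rsu ω u z (t z'.2 z'.1, γ z'))).det := by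
    rw [← RingHom.map_det]
    rfl
  rw [h4, ← Matrix.det_transpose]
  rfl

/-- The products of the conjugates of the minors of `u` are combinations of the minors of `rsu ω u` with constant
coefficients.

PROOF: `L` contains all conjugates of `K`, `σ l`, `l : Fin m`, are the embeddings of `K` in `L`. Let
`Ω j l = σ l (ω j)`, `det Ω ≠ 0` (`hΩ`). The matrix `N (i, j) (a, l) = σ l (ω j * u i a) = σ l (ω j) * σ l (u i a)` is
`∑ c, (rsu ω u (i, j) (a, c)) * Ω c l` (`rs_sum`, `map_sum`). For `t : Fin m → Fin n → ι` the minor of `N` at the columns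
`(i', l) ↦ (t l i', l)` is the determinant of the product of the matrices `A (i, j) (i'', l) = δ_(i i'') Ω j l` and
`D (i'', l) (i', l') = δ_(l l') σ l (u i'' (t l i'))`: `det A = (det Ω) ^ n` (block diagonal, up to the order of the indices:
`Matrix.det_blockDiagonal`), `det D = ∏ l, σ l (det (u i'' (t l i')))`. On the other hand by the multilinearity in the
columns (`Matrix.det_mul`-like: `MultilinearMap.map_sum`, `Matrix.detRowAlternating`) the minor of `N` is
`∑ γ : Fin n × Fin m → Fin m, (∏ z, Ω (γ z) z.2) * det (rsu ω u (i, j) (t l i', γ (i', l)))`. -/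
theorem minors_rs {K : Type u} [Field K] [NumberField K] {m : ℕ} (ω : Module.Basis (Fin m) ℚ K) {L : Type u}
    [Field L] [CharZero L] (σ : Fin m → K →+* L) (hΩ : (Matrix.of fun j l => σ l (ω j)).det ≠ 0) {ι : Type}
    [Fintype ι] (n : ℕ) :
    ∃ A : (Fin m → Fin n → ι) → (Fin n × Fin m → ι × Fin m) → L, ∀ (u : Fin n → ι → K) (t : Fin m → Fin n → ι),
      ∏ l, σ l (Matrix.of fun i i' => u i (t l i')).det =
        ∑ s, A t s * (((Matrix.of fun z z' => rsu ω u z (s z')).det : ℚ) : L) := by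
  classical
  obtain ⟨δ, hδ⟩ : ∃ δ : L, δ = (Matrix.of fun j l => σ l (ω j)).det ^ n := ⟨_, rfl⟩
  have hδ0 : δ ≠ 0 := by
    rw [hδ]
    exact pow_ne_zero n hΩ
  refine ⟨fun t s => ∑ γ : Fin n × Fin m → Fin m,
    if s = (fun z' => (t z'.2 z'.1, γ z')) then δ⁻¹ * ∏ z', σ z'.2 (ω (γ z')) else 0,
    fun u t => ?_⟩
  have h1 := W2a_det (fun j => ω j) σ u t
  rw [← hδ, W2a_exp ω σ u t] at h1
  have h2 : ∏ l, σ l (Matrix.of fun i i' => u i (t l i')).det =
      δ⁻¹ * ∑ γ : Fin n × Fin m → Fin m, (∏ z', σ z'.2 (ω (γ z'))) *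
        (((Matrix.of fun z z' => rsu ω u z (t z'.2 z'.1, γ z')).det : ℚ) : L) := by
    rw [h1, inv_mul_cancel_left₀ hδ0]
  rw [h2, Finset.mul_sum]
  simp only [Finset.sum_mul]
  rw [Finset.sum_comm]
  refine Finset.sum_congr rfl fun γ _ => ?_
  simp only [ite_mul, zero_mul]
  rw [Finset.sum_ite_eq' Finset.univ (fun z' : Fin n × Fin m => (t z'.2 z'.1, γ z'))
    (fun s => δ⁻¹ * (∏ z', σ z'.2 (ω (γ z'))) *
      (((Matrix.of fun z z' => rsu ω u z (s z')).det : ℚ) : L)), if_pos (Finset.mem_univ _)]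
  rw [mul_assoc]

end Pool.Agent.Lib.MP_17a322_nt.MV
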