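import Pool.Agent.Lib.MP_17a322_nt.FQ.A6
import Pool.Agent.Lib.MP_17a322_nt.FQ.X9
import Pool.Agent.Lib.MP_17a322_nt.MV.W0
import Pool.Agent.Lib.MP_17a322_nt.MV.W2a

/-!
The height of the restriction of scalars of a subspace.
-/

universe u

namespace Pool.Agent.Lib.MP_17a322_nt.MV

open Height NumberField
open Pool.Agent.Lib.MP_17a322_nt.EQ

open Pool.Agent.Lib.MP_17a322_nt.FQ (mns mns_ne hPl_span logHeight_ext)

/-- A number field with all the embeddings of `K`. -/
private theorem W2_emb {K : Type u} [Field K] [NumberField K] {m : ℕ} (ω : Module.Basis (Fin m) ℚ K) :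
    ∃ (L : Type u) (_ : Field L) (_ : NumberField L) (σ : Fin m → K →+* L),
      (Matrix.of fun j l => σ l (ω j)).det ≠ 0 := by
  have h5 : Algebra.IsAlgebraic ℚ (AlgebraicClosure K) := Algebra.IsAlgebraic.trans ℚ K _
  have h1 : FiniteDimensional ℚ (IntermediateField.normalClosure ℚ K (AlgebraicClosure K)) :=
    normalClosure.is_finiteDimensional ℚ K (AlgebraicClosure K)
  have h2 : NumberField (IntermediateField.normalClosure ℚ K (AlgebraicClosure K)) := ⟨⟩
  have hcard : Fintype.card (K →ₐ[ℚ] AlgebraicClosure K) = m := by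
    rw [AlgHom.card, Module.finrank_eq_card_basis ω, Fintype.card_fin]
  let e : Fin m ≃ (K →ₐ[ℚ] AlgebraicClosure K) := (Fintype.equivFinOfCardEq hcard).symm
  refine ⟨IntermediateField.normalClosure ℚ K (AlgebraicClosure K), inferInstance, h2, fun l =>
    ((e l).codRestrict (IntermediateField.normalClosure ℚ K (AlgebraicClosure K)).toSubalgebra
      fun x => (e l).fieldRange_le_normalClosure ⟨x, rfl⟩).toRingHom, ?_⟩
  intro hdet
  have h3 : (Algebra.embeddingsMatrixReindex ℚ (AlgebraicClosure K) ω e).det = 0 := by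
    have h4 := congrArg (algebraMap (IntermediateField.normalClosure ℚ K (AlgebraicClosure K))
      (AlgebraicClosure K)) hdet
    rw [map_zero, RingHom.map_det] at h4
    rw [← h4]
    congr 1
  have h6 := Algebra.discr_eq_det_embeddingsMatrixReindex_pow_two ℚ (AlgebraicClosure K) ω e
  rw [h3] at h6
  have h7 : algebraMap ℚ (AlgebraicClosure K) (Algebra.discr ℚ ω) = 0 := by
    rw [h6]
    exact zero_pow two_ne_zero
  exact Algebra.discr_not_zero_of_basis ℚ ω ((map_eq_zero _).1 h7)

/-- The height under an embedding. -/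
private theorem W2_ht {K L : Type u} [Field K] [NumberField K] [Field L] [NumberField L] (f : K →+* L)
    {ι : Type*} [Finite ι] (x : ι → K) :
    (Module.finrank ℚ K : ℝ) * logHeight (fun a => f (x a)) = Module.finrank ℚ L * logHeight x := by
  let _ : Algebra K L := f.toAlgebra
  have h1 : IsScalarTower ℚ K L := IsScalarTower.of_algebraMap_eq' (Subsingleton.elim _ _)
  have h2 := Module.finrank_mul_finrank ℚ K L
  have h3 : logHeight (fun a => f (x a)) = Module.finrank K L * logHeight x := logHeight_ext (L := L) x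
  rw [h3, ← h2, Nat.cast_mul, mul_assoc]

private theorem W2_ind {K : Type u} [Field K] [NumberField K] {m : ℕ} (ω : Module.Basis (Fin m) ℚ K) {ι : Type}
    [Fintype ι] (V : Submodule K (ι → K)) :
    LinearIndependent ℚ (rsu ω fun i => (Module.finBasis K V i : ι → K)) := by
  have h1 := (ω.smulTower' (Module.finBasis K V)).linearIndependent
  have h2 := h1.map' (rs ω ∘ₗ V.subtype.restrictScalars ℚ) (by
    rw [LinearMap.ker_eq_bot]
    exact (rs_injective ω).comp V.subtype_injective)
  have h3 : ((rs ω ∘ₗ V.subtype.restrictScalars ℚ) ∘ (ω.smulTower' (Module.finBasis K V))) =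
      rsu ω fun i => (Module.finBasis K V i : ι → K) := by
    funext z
    show rs ω ((ω.smulTower' (Module.finBasis K V) z : V) : ι → K) = _
    rw [Module.Basis.smulTower'_apply]
    rfl
  rw [h3] at h2
  exact h2

private theorem W2_span {K : Type u} [Field K] [NumberField K] {m : ℕ} (ω : Module.Basis (Fin m) ℚ K) {ι : Type}
    [Fintype ι] (V : Submodule K (ι → K)) :
    Submodule.span ℚ (Set.range (rsu ω fun i => (Module.finBasis K V i : ι → K))) = resV ω V := by
  refine Submodule.eq_of_le_of_finrank_eq ?_ ?_
  · rw [Submodule.span_le]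
    rintro _ ⟨z, rfl⟩
    exact Submodule.mem_map_of_mem (V.smul_mem _ (Module.finBasis K V z.1).2)
  · rw [finrank_span_eq_card (W2_ind ω V), finrank_resV, Fintype.card_prod, Fintype.card_fin, Fintype.card_fin,
      mul_comm]

/-- PROOF: `n = finrank K V ≤ card ι` (take the maximum of the constants over `n`). `u` a basis of `V`; the vectors
`rsu ω u` are a basis of `resV ω V`, so `hPl (resV ω V) = logHeight (mns (rsu ω u))` (`hPl_span`, FQ/A6). Let `L` be a
number field which is Galois over `ℚ` and contains `K` (as in `jacAff_of_galois`, FQ/X15: the normal closure), `σ l` the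
`m` embeddings of `K` in `L` (`AlgHom.card` with values in a normal extension; or `L` where all of them exist), with
`det (σ l (ω j)) ≠ 0` (`Algebra.discr_ne_zero...`, `Algebra.embeddingsMatrixReindex`, linear independence of characters).
By `minors_rs` and the triangle inequality for a family of combinations with constant coefficients (`logHeight` of `A x` is
at most `logHeight x + C`: Mathlib `logHeight_linearMap_apply_le` or the like; the left family is not zero):
`logHeight (∏ σ l (..)) ≤ logHeight_L (mns (rsu ω u)) + C = [L : ℚ] hPl (resV ω V) + C` (`logHeight_ext`, FQ/X9), and the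
left side is `∑ l, logHeight (σ l (minors of u)) = m [L : K] hPl V` (`logHeight_fun_prod_eq`; `logHeight_ext` with the
algebra structure given by `σ l`, whose degree is `[L : ℚ] / m`). Divide by `[L : ℚ]`. -/
theorem hPl_res {K : Type u} [Field K] [NumberField K] {m : ℕ} (ω : Module.Basis (Fin m) ℚ K) (ι : Type)
    [Fintype ι] : ∃ C : ℝ, ∀ V : Submodule K (ι → K), hPl V ≤ hPl (resV ω V) + C := by
  classical
  obtain ⟨L, _, _, σ, hΩ⟩ := W2_emb ω
  have hm : (m : ℝ) = Module.finrank ℚ K := by
    rw [Module.finrank_eq_card_basis ω, Fintype.card_fin]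
  obtain ⟨N, hN⟩ : ∃ N : ℝ, N = (Module.finrank ℚ L : ℝ) := ⟨_, rfl⟩
  have hN0 : 0 < N := by
    rw [hN]
    exact_mod_cast Module.finrank_pos
  have key : ∀ n : ℕ, ∃ C : ℝ, ∀ V : Submodule K (ι → K), Module.finrank K V = n →
      N * hPl V ≤ C + N * hPl (resV ω V) := by
    intro n
    obtain ⟨A, hA⟩ := minors_rs ω σ hΩ (ι := ι) n
    refine ⟨totalWeight L * Real.log (Nat.card (Fin n × Fin m → ι × Fin m)) +
      logHeight (fun q : (Fin m → Fin n → ι) × (Fin n × Fin m → ι × Fin m) => A q.1 q.2), ?_⟩
    rintro V rfl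
    obtain ⟨u, hu⟩ : ∃ u : Fin (Module.finrank K V) → ι → K, u = fun i => (Module.finBasis K V i : ι → K) :=
      ⟨_, rfl⟩
    have h1 : hPl (resV ω V) = logHeight (mns (rsu ω u)) := by
      rw [← W2_span ω V, hPl_span _ (W2_ind ω V), hu]
    have h2 : hPl V = logHeight (mns u) := by
      rw [hu]
      rfl
    have hli : LinearIndependent K u := by
      rw [hu]
      exact (Module.finBasis K V).linearIndependent.map' V.subtype V.ker_subtype
    have h3 := logHeight_linearMap_apply_le
      (fun q : (Fin m → Fin (Module.finrank K V) → ι) × (Fin (Module.finrank K V) × Fin m → ι × Fin m) => A q.1 q.2)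
      (fun s => ((mns (rsu ω u) s : ℚ) : L))
    have h4 : (fun t : Fin m → Fin (Module.finrank K V) → ι =>
        ∑ s, A t s * ((mns (rsu ω u) s : ℚ) : L)) = fun t => ∏ l, σ l (mns u (t l)) := by
      funext t
      exact (hA u t).symm
    have hne : ∀ l : Fin m, (fun s => σ l (mns u s)) ≠ 0 := by
      intro l h
      apply mns_ne hli
      funext s
      exact (map_eq_zero (σ l)).1 (congrFun h s)
    have h5 : logHeight (fun t : Fin m → Fin (Module.finrank K V) → ι => ∏ l, σ l (mns u (t l))) =
        ∑ l, logHeight (fun s => σ l (mns u s)) := logHeight_fun_prod_eq hne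
    have h6 : logHeight (fun s => ((mns (rsu ω u) s : ℚ) : L)) = N * logHeight (mns (rsu ω u)) := by
      rw [hN, ← logHeight_ext (L := L) (mns (rsu ω u))]
      congr 1
    have h7 : ∀ l : Fin m, (m : ℝ) * logHeight (fun s => σ l (mns u s)) = N * logHeight (mns u) := by
      intro l
      rw [hm, hN]
      exact W2_ht (σ l) (mns u)
    have hm0 : (m : ℝ) ≠ 0 := by
      rw [hm]
      exact_mod_cast (Module.finrank_pos (R := ℚ) (M := K)).ne'
    have h8 : ∑ l, logHeight (fun s => σ l (mns u s)) = N * logHeight (mns u) := by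
      have h9 : ∀ l : Fin m, logHeight (fun s => σ l (mns u s)) = N * logHeight (mns u) / m := by
        intro l
        rw [eq_div_iff hm0, mul_comm]
        exact h7 l
      rw [Finset.sum_congr rfl fun l _ => h9 l, Finset.sum_const, Finset.card_univ, Fintype.card_fin,
        nsmul_eq_mul]
      field_simp
    rw [h6, h4, h5, h8] at h3
    rw [h1, h2]
    exact h3
  choose C hC using key
  refine ⟨(∑ n ∈ Finset.range (Fintype.card ι + 1), |C n|) / N, fun V => ?_⟩
  have h1 := hC _ V rfl
  have h2 : Module.finrank K V ≤ Fintype.card ι := by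
    rw [← Module.finrank_fintype_fun_eq_card K]
    exact Submodule.finrank_le V
  have h3 : C (Module.finrank K V) ≤ ∑ n ∈ Finset.range (Fintype.card ι + 1), |C n| :=
    (le_abs_self _).trans (Finset.single_le_sum (f := fun n => |C n|) (fun n _ => abs_nonneg _)
      (Finset.mem_range.2 (Nat.lt_succ_of_le h2)))
  have h4 : N * hPl V ≤ N * (hPl (resV ω V) + (∑ n ∈ Finset.range (Fintype.card ι + 1), |C n|) / N) := by
    rw [mul_add, mul_div_cancel₀ _ hN0.ne']
    linarith
  exact le_of_mul_le_mul_left h4 hN0

end Pool.Agent.Lib.MP_17a322_nt.MV
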