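import Pool.Agent.Lib.MP_17a322_nt.MV.W1
import Pool.Agent.Lib.MP_17a322_nt.MV.W2
import Pool.Agent.Lib.MP_17a322_nt.MV.W10a
import Pool.Agent.Lib.MP_17a322_nt.MV.W10c
import Pool.Agent.Lib.MP_17a322_nt.MV.W11a
import Pool.Agent.Lib.MP_17a322_nt.MV.W11b

/-!
The bounds for the numbers of the points over a number field.
-/

universe u

namespace Pool.Agent.Lib.MP_17a322_nt.MV

open MvPolynomial Height NumberField
open Pool.Agent.Lib.MP_17a322_nt.EQ
open Pool.Agent.Lib.MP_17a322_nt.FQ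

/-- The bounds over `ℚ` and the theorem on the slopes imply the bounds over `K`. -/
theorem grow_of_countK (hQ : SemiQ) (hC : CountG ℚ) (K : Type u) [Field K] [NumberField K] (n : ℕ) {α : ℝ}
    (hα : 0 ≤ α) : GrowG K n α := by
  by_contra hcon
  obtain ⟨m, ω, hω⟩ := exists_bal K
  obtain ⟨ι, _, J, C, δ, T, S, hJp, hJ, hδ, hb⟩ := exists_badK ω hω hα hcon
  obtain ⟨U, hUd⟩ : ∃ U : Ultrafilter ℕ, U = Filter.hyperfilter ℕ := ⟨_, rfl⟩
  have hUle : (U : Filter ℕ) ≤ Filter.atTop := by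
    rw [hUd]
    exact Nat.hyperfilter_le_atTop
  obtain ⟨I, p₀, hIp, hI, hs₀⟩ := exists_seqK ω hC hα hδ hb U hUle
  obtain ⟨o, p, hs, ho⟩ := hs₀.norm hJ hI
  have hTU : Filter.Tendsto T (U : Filter ℕ) Filter.atTop := hb.top.mono_left hUle
  have hm : 1 ≤ m := by
    rcases Nat.eq_zero_or_pos m with h | h
    · subst h
      exact o.2.elim0
    · exact h
  have hm' : (1 : ℝ) ≤ m := by exact_mod_cast hm
  obtain ⟨C', hC'⟩ := hPl_res ω ι
  have hTb : ∃ C' : ℝ, ∀ᶠ i in (U : Filter ℕ), logHeight (rs ω (p i)) ≤ C' * T i := by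
    refine ⟨1 + |C|, ?_⟩
    filter_upwards [hs.ptJ, hTU.eventually_ge_atTop 1] with i h1 h2
    obtain ⟨-, h3, -, h4⟩ := h1
    have h5 : 0 ≤ logHeight (rs ω (p i)) := logHeight_nonneg _
    have h6 : logHeight (rs ω (p i)) ≤ m * logHeight (rs ω (p i)) := by nlinarith
    have h7 : |C| * 1 ≤ |C| * T i := mul_le_mul_of_nonneg_left h2 (abs_nonneg _)
    have h8 := le_abs_self C
    linarith
  have hε : 0 < δ / 8 := by positivity
  have h1 := slopeK hQ ω hJ hI hTU hs hTb ho hε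
  have hfin : ∀ i, (Module.finrank K (Tan J (p i)) : ℝ) ≤ Fintype.card ι := by
    intro i
    have h3 := Submodule.finrank_le (Tan J (p i))
    rw [Module.finrank_fintype_fun_eq_card] at h3
    exact_mod_cast h3
  obtain ⟨M, hM⟩ : ∃ M : ℝ, M * δ = 8 * (|C'| + Fintype.card ι * |C|) := ⟨_, div_mul_cancel₀ _ hδ.ne'⟩
  obtain ⟨i, h2, h3, h4, h5⟩ := (h1.and (hs.ptJ.and (hs.ptI.and (hTU.eventually_ge_atTop (M + 1))))).exists
  obtain ⟨-, h6, h7, h8⟩ := h3
  obtain ⟨-, h9⟩ := h4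
  have h10 := hC' (Tan J (p i))
  have h11 : hCan J (p i) = hPl (Tan J (p i)) - Module.finrank K (Tan J (p i)) * logHeight (p i) := rfl
  have h12 : (Module.finrank K (Tan J (p i)) : ℝ) * (m * logHeight (rs ω (p i)) - logHeight (p i)) ≤
      Fintype.card ι * |C| := by
    have h13 : (Module.finrank K (Tan J (p i)) : ℝ) * (m * logHeight (rs ω (p i)) - logHeight (p i)) ≤
        Module.finrank K (Tan J (p i)) * |C| :=
      mul_le_mul_of_nonneg_left (by linarith [le_abs_self C]) (Nat.cast_nonneg _)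
    exact h13.trans (mul_le_mul_of_nonneg_right (hfin i) (abs_nonneg _))
  have h15 : (M + 1) * δ ≤ T i * δ := mul_le_mul_of_nonneg_right h5 hδ.le
  have h16 := le_abs_self C'
  have h17 : 0 ≤ |C'| + Fintype.card ι * |C| := by positivity
  obtain ⟨f, hf⟩ : ∃ f : ℝ, f = Module.finrank K (Tan J (p i)) := ⟨_, rfl⟩
  rw [← hf] at h2 h11 h12
  obtain ⟨w, hw⟩ : ∃ w : ℝ, w = f * (m * logHeight (rs ω (p i)) - logHeight (p i)) := ⟨_, rfl⟩
  rw [← hw] at h12
  have h18 : f * logHeight (p i) = m * f * logHeight (rs ω (p i)) - w := by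
    rw [hw]
    ring
  rw [h18] at h11
  have h19 : (M + 1) * δ = 8 * (|C'| + Fintype.card ι * |C|) + δ := by
    rw [add_mul, one_mul, hM]
  have h20 : (α + δ / 2) * T i = α * T i + T i * δ / 2 := by ring
  have h21 : δ / 8 * T i = T i * δ / 8 := by ring
  rw [h19] at h15
  rw [h20] at h9
  rw [h21] at h2
  linarith

end Pool.Agent.Lib.MP_17a322_nt.MV
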