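import Pool.Agent.Lib.MP_17a322_nt.MG.Fin
import Pool.Agent.Lib.MP_17a322_nt.MV.S3
import Pool.Agent.Lib.MP_17a322_nt.MV.T3
import Pool.Agent.Lib.MP_17a322_nt.MV.T4
import Pool.Agent.Lib.MP_17a322_nt.MV.W12

/-!
Vojta's conjecture and the upper bounds for the numbers of the points over a number field: the theorems.
-/

universe u v

namespace Pool.Agent.Lib.MP_17a322_nt.MV

open Pool.Agent.Lib.MP_17a322_nt.EQ
open Pool.Agent.Lib.MP_17a322_nt.FL
open Pool.Agent.Lib.MP_17a322_nt.FQ
open Pool.Agent.Lib.MP_17a322_nt.JAC (VojtaGauss)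

/-- Vojta's conjecture over one number field implies the bounds over all number fields. -/
theorem grow_of_gaussK {L : Type v} [Field L] [NumberField L] (h : VojtaGauss L) (K : Type u) [Field K] [NumberField K]
    (n : ℕ) {α : ℝ} (hα : 0 ≤ α) : GrowG K n α := by
  have h1 := gauss_any L ℚ h
  exact grow_of_countK (semi_of_gauss h1) ((gauss_iff_count ℚ).1 h1) K n hα

/-- The convergence of the sums. -/
theorem gauss_iff_sumK (K : Type u) [Field K] [NumberField K] (L : Type v) [Field L] [NumberField L] :
    VojtaGauss L ↔ SumG K :=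
  ⟨fun h => sum_of_grow (gauss_any L K h) fun n _ ha => grow_of_gaussK h K n ha,
    fun h => gauss_any K L (gauss_of_sum K h)⟩

/-- The numbers of the points. -/
theorem gauss_iff_countK (K : Type u) [Field K] [NumberField K] (L : Type v) [Field L] [NumberField L] :
    VojtaGauss L ↔ CountG K :=
  ⟨fun h => count_of_sum ((gauss_iff_sumK K L).1 h), fun h => gauss_any K L (gauss_of_count h)⟩

/-- The numbers of the points of rational varieties. -/
theorem gauss_iff_countRatK (K : Type u) [Field K] [NumberField K] (L : Type v) [Field L] [NumberField L] :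
    VojtaGauss L ↔ CountRat K :=
  ⟨fun h => countRat_of_count ((gauss_iff_countK K L).1 h),
    fun h => gauss_any K L ((JAC.rat_iff_gauss K).1 (gaussRat_of_count h))⟩

/-- The bounds with all exponents. -/
theorem gauss_iff_growK (K : Type u) [Field K] [NumberField K] (L : Type v) [Field L] [NumberField L] :
    VojtaGauss L ↔ ∀ (n : ℕ) (α : ℝ), 0 ≤ α → GrowG K n α := by
  constructor
  · exact fun h n α hα => grow_of_gaussK h K n hα
  · intro h
    refine gauss_any K L (gauss_of_gain K fun M => ?_)
    obtain ⟨d, hd⟩ := exists_nat_ge M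
    exact ⟨d, 0, le_rfl, by linarith, h d 0 le_rfl⟩

/-- Any unbounded gain over the trivial exponent. -/
theorem gauss_iff_gainK (K : Type u) [Field K] [NumberField K] (L : Type v) [Field L] [NumberField L] :
    VojtaGauss L ↔ ∀ M : ℝ, ∃ (d : ℕ) (α : ℝ), 0 ≤ α ∧ α + M ≤ d + 1 ∧ GrowG K d α := by
  constructor
  · intro h M
    obtain ⟨d, hd⟩ := exists_nat_ge M
    exact ⟨d, 0, le_rfl, by linarith, grow_of_gaussK h K d le_rfl⟩
  · exact fun h => gauss_any K L (gauss_of_gain K h)

/-- The case `D = 0` for all projective varieties implies Vojta's conjecture and its form with truncated counting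
functions. -/
theorem vojta_of_gaussK {L : Type u} [Field L] [NumberField L] (h : VojtaGauss L) (n : ℕ) :
    Vojta L n ∧ VojtaTrunc L n :=
  (JAC.vojta_of_gauss h n).2

end Pool.Agent.Lib.MP_17a322_nt.MV
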