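import Pool.Agent.Lib.MP_17a322_nt.MV.U1

/-!
The sums over the points: the product with the line.
-/

set_option linter.unusedSectionVars false

universe u

namespace Pool.Agent.Lib.MP_17a322_nt.MV

open MvPolynomial Height NumberField
open Pool.Agent.Lib.MP_17a322_nt.EQ

section

variable {K : Type u} [Field K] [NumberField K] {ι κ β : Type} [Fintype ι] [Fintype κ] [Fintype β]

/-- The sum for the product with the line bounds one for the variety. -/
theorem prod_PhiS1 (γ : Type) [Fintype γ] {F : Pl K → (β ⊕ Bool ⊕ γ → ℝ) → ℝ}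
    {J : Ideal (MvPolynomial ι K)} {n e : ℕ} {f : β → κ → MvPolynomial ι K} (hJ : Smooth J n)
    (hf : Snc J e f) (H : PhiS (pJ J) e (pf e f γ) F) (ε : ℝ) (hε : 0 < ε) :
    ∃ (G : MvPolynomial ι K) (D : ℕ) (A : ℝ), G ∉ J ∧ (∃ d, G.IsHomogeneous d) ∧
      (∀ q : ι → K, IsPt J q → eval q G ≠ 0 → Off f q) ∧
      ∀ P : Finset (ι → K), (∀ p ∈ P, IsPt J p ∧ eval p G ≠ 0) →
        (∀ p ∈ P, ∀ q ∈ P, (∃ a : K, q = a • p) → p = q) → ∀ t : (ι → K) → K, (∀ q ∈ P, t q ≠ 0) →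
        ∃ j : (ι → K) → ℕ, (∀ q ∈ P, 1 ≤ j q ∧ j q ≤ D) ∧
          ∑ q ∈ P, Real.exp (hCan J q - 2 * logHeight₁ ((j q : K) * t q) +
            psum (fun v => F v (xh γ e f q ((j q : K) * t q) v)) -
            ε * (logHeight q + logHeight₁ ((j q : K) * t q))) ≤ A := by
  classical
  obtain ⟨G', A', hG', ⟨d', hd'⟩, -, hP⟩ := H ε hε
  obtain ⟨G₀, D, hG₀, ⟨d₀, hd₀⟩, hE⟩ := pq_exc hG' ⟨d', hd'⟩
  by_cases hpt : ∃ q₀ : ι → K, IsPt J q₀
  · obtain ⟨q₀, hq₀⟩ := hpt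
    have hjex : ∀ b, ∃ j, f b j ∉ J := fun b => hf.exists_notMem hq₀ b
    choose jb hjb using hjex
    have hoff' : ∀ q : ι → K, eval q (G₀ * ∏ b, f b (jb b)) ≠ 0 → eval q G₀ ≠ 0 ∧ Off f q := by
      intro q hqG
      rw [map_mul, map_prod] at hqG
      have h1 : ∏ b, eval q (f b (jb b)) ≠ 0 := right_ne_zero_of_mul hqG
      exact ⟨left_ne_zero_of_mul hqG, fun b => ⟨jb b, Finset.prod_ne_zero_iff.1 h1 b (Finset.mem_univ b)⟩⟩
    refine ⟨G₀ * ∏ b, f b (jb b), D, Real.exp 0 * A', ?_, ⟨d₀ + ∑ _b : β, e, ?_⟩,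
      fun q _ hqG => (hoff' q hqG).2, ?_⟩
    · intro h
      have hprime := hJ.prime
      rcases hprime.mem_or_mem h with h | h
      · exact hG₀ h
      · obtain ⟨b, -, hb⟩ := hprime.prod_mem_iff.1 h
        exact hjb b hb
    · exact hd₀.mul (IsHomogeneous.prod _ _ _ fun b _ => hf.homog b (jb b))
    · intro P hPP hprop t ht
      have hex : ∀ q : ι → K, ∃ j : ℕ, q ∈ P → 1 ≤ j ∧ j ≤ D ∧
          eval (sg q (tv ((j : K) * t q))) G' ≠ 0 := by
        intro q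
        by_cases hq : q ∈ P
        · obtain ⟨j, hj⟩ := hE q (hPP q hq).1 (hoff' q (hPP q hq).2).1 (t q) (ht q hq)
          exact ⟨j, fun _ => hj⟩
        · exact ⟨0, fun h => absurd h hq⟩
      choose j hj using hex
      refine ⟨j, fun q hq => ⟨(hj q hq).1, (hj q hq).2.1⟩, ?_⟩
      refine U1_sum P (fun q => sg q (tv ((j q : K) * t q))) _
        (fun q' => hCan (pJ J) q' + psum (fun v => F v (prf e (pf e f γ) q' v)) - ε * logHeight q')
        (fun q' => IsPt (pJ J) q' ∧ eval q' G' ≠ 0) ?_ ?_ ?_ hprop hP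
      · intro q hq
        exact ⟨pq_IsPt (hPP q hq).1 _, (hj q hq).2.2⟩
      · intro q hq
        obtain ⟨hj1, hjD, hjG⟩ := hj q hq
        have hq1 := (hPP q hq).1
        have hoff := (hoff' q (hPP q hq).2).2
        have hjt : (j q : K) * t q ≠ 0 := by
          refine mul_ne_zero ?_ (ht q hq)
          exact_mod_cast (by omega : j q ≠ 0)
        have hq0 : q ≠ 0 := hq1.1
        have h3 : (fun v => F v (prf e (pf e f γ) (sg q (tv ((j q : K) * t q))) v)) =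
            fun v => F v (xh γ e f q ((j q : K) * t q) v) := by
          funext v
          rw [pq_prf γ hf.pos hf.homog hq0 hoff hjt v]
        simp only [h3]
        rw [pq_height hq0]
        have h4 := hCan_prod hJ (prod_snc hJ hf γ).1 hq1 hjt
        linarith
      · intro q _ q' _ h
        exact U1_sg (w := tv ((j q : K) * t q)) (w' := tv ((j q' : K) * t q')) ⟨true, one_ne_zero⟩ h
  · refine ⟨1, 0, 0, ?_, ⟨0, isHomogeneous_one _ _⟩, ?_, ?_⟩
    · exact (Ideal.ne_top_iff_one J).1 hJ.prime.ne_top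
    · intro q hq
      exact absurd ⟨q, hq⟩ hpt
    · intro P hP _ t _
      have h1 : P = ∅ := Finset.eq_empty_of_forall_notMem fun p hp => hpt ⟨p, (hP p hp).1⟩
      refine ⟨fun _ => 1, ?_, ?_⟩
      · rw [h1]
        intro q hq
        exact absurd hq (Finset.notMem_empty q)
      · rw [h1, Finset.sum_empty]

/-- The product with the projective line. -/
theorem prod_PhiS {Q : ∀ ι : Type, Ideal (MvPolynomial ι K) → Prop} {n : ℕ} (hQ : Cls Q) (γ : Type) [Fintype γ]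
    (F : Pl K → (β ⊕ Bool ⊕ γ → ℝ) → ℝ)
    (H : ∀ (ι κ : Type) [Fintype ι] [Fintype κ] (J : Ideal (MvPolynomial ι K)) (e : ℕ)
      (f : β ⊕ Bool ⊕ γ → κ → MvPolynomial ι K), Q ι J → Smooth J (n + 1) → Snc J e f →
        PhiS J e f F)
    (J : Ideal (MvPolynomial ι K)) (e : ℕ)
    (f : β → κ → MvPolynomial ι K) (hJQ : Q ι J) (hJ : Smooth J n) (hf : Snc J e f) (ε : ℝ)
    (hε : 0 < ε) :
    ∃ (G : MvPolynomial ι K) (D : ℕ) (A : ℝ), G ∉ J ∧ (∃ d, G.IsHomogeneous d) ∧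
      (∀ q : ι → K, IsPt J q → eval q G ≠ 0 → Off f q) ∧
      ∀ P : Finset (ι → K), (∀ p ∈ P, IsPt J p ∧ eval p G ≠ 0) →
        (∀ p ∈ P, ∀ q ∈ P, (∃ a : K, q = a • p) → p = q) → ∀ t : (ι → K) → K, (∀ q ∈ P, t q ≠ 0) →
        ∃ j : (ι → K) → ℕ, (∀ q ∈ P, 1 ≤ j q ∧ j q ≤ D) ∧
          ∑ q ∈ P, Real.exp (hCan J q - 2 * logHeight₁ ((j q : K) * t q) +
            psum (fun v => F v (xh γ e f q ((j q : K) * t q) v)) -
            ε * (logHeight q + logHeight₁ ((j q : K) * t q))) ≤ A := by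
  have h1 := prod_snc hJ hf γ
  exact prod_PhiS1 γ hJ hf (H (ι × Bool) (Ix ι κ Bool) (pJ J) e (pf e f γ) (hQ.prod ι J hJQ)
    h1.1 h1.2) ε hε

end

end Pool.Agent.Lib.MP_17a322_nt.MV
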