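import Pool.Agent.Lib.MP_17a322_nt.EQ.Q5
import Pool.Agent.Lib.MP_17a322_nt.MV.U2

/-!
The sums over the points: the case `D = 0` in dimension `n + 1` implies the one with proximity functions in
dimension `n`.
-/

universe u

namespace Pool.Agent.Lib.MP_17a322_nt.MV

open MvPolynomial Height NumberField
open Pool.Agent.Lib.MP_17a322_nt.EQ

variable {K : Type u} [Field K] [NumberField K]

/-- Vojta's inequality for the sum over the points. -/
def VojtaSAt {ι κ β : Type} [Fintype ι] [Fintype β] (J : Ideal (MvPolynomial ι K)) (e : ℕ)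
    (f : β → κ → MvPolynomial ι K) : Prop :=
  ∀ (S : Finset (FinitePlace K)) (ε : ℝ), 0 < ε →
    ∃ (G : MvPolynomial ι K) (A : ℝ), G ∉ J ∧ (∃ d, G.IsHomogeneous d) ∧
      (∀ p : ι → K, IsPt J p → eval p G ≠ 0 → Off f p) ∧
      ∀ P : Finset (ι → K), (∀ p ∈ P, IsPt J p ∧ eval p G ≠ 0) →
        (∀ p ∈ P, ∀ q ∈ P, (∃ a : K, q = a • p) → p = q) →
        ∑ p ∈ P, Real.exp (hCan J p + ∑ b, prox S e (f b) p - ε * logHeight p) ≤ A

/-- The estimate for one point. -/
theorem U3_pt {ι β κ : Type} [Fintype ι] [Fintype β] [DecidableEq β] [Fintype κ] (e : ℕ)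
    (f : β → κ → MvPolynomial ι K) (hf : ∀ b j, (f b j).IsHomogeneous e) (S : Finset (FinitePlace K)) (ε : ℝ)
    (hε : 0 < ε) :
    ∃ (N : ℕ) (L : List ((β ⊕ Bool ⊕ Fin N) × (β ⊕ Bool ⊕ Fin N) × (β ⊕ Bool ⊕ Fin N))),
      (∀ s ∈ L, s.1 ≠ s.2.1 ∧ s.1 ≠ s.2.2 ∧ s.2.1 ≠ s.2.2) ∧ ∃ ε1 : ℝ, 0 < ε1 ∧ ∀ D : ℕ, ∃ C : ℝ,
      ∀ p : ι → K, p ≠ 0 → Off f p → ∃ t : K, t ≠ 0 ∧ ∀ j : ℕ, 1 ≤ j → j ≤ D →
        ∑ b, prox S e (f b) p - ε * logHeight p ≤ -2 * logHeight₁ ((j : K) * t) +
          psum (fun v => 0 + gain L (xh (Fin N) e f p ((j : K) * t) v)) -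
          ε1 * (logHeight p + logHeight₁ ((j : K) * t)) + C := by
  classical
  set q : ℝ := (Fintype.card β : ℝ) with hq
  have hq0 : 0 ≤ q := Nat.cast_nonneg _
  have he0 : (0 : ℝ) ≤ e := Nat.cast_nonneg _
  set ε1 : ℝ := ε / 2 with hε1
  have hε1p : 0 < ε1 := by positivity
  obtain ⟨m, hm⟩ := exists_nat_gt ((2 + ε1) * q * e / ε1)
  have hm0 : (0 : ℝ) < m := lt_of_le_of_lt (by positivity) hm
  have hm1 : (2 + ε1) * q * e / m ≤ ε1 := by
    rw [div_le_iff₀ hm0]
    rw [div_lt_iff₀ hε1p] at hm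
    linarith
  obtain ⟨N, L, hL, hspec⟩ := hg_exists β m
  refine ⟨N, L, hL, ε1, hε1p, fun D => ?_⟩
  obtain ⟨c, hc0, hcfs, hclow⟩ := hb_lower e f hf
  obtain ⟨C1, hC1⟩ := exists_t_poles (K := K) S
  obtain ⟨C2, hC20, hC2⟩ := hh_nat K D
  set A : ℝ := q * (m * Real.log (D + 1)) with hA
  have hA0 : 0 ≤ m * Real.log (D + 1) :=
    mul_nonneg hm0.le (Real.log_nonneg (by linarith [Nat.cast_nonneg (α := ℝ) D]))
  set B0 : ℝ := psum (fun v : Pl K => if inS S v then A else 0) with hB0
  have hcp : 0 ≤ psum c := hs_nonneg hc0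
  refine ⟨(2 + ε1) * (1 / m * (q * psum c) + C1 + C2) + B0 + 2 ^ L.length * psum c,
    fun p hp0 hoff => ?_⟩
  have hlow : ∀ b v, -c v ≤ prf e f p v b := fun b v => hclow p b hp0 (hoff b) v
  set P : Pl K → ℝ := fun v => ∑ b, max (prf e f p v b) 0 with hP
  have hP0 : ∀ v, 0 ≤ P v := fun v => Finset.sum_nonneg fun b _ => le_max_right _ _
  have hPfs : FS P := hs_fs_sum _ _ fun b _ => hh_fs_plus e f hp0 hoff b
  set M : Pl K → ℝ := fun v => 1 / m * P v with hM
  have hM0 : ∀ v, 0 ≤ M v := fun v => mul_nonneg (by positivity) (hP0 v)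
  have hMfs : FS M := hs_fs_mul _ hPfs
  have hMb : ∀ v b, max (prf e f p v b) 0 ≤ m * M v := by
    intro v b
    have h1 : m * M v = P v := by simp only [hM]; field_simp
    rw [h1]
    exact Finset.single_le_sum (f := fun b => max (prf e f p v b) 0)
      (fun b _ => le_max_right _ _) (Finset.mem_univ b)
  obtain ⟨t, ht0, htS, htw, hth⟩ := hC1 (fun w => M (Sum.inr w)) (fun w => M (Sum.inl w))
    (fun w _ => hM0 _) (fun w => hM0 _)
  refine ⟨t, ht0, fun j hj1 hjD => ?_⟩
  set t' : K := (j : K) * t with ht'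
  have hj0 : (j : K) ≠ 0 := by
    have : j ≠ 0 := by omega
    exact_mod_cast this
  have ht'0 : t' ≠ 0 := mul_ne_zero hj0 ht0
  -- the height of `t`
  have hh1 : logHeight₁ t' ≤ psum M + C1 + C2 := by
    have h1 := hC2 j hjD t
    have h2 : (∑ w ∈ S, M (Sum.inr w)) + ∑ w : InfinitePlace K, (w.mult : ℝ) * M (Sum.inl w)
        = psum (fun v => if inS S v then M v else 0) := by
      rw [hs_ind S M]; ring
    have h3 : psum (fun v => if inS S v then M v else 0) ≤ psum M := by
      refine hs_mono (hs_fs_ind S M) hMfs fun v => ?_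
      split_ifs
      · exact le_refl _
      · exact hM0 v
    rw [h2] at hth
    linarith
  have hh2 : psum M ≤ 1 / m * (q * (e * logHeight p + psum c)) := by
    have h1 : psum M = 1 / m * psum P := hs_mul _ _
    rw [h1]
    exact mul_le_mul_of_nonneg_left (hh_plus e f hp0 hoff c hc0 hcfs hlow) (by positivity)
  -- the lower bound
  have hlogav : ∀ v : Pl K, inS S v → M v - Real.log (D + 1) ≤ -Real.log (av v t') := by
    rintro (w | w) hw
    · have h1 : av (Sum.inl w) t' = j * w.val t := hh_inf_nat w j t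
      have h2 : (0 : ℝ) < j := by exact_mod_cast (by omega : 0 < j)
      have h3 : Real.log (w.val t) ≤ -M (Sum.inl w) := by
        have := Real.log_le_log (w.val.pos ht0) (htw w)
        rwa [Real.log_exp] at this
      have h4 : Real.log j ≤ Real.log (D + 1) := by
        refine Real.log_le_log h2 ?_
        have : (j : ℝ) ≤ D := by exact_mod_cast hjD
        linarith
      rw [h1, Real.log_mul h2.ne' (w.val.pos ht0).ne']
      linarith
    · have h1 : av (Sum.inr w) t' ≤ w.val t := hh_fin_nat_le w j t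
      have h3 : Real.log (w.val t) ≤ -M (Sum.inr w) := by
        have := Real.log_le_log (w.val.pos ht0) (htS w hw)
        rwa [Real.log_exp] at this
      have h4 := Real.log_le_log ((av (Sum.inr w)).pos ht'0) h1
      have h5 : 0 ≤ Real.log ((D : ℝ) + 1) :=
        Real.log_nonneg (by linarith [Nat.cast_nonneg (α := ℝ) D])
      linarith
  have hT0 : ∀ v : Pl K, -Real.log (av v t') ≤ l1 v t' - Real.log (av v t') := fun v => by
    linarith [hl_l1_nonneg v t']
  have hpt : ∀ v : Pl K, (if inS S v then ∑ b, prf e f p v b else 0)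
      + ((-1) * (if inS S v then A else 0) + (-(2 ^ L.length)) * c v)
      ≤ 0 + gain L (xh (Fin N) e f p t' v) := by
    intro v
    have h1 := (hspec (xh (Fin N) e f p t' v) (c v) (hc0 v) (fun b => hlow b v)
      (fun j => by
        cases j
        · have := hl_log_le_l1 v t'
          simpa [xh] using this
        · simpa [xh] using hl_l1_nonneg v t')
      (fun i => rfl)).1
    have h2 : (if inS S v then ∑ b, prf e f p v b else 0) + (-1) * (if inS S v then A else 0)
        ≤ ∑ b, min (max (xh (Fin N) e f p t' v (Sum.inl b)) 0)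
          (m * xh (Fin N) e f p t' v (Sum.inr (Sum.inl false))) := by
      have e1 : xh (Fin N) e f p t' v (Sum.inr (Sum.inl false))
          = l1 v t' - Real.log (av v t') := by simp [xh]
      rw [e1]
      have hT : 0 ≤ l1 v t' - Real.log (av v t') := by linarith [hl_log_le_l1 v t']
      split_ifs with hv
      · have h3 : ∀ b, prf e f p v b - m * Real.log (D + 1)
            ≤ min (max (xh (Fin N) e f p t' v (Sum.inl b)) 0)
              (m * (l1 v t' - Real.log (av v t'))) := by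
          intro b
          have e2 : xh (Fin N) e f p t' v (Sum.inl b) = prf e f p v b := rfl
          rw [e2]
          refine le_min ?_ ?_
          · linarith [le_max_left (prf e f p v b) 0]
          · have h4 := hMb v b
            have h5 := mul_le_mul_of_nonneg_left ((hlogav v hv).trans (hT0 v)) hm0.le
            have h6 := le_max_left (prf e f p v b) 0
            linarith
        have h7 := Finset.sum_le_sum fun b (_ : b ∈ Finset.univ) => h3 b
        rw [Finset.sum_sub_distrib, Finset.sum_const, Finset.card_univ, nsmul_eq_mul, ← hq,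
          ← hA] at h7
        linarith
      · rw [mul_zero, add_zero]
        exact Finset.sum_nonneg fun b _ => le_min (le_max_right _ _)
          (mul_nonneg hm0.le hT)
    linarith
  have hfs1 : FS (fun v : Pl K => if inS S v then ∑ b, prf e f p v b else 0) :=
    hs_fs_ind S fun v => ∑ b, prf e f p v b
  have hfs2 : FS (fun v : Pl K => (-1) * (if inS S v then A else 0)) :=
    hs_fs_mul _ (hs_fs_ind S fun _ => A)
  have hfs3 : FS (fun v : Pl K => (-(2 ^ L.length) : ℝ) * c v) := hs_fs_mul _ hcfs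
  have hfs4 : FS (fun v : Pl K => 0 + gain L (xh (Fin N) e f p t' v)) := by
    refine hs_fs_of (α := β ⊕ Bool ⊕ Fin N) (fun a v => xh (Fin N) e f p t' v a)
      (fun a => hg_fs_xh (Fin N) e f hp0 hoff ht'0 a) _ fun w hw => ?_
    have : xh (Fin N) e f p t' (Sum.inr w) = 0 := funext hw
    rw [this, hg_gain_zero, add_zero]
  have hps := hs_mono (hs_fs_add hfs1 (hs_fs_add hfs2 hfs3)) hfs4 hpt
  rw [hs_add hfs1 (hs_fs_add hfs2 hfs3), hs_add hfs2 hfs3, hs_mul, hs_mul, ← hB0] at hps
  have hprox : psum (fun v : Pl K => if inS S v then ∑ b, prf e f p v b else 0)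
      = ∑ b, prox S e (f b) p := hz_prox S e f p
  rw [hprox] at hps
  -- the conclusion
  have hmul := mul_le_mul_of_nonneg_left (hh1.trans (add_le_add_left (add_le_add_left hh2 C1) C2))
    (show (0 : ℝ) ≤ 2 + ε1 by positivity)
  have hfin : (2 + ε1) * q * e / m * logHeight p ≤ ε1 * logHeight p :=
    mul_le_mul_of_nonneg_right hm1 (logHeight_nonneg _)
  have e3 : (2 + ε1) * (1 / m * (q * (e * logHeight p + psum c)) + C1 + C2)
      = (2 + ε1) * q * e / m * logHeight p + (2 + ε1) * (1 / m * (q * psum c) + C1 + C2) := by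
    field_simp
    ring
  rw [e3] at hmul
  have e4 : ε * logHeight p = ε1 * logHeight p + ε1 * logHeight p := by rw [hε1]; ring
  rw [e4]
  linarith


/-- The case `D = 0` in dimension `n + 1` implies the one with proximity functions in dimension `n`. -/
theorem zero_to_vojtaS {Q : ∀ ι : Type, Ideal (MvPolynomial ι K) → Prop} (hQ : Cls Q) (n : ℕ)
    (H : ∀ (ι κ β : Type) [Fintype ι] [Fintype κ] [Fintype β] (J : Ideal (MvPolynomial ι K)) (e : ℕ)
      (f : β → κ → MvPolynomial ι K), Q ι J → Smooth J (n + 1) → Snc J e f → PhiS J e f (fun _ _ => 0))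
    (ι β κ : Type) [Fintype ι] [Fintype β] [Fintype κ] (J : Ideal (MvPolynomial ι K)) (e : ℕ)
    (f : β → κ → MvPolynomial ι K) (hJQ : Q ι J) (hJ : Smooth J n) (hf : Snc J e f) :
    VojtaSAt J e f := by
  classical
  intro S ε hε
  obtain ⟨N, L, hL, ε1, hε1, hpt⟩ := U3_pt e f hf.homog S ε hε
  obtain ⟨G, D, A, hG, hGh, hoff, hmain⟩ := prod_PhiS (n := n) hQ (Fin N) (fun v x => 0 + gain L x)
    (fun ι κ _ _ J e f hJQ hJ hf => run_PhiS hQ (fun _ _ => 0) (fun _ => rfl)
      (fun ι κ _ _ J e f hJQ hJ hf => H ι κ _ J e f hJQ hJ hf) L hL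
      ι κ J e f hJQ hJ hf) J e f hJQ hJ hf ε1 hε1
  obtain ⟨C, hC⟩ := hpt D
  refine ⟨G, Real.exp C * A, hG, hGh, hoff, fun P hP hprop => ?_⟩
  have hex : ∀ p : ι → K, ∃ t : K, p ∈ P → t ≠ 0 ∧ ∀ j : ℕ, 1 ≤ j → j ≤ D →
      ∑ b, prox S e (f b) p - ε * logHeight p ≤ -2 * logHeight₁ ((j : K) * t) +
        psum (fun v => 0 + gain L (xh (Fin N) e f p ((j : K) * t) v)) -
        ε1 * (logHeight p + logHeight₁ ((j : K) * t)) + C := by
    intro p
    by_cases hp : p ∈ P
    · obtain ⟨t, h1, h2⟩ := hC p (hP p hp).1.1 (hoff p (hP p hp).1 (hP p hp).2)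
      exact ⟨t, fun _ => ⟨h1, h2⟩⟩
    · exact ⟨0, fun h => absurd h hp⟩
  choose t ht using hex
  obtain ⟨j, hj, hsum⟩ := hmain P hP hprop t fun q hq => (ht q hq).1
  refine le_trans ?_ (mul_le_mul_of_nonneg_left hsum (Real.exp_pos C).le)
  rw [Finset.mul_sum]
  refine Finset.sum_le_sum fun p hp => ?_
  rw [← Real.exp_add, Real.exp_le_exp]
  have h1 := (ht p hp).2 (j p) (hj p hp).1 (hj p hp).2
  linarith

end Pool.Agent.Lib.MP_17a322_nt.MV
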