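import Pool.Agent.Lib.MP_17a322_nt.EQ.Defs

/-!
Vojta's conjecture and its form with truncated counting functions, for sums over the points: definitions.
-/

universe u

namespace Pool.Agent.Lib.MP_17a322_nt.MV

open MvPolynomial Height NumberField
open Pool.Agent.Lib.MP_17a322_nt.EQ

/-- Vojta's conjecture with truncated counting functions (see `VojtaTrunc`) for the sum over all points: for smooth
projective varieties `X` of dimension `n` over `K`, smooth divisors `D_b` which meet transversally, `D = ∑ D_b`, every
finite set `S` of finite places (together with all infinite places) and every `ε > 0` there is a proper closed subset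
`G = 0` of `X`, which contains all points of `D` over `K`, such that the sum of the numbers
`exp (h_{K_X}(p) + h_D(p) - N^(1)_S(D, p) - ε h(p))` over the points `p` of `X` over `K` outside it converges. (`P` is a
finite set of points, given by vectors no two of which are proportional; `A` is a bound for all finite partial sums.)
`VojtaTrunc` says that these numbers are bounded. -/
def SumTrunc (K : Type u) [Field K] [NumberField K] (n : ℕ) : Prop :=
  ∀ (ι β κ : Type) [Fintype ι] [Fintype β] [Fintype κ] (J : Ideal (MvPolynomial ι K)) (e : ℕ)
    (f : β → κ → MvPolynomial ι K), Smooth J n → Snc J e f →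
    ∀ (S : Finset (FinitePlace K)) (ε : ℝ), 0 < ε →
    ∃ (G : MvPolynomial ι K) (A : ℝ), G ∉ J ∧ (∃ d, G.IsHomogeneous d) ∧
      (∀ p : ι → K, IsPt J p → eval p G ≠ 0 → ∀ b, ∃ j, eval p (f b j) ≠ 0) ∧
      ∀ P : Finset (ι → K), (∀ p ∈ P, IsPt J p ∧ eval p G ≠ 0) →
        (∀ p ∈ P, ∀ q ∈ P, (∃ a : K, q = a • p) → p = q) →
        ∑ p ∈ P, Real.exp (hCan J p + ∑ b, (e * logHeight p - logHeight fun j => eval p (f b j)) -
          trunc S e f p - ε * logHeight p) ≤ A

end Pool.Agent.Lib.MP_17a322_nt.MV
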