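import Pool.Agent.Lib.MP_17a322_nt.EQ.Q7
import Pool.Agent.Lib.MP_17a322_nt.MV.UDefs
import Pool.Agent.Lib.MP_17a322_nt.MV.U3

/-!
The sums over the points: the sum with proximity functions in dimension `n + 1` bounds the one with truncated counting
functions in dimension `n`.
-/

universe u

namespace Pool.Agent.Lib.MP_17a322_nt.MV

open MvPolynomial Height NumberField
open Pool.Agent.Lib.MP_17a322_nt.EQ

variable {K : Type u} [Field K] [NumberField K]

/-- The labels of the divisors `D_b` and of the fibre over `∞`. -/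
def U4_g {β : Type} (N : ℕ) (o : Option β) : β ⊕ Bool ⊕ Fin N := match o with
  | some b => Sum.inl b
  | none => Sum.inr (Sum.inl true)

open Classical in
/-- The functional. -/
noncomputable def U4_F {β : Type} [Fintype β] (S : Finset (FinitePlace K)) (N : ℕ) (v : Pl K)
    (x : β ⊕ Bool ⊕ Fin N → ℝ) : ℝ := if inS S v then ∑ o, x (U4_g N o) else 0

/-- The estimate for one point. -/
theorem U4_pt {ι β κ : Type} [Fintype ι] [Fintype β] [DecidableEq β] [Fintype κ] (e : ℕ)
    (f : β → κ → MvPolynomial ι K) (hf : ∀ b j, (f b j).IsHomogeneous e) (S : Finset (FinitePlace K)) (ε : ℝ)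
    (hε : 0 < ε) :
    ∃ (N : ℕ) (L : List ((β ⊕ Bool ⊕ Fin N) × (β ⊕ Bool ⊕ Fin N) × (β ⊕ Bool ⊕ Fin N))),
      (∀ s ∈ L, s.1 ≠ s.2.1 ∧ s.1 ≠ s.2.2 ∧ s.2.1 ≠ s.2.2) ∧ ∃ ε1 : ℝ, 0 < ε1 ∧ ∀ D : ℕ, ∃ C : ℝ,
      ∀ p : ι → K, p ≠ 0 → Off f p → ∃ t : K, t ≠ 0 ∧ ∀ j : ℕ, 1 ≤ j → j ≤ D →
        ∑ b, (e * logHeight p - logHeight fun j => eval p (f b j)) - trunc S e f p - ε * logHeight p ≤
          -2 * logHeight₁ ((j : K) * t) +
          psum (fun v => U4_F S N v (run L (xh (Fin N) e f p ((j : K) * t) v)) +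
            gain L (xh (Fin N) e f p ((j : K) * t) v)) -
          ε1 * (logHeight p + logHeight₁ ((j : K) * t)) + C := by
  classical
  set q : ℝ := (Fintype.card β : ℝ) with hq
  have hq0 : 0 ≤ q := Nat.cast_nonneg _
  have he0 : (0 : ℝ) ≤ e := Nat.cast_nonneg _
  set ε1 : ℝ := ε / 2 / (1 + q * e) with hε1
  have hqe : 0 < 1 + q * e := by positivity
  have hε1p : 0 < ε1 := by positivity
  have hε1e : ε1 * (1 + q * e) = ε / 2 := by rw [hε1]; field_simp
  obtain ⟨m, hm⟩ := exists_nat_gt ((1 + ε1) * q * e / (ε / 2))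
  have hm0 : (0 : ℝ) < m := lt_of_le_of_lt (by positivity) hm
  have hm1 : (1 + ε1) * q * e / m ≤ ε / 2 := by
    rw [div_le_iff₀ hm0]
    rw [div_lt_iff₀ (by positivity)] at hm
    linarith
  obtain ⟨N, L, hL, hspec⟩ := hg_exists β m
  refine ⟨N, L, hL, ε1, hε1p, fun D => ?_⟩
  set Fn : Pl K → (β ⊕ Bool ⊕ Fin N → ℝ) → ℝ := U4_F S N with hFn
  have hFn0 : ∀ v, Fn v 0 = 0 := fun v => by simp [hFn, U4_F]
  obtain ⟨c, hc0, hcfs, hclow⟩ := hb_lower e f hf
  obtain ⟨C1, hC1⟩ := exists_t_integral K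
  obtain ⟨C2, hC20, hC2⟩ := hh_nat K D
  have hcp : 0 ≤ psum c := hs_nonneg hc0
  set E : ℝ := (q + 1) * 2 ^ L.length with hE
  refine ⟨(1 + ε1) * (1 / m * (q * psum c) + C1 + C2) + ε1 * (q * psum c) + E * psum c,
    fun p hp0 hoff => ?_⟩
  have hlow : ∀ b v, -c v ≤ prf e f p v b := fun b v => hclow p b hp0 (hoff b) v
  set P : Pl K → ℝ := fun v => ∑ b, max (prf e f p v b) 0 with hP
  have hP0 : ∀ v, 0 ≤ P v := fun v => Finset.sum_nonneg fun b _ => le_max_right _ _
  have hPfs : FS P := hs_fs_sum _ _ fun b _ => hh_fs_plus e f hp0 hoff b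
  have hPb : ∀ v b, max (prf e f p v b) 0 ≤ P v := fun v b =>
    Finset.single_le_sum (f := fun b => max (prf e f p v b) 0)
      (fun b _ => le_max_right _ _) (Finset.mem_univ b)
  have hlq : ∀ w : FinitePlace K, 0 < Real.log (qv w) := fun w => Real.log_pos (one_lt_qv w)
  set T : Finset (FinitePlace K) := (ht_finite S e f hp0 hoff).toFinset with hT
  have hTr : trunc S e f p = ∑ w ∈ T, Real.log (qv w) := ht_trunc S e f hp0 hoff
  set k : FinitePlace K → ℕ := fun w => ⌈P (Sum.inr w) / (m * Real.log (qv w))⌉₊ with hk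
  have hk1 : ∀ w, P (Sum.inr w) ≤ m * (k w * Real.log (qv w)) := by
    intro w
    have h1 := Nat.le_ceil (P (Sum.inr w) / (m * Real.log (qv w)))
    rw [div_le_iff₀ (mul_pos hm0 (hlq w))] at h1
    calc _ ≤ _ := h1
      _ = _ := by ring
  have hk2 : ∀ w, k w * Real.log (qv w) ≤ 1 / m * P (Sum.inr w) + Real.log (qv w) := by
    intro w
    have h1 := (Nat.ceil_lt_add_one (div_nonneg (hP0 (Sum.inr w))
      (mul_pos hm0 (hlq w)).le)).le
    calc (k w : ℝ) * Real.log (qv w)
        ≤ (P (Sum.inr w) / (m * Real.log (qv w)) + 1) * Real.log (qv w) :=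
          mul_le_mul_of_nonneg_right h1 (hlq w).le
      _ = _ := by
        have := (hlq w).ne'
        field_simp
  obtain ⟨t, ht0, htT, htint, hth⟩ := hC1 T k
  refine ⟨t, ht0, fun j hj1 hjD => ?_⟩
  set t' : K := (j : K) * t with ht'
  have hj0 : (j : K) ≠ 0 := by
    have : j ≠ 0 := by omega
    exact_mod_cast this
  have ht'0 : t' ≠ 0 := mul_ne_zero hj0 ht0
  -- the height of `t`
  have hPp : psum P ≤ q * (e * logHeight p + psum c) :=
    hh_plus e f hp0 hoff c hc0 hcfs hlow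
  have hTP : ∀ T' : Finset (FinitePlace K), ∑ w ∈ T', P (Sum.inr w) ≤ psum P := fun T' =>
    ht_sum_le T' P hP0 hPfs
  have hh1 : logHeight₁ t' ≤ 1 / m * psum P + trunc S e f p + C1 + C2 := by
    have h1 := hC2 j hjD t
    have h2 := Finset.sum_le_sum fun w (_ : w ∈ T) => hk2 w
    rw [Finset.sum_add_distrib, ← Finset.mul_sum, ← hTr] at h2
    have h3 := mul_le_mul_of_nonneg_left (hTP T) (show (0 : ℝ) ≤ 1 / m by positivity)
    linarith
  have hh2 : trunc S e f p ≤ psum P := by
    rw [hTr]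
    refine (Finset.sum_le_sum fun w hw => ?_).trans (hTP T)
    rw [hT, Set.Finite.mem_toFinset] at hw
    obtain ⟨-, b, hb⟩ := hw
    exact ((hb_int e (f b) w hp0 (hoff b) hb).trans (le_max_left _ _)).trans
      (hPb (Sum.inr w) b)
  -- the lower bound
  have hfin : ∀ w : FinitePlace K, w.val t' ≤ 1 := fun w =>
    (hh_fin_nat_le w j t).trans (htint w)
  have hl1 : ∀ w : FinitePlace K, l1 (Sum.inr w) t' = 0 := fun w => by
    have : max (av (Sum.inr w) t') 1 = 1 := max_eq_right (hfin w)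
    rw [l1, this, Real.log_one]
  have hpt : ∀ v : Pl K, P v + (l1 v t' + (-E) * c v)
      ≤ Fn v (run L (xh (Fin N) e f p t' v)) + gain L (xh (Fin N) e f p t' v) := by
    intro v
    obtain ⟨h1, h2, h3⟩ := hspec (xh (Fin N) e f p t' v) (c v) (hc0 v) (fun b => hlow b v)
      (fun j => by
        cases j
        · have := hl_log_le_l1 v t'
          simpa [xh] using this
        · simpa [xh] using hl_l1_nonneg v t')
      (fun i => rfl)
    have e1 : xh (Fin N) e f p t' v (Sum.inr (Sum.inl false))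
        = l1 v t' - Real.log (av v t') := by simp [xh]
    have e2 : ∀ b, xh (Fin N) e f p t' v (Sum.inl b) = prf e f p v b := fun b => rfl
    have e3 : xh (Fin N) e f p t' v (Sum.inr (Sum.inl true)) = l1 v t' := by simp [xh]
    rw [e3] at h3
    simp only [e1, e2] at h1 h2
    by_cases hv : inS S v
    · have h4 : Fn v (run L (xh (Fin N) e f p t' v)) = l1 v t'
          + ∑ b, run L (xh (Fin N) e f p t' v) (Sum.inl b) := by
        simp only [hFn, U4_F, if_pos hv, Fintype.sum_option, U4_g]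
        rw [← h3]
      have h5 := Finset.sum_le_sum fun b (_ : b ∈ Finset.univ) => h2 b
      rw [Finset.sum_sub_distrib, Finset.sum_sub_distrib, Finset.sum_const, Finset.card_univ,
        nsmul_eq_mul, ← hq] at h5
      have h6 : E * c v = q * (2 ^ L.length * c v) + 2 ^ L.length * c v := by rw [hE]; ring
      rw [h4]
      have h7 : P v = ∑ b, max (prf e f p v b) 0 := rfl
      linarith
    · have h4 : Fn v (run L (xh (Fin N) e f p t' v)) = 0 := by
        simp only [hFn, U4_F, if_neg hv]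
      rcases v with w | w
      · exact absurd trivial hv
      have h5 : P (Sum.inr w) ≤ ∑ b, min (max (prf e f p (Sum.inr w) b) 0)
          (m * (l1 (Sum.inr w) t' - Real.log (av (Sum.inr w) t'))) := by
        refine Finset.sum_le_sum fun b _ => le_min (le_refl _) ?_
        have hT0 : 0 ≤ l1 (Sum.inr w) t' - Real.log (av (Sum.inr w) t') := by
          linarith [hl_log_le_l1 (Sum.inr w) t']
        by_cases hw : w ∈ T
        · refine (hPb (Sum.inr w) b).trans ((hk1 w).trans
            (mul_le_mul_of_nonneg_left ?_ hm0.le))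
          have hq1 : 0 < qv w ^ k w := pow_pos (lt_trans one_pos (one_lt_qv w)) _
          have h6 : w.val t * qv w ^ k w ≤ 1 := htT w hw
          have h7 : Real.log (w.val t) + k w * Real.log (qv w) ≤ 0 := by
            rw [← Real.log_pow, ← Real.log_mul (w.val.pos ht0).ne' hq1.ne']
            exact Real.log_nonpos (mul_nonneg (w.val.nonneg _) hq1.le) h6
          have h8 : Real.log (av (Sum.inr w) t') ≤ Real.log (w.val t) :=
            Real.log_le_log ((av (Sum.inr w)).pos ht'0) (hh_fin_nat_le w j t)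
          have h9 := hl_l1_nonneg (Sum.inr w) t'
          linarith
        · have h6 : prf e f p (Sum.inr w) b ≤ 0 := by
            by_contra hc
            push Not at hc
            refine hw ?_
            rw [hT, Set.Finite.mem_toFinset]
            exact ⟨hv, b, hc⟩
          rw [max_eq_right h6]
          exact mul_nonneg hm0.le hT0
      have h6 : (0 : ℝ) ≤ q * (2 ^ L.length * c (Sum.inr w)) :=
        mul_nonneg hq0 (mul_nonneg (by positivity) (hc0 _))
      have h7 : E * c (Sum.inr w) = q * (2 ^ L.length * c (Sum.inr w))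
          + 2 ^ L.length * c (Sum.inr w) := by rw [hE]; ring
      rw [h4, hl1 w]
      linarith
  have hfs1 := hl_fs_l1 (K := K) t'
  have hfs2 : FS (fun v : Pl K => (-E) * c v) := hs_fs_mul _ hcfs
  have hfs4 : FS (fun v : Pl K => Fn v (run L (xh (Fin N) e f p t' v))
      + gain L (xh (Fin N) e f p t' v)) := by
    refine hs_fs_of (α := β ⊕ Bool ⊕ Fin N) (fun a v => xh (Fin N) e f p t' v a)
      (fun a => hg_fs_xh (Fin N) e f hp0 hoff ht'0 a) _ fun w hw => ?_
    have : xh (Fin N) e f p t' (Sum.inr w) = 0 := funext hw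
    rw [this, hg_gain_zero, hg_run_zero, hFn0, add_zero]
  have hps := hs_mono (hs_fs_add hPfs (hs_fs_add hfs1 hfs2)) hfs4 hpt
  rw [hs_add hPfs (hs_fs_add hfs1 hfs2), hs_add hfs1 hfs2, hs_mul, hl_psum_l1] at hps
  -- the height with respect to the divisors
  have hdiv : ∑ b, (e * logHeight p - logHeight fun j => eval p (f b j)) ≤ psum P := by
    rw [hP, hs_sum _ _ fun b _ => hh_fs_plus e f hp0 hoff b]
    refine Finset.sum_le_sum fun b _ => ?_
    rw [← hl_psum_lam e (f b) hp0 (hoff b)]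
    exact hs_mono (hl_fs_lam e (f b) hp0 (hoff b)) (hh_fs_plus e f hp0 hoff b)
      fun v => le_max_left _ _
  -- the conclusion
  have hh0 : 0 ≤ logHeight p := logHeight_nonneg _
  have a1 := mul_le_mul_of_nonneg_left hh1 (show (0 : ℝ) ≤ 1 + ε1 by positivity)
  have a2 := mul_le_mul_of_nonneg_left hPp (show (0 : ℝ) ≤ (1 + ε1) * (1 / m) by positivity)
  have a3 := mul_le_mul_of_nonneg_left (hh2.trans hPp) hε1p.le
  have a4 : (1 + ε1) * q * e / m * logHeight p ≤ ε / 2 * logHeight p :=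
    mul_le_mul_of_nonneg_right hm1 hh0
  have a5 : (1 + ε1) * (1 / m) * (q * (e * logHeight p + psum c))
      = (1 + ε1) * q * e / m * logHeight p + (1 + ε1) * (1 / m * (q * psum c)) := by
    field_simp
  have a6 : ε1 * (q * (e * logHeight p + psum c)) + ε1 * logHeight p
      = ε1 * (1 + q * e) * logHeight p + ε1 * (q * psum c) := by ring
  rw [hε1e] at a6
  have a7 : (1 + ε1) * (1 / m * psum P + trunc S e f p + C1 + C2)
      = (1 + ε1) * (1 / m) * psum P + trunc S e f p + ε1 * trunc S e f p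
        + (1 + ε1) * (C1 + C2) := by ring
  have a8 : ε * logHeight p = ε / 2 * logHeight p + ε / 2 * logHeight p := by ring
  rw [a8]
  rw [a7] at a1
  rw [a5] at a2
  linarith


/-- The sum for the variety with proximity functions, as a sum for a functional. -/
theorem U4_phi {ι κ β α : Type} [Fintype ι] [Fintype κ] [Fintype β] [Fintype α] {J : Ideal (MvPolynomial ι K)}
    (hJ : J.IsPrime) (e : ℕ) (f : β → κ → MvPolynomial ι K) (hf : Snc J e f) (g : α → β)
    (H : VojtaSAt J e fun a => f (g a)) (S : Finset (FinitePlace K)) :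
    PhiS J e f (open Classical in fun v x => if inS S v then ∑ a, x (g a) else 0) := by
  classical
  intro ε hε
  obtain ⟨G, A, h1, ⟨d, h2⟩, -, h3⟩ := H S ε hε
  obtain ⟨G', h1', ⟨d', h2'⟩, h3'⟩ := hz_exists_off hJ hf
  refine ⟨G * G', A, hz_mul_notMem hJ h1 h1', ⟨_, h2.mul h2'⟩, fun q hq hG => ?_, fun P hP hprop => ?_⟩
  · rw [map_mul] at hG
    exact h3' q hq (right_ne_zero_of_mul hG)
  · refine le_trans (le_of_eq ?_) (h3 P (fun p hp => ⟨(hP p hp).1, ?_⟩) hprop)
    · refine Finset.sum_congr rfl fun q hq => ?_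
      have h5 := hz_prox S e (fun a => f (g a)) q
      have h6 : (fun v : Pl K => if inS S v then ∑ a, prf e f q v (g a) else 0)
          = fun v : Pl K => if inS S v then ∑ a, prf e (fun a => f (g a)) q v a else 0 := rfl
      rw [h6, h5]
    · have h4 := (hP p hp).2
      rw [map_mul] at h4
      exact left_ne_zero_of_mul h4

/-- The sum with proximity functions in dimension `n + 1` bounds the one with truncated counting functions in
dimension `n`. -/
theorem vojtaS_to_truncS {Q : ∀ ι : Type, Ideal (MvPolynomial ι K) → Prop} (hQ : Cls Q) (n : ℕ)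
    (H : ∀ (ι β κ : Type) [Fintype ι] [Fintype β] [Fintype κ] (J : Ideal (MvPolynomial ι K))
      (e : ℕ) (f : β → κ → MvPolynomial ι K), Q ι J → Smooth J (n + 1) → Snc J e f →
      VojtaSAt J e f)
    (ι β κ : Type) [Fintype ι] [Fintype β] [Fintype κ] (J : Ideal (MvPolynomial ι K)) (e : ℕ)
    (f : β → κ → MvPolynomial ι K) (hJQ : Q ι J) (hJ : Smooth J n) (hf : Snc J e f)
    (S : Finset (FinitePlace K)) (ε : ℝ) (hε : 0 < ε) :
    ∃ (G : MvPolynomial ι K) (A : ℝ), G ∉ J ∧ (∃ d, G.IsHomogeneous d) ∧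
      (∀ p : ι → K, IsPt J p → eval p G ≠ 0 → ∀ b, ∃ j, eval p (f b j) ≠ 0) ∧
      ∀ P : Finset (ι → K), (∀ p ∈ P, IsPt J p ∧ eval p G ≠ 0) →
        (∀ p ∈ P, ∀ q ∈ P, (∃ a : K, q = a • p) → p = q) →
        ∑ p ∈ P, Real.exp (hCan J p + ∑ b, (e * logHeight p - logHeight fun j => eval p (f b j)) -
          trunc S e f p - ε * logHeight p) ≤ A := by
  classical
  obtain ⟨N, L, hL, ε1, hε1, hpt⟩ := U4_pt e f hf.homog S ε hε
  have hginj : Function.Injective (U4_g (β := β) N) := by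
    rintro (_ | a) (_ | b) h
    · rfl
    · simp [U4_g] at h
    · simp [U4_g] at h
    · simpa [U4_g] using h
  obtain ⟨G, D, A, hG, hGh, hoff, hmain⟩ := prod_PhiS (n := n) hQ (Fin N)
    (fun v x => U4_F S N v (run L x) + gain L x)
    (fun ι κ _ _ J e f hJQ hJ hf => run_PhiS hQ (U4_F S N) (fun v => by simp [U4_F])
      (fun ι κ _ _ J e f hJQ hJ hf => U4_phi hJ.prime e f hf (U4_g N)
        (H ι (Option β) κ J e (fun o => f (U4_g N o)) hJQ hJ (hz_snc_comp hf (U4_g N) hginj)) S) L hL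
      ι κ J e f hJQ hJ hf) J e f hJQ hJ hf ε1 hε1
  obtain ⟨C, hC⟩ := hpt D
  refine ⟨G, Real.exp C * A, hG, hGh, hoff, fun P hP hprop => ?_⟩
  have hex : ∀ p : ι → K, ∃ t : K, p ∈ P → t ≠ 0 ∧ ∀ j : ℕ, 1 ≤ j → j ≤ D →
      ∑ b, (e * logHeight p - logHeight fun j => eval p (f b j)) - trunc S e f p - ε * logHeight p ≤
        -2 * logHeight₁ ((j : K) * t) +
        psum (fun v => U4_F S N v (run L (xh (Fin N) e f p ((j : K) * t) v)) +
          gain L (xh (Fin N) e f p ((j : K) * t) v)) -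
        ε1 * (logHeight p + logHeight₁ ((j : K) * t)) + C := by
    intro p
    by_cases hp : p ∈ P
    · obtain ⟨t, h1, h2⟩ := hC p (hP p hp).1.1 (hoff p (hP p hp).1 (hP p hp).2)
      exact ⟨t, fun _ => ⟨h1, h2⟩⟩
    · exact ⟨0, fun h => absurd h hp⟩
  choose t ht using hex
  obtain ⟨j, hj, hsum⟩ := hmain P hP hprop t fun q hq => (ht q hq).1
  refine le_trans ?_ (mul_le_mul_of_nonneg_left hsum (Real.exp_pos C).le)
  rw [Finset.mul_sum]
  refine Finset.sum_le_sum fun p hp => ?_
  rw [← Real.exp_add, Real.exp_le_exp]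
  have h1 := (ht p hp).2 (j p) (hj p hp).1 (hj p hp).2
  linarith

/-- The sum of the numbers `exp (hCan(p) - ε h(p))` over all points of smooth varieties. -/
def SumZero (K : Type u) [Field K] [NumberField K] (n : ℕ) : Prop :=
  ∀ (ι : Type) [Fintype ι] (J : Ideal (MvPolynomial ι K)), Smooth J n → ∀ ε : ℝ, 0 < ε →
    ∃ (G : MvPolynomial ι K) (A : ℝ), G ∉ J ∧ (∃ d, G.IsHomogeneous d) ∧
      ∀ P : Finset (ι → K), (∀ p ∈ P, IsPt J p ∧ eval p G ≠ 0) →
        (∀ p ∈ P, ∀ q ∈ P, (∃ a : K, q = a • p) → p = q) →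
        ∑ p ∈ P, Real.exp (hCan J p - ε * logHeight p) ≤ A

/-- The sums with `D = 0` in dimension `n + 2` bound the sums with truncated counting functions in dimension `n`. -/
theorem sumTrunc_of_zero {n : ℕ} (h : SumZero K (n + 2)) : SumTrunc K n := by
  intro ι β κ _ _ _ J e f hJ hf S ε hε
  refine vojtaS_to_truncS hz_cls_true n (fun ι β κ _ _ _ J e f _ hJ hf => ?_) ι β κ J e f trivial hJ hf S ε hε
  refine zero_to_vojtaS hz_cls_true (n + 1) (fun ι κ β _ _ _ J e f _ hJ hf => ?_) ι β κ J e f trivial hJ hf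
  intro ε hε
  obtain ⟨G, A, h1, ⟨d, h2⟩, h3⟩ := h ι J hJ ε hε
  obtain ⟨G', h1', ⟨d', h2'⟩, h3'⟩ := hz_exists_off hJ.prime hf
  refine ⟨G * G', A, hz_mul_notMem hJ.prime h1 h1', ⟨_, h2.mul h2'⟩, fun q hq hG => ?_, fun P hP hprop => ?_⟩
  · rw [map_mul] at hG
    exact h3' q hq (right_ne_zero_of_mul hG)
  · refine le_trans (le_of_eq ?_) (h3 P (fun p hp => ⟨(hP p hp).1, ?_⟩) hprop)
    · refine Finset.sum_congr rfl fun q hq => ?_
      rw [hs_zero, add_zero]
    · have h4 := (hP p hp).2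
      rw [map_mul] at h4
      exact left_ne_zero_of_mul h4

end Pool.Agent.Lib.MP_17a322_nt.MV
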