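import Pool.Agent.Lib.MP_17a322_nt.EQ.Defs

/-!
The projective line and its divisor `0 + ∞ + (- 1)`.
-/

namespace Pool.Agent.Lib.MP_17a322_nt.MV

open MvPolynomial Height NumberField
open Pool.Agent.Lib.MP_17a322_nt.EQ

/-- The forms `x`, `y`, `x + y`. -/
noncomputable def X1_f (b : Fin 3) (_ : Unit) : MvPolynomial (Fin 2) ℚ :=
  ![X 0, X 1, X 0 + X 1] b

theorem X1_tan {L : Type} [Field L] [Algebra ℚ L] (p : Fin 2 → L) :
    Tan (⊥ : Ideal (MvPolynomial (Fin 2) ℚ)) p = ⊤ := by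
  rw [eq_top_iff]
  intro v _
  simp only [Tan, Submodule.mem_iInf, LinearMap.mem_ker]
  intro F hF
  rw [Ideal.mem_bot.1 hF, dif]
  simp

theorem X1_smooth : Smooth (⊥ : Ideal (MvPolynomial (Fin 2) ℚ)) 1 where
  prime := Ideal.isPrime_bot
  homog := fun F hF i => by
    rw [Ideal.mem_bot.1 hF, map_zero]
    exact Ideal.zero_mem _
  dim := fun L _ _ p _ => by
    rw [X1_tan, finrank_top, Module.finrank_fin_fun]

theorem X1_hom (b : Fin 3) (j : Unit) : (X1_f b j).IsHomogeneous 1 := by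
  fin_cases b
  · exact isHomogeneous_X _ _
  · exact isHomogeneous_X _ _
  · exact (isHomogeneous_X _ _).add (isHomogeneous_X _ _)

theorem X1_dif {L : Type} [Field L] [Algebra ℚ L] (p : Fin 2 → L) (b : Fin 3) :
    ∃ v : Fin 2 → L, dif p (X1_f b ()) v ≠ 0 := by
  fin_cases b
  · refine ⟨![1, 0], ?_⟩
    simp [dif, X1_f, pderiv_X, Pi.single_apply]
  · refine ⟨![0, 1], ?_⟩
    simp [dif, X1_f, pderiv_X, Pi.single_apply]
  · refine ⟨![1, 0], ?_⟩
    simp [dif, X1_f, Fin.sum_univ_two, pderiv_X, Pi.single_apply]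

theorem X1_one {L : Type} [Field L] [Algebra ℚ L] {p : Fin 2 → L} (hp : p ≠ 0) {b b' : Fin 3}
    (h : aeval p (X1_f b ()) = 0) (h' : aeval p (X1_f b' ()) = 0) : b = b' := by
  by_contra hb
  apply hp
  have key : p 0 = 0 ∧ p 1 = 0 := by
    fin_cases b <;> fin_cases b' <;> simp_all [X1_f]
  funext i
  fin_cases i
  · exact key.1
  · exact key.2

theorem X1_snc : Snc (⊥ : Ideal (MvPolynomial (Fin 2) ℚ)) 1 X1_f where
  pos := one_pos
  homog := X1_hom
  trans := fun L _ _ p hp => by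
    refine ⟨fun _ => (), fun b _ => ⟨1, by rw [map_one]; exact one_ne_zero, fun j => ?_⟩, ?_⟩
    · rw [one_mul]
      exact Ideal.mem_sup_right (Ideal.mem_span_singleton_self _)
    · have hsub : Subsingleton {b : Fin 3 // ∀ j, aeval p (X1_f b j) = 0} :=
        ⟨fun a b => Subtype.ext (X1_one hp.1 (a.2 ()) (b.2 ()))⟩
      rw [linearIndependent_subsingleton_index_iff]
      intro b h0
      obtain ⟨v, hv⟩ := X1_dif p b.1
      exact hv (LinearMap.congr_fun h0 ⟨v, by rw [X1_tan]; exact Submodule.mem_top⟩)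

end Pool.Agent.Lib.MP_17a322_nt.MV
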