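import Pool.Agent.Lib.MP_17a322_nt.GQ.K1
import Pool.Agent.Lib.MP_17a322_nt.MV.X1

/-!
The truncated counting function of a point of the projective line over the rational numbers.
-/

namespace Pool.Agent.Lib.MP_17a322_nt.MV

open MvPolynomial Height NumberField
open Pool.Agent.Lib.MP_17a322_nt.EQ
open Pool.Agent.Lib.MP_17a322_nt.GQ (pr pr_prime pr_inj absNorm_pr apply_le_one apply_eq_one)

/-- The vector of two natural numbers. -/
def X2_v (a b : ℕ) : Fin 2 → ℚ := ![(a : ℚ), (b : ℚ)]

/-- The values of the three forms. -/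
def X2_w (a b : ℕ) : Fin 3 → ℕ := ![a, b, a + b]

theorem X2_eval (a b : ℕ) (i : Fin 3) (j : Unit) : eval (X2_v a b) (X1_f i j) = (X2_w a b i : ℚ) := by
  fin_cases i <;> simp [X1_f, X2_v, X2_w]

theorem X2_pos {a b : ℕ} (ha : 0 < a) (hb : 0 < b) (i : Fin 3) : 0 < X2_w a b i := by
  fin_cases i
  · exact ha
  · exact hb
  · exact Nat.add_pos_left ha b

theorem X2_dvd (a b : ℕ) (i : Fin 3) : X2_w a b i ∣ a * b * (a + b) := by
  fin_cases i
  · exact Dvd.dvd.mul_right (dvd_mul_right a b) _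
  · exact Dvd.dvd.mul_right (dvd_mul_left b a) _
  · exact dvd_mul_left _ _

/-- The local height is positive only at the primes which divide the value. -/
theorem X2_lam {a b : ℕ} (ha : 0 < a) (v : FinitePlace ℚ) (i : Fin 3)
    (h : 0 < lam v.val 1 (X1_f i) (X2_v a b)) : pr v ∣ X2_w a b i := by
  by_contra hc
  have h1 : v.val ((X2_w a b i : ℕ) : ℚ) = 1 := apply_eq_one v _ hc
  have h2 : (⨆ j : Unit, v.val (eval (X2_v a b) (X1_f i j))) = 1 := by
    rw [ciSup_unique]
    rw [X2_eval, h1]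
  have h3 : (⨆ k, v.val (X2_v a b k)) ≤ 1 := by
    refine ciSup_le fun k => ?_
    fin_cases k
    · exact apply_le_one v a
    · exact apply_le_one v b
  have h4 : 0 < ⨆ k, v.val (X2_v a b k) := by
    have h5 : v.val (X2_v a b 0) ≤ ⨆ k, v.val (X2_v a b k) :=
      le_ciSup (f := fun k => v.val (X2_v a b k)) (Set.finite_range _).bddAbove 0
    have h6 : 0 < v.val (X2_v a b 0) := by
      apply v.val.pos
      have : (a : ℚ) ≠ 0 := by exact_mod_cast ha.ne'
      exact this
    linarith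
  unfold lam at h
  rw [h2, Real.log_one, sub_zero, Nat.cast_one, one_mul] at h
  exact absurd h (not_lt.2 (Real.log_nonpos h4.le h3))

/-- The truncated counting function is at most the logarithm of the radical. -/
theorem X2_trunc {a b : ℕ} (ha : 0 < a) (hb : 0 < b) :
    trunc ∅ 1 X1_f (X2_v a b) ≤ Real.log (∏ q ∈ (a * b * (a + b)).primeFactors, (q : ℝ)) := by
  classical
  have hm : a * b * (a + b) ≠ 0 := by positivity
  set A : Set (FinitePlace ℚ) := {v : FinitePlace ℚ | v ∉ (∅ : Finset (FinitePlace ℚ)) ∧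
    ∃ i, 0 < lam v.val 1 (X1_f i) (X2_v a b)} with hA
  have hsub : ∀ v ∈ A, pr v ∈ (a * b * (a + b)).primeFactors := by
    intro v hv
    obtain ⟨-, i, hi⟩ := hv
    exact Nat.mem_primeFactors.2 ⟨pr_prime v, (X2_lam ha v i hi).trans (X2_dvd a b i), hm⟩
  have hfin : A.Finite := by
    refine Set.Finite.of_finite_image (f := pr) ?_ fun v _ w _ h => pr_inj h
    exact (Finset.finite_toSet (a * b * (a + b)).primeFactors).subset (by
      rintro _ ⟨v, hv, rfl⟩
      exact hsub v hv)
  have h0 : trunc ∅ 1 X1_f (X2_v a b) = ∑ᶠ v ∈ A, Real.log (Ideal.absNorm v.maximalIdeal.asIdeal) := rfl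
  rw [h0, finsum_mem_eq_finite_toFinset_sum _ hfin]
  have h1 : ∑ v ∈ hfin.toFinset, Real.log (Ideal.absNorm v.maximalIdeal.asIdeal) =
      ∑ p ∈ hfin.toFinset.image pr, Real.log (p : ℝ) := by
    rw [Finset.sum_image fun a _ b _ hab => pr_inj hab]
    exact Finset.sum_congr rfl fun v _ => by rw [absNorm_pr]
  have h2 : hfin.toFinset.image pr ⊆ (a * b * (a + b)).primeFactors := by
    intro p hp
    obtain ⟨v, hv, rfl⟩ := Finset.mem_image.1 hp
    exact hsub v (hfin.mem_toFinset.1 hv)
  rw [h1, Real.log_prod fun p hp => by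
    have := (Nat.prime_of_mem_primeFactors hp).ne_zero
    exact_mod_cast this]
  exact Finset.sum_le_sum_of_subset_of_nonneg h2 fun p _ _ => Real.log_natCast_nonneg p

end Pool.Agent.Lib.MP_17a322_nt.MV
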