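import Pool.Agent.Lib.MP_17a322_nt.GR.Q0a

/-!
The coprime zeros of a form in two variables.
-/

namespace Pool.Agent.Lib.MP_17a322_nt.MV

open MvPolynomial

/-- A nonzero form in two variables has only finitely many zeros given by coprime positive integers. -/
theorem X3_finite {G : MvPolynomial (Fin 2) ℚ} (hG : G ≠ 0) (hd : ∃ d, G.IsHomogeneous d) :
    {p : ℕ × ℕ | 0 < p.1 ∧ 0 < p.2 ∧ p.1.Coprime p.2 ∧ eval ![(p.1 : ℚ), (p.2 : ℚ)] G = 0}.Finite := by
  classical
  obtain ⟨d, hd⟩ := hd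
  -- the polynomial `G(x, 1)`
  set P : Polynomial ℚ := aeval ![Polynomial.X, (1 : Polynomial ℚ)] G with hP
  have hPe : ∀ x : ℚ, P.eval x = eval ![x, 1] G := by
    intro x
    have h1 : P.eval x = (Polynomial.aeval x) (aeval ![Polynomial.X, (1 : Polynomial ℚ)] G) := by
      rw [hP, Polynomial.coe_aeval_eq_eval]
    rw [h1, ← AlgHom.comp_apply, comp_aeval, ← aeval_eq_eval]
    congr 2
    funext i
    fin_cases i <;> simp
  have hscale : ∀ (a b : ℚ), b ≠ 0 → eval ![a, b] G = b ^ d * eval ![a / b, 1] G := by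
    intro a b hb
    rw [← GR.eval_scale hd b ![a / b, 1]]
    congr 2
    funext i
    fin_cases i
    · simp [mul_div_cancel₀ _ hb]
    · simp
  have hP0 : P ≠ 0 := by
    intro h0
    apply hG
    have h1 : ∀ x y : ℚ, y ≠ 0 → eval ![x, y] G = 0 := by
      intro x y hy
      rw [hscale x y hy, ← hPe, h0, Polynomial.eval_zero, mul_zero]
    have h2 : X 1 * G = 0 := by
      refine MvPolynomial.funext fun v => ?_
      rw [map_mul, eval_X, map_zero]
      by_cases hv : v 1 = 0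
      · rw [hv, zero_mul]
      · have h3 : v = ![v 0, v 1] := by
          funext i
          fin_cases i <;> rfl
        rw [h3, h1 _ _ hv, mul_zero]
    exact (mul_eq_zero.1 h2).resolve_left (X_ne_zero 1)
  -- the ratio determines the coprime pair
  refine Set.Finite.of_finite_image (f := fun p : ℕ × ℕ => (p.1 : ℚ) / p.2) ?_ ?_
  · refine (P.roots.toFinset.finite_toSet).subset ?_
    rintro _ ⟨p, ⟨-, hp2, -, hp⟩, rfl⟩
    have hb : (p.2 : ℚ) ≠ 0 := by exact_mod_cast hp2.ne'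
    rw [Finset.mem_coe, Multiset.mem_toFinset, Polynomial.mem_roots hP0, Polynomial.IsRoot.def, hPe]
    rw [hscale _ _ hb] at hp
    exact (mul_eq_zero.1 hp).resolve_left (pow_ne_zero _ hb)
  · rintro p ⟨hp1, hp2, hpc, -⟩ q ⟨hq1, hq2, hqc, -⟩ h
    have hb : (p.2 : ℚ) ≠ 0 := by exact_mod_cast hp2.ne'
    have hb' : (q.2 : ℚ) ≠ 0 := by exact_mod_cast hq2.ne'
    have h1 : (p.1 : ℚ) / p.2 = (q.1 : ℚ) / q.2 := h
    rw [div_eq_div_iff hb hb'] at h1
    have h2 : p.1 * q.2 = q.1 * p.2 := by exact_mod_cast h1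
    have h3 : p.2 ∣ q.2 := by
      refine (Nat.Coprime.dvd_of_dvd_mul_left hpc.symm ?_)
      rw [h2]
      exact dvd_mul_left _ _
    have h4 : q.2 ∣ p.2 := by
      refine (Nat.Coprime.dvd_of_dvd_mul_left hqc.symm ?_)
      rw [← h2]
      exact dvd_mul_left _ _
    have h5 : p.2 = q.2 := Nat.dvd_antisymm h3 h4
    have h6 : p.1 = q.1 := by
      rw [h5] at h2
      exact Nat.eq_of_mul_eq_mul_right hq2 h2
    exact Prod.ext h6 h5

end Pool.Agent.Lib.MP_17a322_nt.MV
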