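import Mathlib

/-!
The sums over all triples `a + b = c`: definition.
-/

namespace Pool.Agent.Lib.MP_17a322_nt.MV

/-- For every `δ > 0` the sum of the numbers `c ^ (1 - δ) / rad(a b c)` over all coprime positive integers `a`, `b` with
`c = a + b` converges; `rad(m)` is the product of the prime factors of `m`. (The abc conjecture says that these numbers
are bounded.) -/
def AbcSum : Prop :=
  ∀ δ : ℝ, 0 < δ → Summable fun p : {p : ℕ × ℕ // 0 < p.1 ∧ 0 < p.2 ∧ p.1.Coprime p.2} =>
    ((p.1.1 + p.1.2 : ℕ) : ℝ) ^ (1 - δ) /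
      ∏ q ∈ (p.1.1 * p.1.2 * (p.1.1 + p.1.2)).primeFactors, (q : ℝ)

end Pool.Agent.Lib.MP_17a322_nt.MV
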