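import Pool.Agent.Lib.MP_17a322_nt.MV.UDefs
import Pool.Agent.Lib.MP_17a322_nt.MV.X2
import Pool.Agent.Lib.MP_17a322_nt.MV.X3
import Pool.Agent.Lib.MP_17a322_nt.MV.XDefs

/-!
The sum over all triples `a + b = c`.
-/

namespace Pool.Agent.Lib.MP_17a322_nt.MV

open MvPolynomial Height NumberField
open Pool.Agent.Lib.MP_17a322_nt.EQ

/-- The vector of integers. -/
def X4_z (a b : ℕ) : Fin 2 → ℤ := ![(a : ℤ), (b : ℤ)]

theorem X4_cast (a b : ℕ) : X2_v a b = fun i => ((X4_z a b i : ℤ) : ℚ) := by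
  funext i
  fin_cases i <;> simp [X2_v, X4_z]

theorem X4_ne {a b : ℕ} (ha : 0 < a) : X4_z a b ≠ 0 := by
  intro h
  have h1 := congrFun h 0
  have h2 : (a : ℤ) = 0 := h1
  omega

theorem X4_gcd {a b : ℕ} (ha : 0 < a) (h : a.Coprime b) : Finset.univ.gcd (X4_z a b) = 1 := by
  have h0 := GR.gcd_int_pos (X4_z a b) (X4_ne ha)
  have h1 : Finset.univ.gcd (X4_z a b) ∣ (a : ℤ) := Finset.gcd_dvd (f := X4_z a b) (Finset.mem_univ 0)
  have h2 : Finset.univ.gcd (X4_z a b) ∣ (b : ℤ) := Finset.gcd_dvd (f := X4_z a b) (Finset.mem_univ 1)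
  have h3 : (Finset.univ.gcd (X4_z a b)).natAbs ∣ 1 := by
    rw [← h.gcd_eq_one]
    exact Nat.dvd_gcd (Int.natAbs_dvd_natAbs.2 h1) (Int.natAbs_dvd_natAbs.2 h2)
  have h4 := Nat.dvd_one.1 h3
  omega

/-- The height of the point. -/
theorem X4_height {a b : ℕ} (ha : 0 < a) (h : a.Coprime b) :
    Real.log ((a + b : ℕ) : ℝ) - Real.log 2 ≤ logHeight (X2_v a b) := by
  have h1 := GR.logHeight_int (X4_z a b) (X4_ne ha)
  rw [X4_gcd ha h, Int.cast_one, Real.log_one, sub_zero, ← X4_cast] at h1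
  have h2 : (a : ℝ) ≤ ‖X4_z a b‖ := by
    have := norm_le_pi_norm (X4_z a b) 0
    have h3 : ‖X4_z a b 0‖ = (a : ℝ) := by simp [X4_z]
    rw [← h3]
    exact this
  have h3 : (b : ℝ) ≤ ‖X4_z a b‖ := by
    have := norm_le_pi_norm (X4_z a b) 1
    have h3 : ‖X4_z a b 1‖ = (b : ℝ) := by simp [X4_z]
    rw [← h3]
    exact this
  have ha' : (0 : ℝ) < a := by exact_mod_cast ha
  have h4 : 0 < ‖X4_z a b‖ := lt_of_lt_of_le ha' h2
  have h5 : ((a + b : ℕ) : ℝ) ≤ ‖X4_z a b‖ * 2 := by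
    push_cast
    linarith
  have h6 : (0 : ℝ) < ((a + b : ℕ) : ℝ) := by
    push_cast
    positivity
  have h7 := Real.log_le_log h6 h5
  rw [Real.log_mul h4.ne' two_ne_zero] at h7
  rw [h1]
  linarith

/-- The terms. -/
theorem X4_term {a b : ℕ} (ha : 0 < a) (hb : 0 < b) (h : a.Coprime b) {δ : ℝ} (hδ : 0 < δ) (hδ1 : δ ≤ 1) :
    ((a + b : ℕ) : ℝ) ^ (1 - δ) / ∏ q ∈ (a * b * (a + b)).primeFactors, (q : ℝ) ≤
      2 * Real.exp (hCan (⊥ : Ideal (MvPolynomial (Fin 2) ℚ)) (X2_v a b) +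
        ∑ i, ((1 : ℕ) * logHeight (X2_v a b) - logHeight fun j => eval (X2_v a b) (X1_f i j)) -
        trunc ∅ 1 X1_f (X2_v a b) - δ * logHeight (X2_v a b)) := by
  have hR : (0 : ℝ) < ∏ q ∈ (a * b * (a + b)).primeFactors, (q : ℝ) :=
    Finset.prod_pos fun p hp => by
      have := (Nat.prime_of_mem_primeFactors hp).pos
      exact_mod_cast this
  have hc : (0 : ℝ) < ((a + b : ℕ) : ℝ) := by
    have : 0 < a + b := by omega
    exact_mod_cast this
  have h1 : -(2 * logHeight (X2_v a b)) ≤ hCan (⊥ : Ideal (MvPolynomial (Fin 2) ℚ)) (X2_v a b) := by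
    have h2 : Module.finrank ℚ (Tan (⊥ : Ideal (MvPolynomial (Fin 2) ℚ)) (X2_v a b)) = 2 := by
      rw [X1_tan, finrank_top, Module.finrank_fin_fun]
    have h3 : 0 ≤ hPl (Tan (⊥ : Ideal (MvPolynomial (Fin 2) ℚ)) (X2_v a b)) := logHeight_nonneg _
    rw [hCan, h2]
    push_cast
    linarith
  have h2 : ∑ i : Fin 3, ((1 : ℕ) * logHeight (X2_v a b) - logHeight fun j => eval (X2_v a b) (X1_f i j)) =
      3 * logHeight (X2_v a b) := by
    have h3 : ∀ i : Fin 3, (logHeight fun j : Unit => eval (X2_v a b) (X1_f i j)) = 0 := fun i =>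
      logHeight_eq_zero_of_subsingleton _
    simp only [h3, sub_zero, Nat.cast_one, one_mul, Finset.sum_const, Finset.card_univ, Fintype.card_fin,
      nsmul_eq_mul]
    norm_num
  have h3 := X2_trunc ha hb
  have h4 := X4_height ha h
  rw [h2, Real.rpow_def_of_pos hc]
  have h5 : Real.exp (Real.log ((a + b : ℕ) : ℝ) * (1 - δ)) / ∏ q ∈ (a * b * (a + b)).primeFactors, (q : ℝ) =
      Real.exp (Real.log ((a + b : ℕ) : ℝ) * (1 - δ) -
        Real.log (∏ q ∈ (a * b * (a + b)).primeFactors, (q : ℝ))) := by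
    rw [Real.exp_sub, Real.exp_log hR]
  have h6 : (2 : ℝ) = Real.exp (Real.log 2) := (Real.exp_log two_pos).symm
  rw [h5]
  conv_rhs => rw [h6]
  rw [← Real.exp_add, Real.exp_le_exp]
  have h7 : (1 - δ) * (Real.log ((a + b : ℕ) : ℝ) - Real.log 2) ≤ (1 - δ) * logHeight (X2_v a b) :=
    mul_le_mul_of_nonneg_left h4 (by linarith)
  have h8 : (1 - δ) * Real.log 2 ≤ Real.log 2 := by
    have := Real.log_pos one_lt_two
    nlinarith
  nlinarith

/-- Different coprime pairs give different points. -/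
theorem X4_inj {a b a' b' : ℕ} (hb : 0 < b) (h : a.Coprime b)
    (h' : a'.Coprime b') (hp : ∃ c : ℚ, X2_v a' b' = c • X2_v a b) : a = a' ∧ b = b' := by
  obtain ⟨c, hc⟩ := hp
  have h1 : (a' : ℚ) = c * a := congrFun hc 0
  have h2 : (b' : ℚ) = c * b := congrFun hc 1
  have h3 : a' * b = a * b' := by
    have : (a' : ℚ) * b = a * b' := by
      rw [h1, h2]
      ring
    exact_mod_cast this
  have h4 : b ∣ b' := by
    refine h.symm.dvd_of_dvd_mul_left ?_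
    rw [← h3]
    exact dvd_mul_left _ _
  have h5 : b' ∣ b := by
    refine h'.symm.dvd_of_dvd_mul_left ?_
    rw [h3]
    exact dvd_mul_left _ _
  have h6 := Nat.dvd_antisymm h4 h5
  subst h6
  exact ⟨(Nat.eq_of_mul_eq_mul_right hb h3).symm, rfl⟩

/-- The sum over all triples for small `δ`. -/
theorem X4_small (h : SumTrunc ℚ 1) {δ : ℝ} (hδ : 0 < δ) (hδ1 : δ ≤ 1) :
    Summable fun p : {p : ℕ × ℕ // 0 < p.1 ∧ 0 < p.2 ∧ p.1.Coprime p.2} =>
      ((p.1.1 + p.1.2 : ℕ) : ℝ) ^ (1 - δ) /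
        ∏ q ∈ (p.1.1 * p.1.2 * (p.1.1 + p.1.2)).primeFactors, (q : ℝ) := by
  classical
  obtain ⟨G, A, hG, he, -, hb⟩ := h (Fin 2) (Fin 3) Unit ⊥ 1 X1_f X1_smooth X1_snc ∅ δ hδ
  have hG0 : G ≠ 0 := fun h0 => hG (Ideal.mem_bot.2 h0)
  have hfin := X3_finite hG0 he
  set f : ℕ × ℕ → ℝ := fun p => ((p.1 + p.2 : ℕ) : ℝ) ^ (1 - δ) /
    ∏ q ∈ (p.1 * p.2 * (p.1 + p.2)).primeFactors, (q : ℝ) with hf
  have hf0 : ∀ p, 0 ≤ f p := fun p =>
    div_nonneg (Real.rpow_nonneg (Nat.cast_nonneg _) _) (Finset.prod_nonneg fun _ _ => Nat.cast_nonneg _)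
  refine summable_of_sum_le (c := ∑ p ∈ hfin.toFinset, f p + 2 * A) (fun p => hf0 p.1) fun u => ?_
  set w : Finset (ℕ × ℕ) := u.image Subtype.val with hw
  have hw1 : ∀ p ∈ w, 0 < p.1 ∧ 0 < p.2 ∧ p.1.Coprime p.2 := by
    intro p hp
    obtain ⟨p', -, rfl⟩ := Finset.mem_image.1 hp
    exact p'.2
  have h1 : ∑ p ∈ u, f p.1 = ∑ p ∈ w, f p := by
    rw [hw, Finset.sum_image fun _ _ _ _ h => Subtype.ext h]
  change ∑ p ∈ u, f p.1 ≤ _
  rw [h1, ← Finset.sum_filter_add_sum_filter_not w fun p => eval ![(p.1 : ℚ), (p.2 : ℚ)] G = 0]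
  refine add_le_add ?_ ?_
  · refine Finset.sum_le_sum_of_subset_of_nonneg (fun p hp => ?_) fun p _ _ => hf0 p
    obtain ⟨hp1, hp2⟩ := Finset.mem_filter.1 hp
    obtain ⟨h3, h4, h5⟩ := hw1 p hp1
    exact hfin.mem_toFinset.2 ⟨h3, h4, h5, hp2⟩
  · set w' := w.filter fun p => ¬ eval ![(p.1 : ℚ), (p.2 : ℚ)] G = 0 with hw'
    have hw2 : ∀ p ∈ w', (0 < p.1 ∧ 0 < p.2 ∧ p.1.Coprime p.2) ∧ eval (X2_v p.1 p.2) G ≠ 0 := fun p hp =>
      ⟨hw1 p (Finset.mem_filter.1 hp).1, (Finset.mem_filter.1 hp).2⟩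
    have hprop : ∀ p ∈ w', ∀ q ∈ w', (∃ c : ℚ, X2_v q.1 q.2 = c • X2_v p.1 p.2) → p = q := by
      intro p hp q hq hpq
      obtain ⟨⟨h3, h4, h5⟩, -⟩ := hw2 p hp
      obtain ⟨⟨h3', h4', h5'⟩, -⟩ := hw2 q hq
      obtain ⟨h6, h7⟩ := X4_inj h4 h5 h5' hpq
      exact Prod.ext h6 h7
    have hinj : Set.InjOn (fun p : ℕ × ℕ => X2_v p.1 p.2) (w' : Set (ℕ × ℕ)) := fun p hp q hq hpq =>
      hprop p hp q hq ⟨1, by rw [one_smul]; exact hpq.symm⟩
    have h2 := hb (w'.image fun p => X2_v p.1 p.2) (by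
      intro x hx
      obtain ⟨p, hp, rfl⟩ := Finset.mem_image.1 hx
      refine ⟨⟨fun h0 => ?_, fun F hF => ?_⟩, (hw2 p hp).2⟩
      · have h3 : (p.1 : ℚ) = 0 := congrFun h0 0
        have h4 : p.1 = 0 := by exact_mod_cast h3
        have := (hw2 p hp).1.1
        omega
      · rw [Ideal.mem_bot.1 hF, map_zero]) (by
      intro x hx y hy hxy
      obtain ⟨p, hp, rfl⟩ := Finset.mem_image.1 hx
      obtain ⟨q, hq, rfl⟩ := Finset.mem_image.1 hy
      rw [hprop p hp q hq hxy])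
    rw [Finset.sum_image hinj] at h2
    refine le_trans (Finset.sum_le_sum fun p hp => ?_)
      ((Finset.mul_sum _ _ _).symm.le.trans (mul_le_mul_of_nonneg_left h2 two_pos.le))
    obtain ⟨⟨h3, h4, h5⟩, -⟩ := hw2 p hp
    exact X4_term h3 h4 h5 hδ hδ1

/-- The sum over all triples. -/
theorem abcSum_of_sumTrunc (h : SumTrunc ℚ 1) : AbcSum := by
  intro δ hδ
  have h1 := X4_small h (δ := min δ 1) (lt_min hδ one_pos) (min_le_right _ _)
  refine Summable.of_nonneg_of_le (fun p => div_nonneg (Real.rpow_nonneg (Nat.cast_nonneg _) _)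
    (Finset.prod_nonneg fun _ _ => Nat.cast_nonneg _)) (fun p => ?_) h1
  refine div_le_div_of_nonneg_right (Real.rpow_le_rpow_of_exponent_le ?_ ?_)
    (Finset.prod_nonneg fun _ _ => Nat.cast_nonneg _)
  · have : 1 ≤ p.1.1 + p.1.2 := by
      have := p.2.1
      omega
    exact_mod_cast this
  · have := min_le_left δ 1
    linarith

end Pool.Agent.Lib.MP_17a322_nt.MV
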