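import Pool.Agent.Lib.MP_17a322_nt.MV.FinK
import Pool.Agent.Lib.MP_17a322_nt.MV.U4
import Pool.Agent.Lib.MP_17a322_nt.MV.X4

/-!
Vojta's conjecture with truncated counting functions for the sums over all points, and the sum over all triples
`a + b = c`, from the case `D = 0` of Vojta's conjecture for all projective varieties.
-/

universe u v

namespace Pool.Agent.Lib.MP_17a322_nt.MV

open Pool.Agent.Lib.MP_17a322_nt.EQ
open Pool.Agent.Lib.MP_17a322_nt.FL
open Pool.Agent.Lib.MP_17a322_nt.JAC (VojtaGauss)

/-- Vojta's conjecture and its forms with truncated counting functions, for single points and for the sums over all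
points. -/
theorem sumTrunc_of_gauss {L : Type v} [Field L] [NumberField L] (h : VojtaGauss L) (K : Type u) [Field K]
    [NumberField K] (n : ℕ) : Vojta K n ∧ VojtaTrunc K n ∧ SumTrunc K n := by
  have h1 := (gauss_iff_sumK K L).1 h
  have h2 := (JAC.vojta_of_gauss (gauss_any L K h) n).2
  exact ⟨h2.1, h2.2, sumTrunc_of_zero fun ι _ J hJ ε hε => h1 ι J hJ.prime hJ.homog ε hε⟩

/-- The sum over all triples. -/
theorem abcSum_of_gauss {L : Type v} [Field L] [NumberField L] (h : VojtaGauss L) : AbcSum :=
  abcSum_of_sumTrunc (sumTrunc_of_gauss h ℚ 1).2.2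

end Pool.Agent.Lib.MP_17a322_nt.MV
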