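import Mathlib

/-!
The determinant of the partial derivatives of the products of forms with a variable.
-/

namespace Pool.Agent.Lib.MP_17a322_nt.MV

open MvPolynomial

/-- If `M x = c u`, then the matrix `x_i M` with `u` added to the column `i` has, up to the factor `c`, the determinant
`(c + 1) x_i ^ r det M`. -/
theorem det_add_col {R : Type*} [CommRing R] {n : Type*} [Fintype n] [DecidableEq n] (M : Matrix n n R) (x u : n → R)
    (c : R) (i₀ : n) (h : M.mulVec x = c • u) :
    c * (Matrix.of fun i j => x i₀ * M i j + if j = i₀ then u i else 0).det =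
      (c + 1) * (x i₀ ^ Fintype.card n * M.det) := by
  obtain ⟨r, hr⟩ : ∃ r, Fintype.card n = r + 1 :=
    ⟨Fintype.card n - 1, (Nat.succ_pred_eq_of_pos (Fintype.card_pos_iff.2 ⟨i₀⟩)).symm⟩
  have h1 : (Matrix.of fun i j => x i₀ * M i j + if j = i₀ then u i else 0) =
      (x i₀ • M).updateCol i₀ ((fun k => (x i₀ • M) k i₀) + u) := by
    ext i j
    rw [Matrix.updateCol_apply, Matrix.of_apply]
    by_cases hj : j = i₀
    · rw [if_pos hj, if_pos hj, hj]
      rfl
    · rw [if_neg hj, if_neg hj, add_zero]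
      rfl
  have h2 : ((x i₀ • M).updateCol i₀ fun k => (x i₀ • M) k i₀).det = x i₀ ^ Fintype.card n * M.det := by
    rw [Matrix.updateCol_eq_self, Matrix.det_smul]
  have h3 : c * (M.updateCol i₀ u).det = x i₀ * M.det := by
    rw [← Matrix.det_updateCol_smul, ← h]
    have h4 := Matrix.det_updateCol_sum M i₀ x
    rw [smul_eq_mul] at h4
    rw [← h4]
    congr 2
    funext k
    simp only [Matrix.mulVec, dotProduct, smul_eq_mul]
    exact Finset.sum_congr rfl fun j _ => mul_comm _ _
  rw [h1, Matrix.det_updateCol_add, h2, Matrix.det_updateCol_smul_left, hr, Nat.add_sub_cancel, mul_add,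
    mul_left_comm c (x i₀ ^ r), h3, pow_succ]
  ring

/-- The partial derivatives of the products with the variable `X i₀`. -/
theorem det_segre {K : Type*} [Field K] {τ κ : Type*} [Fintype τ] [DecidableEq τ] (Φ : κ → MvPolynomial τ K) {d : ℕ}
    (hΦ : ∀ a, (Φ a).IsHomogeneous d) (s : τ → κ) (i₀ : τ) :
    C (d : K) * (Matrix.of fun i j => pderiv j (Φ (s i) * X i₀)).det =
      C ((d : K) + 1) * (X i₀ ^ Fintype.card τ * (Matrix.of fun i j => pderiv j (Φ (s i))).det) := by
  have h := det_add_col (Matrix.of fun i j => pderiv j (Φ (s i))) (fun j => X j) (fun i => Φ (s i)) (C (d : K)) i₀ (by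
    funext i
    have h1 := (hΦ (s i)).sum_X_mul_pderiv
    simp only [Matrix.mulVec, dotProduct, Matrix.of_apply, Pi.smul_apply, smul_eq_mul]
    rw [map_natCast, ← nsmul_eq_mul, ← h1]
    exact Finset.sum_congr rfl fun j _ => mul_comm _ _)
  have h2 : (Matrix.of fun i j => pderiv j (Φ (s i) * X i₀)) = (Matrix.of fun i j => (X i₀ : MvPolynomial τ K) *
      (Matrix.of fun i j => pderiv j (Φ (s i))) i j + if j = i₀ then Φ (s i) else 0) := by
    ext1 i j
    rw [Matrix.of_apply, Matrix.of_apply, Matrix.of_apply, Derivation.leibniz, pderiv_X, smul_eq_mul, smul_eq_mul,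
      add_comm]
    congr 1
    by_cases hj : j = i₀
    · rw [if_pos hj, hj, Pi.single_eq_same, mul_one]
    · rw [if_neg hj, Pi.single_eq_of_ne (Ne.symm hj), mul_zero]
  rw [h2, h, C_add, C_1]

end Pool.Agent.Lib.MP_17a322_nt.MV
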