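import Pool.Agent.Lib.MP_17a322_nt.JAC.R2
import Pool.Agent.Lib.MP_17a322_nt.MV.GDefs
import Pool.Agent.Lib.MP_17a322_nt.MV.Y0

/-!
The inequality for the Jacobian minors of rational maps, for the sum over the points.
-/

universe u

namespace Pool.Agent.Lib.MP_17a322_nt.MV

open MvPolynomial Height NumberField
open Pool.Agent.Lib.MP_17a322_nt.EQ
open Pool.Agent.Lib.MP_17a322_nt.JAC

/-- The inequality for the Jacobian minors of the forms `Φ a`, for the sum over the points of projective space outside a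
hypersurface `G = 0` at which the minors are not all zero: all partial sums of the numbers
`exp (h(minors) - |τ| h(Φ(w)) - ε h(w))` are bounded. -/
def SumJac (K : Type u) [Field K] [NumberField K] : Prop :=
  ∀ (τ κ : Type) [Fintype τ] [DecidableEq τ] [Fintype κ] (Φ : κ → MvPolynomial τ K) (d : ℕ),
    (∀ a, (Φ a).IsHomogeneous d) → ∀ ε : ℝ, 0 < ε →
    ∃ (G : MvPolynomial τ K) (A : ℝ), G ≠ 0 ∧ (∃ d', G.IsHomogeneous d') ∧ ∀ S : Finset (τ → K),
      (∀ w ∈ S, eval w G ≠ 0 ∧ ∃ s : τ → κ, (Matrix.of fun i j => eval w (pderiv j (Φ (s i)))).det ≠ 0) →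
      (∀ w ∈ S, ∀ w' ∈ S, (∃ a : K, w' = a • w) → w = w') →
        ∑ w ∈ S, Real.exp (logHeight (fun s : τ → κ => (Matrix.of fun i j => eval w (pderiv j (Φ (s i)))).det) -
          Fintype.card τ * logHeight (fun a => eval w (Φ a)) - ε * logHeight w) ≤ A

private theorem Y1_map {K : Type u} [Field K] {τ κ : Type} [Fintype τ] [DecidableEq τ]
    (Φ : κ → MvPolynomial τ K) (w : τ → K) (s : τ → κ) :
    (Matrix.of fun i j => eval w (pderiv j (Φ (s i)))).det =
      eval w (Matrix.of fun i j => pderiv j (Φ (s i))).det := by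
  rw [RingHom.map_det]
  rfl

/-- The minors of the products with the variables. -/
private theorem Y1_minors {K : Type u} [Field K] [NumberField K] {τ κ : Type} [Fintype τ] [DecidableEq τ] [Fintype κ]
    (Φ : κ → MvPolynomial τ K) {d : ℕ} (hd : 0 < d) (hΦ : ∀ a, (Φ a).IsHomogeneous d) {w : τ → K} (hw : w ≠ 0)
    (h0 : ∃ s : τ → κ, (Matrix.of fun i j => eval w (pderiv j (Φ (s i)))).det ≠ 0) :
    logHeight (fun s : τ → κ => (Matrix.of fun i j => eval w (pderiv j (Φ (s i)))).det) +
        Fintype.card τ * logHeight w ≤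
      logHeight (fun s : τ → κ × τ => (Matrix.of fun i j => eval w (pderiv j (Φ (s i).1 * X (s i).2))).det) := by
  have hd0 : (d : K) ≠ 0 := by exact_mod_cast hd.ne'
  have hd1 : (d : K) + 1 ≠ 0 := by exact_mod_cast (Nat.succ_ne_zero d)
  have hx : (fun s : τ → κ => (Matrix.of fun i j => eval w (pderiv j (Φ (s i)))).det) ≠ 0 := by
    obtain ⟨s, hs⟩ := h0
    exact fun h => hs (congrFun h s)
  have hy : w ^ Fintype.card τ ≠ 0 := by
    obtain ⟨i, hi⟩ := Function.ne_iff.1 hw
    exact fun h => pow_ne_zero (Fintype.card τ) hi (congrFun h i)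
  have h1 := logHeight_fun_mul_eq hx hy
  rw [logHeight_pow] at h1
  rw [← h1]
  have h2 := logHeight_comp_le (K := K) (fun (a : (τ → κ) × τ) (i : τ) => (a.1 i, a.2))
    (fun s : τ → κ × τ => (Matrix.of fun i j => eval w (pderiv j (Φ (s i).1 * X (s i).2))).det)
  have h3 : (fun s : τ → κ × τ => (Matrix.of fun i j => eval w (pderiv j (Φ (s i).1 * X (s i).2))).det) ∘
      (fun (a : (τ → κ) × τ) (i : τ) => (a.1 i, a.2)) = (((d : K) + 1) / d) • fun a : (τ → κ) × τ =>
        (Matrix.of fun i j => eval w (pderiv j (Φ (a.1 i)))).det * (w ^ Fintype.card τ) a.2 := by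
    funext a
    have h4 := congrArg (eval w) (det_segre Φ hΦ a.1 a.2)
    rw [map_mul, map_mul, map_mul, map_pow, eval_C, eval_C, eval_X, RingHom.map_det, RingHom.map_det] at h4
    have h5 : (Matrix.of fun i j => eval w (pderiv j (Φ (a.1 i) * X a.2))).det =
        (((d : K) + 1) * (w a.2 ^ Fintype.card τ * (Matrix.of fun i j => eval w (pderiv j (Φ (a.1 i)))).det)) / d := by
      rw [eq_div_iff hd0, mul_comm]
      exact h4
    rw [Function.comp_apply, Pi.smul_apply, smul_eq_mul, Pi.pow_apply]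
    rw [h5]
    ring
  rw [h3, logHeight_smul_eq_logHeight _ (div_ne_zero hd1 hd0)] at h2
  exact h2

/-- If the sums over the points of all projective varieties are bounded, then so are the sums for the Jacobian
minors. -/
theorem sumJac_of_sum {K : Type u} [Field K] [NumberField K] (h : SumG K) : SumJac K := by
  intro τ κ _ _ _ Φ d hΦ ε hε
  classical
  by_cases h0 : ∀ s : τ → κ, (Matrix.of fun i j => pderiv j (Φ (s i))).det = 0
  · refine ⟨1, 0, one_ne_zero, ⟨0, isHomogeneous_one τ K⟩, fun S hS _ => ?_⟩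
    have h1 : S = ∅ := by
      refine Finset.eq_empty_of_forall_notMem fun w hw => ?_
      obtain ⟨s, hs⟩ := (hS w hw).2
      rw [Y1_map, h0 s, map_zero] at hs
      exact hs rfl
    rw [h1, Finset.sum_empty]
  · push Not at h0
    obtain ⟨s, hs⟩ := h0
    rcases isEmpty_or_nonempty τ with hτ | hτ
    · refine ⟨1, ∑ w ∈ {default}, Real.exp (logHeight (fun s : τ → κ => (Matrix.of fun i j =>
          eval w (pderiv j (Φ (s i)))).det) - Fintype.card τ * logHeight (fun a => eval w (Φ a)) - ε * logHeight w),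
        one_ne_zero, ⟨0, isHomogeneous_one τ K⟩, fun S _ _ => ?_⟩
      refine Finset.sum_le_sum_of_subset_of_nonneg (fun w _ => ?_) fun w _ _ => (Real.exp_pos _).le
      rw [Finset.mem_singleton]
      exact Subsingleton.elim _ _
    obtain ⟨i₀⟩ := hτ
    have hτ : Nonempty τ := ⟨i₀⟩
    have hd : 0 < d := by
      rcases Nat.eq_zero_or_pos d with hd0 | hd0
      · exfalso
        apply hs
        have h2 : ∀ i j, pderiv j (Φ (s i)) = 0 := by
          intro i j
          have h3 := hΦ (s i)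
          rw [hd0, ← totalDegree_zero_iff_isHomogeneous, totalDegree_eq_zero_iff_eq_C] at h3
          rw [h3, pderiv_C]
        have h4 : (Matrix.of fun i j => pderiv j (Φ (s i))) = (0 : Matrix τ τ (MvPolynomial τ K)) := by
          ext1 i j
          exact h2 i j
        rw [h4, Matrix.det_zero]
      · exact hd0
    -- the products with the variables
    obtain ⟨Ψ, hΨ⟩ : ∃ Ψ : κ × τ → MvPolynomial τ K, Ψ = fun a => Φ a.1 * X a.2 := ⟨_, rfl⟩
    have hΨh : ∀ a, (Ψ a).IsHomogeneous (d + 1) := fun a => by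
      rw [hΨ]
      exact (hΦ a.1).mul (isHomogeneous_X K a.2)
    have hs' : (Matrix.of fun i j => pderiv j (Ψ ((fun i => (s i, i₀)) i))).det ≠ 0 := by
      intro h1
      have h2 := det_segre Φ hΦ s i₀
      rw [hΨ] at h1
      rw [h1, mul_zero] at h2
      refine mul_ne_zero ?_ (mul_ne_zero (pow_ne_zero _ (X_ne_zero i₀)) hs) h2.symm
      rw [Ne, C_eq_zero]
      exact_mod_cast Nat.succ_ne_zero d
    have hd1 : (0 : ℝ) < (d : ℝ) + 1 := by positivity
    obtain ⟨G0, A, hG0, ⟨m, hm⟩, hG⟩ := h (κ × τ) (imI Ψ) (imI_prime Ψ) (imI_homog Ψ (Nat.succ_pos d) hΨh)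
      (ε / (d + 1)) (div_pos hε hd1)
    obtain ⟨C1, hC1⟩ := logHeight_eval_le' hΨh
    obtain ⟨H, hH0, ⟨d', hd'⟩, hH⟩ := hCan_image Ψ (Nat.succ_pos d) hΨh _ hs'
    have hG1 : aeval Ψ G0 ≠ 0 := hG0
    obtain ⟨C₂, hC₂⟩ : ∃ C₂ : ℝ, C₂ = ε / (d + 1) * max C1 0 := ⟨_, rfl⟩
    refine ⟨aeval Ψ G0 * H, Real.exp C₂ * A, mul_ne_zero hG1 hH0,
      ⟨_, (hm.aeval Ψ hΨh).mul hd'⟩, fun S hS hSp => ?_⟩
    have hw0 : ∀ w ∈ S, w ≠ 0 := by
      intro w hw h1
      have h2 := (hH w (by
        have := (hS w hw).1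
        rw [map_mul] at this
        exact right_ne_zero_of_mul this)).1.1
      apply h2
      funext a
      rw [hΨ, h1]
      simp
    have hev : ∀ (w : τ → K), eval (fun a => eval w (Ψ a)) G0 = eval w (aeval Ψ G0) := by
      intro w
      rw [← coe_aeval_eq_eval, ← coe_aeval_eq_eval]
      have h6 : (aeval fun a => aeval w (Ψ a) : MvPolynomial (κ × τ) K →ₐ[K] K) = (aeval w).comp (aeval Ψ) := by
        apply MvPolynomial.algHom_ext
        intro i
        simp
      exact DFunLike.congr_fun h6 G0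
    -- the map is injective
    have hinj : ∀ w ∈ S, ∀ w' ∈ S, ∀ a : K, (fun b => eval w' (Ψ b)) = a • (fun b => eval w (Ψ b)) → w = w' := by
      intro w hw w' hw' a ha
      obtain ⟨b, hb⟩ := Function.ne_iff.1 (hH w' (by
        have := (hS w' hw').1
        rw [map_mul] at this
        exact right_ne_zero_of_mul this)).1.1
      have h2 : ∀ (b : κ) (i : τ), eval w' (Φ b) * w' i = a * (eval w (Φ b) * w i) := by
        intro b i
        have h3 := congrFun ha (b, i)
        rw [hΨ] at h3
        simpa using h3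
      have hb' : eval w' (Φ b.1) ≠ 0 := by
        intro h3
        apply hb
        rw [hΨ]
        simp only [map_mul, h3, zero_mul, Pi.zero_apply]
      refine hSp w hw w' hw' ⟨a * eval w (Φ b.1) / eval w' (Φ b.1), ?_⟩
      funext i
      rw [Pi.smul_apply, smul_eq_mul, div_mul_eq_mul_div, eq_div_iff hb', mul_comm (w' i), h2 b.1 i]
      ring
    have hinj' : Set.InjOn (fun (w : τ → K) b => eval w (Ψ b)) S := by
      intro w hw w' hw' h1
      refine hinj w hw w' hw' 1 ?_
      rw [one_smul]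
      exact h1.symm
    have h1 := hG (S.image fun w b => eval w (Ψ b)) (by
      intro p hp
      obtain ⟨w, hw, rfl⟩ := Finset.mem_image.1 hp
      have h2 := (hS w hw).1
      rw [map_mul] at h2
      refine ⟨(hH w (right_ne_zero_of_mul h2)).1, ?_⟩
      rw [hev]
      exact left_ne_zero_of_mul h2) (by
      intro p hp q hq hpq
      obtain ⟨w, hw, rfl⟩ := Finset.mem_image.1 hp
      obtain ⟨w', hw', rfl⟩ := Finset.mem_image.1 hq
      obtain ⟨a, ha⟩ := hpq
      rw [hinj w hw w' hw' a ha])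
    rw [Finset.sum_image hinj'] at h1
    refine le_trans ?_ (mul_le_mul_of_nonneg_left h1 (Real.exp_pos C₂).le)
    rw [Finset.mul_sum]
    refine Finset.sum_le_sum fun w hw => ?_
    rw [← Real.exp_add]
    refine Real.exp_le_exp.2 ?_
    have h2 := (hS w hw).1
    rw [map_mul] at h2
    rw [(hH w (right_ne_zero_of_mul h2)).2]
    have h3 := Y1_minors Φ hd hΦ (hw0 w hw) (hS w hw).2
    have h4 : (fun s : τ → κ × τ => (Matrix.of fun i j => eval w (pderiv j (Ψ (s i)))).det) =
        fun s : τ → κ × τ => (Matrix.of fun i j => eval w (pderiv j (Φ (s i).1 * X (s i).2))).det := by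
      rw [hΨ]
    rw [h4]
    have h5 := hC1 w
    have h6 : logHeight (fun a : κ × τ => eval w (Ψ a)) = logHeight (fun a => eval w (Φ a)) + logHeight w := by
      have h7 : (fun a => eval w (Φ a)) ≠ 0 := by
        intro h8
        refine (hH w (right_ne_zero_of_mul h2)).1.1 ?_
        funext a
        have h9 := congrFun h8 a.1
        rw [hΨ]
        simp only [map_mul, Pi.zero_apply] at h9 ⊢
        rw [h9, zero_mul]
      rw [← logHeight_fun_mul_eq h7 (hw0 w hw)]
      congr 1
      funext a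
      rw [hΨ]
      simp
    have h9 := logHeight_nonneg w
    have he : 0 ≤ ε / ((d : ℝ) + 1) := (div_pos hε hd1).le
    have h10 : ε / ((d : ℝ) + 1) * logHeight (fun a => eval w (Ψ a)) ≤
        ε / ((d : ℝ) + 1) * (max C1 0 + ((d + 1 : ℕ) : ℝ) * logHeight w) :=
      mul_le_mul_of_nonneg_left (h5.trans (by linarith [le_max_left C1 0])) he
    have h11 : ε / ((d : ℝ) + 1) * (((d + 1 : ℕ) : ℝ) * logHeight w) = ε * logHeight w := by
      push_cast
      field_simp
    rw [mul_add, h11, ← hC₂] at h10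
    rw [h6] at h10 ⊢
    linarith [mul_add (Fintype.card τ : ℝ) (logHeight (fun a => eval w (Φ a))) (logHeight w)]

end Pool.Agent.Lib.MP_17a322_nt.MV
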