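import Pool.Agent.Lib.MP_17a322_nt.ABD.B9

/-!
The Jacobian minors of the auxiliary forms do not all vanish.
-/

set_option autoImplicit false
set_option linter.unusedSectionVars false

namespace Pool.Agent.Lib.MP_17a322_nt.MV

open MvPolynomial Matrix
open Pool.Agent.Lib.MP_17a322_nt.ABD

/-- One of the Jacobian minors of the forms `Ph` at the point `(w, T, U)` is not zero, if one of the determinants of the
logarithmic derivatives of the forms `f a` at `w` is not zero. -/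
theorem minor_ne {K τ κ : Type*} [Field K] [Fintype τ] [DecidableEq τ] [Fintype κ] [DecidableEq κ] [CharZero K]
    {f : κ → MvPolynomial τ K} {d : ℕ} (hf : ∀ a, (f a).IsHomogeneous d) {w : τ → K}
    (hfw : ∀ a, eval w (f a) ≠ 0) {ρ₀ : τ} (hw₀ : w ρ₀ ≠ 0) {T U : K} (hT : T ≠ 0) (hU : U ≠ 0)
    (hI : ∃ I : τ → κ, (Matrix.of fun l j => dl w (f (I l)) j).det ≠ 0) {M' : ℕ} (hM' : Fintype.card τ + 1 ≤ M') :
    ∃ s : τ ⊕ Bool → (κ ⊕ Bool → Fin (2 * M' + 1)) → Bool,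
      (Matrix.of fun i j => eval (pt w T U) (pderiv j (Ph f d ρ₀ M' (s i)))).det ≠ 0 := by
  obtain ⟨I, hI⟩ := hI
  have hM1 : 1 ≤ M' := by omega
  obtain ⟨N, hN1⟩ : ∃ N : Matrix (τ ⊕ Bool) (τ ⊕ Bool) ℤ, N = 1 := ⟨_, rfl⟩
  have hbd : ∀ i j, |N i j| ≤ (1 : ℕ) := by
    intro i j
    rw [hN1, Matrix.one_apply]
    split_ifs <;> simp
  have hN : ∀ j, N (Sum.inl ρ₀) j = if Sum.inl ρ₀ = j then 1 else 0 := fun j => by
    rw [hN1, Matrix.one_apply]
  have hN' : ∀ i, N i (Sum.inl ρ₀) = if i = Sum.inl ρ₀ then 1 else 0 := fun i => by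
    rw [hN1, Matrix.one_apply]
  set p := pt w T U with hp
  set P : MvPolynomial (τ ⊕ Bool) K := X (Sum.inl ρ₀) with hPdef
  have hP : P.IsHomogeneous 1 := isHomogeneous_X _ _
  have hPp : eval p P ≠ 0 := by
    rw [hPdef, eval_X]; exact hw₀
  have hFp : ∀ c, eval p (FF f c) ≠ 0 := by
    rintro (a | b)
    · simp only [FF, Sum.elim_inl]
      rw [hp, eval_ren]; exact hfw a
    · simp only [FF, Sum.elim_inr, eval_X]
      cases b
      · exact hU
      · exact hT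
  -- the exponents
  have hax : ∀ z c, |ax I ρ₀ N z c| ≤ M' := fun z c =>
    (ax_bd I ρ₀ N hbd z c).trans (by
      rw [mul_one]
      exact_mod_cast hM')
  set e : τ ⊕ Bool → κ ⊕ Bool → Fin (2 * M' + 1) := fun z c =>
    ⟨(ax I ρ₀ N z c + M').toNat, by
      have := abs_le.1 (hax z c)
      omega⟩ with he
  have hEX : ∀ z, EX κ M' (e z) = ax I ρ₀ N z := by
    intro z
    funext c
    have := abs_le.1 (hax z c)
    simp only [EX, he]
    omega
  have hnu : ∀ a, eval p (nm (FF f) (DG κ d) P (EX κ M' a)) ≠ 0 := fun a => nm_ne _ hFp hPp _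
  have hde : ∀ a, eval p (nm (FF f) (DG κ d) P (-EX κ M' a)) ≠ 0 := fun a => nm_ne _ hFp hPp _
  set A₀ : (κ ⊕ Bool → Fin (2 * M' + 1)) → Bool := fun _ => false with hA₀
  have hφ0 : eval p (Ph f d ρ₀ M' A₀) ≠ 0 := ph_ne hnu hde A₀
  have hmin := minor_eq (FF_hom hf) hP hFp hPp (EX κ M') (Sum.inl ρ₀) A₀ e (fun _ _ => rfl)
    (hf (I ρ₀)).rename_isHomogeneous (f₀ := rename Sum.inl (f (I ρ₀)))
    (by rw [hp, eval_ren]; exact hfw _)
  have hnew := det_new f d w T U ρ₀ I ρ₀ N hN hN'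
  simp only [hEX] at hmin
  rw [← hp, ← hPdef] at hnew
  rw [hnew] at hmin
  refine ⟨rsel (Sum.inl ρ₀) A₀ e, fun hμ => ?_⟩
  have hμ' : (Matrix.of fun x j => eval p (pderiv j (phiS (fun e => nm (FF f) (DG κ d) P (EX κ M' e))
      (fun e => nm (FF f) (DG κ d) P (-EX κ M' e)) (rsel (Sum.inl ρ₀) A₀ e x)))).det = 0 := hμ
  rw [hμ', mul_zero] at hmin
  have hδ' : (dP κ d M' : K) ≠ 0 := by exact_mod_cast (dP_pos (κ := κ) d M' hM1).ne'
  have hy0 : ∀ c, eval p (FF f c) / eval p P ^ DG κ d c ≠ 0 := fun c =>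
    div_ne_zero (hFp c) (pow_ne_zero _ hPp)
  have hdet : (N.det : K) ≠ 0 := by
    rw [hN1, Matrix.det_one, Int.cast_one]
    exact one_ne_zero
  refine absurd hmin.symm (mul_ne_zero hδ' (mul_ne_zero (mul_ne_zero (pow_ne_zero _ hφ0)
    (Finset.prod_ne_zero_iff.2 fun z _ => Finset.prod_ne_zero_iff.2 fun c _ => zpow_ne_zero _ (hy0 c)))
      (mul_ne_zero hdet (mul_ne_zero hI (mul_ne_zero (inv_ne_zero hT) (inv_ne_zero hU))))))

/-- The bound for the entries of the unimodular matrices is at least one. -/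
theorem one_le_of_UA {m M : ℕ} {Y : Type} [Fintype Y] [DecidableEq Y] (h : UA m M Y) {ρ θ : Y} (hne : ρ ≠ θ) :
    1 ≤ M := by
  obtain ⟨N, -, h1, h2, -⟩ := h ρ θ hne (fun _ => 0) le_rfl
  have h3 := h1 ρ ρ
  rw [h2 ρ, if_pos rfl, abs_one] at h3
  exact_mod_cast h3

end Pool.Agent.Lib.MP_17a322_nt.MV
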