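import Pool.Agent.Lib.MP_17a322_nt.ABD.B11
import Pool.Agent.Lib.MP_17a322_nt.ABD.Z1
import Pool.Agent.Lib.MP_17a322_nt.ABD.Y1
import Pool.Agent.Lib.MP_17a322_nt.MV.Y1
import Pool.Agent.Lib.MP_17a322_nt.MV.Y2

/-!
The abc inequality for forms, for the sum over the points.
-/

set_option autoImplicit false
set_option linter.unusedSectionVars false

universe u

namespace Pool.Agent.Lib.MP_17a322_nt.MV

open MvPolynomial Matrix Height NumberField
open Pool.Agent.Lib.MP_17a322_nt.ABD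
open Pool.Agent.Lib.MP_17a322_nt.EQ (Pl av FS psum l1 qv)

/-- The determinants of `|τ|` gradients times the values of the other forms. -/
noncomputable def abcVec {K : Type u} [Field K] {τ κ : Type} [Fintype τ] [DecidableEq τ] [Fintype κ] [DecidableEq κ]
    (f : κ → MvPolynomial τ K) (w : τ → K) : (τ → κ) → K := fun s =>
  (Matrix.of fun i j => eval w (pderiv j (f (s i)))).det * ∏ a ∈ (Finset.univ.image s)ᶜ, eval w (f a)

/-- The sum of `log q_v` over the finite places at which the absolute values of the `f a (w)` are not all equal. -/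
noncomputable def abcN {K : Type u} [Field K] [NumberField K] {τ κ : Type} (f : κ → MvPolynomial τ K) (w : τ → K) : ℝ :=
  ∑ᶠ v ∈ {v : FinitePlace K | ∃ a b, v (eval w (f a)) ≠ v (eval w (f b))},
    Real.log (Ideal.absNorm v.maximalIdeal.asIdeal)

/-- The abc inequality for forms of one degree, for the sum over the points of projective space outside a hypersurface
`G = 0` at which the determinants are not all zero. -/
def SumAbc (K : Type u) [Field K] [NumberField K] : Prop :=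
  ∀ (τ κ : Type) [Fintype τ] [DecidableEq τ] [Fintype κ] [DecidableEq κ] (f : κ → MvPolynomial τ K) (d : ℕ),
    (∀ a, (f a).IsHomogeneous d) → ∀ ε : ℝ, 0 < ε →
    ∃ (G : MvPolynomial τ K) (A : ℝ), G ≠ 0 ∧ (∃ d', G.IsHomogeneous d') ∧ ∀ S : Finset (τ → K),
      (∀ w ∈ S, eval w G ≠ 0 ∧ abcVec f w ≠ 0) → (∀ w ∈ S, ∀ w' ∈ S, (∃ a : K, w' = a • w) → w = w') →
        ∑ w ∈ S, Real.exp (logHeight (abcVec f w) - abcN f w - ε * logHeight w) ≤ A

/-- The sums for the Jacobian minors bound the sums for the abc inequality. -/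
theorem sumAbc_of_sumJac {K : Type u} [Field K] [NumberField K] (hJ : SumJac K) : SumAbc K := by
  intro τ κ _ _ _ _ f d hf ε hε
  classical
  -- the trivial cases
  have triv : (∀ w : τ → K, abcVec f w = 0) →
      ∃ (G : MvPolynomial τ K) (A : ℝ), G ≠ 0 ∧ (∃ d', G.IsHomogeneous d') ∧ ∀ S : Finset (τ → K),
      (∀ w ∈ S, eval w G ≠ 0 ∧ abcVec f w ≠ 0) → (∀ w ∈ S, ∀ w' ∈ S, (∃ a : K, w' = a • w) → w = w') →
        ∑ w ∈ S, Real.exp (logHeight (abcVec f w) - abcN f w - ε * logHeight w) ≤ A := by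
    intro h
    refine ⟨1, 0, one_ne_zero, ⟨0, isHomogeneous_one _ _⟩, fun S hS _ => ?_⟩
    rw [Finset.eq_empty_of_forall_notMem fun w hw => (hS w hw).2 (h w), Finset.sum_empty]
  rcases isEmpty_or_nonempty τ with hτ | ⟨⟨ρ₀⟩⟩
  · refine ⟨1, ∑ w ∈ {default}, Real.exp (logHeight (abcVec f w) - abcN f w - ε * logHeight w), one_ne_zero,
      ⟨0, isHomogeneous_one _ _⟩, fun S _ _ => ?_⟩
    refine Finset.sum_le_sum_of_subset_of_nonneg (fun w _ => ?_) fun w _ _ => (Real.exp_pos _).le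
    rw [Finset.mem_singleton]
    exact Subsingleton.elim _ _
  by_cases hd : d = 0
  · refine triv fun w => ?_
    funext s
    have h2 : (Matrix.of fun i j => eval w (pderiv j (f (s i)))) = 0 := by
      ext i j
      have h3 : (f (s i)).totalDegree = 0 :=
        (totalDegree_zero_iff_isHomogeneous (p := f (s i))).mpr (hd ▸ hf (s i))
      rw [Matrix.of_apply, totalDegree_eq_zero_iff_eq_C.mp h3, pderiv_C, map_zero]
      rfl
    have hne : Nonempty τ := ⟨ρ₀⟩
    rw [abcVec, h2, Matrix.det_zero, zero_mul]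
    rfl
  by_cases hf0 : ∃ a, f a = 0
  · obtain ⟨a, ha⟩ := hf0
    refine triv fun w => ?_
    funext s
    by_cases h2 : a ∈ Finset.univ.image s
    · obtain ⟨i, -, hi⟩ := Finset.mem_image.1 h2
      rw [abcVec, Matrix.det_eq_zero_of_row_eq_zero i fun j => by
        rw [Matrix.of_apply, hi, ha, map_zero, map_zero], zero_mul]
      rfl
    · rw [abcVec, Finset.prod_eq_zero (Finset.mem_compl.2 h2) (by rw [ha, map_zero]), mul_zero]
      rfl
  push Not at hf0
  -- the parameters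
  set s : ℝ := (Fintype.card κ : ℝ) with hs
  have hs0 : 0 ≤ s := Nat.cast_nonneg _
  have hd0 : (0 : ℝ) ≤ d := Nat.cast_nonneg _
  have hsd : 0 ≤ s * d := mul_nonneg hs0 hd0
  set ε1 : ℝ := ε / 2 / (1 + 10 * (s * d)) with hε1
  have hqe : 0 < 1 + 10 * (s * d) := by positivity
  have hε1p : 0 < ε1 := by positivity
  have hε1e : ε1 * (1 + 10 * (s * d)) = ε / 2 := by rw [hε1]; field_simp
  obtain ⟨m, hm⟩ := exists_nat_gt (max 1 (11 * (s * d) / (ε / 2)))
  have hm1' : (1 : ℝ) < m := lt_of_le_of_lt (le_max_left _ _) hm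
  have hm1 : 1 ≤ m := by
    have : (1 : ℝ) ≤ m := hm1'.le
    exact_mod_cast this
  have hm0 : (0 : ℝ) < m := by linarith
  have hm2 : 11 / m * (s * d) ≤ ε / 2 := by
    have h1 := lt_of_le_of_lt (le_max_right _ _) hm
    rw [div_lt_iff₀ (by positivity)] at h1
    rw [div_mul_eq_mul_div, div_le_iff₀ hm0]
    linarith
  obtain ⟨M, hM⟩ := u_all m (Fintype.card (τ ⊕ Bool))
  have hUA : UA m M (τ ⊕ Bool) := hM (τ ⊕ Bool) le_rfl
  have hMone : 1 ≤ M := one_le_of_UA hUA (ρ := Sum.inl ρ₀) (θ := Sum.inr true) (by simp)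
  set M' : ℕ := max 1 ((Fintype.card τ + 1) * M) with hM'
  have hM'1 : Fintype.card τ + 1 ≤ M' := le_trans (by nlinarith) (le_max_right _ _)
  obtain ⟨G, A, hG, ⟨N, hGh⟩, hmain⟩ := hJ (τ ⊕ Bool)
    ((κ ⊕ Bool → Fin (2 * M' + 1)) → Bool) (Ph f d ρ₀ M') (dP κ d M')
    (fun A => Ph_hom hf ρ₀ M' A) ε1 hε1p
  obtain ⟨g, hg, hgh, hbox⟩ := box_form hG hGh ρ₀
  obtain ⟨C1, hC1, htu⟩ := choose_tu K (N + 1) m hm1
  obtain ⟨C2, hC2, hval⟩ := height_val (K := K) hf
  obtain ⟨C3, hC3⟩ : ∃ C3 : ℝ, C3 = (2 * ε1 + 3) * C1 + (10 * ε1 + 11 / m) * (s * C2) := ⟨_, rfl⟩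
  -- the points of the larger space
  have hpt : ∀ w : τ → K, eval w (X ρ₀ * (g * ∏ a, f a)) ≠ 0 → abcVec f w ≠ 0 →
      ∃ z : τ ⊕ Bool → K, (∀ i, z (Sum.inl i) = w i) ∧ eval z G ≠ 0 ∧
        (∃ I : τ ⊕ Bool → (κ ⊕ Bool → Fin (2 * M' + 1)) → Bool,
          (Matrix.of fun i j => eval z (pderiv j (Ph f d ρ₀ M' (I i)))).det ≠ 0) ∧
        logHeight (abcVec f w) - abcN f w - ε * logHeight w ≤ C3 +
          (logHeight (fun I : τ ⊕ Bool → (κ ⊕ Bool → Fin (2 * M' + 1)) → Bool =>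
            (Matrix.of fun i j => eval z (pderiv j (Ph f d ρ₀ M' (I i)))).det) -
            Fintype.card (τ ⊕ Bool) * logHeight (fun A => eval z (Ph f d ρ₀ M' A)) - ε1 * logHeight z) := by
    intro w hw hW
    rw [map_mul, map_mul, map_prod, eval_X] at hw
    have hw₀ : w ρ₀ ≠ 0 := left_ne_zero_of_mul hw
    have hgw : eval w g ≠ 0 := left_ne_zero_of_mul (right_ne_zero_of_mul hw)
    have hfw : ∀ a, eval w (f a) ≠ 0 := fun a =>
      Finset.prod_ne_zero_iff.1 (right_ne_zero_of_mul (right_ne_zero_of_mul hw)) a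
        (Finset.mem_univ a)
    have hw0 : w ≠ 0 := fun h => hw₀ (by rw [h]; rfl)
    have hh0 : 0 ≤ logHeight w := logHeight_nonneg _
    have hentry : abcVec f w = (∏ a, eval w (f a)) • fun s : τ → κ => (Matrix.of fun l j => dl w (f (s l)) j).det := by
      funext s
      rw [Pi.smul_apply, smul_eq_mul]
      exact entry_dl hfw s
    have hI : ∃ s : τ → κ, (Matrix.of fun l j => dl w (f (s l)) j).det ≠ 0 := by
      by_contra hc
      push Not at hc
      apply hW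
      rw [hentry, show (fun s : τ → κ => (Matrix.of fun l j => dl w (f (s l)) j).det) = 0 from funext hc, smul_zero]
    rw [hentry, logHeight_smul_eq_logHeight _ (Finset.prod_ne_zero_iff.2 fun a _ => hfw a)]
    obtain ⟨a0, ha0⟩ : ∃ a, eval w (f a) ≠ 0 := by
      obtain ⟨s0, -⟩ := hI
      exact ⟨s0 ρ₀, hfw _⟩
    -- the radical
    set y : κ → K := fun a => eval w (f a) with hy
    have hy0 : ∀ a, y a ≠ 0 := hfw
    set T : Finset (FinitePlace K) := (rad_fin hy0).toFinset with hT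
    have hrad : abcN f w = ∑ v ∈ T, Real.log (qv v) :=
      finsum_mem_eq_finite_toFinset_sum _ (rad_fin hy0)
    rw [hrad]
    set R : ℝ := ∑ v ∈ T, Real.log (qv v) with hR
    have hR0 : 0 ≤ R := Finset.sum_nonneg fun v _ => (Real.log_pos (EQ.one_lt_qv v)).le
    set Q : ℝ := psum (PP y) with hQ
    have hRQ : R ≤ Q := rad_le hy0
    have hQ1 : Q ≤ s * (d * logHeight w + C2) := by
      rw [hQ, PP_psum hy0]
      exact mul_le_mul_of_nonneg_left (hval w hw0 ⟨a0, ha0⟩) hs0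
    have hQ0 : 0 ≤ Q := hR0.trans hRQ
    obtain ⟨t, u, ht, hu, hjj⟩ := htu (PP y) T (PP_nonneg hy0) (PP_fs hy0) (fun v hv => by
      refine PP_out v fun h => hv ?_
      rw [hT, Set.Finite.mem_toFinset]
      exact h)
    obtain ⟨j, j', hj1, hj2, hj1', hj2', hGp⟩ := hbox w hgw hw₀ t u ht hu
    obtain ⟨b1, b2, b3, b4⟩ := hjj j j' hj1 hj2 hj1' hj2'
    have ht' : (j : K) * t ≠ 0 := mul_ne_zero (by exact_mod_cast (by omega : j ≠ 0)) ht
    have hu' : (j' : K) * u ≠ 0 := mul_ne_zero (by exact_mod_cast (by omega : j' ≠ 0)) hu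
    have c2 := height_bd (K := K) hd hf hfw hw₀ ht' hu' hI hm1 (le_max_left _ _) (le_max_right _ _)
      hUA (P := PP y) (fun v a b => PP_le hy0 v a b) b1 b2
    have c3 := height_pt (K := K) hw₀ ((j : K) * t) ((j' : K) * u)
    have c4 := mul_le_mul_of_nonneg_left c3 hε1p.le
    refine ⟨pt w ((j * t) * w ρ₀) ((j' * u) * w ρ₀), fun i => rfl, hGp,
      minor_ne hf hfw hw₀ (mul_ne_zero ht' hw₀) (mul_ne_zero hu' hw₀) hI hM'1, ?_⟩
    -- the final estimate
    set h1 : ℝ := logHeight₁ ((j : K) * t) with hh1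
    set h2 : ℝ := logHeight₁ ((j' : K) * u) with hh2
    have hm3 : 1 / (m : ℝ) ≤ 1 := by rw [div_le_one hm0]; exact hm1'.le
    have hm4 : 0 ≤ 1 / (m : ℝ) := by positivity
    set z : ℝ := 1 / (m : ℝ) with hz
    have e1 : 2 / (m : ℝ) = 2 * z := by rw [hz]; ring
    have e2 : 11 / (m : ℝ) = 11 * z := by rw [hz]; ring
    rw [e1] at b4
    rw [e2] at hm2 hC3
    rw [hC3]
    have k1 : R + z * Q ≤ 2 * Q := by nlinarith
    have k2 : h2 ≤ 5 * z * Q + C1 := by nlinarith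
    have k3 : h1 + h2 ≤ 7 * Q + 2 * C1 := by nlinarith
    have k4 : h1 + 2 * h2 ≤ R + 11 * z * Q + 3 * C1 := by nlinarith
    have k5 : ε1 * (h1 + h2) ≤ ε1 * (7 * Q + 2 * C1) := mul_le_mul_of_nonneg_left k3 hε1p.le
    have k6 : (7 * ε1 + 11 * z) * Q ≤ (7 * ε1 + 11 * z) * (s * (d * logHeight w + C2)) :=
      mul_le_mul_of_nonneg_left hQ1 (by positivity)
    have k7 : (11 * z * (s * d)) * logHeight w ≤ ε / 2 * logHeight w :=
      mul_le_mul_of_nonneg_right hm2 hh0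
    have k8 : (ε1 * (1 + 10 * (s * d))) * logHeight w = ε / 2 * logHeight w := by rw [hε1e]
    have k9 : 0 ≤ ε1 * (s * d) * logHeight w := by positivity
    have k10 : 0 ≤ ε1 * (s * C2) := by positivity
    nlinarith
  choose! z hz1 hz2 hz3 hz4 using hpt
  refine ⟨X ρ₀ * (g * ∏ a, f a), Real.exp C3 * A,
    mul_ne_zero (X_ne_zero _) (mul_ne_zero hg (Finset.prod_ne_zero_iff.2 fun a _ => hf0 a)),
    ⟨_, (isHomogeneous_X K ρ₀).mul (hgh.mul (IsHomogeneous.prod _ _ _ fun a _ => hf a))⟩,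
    fun S hS hSp => ?_⟩
  have hinj : ∀ w ∈ S, ∀ w' ∈ S, ∀ a : K, z w' = a • z w → w = w' := by
    intro w hw w' hw' a ha
    refine hSp w hw w' hw' ⟨a, ?_⟩
    funext i
    rw [Pi.smul_apply, ← hz1 w (hS w hw).1 (hS w hw).2 i, ← hz1 w' (hS w' hw').1 (hS w' hw').2 i, ha, Pi.smul_apply]
  have h1 := hmain (S.image z) (by
    intro p hp
    obtain ⟨w, hw, rfl⟩ := Finset.mem_image.1 hp
    exact ⟨hz2 w (hS w hw).1 (hS w hw).2, hz3 w (hS w hw).1 (hS w hw).2⟩) (by
    intro p hp q hq hpq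
    obtain ⟨w, hw, rfl⟩ := Finset.mem_image.1 hp
    obtain ⟨w', hw', rfl⟩ := Finset.mem_image.1 hq
    obtain ⟨a, ha⟩ := hpq
    rw [hinj w hw w' hw' a ha])
  rw [Finset.sum_image (fun w hw w' hw' h => hinj w hw w' hw' 1 (by rw [one_smul]; exact h.symm))] at h1
  refine le_trans ?_ (mul_le_mul_of_nonneg_left h1 (Real.exp_pos C3).le)
  rw [Finset.mul_sum]
  refine Finset.sum_le_sum fun w hw => ?_
  rw [← Real.exp_add]
  exact Real.exp_le_exp.2 (hz4 w (hS w hw).1 (hS w hw).2)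

end Pool.Agent.Lib.MP_17a322_nt.MV
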