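import Mathlib

/-!
The abc conjecture in several variables as the convergence of series: definition.
-/

namespace Pool.Agent.Lib.MP_17a322_nt.MV

open MvPolynomial

/-- For forms `f a`, `a ∈ κ`, in `n + 1` variables: the determinant of the gradients of `n + 1` of the forms times the
product of the other forms, at `w` (zero if two of the `n + 1` indices are equal). -/
noncomputable def abcDet {n : ℕ} {κ : Type} [Fintype κ] [DecidableEq κ] (f : κ → MvPolynomial (Fin (n + 1)) ℤ)
    (w : Fin (n + 1) → ℤ) (s : Fin (n + 1) → κ) : ℤ :=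
  (Matrix.of fun i j => eval w (pderiv j (f (s i)))).det * ∏ a ∈ (Finset.univ.image s)ᶜ, eval w (f a)

/-- The abc conjecture in several variables as the convergence of series: for finitely many forms `f a` of the same degree
in `n + 1` variables with integer coefficients and every `ε > 0` the sum of the numbers
`max_s |abcDet f w s| / (|w| ^ ε rad(∏_a f_a(w)) gcd_s(abcDet f w s))` over the vectors `w` of `n + 1` integers with
greatest common divisor one outside a hypersurface `G = 0` converges. (`‖ ‖` is the maximum of the absolute values of the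
coordinates; the terms at which all determinants are zero are `0 / 0 = 0`. For `n = 1` and the forms `X`, `Y`, `X + Y` the
terms are at least `c ^ (1 - ε) / rad(a b c)` for `a + b = c`.) -/
def AbcSeries : Prop :=
  ∀ (n : ℕ) (κ : Type) [Fintype κ] [DecidableEq κ] (f : κ → MvPolynomial (Fin (n + 1)) ℤ) (d : ℕ),
    (∀ a, (f a).IsHomogeneous d) → ∀ ε : ℝ, 0 < ε →
    ∃ G : MvPolynomial (Fin (n + 1)) ℤ, G ≠ 0 ∧ (∃ e, G.IsHomogeneous e) ∧
      Summable fun w : {w : Fin (n + 1) → ℤ // Finset.univ.gcd w = 1 ∧ eval w G ≠ 0} =>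
        ‖abcDet f w.1‖ / (‖w.1‖ ^ ε * (∏ p ∈ (∏ a, eval w.1 (f a)).natAbs.primeFactors, (p : ℝ)) *
          ((Finset.univ.gcd (abcDet f w.1) : ℤ) : ℝ))

end Pool.Agent.Lib.MP_17a322_nt.MV
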