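import Mathlib

/-!
The sums over the primitive integral zeros of irreducible forms: definition.
-/

namespace Pool.Agent.Lib.MP_17a322_nt.MV

open MvPolynomial

/-- For every form `H` in `n + 1` variables with integer coefficients which is irreducible over `ℚ` and every `ε > 0` the
sum of the numbers `|∇H(p)| / (|p| ^ (n + ε) gcd(∇H(p)))` over all primitive integral zeros `p` of `H` outside a proper
closed subset `G = 0` of `H = 0` converges (`‖ ‖` is the maximum of the absolute values of the coordinates; the terms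
with `∇H(p) = 0` are `0 / 0 = 0`). -/
def SumInt : Prop :=
  ∀ (n e : ℕ) (H : MvPolynomial (Fin (n + 1)) ℤ) (ε : ℝ), H.IsHomogeneous e →
    Irreducible (map (Int.castRingHom ℚ) H) → 0 < ε →
    ∃ G : MvPolynomial (Fin (n + 1)) ℤ, (∃ e', G.IsHomogeneous e') ∧
      ¬ map (Int.castRingHom ℚ) H ∣ map (Int.castRingHom ℚ) G ∧
      Summable fun p : {p : Fin (n + 1) → ℤ // Finset.univ.gcd p = 1 ∧ eval p H = 0 ∧ eval p G ≠ 0} =>
        ‖fun j => eval p.1 (pderiv j H)‖ /
          (‖p.1‖ ^ (n + ε) * ((Finset.univ.gcd fun j => eval p.1 (pderiv j H) : ℤ) : ℝ))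

end Pool.Agent.Lib.MP_17a322_nt.MV
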