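import Pool.Agent.Lib.MP_17a322_nt.GR.Q1

/-!
The terms of the sums over the primitive integral zeros of an irreducible form.
-/

namespace Pool.Agent.Lib.MP_17a322_nt.MV

open MvPolynomial Height NumberField
open Pool.Agent.Lib.MP_17a322_nt.EQ
open Pool.Agent.Lib.MP_17a322_nt.GR

theorem Z1_clear {σ : Type*} (p : MvPolynomial σ ℚ) :
    ∃ (N : ℤ) (q : MvPolynomial σ ℤ), N ≠ 0 ∧ map (Int.castRingHom ℚ) q = C (N : ℚ) * p := by
  induction p using MvPolynomial.induction_on with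
  | C a =>
    refine ⟨a.den, C a.num, Int.natCast_ne_zero.2 a.den_nz, ?_⟩
    rw [map_C, ← C_mul]
    congr 1
    rw [eq_intCast, Int.cast_natCast, mul_comm, Rat.mul_den_eq_num]
  | add p q hp hq =>
    obtain ⟨N, p', hN, hp'⟩ := hp
    obtain ⟨M, q', hM, hq'⟩ := hq
    refine ⟨N * M, C M * p' + C N * q', mul_ne_zero hN hM, ?_⟩
    rw [map_add, map_mul, map_mul, hp', hq', map_C, map_C, eq_intCast, eq_intCast, Int.cast_mul, C_mul]
    ring
  | mul_X p i hp =>
    obtain ⟨N, p', hN, hp'⟩ := hp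
    refine ⟨N, p' * X i, hN, ?_⟩
    rw [map_mul, hp', map_X, mul_assoc]

theorem Z1_cast {σ : Type*} (W : σ → ℤ) (p : MvPolynomial σ ℤ) :
    eval (fun i => (W i : ℚ)) (map (Int.castRingHom ℚ) p) = ((eval W p : ℤ) : ℚ) := by
  rw [eval_map]
  exact (eval₂_comp (Int.castRingHom ℚ) W p).symm

attribute [local instance] MvPolynomial.gradedAlgebra in
theorem Z1_homog {σ : Type*} {H : MvPolynomial σ ℚ} {e : ℕ} (hH : H.IsHomogeneous e)
    (F : MvPolynomial σ ℚ) (hF : F ∈ Ideal.span {H}) (i : ℕ) :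
    homogeneousComponent i F ∈ Ideal.span {H} := by
  refine homogeneousComponent_mem_of_mem ?_ hF i
  apply Ideal.homogeneous_span
  intro x hx
  rw [Set.mem_singleton_iff] at hx
  subst hx
  exact ⟨e, hH⟩

theorem Z1_cast_ne {ι : Type*} {p : ι → ℤ} (hp : p ≠ 0) : (fun i => (p i : ℚ)) ≠ 0 := by
  intro h0
  apply hp
  funext i
  have h1 := congrFun h0 i
  simp only [Pi.zero_apply] at h1
  exact_mod_cast h1

theorem Z1_prim_ne {n : ℕ} {p : Fin (n + 1) → ℤ} (hp : Finset.univ.gcd p = 1) : p ≠ 0 := by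
  intro h0
  rw [h0, Finset.gcd_eq_zero_iff.2 (by simp)] at hp
  exact zero_ne_one hp

theorem Z1_pt {n : ℕ} (H : MvPolynomial (Fin (n + 1)) ℤ) {p : Fin (n + 1) → ℤ} (hp : Finset.univ.gcd p = 1)
    (hpH : eval p H = 0) : IsPt (Ideal.span {map (Int.castRingHom ℚ) H}) (fun i => (p i : ℚ)) := by
  refine ⟨Z1_cast_ne (Z1_prim_ne hp), fun F hF => ?_⟩
  obtain ⟨Q, rfl⟩ := Ideal.mem_span_singleton.1 hF
  rw [aeval_eq_eval, map_mul, Z1_cast, hpH, Int.cast_zero, zero_mul]

/-- The terms of the sum are bounded by the numbers `exp (hCan(p) - ε h(p))`. -/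
theorem Z1_term {n : ℕ} (H : MvPolynomial (Fin (n + 1)) ℤ) {p : Fin (n + 1) → ℤ} (hp : Finset.univ.gcd p = 1)
    (hpH : eval p H = 0) (ε : ℝ) :
    ‖fun j => eval p (pderiv j H)‖ / (‖p‖ ^ (n + ε) * ((Finset.univ.gcd fun j => eval p (pderiv j H) : ℤ) : ℝ)) ≤
      Real.exp (hCan (Ideal.span {map (Int.castRingHom ℚ) H}) (fun i => (p i : ℚ)) -
        ε * logHeight fun i => (p i : ℚ)) := by
  have hp0 : p ≠ 0 := Z1_prim_ne hp
  set q : Fin (n + 1) → ℚ := fun i => (p i : ℚ) with hq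
  set HQ := map (Int.castRingHom ℚ) H with hHQ
  have hqH : eval q HQ = 0 := by
    rw [hHQ, hq, Z1_cast, hpH, Int.cast_zero]
  have hae : ∀ F : MvPolynomial (Fin (n + 1)) ℚ, aeval q F = eval q F := fun F => by
    rw [aeval_eq_eval]
  set a : Fin (n + 1) → ℤ := fun j => eval p (pderiv j H) with ha
  by_cases ha0 : a = 0
  · rw [ha0, norm_zero, zero_div]
    exact (Real.exp_pos _).le
  · have haq : (fun j => (a j : ℚ)) ≠ 0 := Z1_cast_ne ha0
    have hder : ∀ j, eval q (pderiv j HQ) = (a j : ℚ) := by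
      intro j
      rw [hHQ, pderiv_map, hq, Z1_cast]
    have hTan : ∀ v, v ∈ Tan (Ideal.span {HQ}) q ↔ ∑ j, (a j : ℚ) * v j = 0 := by
      intro v
      have hdif : ∀ F : MvPolynomial (Fin (n + 1)) ℚ, dif q F v = ∑ j, eval q (pderiv j F) * v j := by
        intro F
        rw [dif, LinearMap.sum_apply]
        apply Finset.sum_congr rfl
        intro j _
        rw [LinearMap.smul_apply, LinearMap.proj_apply, smul_eq_mul, hae]
      simp only [Tan, Submodule.mem_iInf, LinearMap.mem_ker]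
      constructor
      · intro h1
        have h2 := h1 HQ (Ideal.mem_span_singleton_self HQ)
        rw [hdif] at h2
        rw [← h2]
        apply Finset.sum_congr rfl
        intro j _
        rw [hder]
      · intro h1 F hF
        obtain ⟨Q, rfl⟩ := Ideal.mem_span_singleton.1 hF
        rw [hdif]
        have h2 : ∀ j, eval q (pderiv j (HQ * Q)) * v j = eval q Q * ((a j : ℚ) * v j) := by
          intro j
          rw [Derivation.leibniz, map_add, smul_eq_mul, smul_eq_mul, map_mul, map_mul, hqH, hder]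
          ring
        simp only [h2]
        rw [← Finset.mul_sum, h1, mul_zero]
    have hfin := finrank_hyper haq (Tan (Ideal.span {HQ}) q) hTan
    have hpl := hPl_hyper haq (Tan (Ideal.span {HQ}) q) hTan
    have hLp : logHeight q = Real.log ‖p‖ := by
      rw [hq, logHeight_int p hp0, hp, Int.cast_one, Real.log_one, sub_zero]
    have hLa : logHeight (fun j => (a j : ℚ)) = Real.log ‖a‖ - Real.log ((Finset.univ.gcd a : ℤ) : ℝ) :=
      logHeight_int a ha0
    rw [hCan, hfin, hLp]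
    rw [hLa] at hpl
    have ga := gcd_int_pos a ha0
    have gar : (0 : ℝ) < ((Finset.univ.gcd a : ℤ) : ℝ) := Int.cast_pos.2 ga
    have na : 0 < ‖a‖ := norm_pos_iff.2 ha0
    have np : 0 < ‖p‖ := norm_pos_iff.2 hp0
    rw [div_le_iff₀ (mul_pos (Real.rpow_pos_of_pos np _) gar), Real.rpow_def_of_pos np, ← Real.exp_log gar,
      ← Real.exp_add, ← Real.exp_add, ← Real.exp_log na, Real.exp_le_exp]
    linarith

/-- The terms are not negative. -/
theorem Z1_nonneg {n : ℕ} (H : MvPolynomial (Fin (n + 1)) ℤ) (p : Fin (n + 1) → ℤ) (ε : ℝ) :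
    0 ≤ ‖fun j => eval p (pderiv j H)‖ /
      (‖p‖ ^ (n + ε) * ((Finset.univ.gcd fun j => eval p (pderiv j H) : ℤ) : ℝ)) := by
  refine div_nonneg (norm_nonneg _) (mul_nonneg (Real.rpow_nonneg (norm_nonneg _) _) ?_)
  by_cases h : (fun j => eval p (pderiv j H)) = 0
  · rw [h, Finset.gcd_eq_zero_iff.2 (by simp), Int.cast_zero]
  · exact (Int.cast_pos.2 (gcd_int_pos _ h)).le

end Pool.Agent.Lib.MP_17a322_nt.MV
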