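import Pool.Agent.Lib.MP_17a322_nt.GR.Fin
import Pool.Agent.Lib.MP_17a322_nt.MV.FinK
import Pool.Agent.Lib.MP_17a322_nt.MV.Z0
import Pool.Agent.Lib.MP_17a322_nt.MV.Z1

/-!
The convergence of the sums over the primitive integral zeros of irreducible forms is equivalent to Vojta's conjecture
with `D = 0` for all projective varieties over any number field.
-/

universe v

namespace Pool.Agent.Lib.MP_17a322_nt.MV

open MvPolynomial Height NumberField
open Pool.Agent.Lib.MP_17a322_nt.EQ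
open Pool.Agent.Lib.MP_17a322_nt.GR
open Pool.Agent.Lib.MP_17a322_nt.JAC (VojtaGauss)

/-- The first nonzero coordinate is positive. -/
def Z2_pos {n : ℕ} (p : Fin (n + 1) → ℤ) : Prop := ∃ j, 0 < p j ∧ ∀ i, i < j → p i = 0

theorem Z2_pos_neg {n : ℕ} {p : Fin (n + 1) → ℤ} (h : Z2_pos p) : ¬ Z2_pos (-p) := by
  rintro ⟨j, hj, h1⟩
  obtain ⟨k, hk, h2⟩ := h
  rcases lt_trichotomy j k with h3 | h3 | h3
  · have h4 := h2 j h3
    simp only [Pi.neg_apply] at hj
    omega
  · subst h3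
    simp only [Pi.neg_apply] at hj
    omega
  · have h4 := h1 k h3
    simp only [Pi.neg_apply] at h4
    omega

theorem Z2_pos_or {n : ℕ} {p : Fin (n + 1) → ℤ} (h : p ≠ 0) : Z2_pos p ∨ Z2_pos (-p) := by
  classical
  obtain ⟨j, hj⟩ := Function.ne_iff.1 h
  have hex : (Finset.univ.filter fun i => p i ≠ 0).Nonempty := ⟨j, by simpa using hj⟩
  set k := (Finset.univ.filter fun i => p i ≠ 0).min' hex with hk
  have hk1 : p k ≠ 0 := (Finset.mem_filter.1 (Finset.min'_mem _ hex)).2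
  have hk2 : ∀ i, i < k → p i = 0 := by
    intro i hi
    by_contra h1
    exact absurd (Finset.min'_le _ i (Finset.mem_filter.2 ⟨Finset.mem_univ _, h1⟩)) (not_le.2 hi)
  rcases lt_or_gt_of_ne hk1 with h1 | h1
  · right
    refine ⟨k, by simp only [Pi.neg_apply]; omega, fun i hi => ?_⟩
    rw [Pi.neg_apply, hk2 i hi, neg_zero]
  · exact Or.inl ⟨k, h1, hk2⟩

theorem Z2_prop {n : ℕ} {p q : Fin (n + 1) → ℤ} (hp : Finset.univ.gcd p = 1) (hq : Finset.univ.gcd q = 1)
    {a : ℚ} (h : (fun i => (q i : ℚ)) = a • fun i => (p i : ℚ)) : q = p ∨ q = -p := by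
  have h1 : ∀ i, a.den * q i = a.num * p i := by
    intro i
    have h2 := congrFun h i
    simp only [Pi.smul_apply, smul_eq_mul] at h2
    have h3 : (a.den : ℚ) * q i = a.num * p i := by
      rw [h2, ← mul_assoc, Rat.den_mul_eq_num]
    exact_mod_cast h3
  have h2 : Finset.univ.gcd (fun i => (a.den : ℤ) * q i) = Finset.univ.gcd fun i => a.num * p i :=
    Finset.gcd_congr rfl fun i _ => h1 i
  rw [Finset.gcd_mul_left, Finset.gcd_mul_left, hp, hq, mul_one, mul_one, Int.normalize_of_nonneg (by positivity),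
    ← Int.abs_eq_normalize] at h2
  have h3 : (a.den : ℤ) ≠ 0 := Int.natCast_ne_zero.2 a.den_nz
  rcases abs_choice a.num with h4 | h4
  · left
    funext i
    have h5 := h1 i
    rw [← h4, ← h2] at h5
    exact mul_left_cancel₀ h3 h5
  · right
    funext i
    have h5 := h1 i
    have h6 : a.num = -(a.den : ℤ) := by
      rw [h2, h4, neg_neg]
    rw [h6, neg_mul, ← mul_neg] at h5
    exact mul_left_cancel₀ h3 h5

/-- The sum over the integral zeros converges if the sum over the points of the hypersurface does. -/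
theorem sumInt_of_sum (h : SumG ℚ) : SumInt := by
  classical
  intro n e H ε hH hirr hε
  set HQ := map (Int.castRingHom ℚ) H with hHQ
  have hHQh : HQ.IsHomogeneous e := hH.map _
  have hprime : Prime HQ := hirr.prime
  have hJ : (Ideal.span {HQ}).IsPrime := (Ideal.span_singleton_prime hprime.ne_zero).2 hprime
  obtain ⟨G, A, hG, ⟨d, hGd⟩, hb⟩ := h (Fin (n + 1)) (Ideal.span {HQ}) hJ
    (fun F hF i => Z1_homog hHQh F hF i) ε hε
  obtain ⟨N, G', hN, hG'⟩ := Z1_clear G
  have hNq : (N : ℚ) ≠ 0 := Int.cast_ne_zero.2 hN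
  refine ⟨G', ⟨d, ?_⟩, ?_, ?_⟩
  · refine IsHomogeneous.of_map (Int.castRingHom ℚ).injective_int ?_
    rw [hG']
    exact hGd.C_mul _
  · rw [hG']
    intro hdvd
    apply hG
    rw [Ideal.mem_span_singleton]
    have h1 : G = C ((N : ℚ)⁻¹) * (C (N : ℚ) * G) := by
      rw [← mul_assoc, ← C_mul, inv_mul_cancel₀ hNq, C_1, one_mul]
    rw [h1]
    exact Dvd.dvd.mul_left hdvd _
  have hne : ∀ p : Fin (n + 1) → ℤ, eval p G' ≠ 0 → eval (fun i => (p i : ℚ)) G ≠ 0 := by
    intro p hp h0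
    apply hp
    have h1 := Z1_cast p G'
    rw [hG', map_mul, h0, mul_zero] at h1
    exact_mod_cast h1.symm
  set f : (Fin (n + 1) → ℤ) → ℝ := fun p => ‖fun j => eval p (pderiv j H)‖ /
    (‖p‖ ^ (n + ε) * ((Finset.univ.gcd fun j => eval p (pderiv j H) : ℤ) : ℝ)) with hf
  have key : ∀ S : Finset (Fin (n + 1) → ℤ),
      (∀ p ∈ S, Finset.univ.gcd p = 1 ∧ eval p H = 0 ∧ eval p G' ≠ 0) →
      (∀ p ∈ S, ∀ q ∈ S, q ≠ -p) → ∑ p ∈ S, f p ≤ A := by
    intro S hS hneg
    have hinj : Set.InjOn (fun (p : Fin (n + 1) → ℤ) (i : Fin (n + 1)) => (p i : ℚ)) (S : Set (Fin (n + 1) → ℤ)) := by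
      intro p _ q _ h1
      funext i
      exact Int.cast_injective (congrFun h1 i : (p i : ℚ) = q i)
    have h1 := hb (S.image fun p i => (p i : ℚ)) (by
      intro x hx
      obtain ⟨p, hp, rfl⟩ := Finset.mem_image.1 hx
      obtain ⟨h2, h3, h4⟩ := hS p hp
      exact ⟨Z1_pt H h2 h3, hne p h4⟩) (by
      intro x hx y hy hxy
      obtain ⟨p, hp, rfl⟩ := Finset.mem_image.1 hx
      obtain ⟨q, hq, rfl⟩ := Finset.mem_image.1 hy
      obtain ⟨a, ha⟩ := hxy
      rcases Z2_prop (hS p hp).1 (hS q hq).1 ha with h2 | h2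
      · rw [h2]
      · exact absurd h2 (hneg p hp q hq))
    rw [Finset.sum_image hinj] at h1
    refine (Finset.sum_le_sum fun p hp => ?_).trans h1
    exact Z1_term H (hS p hp).1 (hS p hp).2.1 ε
  refine summable_of_sum_le (c := A + A) (fun p => Z1_nonneg H p.1 ε) fun u => ?_
  set v : Finset (Fin (n + 1) → ℤ) := u.image Subtype.val with hv
  have hv1 : ∀ p ∈ v, Finset.univ.gcd p = 1 ∧ eval p H = 0 ∧ eval p G' ≠ 0 := by
    intro p hp
    obtain ⟨p', -, rfl⟩ := Finset.mem_image.1 hp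
    exact p'.2
  have h1 : ∑ p ∈ u, f p.1 = ∑ p ∈ v, f p := by
    rw [hv, Finset.sum_image fun _ _ _ _ h => Subtype.ext h]
  change ∑ p ∈ u, f p.1 ≤ A + A
  rw [h1, ← Finset.sum_filter_add_sum_filter_not v Z2_pos]
  refine add_le_add (key _ (fun p hp => hv1 p (Finset.mem_filter.1 hp).1) fun p hp q hq h2 => ?_)
    (key _ (fun p hp => hv1 p (Finset.mem_filter.1 hp).1) fun p hp q hq h2 => ?_)
  · have h3 := (Finset.mem_filter.1 hq).2
    rw [h2] at h3
    exact Z2_pos_neg (Finset.mem_filter.1 hp).2 h3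
  · have h3 := (Finset.mem_filter.1 hq).2
    rw [h2] at h3
    exact (Z2_pos_or (Z1_prim_ne (hv1 p (Finset.mem_filter.1 hp).1).1)).elim (Finset.mem_filter.1 hp).2 h3

/-- One term of a convergent sum is bounded. -/
theorem grad_of_sumInt (h : SumInt) : GradInt := by
  intro n e H ε hH hirr hε
  obtain ⟨G, he, hG, hs⟩ := h n e H ε hH hirr hε
  refine ⟨G, ∑' p : {p : Fin (n + 1) → ℤ // Finset.univ.gcd p = 1 ∧ eval p H = 0 ∧ eval p G ≠ 0},
    ‖fun j => eval p.1 (pderiv j H)‖ /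
      (‖p.1‖ ^ (n + ε) * ((Finset.univ.gcd fun j => eval p.1 (pderiv j H) : ℤ) : ℝ)), he, hG,
    fun p hp hpH hpG => ?_⟩
  have h1 := hs.le_tsum ⟨p, hp, hpH, hpG⟩ fun q _ => Z1_nonneg H q.1 ε
  have np : 0 < ‖p‖ := norm_pos_iff.2 (Z1_prim_ne hp)
  by_cases ha : (fun j => eval p (pderiv j H)) = 0
  · rw [ha, norm_zero, Finset.gcd_eq_zero_iff.2 (by simp), Int.cast_zero, mul_zero]
  · have ga : (0 : ℝ) < ((Finset.univ.gcd fun j => eval p (pderiv j H) : ℤ) : ℝ) := Int.cast_pos.2 (gcd_int_pos _ ha)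
    rw [div_le_iff₀ (mul_pos (Real.rpow_pos_of_pos np _) ga), ← mul_assoc] at h1
    exact h1

/-- The convergence of the sums over the primitive integral zeros of irreducible forms is equivalent to Vojta's
conjecture with `D = 0` for all projective varieties over any number field. -/
theorem gauss_iff_sumInt (L : Type v) [Field L] [NumberField L] : VojtaGauss L ↔ SumInt :=
  ⟨fun h => sumInt_of_sum ((gauss_iff_sumK ℚ L).1 h),
    fun h => (JAC.rat_iff_gauss L).1 ((grad_iff_rat L).1 (grad_of_sumInt h))⟩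

end Pool.Agent.Lib.MP_17a322_nt.MV
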