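import Pool.Agent.Lib.MP_17a322_nt.GQ.K1
import Pool.Agent.Lib.MP_17a322_nt.MV.Y3
import Pool.Agent.Lib.MP_17a322_nt.MV.YDefs
import Pool.Agent.Lib.MP_17a322_nt.MV.Z2

/-!
The terms of the series for integral forms, and its convergence.
-/

namespace Pool.Agent.Lib.MP_17a322_nt.MV

open MvPolynomial Height NumberField
open Pool.Agent.Lib.MP_17a322_nt.GR (logHeight_int gcd_int_pos)
open Pool.Agent.Lib.MP_17a322_nt.GQ (pr pr_prime pr_inj absNorm_pr apply_eq_one)

private theorem Y4_vint (v : FinitePlace ℚ) (z : ℤ) : v (z : ℚ) = v ((z.natAbs : ℕ) : ℚ) := by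
  rcases Int.natAbs_eq z with h | h
  · conv_lhs => rw [h]
    rw [Int.cast_natCast]
  · conv_lhs => rw [h]
    rw [Int.cast_neg, Int.cast_natCast, map_neg_eq_map]

variable {n : ℕ} {κ : Type} [Fintype κ] [DecidableEq κ]

/-- The determinants over the rational numbers. -/
private theorem Y4_det (f : κ → MvPolynomial (Fin (n + 1)) ℤ) (w : Fin (n + 1) → ℤ) :
    abcVec (fun a => map (Int.castRingHom ℚ) (f a)) (fun i => (w i : ℚ)) = fun s => ((abcDet f w s : ℤ) : ℚ) := by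
  funext s
  rw [abcVec, abcDet, Int.cast_mul, Int.cast_prod]
  congr 1
  · have h1 : (Matrix.of fun i j => eval (fun i => (w i : ℚ)) (pderiv j (map (Int.castRingHom ℚ) (f (s i))))) =
        (Matrix.of fun i j => eval w (pderiv j (f (s i)))).map (Int.cast : ℤ → ℚ) := by
      ext i j
      rw [Matrix.of_apply, Matrix.map_apply, Matrix.of_apply, pderiv_map, Z1_cast]
    rw [h1, ← Int.cast_det]
  · exact Finset.prod_congr rfl fun a _ => Z1_cast w (f a)

omit [DecidableEq κ] in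
/-- The counting function is at most the logarithm of the radical. -/
private theorem Y4_rad (f : κ → MvPolynomial (Fin (n + 1)) ℤ) (w : Fin (n + 1) → ℤ) (h : ∀ a, eval w (f a) ≠ 0) :
    abcN (fun a => map (Int.castRingHom ℚ) (f a)) (fun i => (w i : ℚ)) ≤
      Real.log (∏ p ∈ (∏ a, eval w (f a)).natAbs.primeFactors, (p : ℝ)) := by
  classical
  have hm : (∏ a, eval w (f a)).natAbs ≠ 0 := Int.natAbs_ne_zero.2 (Finset.prod_ne_zero_iff.2 fun a _ => h a)
  set A : Set (FinitePlace ℚ) := {v : FinitePlace ℚ | ∃ a b,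
    v (eval (fun i => (w i : ℚ)) (map (Int.castRingHom ℚ) (f a))) ≠
      v (eval (fun i => (w i : ℚ)) (map (Int.castRingHom ℚ) (f b)))} with hA
  have hdvd : ∀ v a, v (eval (fun i => (w i : ℚ)) (map (Int.castRingHom ℚ) (f a))) ≠ 1 →
      pr v ∣ (∏ a, eval w (f a)).natAbs := by
    intro v a hva
    rw [Z1_cast, Y4_vint] at hva
    have h1 : pr v ∣ (eval w (f a)).natAbs := by
      by_contra hc
      exact hva (apply_eq_one v _ hc)
    exact h1.trans (Int.natAbs_dvd_natAbs.2 (Finset.dvd_prod_of_mem _ (Finset.mem_univ a)))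
  have hsub : ∀ v ∈ A, pr v ∈ (∏ a, eval w (f a)).natAbs.primeFactors := by
    rintro v ⟨a, b, hab⟩
    refine Nat.mem_primeFactors.2 ⟨pr_prime v, ?_, hm⟩
    by_cases h1 : v (eval (fun i => (w i : ℚ)) (map (Int.castRingHom ℚ) (f a))) = 1
    · exact hdvd v b fun h2 => hab (h1.trans h2.symm)
    · exact hdvd v a h1
  have hfin : A.Finite := by
    refine Set.Finite.of_finite_image (f := pr) ?_ fun v _ w _ h => pr_inj h
    exact (Finset.finite_toSet (∏ a, eval w (f a)).natAbs.primeFactors).subset (by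
      rintro _ ⟨v, hv, rfl⟩
      exact hsub v hv)
  have h0 : abcN (fun a => map (Int.castRingHom ℚ) (f a)) (fun i => (w i : ℚ)) =
    ∑ᶠ v ∈ A, Real.log (Ideal.absNorm v.maximalIdeal.asIdeal) := rfl
  rw [h0, finsum_mem_eq_finite_toFinset_sum _ hfin]
  have h1 : ∑ v ∈ hfin.toFinset, Real.log (Ideal.absNorm v.maximalIdeal.asIdeal) =
      ∑ p ∈ hfin.toFinset.image pr, Real.log (p : ℝ) := by
    rw [Finset.sum_image fun a _ b _ hab => pr_inj hab]
    exact Finset.sum_congr rfl fun v _ => by rw [absNorm_pr]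
  have h2 : hfin.toFinset.image pr ⊆ (∏ a, eval w (f a)).natAbs.primeFactors := by
    intro p hp
    obtain ⟨v, hv, rfl⟩ := Finset.mem_image.1 hp
    exact hsub v (hfin.mem_toFinset.1 hv)
  rw [h1, Real.log_prod fun p hp => by
    have := (Nat.prime_of_mem_primeFactors hp).ne_zero
    exact_mod_cast this]
  exact Finset.sum_le_sum_of_subset_of_nonneg h2 fun p _ _ => Real.log_natCast_nonneg p

private theorem Y4_one_le (m : ℕ) : (1 : ℝ) ≤ ∏ p ∈ m.primeFactors, (p : ℝ) := by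
  have h1 : 1 ≤ ∏ p ∈ m.primeFactors, p := Finset.one_le_prod' fun p hp => (Nat.prime_of_mem_primeFactors hp).one_lt.le
  have h2 : ((1 : ℕ) : ℝ) ≤ ((∏ p ∈ m.primeFactors, p : ℕ) : ℝ) := Nat.cast_le.2 h1
  rwa [Nat.cast_one, Nat.cast_prod] at h2

/-- The terms are not negative. -/
theorem Y4_nonneg (f : κ → MvPolynomial (Fin (n + 1)) ℤ) (w : Fin (n + 1) → ℤ) (ε : ℝ) :
    0 ≤ ‖abcDet f w‖ / (‖w‖ ^ ε * (∏ p ∈ (∏ a, eval w (f a)).natAbs.primeFactors, (p : ℝ)) *
      ((Finset.univ.gcd (abcDet f w) : ℤ) : ℝ)) := by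
  refine div_nonneg (norm_nonneg _) (mul_nonneg (mul_nonneg (Real.rpow_nonneg (norm_nonneg _) _)
    (zero_le_one.trans (Y4_one_le _))) ?_)
  by_cases h : abcDet f w = 0
  · rw [h, Finset.gcd_eq_zero_iff.2 (by simp), Int.cast_zero]
  · exact (Int.cast_pos.2 (gcd_int_pos _ h)).le

/-- The terms are bounded by the terms of the sum over the points. -/
theorem Y4_term (f : κ → MvPolynomial (Fin (n + 1)) ℤ) {w : Fin (n + 1) → ℤ} (hw : Finset.univ.gcd w = 1)
    (h : ∀ a, eval w (f a) ≠ 0) (h0 : abcDet f w ≠ 0) (ε : ℝ) :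
    ‖abcDet f w‖ / (‖w‖ ^ ε * (∏ p ∈ (∏ a, eval w (f a)).natAbs.primeFactors, (p : ℝ)) *
      ((Finset.univ.gcd (abcDet f w) : ℤ) : ℝ)) ≤
      Real.exp (logHeight (abcVec (fun a => map (Int.castRingHom ℚ) (f a)) (fun i => (w i : ℚ))) -
        abcN (fun a => map (Int.castRingHom ℚ) (f a)) (fun i => (w i : ℚ)) - ε * logHeight fun i => (w i : ℚ)) := by
  have hw0 : w ≠ 0 := Z1_prim_ne hw
  obtain ⟨s0, hs0⟩ := Function.ne_iff.1 h0
  have hne : Nonempty (Fin (n + 1) → κ) := ⟨s0⟩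
  have hR := Y4_rad f w h
  obtain ⟨R, hRd⟩ : ∃ R : ℝ, R = ∏ p ∈ (∏ a, eval w (f a)).natAbs.primeFactors, (p : ℝ) := ⟨_, rfl⟩
  have hR1 : 1 ≤ R := hRd ▸ Y4_one_le _
  rw [← hRd] at hR ⊢
  have hLw : logHeight (fun i => (w i : ℚ)) = Real.log ‖w‖ := by
    rw [logHeight_int w hw0, hw, Int.cast_one, Real.log_one, sub_zero]
  rw [Y4_det, logHeight_int _ h0, hLw]
  have ga := gcd_int_pos _ h0
  have gar : (0 : ℝ) < ((Finset.univ.gcd (abcDet f w) : ℤ) : ℝ) := Int.cast_pos.2 ga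
  have na : 0 < ‖abcDet f w‖ := norm_pos_iff.2 h0
  have nw : 0 < ‖w‖ := norm_pos_iff.2 hw0
  have hRp : 0 < R := zero_lt_one.trans_le hR1
  rw [div_le_iff₀ (mul_pos (mul_pos (Real.rpow_pos_of_pos nw _) hRp) gar), Real.rpow_def_of_pos nw]
  have h1 : Real.exp (Real.log ‖w‖ * ε) * R * ((Finset.univ.gcd (abcDet f w) : ℤ) : ℝ) =
      Real.exp (Real.log ‖w‖ * ε + Real.log R + Real.log ((Finset.univ.gcd (abcDet f w) : ℤ) : ℝ)) := by
    rw [Real.exp_add, Real.exp_add, Real.exp_log hRp, Real.exp_log gar]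
  rw [h1, ← Real.exp_add]
  refine le_trans (Real.exp_log na).ge (Real.exp_le_exp.2 ?_)
  linarith

/-- The sum over the points of projective space bounds the series. -/
theorem abcSeries_of_sumAbc (hs : SumAbc ℚ) : AbcSeries := by
  intro n κ _ _ f d hf ε hε
  classical
  by_cases hf0 : ∃ a, f a = 0
  · obtain ⟨a, ha⟩ := hf0
    refine ⟨1, one_ne_zero, ⟨0, isHomogeneous_one _ _⟩, ?_⟩
    have h1 : ∀ w, abcDet f w = 0 := by
      intro w
      funext s
      by_cases h2 : a ∈ Finset.univ.image s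
      · obtain ⟨i, -, hi⟩ := Finset.mem_image.1 h2
        rw [abcDet, Matrix.det_eq_zero_of_row_eq_zero i fun j => by
          rw [Matrix.of_apply, hi, ha, map_zero, map_zero], zero_mul]
        rfl
      · rw [abcDet, Finset.prod_eq_zero (Finset.mem_compl.2 h2) (by rw [ha, map_zero]), mul_zero]
        rfl
    have h2 : (fun w : {w : Fin (n + 1) → ℤ // Finset.univ.gcd w = 1 ∧
        eval w (1 : MvPolynomial (Fin (n + 1)) ℤ) ≠ 0} =>
        ‖abcDet f w.1‖ / (‖w.1‖ ^ ε * (∏ p ∈ (∏ a, eval w.1 (f a)).natAbs.primeFactors, (p : ℝ)) *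
          ((Finset.univ.gcd (abcDet f w.1) : ℤ) : ℝ))) = fun _ => 0 := by
      funext w
      rw [h1, norm_zero, zero_div]
    rw [h2]
    exact summable_zero
  push Not at hf0
  obtain ⟨G, A, hG, ⟨e, hGe⟩, hb⟩ := hs (Fin (n + 1)) κ (fun a => map (Int.castRingHom ℚ) (f a)) d
    (fun a => (hf a).map _) ε hε
  obtain ⟨N, G', hN, hG'⟩ := Z1_clear G
  have hNq : (N : ℚ) ≠ 0 := Int.cast_ne_zero.2 hN
  have hG'0 : G' ≠ 0 := by
    intro h1
    rw [h1, map_zero] at hG'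
    exact mul_ne_zero (C_ne_zero.2 hNq) hG hG'.symm
  have hG'h : G'.IsHomogeneous e := by
    refine IsHomogeneous.of_map (Int.castRingHom ℚ).injective_int ?_
    rw [hG']
    exact hGe.C_mul _
  refine ⟨G' * ∏ a, f a, mul_ne_zero hG'0 (Finset.prod_ne_zero_iff.2 fun a _ => hf0 a),
    ⟨_, hG'h.mul (IsHomogeneous.prod _ _ _ fun a _ => hf a)⟩, ?_⟩
  have hne : ∀ w : Fin (n + 1) → ℤ, eval w (G' * ∏ a, f a) ≠ 0 →
      eval (fun i => (w i : ℚ)) G ≠ 0 ∧ ∀ a, eval w (f a) ≠ 0 := by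
    intro w hw
    rw [map_mul, map_prod, mul_ne_zero_iff, Finset.prod_ne_zero_iff] at hw
    refine ⟨fun h1 => hw.1 ?_, fun a => hw.2 a (Finset.mem_univ a)⟩
    have h2 := Z1_cast w G'
    rw [hG', map_mul, h1, mul_zero] at h2
    exact_mod_cast h2.symm
  set F : (Fin (n + 1) → ℤ) → ℝ := fun w => ‖abcDet f w‖ /
    (‖w‖ ^ ε * (∏ p ∈ (∏ a, eval w (f a)).natAbs.primeFactors, (p : ℝ)) *
      ((Finset.univ.gcd (abcDet f w) : ℤ) : ℝ)) with hF
  have key : ∀ S : Finset (Fin (n + 1) → ℤ),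
      (∀ w ∈ S, Finset.univ.gcd w = 1 ∧ eval w (G' * ∏ a, f a) ≠ 0) →
      (∀ p ∈ S, ∀ q ∈ S, q ≠ -p) → ∑ w ∈ S, F w ≤ A := by
    intro S hS hneg
    have h0 : ∑ w ∈ S, F w = ∑ w ∈ S.filter fun w => abcDet f w ≠ 0, F w := by
      refine (Finset.sum_subset (Finset.filter_subset _ _) fun w hw hw' => ?_).symm
      rw [Finset.mem_filter, not_and, not_not] at hw'
      simp only [hF]
      rw [hw' hw, norm_zero, zero_div]
    rw [h0]
    obtain ⟨S', hS'⟩ : ∃ S' : Finset (Fin (n + 1) → ℤ), S' = S.filter fun w => abcDet f w ≠ 0 := ⟨_, rfl⟩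
    have hm : ∀ w ∈ S', w ∈ S ∧ abcDet f w ≠ 0 := fun w hw => by
      rw [hS'] at hw
      exact Finset.mem_filter.1 hw
    rw [← hS']
    have hinj : Set.InjOn (fun (p : Fin (n + 1) → ℤ) (i : Fin (n + 1)) => (p i : ℚ)) (S' : Set (Fin (n + 1) → ℤ)) := by
      intro p _ q _ h1
      funext i
      exact Int.cast_injective (congrFun h1 i : (p i : ℚ) = q i)
    have h1 := hb (S'.image fun p i => (p i : ℚ)) (by
      intro x hx
      obtain ⟨p, hp, rfl⟩ := Finset.mem_image.1 hx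
      obtain ⟨h2, h3⟩ := hm p hp
      refine ⟨(hne p (hS p h2).2).1, ?_⟩
      rw [Y4_det]
      exact Z1_cast_ne h3) (by
      intro x hx y hy hxy
      obtain ⟨p, hp, rfl⟩ := Finset.mem_image.1 hx
      obtain ⟨q, hq, rfl⟩ := Finset.mem_image.1 hy
      obtain ⟨a, ha⟩ := hxy
      rcases Z2_prop (hS p (hm p hp).1).1 (hS q (hm q hq).1).1 ha with h2 | h2
      · rw [h2]
      · exact absurd h2 (hneg p (hm p hp).1 q (hm q hq).1))
    rw [Finset.sum_image hinj] at h1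
    refine (Finset.sum_le_sum fun p hp => ?_).trans h1
    exact Y4_term f (hS p (hm p hp).1).1 (hne p (hS p (hm p hp).1).2).2 (hm p hp).2 ε
  refine summable_of_sum_le (c := A + A) (fun p => Y4_nonneg f p.1 ε) fun u => ?_
  set v : Finset (Fin (n + 1) → ℤ) := u.image Subtype.val with hv
  have hv1 : ∀ p ∈ v, Finset.univ.gcd p = 1 ∧ eval p (G' * ∏ a, f a) ≠ 0 := by
    intro p hp
    obtain ⟨p', -, rfl⟩ := Finset.mem_image.1 hp
    exact p'.2
  have h1 : ∑ p ∈ u, F p.1 = ∑ p ∈ v, F p := by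
    rw [hv, Finset.sum_image fun _ _ _ _ h => Subtype.ext h]
  change ∑ p ∈ u, F p.1 ≤ A + A
  rw [h1, ← Finset.sum_filter_add_sum_filter_not v Z2_pos]
  refine add_le_add (key _ (fun p hp => hv1 p (Finset.mem_filter.1 hp).1) fun p hp q hq h2 => ?_)
    (key _ (fun p hp => hv1 p (Finset.mem_filter.1 hp).1) fun p hp q hq h2 => ?_)
  · have h3 := (Finset.mem_filter.1 hq).2
    rw [h2] at h3
    exact Z2_pos_neg (Finset.mem_filter.1 hp).2 h3
  · have h3 := (Finset.mem_filter.1 hq).2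
    rw [h2] at h3
    exact (Z2_pos_or (Z1_prim_ne (hv1 p (Finset.mem_filter.1 hp).1).1)).elim (Finset.mem_filter.1 hp).2 h3

end Pool.Agent.Lib.MP_17a322_nt.MV
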