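import Pool.Agent.Lib.MP_17a322_nt.GQ.Fin
import Pool.Agent.Lib.MP_17a322_nt.GQ.SqInt
import Pool.Agent.Lib.MP_17a322_nt.MV.Y4

/-!
The abc conjecture in several variables, in the strong form (all forms, convergence of the series) and in the weak form
(one explicit inequality for the terms), is equivalent to Vojta's conjecture with `D = 0` for all projective varieties
over any number field.
-/

universe v

namespace Pool.Agent.Lib.MP_17a322_nt.MV

open MvPolynomial Height NumberField
open Pool.Agent.Lib.MP_17a322_nt.GR (gcd_int_pos)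
open Pool.Agent.Lib.MP_17a322_nt.GQ (SqInt sqForm sqDet sqForm_hom int_iff_rat)
open Pool.Agent.Lib.MP_17a322_nt.JAC (VojtaGauss)

/-- The terms of a convergent series are bounded. -/
theorem sqInt_of_series (h : AbcSeries) (n : ℕ) : SqInt n := by
  intro ε hε
  obtain ⟨G, hG, he, hs⟩ := h n (Fin (n + 1) × Fin (n + 1) × Fin (n + 1)) sqForm 2 sqForm_hom ε hε
  refine ⟨G, ∑' w : {w : Fin (n + 1) → ℤ // Finset.univ.gcd w = 1 ∧ eval w G ≠ 0},
    ‖abcDet sqForm w.1‖ / (‖w.1‖ ^ ε * (∏ p ∈ (∏ a, eval w.1 (sqForm a)).natAbs.primeFactors, (p : ℝ)) *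
      ((Finset.univ.gcd (abcDet sqForm w.1) : ℤ) : ℝ)), hG, he, fun w hw hwG s => ?_⟩
  have h1 := hs.le_tsum ⟨w, hw, hwG⟩ fun q _ => Y4_nonneg sqForm q.1 ε
  have hd : sqDet w = abcDet sqForm w := rfl
  rw [hd]
  by_cases ha : abcDet sqForm w = 0
  · rw [ha, Finset.gcd_eq_zero_iff.2 (by simp)]
    simp
  · have nw : 0 < ‖w‖ := norm_pos_iff.2 (Z1_prim_ne hw)
    have ga : (0 : ℝ) < ((Finset.univ.gcd (abcDet sqForm w) : ℤ) : ℝ) := Int.cast_pos.2 (gcd_int_pos _ ha)
    have hR : (0 : ℝ) < ∏ p ∈ (∏ a, eval w (sqForm a)).natAbs.primeFactors, (p : ℝ) :=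
      Finset.prod_pos fun p hp => by exact_mod_cast (Nat.prime_of_mem_primeFactors hp).pos
    rw [div_le_iff₀ (mul_pos (mul_pos (Real.rpow_pos_of_pos nw _) hR) ga), ← mul_assoc, ← mul_assoc] at h1
    have h2 := norm_le_pi_norm (abcDet sqForm w) s
    rw [Int.norm_eq_abs] at h2
    exact h2.trans h1

/-- The abc conjecture in several variables as the convergence of series is equivalent to Vojta's conjecture with
`D = 0` for all projective varieties over any number field. -/
theorem gauss_iff_series (L : Type v) [Field L] [NumberField L] : VojtaGauss L ↔ AbcSeries :=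
  ⟨fun h => abcSeries_of_sumAbc (sumAbc_of_sumJac (sumJac_of_sum ((gauss_iff_sumK ℚ L).1 h))),
    fun h => (JAC.rat_iff_gauss L).1 ((int_iff_rat L).1 (sqInt_of_series h))⟩

/-- The explicit inequality for integers is equivalent to Vojta's conjecture with `D = 0` for all projective varieties
over any number field. -/
theorem gauss_iff_sqInt (L : Type v) [Field L] [NumberField L] : VojtaGauss L ↔ ∀ n, SqInt n :=
  ⟨fun h => (int_iff_rat L).2 ((JAC.rat_iff_gauss L).2 h), fun h => (JAC.rat_iff_gauss L).1 ((int_iff_rat L).1 h)⟩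

end Pool.Agent.Lib.MP_17a322_nt.MV
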