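import Pool.Agent.Lib.MP_17a322_nt.AP.Fin
import Pool.Agent.Lib.MP_17a322_nt.MV.FinS
import Pool.Agent.Lib.MP_17a322_nt.MV.Y5

/-!
Vojta's conjecture for algebraic points of bounded degree from its case `D = 0` for the rational points of all
projective varieties.
-/

universe v

namespace Pool.Agent.Lib.MP_17a322_nt.MV

open Pool.Agent.Lib.MP_17a322_nt.AP (VojtaAlg alg_of_rat)
open Pool.Agent.Lib.MP_17a322_nt.JAC (VojtaGauss)

/-- Vojta's conjecture with `D = 0` for the rational points of all projective varieties over one number field implies
Vojta's conjecture with truncated counting functions for algebraic points of bounded degree over all number fields. -/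
theorem alg_of_gauss {L : Type v} [Field L] [NumberField L] (h : VojtaGauss L) (k : Type) [Field k] [NumberField k]
    (n r : ℕ) : VojtaAlg k n r :=
  alg_of_rat ((JAC.rat_iff_gauss L).2 h) k n r

end Pool.Agent.Lib.MP_17a322_nt.MV
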