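import Pool.Agent.Lib.MP_17a322_nt.JAC.Defs
import Pool.Agent.Lib.MP_17a322_nt.MV.GDefs

/-!
The sums over the points: `SumG` implies the case `D = 0` of Vojta's conjecture, and it follows from it and from the
bounds `GrowG` for the numbers of the points.
-/

universe u

namespace Pool.Agent.Lib.MP_17a322_nt.MV

open MvPolynomial Height NumberField
open Pool.Agent.Lib.MP_17a322_nt.EQ
open Pool.Agent.Lib.MP_17a322_nt.JAC (VojtaGauss)

/-- If the sums are bounded, then so are their terms: Vojta's conjecture for `D = 0`. -/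
theorem gauss_of_sum (K : Type u) [Field K] [NumberField K] (h : SumG K) : VojtaGauss K := by
  intro ι _ J hJ hh ε hε
  obtain ⟨G, A, hG, he, hb⟩ := h ι J hJ hh ε hε
  refine ⟨G, Real.log (max A 1), hG, he, fun p hp hpG => ?_⟩
  have h1 := hb {p} (by
    intro q hq
    rw [Finset.mem_singleton] at hq
    rw [hq]
    exact ⟨hp, hpG⟩) (by
    intro q hq r hr _
    rw [Finset.mem_singleton] at hq hr
    rw [hq, hr])
  rw [Finset.sum_singleton] at h1
  have h2 := (Real.le_log_iff_exp_le (lt_of_lt_of_le one_pos (le_max_right A 1))).2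
    (h1.trans (le_max_left A 1))
  linarith

/-- A projective variety with a rational point has a dimension. -/
private theorem T1_dim {K : Type u} [Field K] {ι : Type} [Fintype ι] (J : Ideal (MvPolynomial ι K))
    (hh : ∀ F ∈ J, ∀ i, homogeneousComponent i F ∈ J) :
    (∀ p : ι → K, ¬ IsPt J p) ∨ ∃ n : ℕ, Algebra.trdeg K (MvPolynomial ι K ⧸ J) = n + 1 := by
  have hfin : Algebra.trdeg K (MvPolynomial ι K ⧸ J) < Cardinal.aleph0 :=
    trdeg_lt_aleph0_of_finiteType
  obtain ⟨m, hm⟩ := Cardinal.lt_aleph0.1 hfin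
  rcases m with _ | n
  · left
    intro p hp
    rw [Nat.cast_zero, trdeg_eq_zero_iff] at hm
    obtain ⟨i, hi⟩ := Function.ne_iff.1 hp.1
    obtain ⟨f, hf, hf0⟩ := hm.isAlgebraic (Ideal.Quotient.mk J (X i))
    apply hf
    have hF : Polynomial.aeval (X i : MvPolynomial ι K) f ∈ J := by
      rw [← Ideal.Quotient.eq_zero_iff_mem]
      have h1 := Polynomial.aeval_algHom_apply (Ideal.Quotient.mkₐ K J) (X i : MvPolynomial ι K) f
      rw [Ideal.Quotient.mkₐ_eq_mk] at h1
      rw [← h1]
      exact hf0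
    ext k
    rw [Polynomial.coeff_zero]
    by_cases hk : k ≤ f.natDegree
    · have h1 := hh _ hF k
      have h2 : homogeneousComponent k (Polynomial.aeval (X i : MvPolynomial ι K) f) =
          f.coeff k • (X i : MvPolynomial ι K) ^ k := by
        rw [Polynomial.aeval_eq_sum_range, map_sum]
        rw [Finset.sum_eq_single k]
        · rw [map_smul, homogeneousComponent_of_mem
            ((mem_homogeneousSubmodule _ _).2 (isHomogeneous_X_pow i k)), if_pos rfl]
        · intro j _ hjk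
          rw [map_smul, homogeneousComponent_of_mem
            ((mem_homogeneousSubmodule _ _).2 (isHomogeneous_X_pow i j)), if_neg hjk.symm, smul_zero]
        · intro hk'
          exact absurd (Finset.mem_range.2 (Nat.lt_succ_of_le hk)) hk'
      rw [h2] at h1
      have h3 := hp.2 _ h1
      rw [map_smul, map_pow, aeval_X, smul_eq_mul, mul_eq_zero] at h3
      rcases h3 with h3 | h3
      · exact h3
      · exact absurd h3 (pow_ne_zero _ hi)
    · exact Polynomial.coeff_eq_zero_of_natDegree_lt (not_le.1 hk)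
  · right
    exact ⟨n, by rw [hm, Nat.cast_succ]⟩

/-- The trivial lower bound for the canonical height. -/
private theorem T1_low {K : Type u} [Field K] [NumberField K] {ι : Type} [Fintype ι]
    (J : Ideal (MvPolynomial ι K)) (p : ι → K) : -hCan J p ≤ Fintype.card ι * logHeight p := by
  unfold hCan
  have h1 : 0 ≤ hPl (Tan J p) := logHeight_nonneg _
  have h2 : Module.finrank K (Tan J p) ≤ Fintype.card ι := by
    have h3 := Submodule.finrank_le (Tan J p)
    rwa [Module.finrank_fintype_fun_eq_card] at h3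
  have h4 : (Module.finrank K (Tan J p) : ℝ) * logHeight p ≤ Fintype.card ι * logHeight p :=
    mul_le_mul_of_nonneg_right (by exact_mod_cast h2) (logHeight_nonneg _)
  linarith

/-- The class of a point. -/
private theorem T1_class {η D h v : ℝ} (hη : 0 < η) (h0 : 0 ≤ h) (hv : v ≤ D * h) {N : ℕ}
    (hN : D / η ≤ N) : ∃ j : Fin (N + 1), v ≤ (j : ℕ) * η * h ∧
      ((j : ℕ) = 0 ∨ ((j : ℕ) - 1) * η * h ≤ v) := by
  classical
  have hex : ∃ j : ℕ, v ≤ j * η * h := by
    refine ⟨N, hv.trans (mul_le_mul_of_nonneg_right ?_ h0)⟩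
    rwa [div_le_iff₀ hη] at hN
  have hle : Nat.find hex ≤ N := Nat.find_min' hex
    (hv.trans (mul_le_mul_of_nonneg_right (by rwa [div_le_iff₀ hη] at hN) h0))
  refine ⟨⟨Nat.find hex, Nat.lt_succ_of_le hle⟩, Nat.find_spec hex, ?_⟩
  rcases Nat.eq_zero_or_pos (Nat.find hex) with h1 | h1
  · exact Or.inl h1
  · right
    have h2 := Nat.find_min hex (Nat.sub_lt h1 one_pos)
    rw [not_le, Nat.cast_pred h1] at h2
    exact h2.le

theorem sum_of_grow {K : Type u} [Field K] [NumberField K] (hV : VojtaGauss K)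
    (h : ∀ (n : ℕ) (a : ℝ), 0 ≤ a → GrowG K n a) : SumG K := by
  classical
  intro ι _ J hJ hh δ hδ
  rcases T1_dim J hh with hno | ⟨n, hn⟩
  · refine ⟨1, 0, fun h1 => hJ.ne_top ((Ideal.eq_top_iff_one _).2 h1), ⟨0, isHomogeneous_one _ _⟩,
      fun S hS _ => ?_⟩
    have hS0 : S = ∅ := Finset.eq_empty_of_forall_notMem fun p hp => hno p (hS p hp).1
    rw [hS0, Finset.sum_empty]
  have hη : 0 < δ / 4 := by positivity
  obtain ⟨η, hηd⟩ : ∃ η, η = δ / 4 := ⟨_, rfl⟩
  rw [← hηd] at hη
  obtain ⟨G₀, C₀, hG₀, ⟨e₀, he₀⟩, hp₀⟩ := hV ι J hJ hh η hη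
  obtain ⟨N, hN⟩ := exists_nat_ge ((Fintype.card ι : ℝ) / η)
  have hgr := fun j : Fin (N + 1) => h n ((j : ℕ) * η) (by positivity) ι J hJ hh hn η hη
  choose G A hG hGe hb using hgr
  choose e he using hGe
  obtain ⟨r, hr⟩ : ∃ r, r = Real.exp (-(δ / 2)) := ⟨_, rfl⟩
  have hr0 : 0 ≤ r := by rw [hr]; exact (Real.exp_pos _).le
  have hr1 : r < 1 := by
    rw [hr, Real.exp_lt_one_iff]
    linarith
  obtain ⟨Q, hQ⟩ : ∃ Q, Q = Real.exp ((N + 1) * η + |C₀|) := ⟨_, rfl⟩
  have hQ0 : 0 ≤ Q := by rw [hQ]; exact (Real.exp_pos _).le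
  refine ⟨G₀ * ∏ j, G j, Q * (∑ j, |A j|) * (1 - r)⁻¹, ?_, ⟨e₀ + ∑ j, e j, ?_⟩, fun S hS hpr => ?_⟩
  · intro h1
    rcases hJ.mem_or_mem h1 with h2 | h2
    · exact hG₀ h2
    · rw [hJ.prod_mem_iff] at h2
      obtain ⟨j, _, hj⟩ := h2
      exact hG j hj
  · exact he₀.mul (IsHomogeneous.prod _ _ _ fun j _ => he j)
  · have hcl := fun p : ι → K => T1_class hη (logHeight_nonneg p) (T1_low J p) hN
    choose c hc1 hc2 using hcl
    obtain ⟨M, hM⟩ : ∃ M : ℕ, ∀ p ∈ S, ⌊logHeight p⌋₊ < M :=
      ⟨S.sup (fun p => ⌊logHeight p⌋₊) + 1, fun p hp =>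
        Nat.lt_succ_of_le (Finset.le_sup (f := fun p => ⌊logHeight p⌋₊) hp)⟩
    have hmaps : ∀ p ∈ S, ((⌊logHeight p⌋₊, c p) : ℕ × Fin (N + 1)) ∈
        Finset.range M ×ˢ (Finset.univ : Finset (Fin (N + 1))) := by
      intro p hp
      rw [Finset.mem_product]
      exact ⟨Finset.mem_range.2 (hM p hp), Finset.mem_univ _⟩
    rw [← Finset.sum_fiberwise_of_maps_to hmaps]
    have hterm : ∀ z ∈ Finset.range M ×ˢ (Finset.univ : Finset (Fin (N + 1))),
        ∑ p ∈ S.filter (fun p => ((⌊logHeight p⌋₊, c p) : ℕ × Fin (N + 1)) = z),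
          Real.exp (hCan J p - δ * logHeight p) ≤ Q * |A z.2| * r ^ z.1 := by
      rintro ⟨m, j⟩ _
      obtain ⟨W, hW⟩ : ∃ W : Finset (ι → K),
        W = S.filter (fun p => ((⌊logHeight p⌋₊, c p) : ℕ × Fin (N + 1)) = (m, j)) := ⟨_, rfl⟩
      rw [← hW]
      have hmem : ∀ p ∈ W, p ∈ S ∧ ⌊logHeight p⌋₊ = m ∧ c p = j := by
        intro p hp
        rw [hW, Finset.mem_filter, Prod.mk.injEq] at hp
        exact hp
      have hcard : (W.card : ℝ) ≤ A j * Real.exp (((j : ℕ) * η + η) * (m + 1)) := by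
        refine hb j (m + 1) W ?_ ?_
        · intro p hp
          obtain ⟨h1, h2, h3⟩ := hmem p hp
          obtain ⟨h4, h5⟩ := hS p h1
          rw [map_mul, map_prod] at h5
          refine ⟨h4, ?_, ?_, ?_⟩
          · exact Finset.prod_ne_zero_iff.1 (right_ne_zero_of_mul h5) j (Finset.mem_univ _)
          · rw [← h2]
            exact (Nat.lt_floor_add_one _).le
          · rw [← h3]
            exact hc1 p
        · intro p hp q hq
          exact hpr p (hmem p hp).1 q (hmem q hq).1
      have hval : ∀ p ∈ W, Real.exp (hCan J p - δ * logHeight p) ≤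
          Q * r ^ m * Real.exp (-(((j : ℕ) * η + η) * (m + 1))) := by
        intro p hp
        obtain ⟨h1, h2, h3⟩ := hmem p hp
        obtain ⟨h4, h5⟩ := hS p h1
        rw [map_mul, map_prod] at h5
        have h6 := hp₀ p h4 (left_ne_zero_of_mul h5)
        have h7 : (m : ℝ) ≤ logHeight p := by
          rw [← h2]
          exact Nat.floor_le (logHeight_nonneg p)
        have hm0 : (0 : ℝ) ≤ m := Nat.cast_nonneg m
        have hj1 : ((j : ℕ) : ℝ) ≤ N := by exact_mod_cast Nat.le_of_lt_succ j.2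
        have hj0 : (0 : ℝ) ≤ ((j : ℕ) : ℝ) := Nat.cast_nonneg _
        rw [hQ, hr, ← Real.exp_nat_mul, ← Real.exp_add, ← Real.exp_add, Real.exp_le_exp]
        have hjN : ((j : ℕ) : ℝ) * η ≤ N * η := mul_le_mul_of_nonneg_right hj1 hη.le
        have hC : C₀ ≤ |C₀| := le_abs_self _
        have hC0 : 0 ≤ |C₀| := abs_nonneg _
        have h8 := hc2 p
        rw [h3] at h8
        have hδη : δ = 4 * η := by linarith
        rcases h8 with h8 | h8
        · rw [h8, Nat.cast_zero, zero_mul, zero_add]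
          have h9 : (η - δ) * logHeight p ≤ (η - δ) * m :=
            mul_le_mul_of_nonpos_left h7 (by linarith)
          rw [hδη] at h9 ⊢
          have hNη : 0 ≤ (N : ℝ) * η := by positivity
          nlinarith
        · have h9 : (((j : ℕ) : ℝ) - 1) * η * m + δ * m ≤
              (((j : ℕ) : ℝ) - 1) * η * logHeight p + δ * logHeight p := by
            have h10 : 0 ≤ ((((j : ℕ) : ℝ) - 1) * η + δ) * (logHeight p - m) := by
              apply mul_nonneg _ (by linarith)
              rw [hδη]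
              nlinarith
            nlinarith
          rw [hδη] at h9 ⊢
          nlinarith
      calc ∑ p ∈ W, Real.exp (hCan J p - δ * logHeight p)
          ≤ ∑ _p ∈ W, Q * r ^ m * Real.exp (-(((j : ℕ) * η + η) * (m + 1))) :=
            Finset.sum_le_sum hval
        _ = W.card * (Q * r ^ m * Real.exp (-(((j : ℕ) * η + η) * (m + 1)))) := by
            rw [Finset.sum_const, nsmul_eq_mul]
        _ ≤ A j * Real.exp (((j : ℕ) * η + η) * (m + 1)) *
            (Q * r ^ m * Real.exp (-(((j : ℕ) * η + η) * (m + 1)))) :=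
            mul_le_mul_of_nonneg_right hcard (by positivity)
        _ = Q * A j * r ^ m *
            Real.exp (((j : ℕ) * η + η) * (m + 1) + -(((j : ℕ) * η + η) * (m + 1))) := by
            rw [Real.exp_add]
            ring
        _ = Q * A j * r ^ m := by rw [add_neg_cancel, Real.exp_zero, mul_one]
        _ ≤ Q * |A j| * r ^ m := by
            gcongr
            exact le_abs_self _
    refine (Finset.sum_le_sum hterm).trans ?_
    rw [Finset.sum_product]
    calc ∑ m ∈ Finset.range M, ∑ j : Fin (N + 1), Q * |A j| * r ^ m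
        = Q * (∑ j, |A j|) * ∑ m ∈ Finset.range M, r ^ m := by
          rw [Finset.mul_sum]
          refine Finset.sum_congr rfl fun m _ => ?_
          rw [Finset.mul_sum, Finset.sum_mul]
      _ ≤ Q * (∑ j, |A j|) * (1 - r)⁻¹ := by
          refine mul_le_mul_of_nonneg_left ?_
            (mul_nonneg hQ0 (Finset.sum_nonneg fun j _ => abs_nonneg _))
          rw [← tsum_geometric_of_lt_one hr0 hr1]
          exact (summable_geometric_of_lt_one hr0 hr1).sum_le_tsum _
            fun m _ => pow_nonneg hr0 m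

end Pool.Agent.Lib.MP_17a322_nt.MV
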