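import Pool.Agent.Lib.MP_17a322_nt.EQ.Main1

/-!
The sums over the points: blow-ups.
-/

set_option linter.unusedSectionVars false

universe u

namespace Pool.Agent.Lib.MP_17a322_nt.MV

open MvPolynomial Height NumberField
open Pool.Agent.Lib.MP_17a322_nt.EQ

/-- The sum for the variety `J`, the list of divisors `f` and the functional `F`. -/
def PhiS {K : Type u} [Field K] [NumberField K] {ι κ β : Type} [Fintype ι] (J : Ideal (MvPolynomial ι K)) (e : ℕ)
    (f : β → κ → MvPolynomial ι K) (F : Pl K → (β → ℝ) → ℝ) : Prop :=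
  ∀ ε : ℝ, 0 < ε → ∃ (G : MvPolynomial ι K) (A : ℝ), G ∉ J ∧ (∃ d, G.IsHomogeneous d) ∧
    (∀ q : ι → K, IsPt J q → eval q G ≠ 0 → Off f q) ∧
    ∀ P : Finset (ι → K), (∀ p ∈ P, IsPt J p ∧ eval p G ≠ 0) →
      (∀ p ∈ P, ∀ q ∈ P, (∃ a : K, q = a • p) → p = q) →
      ∑ q ∈ P, Real.exp (hCan J q + psum (fun v => F v (prf e f q v)) - ε * logHeight q) ≤ A

/-- Sums over finite sets of points. -/
theorem U1_sum {K : Type*} [Field K] {ι ι' : Type*} (P : Finset (ι → K)) (φ : (ι → K) → (ι' → K))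
    (a : (ι → K) → ℝ) (b : (ι' → K) → ℝ) {C A : ℝ} (R : (ι' → K) → Prop)
    (hR : ∀ p ∈ P, R (φ p)) (h : ∀ p ∈ P, a p ≤ b (φ p) + C)
    (hφ : ∀ p ∈ P, ∀ q ∈ P, (∃ c : K, φ q = c • φ p) → ∃ c : K, q = c • p)
    (hP : ∀ p ∈ P, ∀ q ∈ P, (∃ c : K, q = c • p) → p = q)
    (hb : ∀ Q : Finset (ι' → K), (∀ p ∈ Q, R p) → (∀ p ∈ Q, ∀ q ∈ Q, (∃ c : K, q = c • p) → p = q) →
      ∑ q ∈ Q, Real.exp (b q) ≤ A) :
    ∑ p ∈ P, Real.exp (a p) ≤ Real.exp C * A := by
  classical
  have hinj : Set.InjOn φ (P : Set (ι → K)) := fun p hp q hq hpq =>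
    hP p hp q hq (hφ p hp q hq ⟨1, by rw [one_smul, hpq]⟩)
  have h1 := hb (P.image φ) (by
    intro x hx
    obtain ⟨p, hp, rfl⟩ := Finset.mem_image.1 hx
    exact hR p hp) (by
    intro x hx y hy hxy
    obtain ⟨p, hp, rfl⟩ := Finset.mem_image.1 hx
    obtain ⟨q, hq, rfl⟩ := Finset.mem_image.1 hy
    rw [hP p hp q hq (hφ p hp q hq hxy)])
  rw [Finset.sum_image hinj] at h1
  refine le_trans ?_ (mul_le_mul_of_nonneg_left h1 (Real.exp_pos C).le)
  rw [Finset.mul_sum]
  refine Finset.sum_le_sum fun p hp => ?_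
  rw [← Real.exp_add, Real.exp_le_exp]
  linarith [h p hp]

/-- The first factor of a tensor product. -/
theorem U1_sg {K : Type*} [Field K] {ι Λ : Type*} {q q' : ι → K} {w w' : Λ → K} (hw : ∃ l, w' l ≠ 0)
    (h : ∃ c : K, (fun z : ι × Λ => q' z.1 * w' z.2) = c • fun z : ι × Λ => q z.1 * w z.2) :
    ∃ c : K, q' = c • q := by
  obtain ⟨l, hl⟩ := hw
  obtain ⟨c, hc⟩ := h
  refine ⟨c * w l / w' l, funext fun i => ?_⟩
  have h1 := congrFun hc (i, l)
  simp only [Pi.smul_apply, smul_eq_mul] at h1 ⊢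
  rw [div_mul_eq_mul_div, eq_div_iff hl, h1]
  ring

section

variable {K : Type u} [Field K] [NumberField K] {ι κ β : Type} [Fintype ι] [Fintype κ] [Fintype β]
  [DecidableEq β]

private theorem U1_iSup_sum [Nonempty κ] (g h : κ → ℝ) :
    (⨆ l : κ ⊕ κ, Sum.elim g h l) = max (⨆ j, g j) (⨆ j, h j) := by
  have hg : BddAbove (Set.range g) := (Set.finite_range g).bddAbove
  have hh : BddAbove (Set.range h) := (Set.finite_range h).bddAbove
  have hs : BddAbove (Set.range (Sum.elim g h)) := (Set.finite_range _).bddAbove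
  apply le_antisymm
  · refine ciSup_le fun l => ?_
    rcases l with j | j
    · exact le_trans (le_ciSup hg j) (le_max_left _ _)
    · exact le_trans (le_ciSup hh j) (le_max_right _ _)
  · refine max_le (ciSup_le fun j => ?_) (ciSup_le fun j => ?_)
    · exact le_ciSup hs (Sum.inl j)
    · exact le_ciSup hs (Sum.inr j)

private theorem U1_min {e : ℕ} {f : β → κ → MvPolynomial ι K} {a b : β} {q : ι → K}
    (ho : Off f q) (v : Pl K) :
    min (prf e f q v a) (prf e f q v b) = lam (av v) e (cen (f a) (f b)) q := by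
  obtain ⟨ja, hja⟩ := ho a
  obtain ⟨jb, hjb⟩ := ho b
  have : Nonempty κ := ⟨ja⟩
  have ha : 0 < ⨆ j, av v (eval q (f a j)) :=
    av_iSup_pos (x := fun j => eval q (f a j)) (Function.ne_iff.2 ⟨ja, hja⟩) v
  have hb : 0 < ⨆ j, av v (eval q (f b j)) :=
    av_iSup_pos (x := fun j => eval q (f b j)) (Function.ne_iff.2 ⟨jb, hjb⟩) v
  have hw : (⨆ l, av v (eval q (cen (f a) (f b) l))) =
      max (⨆ j, av v (eval q (f a j))) (⨆ j, av v (eval q (f b j))) := by
    rw [← U1_iSup_sum]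
    congr 1
    funext l
    rcases l with j | j <;> rfl
  have hlog : Real.log (max (⨆ j, av v (eval q (f a j))) (⨆ j, av v (eval q (f b j)))) =
      max (Real.log (⨆ j, av v (eval q (f a j)))) (Real.log (⨆ j, av v (eval q (f b j)))) := by
    rcases le_total (⨆ j, av v (eval q (f a j))) (⨆ j, av v (eval q (f b j))) with h | h
    · rw [max_eq_right h, max_eq_right (Real.log_le_log ha h)]
    · rw [max_eq_left h, max_eq_left (Real.log_le_log hb h)]
  unfold prf lam
  rw [hw, hlog]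
  rcases le_total (Real.log (⨆ j, av v (eval q (f a j))))
    (Real.log (⨆ j, av v (eval q (f b j)))) with h | h
  · rw [max_eq_right h, min_eq_right (by linarith)]
  · rw [max_eq_left h, min_eq_left (by linarith)]

/-- The sum for the blow-up bounds the one for the variety. -/
theorem blow_PhiS {F : Pl K → (β → ℝ) → ℝ} (hF : ∀ v, F v 0 = 0) {J : Ideal (MvPolynomial ι K)}
    {n e : ℕ} {f : β → κ → MvPolynomial ι K} (hJ : Smooth J n) (hf : Snc J e f) {a b c : β}
    (hab : a ≠ b) (hac : a ≠ c) (hbc : b ≠ c)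
    (H : PhiS (bJ J (cen (f a) (f b))) e (bf e f (a, b, c)) F) :
    PhiS J e f fun v x => F v (stp (a, b, c) x) + min (x a) (x b) := by
  intro ε hε
  have hJ' := (blow_snc hJ hf hab hac hbc).1
  obtain ⟨C₁, hC₁⟩ := bq_height (a := a) (b := b) hf.homog
  obtain ⟨C₂, hC₂⟩ := hCan_blow hJ hf hab hJ'
  have he1 : (0 : ℝ) < (e : ℝ) + 1 := by positivity
  obtain ⟨G', A', hG', ⟨d, hd⟩, -, hin⟩ := H (ε / (e + 1)) (div_pos hε he1)
  have hprime := hJ.prime
  by_cases hex : ∃ p : ι → K, IsPt J p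
  swap
  · refine ⟨1, 0, ?_, ⟨0, isHomogeneous_one _ _⟩, fun q hq => absurd ⟨q, hq⟩ hex, fun P hP _ => ?_⟩
    · exact fun h => hprime.ne_top ((Ideal.eq_top_iff_one J).2 h)
    · have h1 : P = ∅ := Finset.eq_empty_of_forall_notMem fun p hp => hex ⟨p, (hP p hp).1⟩
      rw [h1, Finset.sum_empty]
  obtain ⟨p, hp⟩ := hex
  choose js hjs using fun i => hf.exists_notMem hp i
  have hoff : ∀ q : ι → K, eval q (aeval (fun z : ι × (κ ⊕ κ) => X z.1 * cen (f a) (f b) z.2) G' *
      ∏ i, f i (js i)) ≠ 0 → Off f q := by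
    intro q hG
    rw [map_mul, map_prod] at hG
    have hG2 := right_ne_zero_of_mul hG
    exact fun i => ⟨js i, fun h => hG2 (Finset.prod_eq_zero (Finset.mem_univ i) h)⟩
  refine ⟨aeval (fun z : ι × (κ ⊕ κ) => X z.1 * cen (f a) (f b) z.2) G' * ∏ i, f i (js i),
    Real.exp (C₂ + ε / (e + 1) * C₁) * A', ?_, ?_, fun q _ hG => hoff q hG, ?_⟩
  · intro h
    rcases hprime.mem_or_mem h with h | h
    · exact hG' (mem_bJ.2 h)
    · obtain ⟨i, _, hi⟩ := (Ideal.IsPrime.prod_mem_iff (hp := hprime)).1 h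
      exact hjs i hi
  · have h1 : (aeval (fun z : ι × (κ ⊕ κ) => (X z.1 : MvPolynomial ι K) *
        cen (f a) (f b) z.2) G').IsHomogeneous ((1 + e) * d) :=
      hd.aeval _ fun z => (isHomogeneous_X _ _).mul (cen_hom (hf.homog a) (hf.homog b) z.2)
    have h2 : (∏ i, f i (js i)).IsHomogeneous (∑ _i : β, e) :=
      IsHomogeneous.prod Finset.univ (fun i => f i (js i)) (fun _ => e)
        fun i _ => hf.homog i (js i)
    exact ⟨_, h1.mul h2⟩
  · intro P hP hprop
    refine U1_sum P (bq f a b) _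
      (fun q' => hCan (bJ J (cen (f a) (f b))) q' + psum (fun v => F v (prf e (bf e f (a, b, c)) q' v)) -
        ε / (e + 1) * logHeight q')
      (fun q' => IsPt (bJ J (cen (f a) (f b))) q' ∧ eval q' G' ≠ 0) ?_ ?_ ?_ hprop hin
    · intro q hq
      obtain ⟨hq1, hG⟩ := hP q hq
      refine ⟨bq_IsPt (a := a) (b := b) hq1 (hoff q hG), ?_⟩
      rw [map_mul, map_prod] at hG
      have hG1 := left_ne_zero_of_mul hG
      have h1 : eval q (aeval (fun z : ι × (κ ⊕ κ) => (X z.1 : MvPolynomial ι K) *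
          cen (f a) (f b) z.2) G') = eval (bq f a b q) G' := by
        have h2 := aeval_comp (K := K) (L := K) q (fun z : ι × (κ ⊕ κ) =>
          (X z.1 : MvPolynomial ι K) * cen (f a) (f b) z.2) G'
        have h3 : (fun z : ι × (κ ⊕ κ) => aeval q ((X z.1 : MvPolynomial ι K) *
            cen (f a) (f b) z.2)) = bq f a b q := by
          funext z
          rw [map_mul, aeval_X]
          rfl
        rw [h3] at h2
        exact h2
      rw [← h1]
      exact hG1
    · intro q hq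
      obtain ⟨hq1, hG⟩ := hP q hq
      have ho := hoff q hG
      have hprf : (fun v => F v (prf e (bf e f (a, b, c)) (bq f a b q) v)) =
          fun v => F v (stp (a, b, c) (prf e f q v)) := by
        funext v
        rw [bq_prf hf.pos hf.homog hab hac hbc hq1.1 ho v]
      rw [hprf]
      have hFS1 : FS fun v => F v (stp (a, b, c) (prf e f q v)) :=
        FS_comp (F := fun v x => F v (stp (a, b, c) x)) (fun v => by rw [stp_zero, hF])
          (fun i => FS_prf e f q i)
      have hFS2 : FS fun v => min (prf e f q v a) (prf e f q v b) :=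
        FS_comp (F := fun _ x => min (x a) (x b)) (fun v => min_self _) (fun i => FS_prf e f q i)
      have hmin : psum (fun v => min (prf e f q v a) (prf e f q v b)) =
          e * logHeight q - logHeight fun j => eval q (cen (f a) (f b) j) := by
        rw [← psum_lam hq1.1]
        · congr 1
          funext v
          exact U1_min ho v
        · obtain ⟨j, hj⟩ := ho a
          exact ⟨Sum.inl j, hj⟩
      rw [psum_add hFS1 hFS2, hmin]
      have h3 := hC₂ q hq1 ho
      have h4 := hC₁ q hq1.1 ho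
      have h5 : ε / (e + 1) * logHeight (bq f a b q) ≤
          ε / (e + 1) * ((e + 1) * logHeight q + C₁) :=
        mul_le_mul_of_nonneg_left h4 (div_pos hε he1).le
      have h6 : ε / (e + 1) * ((e + 1) * logHeight q + C₁) =
          ε * logHeight q + ε / (e + 1) * C₁ := by
        field_simp
      rw [h6] at h5
      linarith
    · intro q _ q' hq' h
      obtain ⟨-, hG⟩ := hP q' hq'
      obtain ⟨j, hj⟩ := hoff q' hG a
      exact U1_sg (w := fun l => eval q (cen (f a) (f b) l)) (w' := fun l => eval q' (cen (f a) (f b) l))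
        ⟨Sum.inl j, hj⟩ h

/-- The effect of a list of blow-ups. -/
theorem run_PhiS {Q : ∀ ι : Type, Ideal (MvPolynomial ι K) → Prop} {n : ℕ} (hQ : Cls Q)
    (F : Pl K → (β → ℝ) → ℝ) (hF : ∀ v, F v 0 = 0)
    (H : ∀ (ι κ : Type) [Fintype ι] [Fintype κ] (J : Ideal (MvPolynomial ι K)) (e : ℕ)
      (f : β → κ → MvPolynomial ι K), Q ι J → Smooth J n → Snc J e f → PhiS J e f F)
    (l : List (β × β × β)) (hl : ∀ s ∈ l, s.1 ≠ s.2.1 ∧ s.1 ≠ s.2.2 ∧ s.2.1 ≠ s.2.2)
    (ι κ : Type) [Fintype ι] [Fintype κ] (J : Ideal (MvPolynomial ι K)) (e : ℕ)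
    (f : β → κ → MvPolynomial ι K) (hJQ : Q ι J) (hJ : Smooth J n) (hf : Snc J e f) :
    PhiS J e f fun v x => F v (run l x) + gain l x := by
  induction l generalizing ι κ with
  | nil =>
    have h1 := H ι κ J e f hJQ hJ hf
    simpa only [run, gain, add_zero] using h1
  | cons s l ih =>
    obtain ⟨a, b, c⟩ := s
    obtain ⟨hab, hac, hbc⟩ := hl (a, b, c) (List.mem_cons_self ..)
    have h1 := blow_snc hJ hf hab hac hbc
    have h2 := ih (fun s hs => hl s (List.mem_cons_of_mem _ hs)) (ι × (κ ⊕ κ))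
      (Ix ι (κ ⊕ κ) (κ ⊕ κ)) (bJ J (cen (f a) (f b))) (bf e f (a, b, c))
      (hQ.blow ι (κ ⊕ κ) J _ e (cen_hom (hf.homog a) (hf.homog b)) hJQ) h1.1 h1.2
    have h3 := blow_PhiS (F := fun v x => F v (run l x) + gain l x)
      (fun v => by rw [run_zero, gain_zero, hF, add_zero]) hJ hf hab hac hbc h2
    have h4 : (fun (v : Pl K) (x : β → ℝ) => F v (run ((a, b, c) :: l) x) +
        gain ((a, b, c) :: l) x) = fun v x =>
        F v (run l (stp (a, b, c) x)) + gain l (stp (a, b, c) x) + min (x a) (x b) := by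
      funext v x
      rw [run, gain]
      ring
    rw [h4]
    exact h3

end

end Pool.Agent.Lib.MP_17a322_nt.MV
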