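import Pool.Agent.Lib.MP_17a322_nt.EQ.Defs

/-!
Multiples of vectors over a number field with integral coordinates which have almost no common factor.
-/

universe u

namespace Pool.Agent.Lib.MP_17a322_nt.MV

open Height NumberField

/-- PROOF: Let `p = y / b` with `y : ι → 𝓞 K`, `b ≠ 0` (`IsLocalization.exist_integer_multiples_of_finite`), and
`𝔞 = span (range y) ≠ ⊥`. There is an ideal `𝔟 ≠ ⊥` in the inverse class of `𝔞` from a finite set of representatives of the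
class group (`ClassGroup.mk0`, `Fintype (ClassGroup (𝓞 K))`), so `𝔞 * 𝔟 = (c)`, `c ≠ 0`. For `t ∈ 𝔟` with `t ≠ 0` from a
finite set of chosen nonzero elements of the representatives, `y_a t ∈ 𝔞 𝔟 = (c)`, so `(t / c) y` is integral and its
entries generate the ideal `𝔞 t / c`, `𝔞 t 𝔟 = (c) t`, so `absNorm (ideal) * absNorm 𝔟 = absNorm (t)`, which is bounded.
(ANOTHER WAY: Minkowski's bound for the fractional ideal `𝔞⁻¹`.) -/
theorem exists_int (K : Type u) [Field K] [NumberField K] : ∃ N : ℕ, ∀ (ι : Type) [Fintype ι] (p : ι → K), p ≠ 0 →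
    ∃ (a : K) (y : ι → 𝓞 K), a ≠ 0 ∧ (∀ i, (y i : K) = a * p i) ∧
      Ideal.absNorm (Ideal.span (Set.range y)) ≤ N ∧ Ideal.span (Set.range y) ≠ ⊥ := by
  classical
  have hcl : ∀ c : ClassGroup (𝓞 K), ∃ (B : nonZeroDivisors (Ideal (𝓞 K))) (t : 𝓞 K),
      ClassGroup.mk0 B = c ∧ t ∈ (B : Ideal (𝓞 K)) ∧ t ≠ 0 := by
    intro c
    obtain ⟨B, hB⟩ := ClassGroup.mk0_surjective c
    obtain ⟨t, ht, ht0⟩ := Submodule.exists_mem_ne_zero_of_ne_bot (nonZeroDivisors.ne_zero B.2)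
    exact ⟨B, t, hB, ht, ht0⟩
  choose B t hB ht ht0 using hcl
  refine ⟨∑ c, Ideal.absNorm (Ideal.span {t c}), fun ι _ p hp => ?_⟩
  obtain ⟨b, hb⟩ := IsLocalization.exist_integer_multiples_of_finite (nonZeroDivisors (𝓞 K)) p
  choose y hy using hb
  have hinj : Function.Injective (algebraMap (𝓞 K) K) := IsFractionRing.injective (𝓞 K) K
  have hb0 : algebraMap (𝓞 K) K (b : 𝓞 K) ≠ 0 := by
    have h1 : (b : 𝓞 K) ≠ 0 := nonZeroDivisors.ne_zero b.2
    exact fun h => h1 (hinj (by rw [h, map_zero]))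
  have hy' : ∀ i, algebraMap (𝓞 K) K (y i) = algebraMap (𝓞 K) K (b : 𝓞 K) * p i := by
    intro i
    have h1 := hy i
    rw [Algebra.smul_def] at h1
    exact h1
  have hA : Ideal.span (Set.range y) ≠ ⊥ := by
    obtain ⟨i, hi⟩ := Function.ne_iff.1 hp
    intro h
    have h1 : y i = 0 := by
      have h2 : y i ∈ Ideal.span (Set.range y) := Ideal.subset_span ⟨i, rfl⟩
      rw [h] at h2
      exact (Submodule.mem_bot _).1 h2
    have h3 := hy' i
    rw [h1, map_zero] at h3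
    exact mul_ne_zero hb0 hi h3.symm
  obtain ⟨A, hAdef⟩ : ∃ A : nonZeroDivisors (Ideal (𝓞 K)), (A : Ideal (𝓞 K)) = Ideal.span (Set.range y) :=
    ⟨⟨Ideal.span (Set.range y), mem_nonZeroDivisors_of_ne_zero hA⟩, rfl⟩
  obtain ⟨c, hc⟩ : ∃ c : ClassGroup (𝓞 K), c = (ClassGroup.mk0 A)⁻¹ := ⟨_, rfl⟩
  have hone : ClassGroup.mk0 (A * B c) = 1 := by
    rw [map_mul, hB, hc, mul_inv_cancel]
  have hpr : ((A * B c : nonZeroDivisors (Ideal (𝓞 K))) : Ideal (𝓞 K)).IsPrincipal :=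
    (ClassGroup.mk0_eq_one_iff (A * B c).2).1 hone
  obtain ⟨c₀, hc₀⟩ := hpr.principal
  have hc₀' : Ideal.span (Set.range y) * (B c : Ideal (𝓞 K)) = Ideal.span {c₀} := by
    rw [← hAdef]
    exact hc₀
  have hc0 : c₀ ≠ 0 := by
    intro h
    rw [h, Ideal.span_singleton_zero] at hc₀'
    rcases Ideal.mul_eq_bot.1 hc₀' with h1 | h1
    · exact hA h1
    · exact nonZeroDivisors.ne_zero (B c).2 h1
  have hz : ∀ i, ∃ z : 𝓞 K, t c * y i = c₀ * z := by
    intro i
    have h1 : y i * t c ∈ Ideal.span (Set.range y) * (B c : Ideal (𝓞 K)) :=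
      Ideal.mul_mem_mul (Ideal.subset_span ⟨i, rfl⟩) (ht c)
    rw [hc₀', Ideal.mem_span_singleton'] at h1
    obtain ⟨z, hz⟩ := h1
    exact ⟨z, by rw [mul_comm (t c), ← hz, mul_comm]⟩
  choose z hz using hz
  have hmem : ∀ x ∈ Ideal.span (Set.range y), ∃ z' ∈ Ideal.span (Set.range z), t c * x = c₀ * z' := by
    intro x hx
    induction hx using Submodule.span_induction with
    | mem x hx =>
      obtain ⟨i, rfl⟩ := hx
      exact ⟨z i, Ideal.subset_span ⟨i, rfl⟩, hz i⟩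
    | zero => exact ⟨0, zero_mem _, by rw [mul_zero, mul_zero]⟩
    | add x x' _ _ h1 h2 =>
      obtain ⟨w, hw, hw'⟩ := h1
      obtain ⟨v, hv, hv'⟩ := h2
      exact ⟨w + v, add_mem hw hv, by rw [mul_add, mul_add, hw', hv']⟩
    | smul r x _ h1 =>
      obtain ⟨w, hw, hw'⟩ := h1
      exact ⟨r * w, Ideal.mul_mem_left _ r hw, by rw [smul_eq_mul, mul_left_comm, hw', mul_left_comm]⟩
  have htmem : t c ∈ Ideal.span (Set.range z) := by
    have h1 : c₀ ∈ Ideal.span (Set.range y) := by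
      have h2 : c₀ ∈ Ideal.span (Set.range y) * (B c : Ideal (𝓞 K)) := by
        rw [hc₀']
        exact Ideal.mem_span_singleton_self c₀
      have h3 : Ideal.span (Set.range y) * (B c : Ideal (𝓞 K)) ≤ Ideal.span (Set.range y) := Ideal.mul_le_left
      exact h3 h2
    obtain ⟨z', hz', h3⟩ := hmem c₀ h1
    rw [mul_comm] at h3
    rw [mul_left_cancel₀ hc0 h3]
    exact hz'
  have hne : Ideal.span (Set.range z) ≠ ⊥ := by
    intro h
    rw [h] at htmem
    exact ht0 c ((Submodule.mem_bot _).1 htmem)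
  have hc0K : algebraMap (𝓞 K) K c₀ ≠ 0 := fun h => hc0 (hinj (by rw [h, map_zero]))
  have htK : algebraMap (𝓞 K) K (t c) ≠ 0 := fun h => ht0 c (hinj (by rw [h, map_zero]))
  have hzK : ∀ i, algebraMap (𝓞 K) K (z i) =
      algebraMap (𝓞 K) K (t c) * algebraMap (𝓞 K) K (b : 𝓞 K) / algebraMap (𝓞 K) K c₀ * p i := by
    intro i
    have h1 : algebraMap (𝓞 K) K (t c) * algebraMap (𝓞 K) K (y i) =
        algebraMap (𝓞 K) K c₀ * algebraMap (𝓞 K) K (z i) := by
      have h2 := congrArg (algebraMap (𝓞 K) K) (hz i)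
      rw [map_mul, map_mul] at h2
      exact h2
    rw [hy'] at h1
    rw [div_mul_eq_mul_div, eq_div_iff hc0K, mul_comm, ← h1, mul_assoc]
  refine ⟨algebraMap (𝓞 K) K (t c) * algebraMap (𝓞 K) K (b : 𝓞 K) / algebraMap (𝓞 K) K c₀, z,
    div_ne_zero (mul_ne_zero htK hb0) hc0K, fun i => hzK i, ?_, hne⟩
  have h1 : Ideal.absNorm (Ideal.span (Set.range z)) ∣ Ideal.absNorm (Ideal.span {t c}) :=
    Ideal.absNorm_dvd_absNorm_of_le ((Ideal.span_singleton_le_iff_mem _).2 htmem)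
  have h2 : Ideal.absNorm (Ideal.span {t c}) ≠ 0 := by
    rw [Ne, Ideal.absNorm_eq_zero_iff, Ideal.span_singleton_eq_bot]
    exact ht0 c
  exact (Nat.le_of_dvd (Nat.pos_of_ne_zero h2) h1).trans
    (Finset.single_le_sum (f := fun c => Ideal.absNorm (Ideal.span {t c})) (fun _ _ => Nat.zero_le _)
      (Finset.mem_univ c))

end Pool.Agent.Lib.MP_17a322_nt.MV
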