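import Mathlib

/-!
Units which balance the absolute values.
-/

universe u

namespace Pool.Agent.Lib.MP_17a322_nt.MV

open NumberField

/-- PROOF: Mathlib: `NumberField.mixedEmbedding.fundamentalCone`: `exists_unit_smul_mem`, and the boundedness of
`fundamentalCone.normLeOne` (`isBounded_normLeOne`); apply them to the vector of the mixed space with the (real positive)
coordinates `t w`, and scale by the `D`-th root of the norm. -/
theorem exists_unit_bal (K : Type u) [Field K] [NumberField K] : ∃ C : ℝ, 1 ≤ C ∧ ∀ t : InfinitePlace K → ℝ,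
    (∀ w, 0 < t w) → ∃ u : (𝓞 K)ˣ, ∀ w : InfinitePlace K,
      (w ((u : 𝓞 K) : K) * t w) ^ Module.finrank ℚ K ≤ C * ∏ w', t w' ^ w'.mult := by
  classical
  obtain ⟨R, hR⟩ := (mixedEmbedding.fundamentalCone.isBounded_normLeOne K).exists_norm_le
  set D := Module.finrank ℚ K with hD
  have hDpos : 0 < D := Module.finrank_pos
  refine ⟨max 1 (R ^ D), le_max_left _ _, fun t ht => ?_⟩
  let x : mixedEmbedding.mixedSpace K := (fun w => t w.1, fun w => (t w.1 : ℂ))
  have hx : ∀ w, mixedEmbedding.normAtPlace w x = t w := by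
    intro w
    rcases w.isReal_or_isComplex with h | h
    · rw [mixedEmbedding.normAtPlace_apply_of_isReal h]
      show ‖t w‖ = t w
      rw [Real.norm_eq_abs, abs_of_pos (ht w)]
    · rw [mixedEmbedding.normAtPlace_apply_of_isComplex h]
      show ‖(t w : ℂ)‖ = t w
      rw [Complex.norm_real, Real.norm_eq_abs, abs_of_pos (ht w)]
  set T : ℝ := ∏ w', t w' ^ w'.mult with hT
  have hTpos : 0 < T := Finset.prod_pos fun w _ => pow_pos (ht w) _
  have hnx : mixedEmbedding.norm x = T := by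
    rw [mixedEmbedding.norm_apply]
    exact Finset.prod_congr rfl fun w _ => by rw [hx w]
  obtain ⟨u, hu⟩ := mixedEmbedding.fundamentalCone.exists_unit_smul_mem (x := x) (by rw [hnx]; exact hTpos.ne')
  refine ⟨u, fun w => ?_⟩
  set c : ℝ := (T ^ ((1 : ℝ) / D))⁻¹ with hc
  have hTD : (T ^ ((1 : ℝ) / D)) ^ D = T := by
    rw [← Real.rpow_natCast, ← Real.rpow_mul hTpos.le, one_div, inv_mul_cancel₀ (by exact_mod_cast hDpos.ne'),
      Real.rpow_one]
  have hr : 0 < T ^ ((1 : ℝ) / D) := Real.rpow_pos_of_pos hTpos _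
  have hcpos : 0 < c := inv_pos.2 hr
  have hcD : c ^ D * T = 1 := by
    rw [hc, inv_pow, hTD, inv_mul_cancel₀ hTpos.ne']
  have hmem : c • (u • x) ∈ mixedEmbedding.fundamentalCone.normLeOne K := by
    refine mixedEmbedding.fundamentalCone.mem_normLeOne.2
      ⟨mixedEmbedding.fundamentalCone.smul_mem_of_mem hu hcpos.ne', ?_⟩
    rw [mixedEmbedding.norm_smul, mixedEmbedding.norm_unit_smul, hnx, abs_of_pos hcpos, ← hD, hcD]
  have h1 := hR _ hmem
  have h2 : mixedEmbedding.normAtPlace w (c • (u • x)) ≤ R := by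
    refine le_trans ?_ h1
    rw [mixedEmbedding.norm_eq_sup'_normAtPlace]
    exact Finset.le_sup' (fun w => mixedEmbedding.normAtPlace w (c • (u • x))) (Finset.mem_univ w)
  have h3 : mixedEmbedding.normAtPlace w (c • (u • x)) = c * (w ((u : 𝓞 K) : K) * t w) := by
    rw [mixedEmbedding.normAtPlace_smul, mixedEmbedding.unitSMul_smul, map_mul, mixedEmbedding.normAtPlace_apply,
      hx, abs_of_pos hcpos]
  rw [h3] at h2
  have h4 : 0 ≤ w ((u : 𝓞 K) : K) * t w := mul_nonneg (apply_nonneg _ _) (ht w).le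
  have h5 : (c * (w ((u : 𝓞 K) : K) * t w)) ^ D ≤ R ^ D := pow_le_pow_left₀ (mul_nonneg hcpos.le h4) h2 D
  rw [mul_pow] at h5
  have h6 : (w ((u : 𝓞 K) : K) * t w) ^ D = c ^ D * (w ((u : 𝓞 K) : K) * t w) ^ D * T := by
    have : c ^ D * (w ((u : 𝓞 K) : K) * t w) ^ D * T = (w ((u : 𝓞 K) : K) * t w) ^ D * (c ^ D * T) := by ring
    rw [this, hcD, mul_one]
  rw [h6]
  exact mul_le_mul_of_nonneg_right (h5.trans (le_max_right _ _)) hTpos.le

end Pool.Agent.Lib.MP_17a322_nt.MV
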