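import Pool.Agent.Lib.MP_17a322_nt.FQ.X9
import Pool.Agent.Lib.MP_17a322_nt.MG.C2a
import Pool.Agent.Lib.MP_17a322_nt.MV.W1a
import Pool.Agent.Lib.MP_17a322_nt.MV.W1b
import Pool.Agent.Lib.MP_17a322_nt.MV.WDefs

/-!
Balanced representatives of the points over a number field.
-/

universe u

namespace Pool.Agent.Lib.MP_17a322_nt.MV

open Height NumberField

private theorem W1_prod {K : Type u} [Field K] [NumberField K] {ι : Type} [Finite ι] (y : ι → 𝓞 K) :
    ∏ φ : K →+* ℂ, ⨆ a, ‖φ (y a)‖ = ∏ w : InfinitePlace K, (⨆ i, w (y i : K)) ^ w.mult := by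
  classical
  rw [← Finset.prod_fiberwise Finset.univ InfinitePlace.mk (fun φ : K →+* ℂ => ⨆ a, ‖φ (y a)‖)]
  refine Finset.prod_congr rfl fun w _ => ?_
  have h : ∀ φ ∈ (Finset.univ.filter fun φ : K →+* ℂ => InfinitePlace.mk φ = w),
      (⨆ a, ‖φ (y a)‖) = ⨆ i, w (y i : K) := by
    intro φ hφ
    rw [← (Finset.mem_filter.mp hφ).2]
    simp only [InfinitePlace.apply]
  rw [Finset.prod_congr rfl h, Finset.prod_const, InfinitePlace.card_filter_mk_eq]

private theorem W1_rat {κ : Type} [Finite κ] (c : κ → ℤ) (hc : c ≠ 0) (R : ℝ) (hR : ∀ i, |(c i : ℝ)| ≤ R) :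
    mulHeight (fun i => (c i : ℚ)) ≤ R := by
  classical
  have hne : Nonempty κ := by
    by_contra h
    rw [not_nonempty_iff] at h
    exact hc (Subsingleton.elim _ _)
  have hR0 : 0 ≤ R := (abs_nonneg _).trans (hR hne.some)
  set z : κ → 𝓞 ℚ := fun i => (c i : 𝓞 ℚ) with hz
  have hzc : ∀ i, ((z i : 𝓞 ℚ) : ℚ) = (c i : ℚ) := fun i => map_intCast (algebraMap (𝓞 ℚ) ℚ) (c i)
  have hz0 : z ≠ 0 := by
    intro h
    apply hc
    funext i
    have h1 : ((z i : 𝓞 ℚ) : ℚ) = 0 := by
      rw [h]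
      exact map_zero (algebraMap (𝓞 ℚ) ℚ)
    rw [hzc] at h1
    exact_mod_cast h1
  have h1 := FQ.mulHeight_int z hz0
  have h2 : (fun a => ((z a : 𝓞 ℚ) : ℚ)) = fun i => (c i : ℚ) := funext hzc
  rw [h2] at h1
  have h3 : ∏ φ : ℚ →+* ℂ, ⨆ a, ‖φ (z a)‖ ≤ R := by
    calc ∏ φ : ℚ →+* ℂ, ⨆ a, ‖φ (z a)‖ ≤ ∏ _φ : ℚ →+* ℂ, R := by
          refine Finset.prod_le_prod (fun φ _ => Real.iSup_nonneg fun a => norm_nonneg _) fun φ _ => ?_
          refine ciSup_le fun a => ?_
          have h4 : φ (z a : ℚ) = (c a : ℂ) := by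
            rw [hzc]
            exact map_intCast φ (c a)
          rw [h4, Complex.norm_intCast]
          exact hR a
      _ = R := by
          rw [Finset.prod_const, Finset.card_univ, Embeddings.card, Module.finrank_self, pow_one]
  have h5 : (1 : ℝ) ≤ ((Ideal.span (Set.range z)).absNorm : ℝ) := by
    have h6 : (Ideal.span (Set.range z)).absNorm ≠ 0 := by
      rw [Ne, Ideal.absNorm_eq_zero_iff, Ideal.span_eq_bot]
      intro h
      apply hz0
      funext i
      exact h (z i) ⟨i, rfl⟩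
    exact_mod_cast Nat.one_le_iff_ne_zero.mpr h6
  have h7 : 0 ≤ mulHeight (fun i => (c i : ℚ)) := zero_le_one.trans (one_le_mulHeight _)
  calc mulHeight (fun i => (c i : ℚ)) ≤ ((Ideal.span (Set.range z)).absNorm : ℝ) * mulHeight (fun i => (c i : ℚ)) :=
        le_mul_of_one_le_left h7 h5
    _ ≤ R := h1.le.trans h3

/-- PROOF: `ω` is the basis `RingOfIntegers.basis K` (as a basis of `K`: `integralBasis K`), reindexed by `Fin m`,
`m = finrank ℚ K`. For `p ≠ 0` take `a`, `y` from `exists_int`, and a unit `u` from `exists_unit_bal` for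
`t w = ⨆ i, w (y i)`. The vector `y' = u y` generates the same ideal; `mulHeight_int` (FQ/X9):
`absNorm * mulHeight p = ∏_φ ⨆ ‖φ (y_i)‖ = ∏_w t w ^ mult`; so `(w (y' i)) ^ m ≤ C N H(p)` for all `w` and `i`. By `coord_le`
(MG/C2a) the coordinates of the `y' i` are integers of absolute value at most `B R`, `R ^ m = C N H(p)`. The height of an
integral vector over `ℚ` is at most the maximum of the absolute values (`mulHeight_int` for `ℚ`, or `B1_le` in MV/B1, or
`Rat`-lemmas of Mathlib). So `m * logHeight (rs ω y') ≤ m log (B R) = logHeight p + const`. -/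
theorem exists_bal (K : Type u) [Field K] [NumberField K] : ∃ (m : ℕ) (ω : Module.Basis (Fin m) ℚ K),
    ∀ (ι : Type) [Fintype ι], Bal ω ι := by
  classical
  obtain ⟨N, hN⟩ := exists_int K
  obtain ⟨C, hC1, hC⟩ := exists_unit_bal K
  obtain ⟨B, hB1, hB⟩ := MG.coord_le K
  set m := Fintype.card (Module.Free.ChooseBasisIndex ℤ (𝓞 K)) with hm
  have hmD : Module.finrank ℚ K = m := Module.finrank_eq_card_basis (integralBasis K)
  have hm0 : m ≠ 0 := by
    rw [← hmD]
    exact (Module.finrank_pos (R := ℚ) (M := K)).ne'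
  let e := Fintype.equivFin (Module.Free.ChooseBasisIndex ℤ (𝓞 K))
  refine ⟨m, (integralBasis K).reindex e, fun ι _ => ⟨m * Real.log B + Real.log C + Real.log N, fun p hp => ?_⟩⟩
  obtain ⟨a, y, ha, hy, hyN, hyb⟩ := hN ι p hp
  have hne : Nonempty ι := by
    by_contra h
    rw [not_nonempty_iff] at h
    exact hp (Subsingleton.elim _ _)
  have hy0 : y ≠ 0 := by
    intro h
    apply hyb
    rw [h, Ideal.span_eq_bot]
    rintro _ ⟨i, rfl⟩
    rfl
  obtain ⟨i₀, hi₀⟩ := Function.ne_iff.mp hy0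
  have hbdd : ∀ w : InfinitePlace K, BddAbove (Set.range fun i => w (y i : K)) := fun w => Set.finite_range _ |>.bddAbove
  have ht : ∀ w : InfinitePlace K, 0 < ⨆ i, w (y i : K) := fun w => by
    have h1 : 0 < w (y i₀ : K) := by
      rw [InfinitePlace.pos_iff]
      exact fun h => hi₀ (RingOfIntegers.ext h)
    exact h1.trans_le (le_ciSup (hbdd w) i₀)
  obtain ⟨u, hu⟩ := hC (fun w => ⨆ i, w (y i : K)) ht
  have hu0 : ((u : 𝓞 K) : K) ≠ 0 := by
    intro h
    exact u.ne_zero (RingOfIntegers.ext h)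
  have hH1 : 1 ≤ mulHeight p := one_le_mulHeight p
  have hyp : (fun i => (y i : K)) = a • p := funext hy
  have hP : ∏ w : InfinitePlace K, (⨆ i, w (y i : K)) ^ w.mult = (Ideal.span (Set.range y)).absNorm * mulHeight p := by
    rw [← W1_prod, ← FQ.mulHeight_int y hy0, hyp, mulHeight_smul_eq_mulHeight p ha]
  have hN0 : (1 : ℝ) ≤ ((Ideal.span (Set.range y)).absNorm : ℝ) := by
    have h6 : (Ideal.span (Set.range y)).absNorm ≠ 0 := by
      rw [Ne, Ideal.absNorm_eq_zero_iff]
      exact hyb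
    exact_mod_cast Nat.one_le_iff_ne_zero.mpr h6
  have hN1 : (1 : ℝ) ≤ (N : ℝ) := hN0.trans (by exact_mod_cast hyN)
  set Q : ℝ := C * (N * mulHeight p) with hQ
  have hQ0 : 0 < Q := by positivity
  have hw : ∀ (w : InfinitePlace K) (i : ι), (w (((u : 𝓞 K) * y i : 𝓞 K) : K)) ^ m ≤ Q := by
    intro w i
    have h1 : w (((u : 𝓞 K) * y i : 𝓞 K) : K) = w ((u : 𝓞 K) : K) * w (y i : K) := by
      rw [← map_mul]
      rfl
    have h2 := hu w
    rw [hmD, hP] at h2
    calc (w (((u : 𝓞 K) * y i : 𝓞 K) : K)) ^ m ≤ (w ((u : 𝓞 K) : K) * ⨆ i, w (y i : K)) ^ m := by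
          rw [h1]
          exact pow_le_pow_left₀ (mul_nonneg (apply_nonneg w _) (apply_nonneg w _))
            (mul_le_mul_of_nonneg_left (le_ciSup (hbdd w) i) (apply_nonneg w _)) m
      _ ≤ C * ((Ideal.span (Set.range y)).absNorm * mulHeight p) := h2
      _ ≤ Q := by
          refine mul_le_mul_of_nonneg_left (mul_le_mul_of_nonneg_right ?_ (zero_le_one.trans hH1))
            (zero_le_one.trans hC1)
          exact_mod_cast hyN
  set R : ℝ := Q ^ ((m : ℝ)⁻¹) with hR
  have hR0 : 0 < R := Real.rpow_pos_of_pos hQ0 _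
  have hRm : R ^ m = Q := Real.rpow_inv_natCast_pow hQ0.le hm0
  have hwR : ∀ (w : InfinitePlace K) (i : ι), w (((u : 𝓞 K) * y i : 𝓞 K) : K) ≤ R := by
    intro w i
    have h1 := hw w i
    rw [← hRm] at h1
    exact (pow_le_pow_iff_left₀ (apply_nonneg w _) hR0.le hm0).mp h1
  refine ⟨(u : 𝓞 K) * a, mul_ne_zero hu0 ha, ?_⟩
  set c : ι × Fin m → ℤ := fun q => (RingOfIntegers.basis K).repr ((u : 𝓞 K) * y q.1) (e.symm q.2) with hc
  have hrs : rs ((integralBasis K).reindex e) ((((u : 𝓞 K) : K) * a) • p) = fun q => (c q : ℚ) := by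
    funext q
    show ((integralBasis K).reindex e).repr (((((u : 𝓞 K) : K) * a) • p) q.1) q.2 = (c q : ℚ)
    have h1 : ((((u : 𝓞 K) : K) * a) • p) q.1 = algebraMap (𝓞 K) K ((u : 𝓞 K) * y q.1) := by
      rw [map_mul]
      show ((u : 𝓞 K) : K) * a * p q.1 = ((u : 𝓞 K) : K) * (y q.1 : K)
      rw [hy, mul_assoc]
    rw [h1, Module.Basis.repr_reindex_apply, integralBasis_repr_apply]
    rfl
  have hc0 : c ≠ 0 := by
    intro h
    have h1 : rs ((integralBasis K).reindex e) ((((u : 𝓞 K) : K) * a) • p) = 0 := by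
      rw [hrs, h]
      funext q
      simp
    have h2 : ((((u : 𝓞 K) : K) * a) • p) = 0 := by
      funext i
      apply ((integralBasis K).reindex e).repr.injective
      rw [Pi.zero_apply, map_zero]
      refine Finsupp.ext fun j => ?_
      exact congrFun h1 (i, j)
    rw [smul_eq_zero] at h2
    rcases h2 with h2 | h2
    · exact mul_ne_zero hu0 ha h2
    · exact hp h2
  have hcR : ∀ q, |(c q : ℝ)| ≤ B * R := fun q => hB R ((u : 𝓞 K) * y q.1) hR0.le (fun w => hwR w q.1) (e.symm q.2)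
  have hfin := W1_rat c hc0 (B * R) hcR
  rw [hrs]
  have hB0 : 0 < B := zero_lt_one.trans_le hB1
  have h1 : logHeight (fun q => (c q : ℚ)) ≤ Real.log (B * R) := by
    rw [logHeight]
    exact Real.log_le_log (zero_lt_one.trans_le (one_le_mulHeight _)) hfin
  calc (m : ℝ) * logHeight (fun q => (c q : ℚ)) ≤ m * Real.log (B * R) :=
        mul_le_mul_of_nonneg_left h1 (Nat.cast_nonneg _)
    _ = m * Real.log B + Real.log (R ^ m) := by
        rw [Real.log_mul hB0.ne' hR0.ne', Real.log_pow]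
        ring
    _ = logHeight p + (m * Real.log B + Real.log C + Real.log N) := by
        rw [hRm, hQ, Real.log_mul (zero_lt_one.trans_le hC1).ne' (by positivity),
          Real.log_mul (zero_lt_one.trans_le hN1).ne' (by positivity), logHeight]
        ring

end Pool.Agent.Lib.MP_17a322_nt.MV
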