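import Pool.Agent.Lib.MP_17a322_nt.MV.A2
import Pool.Agent.Lib.MP_17a322_nt.MV.A3
import Pool.Agent.Lib.MP_17a322_nt.MV.A6
import Pool.Agent.Lib.MP_17a322_nt.FQ.X1
import Pool.Agent.Lib.MP_17a322_nt.MV.WDefs

/-!
The height of a space of vectors to which the derivatives of a vector are added.
-/

universe u

namespace Pool.Agent.Lib.MP_17a322_nt.MV

open Pool.Agent.Lib.MP_17a322_nt.FQ

private theorem W3_tt_ne {W α β : Type} [Field W] {a : α → W} {b : β → W} (ha : a ≠ 0) (hb : b ≠ 0) : tt a b ≠ 0 := by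
  obtain ⟨i, hi⟩ := Function.ne_iff.1 ha
  obtain ⟨j, hj⟩ := Function.ne_iff.1 hb
  exact Function.ne_iff.2 ⟨(i, j), mul_ne_zero hi hj⟩

private theorem W3_tpw_ne {W α : Type} [Field W] (r : ℕ) {x : α → W} (hx : x ≠ 0) : tpw r x ≠ 0 := by
  obtain ⟨i, hi⟩ := Function.ne_iff.1 hx
  refine Function.ne_iff.2 ⟨fun _ => i, ?_⟩
  rw [Pi.zero_apply]
  exact Finset.prod_ne_zero_iff.2 fun _ _ => hi

/-- coordinates with respect to independent vectors, on the whole space -/
private theorem W3_coord {E ι J : Type} [Field E] [Fintype ι] [Fintype J] [DecidableEq J] (e : J → ι → E)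
    (he : LinearIndependent E e) :
    ∃ g : (ι → E) →ₗ[E] (J → E), (∀ v ∈ Submodule.span E (Set.range e), ∑ j, g v j • e j = v) ∧
      ∀ u : J → E, g (∑ j, u j • e j) = u := by
  have hk : LinearMap.ker (Fintype.linearCombination E e) = ⊥ := by
    rw [LinearMap.ker_eq_bot']
    intro c hc
    rw [Fintype.linearCombination_apply] at hc
    exact funext (Fintype.linearIndependent_iff.1 he c hc)
  obtain ⟨g, hg⟩ := (Fintype.linearCombination E e).exists_leftInverse_of_injective hk
  have h0 : ∀ u : J → E, g (∑ j, u j • e j) = u := fun u => LinearMap.congr_fun hg u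
  refine ⟨g, fun v hv => ?_, h0⟩
  rw [← Fintype.range_linearCombination E e] at hv
  obtain ⟨c, rfl⟩ := hv
  have h1 : g (Fintype.linearCombination E e c) = c := h0 c
  rw [h1]
  rfl

/-- the values of a derivation at a point -/
private def W3_ev {E ι : Type} [Field E] [Algebra ℚ E] (x : ι → E) : Derivation ℚ E E →ₗ[E] (ι → E) where
  toFun D := fun a => D (x a)
  map_add' _ _ := rfl
  map_smul' _ _ := rfl

private theorem W3_L0 {E ι : Type} [Field E] [Algebra ℚ E] (x : ι → E) {u : ι → E} (hu : u ∈ L0 ℚ x) :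
    ∃ (c : E) (D : Derivation ℚ E E), u = c • x + W3_ev x D := by
  obtain ⟨c, z, hz, rfl⟩ := Submodule.mem_span_insert.1 hu
  have h1 : Submodule.span E (Set.range fun (D : Derivation ℚ E E) (a : ι) => D (x a)) ≤ LinearMap.range (W3_ev x) := by
    rw [Submodule.span_le]
    rintro _ ⟨D, rfl⟩
    exact ⟨D, rfl⟩
  obtain ⟨D, rfl⟩ := h1 hz
  exact ⟨c, D, rfl⟩

private theorem W3_ev_mem {E ι : Type} [Field E] [Algebra ℚ E] (x : ι → E) (D : Derivation ℚ E E) :
    W3_ev x D ∈ L0 ℚ x :=
  Submodule.subset_span (Set.mem_insert_of_mem _ ⟨D, rfl⟩)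

private theorem W3_x_mem {E ι : Type} [Field E] [Algebra ℚ E] (x : ι → E) : x ∈ L0 ℚ x :=
  Submodule.subset_span (Set.mem_insert _ _)

/-- the vectors of the chosen basis -/
private noncomputable def W3_bv {E κ : Type} [Field E] [Finite κ] (N : Submodule E (κ → E))
    (i : Fin (Module.finrank E N)) : κ → E :=
  ((Module.finBasis E N i : N) : κ → E)

private theorem W3_bv_li {E κ : Type} [Field E] [Finite κ] (N : Submodule E (κ → E)) :
    LinearIndependent E (W3_bv N) :=
  (Module.finBasis E N).linearIndependent.map' N.subtype N.ker_subtype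

private theorem W3_bv_span {E κ : Type} [Field E] [Finite κ] (N : Submodule E (κ → E)) :
    Submodule.span E (Set.range (W3_bv N)) = N := by
  have h1 : Set.range (W3_bv N) = N.subtype '' Set.range (Module.finBasis E N) := by
    rw [← Set.range_comp]
    rfl
  rw [h1, Submodule.span_image, (Module.finBasis E N).span_eq, Submodule.map_subtype_top]

private theorem W3_plu {E κ : Type} [Field E] [Finite κ] (N : Submodule E (κ → E)) :
    plu N = plk (W3_bv N) := by
  funext s
  rw [plk_apply, ← Matrix.det_transpose]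
  rfl

/-- the height of the minors of any basis -/
private theorem W3_lam_plu {E κ : Type} [Field E] [Algebra ℚ E] [Fintype κ] (H : Ht ℚ E) {ι : Type} [Fintype ι]
    [DecidableEq ι] {y : ι → κ → E} (hy : LinearIndependent E y) :
    H.lam (plk y) = H.lam (plu (Submodule.span E (Set.range y))) := by
  rw [W3_plu]
  set N := Submodule.span E (Set.range y) with hN
  have hcard : Fintype.card ι = Module.finrank E N := (finrank_span_eq_card hy).symm
  let e : ι ≃ Fin (Module.finrank E N) := Fintype.equivFinOfCardEq hcard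
  have hyN : ∀ i, y i ∈ N := fun i => Submodule.subset_span ⟨i, rfl⟩
  let t : ι → ι → E := fun i i' => (Module.finBasis E N).repr ⟨y i, hyN i⟩ (e i')
  have h1 : ∀ i, y i = ∑ i', t i i' • W3_bv N (e i') := by
    intro i
    have h2 := (Module.finBasis E N).sum_repr ⟨y i, hyN i⟩
    have h3 := congrArg (fun n : N => (n : κ → E)) h2
    simp only [Submodule.coe_sum, Submodule.coe_smul] at h3
    rw [← h3]
    exact (Equiv.sum_comp e fun l => (Module.finBasis E N).repr ⟨y i, hyN i⟩ l • W3_bv N l).symm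
  have h2 : y = fun i => ∑ i', t i i' • W3_bv N (e i') := funext h1
  have hb : LinearIndependent E fun i' => W3_bv N (e i') := (W3_bv_li N).comp e e.injective
  have hne := plk_ne_zero _ hb
  have hne' := plk_ne_zero _ hy
  have hdet : (Matrix.of t).det ≠ 0 := by
    intro h0
    rw [h2, plk_comb_vec, h0, zero_smul] at hne'
    exact hne' rfl
  have h3 : plk y = (Matrix.of t).det • plk fun i' => W3_bv N (e i') := by
    rw [← plk_comb_vec, ← h2]
  rw [h3, lam_smul H _ hdet _ hne]
  exact lam_congr H _ _ hne (plk_ne_zero _ (W3_bv_li N)) fun A =>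
    vn_plk_reindex A.1.valuation (fun l => W3_bv N l) e

private theorem W3_tpw {E κ : Type} [Field E] [Algebra ℚ E] [Fintype κ] (H : Ht ℚ E) (r : ℕ) {x : κ → E} (hx : x ≠ 0) :
    H.lam (tpw r x) = r * H.lam x := by
  have h1 := Lm_fam (H := H) (tpw r x) (W3_tpw_ne r hx)
  have h2 := Lm_fam_pow (H := H) x hx r
  have h3 : nm ℚ (tpw r x) = fun A : VQ ℚ E => nm ℚ x A ^ r := by
    funext A
    exact vn_tpw A.1.valuation r x
  rw [h3] at h1
  exact Lm_uniq h1 h2

/-- the minors of a block -/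
private theorem W3_block {W : Type*} [Field W] {κ : Type} {l r : ℕ} (e : Fin l ⊕ Fin r → κ → W)
    (w : Fin r → κ → W) (c' : Fin r → Fin l → W) (Λ : Fin r → Fin r → W)
    (hw : ∀ j, w j = ∑ i, c' j i • e (Sum.inl i) + ∑ i, Λ j i • e (Sum.inr i)) :
    plk (Sum.elim (fun j => e (Sum.inl j)) w) = (Matrix.of Λ).det • plk e := by
  have h2 : Sum.elim (fun j => e (Sum.inl j)) w = fun j => ∑ k,
      (Matrix.fromBlocks (1 : Matrix (Fin l) (Fin l) W) 0 (Matrix.of c') (Matrix.of Λ) j k) • e k := by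
    funext j b
    rcases j with j | j
    · rw [Sum.elim_inl, Finset.sum_apply, Fintype.sum_sum_type]
      simp only [Matrix.fromBlocks_apply₁₁, Matrix.fromBlocks_apply₁₂, Matrix.zero_apply, Pi.smul_apply,
        smul_eq_mul, zero_mul, Finset.sum_const_zero, add_zero, Matrix.one_apply, ite_mul, one_mul,
        Finset.sum_ite_eq, Finset.mem_univ, if_true]
    · rw [Sum.elim_inr, Finset.sum_apply, Fintype.sum_sum_type, hw j]
      simp only [Matrix.fromBlocks_apply₂₁, Matrix.fromBlocks_apply₂₂, Matrix.of_apply, Pi.add_apply,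
        Finset.sum_apply, Pi.smul_apply, smul_eq_mul]
  rw [h2, plk_comb_vec]
  have h3 : (Matrix.of fun j k => (Matrix.fromBlocks (1 : Matrix (Fin l) (Fin l) W) 0
      (Matrix.of c') (Matrix.of Λ) j k)) =
      Matrix.fromBlocks (1 : Matrix (Fin l) (Fin l) W) 0 (Matrix.of c') (Matrix.of Λ) := rfl
  rw [h3, Matrix.det_fromBlocks_zero₁₂, Matrix.det_one, one_mul]

/-- a rational matrix does not increase the norm -/
private theorem W3_mulb {E κ : Type} [Field E] [Algebra ℚ E] [Fintype κ] (b : κ → κ → ℚ) (A : VQ ℚ E) (u : κ → E) :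
    vn A.1.valuation (mulb b u) ≤ vn A.1.valuation u := by
  refine vn_le _ fun a => ?_
  show A.1.valuation (∑ c, algebraMap ℚ E (b a c) * u c) ≤ _
  refine Valuation.map_sum_le _ fun c _ => ?_
  rw [map_mul]
  by_cases hc : b a c = 0
  · rw [hc, map_zero, map_zero, zero_mul]
    exact zero_le
  · rw [val_alg A _ hc, one_mul]
    exact le_vn A.1.valuation u c

/-- PROOF: as `coreE` (MV/A7), simpler: no `z`, `y`, `s`, one block. Let `L' = L ⊔ (L0 ℚ x).map (mulb b)`,
`r = finrank L' - finrank L`. `e : Fin l ⊕ Fin r → κ → E` with `e ∘ inl` a basis of `L` and `e` a basis of `L'`;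
`φ i : (κ → E) →ₗ E` with `φ i (e j) = 1` if `j = inr i`, zero otherwise. `lam ⟨(), i⟩ D = φ i (mulb b (fun a => D (x a)))`,
`M = ⊤`, the common kernel of the `lam` is `{D | mulb b (D x) ∈ L}`. `hs`: `L'` is spanned by `L` and the
`mulb b (D x)` (as `mulb b x ∈ L`), so `D ↦ (lam i D)_i` is onto. `m₀` a model with `Fi ℚ x m₀` (`exists_model`, MV/A6).
`lemG` (MV/A2) with `C = Unit`, `P = plk e`, `Q = tt (plk (e ∘ inl)) (tpw r x)`: for valuation rings `A` and
`w j ∈ Der`: let `|x a₀|` be maximal, `w'_j = mulb b (w j x - (w j (x a₀) / x a₀) • x)`: `|w'_j| ≤ |x| mn x A (w j)`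
(the entries of `b` are rational: `|.| ≤ 1`), and `w'_j - mulb b (w j x) ∈ L`; `block_id` (MV/A3) with `π = id` for the
`w'_j`: `|det lam| |plk e| = |plk (e ∘ inl, w')| ≤ |plk (e ∘ inl)| ∏ |w'_j|` (`vn_plk_sum_le`, `vn_plk_le_prod` as in MV/A3).
(`block_id` has `Fin (k' + 1)` for the first block; generalise it or repeat it for `Fin l`; the case `l = 0` is possible only
if `mulb b x = 0`.) `hS` and `lemG` give `H.lam P ≤ H.lam Q = H.lam (plk (e ∘ inl)) + r * H.lam x`, and `H.lam` of `plu`
is the one of `plk` of any basis (`pH_eq` in FQ/X1 with `P` the standard basis, or `plk_comb_vec`, `lam_smul`). -/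
theorem step {E : Type} [Field E] [Algebra ℚ E] [FiniteDimensional E (Derivation ℚ E E)] (H : Ht ℚ E)
    (hS : ∀ {κ : Type} [Fintype κ] (m : κ → E), IsMd ℚ m → ∀ L, dg H m L ≤ dg H m ⊤)
    (hE : (⊤ : IntermediateField ℚ E).FG) {κ : Type} [Fintype κ] (x : κ → E) (hx : x ≠ 0) (b : κ → κ → ℚ)
    (L : Submodule E (κ → E)) (hb : mulb b x ∈ L) :
    H.lam (plu (L ⊔ (L0 ℚ x).map (mulb b))) + Module.finrank E L * H.lam x ≤
      H.lam (plu L) + Module.finrank E (L ⊔ (L0 ℚ x).map (mulb b) : Submodule E (κ → E)) * H.lam x := by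
  classical
  set L' : Submodule E (κ → E) := L ⊔ (L0 ℚ x).map (mulb b) with hL'
  have hLL : L ≤ L' := le_sup_left
  have hDL : ∀ D : Derivation ℚ E E, mulb b (W3_ev x D) ∈ L' := fun D =>
    Submodule.mem_sup_right ⟨_, W3_ev_mem x D, rfl⟩
  -- the model
  obtain ⟨κ₀, i₀, m₀, hm₀, hF₀⟩ := exists_model (k := ℚ) hE (C := Unit) (κ := fun _ => κ) (fun _ => x) (fun _ => hx)
  have hx₀ : Fi ℚ x m₀ := hF₀ ()
  -- the adapted basis
  obtain ⟨Q, hQ⟩ := Submodule.exists_isCompl L
  set Q' : Submodule E (κ → E) := Q ⊓ L' with hQ'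
  have hsup : L ⊔ Q' = L' := by
    rw [hQ', ← sup_inf_assoc_of_le Q hLL, hQ.sup_eq_top, top_inf_eq]
  have hdis : Disjoint L Q' := hQ.disjoint.mono_right inf_le_left
  have hfin : Module.finrank E L' = Module.finrank E L + Module.finrank E Q' := by
    have h1 := Submodule.finrank_sup_add_finrank_inf_eq L Q'
    rw [hsup, hdis.eq_bot, finrank_bot, add_zero] at h1
    exact h1
  obtain ⟨l, hl⟩ : ∃ l, Module.finrank E L = l := ⟨_, rfl⟩
  obtain ⟨r, hr⟩ : ∃ r, Module.finrank E Q' = r := ⟨_, rfl⟩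
  let e : Fin l ⊕ Fin r → κ → E := Sum.elim (fun i => W3_bv L (Fin.cast hl.symm i))
    (fun i => W3_bv Q' (Fin.cast hr.symm i))
  have hs1 : Submodule.span E (Set.range fun i => W3_bv L (Fin.cast hl.symm i)) = L := by
    have h1 : (Set.range fun i => W3_bv L (Fin.cast hl.symm i)) = Set.range (W3_bv L) :=
      (finCongr hl.symm).surjective.range_comp (W3_bv L)
    rw [h1, W3_bv_span]
  have hs2 : Submodule.span E (Set.range fun i => W3_bv Q' (Fin.cast hr.symm i)) = Q' := by
    have h1 : (Set.range fun i => W3_bv Q' (Fin.cast hr.symm i)) = Set.range (W3_bv Q') :=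
      (finCongr hr.symm).surjective.range_comp (W3_bv Q')
    rw [h1, W3_bv_span]
  have hli1 : LinearIndependent E fun i => W3_bv L (Fin.cast hl.symm i) :=
    (W3_bv_li L).comp _ (Fin.cast_injective _)
  have hli2 : LinearIndependent E fun i => W3_bv Q' (Fin.cast hr.symm i) :=
    (W3_bv_li Q').comp _ (Fin.cast_injective _)
  have he : LinearIndependent E e := by
    refine LinearIndependent.sum_type hli1 hli2 ?_
    rw [hs1, hs2]
    exact hdis
  have hspan : Submodule.span E (Set.range e) = L' := by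
    have h1 : Set.range e = (Set.range fun i => W3_bv L (Fin.cast hl.symm i)) ∪
        Set.range fun i => W3_bv Q' (Fin.cast hr.symm i) := Set.Sum.elim_range _ _
    rw [h1, Submodule.span_union, hs1, hs2, hsup]
  have hinl : Submodule.span E (Set.range fun j => e (Sum.inl j)) = L := hs1
  -- coordinates
  obtain ⟨g, hg, hguniq⟩ := W3_coord e he
  rw [hspan] at hg
  have hgL : ∀ v ∈ L, ∀ i, g v (Sum.inr i) = 0 := by
    intro v hv i
    rw [← hinl] at hv
    obtain ⟨u, hu⟩ := (Submodule.mem_span_range_iff_exists_fun E).1 hv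
    have h1 : v = ∑ j, (Sum.elim u (fun _ : Fin r => (0 : E))) j • e j := by
      rw [Fintype.sum_sum_type]
      simp only [Sum.elim_inl, Sum.elim_inr, zero_smul, Finset.sum_const_zero, add_zero]
      exact hu.symm
    rw [h1, hguniq]
    rfl
  -- the functionals
  let lam : (Σ _ : Unit, Fin r) → Derivation ℚ E E →ₗ[E] E := fun q =>
    (LinearMap.proj (Sum.inr q.2 : Fin l ⊕ Fin r)).comp (g.comp ((mulb b).comp (W3_ev x)))
  have hlam : ∀ (i : Fin r) D, lam ⟨(), i⟩ D = g (mulb b (W3_ev x D)) (Sum.inr i) := fun i D => rfl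
  let N : Submodule E (Derivation ℚ E E) := ⨅ q, LinearMap.ker (lam q)
  have hN : ∀ D, D ∈ N ↔ D ∈ (⊤ : Submodule E (Derivation ℚ E E)) ∧ ∀ q, lam q D = 0 := by
    intro D
    simp only [N, Submodule.mem_top, true_and, Submodule.mem_iInf, LinearMap.mem_ker]
  have hsurj : ∀ w : (Σ _ : Unit, Fin r) → E, ∃ D ∈ (⊤ : Submodule E (Derivation ℚ E E)), ∀ q, lam q D = w q := by
    intro w
    have hv : ∑ j, (Sum.elim (fun _ : Fin l => (0 : E)) (fun i => w ⟨(), i⟩)) j • e j ∈ L' := by
      rw [← hspan]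
      exact Submodule.sum_mem _ fun j _ => Submodule.smul_mem _ _ (Submodule.subset_span ⟨j, rfl⟩)
    rw [hL'] at hv
    obtain ⟨y, hy, z, hz, hyz⟩ := Submodule.mem_sup.1 hv
    obtain ⟨u, hu, rfl⟩ := hz
    obtain ⟨c, D, rfl⟩ := W3_L0 x hu
    refine ⟨D, Submodule.mem_top, fun q => ?_⟩
    obtain ⟨⟨⟩, i⟩ := q
    rw [hlam]
    have h1 : mulb b (W3_ev x D) =
        ∑ j, (Sum.elim (fun _ : Fin l => (0 : E)) (fun i => w ⟨(), i⟩)) j • e j - (y + c • mulb b x) := by
      rw [← hyz, map_add, map_smul]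
      abel
    rw [h1, map_sub, Pi.sub_apply, hguniq, hgL _ (L.add_mem hy (L.smul_mem c hb)) i, sub_zero]
    rfl
  have hP : plk e ≠ 0 := plk_ne_zero _ he
  have hli : LinearIndependent E fun j => e (Sum.inl j) := hli1
  have hQ0 : tt (plk fun j => e (Sum.inl j)) (tpw r x) ≠ 0 := W3_tt_ne (plk_ne_zero _ hli) (W3_tpw_ne r hx)
  have key := lemG H m₀ hm₀ ⊤ N (C := Unit) (fun _ => r) lam hN hsurj (κP := fun _ => Fin l ⊕ Fin r → κ)
    (κQ := fun _ => (Fin l → κ) × (Fin r → κ)) (fun _ => plk e)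
    (fun _ => tt (plk fun j => e (Sum.inl j)) (tpw r x)) (fun _ => hP) (fun _ => hQ0) (by
      rintro ⟨⟩ A w -
      have hvx : vn A.1.valuation x ≠ 0 := (vn_ne_zero A.1.valuation).2 hx
      obtain ⟨a₀, ha₀, hva₀⟩ := vn_attained' A.1.valuation hx
      let t : Fin r → E := fun j => w j (x a₀) / x a₀
      let u : Fin r → κ → E := fun j => W3_ev x (w j) - t j • x
      have hu : ∀ j, vn A.1.valuation (u j) ≤ vn A.1.valuation x * mn m₀ A (w j) := by
        intro j
        refine vn_le _ fun c => ?_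
        have h5 : x a₀ * u j c = ps x (a₀, c) (w j) := by
          show x a₀ * (w j (x c) - w j (x a₀) / x a₀ * x c) = x a₀ * w j (x c) - x c * w j (x a₀)
          field_simp
        have h0 : 0 < nm ℚ x A ^ 2 := pow_pos (zero_lt_iff.2 (nm_ne x hx A)) 2
        have h1 : mn x A (w j) * nm ℚ x A ^ 2 = nm ℚ (fun p => ps x p (w j)) A := div_mul_cancel₀ _ h0.ne'
        have h6 : A.1.valuation (ps x (a₀, c) (w j)) ≤ mn m₀ A (w j) * nm ℚ x A ^ 2 := by
          refine le_trans ?_ (mul_le_mul_left (hx₀ A (w j)) _)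
          rw [h1]
          exact le_nm (fun p => ps x p (w j)) A (a₀, c)
        rw [← h5, map_mul, hva₀] at h6
        have h7 : vn A.1.valuation x * A.1.valuation (u j c) ≤
            vn A.1.valuation x * (vn A.1.valuation x * mn m₀ A (w j)) := by
          refine h6.trans (le_of_eq ?_)
          show mn m₀ A (w j) * vn A.1.valuation x ^ 2 = _
          rw [pow_two]
          ac_rfl
        exact (mul_le_mul_iff_right₀ (zero_lt_iff.2 hvx)).1 h7
      have hW : ∀ j, mulb b (u j) ∈ L' := by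
        intro j
        show mulb b (W3_ev x (w j) - t j • x) ∈ L'
        rw [map_sub, map_smul]
        exact L'.sub_mem (hDL _) (L'.smul_mem _ (hLL hb))
      have hid := W3_block e (fun j => mulb b (u j)) (fun j i => g (mulb b (u j)) (Sum.inl i))
        (fun j i => lam ⟨(), i⟩ (w j)) (fun j => by
          have h1 := hg _ (hW j)
          rw [Fintype.sum_sum_type] at h1
          have h2 : ∀ i, g (mulb b (u j)) (Sum.inr i) = lam ⟨(), i⟩ (w j) := by
            intro i
            show g (mulb b (W3_ev x (w j) - t j • x)) (Sum.inr i) = g (mulb b (W3_ev x (w j))) (Sum.inr i)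
            rw [map_sub, map_sub, map_smul, map_smul, Pi.sub_apply, Pi.smul_apply, hgL _ hb, smul_zero, sub_zero]
          simp only [h2] at h1
          exact h1.symm)
      have h3 : A.1.valuation (Matrix.of fun j i => lam ⟨(), i⟩ (w j)).det * vn A.1.valuation (plk e) =
          vn A.1.valuation (plk (Sum.elim (fun j => e (Sum.inl j)) fun j => mulb b (u j))) := by
        rw [← vn_smul]
        exact congrArg (vn A.1.valuation) hid.symm
      show A.1.valuation (Matrix.of fun j i => lam ⟨(), i⟩ (w j)).det * vn A.1.valuation (plk e) ≤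
        vn A.1.valuation (tt (plk fun j => e (Sum.inl j)) (tpw r x)) * ∏ j, mn m₀ A (w j)
      rw [h3, vn_tt, vn_tpw, mul_assoc]
      refine (vn_plk_sum_le _ _ _).trans (mul_le_mul' le_rfl ((vn_plk_le_prod _ _).trans ?_))
      have h4 : vn A.1.valuation x ^ r * ∏ j, mn m₀ A (w j) = ∏ j, vn A.1.valuation x * mn m₀ A (w j) := by
        rw [Finset.prod_mul_distrib, Finset.prod_const, Finset.card_univ, Fintype.card_fin]
      rw [h4]
      exact Finset.prod_le_prod' fun j _ => (W3_mulb b A (u j)).trans (hu j))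
  have h2 := hS m₀ hm₀ N
  have h3 : H.lam (tt (plk fun j => e (Sum.inl j)) (tpw r x)) =
      H.lam (plk fun j => e (Sum.inl j)) + r * H.lam x := by
    rw [← W3_tpw H r hx]
    exact H1_lam_tn (plk_ne_zero _ hli) (W3_tpw_ne r hx)
  have h4 := W3_lam_plu H he
  have h5 := W3_lam_plu H hli
  rw [hspan] at h4
  rw [hinl] at h5
  rw [Fintype.sum_unique, h3, h4, h5] at key
  have h6 : (Module.finrank E L' : ℝ) = Module.finrank E L + r := by
    rw [hfin, hr]
    push_cast
    rfl
  rw [h6]
  linarith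

end Pool.Agent.Lib.MP_17a322_nt.MV
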